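import Pool.Agent.H906R3.K6.U2

set_option autoImplicit false

namespace H906K
open MeasureTheory Filter Topology Complex Set

theorem a1_cosh_ge (x : ℝ) : Real.exp |x| / 2 ≤ Real.cosh x := by
  rw [← Real.cosh_abs, Real.cosh_eq]
  have := Real.exp_pos (-|x|)
  linarith

theorem a1_int_abs (l : ℝ) : Integrable (fun u : ℝ => Real.exp (-|u - l|)) :=
  u2_exp_int.comp_sub_right l

theorem a1_kk_le (l u : ℝ) : kk (l - u) ≤ 3 / (2 * Real.pi) * Real.exp (-|u - l|) := by
  have hpi := Real.pi_pos
  have h1 : Real.exp |u - l| / 2 ≤ Real.cosh (3 * (l - u) / 2) := by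
    refine le_trans ?_ (a1_cosh_ge _)
    have : |u - l| ≤ |3 * (l - u) / 2| := by
      rw [abs_div, abs_mul, abs_sub_comm u l]
      have := abs_nonneg (l - u)
      norm_num
      linarith
    have := Real.exp_le_exp.mpr this
    linarith
  unfold kk
  rw [Real.exp_neg, div_mul_eq_mul_div, div_le_div_iff₀ (by positivity) (by positivity)]
  have h2 := Real.exp_pos |u - l|
  have h3 : (Real.exp |u - l|)⁻¹ * Real.cosh (3 * (l - u) / 2) ≥ 1 / 2 := by
    rw [ge_iff_le, inv_mul_eq_div, le_div_iff₀ h2]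
    linarith
  have h4 : 3 * (Real.exp |u - l|)⁻¹ * (4 * Real.pi * Real.cosh (3 * (l - u) / 2))
      = 12 * Real.pi * ((Real.exp |u - l|)⁻¹ * Real.cosh (3 * (l - u) / 2)) := by ring
  rw [h4]
  nlinarith

theorem a1_kk_pos (l : ℝ) : 0 < kk l := by
  have hpi := Real.pi_pos
  have := Real.cosh_pos (3 * l / 2)
  unfold kk
  positivity

theorem a1_kk_cont (l : ℝ) : Continuous (fun u : ℝ => kk (l - u)) := by
  have hpi := Real.pi_pos
  unfold kk
  refine Continuous.div continuous_const ?_ ?_
  · fun_prop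
  · intro u
    have := Real.cosh_pos (3 * (l - u) / 2)
    positivity

theorem a1_kk_int (l : ℝ) : Integrable (fun u : ℝ => kk (l - u)) := by
  refine ((a1_int_abs l).const_mul (3 / (2 * Real.pi))).mono'
    (a1_kk_cont l).aestronglyMeasurable (Eventually.of_forall fun u => ?_)
  rw [Real.norm_of_nonneg (a1_kk_pos _).le]
  exact a1_kk_le l u

theorem a1_sinh_top : Tendsto Real.sinh atTop atTop := by
  refine tendsto_atTop_mono' atTop ?_ tendsto_id
  filter_upwards [eventually_ge_atTop (0 : ℝ)] with x hx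
  exact Real.self_le_sinh_iff.mpr hx

theorem a1_sinh_bot : Tendsto Real.sinh atBot atBot := by
  refine tendsto_atBot_mono' atBot ?_ tendsto_id
  filter_upwards [eventually_le_atBot (0 : ℝ)] with x hx
  exact Real.sinh_le_self_iff.mpr hx

theorem a1_kk_integral (l : ℝ) : ∫ u : ℝ, kk (l - u) = 1 / 2 := by
  have hpi := Real.pi_pos
  have hd : ∀ u : ℝ, HasDerivAt
      (fun u : ℝ => 1 / (2 * Real.pi) * Real.arctan (Real.sinh (3 * (u - l) / 2)))
      (kk (l - u)) u := by
    intro u
    have h1 : HasDerivAt (fun u : ℝ => 3 * (u - l) / 2) (3 / 2) u := by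
      have := (((hasDerivAt_id u).sub_const l).const_mul 3).div_const 2
      simpa using this
    have h2 := ((h1.sinh).arctan).const_mul (1 / (2 * Real.pi))
    refine h2.congr_deriv ?_
    have h3 : 3 * (l - u) / 2 = -(3 * (u - l) / 2) := by ring
    unfold kk
    rw [h3, Real.cosh_neg]
    have h4 := Real.cosh_pos (3 * (u - l) / 2)
    have h5 : 1 + Real.sinh (3 * (u - l) / 2) ^ 2 = Real.cosh (3 * (u - l) / 2) ^ 2 := by
      rw [Real.cosh_sq]; ring
    rw [h5]
    field_simp
    norm_num
  have htop : Tendsto (fun u : ℝ => 1 / (2 * Real.pi) * Real.arctan (Real.sinh (3 * (u - l) / 2)))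
      atTop (𝓝 (1 / (2 * Real.pi) * (Real.pi / 2))) := by
    refine Tendsto.const_mul _ ?_
    have h1 : Tendsto (fun u : ℝ => 3 * (u - l) / 2) atTop atTop := by
      have : (fun u : ℝ => 3 * (u - l) / 2) = fun u => (3 / 2) * (u + -l) := by
        funext u; ring
      rw [this]
      exact (tendsto_atTop_add_const_right _ _ tendsto_id).const_mul_atTop (by norm_num)
    exact (tendsto_nhds_of_tendsto_nhdsWithin Real.tendsto_arctan_atTop).comp
      (a1_sinh_top.comp h1)
  have hbot : Tendsto (fun u : ℝ => 1 / (2 * Real.pi) * Real.arctan (Real.sinh (3 * (u - l) / 2)))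
      atBot (𝓝 (1 / (2 * Real.pi) * (-(Real.pi / 2)))) := by
    refine Tendsto.const_mul _ ?_
    have h1 : Tendsto (fun u : ℝ => 3 * (u - l) / 2) atBot atBot := by
      have : (fun u : ℝ => 3 * (u - l) / 2) = fun u => (3 / 2) * (u + -l) := by
        funext u; ring
      rw [this]
      exact (tendsto_atBot_add_const_right _ _ tendsto_id).const_mul_atBot (by norm_num)
    exact (tendsto_nhds_of_tendsto_nhdsWithin Real.tendsto_arctan_atBot).comp
      (a1_sinh_bot.comp h1)
  have h := integral_of_hasDerivAt_of_tendsto hd (a1_kk_int l) hbot htop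
  rw [h]
  field_simp
  norm_num

theorem a1_normSq_sinh (x y : ℝ) :
    Complex.normSq (Complex.sinh (x + y * I)) = Real.sinh x ^ 2 + Real.sin y ^ 2 := by
  have h1 : Complex.sinh (x + y * I) = (Real.sinh x * Real.cos y : ℝ)
      + (Real.cosh x * Real.sin y : ℝ) * I := by
    rw [Complex.sinh_add, Complex.sinh_mul_I, Complex.cosh_mul_I]
    push_cast
    ring
  rw [h1, Complex.normSq_add_mul_I]
  have h4 := Real.cosh_sq x
  have h5 := Real.sin_sq_add_cos_sq y
  rw [mul_pow, mul_pow, h4]
  linear_combination (Real.sinh x) ^ 2 * h5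

theorem a1_norm_sinh (x y : ℝ) : |Real.sinh x| ≤ ‖Complex.sinh (x + y * I)‖ := by
  have h3 : Real.sinh x ^ 2 ≤ Complex.normSq (Complex.sinh (x + y * I)) := by
    rw [a1_normSq_sinh]
    nlinarith [sq_nonneg (Real.sin y)]
  rw [← Complex.sq_norm] at h3
  exact abs_le_of_sq_le_sq' h3 (norm_nonneg _) |> fun h => abs_le.mpr h

theorem a1_arg (l : ℝ) (w : ℂ) :
    3 * ((l : ℂ) - w) / 2 = ((3 * (l - w.re) / 2 : ℝ) : ℂ) + ((-(3 * w.im / 2) : ℝ) : ℂ) * I := by
  conv_lhs => rw [← re_add_im w]
  push_cast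
  ring

theorem a1_line_int (g : ℂ → ℂ) (c : ℝ) (B : ℝ → ℝ) (hB : Integrable B)
    (hd : ∀ t : ℝ, DifferentiableAt ℂ g (t + c * I))
    (hb : ∀ t : ℝ, ‖g (t + c * I)‖ ≤ B t) : Integrable (fun t : ℝ => g (t + c * I)) := by
  refine hB.mono' ?_ (Eventually.of_forall fun t => hb t)
  have : Continuous (fun t : ℝ => g (t + c * I)) := by
    rw [continuous_iff_continuousAt]
    intro t
    refine ContinuousAt.comp (f := fun t : ℝ => ((t : ℂ) + c * I)) (hd t).continuousAt ?_
    fun_prop
  exact this.aestronglyMeasurable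

/-- the case `f l = 0` -/
theorem a1_zero (h : ℂ → ℂ) (K : ℝ)
    (hf : ∀ z : ℂ, |z.im| ≤ Real.pi / 3 → DifferentiableAt ℂ h z)
    (hb : ∀ z : ℂ, |z.im| ≤ Real.pi / 3 → ‖h z‖ ≤ K) (l : ℝ) (hl : h l = 0) :
    ∫ u : ℝ, (kk (l - u) : ℂ) * (h (u + Real.pi / 3 * I) + h (u - Real.pi / 3 * I)) = 0 := by
  have hpi := Real.pi_pos
  set s : ℂ → ℂ := fun w => Complex.sinh (3 * (l - w) / 2) with hs
  have hsd : Differentiable ℂ s := by
    intro w
    simp only [hs]
    fun_prop
  have hs0 : s l = 0 := by simp [hs]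
  have hsder : HasDerivAt s (-(3 / 2)) (l : ℂ) := by
    have h1 : HasDerivAt (fun w : ℂ => 3 * ((l : ℂ) - w) / 2) (-(3 / 2)) (l : ℂ) := by
      have := (((hasDerivAt_id (l : ℂ)).const_sub (l : ℂ)).const_mul 3).div_const 2
      refine this.congr_deriv ?_
      ring
    have h2 := h1.csinh
    refine h2.congr_deriv ?_
    simp
  -- sinh does not vanish in the strip except at `l`
  have hsne : ∀ w : ℂ, |w.im| ≤ Real.pi / 3 → w ≠ l → s w ≠ 0 := by
    intro w hw hwl hsw
    simp only [hs] at hsw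
    rw [a1_arg] at hsw
    have h1 := a1_normSq_sinh (3 * (l - w.re) / 2) (-(3 * w.im / 2))
    rw [hsw, Complex.normSq_zero] at h1
    have h2 : Real.sinh (3 * (l - w.re) / 2) = 0 := by
      have := sq_nonneg (Real.sin (-(3 * w.im / 2)))
      have := sq_nonneg (Real.sinh (3 * (l - w.re) / 2))
      exact pow_eq_zero_iff (two_ne_zero) |>.mp (by linarith)
    have h3 : Real.sin (-(3 * w.im / 2)) = 0 := by
      have := sq_nonneg (Real.sin (-(3 * w.im / 2)))
      have := sq_nonneg (Real.sinh (3 * (l - w.re) / 2))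
      exact pow_eq_zero_iff (two_ne_zero) |>.mp (by linarith)
    rw [Real.sinh_eq_zero] at h2
    have hw2 := abs_le.mp hw
    have h4 : -(3 * w.im / 2) = 0 := by
      refine (Real.sin_eq_zero_iff_of_lt_of_lt ?_ ?_).mp h3
      · linarith
      · linarith
    apply hwl
    apply Complex.ext
    · simp; linarith
    · simp; linarith
  set G : ℂ → ℂ := fun w => dslope h l w / dslope s l w with hG
  have hφ : ∀ w : ℂ, |w.im| ≤ Real.pi / 3 → dslope s l w ≠ 0 := by
    intro w hw
    by_cases hwl : w = l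
    · rw [hwl, dslope_same, hsder.deriv]
      norm_num
    · rw [dslope_of_ne _ hwl, slope_def_field, hs0, sub_zero]
      exact div_ne_zero (hsne w hw hwl) (sub_ne_zero.mpr hwl)
  have hGne : ∀ w : ℂ, |w.im| ≤ Real.pi / 3 → w ≠ l → G w = h w / s w := by
    intro w hw hwl
    have h1 := hsne w hw hwl
    have h2 := sub_ne_zero.mpr hwl
    simp only [hG]
    rw [dslope_of_ne _ hwl, dslope_of_ne _ hwl, slope_def_field, slope_def_field, hs0, hl,
      sub_zero, sub_zero]
    field_simp
  have hS : {z : ℂ | |z.im| ≤ Real.pi / 3} ∈ 𝓝 (l : ℂ) := by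
    have h1 : {z : ℂ | |z.im| < Real.pi / 3} ∈ 𝓝 (l : ℂ) := by
      refine IsOpen.mem_nhds ?_ ?_
      · exact isOpen_lt (by fun_prop) continuous_const
      · simp; positivity
    refine Filter.mem_of_superset h1 ?_
    intro z hz
    have hz' : |z.im| < Real.pi / 3 := hz
    exact hz'.le
  have hdG : ∀ w : ℂ, |w.im| ≤ Real.pi / 3 → DifferentiableAt ℂ G w := by
    intro w hw
    have h1 : DifferentiableAt ℂ (dslope h l) w := by
      by_cases hwl : w = l
      · have h2 : DifferentiableOn ℂ h {z : ℂ | |z.im| ≤ Real.pi / 3} :=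
          fun z hz => (hf z hz).differentiableWithinAt
        have h3 := (Complex.differentiableOn_dslope hS).mpr h2
        rw [hwl]
        exact h3.differentiableAt hS
      · exact (differentiableAt_dslope_of_ne hwl).mpr (hf w hw)
    have h4 : DifferentiableAt ℂ (dslope s l) w := by
      have h5 := (Complex.differentiableOn_dslope (Filter.univ_mem (f := 𝓝 (l : ℂ)))).mpr
        hsd.differentiableOn
      exact h5.differentiableAt Filter.univ_mem
    exact h1.div h4 (hφ w hw)
  -- bounds
  have hK : 0 ≤ K := (norm_nonneg _).trans (hb 0 (by simp; positivity))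
  obtain ⟨M, hM⟩ : ∃ M, ∀ w ∈ (Icc (l - 1) (l + 1)) ×ℂ (Icc (-(Real.pi / 3)) (Real.pi / 3)),
      ‖G w‖ ≤ M := by
    have hc : IsCompact ((Icc (l - 1) (l + 1)) ×ℂ (Icc (-(Real.pi / 3)) (Real.pi / 3))) :=
      isCompact_Icc.reProdIm isCompact_Icc
    refine hc.exists_bound_of_continuousOn ?_
    intro w hw
    rw [mem_reProdIm] at hw
    exact (hdG w (abs_le.mpr hw.2)).continuousAt.continuousWithinAt
  have hM0 : 0 ≤ M := (norm_nonneg _).trans (hM l (by
    rw [mem_reProdIm]; simp; positivity))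
  have hBd : ∀ t y : ℝ, -(Real.pi / 3) ≤ y → y ≤ Real.pi / 3 →
      ‖G (t + y * I)‖ ≤ (8 * K + M * Real.exp 1) * Real.exp (-|t - l|) := by
    intro t y h1 h2
    have him : |((t : ℂ) + y * I).im| ≤ Real.pi / 3 := by
      simpa [abs_le] using ⟨h1, h2⟩
    have he := Real.exp_pos (-|t - l|)
    by_cases ht : |t - l| ≤ 1
    · have h3 := hM (t + y * I) (by
        rw [mem_reProdIm]
        have := abs_le.mp ht
        simp only [add_re, ofReal_re, mul_re, I_re, mul_zero, ofReal_im, I_im, mul_one, sub_self,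
          add_zero, add_im, mul_im, zero_add]
        exact ⟨⟨by linarith, by linarith⟩, ⟨h1, h2⟩⟩)
      have h4 : 1 ≤ Real.exp 1 * Real.exp (-|t - l|) := by
        rw [← Real.exp_add]
        exact Real.one_le_exp (by linarith)
      calc ‖G (t + y * I)‖ ≤ M * 1 := by rw [mul_one]; exact h3
        _ ≤ M * (Real.exp 1 * Real.exp (-|t - l|)) := mul_le_mul_of_nonneg_left h4 hM0
        _ ≤ (8 * K + M * Real.exp 1) * Real.exp (-|t - l|) := by nlinarith [mul_nonneg hK he.le]
    · push Not at ht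
      have hne : (t : ℂ) + y * I ≠ l := by
        intro h
        have := congrArg Complex.re h
        simp at this
        rw [this] at ht
        simp at ht
        linarith
      rw [hGne _ him hne, norm_div]
      have h5 : Real.exp |t - l| / 4 ≤ ‖s (t + y * I)‖ := by
        simp only [hs]
        rw [a1_arg]
        refine le_trans ?_ (a1_norm_sinh _ _)
        have h6 : ((t : ℂ) + y * I).re = t := by simp
        rw [h6, Real.abs_sinh, Real.sinh_eq]
        have h7 : |t - l| ≤ |3 * (l - t) / 2| := by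
          rw [abs_div, abs_mul, abs_sub_comm t l]
          have := abs_nonneg (l - t)
          norm_num
          linarith
        have h8 := Real.exp_le_exp.mpr h7
        have h9 : Real.exp (-|3 * (l - t) / 2|) ≤ 1 / 2 * Real.exp |t - l| := by
          have h10 : Real.exp (-|3 * (l - t) / 2|) ≤ 1 := Real.exp_le_one_iff.mpr (by
            have := abs_nonneg (3 * (l - t) / 2); linarith)
          have h11 : 1 + 1 ≤ Real.exp |t - l| := by
            have := Real.add_one_le_exp (|t - l|)
            linarith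
          linarith
        linarith
      have h6 : 0 < Real.exp |t - l| := Real.exp_pos _
      rw [div_le_iff₀ (lt_of_lt_of_le (by positivity) h5)]
      have h7 : Real.exp (-|t - l|) * Real.exp |t - l| = 1 := by
        rw [← Real.exp_add]; simp
      calc ‖h (t + y * I)‖ ≤ K := hb _ him
        _ ≤ (8 * K + M * Real.exp 1) * Real.exp (-|t - l|) * (Real.exp |t - l| / 4) := by
          have : (8 * K + M * Real.exp 1) * Real.exp (-|t - l|) * (Real.exp |t - l| / 4)
            = (8 * K + M * Real.exp 1) / 4 * (Real.exp (-|t - l|) * Real.exp |t - l|) := by ring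
          rw [this, h7]
          nlinarith [mul_nonneg hM0 (Real.exp_pos 1).le]
        _ ≤ _ := mul_le_mul_of_nonneg_left h5 (by positivity)
  have hBi : Integrable (fun t : ℝ => (8 * K + M * Real.exp 1) * Real.exp (-|t - l|)) :=
    (a1_int_abs l).const_mul _
  have htop : Tendsto (fun t : ℝ => (8 * K + M * Real.exp 1) * Real.exp (-|t - l|))
      atTop (𝓝 0) := by
    have h1 := (u2_exp_top.comp (tendsto_atTop_add_const_right atTop (-l) tendsto_id)).const_mul
      (8 * K + M * Real.exp 1)
    simpa [Function.comp_def, sub_eq_add_neg] using h1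
  have hbot : Tendsto (fun t : ℝ => (8 * K + M * Real.exp 1) * Real.exp (-|t - l|))
      atBot (𝓝 0) := by
    have h1 := (u2_exp_bot.comp (tendsto_atBot_add_const_right atBot (-l) tendsto_id)).const_mul
      (8 * K + M * Real.exp 1)
    simpa [Function.comp_def, sub_eq_add_neg] using h1
  have hdG' : ∀ t y : ℝ, -(Real.pi / 3) ≤ y → y ≤ Real.pi / 3 →
      DifferentiableAt ℂ G (t + y * I) := by
    intro t y h1 h2
    refine hdG _ ?_
    simpa [abs_le] using ⟨h1, h2⟩
  have hmain := u2_strip G (-(Real.pi / 3)) (Real.pi / 3) (by linarith) _ hBi htop hbot hdG' hBd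
  have hi1 := a1_line_int G (-(Real.pi / 3)) _ hBi (fun t => hdG' t _ le_rfl (by linarith))
    (fun t => hBd t _ le_rfl (by linarith))
  have hi2 := a1_line_int G (Real.pi / 3) _ hBi (fun t => hdG' t _ (by linarith) le_rfl)
    (fun t => hBd t _ (by linarith) le_rfl)
  have hpt : ∀ u : ℝ, (kk (l - u) : ℂ) * (h (u + Real.pi / 3 * I) + h (u - Real.pi / 3 * I))
      = (3 / (4 * Real.pi)) * (-I) * (G (u + ((Real.pi / 3 : ℝ) : ℂ) * I)
        - G (u + ((-(Real.pi / 3) : ℝ) : ℂ) * I)) := by
    intro u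
    have hne1 : (u : ℂ) + ((Real.pi / 3 : ℝ) : ℂ) * I ≠ l := by
      intro hh
      have := congrArg Complex.im hh
      simp at this
    have hne2 : (u : ℂ) + ((-(Real.pi / 3) : ℝ) : ℂ) * I ≠ l := by
      intro hh
      have := congrArg Complex.im hh
      simp at this
    have him1 : |((u : ℂ) + ((Real.pi / 3 : ℝ) : ℂ) * I).im| ≤ Real.pi / 3 := by
      simp [abs_of_pos (show 0 < Real.pi / 3 by positivity)]
    have him2 : |((u : ℂ) + ((-(Real.pi / 3) : ℝ) : ℂ) * I).im| ≤ Real.pi / 3 := by
      simp [abs_of_pos (show 0 < Real.pi / 3 by positivity)]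
    rw [hGne _ him1 hne1, hGne _ him2 hne2]
    have hc : (Complex.cosh (3 * (l - u) / 2)) ≠ 0 := by
      have : Complex.cosh (3 * (l - u) / 2) = ((Real.cosh (3 * (l - u) / 2) : ℝ) : ℂ) := by
        push_cast; rfl
      rw [this]
      exact_mod_cast (Real.cosh_pos _).ne'
    have hs1 : s (u + ((Real.pi / 3 : ℝ) : ℂ) * I) = -I * Complex.cosh (3 * (l - u) / 2) := by
      simp only [hs]
      have : 3 * ((l : ℂ) - (u + ((Real.pi / 3 : ℝ) : ℂ) * I)) / 2
          = 3 * (l - u) / 2 - (Real.pi / 2 : ℂ) * I := by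
        push_cast; ring
      rw [this, Complex.sinh_sub, Complex.sinh_mul_I, Complex.cosh_mul_I, Complex.cos_pi_div_two,
        Complex.sin_pi_div_two]
      ring
    have hs2 : s (u + ((-(Real.pi / 3) : ℝ) : ℂ) * I) = I * Complex.cosh (3 * (l - u) / 2) := by
      simp only [hs]
      have : 3 * ((l : ℂ) - (u + ((-(Real.pi / 3) : ℝ) : ℂ) * I)) / 2
          = 3 * (l - u) / 2 + (Real.pi / 2 : ℂ) * I := by
        push_cast; ring
      rw [this, Complex.sinh_add, Complex.sinh_mul_I, Complex.cosh_mul_I, Complex.cos_pi_div_two,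
        Complex.sin_pi_div_two]
      ring
    rw [hs1, hs2]
    have hk : ((kk (l - u) : ℝ) : ℂ) = 3 / (4 * Real.pi * Complex.cosh (3 * (l - u) / 2)) := by
      unfold kk
      push_cast
      rfl
    have he1 : (u : ℂ) + Real.pi / 3 * I = u + ((Real.pi / 3 : ℝ) : ℂ) * I := by push_cast; ring
    have he2 : (u : ℂ) - Real.pi / 3 * I = u + ((-(Real.pi / 3) : ℝ) : ℂ) * I := by
      push_cast; ring
    rw [hk, he1, he2]
    have hpi' : (Real.pi : ℂ) ≠ 0 := by exact_mod_cast hpi.ne'
    have hI := Complex.I_ne_zero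
    field_simp
    ring
  simp_rw [hpt]
  rw [integral_const_mul, integral_sub hi2 hi1, hmain, sub_self, mul_zero]

theorem strip_rep (f : ℂ → ℂ) (K : ℝ)
    (hf : ∀ z : ℂ, |z.im| ≤ Real.pi / 3 → DifferentiableAt ℂ f z)
    (hb : ∀ z : ℂ, |z.im| ≤ Real.pi / 3 → ‖f z‖ ≤ K) (l : ℝ) :
    f l = ∫ u : ℝ, (kk (l - u) : ℂ) * (f (u + Real.pi / 3 * Complex.I)
      + f (u - Real.pi / 3 * Complex.I)) := by
  have hpi := Real.pi_pos
  have h0 := a1_zero (fun z => f z - f l) (K + ‖f l‖)
    (fun z hz => (hf z hz).sub_const _)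
    (fun z hz => (norm_sub_le _ _).trans (by have := hb z hz; linarith)) l (by simp)
  have him1 : ∀ u : ℝ, |((u : ℂ) + Real.pi / 3 * I).im| ≤ Real.pi / 3 := by
    intro u
    have : ((u : ℂ) + Real.pi / 3 * I) = u + ((Real.pi / 3 : ℝ) : ℂ) * I := by push_cast; ring
    rw [this]
    simp [abs_of_pos (show 0 < Real.pi / 3 by positivity)]
  have him2 : ∀ u : ℝ, |((u : ℂ) - Real.pi / 3 * I).im| ≤ Real.pi / 3 := by
    intro u
    have : ((u : ℂ) - Real.pi / 3 * I) = u - ((Real.pi / 3 : ℝ) : ℂ) * I := by push_cast; ring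
    rw [this]
    simp [abs_of_pos (show 0 < Real.pi / 3 by positivity)]
  have hi : Integrable (fun u : ℝ => (kk (l - u) : ℂ) * (f (u + Real.pi / 3 * Complex.I)
      + f (u - Real.pi / 3 * Complex.I))) := by
    refine ((a1_kk_int l).const_mul (2 * K)).mono' ?_ (Eventually.of_forall fun u => ?_)
    · have hc : Continuous (fun u : ℝ => (kk (l - u) : ℂ) * (f (u + Real.pi / 3 * Complex.I)
          + f (u - Real.pi / 3 * Complex.I))) := by
        refine (Complex.continuous_ofReal.comp (a1_kk_cont l)).mul (Continuous.add ?_ ?_)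
        · rw [continuous_iff_continuousAt]
          intro u
          refine ContinuousAt.comp (f := fun t : ℝ => ((t : ℂ) + Real.pi / 3 * I))
            (hf _ (him1 u)).continuousAt ?_
          fun_prop
        · rw [continuous_iff_continuousAt]
          intro u
          refine ContinuousAt.comp (f := fun t : ℝ => ((t : ℂ) - Real.pi / 3 * I))
            (hf _ (him2 u)).continuousAt ?_
          fun_prop
      exact hc.aestronglyMeasurable
    · rw [norm_mul, Complex.norm_real, Real.norm_of_nonneg (a1_kk_pos _).le, mul_comm]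
      refine mul_le_mul_of_nonneg_right ?_ (a1_kk_pos _).le
      have h1 := hb _ (him1 u)
      have h2 := hb _ (him2 u)
      exact (norm_add_le _ _).trans (by linarith)
  have hi2 : Integrable (fun u : ℝ => (kk (l - u) : ℂ) * (2 * f l)) :=
    (a1_kk_int l).ofReal.mul_const _
  have h1 : ∀ u : ℝ, (kk (l - u) : ℂ) * ((fun z => f z - f l) (u + Real.pi / 3 * I)
      + (fun z => f z - f l) (u - Real.pi / 3 * I))
      = (kk (l - u) : ℂ) * (f (u + Real.pi / 3 * Complex.I) + f (u - Real.pi / 3 * Complex.I))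
        - (kk (l - u) : ℂ) * (2 * f l) := by
    intro u
    ring
  simp_rw [h1] at h0
  have hk : ∫ u : ℝ, ((kk (l - u) : ℝ) : ℂ) = ((1 / 2 : ℝ) : ℂ) := by
    rw [← a1_kk_integral l]
    exact integral_ofReal
  rw [integral_sub hi hi2, integral_mul_const, hk, sub_eq_zero] at h0
  rw [h0]
  push_cast
  ring

end H906K
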