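import Pool.Agent.H906R3.K6.Defs2

namespace H906K
open Pool.Agent.H974R3 Polynomial MeasureTheory Filter Topology

theorem kk_pos (l : ℝ) : 0 < kk l := by
  unfold kk
  have := Real.cosh_pos (3 * l / 2)
  have := Real.pi_pos
  positivity

theorem kk_even (l : ℝ) : kk (-l) = kk l := by
  unfold kk
  have : 3 * (-l) / 2 = -(3 * l / 2) := by ring
  rw [this, Real.cosh_neg]

theorem kk_cont : Continuous kk := by
  unfold kk
  refine Continuous.div continuous_const ?_ ?_
  · exact continuous_const.mul (Real.continuous_cosh.comp (by fun_prop))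
  · intro l
    have := Real.cosh_pos (3 * l / 2)
    have := Real.pi_pos
    positivity

theorem a2a_cosh (x : ℝ) : Real.exp |x| / 2 ≤ Real.cosh x := by
  rw [Real.cosh_eq]
  rcases abs_cases x with ⟨h, _⟩ | ⟨h, _⟩ <;> rw [h]
  · have := Real.exp_pos (-x)
    linarith
  · have := Real.exp_pos x
    linarith

theorem kk_le (l : ℝ) : kk l ≤ 3 / (2 * Real.pi) * Real.exp (-(3 * |l| / 2)) := by
  unfold kk
  have h1 := a2a_cosh (3 * l / 2)
  have h2 : |3 * l / 2| = 3 * |l| / 2 := by
    rw [abs_div, abs_mul]; norm_num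
  rw [h2] at h1
  have hpi := Real.pi_pos
  have hc := Real.cosh_pos (3 * l / 2)
  have he := Real.exp_pos (3 * |l| / 2)
  rw [Real.exp_neg, div_mul_eq_mul_div, div_le_div_iff₀ (by positivity) (by positivity)]
  have h3 : 1 ≤ 2 * Real.cosh (3 * l / 2) * (Real.exp (3 * |l| / 2))⁻¹ := by
    rw [← div_eq_mul_inv, le_div_iff₀ he]
    linarith
  nlinarith [mul_le_mul_of_nonneg_left h3 (by positivity : (0:ℝ) ≤ 6 * Real.pi)]

theorem a2a_exp_integrable : Integrable (fun l : ℝ => Real.exp (-(3 * |l| / 2))) := by
  rw [← integrableOn_univ, ← Set.Iic_union_Ioi (a := (0 : ℝ))]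
  refine IntegrableOn.union ?_ ?_
  · refine (integrableOn_exp_mul_Iic (a := 3 / 2) (by norm_num) 0).congr_fun ?_ measurableSet_Iic
    intro x hx
    simp only [Set.mem_Iic] at hx
    simp only
    congr 1
    rw [abs_of_nonpos hx]; ring
  · refine (exp_neg_integrableOn_Ioi 0 (b := 3 / 2) (by norm_num)).congr_fun ?_ measurableSet_Ioi
    intro x hx
    simp only [Set.mem_Ioi] at hx
    simp only
    congr 1
    rw [abs_of_pos hx]; ring

theorem kk_integrable : Integrable kk := by
  refine (a2a_exp_integrable.const_mul (3 / (2 * Real.pi))).mono' kk_cont.aestronglyMeasurable ?_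
  refine Eventually.of_forall fun l => ?_
  rw [Real.norm_eq_abs, abs_of_pos (kk_pos l)]
  exact kk_le l

theorem kk_integral : ∫ u : ℝ, kk u = 1 / 2 := by
  have hd : ∀ l : ℝ, HasDerivAt (fun l => 1 / Real.pi * Real.arctan (Real.exp (3 * l / 2)))
      (kk l) l := by
    intro l
    have h1 : HasDerivAt (fun l : ℝ => 3 * l / 2) (3 / 2) l := by
      have := ((hasDerivAt_id l).const_mul 3).div_const 2
      simpa using this
    have h2 := (h1.exp.arctan).const_mul (1 / Real.pi)
    refine h2.congr_deriv ?_
    unfold kk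
    rw [Real.cosh_eq, Real.exp_neg]
    have he := Real.exp_pos (3 * l / 2)
    have hpi := Real.pi_pos
    field_simp
    ring
  have hbot : Tendsto (fun l => 1 / Real.pi * Real.arctan (Real.exp (3 * l / 2))) atBot (𝓝 0) := by
    have h1 : Tendsto (fun l : ℝ => 3 * l / 2) atBot atBot := by
      have : (fun l : ℝ => 3 * l / 2) = fun l => (3 / 2) * l := by funext l; ring
      rw [this]
      exact tendsto_id.const_mul_atBot (by norm_num)
    have h2 := Real.tendsto_exp_atBot.comp h1
    have h3 := (Real.continuous_arctan.tendsto 0).comp h2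
    have h4 := h3.const_mul (1 / Real.pi)
    simpa [Function.comp_def] using h4
  have htop : Tendsto (fun l => 1 / Real.pi * Real.arctan (Real.exp (3 * l / 2))) atTop
      (𝓝 (1 / 2)) := by
    have h1 : Tendsto (fun l : ℝ => 3 * l / 2) atTop atTop := by
      have : (fun l : ℝ => 3 * l / 2) = fun l => (3 / 2) * l := by funext l; ring
      rw [this]
      exact tendsto_id.const_mul_atTop (by norm_num)
    have h2 := Real.tendsto_exp_atTop.comp h1
    have h3 := Real.tendsto_arctan_atTop.comp h2
    have h3' := h3.mono_right nhdsWithin_le_nhds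
    have h4 := h3'.const_mul (1 / Real.pi)
    have h5 : 1 / Real.pi * (Real.pi / 2) = 1 / 2 := by
      have := Real.pi_pos
      field_simp
    rw [h5] at h4
    exact h4
  have := integral_of_hasDerivAt_of_tendsto hd kk_integrable hbot htop
  rw [this]; norm_num

theorem a2a_integral_shift (l : ℝ) : ∫ u : ℝ, kk (l - u) = 1 / 2 := by
  rw [integral_sub_left_eq_self kk volume l, kk_integral]

theorem a2a_integrable_shift (l : ℝ) : Integrable (fun u : ℝ => kk (l - u)) :=
  kk_integrable.comp_sub_left l

theorem kk_conv_le (f : ℝ → ℝ) (K : ℝ) (hf : Continuous f) (hK : ∀ u, |f u| ≤ K) (l : ℝ) :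
    |∫ u : ℝ, kk (l - u) * f u| ≤ K / 2 := by
  have h1 := norm_integral_le_of_norm_le (f := fun u => kk (l - u) * f u)
    ((a2a_integrable_shift l).mul_const K) (Eventually.of_forall fun u => by
      rw [norm_mul, Real.norm_eq_abs, Real.norm_eq_abs, abs_of_pos (kk_pos _)]
      exact mul_le_mul_of_nonneg_left (hK u) (kk_pos _).le)
  rw [Real.norm_eq_abs, integral_mul_const, a2a_integral_shift] at h1
  linarith

end H906K
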