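import Pool.Agent.H906R3.K6.Defs2

/-! Functional relations for the functions `Xc`, `hc`, `Bc`. -/

namespace H906K
open Pool.Agent.H974R3 Polynomial MeasureTheory Filter Topology

theorem g2_om1 : om ^ 2 + om + 1 = 0 := by
  have h : Real.sqrt 3 * Real.sqrt 3 = 3 := Real.mul_self_sqrt (by norm_num)
  apply Complex.ext
  · simp only [om, pow_two, Complex.add_re, Complex.mul_re, Complex.one_re, Complex.zero_re]
    nlinarith
  · simp only [om, pow_two, Complex.add_im, Complex.mul_im, Complex.one_im, Complex.zero_im]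
    ring

theorem g2_om2 : om ^ 2 = -om - 1 := by linear_combination g2_om1

theorem g2_om3 : om ^ 3 = 1 := by linear_combination (om - 1) * g2_om1

theorem g2_exp_p : Complex.exp (Real.pi / 3 * Complex.I) = -om ^ 2 := by
  have h : (Real.pi / 3 : ℂ) = ((Real.pi / 3 : ℝ) : ℂ) := by push_cast; ring
  rw [Complex.exp_mul_I, h, ← Complex.ofReal_cos, ← Complex.ofReal_sin, Real.cos_pi_div_three,
    Real.sin_pi_div_three, g2_om2]
  apply Complex.ext
  · simp [om]; norm_num
  · simp [om]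

theorem g2_exp_m : Complex.exp (-(Real.pi / 3 * Complex.I)) = -om := by
  rw [Complex.exp_neg, g2_exp_p]
  have h : om ≠ 0 := by
    intro h
    have := g2_om1
    rw [h] at this
    norm_num at this
  have h2 : -om ^ 2 ≠ 0 := neg_ne_zero.2 (pow_ne_zero 2 h)
  have h3 : (-om ^ 2) * (-om) = 1 := by linear_combination g2_om3
  exact inv_eq_of_mul_eq_one_right h3

theorem g2_exp_add (z : ℂ) : Complex.exp (z + Real.pi / 3 * Complex.I) = -om ^ 2 * Complex.exp z := by
  rw [Complex.exp_add, g2_exp_p]; ring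

theorem g2_exp_sub (z : ℂ) : Complex.exp (z - Real.pi / 3 * Complex.I) = -om * Complex.exp z := by
  rw [sub_eq_add_neg, Complex.exp_add, g2_exp_m]; ring

/-- `exp (3z) = 1` in the open strip of half width `2π/3` only at `0`. -/
theorem g2_strip {z : ℂ} (hz : |z.im| < 2 * Real.pi / 3) (h : Complex.exp (3 * z) = 1) : z = 0 := by
  rw [Complex.exp_eq_one_iff] at h
  obtain ⟨k, hk⟩ := h
  have hpi := Real.pi_pos
  have him := congrArg Complex.im hk
  simp at him
  have hk0 : k = 0 := by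
    have h1 : |3 * z.im| < 2 * Real.pi := by
      rw [abs_mul, abs_of_pos (show (0 : ℝ) < 3 by norm_num)]
      linarith
    rw [him, abs_mul, abs_of_pos (show 0 < 2 * Real.pi by positivity)] at h1
    have h2 : |(k : ℝ)| < 1 := by
      by_contra hcon
      push Not at hcon
      nlinarith
    have h3 : |k| < 1 := by exact_mod_cast h2
    exact Int.abs_lt_one_iff.1 h3
  rw [hk0] at hk
  simpa using hk

theorem g2_strip' {z : ℂ} (hz : |z.im| < Real.pi / 3) : Complex.exp (3 * z) ≠ -1 := by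
  intro h
  have h1 : Complex.exp (3 * (z + Real.pi / 3 * Complex.I)) = 1 := by
    have : 3 * (z + Real.pi / 3 * Complex.I) = 3 * z + Real.pi * Complex.I := by ring
    rw [this, Complex.exp_add, h, Complex.exp_pi_mul_I]
    ring
  have hpi := Real.pi_pos
  have him : (z + Real.pi / 3 * Complex.I).im = z.im + Real.pi / 3 := by
    have : (Real.pi / 3 * Complex.I : ℂ) = ((Real.pi / 3 : ℝ) : ℂ) * Complex.I := by push_cast; ring
    rw [this, Complex.add_im, Complex.im_ofReal_mul, Complex.I_im, mul_one]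
  have h2 := abs_lt.1 hz
  have h3 := g2_strip (z := z + Real.pi / 3 * Complex.I) (by
    rw [him, abs_lt]
    constructor <;> linarith) h1
  rw [h3] at him
  simp only [Complex.zero_im] at him
  linarith

/-- the nonvanishing of the denominators -/
theorem g2_ne {z : ℂ} (hz : |z.im| < 2 * Real.pi / 3) :
    Complex.exp (z / 2) ^ 3 + 1 ≠ 0 ∧ Complex.exp (z / 2) ^ 2 + Complex.exp (z / 2) + 1 ≠ 0 ∧
      1 - om * Complex.exp z ≠ 0 ∧ 1 - om ^ 2 * Complex.exp z ≠ 0 := by
  have hp : Complex.exp (z / 2) ^ 2 = Complex.exp z := by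
    rw [← Complex.exp_nat_mul]
    congr 1
    push_cast
    ring
  have h6 : Complex.exp z ^ 3 = 1 → z = 0 := by
    intro h
    apply g2_strip hz
    rw [← h, ← Complex.exp_nat_mul]
    norm_num
  have key : Complex.exp z ^ 3 = 1 → Complex.exp z = 1 ∧ Complex.exp (z / 2) = 1 := by
    intro h
    have := h6 h
    rw [this]
    simp
  have ho := g2_om1
  refine ⟨?_, ?_, ?_, ?_⟩
  · intro h
    have h1 : Complex.exp z ^ 3 = 1 := by
      rw [← hp]
      linear_combination (Complex.exp (z / 2) ^ 3 - 1) * h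
    rw [(key h1).2] at h
    norm_num at h
  · intro h
    have h1 : Complex.exp z ^ 3 = 1 := by
      rw [← hp]
      linear_combination (Complex.exp (z / 2) ^ 3 + 1) * (Complex.exp (z / 2) - 1) * h
    rw [(key h1).2] at h
    norm_num at h
  · intro h
    have h1 : Complex.exp z ^ 3 = 1 := by
      have h2 : om * Complex.exp z = 1 := by linear_combination -h
      have h3 : (om * Complex.exp z) ^ 3 = 1 := by rw [h2]; ring
      rw [mul_pow, g2_om3, one_mul] at h3
      exact h3
    rw [(key h1).1] at h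
    have h2 : om = 1 := by linear_combination -h
    rw [h2] at ho
    norm_num at ho
  · intro h
    have h2 : om ^ 2 * Complex.exp z = 1 := by linear_combination -h
    have h1 : Complex.exp z ^ 3 = 1 := by
      have h3 : (om ^ 2 * Complex.exp z) ^ 3 = 1 := by rw [h2]; ring
      have h4 : (om ^ 2 * Complex.exp z) ^ 3 = (om ^ 3) ^ 2 * Complex.exp z ^ 3 := by ring
      rw [h4, g2_om3] at h3
      simpa using h3
    rw [(key h1).1, mul_one] at h2
    rw [h2] at ho
    have h5 : om = -2 := by linear_combination ho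
    rw [h5] at h2
    norm_num at h2

theorem g2_den (x : ℂ) : (1 - om * x) * (1 - om ^ 2 * x) = 1 + x + x ^ 2 := by
  linear_combination x ^ 2 * g2_om3 - x * g2_om1

theorem g2_Xp (n : ℕ) (t : ℝ[X]) (z : ℂ) : Xc n t (z + Real.pi / 3 * Complex.I) =
    (t.map (algebraMap ℝ ℂ)).eval (om ^ 2 * (-Complex.exp z)) /
      (1 - om ^ 2 * Complex.exp z) ^ (2 * n + 1) := by
  unfold Xc
  rw [g2_exp_add, show -om ^ 2 * Complex.exp z = om ^ 2 * (-Complex.exp z) by ring,
    show 1 + om ^ 2 * (-Complex.exp z) = 1 - om ^ 2 * Complex.exp z by ring]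

theorem g2_Xm (n : ℕ) (t : ℝ[X]) (z : ℂ) : Xc n t (z - Real.pi / 3 * Complex.I) =
    (t.map (algebraMap ℝ ℂ)).eval (om * (-Complex.exp z)) /
      (1 - om * Complex.exp z) ^ (2 * n + 1) := by
  unfold Xc
  rw [g2_exp_sub, show -om * Complex.exp z = om * (-Complex.exp z) by ring,
    show 1 + om * (-Complex.exp z) = 1 - om * Complex.exp z by ring]

/-- the sum of the two shifted functions -/
theorem g2_sum {n : ℕ} {t1 t2 V1 V2 : ℝ[X]} (h : RPert n t1 t2 V1 V2) (z : ℂ)
    (hz : |z.im| < 2 * Real.pi / 3) :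
    Xc n t1 (z + Real.pi / 3 * Complex.I) + Xc n t1 (z - Real.pi / 3 * Complex.I)
      = (1 - Complex.exp z) ^ (2 * n + 1) * (V1.map (algebraMap ℝ ℂ)).eval (-Complex.exp z)
        / (1 + Complex.exp z + Complex.exp z ^ 2) ^ (2 * n + 1) := by
  obtain ⟨-, -, h3, h4⟩ := g2_ne hz
  have hd := h.d1 (-Complex.exp z)
  rw [g2_Xp, g2_Xm, ← g2_den, mul_pow]
  have h3' := pow_ne_zero (2 * n + 1) h3
  have h4' := pow_ne_zero (2 * n + 1) h4
  rw [div_add_div _ _ h4' h3', div_eq_div_iff (mul_ne_zero h4' h3') (mul_ne_zero h3' h4')]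
  have e1 : 1 + om ^ 2 * (-Complex.exp z) = 1 - om ^ 2 * Complex.exp z := by ring
  have e2 : 1 + om * (-Complex.exp z) = 1 - om * Complex.exp z := by ring
  have e3 : 1 + -Complex.exp z = 1 - Complex.exp z := by ring
  rw [e1, e2, e3] at hd
  linear_combination ((1 - om * Complex.exp z) ^ (2 * n + 1) *
    (1 - om ^ 2 * Complex.exp z) ^ (2 * n + 1)) * hd

theorem g2_one {n : ℕ} {t1 t2 V1 V2 : ℝ[X]} (h : RPert n t1 t2 V1 V2) (z : ℂ)
    (hz : |z.im| < 2 * Real.pi / 3) :
    Xc n t1 (z + Real.pi / 3 * Complex.I) + Xc n t1 (z - Real.pi / 3 * Complex.I)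
      = hc n V1 z * (Complex.tanh (3 * z / 4)) ^ (2 * n + 1) := by
  obtain ⟨h1, h2, h3, h4⟩ := g2_ne hz
  have hp : Complex.exp (z / 2) ^ 2 = Complex.exp z := by
    rw [← Complex.exp_nat_mul]
    congr 1
    push_cast
    ring
  have hden : 1 + Complex.exp z + Complex.exp z ^ 2 ≠ 0 := by
    rw [← g2_den]
    exact mul_ne_zero h3 h4
  have ht : Complex.tanh (3 * z / 4) =
      (Complex.exp (z / 2) ^ 3 - 1) / (Complex.exp (z / 2) ^ 3 + 1) := by
    have hq : Complex.exp (z / 2) ^ 3 = Complex.exp (3 * z / 4) * Complex.exp (3 * z / 4) := by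
      rw [← Complex.exp_nat_mul, ← Complex.exp_add]
      congr 1
      push_cast
      ring
    have hinv : Complex.exp (3 * z / 4) * Complex.exp (-(3 * z / 4)) = 1 := by
      rw [← Complex.exp_add]; simp
    rw [Complex.tanh_eq_sinh_div_cosh, Complex.sinh, Complex.cosh]
    have he := Complex.exp_ne_zero (3 * z / 4)
    have hc0 : (Complex.exp (3 * z / 4) + Complex.exp (-(3 * z / 4))) / 2 ≠ 0 := by
      intro h0
      apply h1
      rw [hq]
      linear_combination (2 * Complex.exp (3 * z / 4)) * h0 - hinv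
    rw [div_eq_div_iff hc0 h1, hq]
    linear_combination (-Complex.exp (3 * z / 4)) * hinv
  rw [g2_sum h z hz, ht]
  unfold hc
  rw [div_pow, div_pow, mul_pow, mul_pow]
  have h1' := pow_ne_zero (2 * n + 1) h1
  have h2' := pow_ne_zero (2 * n + 1) h2
  have hden' := pow_ne_zero (2 * n + 1) hden
  have hodd : (1 - Complex.exp z) ^ (2 * n + 1) = -(Complex.exp z - 1) ^ (2 * n + 1) := by
    rw [← neg_sub (Complex.exp z) 1, Odd.neg_pow ⟨n, rfl⟩]
  have hfac : (Complex.exp z - 1) ^ (2 * n + 1) *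
      (Complex.exp (z / 2) ^ 2 + Complex.exp (z / 2) + 1) ^ (2 * n + 1) =
      (Complex.exp (z / 2) + 1) ^ (2 * n + 1) * (Complex.exp (z / 2) ^ 3 - 1) ^ (2 * n + 1) := by
    rw [← mul_pow, ← mul_pow, ← hp]
    congr 1
    ring
  rw [hodd]
  generalize (Complex.exp z - 1) ^ (2 * n + 1) = A at *
  generalize (Complex.exp (z / 2) ^ 2 + Complex.exp (z / 2) + 1) ^ (2 * n + 1) = B at *
  generalize (Complex.exp (z / 2) + 1) ^ (2 * n + 1) = C' at *
  generalize (Complex.exp (z / 2) ^ 3 - 1) ^ (2 * n + 1) = D at *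
  generalize (Complex.exp (z / 2) ^ 3 + 1) ^ (2 * n + 1) = E at *
  generalize (1 + Complex.exp z + Complex.exp z ^ 2) ^ (2 * n + 1) = F at *
  generalize (V1.map (algebraMap ℝ ℂ)).eval (-Complex.exp z) = V at *
  have e1 : -V * (C' * E / (B * F)) * (D / E) = -V * (C' * D) / (B * F) := by
    field_simp
  rw [e1, ← hfac]
  field_simp

theorem rel_one {n : ℕ} {t1 t2 V1 V2 : ℝ[X]} (h : RPert n t1 t2 V1 V2) (z : ℂ)
    (hz : |z.im| ≤ Real.pi / 3) :
    Xc n t1 (z + Real.pi / 3 * Complex.I) + Xc n t1 (z - Real.pi / 3 * Complex.I)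
      = hc n V1 z * (Complex.tanh (3 * z / 4)) ^ (2 * n + 1) := by
  apply g2_one h z
  have := Real.pi_pos
  linarith

theorem g2_im_add (z : ℂ) : (z + Real.pi / 3 * Complex.I).im = z.im + Real.pi / 3 := by
  have : (Real.pi / 3 * Complex.I : ℂ) = ((Real.pi / 3 : ℝ) : ℂ) * Complex.I := by push_cast; ring
  rw [this, Complex.add_im, Complex.im_ofReal_mul, Complex.I_im, mul_one]

theorem g2_im_sub (z : ℂ) : (z - Real.pi / 3 * Complex.I).im = z.im - Real.pi / 3 := by
  have : (Real.pi / 3 * Complex.I : ℂ) = ((Real.pi / 3 : ℝ) : ℂ) * Complex.I := by push_cast; ring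
  rw [this, Complex.sub_im, Complex.im_ofReal_mul, Complex.I_im, mul_one]

theorem g2_Xpp (n : ℕ) (t : ℝ[X]) (z : ℂ) :
    Xc n t (z + Real.pi / 3 * Complex.I + Real.pi / 3 * Complex.I) =
    (t.map (algebraMap ℝ ℂ)).eval (om * Complex.exp z) /
      (1 + om * Complex.exp z) ^ (2 * n + 1) := by
  unfold Xc
  rw [g2_exp_add, g2_exp_add]
  have e : -om ^ 2 * (-om ^ 2 * Complex.exp z) = om * Complex.exp z := by
    linear_combination om * Complex.exp z * g2_om3
  rw [e]

theorem g2_Xmm (n : ℕ) (t : ℝ[X]) (z : ℂ) :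
    Xc n t (z - Real.pi / 3 * Complex.I - Real.pi / 3 * Complex.I) =
    (t.map (algebraMap ℝ ℂ)).eval (om ^ 2 * Complex.exp z) /
      (1 + om ^ 2 * Complex.exp z) ^ (2 * n + 1) := by
  unfold Xc
  rw [g2_exp_sub, g2_exp_sub]
  have e : -om * (-om * Complex.exp z) = om ^ 2 * Complex.exp z := by ring
  rw [e]

/-- nonvanishing of the factors of `1 + x^3` -/
theorem g2_ne' {z : ℂ} (hz : |z.im| < Real.pi / 3) :
    1 + Complex.exp z ≠ 0 ∧ 1 + om * Complex.exp z ≠ 0 ∧ 1 + om ^ 2 * Complex.exp z ≠ 0 := by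
  have h3 : 1 + Complex.exp z ^ 3 ≠ 0 := by
    intro h
    apply g2_strip' hz
    have : Complex.exp (3 * z) = Complex.exp z ^ 3 := by
      rw [← Complex.exp_nat_mul]; norm_num
    rw [this]
    linear_combination h
  have hf : (1 + Complex.exp z) * ((1 + om * Complex.exp z) * (1 + om ^ 2 * Complex.exp z)) =
      1 + Complex.exp z ^ 3 := by
    linear_combination (Complex.exp z ^ 2 + Complex.exp z ^ 3) * g2_om3 +
      (Complex.exp z + Complex.exp z ^ 2) * g2_om1
  rw [← hf] at h3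
  exact ⟨left_ne_zero_of_mul h3, left_ne_zero_of_mul (right_ne_zero_of_mul h3),
    right_ne_zero_of_mul (right_ne_zero_of_mul h3)⟩

theorem g2_cube (x : ℂ) : 1 + x ^ 3 = (1 + x) * ((1 + om * x) * (1 + om ^ 2 * x)) := by
  linear_combination (-(x ^ 2 + x ^ 3)) * g2_om3 - (x + x ^ 2) * g2_om1

/-- the second elementary symmetric function of the three values -/
theorem g2_e2 {n : ℕ} {t1 t2 V1 V2 : ℝ[X]} (h : RPert n t1 t2 V1 V2) (z : ℂ)
    (hz : |z.im| < Real.pi / 3) :
    Xc n t1 z * Xc n t1 (z + Real.pi / 3 * Complex.I + Real.pi / 3 * Complex.I)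
      + Xc n t1 (z + Real.pi / 3 * Complex.I + Real.pi / 3 * Complex.I)
        * Xc n t1 (z - Real.pi / 3 * Complex.I - Real.pi / 3 * Complex.I)
      + Xc n t1 (z - Real.pi / 3 * Complex.I - Real.pi / 3 * Complex.I) * Xc n t1 z = 9 := by
  obtain ⟨h1, h2, h3⟩ := g2_ne' hz
  have he := h.pert.e2 (Complex.exp z)
  rw [g2_cube, mul_pow, mul_pow] at he
  rw [g2_Xpp, g2_Xmm]
  unfold Xc
  have h1' := pow_ne_zero (2 * n + 1) h1
  have h2' := pow_ne_zero (2 * n + 1) h2
  have h3' := pow_ne_zero (2 * n + 1) h3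
  generalize (1 + Complex.exp z) ^ (2 * n + 1) = A at *
  generalize (1 + om * Complex.exp z) ^ (2 * n + 1) = B at *
  generalize (1 + om ^ 2 * Complex.exp z) ^ (2 * n + 1) = C' at *
  generalize (t1.map (algebraMap ℝ ℂ)).eval (Complex.exp z) = a at *
  generalize (t1.map (algebraMap ℝ ℂ)).eval (om * Complex.exp z) = b at *
  generalize (t1.map (algebraMap ℝ ℂ)).eval (om ^ 2 * Complex.exp z) = c at *
  field_simp
  linear_combination he

theorem rel_prod {n : ℕ} {t1 t2 V1 V2 : ℝ[X]} (h : RPert n t1 t2 V1 V2) (z : ℂ)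
    (hz : |z.im| < Real.pi / 3) :
    hc n V1 (z + Real.pi / 3 * Complex.I) * hc n V1 (z - Real.pi / 3 * Complex.I)
      = 9 + Xc n t1 z ^ 2 := by
  have hpi := Real.pi_pos
  have hz2 := abs_lt.1 hz
  have hp := g2_one h (z + Real.pi / 3 * Complex.I) (by
    rw [g2_im_add, abs_lt]; constructor <;> linarith)
  have hm := g2_one h (z - Real.pi / 3 * Complex.I) (by
    rw [g2_im_sub, abs_lt]; constructor <;> linarith)
  rw [add_sub_cancel_right] at hp
  rw [sub_add_cancel] at hm
  have he := g2_e2 h z hz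
  have htanh : Complex.tanh (3 * (z + Real.pi / 3 * Complex.I) / 4) *
      Complex.tanh (3 * (z - Real.pi / 3 * Complex.I) / 4) = 1 := by
    have e1 : 3 * (z + Real.pi / 3 * Complex.I) / 4 = 3 * z / 4 + Real.pi / 4 * Complex.I := by ring
    have e2 : 3 * (z - Real.pi / 3 * Complex.I) / 4 = 3 * z / 4 - Real.pi / 4 * Complex.I := by ring
    rw [e1, e2]
    set w : ℂ := 3 * z / 4 with hw
    have hs : Complex.sin (Real.pi / 4) ^ 2 = 1 / 2 := by
      have : (Real.pi / 4 : ℂ) = ((Real.pi / 4 : ℝ) : ℂ) := by push_cast; ring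
      rw [this, ← Complex.ofReal_sin, Real.sin_pi_div_four]
      rw [← Complex.ofReal_pow, div_pow, Real.sq_sqrt (by norm_num)]
      norm_num
    have hc : Complex.cos (Real.pi / 4) ^ 2 = 1 / 2 := by
      have : (Real.pi / 4 : ℂ) = ((Real.pi / 4 : ℝ) : ℂ) := by push_cast; ring
      rw [this, ← Complex.ofReal_cos, Real.cos_pi_div_four]
      rw [← Complex.ofReal_pow, div_pow, Real.sq_sqrt (by norm_num)]
      norm_num
    have hcosh : Complex.cosh (w + Real.pi / 4 * Complex.I) *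
        Complex.cosh (w - Real.pi / 4 * Complex.I) = Complex.sinh w ^ 2 + 1 / 2 := by
      rw [Complex.cosh_add, Complex.cosh_sub, Complex.cosh_mul_I, Complex.sinh_mul_I]
      have h1 := Complex.cosh_sq w
      have hI : Complex.I ^ 2 = -1 := Complex.I_sq
      linear_combination (Complex.cos (Real.pi / 4) ^ 2) * h1 + (Complex.sinh w ^ 2 + 1) * hc +
        (Complex.sinh w ^ 2) * hs - (Complex.sinh w ^ 2 * Complex.sin (Real.pi / 4) ^ 2) * hI
    have hsinh : Complex.sinh (w + Real.pi / 4 * Complex.I) *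
        Complex.sinh (w - Real.pi / 4 * Complex.I) = Complex.sinh w ^ 2 + 1 / 2 := by
      rw [Complex.sinh_add, Complex.sinh_sub, Complex.cosh_mul_I, Complex.sinh_mul_I]
      have h1 := Complex.cosh_sq w
      have hI : Complex.I ^ 2 = -1 := Complex.I_sq
      linear_combination (Complex.sin (Real.pi / 4) ^ 2) * h1 + (Complex.sinh w ^ 2) * hc +
        (Complex.sinh w ^ 2 + 1) * hs - (Complex.cosh w ^ 2 * Complex.sin (Real.pi / 4) ^ 2) * hI
    have hne : Complex.sinh w ^ 2 + 1 / 2 ≠ 0 := by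
      intro h0
      have h1 : Complex.cosh (2 * w) = 0 := by
        rw [Complex.cosh_two_mul]
        have h1 := Complex.cosh_sq w
        linear_combination h1 + 2 * h0
      apply g2_strip' hz
      have h2 : Complex.exp (2 * w) + Complex.exp (-(2 * w)) = 0 := by
        rw [Complex.cosh] at h1
        linear_combination 2 * h1
      have h3 : Complex.exp (2 * w) * Complex.exp (-(2 * w)) = 1 := by
        rw [← Complex.exp_add]; simp
      have h4 : Complex.exp (3 * z) = Complex.exp (2 * w) * Complex.exp (2 * w) := by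
        rw [← Complex.exp_add, hw]
        congr 1
        ring
      rw [h4]
      linear_combination Complex.exp (2 * w) * h2 - h3
    rw [Complex.tanh_eq_sinh_div_cosh, Complex.tanh_eq_sinh_div_cosh, div_mul_div_comm, hsinh,
      hcosh, div_self hne]
  have hT : Complex.tanh (3 * (z + Real.pi / 3 * Complex.I) / 4) ^ (2 * n + 1) *
      Complex.tanh (3 * (z - Real.pi / 3 * Complex.I) / 4) ^ (2 * n + 1) = 1 := by
    rw [← mul_pow, htanh, one_pow]
  set a := Complex.tanh (3 * (z + Real.pi / 3 * Complex.I) / 4) ^ (2 * n + 1)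
  set b := Complex.tanh (3 * (z - Real.pi / 3 * Complex.I) / 4) ^ (2 * n + 1)
  calc hc n V1 (z + Real.pi / 3 * Complex.I) * hc n V1 (z - Real.pi / 3 * Complex.I)
      = (hc n V1 (z + Real.pi / 3 * Complex.I) * a) * (hc n V1 (z - Real.pi / 3 * Complex.I) * b) := by
        linear_combination (-(hc n V1 (z + Real.pi / 3 * Complex.I) *
          hc n V1 (z - Real.pi / 3 * Complex.I))) * hT
    _ = 9 + Xc n t1 z ^ 2 := by
        rw [← hp, ← hm]
        linear_combination he

/-- complex version of the second relation, in terms of polynomials -/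
theorem g2_two {n : ℕ} {t1 t2 V1 V2 : ℝ[X]} (h : RPert n t1 t2 V1 V2) (z : ℂ)
    (hz : |z.im| < 2 * Real.pi / 3)
    (hV : (V1.map (algebraMap ℝ ℂ)).eval (-Complex.exp z) ≠ 0) :
    Xc n t2 (z + Real.pi / 3 * Complex.I) + Xc n t2 (z - Real.pi / 3 * Complex.I)
      + Xc n t1 (z + Real.pi / 3 * Complex.I) * Xc n t1 (z - Real.pi / 3 * Complex.I)
      = Bc V1 V2 z * (Xc n t1 (z + Real.pi / 3 * Complex.I)
        + Xc n t1 (z - Real.pi / 3 * Complex.I)) := by
  obtain ⟨-, -, h3, h4⟩ := g2_ne hz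
  have hd := h.d2 (-Complex.exp z)
  rw [g2_sum h z hz, g2_Xp, g2_Xm, g2_Xp, g2_Xm, ← g2_den, mul_pow]
  unfold Bc
  have h3' := pow_ne_zero (2 * n + 1) h3
  have h4' := pow_ne_zero (2 * n + 1) h4
  have e1 : 1 + om ^ 2 * (-Complex.exp z) = 1 - om ^ 2 * Complex.exp z := by ring
  have e2 : 1 + om * (-Complex.exp z) = 1 - om * Complex.exp z := by ring
  have e3 : 1 + -Complex.exp z = 1 - Complex.exp z := by ring
  rw [e1, e2, e3] at hd
  generalize (1 - om * Complex.exp z) ^ (2 * n + 1) = A at *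
  generalize (1 - om ^ 2 * Complex.exp z) ^ (2 * n + 1) = B at *
  generalize (1 - Complex.exp z) ^ (2 * n + 1) = C' at *
  generalize (t1.map (algebraMap ℝ ℂ)).eval (om * (-Complex.exp z)) = a at *
  generalize (t1.map (algebraMap ℝ ℂ)).eval (om ^ 2 * (-Complex.exp z)) = b at *
  generalize (t2.map (algebraMap ℝ ℂ)).eval (om * (-Complex.exp z)) = c at *
  generalize (t2.map (algebraMap ℝ ℂ)).eval (om ^ 2 * (-Complex.exp z)) = d at *
  generalize (V1.map (algebraMap ℝ ℂ)).eval (-Complex.exp z) = v at *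
  generalize (V2.map (algebraMap ℝ ℂ)).eval (-Complex.exp z) = w at *
  field_simp
  linear_combination hd

theorem g2_V {n : ℕ} {t1 t2 V1 V2 : ℝ[X]} (h : RPert n t1 t2 V1 V2) (z : ℂ)
    (hz : ∀ r : ℝ, 0 < r → -Complex.exp z ≠ r) :
    (V1.map (algebraMap ℝ ℂ)).eval (-Complex.exp z) ≠ 0 := by
  intro h0
  obtain ⟨r, hr, hr2⟩ := h.roots _ h0
  exact hz r hr hr2

theorem rel_two {n : ℕ} {t1 t2 V1 V2 : ℝ[X]} (h : RPert n t1 t2 V1 V2) (u : ℝ) :
    Xc n t2 (u + Real.pi / 3 * Complex.I) + Xc n t2 (u - Real.pi / 3 * Complex.I)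
      + Xc n t1 (u + Real.pi / 3 * Complex.I) * Xc n t1 (u - Real.pi / 3 * Complex.I)
      = Bc V1 V2 u * (Xc n t1 (u + Real.pi / 3 * Complex.I)
        + Xc n t1 (u - Real.pi / 3 * Complex.I)) := by
  have hpi := Real.pi_pos
  apply g2_two h u (by simp; positivity)
  apply g2_V h
  intro r hr hcon
  rw [← Complex.ofReal_exp, ← Complex.ofReal_neg] at hcon
  have := Complex.ofReal_injective hcon
  have := Real.exp_pos u
  linarith

theorem rel_B {n : ℕ} {t1 t2 V1 V2 : ℝ[X]} (h : RPert n t1 t2 V1 V2) (u : ℝ) :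
    (Bc V1 V2 (u + Real.pi / 3 * Complex.I) + Bc V1 V2 (u - Real.pi / 3 * Complex.I))
      * (9 + Xc n t1 u ^ 2) = 2 * Xc n t1 u * (Xc n t2 u + 9 / 2) := by
  have hpi := Real.pi_pos
  have hu : |(u : ℂ).im| < Real.pi / 3 := by simp; positivity
  have hs3 : 0 < Real.sqrt 3 := Real.sqrt_pos.2 (by norm_num)
  have hVp : (V1.map (algebraMap ℝ ℂ)).eval (-Complex.exp (u + Real.pi / 3 * Complex.I)) ≠ 0 := by
    apply g2_V h
    intro r hr hcon
    rw [g2_exp_add, g2_om2, ← Complex.ofReal_exp] at hcon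
    have := congrArg Complex.im hcon
    simp [om] at this
    rw [Complex.exp_ofReal_re] at this
    have := Real.exp_pos u
    linarith
  have hVm : (V1.map (algebraMap ℝ ℂ)).eval (-Complex.exp (u - Real.pi / 3 * Complex.I)) ≠ 0 := by
    apply g2_V h
    intro r hr hcon
    rw [g2_exp_sub, ← Complex.ofReal_exp] at hcon
    have := congrArg Complex.im hcon
    simp [om] at this
    rw [Complex.exp_ofReal_re] at this
    have := Real.exp_pos u
    linarith
  have hp := g2_two h (u + Real.pi / 3 * Complex.I) (by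
    rw [g2_im_add, abs_lt]; simp only [Complex.ofReal_im]; constructor <;> linarith) hVp
  have hm := g2_two h (u - Real.pi / 3 * Complex.I) (by
    rw [g2_im_sub, abs_lt]; simp only [Complex.ofReal_im]; constructor <;> linarith) hVm
  rw [add_sub_cancel_right] at hp
  rw [sub_add_cancel] at hm
  have he := g2_e2 h u hu
  -- the third relation
  have he3 : Xc n t1 u * Xc n t2 (u + Real.pi / 3 * Complex.I + Real.pi / 3 * Complex.I)
      + Xc n t2 u * Xc n t1 (u + Real.pi / 3 * Complex.I + Real.pi / 3 * Complex.I)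
      + (Xc n t1 (u + Real.pi / 3 * Complex.I + Real.pi / 3 * Complex.I)
          * Xc n t2 (u - Real.pi / 3 * Complex.I - Real.pi / 3 * Complex.I)
        + Xc n t2 (u + Real.pi / 3 * Complex.I + Real.pi / 3 * Complex.I)
          * Xc n t1 (u - Real.pi / 3 * Complex.I - Real.pi / 3 * Complex.I))
      + (Xc n t1 (u - Real.pi / 3 * Complex.I - Real.pi / 3 * Complex.I) * Xc n t2 u
        + Xc n t2 (u - Real.pi / 3 * Complex.I - Real.pi / 3 * Complex.I) * Xc n t1 u)
      + Xc n t1 u * Xc n t1 (u + Real.pi / 3 * Complex.I + Real.pi / 3 * Complex.I)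
        * Xc n t1 (u - Real.pi / 3 * Complex.I - Real.pi / 3 * Complex.I) = 0 := by
    obtain ⟨h1, h2, h3⟩ := g2_ne' hu
    have he := h.pert.e3 (Complex.exp u)
    rw [g2_Xpp, g2_Xmm, g2_Xpp, g2_Xmm]
    unfold Xc
    have h1' := pow_ne_zero (2 * n + 1) h1
    have h2' := pow_ne_zero (2 * n + 1) h2
    have h3' := pow_ne_zero (2 * n + 1) h3
    generalize (1 + Complex.exp (u : ℂ)) ^ (2 * n + 1) = A at *
    generalize (1 + om * Complex.exp (u : ℂ)) ^ (2 * n + 1) = B at *
    generalize (1 + om ^ 2 * Complex.exp (u : ℂ)) ^ (2 * n + 1) = C' at *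
    generalize (t1.map (algebraMap ℝ ℂ)).eval (Complex.exp (u : ℂ)) = a at *
    generalize (t1.map (algebraMap ℝ ℂ)).eval (om * Complex.exp (u : ℂ)) = b at *
    generalize (t1.map (algebraMap ℝ ℂ)).eval (om ^ 2 * Complex.exp (u : ℂ)) = c at *
    generalize (t2.map (algebraMap ℝ ℂ)).eval (Complex.exp (u : ℂ)) = a' at *
    generalize (t2.map (algebraMap ℝ ℂ)).eval (om * Complex.exp (u : ℂ)) = b' at *
    generalize (t2.map (algebraMap ℝ ℂ)).eval (om ^ 2 * Complex.exp (u : ℂ)) = c' at *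
    field_simp
    linear_combination he
  set X0 := Xc n t1 u
  set X1 := Xc n t1 (u + Real.pi / 3 * Complex.I + Real.pi / 3 * Complex.I)
  set X2 := Xc n t1 (u - Real.pi / 3 * Complex.I - Real.pi / 3 * Complex.I)
  set y0 := Xc n t2 u
  set y1 := Xc n t2 (u + Real.pi / 3 * Complex.I + Real.pi / 3 * Complex.I)
  set y2 := Xc n t2 (u - Real.pi / 3 * Complex.I - Real.pi / 3 * Complex.I)
  set Bp := Bc V1 V2 (u + Real.pi / 3 * Complex.I)
  set Bm := Bc V1 V2 (u - Real.pi / 3 * Complex.I)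
  have h9 : 9 + X0 ^ 2 = (X0 + X1) * (X0 + X2) := by linear_combination -he
  rw [h9]
  linear_combination (-(X0 + X2)) * hp + (-(X0 + X1)) * hm + he3 + X0 * he

end H906K
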