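import Pool.Agent.H906R3.K6.Defs2
import Pool.Agent.H906R3.K6.A2a

namespace H906K
open Pool.Agent.H974R3 Polynomial MeasureTheory Filter Topology

/-- the derivative of the kernel -/
noncomputable def a2b_kk' (l : ℝ) : ℝ := -(3 / 2 * Real.tanh (3 * l / 2)) * kk l

theorem a2b_hasDerivAt (l : ℝ) : HasDerivAt kk (a2b_kk' l) l := by
  have h1 : HasDerivAt (fun l : ℝ => 3 * l / 2) (3 / 2) l := by
    have := ((hasDerivAt_id l).const_mul 3).div_const 2
    simpa using this
  have h2 := (h1.cosh).const_mul (4 * Real.pi)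
  have hc := Real.cosh_pos (3 * l / 2)
  have hpi := Real.pi_pos
  have h3 := (hasDerivAt_const l (3 : ℝ)).div h2 (by positivity)
  refine h3.congr_deriv ?_
  unfold a2b_kk' kk
  rw [Real.tanh_eq_sinh_div_cosh]
  field_simp
  ring

theorem a2b_tanh_le (x : ℝ) : |Real.tanh x| ≤ 1 := by
  rw [abs_le]
  exact ⟨(Real.neg_one_lt_tanh x).le, (Real.tanh_lt_one x).le⟩

theorem a2b_kk'_le (l : ℝ) : |a2b_kk' l| ≤ 3 / 2 * kk l := by
  unfold a2b_kk'
  rw [abs_mul, abs_neg, abs_mul, abs_of_pos (kk_pos l), abs_of_pos (by norm_num : (0:ℝ) < 3 / 2)]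
  have := a2b_tanh_le (3 * l / 2)
  have hk := kk_pos l
  nlinarith

theorem a2b_kk'_cont : Continuous a2b_kk' := by
  unfold a2b_kk'
  refine Continuous.mul ?_ kk_cont
  have : Continuous (fun l : ℝ => Real.tanh (3 * l / 2)) := by
    have h : (fun l : ℝ => Real.tanh (3 * l / 2)) =
        fun l => Real.sinh (3 * l / 2) / Real.cosh (3 * l / 2) := by
      funext l; rw [Real.tanh_eq_sinh_div_cosh]
    rw [h]
    refine Continuous.div (Real.continuous_sinh.comp (by fun_prop))
      (Real.continuous_cosh.comp (by fun_prop)) (fun l => (Real.cosh_pos _).ne')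
  fun_prop

theorem a2b_kk'_integrable : Integrable a2b_kk' := by
  refine (kk_integrable.const_mul (3 / 2)).mono' a2b_kk'_cont.aestronglyMeasurable ?_
  exact Eventually.of_forall fun l => by
    rw [Real.norm_eq_abs]; exact a2b_kk'_le l

/-- a uniform bound of the kernel near `l - u` -/
theorem a2b_local (l x u : ℝ) (hx : |x - l| ≤ 1) :
    kk (x - u) ≤ 3 / (2 * Real.pi) * Real.exp (3 / 2) * Real.exp (-(3 * |l - u| / 2)) := by
  refine (kk_le _).trans ?_
  rw [mul_assoc]
  refine mul_le_mul_of_nonneg_left ?_ (by have := Real.pi_pos; positivity)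
  rw [← Real.exp_add]
  apply Real.exp_le_exp.2
  have h1 : |l - u| ≤ |x - u| + |x - l| := by
    have : l - u = (x - u) - (x - l) := by ring
    rw [this]
    exact abs_sub _ _
  linarith

theorem a2b_deriv1 (f : ℝ → ℝ) (K : ℝ) (hf : Continuous f) (hK : ∀ u, |f u| ≤ K) (l : ℝ) :
    HasDerivAt (fun l => ∫ u : ℝ, kk (l - u) * f u) (∫ u : ℝ, a2b_kk' (l - u) * f u) l := by
  have hK0 : 0 ≤ K := (abs_nonneg _).trans (hK 0)
  have hexp : Integrable (fun u : ℝ => Real.exp (-(3 * |l - u| / 2))) :=
    a2a_exp_integrable.comp_sub_left l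
  have hb : Integrable (fun u : ℝ => 3 / 2 * (3 / (2 * Real.pi) * Real.exp (3 / 2) *
      Real.exp (-(3 * |l - u| / 2))) * K) := ((hexp.const_mul _).const_mul _).mul_const K
  have hint : Integrable (fun u : ℝ => kk (l - u) * f u) := by
    refine ((a2a_integrable_shift l).mul_const K).mono'
      ((kk_cont.comp (by fun_prop)).mul hf).aestronglyMeasurable ?_
    exact Eventually.of_forall fun u => by
      rw [norm_mul, Real.norm_eq_abs, Real.norm_eq_abs, abs_of_pos (kk_pos _)]
      exact mul_le_mul_of_nonneg_left (hK u) (kk_pos _).le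
  have := hasDerivAt_integral_of_dominated_loc_of_deriv_le (μ := volume)
    (F := fun x u => kk (x - u) * f u) (F' := fun x u => a2b_kk' (x - u) * f u)
    (x₀ := l) (s := Metric.ball l 1) (Metric.ball_mem_nhds l one_pos)
    (bound := fun u : ℝ => 3 / 2 * (3 / (2 * Real.pi) * Real.exp (3 / 2) *
      Real.exp (-(3 * |l - u| / 2))) * K)
    (Eventually.of_forall fun x => ((kk_cont.comp (by fun_prop)).mul hf).aestronglyMeasurable)
    hint ((a2b_kk'_cont.comp (by fun_prop)).mul hf).aestronglyMeasurable
    (Eventually.of_forall fun u x hx => by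
      rw [Metric.mem_ball, Real.dist_eq] at hx
      rw [norm_mul, Real.norm_eq_abs, Real.norm_eq_abs]
      refine mul_le_mul ?_ (hK u) (abs_nonneg _) (by have := Real.pi_pos; positivity)
      refine (a2b_kk'_le _).trans ?_
      exact mul_le_mul_of_nonneg_left (a2b_local l x u hx.le) (by norm_num))
    hb
    (Eventually.of_forall fun u x _ => by
      have h1 : HasDerivAt (fun x : ℝ => x - u) 1 x := (hasDerivAt_id x).sub_const u
      have h2 := (a2b_hasDerivAt (x - u)).comp x h1
      simpa using h2.mul_const (f u))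
  exact this.2

theorem a2b_parts (f : ℝ → ℝ) (K : ℝ) (hf : Nice f) (hK : ∀ u, |f u| ≤ K) (l : ℝ) :
    ∫ u : ℝ, a2b_kk' (l - u) * f u = ∫ u : ℝ, kk (l - u) * deriv f u := by
  obtain ⟨hd, hc, hi⟩ := hf
  have hu : ∀ x : ℝ, HasDerivAt (fun u => kk (l - u)) (-a2b_kk' (l - x)) x := by
    intro x
    have h1 : HasDerivAt (fun u : ℝ => l - u) (-1) x := by
      simpa using (hasDerivAt_id x).const_sub l
    have h2 := (a2b_hasDerivAt (l - x)).comp x h1
    refine HasDerivAt.congr_deriv h2 ?_
    ring
  have hv : ∀ x : ℝ, HasDerivAt f (deriv f x) x := fun x => (hd x).hasDerivAt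
  have hpi := Real.pi_pos
  have hkb : ∀ x, |kk x| ≤ 3 / (2 * Real.pi) := by
    intro x
    rw [abs_of_pos (kk_pos x)]
    refine (kk_le x).trans ?_
    have : Real.exp (-(3 * |x| / 2)) ≤ 1 := by
      rw [Real.exp_le_one_iff]
      have := abs_nonneg x
      linarith
    have h3 : 0 ≤ 3 / (2 * Real.pi) := by positivity
    nlinarith
  have i1 : Integrable ((fun u => kk (l - u)) * deriv f) := by
    refine (hi.norm.const_mul (3 / (2 * Real.pi))).mono'
      ((kk_cont.comp (by fun_prop)).mul hc).aestronglyMeasurable ?_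
    exact Eventually.of_forall fun u => by
      rw [Pi.mul_apply, norm_mul, Real.norm_eq_abs, Real.norm_eq_abs]
      exact mul_le_mul_of_nonneg_right (hkb _) (abs_nonneg _)
  have i2 : Integrable ((fun u => -a2b_kk' (l - u)) * f) := by
    refine ((a2b_kk'_integrable.comp_sub_left l).norm.mul_const K).mono'
      (((a2b_kk'_cont.comp (by fun_prop)).neg).mul hd.continuous).aestronglyMeasurable ?_
    exact Eventually.of_forall fun u => by
      rw [Pi.mul_apply, norm_mul, norm_neg, Real.norm_eq_abs, Real.norm_eq_abs]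
      exact mul_le_mul_of_nonneg_left (hK u) (abs_nonneg _)
  have i3 : Integrable ((fun u => kk (l - u)) * f) := by
    refine ((a2a_integrable_shift l).mul_const K).mono'
      ((kk_cont.comp (by fun_prop)).mul hd.continuous).aestronglyMeasurable ?_
    exact Eventually.of_forall fun u => by
      rw [Pi.mul_apply, norm_mul, Real.norm_eq_abs, Real.norm_eq_abs, abs_of_pos (kk_pos _)]
      exact mul_le_mul_of_nonneg_left (hK u) (kk_pos _).le
  have h := integral_mul_deriv_eq_deriv_mul_of_integrable (fun x _ => hu x)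
    (fun x _ => hv x) i1 i2 i3
  rw [h, ← integral_neg]
  refine integral_congr_ae (Eventually.of_forall fun x => ?_)
  simp only
  ring

/-- differentiation of the convolution -/
theorem kk_conv_nice (f : ℝ → ℝ) (K : ℝ) (hf : Nice f) (hK : ∀ u, |f u| ≤ K) :
    Nice (fun l => ∫ u : ℝ, kk (l - u) * f u) ∧
    ∀ l, deriv (fun l => ∫ u : ℝ, kk (l - u) * f u) l = ∫ u : ℝ, kk (l - u) * deriv f u := by
  have hder : ∀ l, deriv (fun l => ∫ u : ℝ, kk (l - u) * f u) l =
      ∫ u : ℝ, kk (l - u) * deriv f u := by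
    intro l
    rw [(a2b_deriv1 f K hf.1.continuous hK l).deriv, a2b_parts f K hf hK l]
  refine ⟨⟨fun l => (a2b_deriv1 f K hf.1.continuous hK l).differentiableAt, ?_, ?_⟩, hder⟩
  · have h1 : deriv (fun l => ∫ u : ℝ, kk (l - u) * f u) =
        fun l => ∫ u : ℝ, kk (l - u) * deriv f u := funext hder
    rw [h1]
    have hpi := Real.pi_pos
    refine continuous_of_dominated (bound := fun u => 3 / (2 * Real.pi) * ‖deriv f u‖)
      (fun l => ((kk_cont.comp (by fun_prop)).mul hf.2.1).aestronglyMeasurable) ?_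
      (hf.2.2.norm.const_mul _) ?_
    · intro l
      refine Eventually.of_forall fun u => ?_
      rw [norm_mul]
      refine mul_le_mul_of_nonneg_right ?_ (norm_nonneg _)
      rw [Real.norm_eq_abs, abs_of_pos (kk_pos _)]
      refine (kk_le _).trans ?_
      have : Real.exp (-(3 * |l - u| / 2)) ≤ 1 := by
        rw [Real.exp_le_one_iff]
        have := abs_nonneg (l - u)
        linarith
      have h3 : 0 ≤ 3 / (2 * Real.pi) := by positivity
      nlinarith
    · refine Eventually.of_forall fun u => ?_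
      exact (kk_cont.comp (by fun_prop)).mul continuous_const
  · have h1 : deriv (fun l => ∫ u : ℝ, kk (l - u) * f u) =
        fun l => ∫ u : ℝ, kk (l - u) * deriv f u := funext hder
    rw [h1]
    have h2 := hf.2.2.integrable_convolution (ContinuousLinearMap.mul ℝ ℝ) kk_integrable
    refine h2.congr (Eventually.of_forall fun l => ?_)
    simp only [convolution, ContinuousLinearMap.mul_apply']
    refine integral_congr_ae (Eventually.of_forall fun u => ?_)
    simp only
    ring

/-- the derivative of the convolution is bounded by the sup norm -/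
theorem kk_conv_deriv_le (f : ℝ → ℝ) (K : ℝ) (hf : Nice f) (hK : ∀ u, |f u| ≤ K) (l : ℝ) :
    |deriv (fun l => ∫ u : ℝ, kk (l - u) * f u) l| ≤ K := by
  have hK0 : 0 ≤ K := (abs_nonneg _).trans (hK 0)
  rw [(a2b_deriv1 f K hf.1.continuous hK l).deriv]
  have h1 := norm_integral_le_of_norm_le (f := fun u => a2b_kk' (l - u) * f u)
    (((a2a_integrable_shift l).const_mul (3 / 2)).mul_const K) (Eventually.of_forall fun u => by
      rw [norm_mul, Real.norm_eq_abs, Real.norm_eq_abs]
      exact mul_le_mul (a2b_kk'_le _) (hK u) (abs_nonneg _)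
        (mul_nonneg (by norm_num) (kk_pos _).le))
  rw [Real.norm_eq_abs, integral_mul_const, integral_const_mul, a2a_integral_shift] at h1
  linarith

theorem kk_conv_top (f : ℝ → ℝ) (K c : ℝ) (hf : Continuous f) (hK : ∀ u, |f u| ≤ K)
    (hc : Tendsto f atTop (𝓝 c)) :
    Tendsto (fun l => ∫ u : ℝ, kk (l - u) * f u) atTop (𝓝 (c / 2)) := by
  have h1 : (fun l => ∫ u : ℝ, kk (l - u) * f u) = fun l => ∫ u : ℝ, kk u * f (l - u) := by
    funext l
    rw [← integral_sub_left_eq_self (fun u => kk u * f (l - u)) volume l]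
    refine integral_congr_ae (Eventually.of_forall fun u => ?_)
    simp only
    rw [sub_sub_cancel]
  rw [h1]
  have h2 : c / 2 = ∫ u : ℝ, kk u * c := by
    rw [integral_mul_const, kk_integral]; ring
  rw [h2]
  refine tendsto_integral_filter_of_dominated_convergence (fun u => kk u * K) ?_ ?_
    (kk_integrable.mul_const K) ?_
  · exact Eventually.of_forall fun l => (kk_cont.mul (hf.comp (by fun_prop))).aestronglyMeasurable
  · refine Eventually.of_forall fun l => Eventually.of_forall fun u => ?_
    rw [norm_mul, Real.norm_eq_abs, Real.norm_eq_abs, abs_of_pos (kk_pos _)]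
    exact mul_le_mul_of_nonneg_left (hK _) (kk_pos _).le
  · refine Eventually.of_forall fun u => ?_
    have h3 : Tendsto (fun l : ℝ => l - u) atTop atTop := tendsto_atTop_add_const_right _ _ tendsto_id
    exact (hc.comp h3).const_mul (kk u)

end H906K
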