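import Mathlib

/-!
# Critical bond percolation on the cylinder of odd circumference: the interface

The square grid with faces (plaquettes) `(j,t)`, `j` in `Z` (horizontal, the universal cover of
the cylinder of circumference `2n+1`), `0 <= t < M` (vertical).  Each plaquette of the cylinder is in
one of two states, independently with probability 1/2; its two strands join the midpoints of
neighbouring sides.  This is the medial (completely packed loop) picture of bond percolation at
`p = 1/2`: colour the corners of the plaquettes like a chessboard, the two black corners of a
plaquette are the ends of an edge of the square lattice, the two white corners the ends of the dual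
edge, and the strands separate the open edge or the open dual edge from the rest.  On a
cylinder of odd circumference the colours are exchanged across a vertical seam, and there is exactly
one interface from the bottom to the top.
-/

namespace H906K

/-- Edges of the medial lattice on the universal cover of the cylinder: `v j t` is the vertical
edge at horizontal position `j` and level `t`, `h j t` is the left side of the plaquette `(j,t)`.
The plaquette `(j,t)` has bottom edge `v j t`, top edge `v j (t+1)`, left edge `h j t` and right
edge `h (j+1) t`. -/
inductive Edg
  | v (j : ℤ) (t : ℕ) : Edg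
  | h (j : ℤ) (t : ℕ) : Edg

/-- residue of an integer modulo `m+1` -/
def jx (m : ℕ) (j : ℤ) : Fin (m + 1) :=
  ⟨(j % ((m : ℤ) + 1)).toNat, by
    have h1 := Int.emod_nonneg j (show ((m : ℤ) + 1) ≠ 0 by omega)
    have h2 := Int.emod_lt_of_pos j (show 0 < ((m : ℤ) + 1) by omega)
    omega⟩

/-- One-step connections of the strands.  In a plaquette in state `false` the bottom and the right
edge are connected and the left and the top edge are connected; in state `true` the bottom and the
left edge are connected and the right and the top edge are connected.  At the bottom level the
edges `2i`, `2i+1` (`i < n`) of each period `2n+1` are connected in pairs. -/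
inductive Link (n M : ℕ) (c : Fin M → Fin (2 * n + 1) → Bool) : Edg → Edg → Prop
  | br (j : ℤ) (t : Fin M) (h : c t (jx (2 * n) j) = false) :
      Link n M c (Edg.v j t) (Edg.h (j + 1) t)
  | lt (j : ℤ) (t : Fin M) (h : c t (jx (2 * n) j) = false) :
      Link n M c (Edg.h j t) (Edg.v j (t + 1))
  | bl (j : ℤ) (t : Fin M) (h : c t (jx (2 * n) j) = true) :
      Link n M c (Edg.v j t) (Edg.h j t)
  | rt (j : ℤ) (t : Fin M) (h : c t (jx (2 * n) j) = true) :
      Link n M c (Edg.h (j + 1) t) (Edg.v j (t + 1))
  | bot (k : ℤ) (i : ℕ) (hi : i < n) :
      Link n M c (Edg.v (k * (2 * n + 1) + 2 * i) 0) (Edg.v (k * (2 * n + 1) + 2 * i + 1) 0)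

/-- the strand that starts at the unpaired bottom edge `2n` ends at the top edge `2n + X` -/
def End (n M : ℕ) (c : Fin M → Fin (2 * n + 1) → Bool) (X : ℤ) : Prop :=
  Relation.EqvGen (Link n M c) (Edg.v (2 * n) 0) (Edg.v (2 * n + X) M)

/-- the displacement of the interface -/
noncomputable def Xd (n M : ℕ) (c : Fin M → Fin (2 * n + 1) → Bool) : ℤ :=
  Classical.epsilon (End n M c)

/-- expectation for independent fair plaquettes -/
noncomputable def Ex (n M : ℕ) (f : (Fin M → Fin (2 * n + 1) → Bool) → ℝ) : ℝ :=
  (∑ c, f c) / 2 ^ ((2 * n + 1) * M)

/-- variance of the displacement of the interface -/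
noncomputable def VarX (n M : ℕ) : ℝ :=
  Ex n M (fun c => (Xd n M c : ℝ) ^ 2) - (Ex n M (fun c => (Xd n M c : ℝ))) ^ 2

end H906K
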