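import Pool.Agent.H974R3.Defs
import Pool.Agent.H906R3.K6.Model

/-!
# Definitions: winding of the percolation interface on cylinders of odd circumference (kappa = 6)

Sections: (1) percolation, used in the final statement: see `Model.lean`, (2) link patterns with the displacement
of the defect, (3) the vertex model, (4) formal perturbation theory, (5) analysis.
-/

namespace H906K
open Pool.Agent.H974R3

/-! ## 2. link patterns -/

/-- position of the defect -/
noncomputable def dpos {m : ℕ} (σ : Pat (m + 1)) : Fin (m + 1) := (σ.1 none).getD 0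

/-- displacement of the defect when the strands `i`, `i+1` are joined -/
noncomputable def dE (m i : ℕ) (σ : Pat (m + 1)) : ℤ :=
  match σ.1 (some (ix m i)), σ.1 (some (ix m (i + 1))) with
  | none, some b => ((b.val : ℤ) - i) % ((m : ℤ) + 1)
  | some a, none => -(((i : ℤ) + 1 - a.val) % ((m : ℤ) + 1))
  | _, _ => 0

/-- displacement of the defect along a word -/
noncomputable def dword (m : ℕ) (c : Fin (m + 1) → Bool) (k : ℕ) : ℕ → Pat (m + 1) → ℤ
  | 0, _ => 0
  | (j + 1), σ => dword m c k j σ +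
      if c (ix m (k + j + 1)) = true then dE m (k + j) (word m c k j σ) else 0

open Classical in
/-- displacement of the defect in a row -/
noncomputable def dTc (m : ℕ) (c : Fin (m + 1) → Bool) (σ : Pat (m + 1)) : ℤ :=
  if h : ∃ k : ℕ, k < m + 1 ∧ c (ix m k) = false then dword m c (Nat.find h) m σ + 1
  else -1

/-- the pattern with the small arcs `2i ↔ 2i+1` and the defect at `2n` -/
def start : (n : ℕ) → Pat (2 * n + 1)
  | 0 => base 0
  | (n + 1) => ins (start n)

/-- pattern and displacement after `M` rows -/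
noncomputable def run (m : ℕ) :
    (M : ℕ) → (Fin M → Fin (m + 1) → Bool) → Pat (m + 1) → Pat (m + 1) × ℤ
  | 0, _, σ => (σ, 0)
  | (M + 1), c, σ =>
      (Tc m (c (Fin.last M)) (run m M (fun i => c i.castSucc) σ).1,
        (run m M (fun i => c i.castSucc) σ).2
          + dTc m (c (Fin.last M)) (run m M (fun i => c i.castSucc) σ).1)

section ring
variable {R : Type*} [CommRing R]

open Classical in
/-- twisted row transfer matrix on patterns, spectral parameter `x`, twist `ζ` per displacement -/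
noncomputable def TL (m : ℕ) (q x : R) (ζ : Rˣ) : Matrix (Pat (m + 1)) (Pat (m + 1)) R :=
  fun τ σ => ∑ c : Fin (m + 1) → Bool,
    if Tc m c σ = τ then (∏ j, wt q (c j) x) * ((ζ ^ dTc m c σ : Rˣ) : R) else 0

/-! ## 3. the vertex model (`true` = spin up) -/

/-- local weights: `s` bottom, `t` top, row index left, column index right -/
def loc (q x : R) (s t : Bool) : Matrix Bool Bool R := fun a b =>
  if s = t then (if a = b then wt q (xor a s) x else 0)
  else (if a = t ∧ b = s then (if t = true then (1 - q) * x else 1 - q ^ 2) else 0)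

/-- one tile in the state `u` -/
def tile (q : R) (u s t : Bool) : Matrix Bool Bool R := fun a b =>
  if u = false then (if t = a ∧ b = s then 1 else 0)
  else (if s ≠ a ∧ b ≠ t then (if a = true then -q else 1) * (if t = true then 1 else -q ^ 2) else 0)

/-- the twist of a horizontal edge -/
def Kz (ζ : Rˣ) : Matrix Bool Bool R := Matrix.diagonal fun b => if b = true then (ζ : R) else ((ζ⁻¹ : Rˣ) : R)

/-- vertex row transfer matrix; rows = top spins, columns = bottom spins -/
def TV (m : ℕ) (q x : R) (ζ : Rˣ) : Matrix (Fin (m + 1) → Bool) (Fin (m + 1) → Bool) R :=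
  fun t s => Matrix.trace ((List.ofFn fun j => loc q x (s j) (t j) * Kz ζ).prod)

/-- the same with plaquettes in the states `c` -/
def TVc (m : ℕ) (c : Fin (m + 1) → Bool) (q : R) (ζ : Rˣ) :
    Matrix (Fin (m + 1) → Bool) (Fin (m + 1) → Bool) R :=
  fun t s => Matrix.trace ((List.ofFn fun j => tile q (c j) (s j) (t j) * Kz ζ).prod)

/-- weight of a cap with left end `b` -/
def cap (q : R) (ζ : Rˣ) (b : Bool) : R := if b = true then -q * ζ else ((ζ⁻¹ : Rˣ) : R)

/-- weight of a cup with left end `b` -/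
def cup (q : R) (ζ : Rˣ) (b : Bool) : R := if b = true then ((ζ⁻¹ : Rˣ) : R) else -q ^ 2 * ζ

/-- Temperley-Lieb generator of the vertex model joining the sites `i`, `i+1` modulo `m+1` -/
def eV (m i : ℕ) (q : R) (ζ : Rˣ) : Matrix (Fin (m + 1) → Bool) (Fin (m + 1) → Bool) R :=
  fun t s => if (∀ k, k ≠ ix m i → k ≠ ix m (i + 1) → t k = s k) ∧ s (ix m i) ≠ s (ix m (i + 1)) ∧
      t (ix m i) ≠ t (ix m (i + 1)) then cup q ζ (t (ix m i)) * cap q ζ (s (ix m i)) else 0

/-- sum of the spins -/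
def spin {m : ℕ} (s : Fin (m + 1) → Bool) : ℤ := ∑ j, if s j = true then 1 else -1

/-- rotation by one site with the twist -/
def rotM (m : ℕ) (ζ : Rˣ) : Matrix (Fin (m + 1) → Bool) (Fin (m + 1) → Bool) R :=
  fun t s => if (∀ k, t (finRotate (m + 1) k) = s k) then ((ζ ^ spin s : Rˣ) : R) else 0

/-- inverse rotation by one site with the twist -/
def rotMi (m : ℕ) (ζ : Rˣ) : Matrix (Fin (m + 1) → Bool) (Fin (m + 1) → Bool) R :=
  fun t s => if (∀ k, t k = s (finRotate (m + 1) k)) then ((ζ ^ (-spin s) : Rˣ) : R) else 0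

/-- the ordered product `e (k+j-1)^{c (k+j)} ⋯ e k^{c (k+1)}` -/
def wordM (m : ℕ) (c : Fin (m + 1) → Bool) (q : R) (ζ : Rˣ) (k : ℕ) :
    ℕ → Matrix (Fin (m + 1) → Bool) (Fin (m + 1) → Bool) R
  | 0 => 1
  | (j + 1) => (if c (ix m (k + j + 1)) = true then eV m (k + j) q ζ else 1) * wordM m c q ζ k j

/-- cyclic distance of the site `k` to the right of the defect, in `{0, …, m}` -/
noncomputable def rd {m : ℕ} (σ : Pat (m + 1)) (k : Fin (m + 1)) : ℕ :=
  (k.val + (m + 1) - (dpos σ).val) % (m + 1)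

open Classical in
/-- the map from patterns to spins: every arc is oriented, the defect is up; `-q²` for an arc whose
right end is up, `ζ^(sum of s_k * distance of k from the defect)` -/
noncomputable def Th (m : ℕ) (q : R) (ζ : Rˣ) : Matrix (Fin (m + 1) → Bool) (Pat (m + 1)) R :=
  fun s σ =>
    if s (dpos σ) = true ∧ ∀ k l, σ.1 (some k) = some l → s k ≠ s l then
      ((ζ ^ (∑ k, if s k = true then (rd σ k : ℤ) else -(rd σ k : ℤ)) : Rˣ) : R)
        * ∏ k, (if s k = true ∧ ∃ l, σ.1 (some k) = some l ∧ rd σ l < rd σ k then -q ^ 2 else 1)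
    else 0

end ring

/-! ## 4. formal perturbation theory -/

/-- the primitive third root of unity `e^{2πi/3}` -/
noncomputable def om : ℂ := ⟨-1 / 2, Real.sqrt 3 / 2⟩

/-- `e^{i a ε}` as a formal power series in `ε` -/
noncomputable def expI (a : ℂ) : PowerSeries ℂ :=
  PowerSeries.rescale (a * Complex.I) (PowerSeries.exp ℂ)

theorem expI_mul (a b : ℂ) : expI a * expI b = expI (a + b) := by
  unfold expI
  rw [PowerSeries.exp_mul_exp_eq_exp_add]
  congr 1
  ring_nf

theorem expI_zero : expI 0 = 1 := by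
  unfold expI
  rw [zero_mul, PowerSeries.rescale_zero_apply]
  simp

/-- `e^{iε}` as a unit -/
noncomputable def ez : (PowerSeries ℂ)ˣ where
  val := expI 1
  inv := expI (-1)
  val_inv := by rw [expI_mul, add_neg_cancel, expI_zero]
  inv_val := by rw [expI_mul, neg_add_cancel, expI_zero]

/-- `e^{iε}` as a unit of polynomials in `x` with coefficients in `ℂ⟦ε⟧` -/
noncomputable def ezX : (Polynomial (PowerSeries ℂ))ˣ :=
  Units.map (Polynomial.C : PowerSeries ℂ →+* Polynomial (PowerSeries ℂ)).toMonoidHom ez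

/-- what the perturbation theory provides: `t1`, `t2` are the first two Taylor coefficients, in the
variable `α = (2n+1) ε`, of the leading eigenvalue `t(x)` -/
structure Pert (n : ℕ) (t1 t2 : Polynomial ℂ) : Prop where
  deg1 : t1.natDegree ≤ 2 * n + 1
  deg2 : t2.natDegree ≤ 2 * n + 1
  bot1 : t1.coeff 0 = -(Real.sqrt 3 : ℂ)
  top1 : t1.coeff (2 * n + 1) = (Real.sqrt 3 : ℂ)
  bot2 : t2.coeff 0 = -1 / 2
  top2 : t2.coeff (2 * n + 1) = -1 / 2
  e2 : ∀ x : ℂ,
    t1.eval x * t1.eval (om * x) * (1 + om ^ 2 * x) ^ (2 * n + 1)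
    + t1.eval (om * x) * t1.eval (om ^ 2 * x) * (1 + x) ^ (2 * n + 1)
    + t1.eval (om ^ 2 * x) * t1.eval x * (1 + om * x) ^ (2 * n + 1)
    = 9 * (1 + x ^ 3) ^ (2 * n + 1)
  e3 : ∀ x : ℂ,
    (t1.eval x * t2.eval (om * x) + t2.eval x * t1.eval (om * x)) * (1 + om ^ 2 * x) ^ (2 * n + 1)
    + (t1.eval (om * x) * t2.eval (om ^ 2 * x) + t2.eval (om * x) * t1.eval (om ^ 2 * x))
        * (1 + x) ^ (2 * n + 1)
    + (t1.eval (om ^ 2 * x) * t2.eval x + t2.eval (om ^ 2 * x) * t1.eval x)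
        * (1 + om * x) ^ (2 * n + 1)
    + t1.eval x * t1.eval (om * x) * t1.eval (om ^ 2 * x) = 0
  div1 : ∃ V : Polynomial ℂ, ∀ x : ℂ,
    t1.eval (om * x) * (1 + om ^ 2 * x) ^ (2 * n + 1)
      + t1.eval (om ^ 2 * x) * (1 + om * x) ^ (2 * n + 1) = (1 + x) ^ (2 * n + 1) * V.eval x
  div2 : ∃ V : Polynomial ℂ, ∀ x : ℂ,
    t2.eval (om * x) * (1 + om ^ 2 * x) ^ (2 * n + 1)
      + t2.eval (om ^ 2 * x) * (1 + om * x) ^ (2 * n + 1)
      + t1.eval (om * x) * t1.eval (om ^ 2 * x) = (1 + x) ^ (2 * n + 1) * V.eval x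

/-! ## 5. analysis -/

/-- the kernel `3 / (4π cosh (3λ/2))` -/
noncomputable def kk (l : ℝ) : ℝ := 3 / (4 * Real.pi * Real.cosh (3 * l / 2))

/-- `log (9 + X²)` -/
noncomputable def G0 (X : ℝ → ℝ) (l : ℝ) : ℝ := Real.log (9 + X l ^ 2)

/-- `kk * log (9 + X²)` -/
noncomputable def be0 (X : ℝ → ℝ) (l : ℝ) : ℝ := ∫ u : ℝ, kk (l - u) * G0 X u

/-- `tanh(3λ/4)^N exp (kk * log (9 + X²))` -/
noncomputable def A1 (N : ℕ) (X : ℝ → ℝ) (l : ℝ) : ℝ :=
  Real.tanh (3 * l / 4) ^ N * Real.exp (be0 X l)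

/-- `A1 B - A1²/2` -/
noncomputable def A2 (N : ℕ) (X B : ℝ → ℝ) (l : ℝ) : ℝ := A1 N X l * B l - A1 N X l ^ 2 / 2

/-- `2 X (Y + X²/2 + 9/2) / (9 + X²)` -/
noncomputable def G1 (X Y : ℝ → ℝ) (l : ℝ) : ℝ :=
  2 * X l * (Y l + X l ^ 2 / 2 + 9 / 2) / (9 + X l ^ 2)

/-- a `C¹` function with integrable derivative -/
def Nice (f : ℝ → ℝ) : Prop :=
  Differentiable ℝ f ∧ Continuous (deriv f) ∧ MeasureTheory.Integrable (deriv f)

/-- the system of integral equations -/
structure Sys (N : ℕ) (X Y B : ℝ → ℝ) : Prop where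
  niceX : Nice X
  niceY : Nice Y
  niceB : Nice B
  eqX : ∀ l, X l = ∫ u : ℝ, kk (l - u) * A1 N X u
  eqY : ∀ l, Y l = ∫ u : ℝ, kk (l - u) * A2 N X B u
  eqB : ∀ l, B l = ∫ u : ℝ, kk (l - u) * G1 X Y u
  topX : Filter.Tendsto X Filter.atTop (nhds (Real.sqrt 3))
  botX : Filter.Tendsto X Filter.atBot (nhds (-Real.sqrt 3))
  topY : Filter.Tendsto Y Filter.atTop (nhds (-2))
  botY : Filter.Tendsto Y Filter.atBot (nhds (-2))
  topB : Filter.Tendsto B Filter.atTop (nhds (1 / Real.sqrt 3))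
  botB : Filter.Tendsto B Filter.atBot (nhds (-(1 / Real.sqrt 3)))

end H906K
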