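import Pool.Agent.H906R3.K6.Defs2

/-!
# L3: a row of tiles is a rotation times a word in the generators
-/

set_option autoImplicit false

namespace H906K
open Pool.Agent.H974R3 Matrix Finset

section ring
variable {R : Type*} [CommRing R]

/-! ### ordered products -/

/-- `A k * A (k+1) * ... * A (k+n-1)` -/
def l3_P (A : ℕ → Matrix Bool Bool R) (k : ℕ) : ℕ → Matrix Bool Bool R
  | 0 => 1
  | (n + 1) => l3_P A k n * A (k + n)

theorem l3_ofFn (A : ℕ → Matrix Bool Bool R) (n : ℕ) :
    (List.ofFn (fun j : Fin n => A j.val)).prod = l3_P A 0 n := by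
  induction n with
  | zero => simp [l3_P]
  | succ n ih =>
    rw [List.ofFn_succ', List.concat_eq_append, List.prod_append, List.prod_singleton, l3_P,
      zero_add, ← ih]
    rfl

theorem l3_P_succ' (A : ℕ → Matrix Bool Bool R) (k n : ℕ) :
    l3_P A k (n + 1) = A k * l3_P A (k + 1) n := by
  induction n with
  | zero => simp [l3_P]
  | succ n ih =>
    rw [l3_P, ih, l3_P, Matrix.mul_assoc, show k + 1 + n = k + (n + 1) by omega]

theorem l3_cyc (m : ℕ) (A : ℕ → Matrix Bool Bool R) (hA : ∀ i, A (i + (m + 1)) = A i) (k : ℕ) :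
    Matrix.trace (l3_P A k (m + 1)) = Matrix.trace (l3_P A 0 (m + 1)) := by
  induction k with
  | zero => rfl
  | succ k ih =>
    rw [← ih, l3_P_succ' A k m, Matrix.trace_mul_comm, l3_P,
      show k + 1 + m = k + (m + 1) by omega, hA]

/-! ### indices -/

theorem l3_ix_val (m : ℕ) (j : Fin (m + 1)) : ix m j.val = j := by
  apply Fin.ext
  exact Nat.mod_eq_of_lt j.isLt

theorem l3_ix_per (m i : ℕ) : ix m (i + (m + 1)) = ix m i := by
  apply Fin.ext
  exact Nat.add_mod_right i (m + 1)

theorem l3_ix_rot (m i : ℕ) : finRotate (m + 1) (ix m i) = ix m (i + 1) := by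
  rw [finRotate_apply]
  apply Fin.ext
  rw [Fin.val_add]
  show (i % (m + 1) + (1 : Fin (m + 1)).val) % (m + 1) = (i + 1) % (m + 1)
  rw [Fin.val_one', ← Nat.add_mod]

theorem l3_ix_ne {m k i j : ℕ} (hij : i < j) (hj : j ≤ m) : ix m (k + i) ≠ ix m (k + j) := by
  intro h
  have h1 : (k + i) % (m + 1) = (k + j) % (m + 1) := congrArg Fin.val h
  have h2 : (j - i) % (m + 1) = 0 := by
    have h3 : (k + i) ≡ (k + j) [MOD (m + 1)] := h1
    have h4 := (Nat.modEq_iff_dvd' (by omega : k + i ≤ k + j)).1 h3
    rw [show k + j - (k + i) = j - i by omega] at h4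
    exact Nat.mod_eq_zero_of_dvd h4
  rw [Nat.mod_eq_of_lt (by omega)] at h2
  omega

theorem l3_ix_surj (m k : ℕ) (l : Fin (m + 1)) : ∃ i ≤ m, l = ix m (k + i) := by
  refine ⟨(l.val + (m + 1) - k % (m + 1)) % (m + 1), ?_, ?_⟩
  · have := Nat.mod_lt (l.val + (m + 1) - k % (m + 1)) (show 0 < m + 1 by omega)
    omega
  · apply Fin.ext
    show l.val = (k + (l.val + (m + 1) - k % (m + 1)) % (m + 1)) % (m + 1)
    have h1 := Nat.mod_lt k (show 0 < m + 1 by omega)
    rw [Nat.add_mod, Nat.mod_mod, ← Nat.add_mod]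
    have h2 : (k + (l.val + (m + 1) - k % (m + 1))) % (m + 1) = l.val % (m + 1) := by
      have h3 : k = k % (m + 1) + (m + 1) * (k / (m + 1)) := (Nat.mod_add_div k (m + 1)).symm
      have h4 : k + (l.val + (m + 1) - k % (m + 1)) =
          l.val + (m + 1) * (k / (m + 1) + 1) := by
        rw [Nat.mul_add]
        omega
      rw [h4, Nat.add_mul_mod_self_left]
    rw [h2, Nat.mod_eq_of_lt l.isLt]

theorem l3_prod_ix {M : Type*} [CommMonoid M] (m : ℕ) (g : Fin (m + 1) → M) (k : ℕ) :
    ∏ j ∈ range (m + 1), g (ix m (k + j)) = ∏ l, g l := by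
  induction k with
  | zero =>
    rw [← Fin.prod_univ_eq_prod_range (fun j => g (ix m (0 + j))) (m + 1)]
    refine Finset.prod_congr rfl fun l _ => ?_
    rw [zero_add, l3_ix_val]
  | succ k ih =>
    rw [← ih, Finset.prod_range_succ, Finset.prod_range_succ' (fun j => g (ix m (k + j)))]
    congr 1
    · refine Finset.prod_congr rfl fun j _ => ?_
      rw [show k + 1 + j = k + (j + 1) by omega]
    · rw [show k + 1 + m = k + (m + 1) by omega, l3_ix_per, add_zero]

/-! ### the twist -/

/-- the entries of `Kz` -/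
def l3_pz (ζ : Rˣ) (b : Bool) : R := if b = true then (ζ : R) else ((ζ⁻¹ : Rˣ) : R)

theorem l3_pz_not (ζ : Rˣ) (b : Bool) : l3_pz ζ b * l3_pz ζ (!b) = 1 := by
  cases b
  · simp [l3_pz]
  · simp [l3_pz]

theorem l3_zpow_sum (ζ : Rˣ) {ι : Type*} (S : Finset ι) (f : ι → ℤ) :
    ζ ^ (∑ i ∈ S, f i) = ∏ i ∈ S, ζ ^ f i := by
  classical
  induction S using Finset.induction_on with
  | empty => simp
  | insert a S ha ih => rw [Finset.sum_insert ha, Finset.prod_insert ha, _root_.zpow_add, ih]

theorem l3_spin {m : ℕ} (ζ : Rˣ) (s : Fin (m + 1) → Bool) :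
    ((ζ ^ spin s : Rˣ) : R) = ∏ j, l3_pz ζ (s j) := by
  unfold spin
  rw [l3_zpow_sum, Units.coe_prod]
  refine Finset.prod_congr rfl fun j _ => ?_
  unfold l3_pz
  cases s j
  · simp
  · simp

theorem l3_spin_neg {m : ℕ} (ζ : Rˣ) (s : Fin (m + 1) → Bool) :
    ((ζ ^ (-spin s) : Rˣ) : R) = ∏ j, l3_pz ζ (!(s j)) := by
  unfold spin
  rw [← Finset.sum_neg_distrib, l3_zpow_sum, Units.coe_prod]
  refine Finset.prod_congr rfl fun j _ => ?_
  unfold l3_pz
  cases s j
  · simp
  · simp

/-! ### the local matrix of the word -/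

/-- the local matrix: left spin `a`, right spin `b`, bottom spin `s`, top spin `t` -/
def l3_W (q : R) (ζ : Rˣ) (u s t : Bool) : Matrix Bool Bool R := fun a b =>
  if u = true then (if a ≠ s ∧ b ≠ t then cup q ζ t * cap q ζ a else 0)
  else (if a = t ∧ b = s then 1 else 0)

theorem l3_W_eq (q : R) (ζ : Rˣ) (u s t : Bool) :
    l3_W q ζ u s t = l3_pz ζ (!t) • (Kz ζ * tile q u s t) := by
  ext a b
  rw [Matrix.smul_apply, Kz, Matrix.diagonal_mul, smul_eq_mul]
  unfold l3_W tile l3_pz cup cap
  have h1 : (ζ : R) * ((ζ⁻¹ : Rˣ) : R) = 1 := Units.mul_inv ζ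
  cases u <;> cases s <;> cases t <;> cases a <;> cases b <;> simp <;>
    first
      | ring1
      | linear_combination q * h1

/-- the product of the local matrices -/
def l3_Q (m : ℕ) (c : Fin (m + 1) → Bool) (q : R) (ζ : Rˣ) (k : ℕ)
    (s' s : Fin (m + 1) → Bool) : ℕ → Matrix Bool Bool R
  | 0 => 1
  | (j + 1) => l3_Q m c q ζ k s' s j *
      l3_W q ζ (c (ix m (k + j + 1))) (s (ix m (k + j + 1))) (s' (ix m (k + j)))

theorem l3_Q_congr {m : ℕ} (c : Fin (m + 1) → Bool) (q : R) (ζ : Rˣ) (k : ℕ)
    {s' s'' s : Fin (m + 1) → Bool} (j : ℕ) (h : ∀ i < j, s' (ix m (k + i)) = s'' (ix m (k + i))) :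
    l3_Q m c q ζ k s' s j = l3_Q m c q ζ k s'' s j := by
  induction j with
  | zero => rfl
  | succ j ih =>
    rw [l3_Q, l3_Q, ih (fun i hi => h i (by omega)), h j (by omega)]

/-! ### the entries of the word -/

/-- the columns agree outside of the sites `k, ..., k+j` -/
def l3_Ag (m k j : ℕ) (s' s : Fin (m + 1) → Bool) : Prop :=
  ∀ l, (∀ i ≤ j, l ≠ ix m (k + i)) → s' l = s l

theorem l3_Ag_succ {m k j : ℕ} (s' s : Fin (m + 1) → Bool) :
    l3_Ag m k j s' s → l3_Ag m k (j + 1) s' s :=
  fun h l hl => h l (fun i hi => hl i (by omega))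

theorem l3_Ag_iff {m k j : ℕ} (hj : j + 1 ≤ m) (s' s : Fin (m + 1) → Bool) :
    l3_Ag m k j s' s ↔
      l3_Ag m k (j + 1) s' s ∧ s' (ix m (k + j + 1)) = s (ix m (k + j + 1)) := by
  constructor
  · intro h
    refine ⟨l3_Ag_succ s' s h, h _ fun i hi => ?_⟩
    exact (l3_ix_ne (m := m) (k := k) (i := i) (j := j + 1) (by omega) hj).symm
  · rintro ⟨h, h'⟩ l hl
    by_cases he : l = ix m (k + j + 1)
    · rw [he]
      exact h'
    · refine h l fun i hi => ?_
      rcases Nat.lt_or_ge j i with h1 | h1
      · have : i = j + 1 := by omega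
        subst this
        exact he
      · exact hl i h1

open Classical in
theorem l3_word (m : ℕ) (c : Fin (m + 1) → Bool) (q : R) (ζ : Rˣ) (k : ℕ) :
    ∀ j ≤ m, ∀ s' s : Fin (m + 1) → Bool, wordM m c q ζ k j s' s =
      if l3_Ag m k j s' s then
        l3_Q m c q ζ k s' s j (s (ix m k)) (s' (ix m (k + j))) else 0 := by
  intro j
  induction j with
  | zero =>
    intro _ s' s
    show (1 : Matrix _ _ R) s' s = _
    rw [Matrix.one_apply, add_zero]
    show _ = if _ then (1 : Matrix Bool Bool R) (s (ix m k)) (s' (ix m k)) else 0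
    rw [Matrix.one_apply]
    by_cases h : s' = s
    · subst h
      have hag : l3_Ag m k 0 s' s' := fun _ _ => rfl
      rw [if_pos rfl, if_pos hag, if_pos rfl]
    · rw [if_neg h]
      by_cases h2 : l3_Ag m k 0 s' s
      · rw [if_pos h2, if_neg]
        intro h3
        apply h
        funext l
        by_cases hl : l = ix m k
        · rw [hl, h3]
        · refine h2 l fun i hi => ?_
          have : i = 0 := by omega
          subst this
          exact hl
      · rw [if_neg h2]
  | succ j ih =>
    intro hj s'' s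
    have ih' := ih (by omega)
    have hxy : ix m (k + j) ≠ ix m (k + j + 1) :=
      l3_ix_ne (m := m) (k := k) (i := j) (j := j + 1) (by omega) hj
    rw [wordM, l3_Q]
    cases hc : c (ix m (k + j + 1))
    · -- the plaquette is empty
      rw [if_neg Bool.false_ne_true, Matrix.one_mul, ih']
      have hW : (l3_Q m c q ζ k s'' s j * l3_W q ζ false (s (ix m (k + j + 1)))
          (s'' (ix m (k + j)))) (s (ix m k)) (s'' (ix m (k + (j + 1)))) =
          if s'' (ix m (k + j + 1)) = s (ix m (k + j + 1)) then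
            l3_Q m c q ζ k s'' s j (s (ix m k)) (s'' (ix m (k + j))) else 0 := by
        rw [Matrix.mul_apply]
        have h1 : ∀ a, l3_W q ζ false (s (ix m (k + j + 1))) (s'' (ix m (k + j))) a
            (s'' (ix m (k + (j + 1)))) = if a = s'' (ix m (k + j)) then
              (if s'' (ix m (k + j + 1)) = s (ix m (k + j + 1)) then 1 else 0) else 0 := by
          intro a
          unfold l3_W
          rw [if_neg Bool.false_ne_true, ← add_assoc]
          by_cases h2 : a = s'' (ix m (k + j))
          · by_cases h3 : s'' (ix m (k + j + 1)) = s (ix m (k + j + 1))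
            · rw [if_pos ⟨h2, h3⟩, if_pos h2, if_pos h3]
            · rw [if_neg (fun h => h3 h.2), if_pos h2, if_neg h3]
          · rw [if_neg (fun h => h2 h.1), if_neg h2]
        rw [Finset.sum_congr rfl fun a _ => by rw [h1 a]]
        rw [Finset.sum_eq_single (s'' (ix m (k + j)))]
        · rw [if_pos rfl]
          split_ifs
          · rw [mul_one]
          · rw [mul_zero]
        · intro b _ hb
          rw [if_neg hb, mul_zero]
        · intro h
          exact absurd (Finset.mem_univ _) h
      rw [hW]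
      by_cases h2 : l3_Ag m k j s'' s
      · obtain ⟨h3, h4⟩ := (l3_Ag_iff hj s'' s).1 h2
        rw [if_pos h2, if_pos h3, if_pos h4]
      · rw [if_neg h2]
        by_cases h3 : l3_Ag m k (j + 1) s'' s
        · rw [if_pos h3, if_neg (fun h4 => h2 ((l3_Ag_iff hj s'' s).2 ⟨h3, h4⟩))]
        · rw [if_neg h3]
    · -- the plaquette is a generator
      rw [if_pos rfl, Matrix.mul_apply]
      set x := ix m (k + j) with hx
      set y := ix m (k + j + 1) with hy
      have hne : ∀ i < j, ix m (k + i) ≠ x ∧ ix m (k + i) ≠ y := fun i hi =>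
        ⟨l3_ix_ne hi (by omega),
          l3_ix_ne (m := m) (k := k) (i := i) (j := j + 1) (by omega) hj⟩
      let u : Bool → (Fin (m + 1) → Bool) := fun a =>
        Function.update (Function.update s'' y (s y)) x a
      have ux : ∀ a, u a x = a := fun a => Function.update_self _ _ _
      have uy : ∀ a, u a y = s y := fun a => by
        show Function.update (Function.update s'' y (s y)) x a y = s y
        rw [Function.update_of_ne hxy.symm, Function.update_self]
      have ul : ∀ a l, l ≠ x → l ≠ y → u a l = s'' l := fun a l h1 h2 => by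
        show Function.update (Function.update s'' y (s y)) x a l = s'' l
        rw [Function.update_of_ne h1, Function.update_of_ne h2]
      have uinj : Function.Injective u := fun a b h => by
        rw [← ux a, h, ux]
      have hAg : ∀ a, l3_Ag m k j (u a) s ↔ l3_Ag m k (j + 1) s'' s := by
        intro a
        constructor
        · intro h l hl
          have h1 : l ≠ x := hl j (by omega)
          have h2 : l ≠ y := hl (j + 1) le_rfl
          rw [← ul a l h1 h2]
          exact h l fun i hi => hl i (by omega)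
        · intro h l hl
          have h1 : l ≠ x := hl j le_rfl
          by_cases h2 : l = y
          · rw [h2, uy]
          · rw [ul a l h1 h2]
            refine h l fun i hi => ?_
            rcases Nat.lt_or_ge j i with h3 | h3
            · have : i = j + 1 := by omega
              subst this
              exact h2
            · exact hl i h3
      have hsum : ∑ s', eV m (k + j) q ζ s'' s' * wordM m c q ζ k j s' s =
          ∑ a, eV m (k + j) q ζ s'' (u a) * wordM m c q ζ k j (u a) s := by
        symm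
        refine Fintype.sum_of_injective u uinj _ _ ?_ (fun a => rfl)
        intro s' hs'
        by_contra hne0
        apply hs'
        have h1 : eV m (k + j) q ζ s'' s' ≠ 0 := fun h => hne0 (by rw [h, zero_mul])
        have h2 : wordM m c q ζ k j s' s ≠ 0 := fun h => hne0 (by rw [h, mul_zero])
        rw [ih'] at h2
        have h3 : l3_Ag m k j s' s := by
          by_contra h
          exact h2 (if_neg h)
        have h4 : ∀ l, l ≠ x → l ≠ y → s'' l = s' l := by
          by_contra h
          apply h1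
          unfold eV
          rw [if_neg (fun h' => h h'.1)]
        refine ⟨s' x, ?_⟩
        funext l
        by_cases hlx : l = x
        · rw [hlx, ux]
        · by_cases hly : l = y
          · rw [hly, uy]
            exact ((l3_Ag_iff hj s' s).1 h3).2.symm
          · rw [ul _ _ hlx hly, h4 l hlx hly]
      rw [hsum]
      have hterm : ∀ a, eV m (k + j) q ζ s'' (u a) * wordM m c q ζ k j (u a) s =
          if l3_Ag m k (j + 1) s'' s then l3_Q m c q ζ k s'' s j (s (ix m k)) a *
            l3_W q ζ true (s y) (s'' x) a (s'' y) else 0 := by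
        intro a
        rw [ih']
        by_cases h : l3_Ag m k (j + 1) s'' s
        · rw [if_pos ((hAg a).2 h), if_pos h]
          rw [l3_Q_congr c q ζ k j (s' := u a) (s'' := s'')
            (fun i hi => ul a _ (hne i hi).1 (hne i hi).2), ux, mul_comm]
          congr 1
          unfold eV l3_W
          rw [if_pos rfl, ← hx, ← hy, ux, uy]
          by_cases h1 : a ≠ s y ∧ s'' y ≠ s'' x
          · rw [if_pos h1, if_pos ⟨fun l h2 h3 => (ul a l h2 h3).symm, h1.1, h1.2.symm⟩]
          · rw [if_neg h1, if_neg (fun h2 => h1 ⟨h2.2.1, h2.2.2.symm⟩)]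
        · rw [if_neg (fun h' => h ((hAg a).1 h')), if_neg h, mul_zero]
      rw [Finset.sum_congr rfl fun a _ => hterm a]
      by_cases h : l3_Ag m k (j + 1) s'' s
      · rw [if_pos h, Matrix.mul_apply]
        refine Finset.sum_congr rfl fun a _ => ?_
        rw [if_pos h]
        rfl
      · rw [if_neg h]
        refine Finset.sum_eq_zero fun a _ => ?_
        rw [if_neg h]

/-! ### the row of tiles -/

/-- the factors of the row -/
def l3_A (m : ℕ) (c : Fin (m + 1) → Bool) (q : R) (ζ : Rˣ) (t s : Fin (m + 1) → Bool)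
    (i : ℕ) : Matrix Bool Bool R := tile q (c (ix m i)) (s (ix m i)) (t (ix m i)) * Kz ζ

theorem l3_TVc (m : ℕ) (c : Fin (m + 1) → Bool) (q : R) (ζ : Rˣ) (t s : Fin (m + 1) → Bool) :
    TVc m c q ζ t s = Matrix.trace (l3_P (l3_A m c q ζ t s) 0 (m + 1)) := by
  rw [← l3_ofFn]
  unfold TVc l3_A
  simp only [l3_ix_val]

theorem l3_A_per (m : ℕ) (c : Fin (m + 1) → Bool) (q : R) (ζ : Rˣ) (t s : Fin (m + 1) → Bool)
    (i : ℕ) : l3_A m c q ζ t s (i + (m + 1)) = l3_A m c q ζ t s i := by
  unfold l3_A
  rw [l3_ix_per]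

theorem l3_trace_false (q : R) (s t : Bool) (X : Matrix Bool Bool R) :
    Matrix.trace (tile q false s t * X) = X s t := by
  rw [Matrix.trace]
  simp only [Matrix.diag_apply, Matrix.mul_apply, Fintype.sum_bool, tile]
  cases s <;> cases t <;> simp

theorem l3_KzP (m : ℕ) (c : Fin (m + 1) → Bool) (q : R) (ζ : Rˣ) (t s s' : Fin (m + 1) → Bool)
    (hs' : ∀ i, s' (ix m i) = t (ix m (i + 1))) (k n : ℕ) :
    Kz ζ * l3_P (l3_A m c q ζ t s) (k + 1) n =
      (∏ j ∈ range n, l3_pz ζ (s' (ix m (k + j)))) • (l3_Q m c q ζ k s' s n * Kz ζ) := by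
  induction n with
  | zero => simp [l3_P, l3_Q]
  | succ n ih =>
    have hW : Kz ζ * tile q (c (ix m (k + n + 1))) (s (ix m (k + n + 1))) (s' (ix m (k + n))) =
        l3_pz ζ (s' (ix m (k + n))) • l3_W q ζ (c (ix m (k + n + 1))) (s (ix m (k + n + 1)))
          (s' (ix m (k + n))) := by
      rw [l3_W_eq, smul_smul, l3_pz_not, one_smul]
    rw [l3_P, ← Matrix.mul_assoc, ih, l3_Q, Finset.prod_range_succ]
    unfold l3_A
    rw [show k + 1 + n = k + n + 1 by omega, ← hs' (k + n), Matrix.smul_mul,
      Matrix.mul_assoc (l3_Q m c q ζ k s' s n) (Kz ζ), ← Matrix.mul_assoc (Kz ζ) _ (Kz ζ), hW,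
      Matrix.smul_mul, Matrix.mul_smul, smul_smul, Matrix.mul_assoc]

theorem TVc_word (m : ℕ) (c : Fin (m + 1) → Bool) (k : ℕ) (hk : c (ix m k) = false) (q : R)
    (hq : q ^ 2 + q + 1 = 0) (ζ : Rˣ) :
    TVc m c q ζ = rotM m ζ * wordM m c q ζ k m := by
  classical
  ext t s
  let s' : Fin (m + 1) → Bool := fun l => t (finRotate (m + 1) l)
  have hs' : ∀ i, s' (ix m i) = t (ix m (i + 1)) := fun i => by
    show t (finRotate (m + 1) (ix m i)) = _
    rw [l3_ix_rot]
  have hlast : s' (ix m (k + m)) = t (ix m k) := by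
    rw [hs', show k + m + 1 = k + (m + 1) by omega, l3_ix_per]
  -- the right hand side
  have hR : (rotM m ζ * wordM m c q ζ k m) t s =
      ((ζ ^ spin s' : Rˣ) : R) * wordM m c q ζ k m s' s := by
    rw [Matrix.mul_apply, Finset.sum_eq_single s']
    · unfold rotM
      rw [if_pos (fun l => rfl)]
    · intro b _ hb
      unfold rotM
      rw [if_neg, zero_mul]
      intro h
      apply hb
      funext l
      exact (h l).symm
    · intro h
      exact absurd (Finset.mem_univ _) h
  have hAg : l3_Ag m k m s' s := by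
    intro l hl
    obtain ⟨i, hi, hli⟩ := l3_ix_surj m k l
    exact absurd hli (hl i hi)
  rw [hR, l3_word m c q ζ k m le_rfl, if_pos hAg, l3_spin, ← l3_prod_ix m _ k,
    Finset.prod_range_succ]
  -- the left hand side
  rw [l3_TVc, ← l3_cyc m _ (l3_A_per m c q ζ t s) k, l3_P_succ']
  have h1 : l3_A m c q ζ t s k = tile q false (s (ix m k)) (t (ix m k)) * Kz ζ := by
    unfold l3_A
    rw [hk]
  rw [h1, Matrix.mul_assoc, l3_trace_false, l3_KzP m c q ζ t s s' hs', Matrix.smul_apply,
    smul_eq_mul, Kz, Matrix.mul_diagonal, hlast]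
  unfold l3_pz
  ring

/-! ### all tiles in the state `true` -/

theorem l3_rank (A : ℕ → Matrix Bool Bool R) (u v : ℕ → Bool → R)
    (h : ∀ i a b, A i a b = u i a * v i b) (n : ℕ) (a b : Bool) :
    l3_P A 0 (n + 1) a b = u 0 a * (∏ i ∈ range n, ∑ x, v i x * u (i + 1) x) * v n b := by
  induction n generalizing b with
  | zero =>
    rw [l3_P, l3_P, Matrix.one_mul, add_zero, h]
    simp
  | succ n ih =>
    rw [l3_P, Matrix.mul_apply, Finset.sum_congr rfl fun x _ => by rw [ih x, zero_add, h]]
    rw [Finset.prod_range_succ, ← mul_assoc, Finset.mul_sum, Finset.sum_mul]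
    refine Finset.sum_congr rfl fun x _ => ?_
    ring

theorem TVc_true (m : ℕ) (c : Fin (m + 1) → Bool) (h : ∀ k, c k = true) (q : R)
    (hq : q ^ 2 + q + 1 = 0) (ζ : Rˣ) : TVc m c q ζ = rotMi m ζ := by
  ext t s
  let u : ℕ → Bool → R := fun i a => if a ≠ s (ix m i) then (if a = true then -q else 1) else 0
  let v : ℕ → Bool → R := fun i b =>
    if b ≠ t (ix m i) then (if t (ix m i) = true then 1 else -q ^ 2) * l3_pz ζ b else 0
  have hA : ∀ i a b, l3_A m c q ζ t s i a b = u i a * v i b := by
    intro i a b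
    unfold l3_A
    rw [Kz, Matrix.mul_diagonal, h]
    show _ = (if a ≠ s (ix m i) then (if a = true then -q else 1) else 0) *
      (if b ≠ t (ix m i) then (if t (ix m i) = true then 1 else -q ^ 2) * l3_pz ζ b else 0)
    unfold tile l3_pz
    generalize s (ix m i) = x
    generalize t (ix m i) = y
    cases x <;> cases y <;> cases a <;> cases b <;> simp <;> ring
  have huv : ∀ i, ∑ x, v i x * u (i + 1) x =
      if t (ix m i) = s (ix m (i + 1)) then l3_pz ζ (!(s (ix m (i + 1)))) else 0 := by
    intro i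
    rw [Fintype.sum_bool]
    show (if true ≠ t (ix m i) then (if t (ix m i) = true then 1 else -q ^ 2) * l3_pz ζ true
        else 0) * (if true ≠ s (ix m (i + 1)) then (if true = true then -q else 1) else 0) +
      (if false ≠ t (ix m i) then (if t (ix m i) = true then 1 else -q ^ 2) * l3_pz ζ false
        else 0) * (if false ≠ s (ix m (i + 1)) then (if false = true then -q else 1) else 0) = _
    generalize s (ix m (i + 1)) = x
    generalize t (ix m i) = y
    cases x <;> cases y <;> simp
    linear_combination (q - 1) * l3_pz ζ true * hq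
  have huper : u (m + 1) = u 0 := by
    show (fun a => if a ≠ s (ix m (m + 1)) then (if a = true then -q else 1) else 0) =
      fun a => if a ≠ s (ix m 0) then (if a = true then -q else 1) else 0
    rw [show m + 1 = 0 + (m + 1) by omega, l3_ix_per]
  rw [l3_TVc, Matrix.trace]
  have h1 : ∑ a, Matrix.diag (l3_P (l3_A m c q ζ t s) 0 (m + 1)) a =
      ∏ i ∈ range (m + 1), ∑ x, v i x * u (i + 1) x := by
    rw [Finset.prod_range_succ, huper, Finset.mul_sum]
    refine Finset.sum_congr rfl fun a _ => ?_
    rw [Matrix.diag_apply, l3_rank _ u v hA]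
    ring
  rw [h1, Finset.prod_congr rfl fun i _ => huv i]
  unfold rotMi
  by_cases hts : ∀ k, t k = s (finRotate (m + 1) k)
  · rw [if_pos hts, l3_spin_neg, ← l3_prod_ix m _ 1]
    refine Finset.prod_congr rfl fun i _ => ?_
    rw [add_comm 1 i, if_pos]
    rw [hts, l3_ix_rot]
  · rw [if_neg hts]
    push Not at hts
    obtain ⟨l, hl⟩ := hts
    apply Finset.prod_eq_zero (i := l.val) (Finset.mem_range.2 l.isLt)
    rw [if_neg]
    rwa [← l3_ix_rot, l3_ix_val]

end ring

end H906K
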