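import Pool.Agent.H906R3.K6.Defs2

/-!
# V0: expansion of the vertex transfer matrix over plaquette states
-/

namespace H906K
open Pool.Agent.H974R3 Polynomial MeasureTheory Filter Topology

section ring
variable {R : Type*} [CommRing R]

/-- the local weights as a combination of the two tiles -/
theorem v0_loc (q x : R) (hq : q ^ 2 + q + 1 = 0) (s t : Bool) :
    loc q x s t = ∑ u : Bool, wt q u x • tile q u s t := by
  rw [Fintype.sum_bool]
  ext a b
  rw [Matrix.add_apply, Matrix.smul_apply, Matrix.smul_apply, smul_eq_mul, smul_eq_mul]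
  cases s <;> cases t <;> cases a <;> cases b <;> simp [loc, tile, wt]
  all_goals first
    | ring1
    | linear_combination (x * (q - 1)) * hq
    | linear_combination (-(x * (q - 1))) * hq
    | linear_combination ((q - 1) * (q + q ^ 2 * x)) * hq
    | linear_combination (-((q - 1) * (q + q ^ 2 * x))) * hq
    | linear_combination ((q - 1) * (1 + q * x)) * hq
    | linear_combination (-((q - 1) * (1 + q * x))) * hq

/-- product of sums -/
theorem v0_prod_sum {S : Type*} [Semiring S] (M : ℕ) (A : Fin M → Bool → S) :
    (List.ofFn fun j => ∑ u : Bool, A j u).prod =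
      ∑ c : Fin M → Bool, (List.ofFn fun j => A j (c j)).prod := by
  induction M with
  | zero => simp
  | succ M ih =>
    rw [List.ofFn_succ, List.prod_cons, ih]
    rw [← (Fin.consEquiv (fun _ : Fin (M + 1) => Bool)).sum_comp
      (fun c : Fin (M + 1) → Bool => (List.ofFn fun j => A j (c j)).prod), Fintype.sum_prod_type,
      Finset.sum_mul]
    refine Finset.sum_congr rfl (fun u _ => ?_)
    rw [Finset.mul_sum]
    refine Finset.sum_congr rfl (fun c _ => ?_)
    rw [List.ofFn_succ, List.prod_cons]
    simp [Fin.consEquiv]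

/-- scalars can be taken out of the product -/
theorem v0_prod_smul {S : Type*} [Semiring S] [Algebra R S] (M : ℕ) (w : Fin M → R)
    (B : Fin M → S) :
    (List.ofFn fun j => w j • B j).prod = (∏ j, w j) • (List.ofFn B).prod := by
  induction M with
  | zero => simp
  | succ M ih =>
    rw [List.ofFn_succ, List.prod_cons, ih, List.ofFn_succ, List.prod_cons, Fin.prod_univ_succ,
      smul_mul_smul_comm]

theorem TV_expand (m : ℕ) (q x : R) (hq : q ^ 2 + q + 1 = 0) (ζ : Rˣ) :
    TV m q x ζ = ∑ c : Fin (m + 1) → Bool, (∏ j, wt q (c j) x) • TVc m c q ζ := by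
  ext t s
  rw [Matrix.sum_apply]
  have e1 : (fun j => loc q x (s j) (t j) * Kz ζ) = (fun j : Fin (m + 1) =>
      ∑ u : Bool, wt q u x • (tile q u (s j) (t j) * Kz ζ)) := by
    funext j
    rw [v0_loc q x hq, Finset.sum_mul]
    exact Finset.sum_congr rfl (fun u _ => Matrix.smul_mul _ _ _)
  unfold TV
  rw [e1, v0_prod_sum, Matrix.trace_sum]
  refine Finset.sum_congr rfl (fun c _ => ?_)
  rw [v0_prod_smul, Matrix.trace_smul]
  rfl

end ring

end H906K
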