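import Pool.Agent.H906R3.K6.Defs2

/-! # V1: commutation of the vertex transfer matrices -/

namespace H906K
open Pool.Agent.H974R3 Matrix
open scoped Kronecker

/-- expansion of an ordered product of sums -/
theorem v1_ofFn_sum {ι : Type*} [Fintype ι] [DecidableEq ι] {R : Type*} [CommRing R] (n : ℕ)
    (f : Fin n → Bool → Matrix ι ι R) :
    (List.ofFn fun j => ∑ b, f j b).prod
      = ∑ c : Fin n → Bool, (List.ofFn fun j => f j (c j)).prod := by
  induction n with
  | zero => simp
  | succ n ih =>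
    rw [List.ofFn_succ, List.prod_cons, ih (fun j b => f j.succ b), Finset.sum_mul_sum,
      ← Finset.sum_product']
    refine Fintype.sum_equiv (Fin.consEquiv (fun _ => Bool)) _ _ ?_
    rintro ⟨b, c⟩
    simp [List.ofFn_succ, Fin.consEquiv]

/-- Kronecker product of ordered products -/
theorem v1_kron_prod {ι : Type*} [Fintype ι] [DecidableEq ι] {R : Type*} [CommRing R] (n : ℕ)
    (f g : Fin n → Matrix ι ι R) :
    (List.ofFn f).prod ⊗ₖ (List.ofFn g).prod = (List.ofFn fun j => f j ⊗ₖ g j).prod := by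
  induction n with
  | zero => simp
  | succ n ih =>
    rw [List.ofFn_succ, List.ofFn_succ, List.ofFn_succ, List.prod_cons, List.prod_cons,
      List.prod_cons, ← ih (fun j => f j.succ) (fun j => g j.succ), Matrix.mul_kronecker_mul]

/-- the intertwiner -/
def v1R (q x y : ℂ) : Matrix (Bool × Bool) (Bool × Bool) ℂ := fun p r =>
  match p, r with
  | (true, true), (true, true) => q * x - q ^ 2 * y
  | (false, false), (false, false) => q * x - q ^ 2 * y
  | (true, false), (true, false) => x - y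
  | (true, false), (false, true) => (q - q ^ 2) * x
  | (false, true), (true, false) => (q - q ^ 2) * y
  | (false, true), (false, true) => x - y
  | _, _ => 0

/-- adjugate of the intertwiner -/
def v1S (q x y : ℂ) : Matrix (Bool × Bool) (Bool × Bool) ℂ := fun p r =>
  match p, r with
  | (true, true), (true, true) => x ^ 2 + x * y + y ^ 2
  | (false, false), (false, false) => x ^ 2 + x * y + y ^ 2
  | (true, false), (true, false) => (q * x - q ^ 2 * y) * (x - y)
  | (true, false), (false, true) => -((q * x - q ^ 2 * y) * (q - q ^ 2) * x)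
  | (false, true), (true, false) => -((q * x - q ^ 2 * y) * (q - q ^ 2) * y)
  | (false, true), (false, true) => (q * x - q ^ 2 * y) * (x - y)
  | _, _ => 0

theorem v1_RS (q x y : ℂ) (hq : q ^ 2 + q + 1 = 0) :
    v1R q x y * v1S q x y
      = ((q * x - q ^ 2 * y) * (x ^ 2 + x * y + y ^ 2)) • (1 : Matrix (Bool × Bool) (Bool × Bool) ℂ) := by
  ext ⟨a, b⟩ ⟨c, d⟩
  cases a <;> cases b <;> cases c <;> cases d <;>
    simp [Matrix.mul_apply, Fintype.sum_prod_type, v1R, v1S] <;> grind

theorem v1_SR (q x y : ℂ) (hq : q ^ 2 + q + 1 = 0) :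
    v1S q x y * v1R q x y
      = ((q * x - q ^ 2 * y) * (x ^ 2 + x * y + y ^ 2)) • (1 : Matrix (Bool × Bool) (Bool × Bool) ℂ) := by
  ext ⟨a, b⟩ ⟨c, d⟩
  cases a <;> cases b <;> cases c <;> cases d <;>
    simp [Matrix.mul_apply, Fintype.sum_prod_type, v1R, v1S] <;> grind

/-- local tensors -/
noncomputable def v1M (q x y : ℂ) (ζ : ℂˣ) (s t : Bool) : Matrix (Bool × Bool) (Bool × Bool) ℂ :=
  ∑ b, (loc q x b t * Kz ζ) ⊗ₖ (loc q y s b * Kz ζ)

noncomputable def v1N (q x y : ℂ) (ζ : ℂˣ) (s t : Bool) : Matrix (Bool × Bool) (Bool × Bool) ℂ :=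
  ∑ b, (loc q x s b * Kz ζ) ⊗ₖ (loc q y b t * Kz ζ)

/-- the twist as a scalar -/
noncomputable def v1k (ζ : ℂˣ) (b : Bool) : ℂ := if b = true then (ζ : ℂ) else ((ζ⁻¹ : ℂˣ) : ℂ)

theorem v1_locK (q x : ℂ) (ζ : ℂˣ) (s t a c : Bool) :
    (loc q x s t * Kz ζ) a c = loc q x s t a c * v1k ζ c := by
  unfold Kz v1k
  rw [Matrix.mul_diagonal]

theorem v1_M_apply (q x y : ℂ) (ζ : ℂˣ) (s t a b c d : Bool) :
    v1M q x y ζ s t (a, b) (c, d)
      = (loc q x true t a c * loc q y s true b d + loc q x false t a c * loc q y s false b d)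
        * (v1k ζ c * v1k ζ d) := by
  unfold v1M
  rw [Fintype.sum_bool, Matrix.add_apply, Matrix.kroneckerMap_apply, Matrix.kroneckerMap_apply,
    v1_locK, v1_locK, v1_locK, v1_locK]
  ring

theorem v1_N_apply (q x y : ℂ) (ζ : ℂˣ) (s t a b c d : Bool) :
    v1N q x y ζ s t (a, b) (c, d)
      = (loc q x s true a c * loc q y true t b d + loc q x s false a c * loc q y false t b d)
        * (v1k ζ c * v1k ζ d) := by
  unfold v1N
  rw [Fintype.sum_bool, Matrix.add_apply, Matrix.kroneckerMap_apply, Matrix.kroneckerMap_apply,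
    v1_locK, v1_locK, v1_locK, v1_locK]
  ring

theorem v1_local (q x y : ℂ) (hq : q ^ 2 + q + 1 = 0) (ζ : ℂˣ) (s t : Bool) :
    v1R q x y * v1M q x y ζ s t = v1N q x y ζ s t * v1R q x y := by
  ext ⟨a, b⟩ ⟨c, d⟩
  rw [Matrix.mul_apply, Matrix.mul_apply, Fintype.sum_prod_type, Fintype.sum_prod_type]
  simp only [Fintype.sum_bool, v1_M_apply, v1_N_apply]
  generalize v1k ζ = κ
  cases s <;> cases t <;> cases a <;> cases b <;> cases c <;> cases d <;>
    simp [v1R, loc, wt] <;> grind

/-- intertwining along a word -/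
theorem v1_word (q x y : ℂ) (hq : q ^ 2 + q + 1 = 0) (ζ : ℂˣ) (n : ℕ) (s t : Fin n → Bool) :
    v1R q x y * (List.ofFn fun j => v1M q x y ζ (s j) (t j)).prod
      = (List.ofFn fun j => v1N q x y ζ (s j) (t j)).prod * v1R q x y := by
  induction n with
  | zero => simp
  | succ n ih =>
    rw [List.ofFn_succ, List.ofFn_succ, List.prod_cons, List.prod_cons, ← Matrix.mul_assoc,
      v1_local q x y hq, Matrix.mul_assoc, ih (fun j => s j.succ) (fun j => t j.succ),
      Matrix.mul_assoc]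

theorem v1_trace (q x y : ℂ) (hq : q ^ 2 + q + 1 = 0) (ζ : ℂˣ) (n : ℕ) (s t : Fin n → Bool)
    (hd : (q * x - q ^ 2 * y) * (x ^ 2 + x * y + y ^ 2) ≠ 0) :
    Matrix.trace (List.ofFn fun j => v1M q x y ζ (s j) (t j)).prod
      = Matrix.trace (List.ofFn fun j => v1N q x y ζ (s j) (t j)).prod := by
  set A := (List.ofFn fun j => v1M q x y ζ (s j) (t j)).prod with hA
  set B := (List.ofFn fun j => v1N q x y ζ (s j) (t j)).prod with hB
  have h1 : v1R q x y * A = B * v1R q x y := v1_word q x y hq ζ n s t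
  have h2 : Matrix.trace (v1S q x y * v1R q x y * A) = Matrix.trace (v1R q x y * v1S q x y * B) := by
    rw [Matrix.mul_assoc, h1, ← Matrix.mul_assoc, Matrix.trace_mul_comm, ← Matrix.mul_assoc]
  rw [v1_SR q x y hq, v1_RS q x y hq, Matrix.smul_mul, Matrix.smul_mul, Matrix.one_mul,
    Matrix.one_mul, Matrix.trace_smul, Matrix.trace_smul] at h2
  exact mul_left_cancel₀ hd h2

/-- entries of the product as traces -/
theorem v1_prod_apply (m : ℕ) (q x y : ℂ) (ζ : ℂˣ) (t s : Fin (m + 1) → Bool) :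
    (TV m q x ζ * TV m q y ζ) t s
      = Matrix.trace (List.ofFn fun j => v1M q x y ζ (s j) (t j)).prod := by
  rw [Matrix.mul_apply]
  unfold v1M
  rw [v1_ofFn_sum (m + 1) (fun j b => (loc q x b (t j) * Kz ζ) ⊗ₖ (loc q y (s j) b * Kz ζ)),
    Matrix.trace_sum]
  refine Finset.sum_congr rfl fun c _ => ?_
  unfold TV
  rw [← Matrix.trace_kronecker, v1_kron_prod]

theorem v1_prod_apply' (m : ℕ) (q x y : ℂ) (ζ : ℂˣ) (t s : Fin (m + 1) → Bool) :
    (TV m q y ζ * TV m q x ζ) t s
      = Matrix.trace (List.ofFn fun j => v1N q x y ζ (s j) (t j)).prod := by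
  rw [Matrix.mul_apply]
  unfold v1N
  rw [v1_ofFn_sum (m + 1) (fun j b => (loc q x (s j) b * Kz ζ) ⊗ₖ (loc q y b (t j) * Kz ζ)),
    Matrix.trace_sum]
  refine Finset.sum_congr rfl fun c _ => ?_
  unfold TV
  rw [mul_comm, ← Matrix.trace_kronecker, v1_kron_prod]

theorem v1_comm_generic (m : ℕ) (q x y : ℂ) (hq : q ^ 2 + q + 1 = 0) (ζ : ℂˣ)
    (hd : (q * x - q ^ 2 * y) * (x ^ 2 + x * y + y ^ 2) ≠ 0) :
    TV m q x ζ * TV m q y ζ = TV m q y ζ * TV m q x ζ := by
  ext t s
  rw [v1_prod_apply, v1_prod_apply', v1_trace q x y hq ζ _ _ _ hd]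

theorem v1_cont_loc (q : ℂ) (s t : Bool) : Continuous fun x : ℂ => loc q x s t := by
  refine continuous_matrix fun a b => ?_
  unfold loc wt
  split_ifs <;> fun_prop

theorem v1_cont (m : ℕ) (q : ℂ) (ζ : ℂˣ) : Continuous fun x : ℂ => TV m q x ζ := by
  refine continuous_matrix fun t s => ?_
  unfold TV
  refine Continuous.matrix_trace ?_
  have h : ∀ n : ℕ, ∀ f : Fin n → ℂ → Matrix Bool Bool ℂ, (∀ j, Continuous (f j)) →
      Continuous fun x => (List.ofFn fun j => f j x).prod := by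
    intro n
    induction n with
    | zero => intro f _; simp only [List.ofFn_zero, List.prod_nil]; exact continuous_const
    | succ n ih =>
      intro f hf
      simp only [List.ofFn_succ, List.prod_cons]
      exact (hf 0).mul (ih (fun j => f j.succ) fun j => hf j.succ)
  exact h (m + 1) (fun j x => loc q x (s j) (t j) * Kz ζ)
    fun j => (v1_cont_loc q (s j) (t j)).mul continuous_const

theorem TV_comm (m : ℕ) (q x y : ℂ) (hq : q ^ 2 + q + 1 = 0) (ζ : ℂˣ) :
    TV m q x ζ * TV m q y ζ = TV m q y ζ * TV m q x ζ := by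
  have hq0 : q ≠ 0 := by
    rintro rfl
    norm_num at hq
  have hden : Dense ({x : ℂ | x = q * y ∨ x = q ^ 2 * y}ᶜ) := by
    refine Set.Countable.dense_compl ℂ (Set.Finite.countable ?_)
    exact ((Set.finite_singleton (q * y)).union (Set.finite_singleton (q ^ 2 * y))).subset
      (fun z hz => hz.elim (fun h => Or.inl h) (fun h => Or.inr h))
  have heq : (fun x : ℂ => TV m q x ζ * TV m q y ζ) = fun x : ℂ => TV m q y ζ * TV m q x ζ := by
    refine Continuous.ext_on hden ((v1_cont m q ζ).mul continuous_const)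
      (continuous_const.mul (v1_cont m q ζ)) ?_
    intro z hz
    refine v1_comm_generic m q z y hq ζ ?_
    have hz' : ¬ (z = q * y ∨ z = q ^ 2 * y) := hz
    push Not at hz'
    have h1 : z - q * y ≠ 0 := sub_ne_zero.mpr hz'.1
    have h2 : z - q ^ 2 * y ≠ 0 := sub_ne_zero.mpr hz'.2
    have e : (q * z - q ^ 2 * y) * (z ^ 2 + z * y + y ^ 2)
        = q * (z - q * y) * ((z - q * y) * (z - q ^ 2 * y)) := by
      have e1 : z ^ 2 + z * y + y ^ 2 = (z - q * y) * (z - q ^ 2 * y) := by
        have h3 : q ^ 3 = 1 := by linear_combination (q - 1) * hq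
        linear_combination (z * y) * hq - y ^ 2 * h3
      rw [e1]; ring
    rw [e]
    exact mul_ne_zero (mul_ne_zero hq0 h1) (mul_ne_zero h1 h2)
  exact congrFun heq x

end H906K
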