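import Pool.Agent.H906R3.K6.Defs2
import Pool.Agent.H974R3.Rel

/-! L2: rotations and the spin of the image. -/

namespace H906K
open Pool.Agent.H974R3 Polynomial MeasureTheory Filter Topology

theorem l2_none {m : ℕ} (σ : Pat (m + 1)) : σ.1 none = some (dpos σ) := by
  unfold dpos
  rcases h : σ.1 none with _ | d
  · exact absurd h (σ.2.nofix none)
  · rfl

theorem l2_dpos_eq {m : ℕ} {σ : Pat (m + 1)} {d : Fin (m + 1)} (h : σ.1 none = some d) :
    dpos σ = d := by
  rw [l2_none] at h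
  exact Option.some.inj h

theorem l2_dpos {m : ℕ} (σ : Pat (m + 1)) : σ.1 (some (dpos σ)) = none := by
  rw [← l2_none, σ.2.inv]

/-- the partner -/
def l2_pt {m : ℕ} (σ : Pat (m + 1)) (j : Fin (m + 1)) : Fin (m + 1) := (σ.1 (some j)).getD j

theorem l2_pt_spec {m : ℕ} (σ : Pat (m + 1)) {j : Fin (m + 1)} (hj : j ≠ dpos σ) :
    σ.1 (some j) = some (l2_pt σ j) := by
  unfold l2_pt
  rcases h : σ.1 (some j) with _ | l
  · exfalso
    have h1 := σ.2.inv (some j)
    rw [h, l2_none] at h1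
    exact hj (Option.some.inj h1).symm
  · rfl

theorem l2_spin {m : ℕ} (s : Fin (m + 1) → Bool) (σ : Pat (m + 1)) (h1 : s (dpos σ) = true)
    (h2 : ∀ k l, σ.1 (some k) = some l → s k ≠ s l) : spin s = 1 := by
  unfold spin
  rw [← Finset.add_sum_erase Finset.univ _ (Finset.mem_univ (dpos σ))]
  rw [if_pos h1]
  have h0 : ∑ j ∈ Finset.univ.erase (dpos σ), (if s j = true then (1 : ℤ) else -1) = 0 := by
    have hsp : ∀ a ∈ Finset.univ.erase (dpos σ), σ.1 (some a) = some (l2_pt σ a) :=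
      fun a ha => l2_pt_spec σ (Finset.mem_erase.1 ha).1
    have hmem : ∀ a ∈ Finset.univ.erase (dpos σ), l2_pt σ a ∈ Finset.univ.erase (dpos σ) := by
      intro a ha
      refine Finset.mem_erase.2 ⟨?_, Finset.mem_univ _⟩
      intro he
      have h3 := hsp a ha
      have h4 := σ.2.inv (some a)
      rw [h3, he, l2_dpos] at h4
      cases h4
    refine Finset.sum_involution (fun a _ => l2_pt σ a) ?_ ?_ hmem ?_
    · intro a ha
      have h3 := h2 a _ (hsp a ha)
      cases ha1 : s a <;> cases ha2 : s (l2_pt σ a) <;> simp_all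
    · intro a ha _ he
      have h3 := hsp a ha
      rw [he] at h3
      exact σ.2.nofix _ h3
    · intro a ha
      have h3 := hsp a ha
      have h4 := hsp _ (hmem a ha)
      have h5 := σ.2.inv (some a)
      rw [h3, h4] at h5
      exact Option.some.inj h5
  rw [h0, add_zero]

section ring
variable {R : Type*} [CommRing R]

theorem Th_spin {m : ℕ} (q : R) (ζ : Rˣ) (s : Fin (m + 1) → Bool) (σ : Pat (m + 1))
    (h : spin s ≠ 1) : Th m q ζ s σ = 0 := by
  unfold Th
  rw [if_neg]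
  rintro ⟨h1, h2⟩
  exact h (l2_spin s σ h1 h2)

theorem l2_rot_some {m : ℕ} (σ : Pat (m + 1)) (k : Fin (m + 1)) :
    (rot m σ).1 (some (finRotate (m + 1) k)) = rotV m (σ.1 (some k)) := by
  rw [rot_val, ← rel_rotV_some]
  simp

theorem l2_rot_some_iff {m : ℕ} (σ : Pat (m + 1)) (k l : Fin (m + 1)) :
    (rot m σ).1 (some (finRotate (m + 1) k)) = some (finRotate (m + 1) l) ↔
      σ.1 (some k) = some l := by
  rw [l2_rot_some, ← rel_rotV_some]
  exact (rotV m).injective.eq_iff

theorem l2_rot_dpos {m : ℕ} (σ : Pat (m + 1)) :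
    dpos (rot m σ) = finRotate (m + 1) (dpos σ) := by
  apply l2_dpos_eq
  rw [rot_val]
  have h : (rotV m)⁻¹ none = none := by
    rw [Equiv.Perm.inv_eq_iff_eq]; rfl
  rw [Equiv.Perm.mul_apply, Equiv.Perm.mul_apply, h, l2_none, rel_rotV_some]

theorem l2_rd {m : ℕ} (σ : Pat (m + 1)) (k : Fin (m + 1)) :
    rd (rot m σ) (finRotate (m + 1) k) = rd σ k := by
  unfold rd
  rw [l2_rot_dpos]
  have hk := rel_rotate_val k
  have hd := rel_rotate_val (dpos σ)
  have h1 := k.isLt
  have h2 := (dpos σ).isLt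
  rcases hk with ⟨hk1, hk2⟩ | ⟨hk1, hk2⟩ <;> rcases hd with ⟨hd1, hd2⟩ | ⟨hd1, hd2⟩
  · rw [hk2, hd2, hk1, hd1]
    have e : m + (m + 1) - m = m + 1 := by omega
    rw [e]; simp
  · rw [hk2, hd2, hk1]
    have e : m + (m + 1) - (dpos σ).val = (m - (dpos σ).val) + (m + 1) := by omega
    rw [e, Nat.add_mod_right]
    congr 1
    omega
  · rw [hk2, hd2, hd1]
    have e : k.val + 1 + (m + 1) - 0 = k.val + 1 + (m + 1) := by omega
    rw [e, Nat.add_mod_right]
    congr 1
    omega
  · rw [hk2, hd2]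
    congr 1
    omega

theorem l2_Th {m : ℕ} (q : R) (ζ : Rˣ) (t : Fin (m + 1) → Bool) (σ : Pat (m + 1)) :
    Th m q ζ (fun k => t (finRotate (m + 1) k)) σ = Th m q ζ t (rot m σ) := by
  unfold Th
  have hc : (t (finRotate (m + 1) (dpos σ)) = true ∧
      ∀ k l, σ.1 (some k) = some l → t (finRotate (m + 1) k) ≠ t (finRotate (m + 1) l)) ↔
      (t (dpos (rot m σ)) = true ∧ ∀ k l, (rot m σ).1 (some k) = some l → t k ≠ t l) := by
    rw [l2_rot_dpos]
    refine and_congr Iff.rfl ⟨fun h k l hkl => ?_, fun h k l hkl => ?_⟩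
    · obtain ⟨k, rfl⟩ := (finRotate (m + 1)).surjective k
      obtain ⟨l, rfl⟩ := (finRotate (m + 1)).surjective l
      exact h k l ((l2_rot_some_iff σ k l).1 hkl)
    · exact h _ _ ((l2_rot_some_iff σ k l).2 hkl)
  have hs : (∑ k, if t (finRotate (m + 1) k) = true then (rd σ k : ℤ) else -(rd σ k : ℤ)) =
      ∑ k, if t k = true then (rd (rot m σ) k : ℤ) else -(rd (rot m σ) k : ℤ) := by
    rw [← Equiv.sum_comp (finRotate (m + 1))
      (fun k => if t k = true then (rd (rot m σ) k : ℤ) else -(rd (rot m σ) k : ℤ))]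
    refine Finset.sum_congr rfl fun k _ => ?_
    rw [l2_rd]
  have hp : (∏ k, (if t (finRotate (m + 1) k) = true ∧
        ∃ l, σ.1 (some k) = some l ∧ rd σ l < rd σ k then -q ^ 2 else 1)) =
      ∏ k, (if t k = true ∧ ∃ l, (rot m σ).1 (some k) = some l ∧
        rd (rot m σ) l < rd (rot m σ) k then -q ^ 2 else 1) := by
    rw [← Equiv.prod_comp (finRotate (m + 1))
      (fun k => (if t k = true ∧ ∃ l, (rot m σ).1 (some k) = some l ∧
        rd (rot m σ) l < rd (rot m σ) k then -q ^ 2 else 1))]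
    refine Finset.prod_congr rfl fun k _ => ?_
    have hiff : (t (finRotate (m + 1) k) = true ∧
        ∃ l, σ.1 (some k) = some l ∧ rd σ l < rd σ k) ↔
        (t (finRotate (m + 1) k) = true ∧ ∃ l, (rot m σ).1 (some (finRotate (m + 1) k)) = some l ∧
        rd (rot m σ) l < rd (rot m σ) (finRotate (m + 1) k)) := by
      refine and_congr Iff.rfl ⟨?_, ?_⟩
      · rintro ⟨l, h1, h2⟩
        refine ⟨finRotate (m + 1) l, (l2_rot_some_iff σ k l).2 h1, ?_⟩
        rw [l2_rd, l2_rd]; exact h2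
      · rintro ⟨l, h1, h2⟩
        obtain ⟨l, rfl⟩ := (finRotate (m + 1)).surjective l
        refine ⟨l, (l2_rot_some_iff σ k l).1 h1, ?_⟩
        rw [l2_rd, l2_rd] at h2; exact h2
    simp only [hiff]
  simp only [hc, hs, hp]

theorem rotM_Th (m : ℕ) (q : R) (ζ : Rˣ) (t : Fin (m + 1) → Bool) (σ : Pat (m + 1)) :
    (rotM m ζ * Th m q ζ) t σ = (ζ : R) * Th m q ζ t (rot m σ) := by
  rw [Matrix.mul_apply, Finset.sum_eq_single (fun k => t (finRotate (m + 1) k))]
  · have h1 : rotM m ζ t (fun k => t (finRotate (m + 1) k)) =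
        ((ζ ^ spin (fun k => t (finRotate (m + 1) k)) : Rˣ) : R) := by
      unfold rotM
      rw [if_pos (fun k => rfl)]
    rw [h1]
    by_cases hs : spin (fun k => t (finRotate (m + 1) k)) = 1
    · rw [hs, zpow_one, l2_Th]
    · rw [Th_spin q ζ _ σ hs, mul_zero, ← l2_Th, Th_spin q ζ _ σ hs, mul_zero]
  · intro s _ hs
    have h1 : rotM m ζ t s = 0 := by
      unfold rotM
      rw [if_neg]
      intro h
      exact hs (funext fun k => (h k).symm)
    rw [h1, zero_mul]
  · intro h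
    exact absurd (Finset.mem_univ _) h

theorem rotMi_Th (m : ℕ) (q : R) (ζ : Rˣ) (t : Fin (m + 1) → Bool) (σ : Pat (m + 1)) :
    (rotMi m ζ * Th m q ζ) t σ = ((ζ⁻¹ : Rˣ) : R) * Th m q ζ t (rotInv m σ) := by
  rw [Matrix.mul_apply, Finset.sum_eq_single (fun k => t ((finRotate (m + 1)).symm k))]
  · have h1 : rotMi m ζ t (fun k => t ((finRotate (m + 1)).symm k)) =
        ((ζ ^ (-spin (fun k => t ((finRotate (m + 1)).symm k))) : Rˣ) : R) := by
      unfold rotMi
      rw [if_pos (fun k => by simp)]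
    have h2 : Th m q ζ t (rotInv m σ) = Th m q ζ (fun k => t ((finRotate (m + 1)).symm k)) σ := by
      have h3 := l2_Th q ζ (fun k => t ((finRotate (m + 1)).symm k)) (rotInv m σ)
      rw [rot_rotInv] at h3
      simpa using h3
    rw [h1, h2]
    by_cases hs : spin (fun k => t ((finRotate (m + 1)).symm k)) = 1
    · rw [hs, zpow_neg_one]
    · rw [Th_spin q ζ _ σ hs, mul_zero, mul_zero]
  · intro s _ hs
    have h1 : rotMi m ζ t s = 0 := by
      unfold rotMi
      rw [if_neg]
      intro h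
      apply hs
      funext k
      rw [h]
      simp
    rw [h1, zero_mul]
  · intro h
    exact absurd (Finset.mem_univ _) h

end ring

end H906K
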