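import Pool.Agent.H906R3.K6.Defs2

/-! Task L2b (helper409): the sum of the entries of the columns of `Th`. -/

namespace H906K
open Pool.Agent.H974R3 Finset

theorem l2b_comb {ι R : Type*} [Fintype ι] [DecidableEq ι] [CommRing R] (d : ι) (p : ι → ι)
    (hp : ∀ k, p (p k) = k) (hd : ∀ k, p k = k ↔ k = d) (r : ι → ℕ) (hr : Function.Injective r)
    (n : ℕ) (hcard : Fintype.card ι = 2 * n + 1) (c : R) :
    (∑ s : ι → Bool, if s d = true ∧ ∀ k, k ≠ d → s k ≠ s (p k) then
      ∏ k, (if s k = true ∧ r (p k) < r k then c else 1) else 0) = (1 + c) ^ n := by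
  classical
  have hpd : p d = d := (hd d).2 rfl
  set A : Finset ι := univ.filter fun k => r (p k) < r k with hA
  have hA1 : A.card = n := by
    have h1 : A.card = (univ.filter fun k => r k < r (p k)).card := by
      refine Finset.card_bij' (fun k _ => p k) (fun k _ => p k) ?_ ?_ ?_ ?_
      · intro k hk
        rw [hA, mem_filter] at hk
        rw [mem_filter, hp]
        exact ⟨mem_univ _, hk.2⟩
      · intro k hk
        rw [mem_filter] at hk
        rw [hA, mem_filter, hp]
        exact ⟨mem_univ _, hk.2⟩
      · intro k _; exact hp k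
      · intro k _; exact hp k
    have h2 : (univ : Finset ι) = insert d (A ∪ univ.filter fun k => r k < r (p k)) := by
      ext k
      simp only [mem_univ, mem_insert, mem_union, hA, mem_filter, true_and, true_iff]
      by_cases hk : k = d
      · exact Or.inl hk
      · right
        have : r (p k) ≠ r k := fun h => hk ((hd k).1 (hr h))
        omega
    have h3 := congrArg Finset.card h2
    rw [card_univ, hcard, card_insert_of_notMem, card_union_of_disjoint, ← h1] at h3
    · omega
    · rw [Finset.disjoint_left]
      intro k hk hk'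
      rw [hA, mem_filter] at hk
      rw [mem_filter] at hk'
      omega
    · simp [hA, hpd]
  have hprod := Finset.prod_one_add (R := R) (s := A) (f := fun _ => c)
  rw [prod_const, hA1] at hprod
  rw [hprod, ← Finset.sum_filter]
  refine Finset.sum_nbij' (fun s => A.filter fun k => s k = true)
    (fun B k => if k = d then true else if r (p k) < r k then decide (k ∈ B) else
      decide (p k ∉ B)) ?_ ?_ ?_ ?_ ?_
  · intro s _
    exact mem_powerset.2 (filter_subset _ _)
  · intro B hB
    rw [mem_filter]
    refine ⟨mem_univ _, by simp, ?_⟩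
    intro k hk
    have hpk : p k ≠ d := by
      intro h
      apply hk
      rw [← hp k, h, hpd]
    have hne : r (p k) ≠ r k := fun h => hk ((hd k).1 (hr h))
    simp only [hk, hpk, if_false, hp]
    by_cases h : r (p k) < r k
    · rw [if_pos h, if_neg (by omega)]
      by_cases h' : k ∈ B <;> simp [h']
    · rw [if_neg h, if_pos (by omega)]
      by_cases h' : p k ∈ B <;> simp [h']
  · intro s hs
    rw [mem_filter] at hs
    obtain ⟨-, h1, h2⟩ := hs
    funext k
    by_cases hk : k = d
    · rw [if_pos hk, hk, h1]
    · rw [if_neg hk]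
      by_cases h : r (p k) < r k
      · rw [if_pos h]
        have : (k ∈ A.filter fun k => s k = true) ↔ s k = true := by
          simp [hA, h]
        rw [Bool.eq_iff_iff, decide_eq_true_iff]
        exact this
      · rw [if_neg h]
        have hne : r (p k) ≠ r k := fun h => hk ((hd k).1 (hr h))
        have h' : r (p (p k)) = r k := by rw [hp]
        have : (p k ∉ A.filter fun k => s k = true) ↔ ¬ s (p k) = true := by
          have h4 : r k < r (p k) := by omega
          simp [hA, hp, h4]
        rw [Bool.eq_iff_iff, decide_eq_true_iff, this]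
        have h3 := h2 k hk
        cases h5 : s k <;> cases h6 : s (p k) <;> simp [h5, h6] at h3 ⊢
  · intro B hB
    rw [mem_powerset] at hB
    ext k
    simp only [mem_filter]
    constructor
    · rintro ⟨hk, h⟩
      have hk' : r (p k) < r k := (mem_filter.1 hk).2
      have hkd : k ≠ d := by
        rintro rfl
        rw [hpd] at hk'
        exact lt_irrefl _ hk'
      rw [if_neg hkd, if_pos hk'] at h
      exact of_decide_eq_true h
    · intro hk
      have hkA := hB hk
      have hk' : r (p k) < r k := (mem_filter.1 hkA).2
      have hkd : k ≠ d := by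
        rintro rfl
        rw [hpd] at hk'
        exact lt_irrefl _ hk'
      refine ⟨hkA, ?_⟩
      rw [if_neg hkd, if_pos hk']
      exact decide_eq_true hk
  · intro s _
    rw [← Finset.prod_filter]
    congr 1
    ext k
    simp only [mem_filter, mem_univ, true_and, hA]
    exact and_comm

variable {R : Type*} [CommRing R]

theorem l2b_rd {m : ℕ} (σ : Pat (m + 1)) : Function.Injective (rd σ) := by
  intro k l h
  unfold rd at h
  have hd := (dpos σ).2
  have h1 : k.val + (m + 1) - (dpos σ).val = k.val + ((m + 1) - (dpos σ).val) := by omega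
  have h2 : l.val + (m + 1) - (dpos σ).val = l.val + ((m + 1) - (dpos σ).val) := by omega
  rw [h1, h2] at h
  have h3 : k.val ≡ l.val [MOD (m + 1)] := Nat.ModEq.add_right_cancel' _ h
  exact Fin.ext (Nat.ModEq.eq_of_lt_of_lt h3 k.2 l.2)

theorem Th_sum (n : ℕ) (q : R) (σ : Pat (2 * n + 1)) :
    ∑ s, Th (2 * n) q 1 s σ = (1 - q ^ 2) ^ n := by
  classical
  have hinv := σ.2.inv
  have hnof := σ.2.nofix
  have hnone : σ.1 none = some (dpos σ) := by
    unfold dpos
    cases h : σ.1 none with
    | none => exact absurd h (hnof none)
    | some a => rfl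
  have hdn : σ.1 (some (dpos σ)) = none := by rw [← hnone, hinv]
  let p : Fin (2 * n + 1) → Fin (2 * n + 1) := fun k => (σ.1 (some k)).getD k
  have hp1 : ∀ k, k ≠ dpos σ → σ.1 (some k) = some (p k) := by
    intro k hk
    cases h : σ.1 (some k) with
    | none =>
      exfalso
      apply hk
      have h1 := hinv (some k)
      rw [h, hnone] at h1
      exact (Option.some.inj h1).symm
    | some a => simp only [p, h, Option.getD_some]
  have hpd : p (dpos σ) = dpos σ := by simp only [p, hdn, Option.getD_none]
  have hpne : ∀ k, k ≠ dpos σ → p k ≠ dpos σ := by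
    intro k hk h
    have h1 := hp1 k hk
    rw [h] at h1
    have h2 := hinv (some k)
    rw [h1, hdn] at h2
    cases h2
  have hpp : ∀ k, p (p k) = k := by
    intro k
    by_cases hk : k = dpos σ
    · rw [hk, hpd, hpd]
    · have h1 := hinv (some k)
      rw [hp1 k hk, hp1 _ (hpne k hk)] at h1
      exact Option.some.inj h1
  have hpk : ∀ k, p k = k ↔ k = dpos σ := by
    intro k
    constructor
    · intro h
      by_contra hk
      have h1 := hp1 k hk
      rw [h] at h1
      exact hnof _ h1
    · rintro rfl; exact hpd
  have hmain := l2b_comb (R := R) (dpos σ) p hpp hpk (rd σ) (l2b_rd σ) n (by simp) (-q ^ 2)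
  rw [← sub_eq_add_neg] at hmain
  rw [← hmain]
  refine sum_congr rfl fun s _ => ?_
  unfold Th
  have e1 : (∀ k l, σ.1 (some k) = some l → s k ≠ s l) ↔ ∀ k, k ≠ dpos σ → s k ≠ s (p k) := by
    constructor
    · intro h k hk
      exact h k _ (hp1 k hk)
    · intro h k l hkl
      have hk : k ≠ dpos σ := by
        rintro rfl
        rw [hdn] at hkl
        cases hkl
      have : l = p k := by
        have := hp1 k hk
        rw [hkl] at this
        exact Option.some.inj this
      rw [this]
      exact h k hk
  have e2 : ∀ k, (∃ l, σ.1 (some k) = some l ∧ rd σ l < rd σ k) ↔ rd σ (p k) < rd σ k := by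
    intro k
    constructor
    · rintro ⟨l, h1, h2⟩
      have hk : k ≠ dpos σ := by
        rintro rfl
        rw [hdn] at h1
        cases h1
      have : l = p k := by
        have := hp1 k hk
        rw [h1] at this
        exact Option.some.inj this
      rwa [← this]
    · intro h
      have hk : k ≠ dpos σ := by
        rintro rfl
        rw [hpd] at h
        exact lt_irrefl _ h
      exact ⟨p k, hp1 k hk, h⟩
  simp only [e1, e2, one_zpow, Units.val_one, one_mul]
  by_cases h : s (dpos σ) = true ∧ ∀ k, k ≠ dpos σ → s k ≠ s (p k)
  · rw [if_pos h, if_pos h]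
  · rw [if_neg h, if_neg h]

end H906K
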