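import Pool.Agent.H906R3.K6.Defs2
import Pool.Agent.H974R3.Rel2
import Pool.Agent.H974R3.Compat

/-!
# L1: the map `Th` intertwines the Temperley-Lieb generators
-/

set_option autoImplicit false

namespace H906K
open Pool.Agent.H974R3 Finset

/-! ### the defect and the distance from it -/

theorem l1_dpos_none {m : ℕ} (σ : Pat (m + 1)) : σ.1 none = some (dpos σ) := by
  unfold dpos
  rcases h : σ.1 none with _ | x
  · exact absurd h (σ.2.nofix none)
  · rfl

theorem l1_dpos_some {m : ℕ} (σ : Pat (m + 1)) : σ.1 (some (dpos σ)) = none := by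
  rw [← l1_dpos_none, σ.2.inv]

theorem l1_dpos_eq {m : ℕ} (σ : Pat (m + 1)) {c : Fin (m + 1)} (h : σ.1 (some c) = none) :
    dpos σ = c := by
  have h1 := l1_dpos_none σ
  have h2 : σ.1 none = some c := by rw [← h, σ.2.inv]
  rw [h2] at h1
  exact (Option.some.inj h1).symm

theorem l1_rd {m : ℕ} (σ : Pat (m + 1)) (k : Fin (m + 1)) :
    rd σ k = if (dpos σ).val ≤ k.val then k.val - (dpos σ).val
      else k.val + (m + 1) - (dpos σ).val := by
  unfold rd
  have h1 := k.2
  have h2 := (dpos σ).2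
  split_ifs with h
  · rw [show k.val + (m + 1) - (dpos σ).val = (k.val - (dpos σ).val) + (m + 1) by omega,
      Nat.add_mod_right, Nat.mod_eq_of_lt (by omega)]
  · rw [Nat.mod_eq_of_lt (by omega)]

theorem l1_adj (m i : ℕ) :
    ((ix m (i + 1)).val = (ix m i).val + 1 ∧ (ix m i).val < m) ∨
      ((ix m i).val = m ∧ (ix m (i + 1)).val = 0) := by
  have e : (ix m (i + 1)).val = ((ix m i).val + 1) % (m + 1) := by
    show (i + 1) % (m + 1) = (i % (m + 1) + 1) % (m + 1)
    rw [Nat.mod_add_mod]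
  have h := (ix m i).2
  by_cases h2 : (ix m i).val < m
  · left
    exact ⟨by rw [e, Nat.mod_eq_of_lt (by omega)], h2⟩
  · right
    have h3 : (ix m i).val = m := by omega
    exact ⟨h3, by rw [e, h3, Nat.mod_self]⟩

/-! ### sums and products over all sites -/

section split
variable {V M : Type*} [Fintype V] [DecidableEq V] [CommMonoid M]

theorem l1_prod2 {a b : V} (hab : a ≠ b) (f : V → M) :
    ∏ k, f k = f a * (f b * ∏ k ∈ (univ.erase a).erase b, f k) := by
  rw [← mul_prod_erase univ f (mem_univ a),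
    ← mul_prod_erase (univ.erase a) f (mem_erase.mpr ⟨hab.symm, mem_univ b⟩)]

theorem l1_prod3 {a b c : V} (hab : a ≠ b) (hac : a ≠ c) (hbc : b ≠ c) (f : V → M) :
    ∏ k, f k = f a * (f b * (f c * ∏ k ∈ ((univ.erase a).erase b).erase c, f k)) := by
  rw [l1_prod2 hab, ← mul_prod_erase ((univ.erase a).erase b) f
    (mem_erase.mpr ⟨hbc.symm, mem_erase.mpr ⟨hac.symm, mem_univ c⟩⟩)]

theorem l1_prod4 {a b c d : V} (hab : a ≠ b) (hac : a ≠ c) (hbc : b ≠ c) (had : a ≠ d)
    (hbd : b ≠ d) (hcd : c ≠ d) (f : V → M) :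
    ∏ k, f k = f a * (f b * (f c * (f d *
      ∏ k ∈ (((univ.erase a).erase b).erase c).erase d, f k))) := by
  rw [l1_prod3 hab hac hbc, ← mul_prod_erase (((univ.erase a).erase b).erase c) f
    (mem_erase.mpr ⟨hcd.symm, mem_erase.mpr ⟨hbd.symm, mem_erase.mpr ⟨had.symm, mem_univ d⟩⟩⟩)]

end split

section split
variable {V M : Type*} [Fintype V] [DecidableEq V] [AddCommMonoid M]

theorem l1_sum2 {a b : V} (hab : a ≠ b) (f : V → M) :
    ∑ k, f k = f a + (f b + ∑ k ∈ (univ.erase a).erase b, f k) := by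
  rw [← add_sum_erase univ f (mem_univ a),
    ← add_sum_erase (univ.erase a) f (mem_erase.mpr ⟨hab.symm, mem_univ b⟩)]

theorem l1_sum3 {a b c : V} (hab : a ≠ b) (hac : a ≠ c) (hbc : b ≠ c) (f : V → M) :
    ∑ k, f k = f a + (f b + (f c + ∑ k ∈ ((univ.erase a).erase b).erase c, f k)) := by
  rw [l1_sum2 hab, ← add_sum_erase ((univ.erase a).erase b) f
    (mem_erase.mpr ⟨hbc.symm, mem_erase.mpr ⟨hac.symm, mem_univ c⟩⟩)]

end split

theorem l1_mem3 {V : Type*} [Fintype V] [DecidableEq V] {a b c k : V} :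
    k ∈ ((univ.erase a).erase b).erase c ↔ k ≠ a ∧ k ≠ b ∧ k ≠ c := by
  simp only [mem_erase, mem_univ, and_true]
  tauto

theorem l1_mem2 {V : Type*} [Fintype V] [DecidableEq V] {a b k : V} :
    k ∈ (univ.erase a).erase b ↔ k ≠ a ∧ k ≠ b := by
  simp only [mem_erase, mem_univ, and_true]
  tauto

theorem l1_mem4 {V : Type*} [Fintype V] [DecidableEq V] {a b c d k : V} :
    k ∈ (((univ.erase a).erase b).erase c).erase d ↔ k ≠ a ∧ k ≠ b ∧ k ≠ c ∧ k ≠ d := by
  simp only [mem_erase, mem_univ, and_true]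
  tauto

/-- a set of sites closed under the arcs has total spin zero -/
theorem l1_bal {m : ℕ} (σ : Pat (m + 1)) (t : Fin (m + 1) → Bool) (U : Finset (Fin (m + 1)))
    (h : ∀ k ∈ U, ∃ l ∈ U, σ.1 (some k) = some l ∧ t k ≠ t l) :
    ∑ k ∈ U, (if t k = true then (1 : ℤ) else -1) = 0 := by
  refine Finset.sum_involution (fun k _ => (σ.1 (some k)).getD k) ?_ ?_ ?_ ?_
  · intro k hk
    obtain ⟨l, -, h1, h2⟩ := h k hk
    simp only [h1, Option.getD_some]
    rcases hk' : t k <;> rcases hl' : t l <;> simp_all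
  · intro k hk _
    obtain ⟨l, -, h1, h2⟩ := h k hk
    simp only [h1, Option.getD_some]
    intro h3
    rw [h3] at h2
    exact h2 rfl
  · intro k hk
    obtain ⟨l, h0, h1, h2⟩ := h k hk
    simp only [h1, Option.getD_some]
    exact h0
  · intro k hk
    obtain ⟨l, h0, h1, h2⟩ := h k hk
    have h3 : σ.1 (some l) = some k := by rw [← h1, σ.2.inv]
    simp only [h1, Option.getD_some, h3]

/-! ### the entries of `Th` -/

section ring
variable {R : Type*} [CommRing R]

/-- the exponent contributed by a site -/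
def l1_e {m : ℕ} (r : Fin (m + 1) → ℕ) (s : Fin (m + 1) → Bool) (k : Fin (m + 1)) : ℤ :=
  if s k = true then (r k : ℤ) else -(r k : ℤ)

open Classical in
/-- the factor contributed by a site -/
noncomputable def l1_f {m : ℕ} (q : R) (r : Fin (m + 1) → ℕ) (σ : Pat (m + 1))
    (s : Fin (m + 1) → Bool) (k : Fin (m + 1)) : R :=
  if s k = true ∧ ∃ l, σ.1 (some k) = some l ∧ r l < r k then -q ^ 2 else 1

/-- compatibility of spins and arcs -/
def l1_ok {m : ℕ} (σ : Pat (m + 1)) (s : Fin (m + 1) → Bool) : Prop :=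
  s (dpos σ) = true ∧ ∀ k l, σ.1 (some k) = some l → s k ≠ s l

theorem l1_Th_pos {m : ℕ} (q : R) (ζ : Rˣ) (s : Fin (m + 1) → Bool) (σ : Pat (m + 1))
    (h : l1_ok σ s) : Th m q ζ s σ =
      ((ζ ^ (∑ k, l1_e (rd σ) s k) : Rˣ) : R) * ∏ k, l1_f q (rd σ) σ s k := by
  unfold Th
  exact if_pos h

theorem l1_Th_neg {m : ℕ} (q : R) (ζ : Rˣ) (s : Fin (m + 1) → Bool) (σ : Pat (m + 1))
    (h : ¬ l1_ok σ s) : Th m q ζ s σ = 0 := by
  unfold Th
  exact if_neg h

theorem l1_f_some {m : ℕ} (q : R) (r : Fin (m + 1) → ℕ) (σ : Pat (m + 1))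
    (s : Fin (m + 1) → Bool) {k l : Fin (m + 1)} (h : σ.1 (some k) = some l) :
    l1_f q r σ s k = if s k = true ∧ r l < r k then -q ^ 2 else 1 := by
  unfold l1_f
  by_cases h1 : s k = true ∧ r l < r k
  · rw [if_pos h1, if_pos ⟨h1.1, l, h, h1.2⟩]
  · rw [if_neg h1, if_neg]
    rintro ⟨h2, l', h3, h4⟩
    rw [h] at h3
    have := Option.some.inj h3
    subst this
    exact h1 ⟨h2, h4⟩

theorem l1_f_none {m : ℕ} (q : R) (r : Fin (m + 1) → ℕ) (σ : Pat (m + 1))
    (s : Fin (m + 1) → Bool) {k : Fin (m + 1)} (h : σ.1 (some k) = none) :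
    l1_f q r σ s k = 1 := by
  unfold l1_f
  rw [if_neg]
  rintro ⟨h2, l', h3, h4⟩
  rw [h] at h3
  exact absurd h3 (by simp)

/-- the spins `t` with `b`, `!b` at the sites `a`, `a'` -/
def l1_u {m : ℕ} (t : Fin (m + 1) → Bool) (a a' : Fin (m + 1)) (b : Bool) :
    Fin (m + 1) → Bool := fun k => if k = a then b else if k = a' then !b else t k

theorem l1_u_a {m : ℕ} (t : Fin (m + 1) → Bool) (a a' : Fin (m + 1)) (b : Bool) :
    l1_u t a a' b a = b := by simp [l1_u]

theorem l1_u_b {m : ℕ} (t : Fin (m + 1) → Bool) {a a' : Fin (m + 1)} (h : a ≠ a') (b : Bool) :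
    l1_u t a a' b a' = !b := by
  unfold l1_u
  rw [if_neg h.symm, if_pos rfl]

theorem l1_u_c {m : ℕ} (t : Fin (m + 1) → Bool) {a a' k : Fin (m + 1)} (h : k ≠ a) (h' : k ≠ a')
    (b : Bool) : l1_u t a a' b k = t k := by
  unfold l1_u
  rw [if_neg h, if_neg h']

theorem l1_mul {m : ℕ} (hm : 2 ≤ m) (i : ℕ) (q : R) (ζ : Rˣ) (t : Fin (m + 1) → Bool)
    (σ : Pat (m + 1)) (ht : t (ix m i) ≠ t (ix m (i + 1))) :
    (eV m i q ζ * Th m q ζ) t σ = cup q ζ (t (ix m i)) *
      (cap q ζ true * Th m q ζ (l1_u t (ix m i) (ix m (i + 1)) true) σ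
        + cap q ζ false * Th m q ζ (l1_u t (ix m i) (ix m (i + 1)) false) σ) := by
  have hab : ix m i ≠ ix m (i + 1) := rel_ix_ne (by omega) i
  set a := ix m i with ha
  set b := ix m (i + 1) with hb
  have hcond : ∀ β, (∀ k, k ≠ a → k ≠ b → t k = l1_u t a b β k) ∧
      l1_u t a b β a ≠ l1_u t a b β b ∧ t a ≠ t b := by
    intro β
    refine ⟨fun k h1 h2 => (l1_u_c t h1 h2 β).symm, ?_, ht⟩
    rw [l1_u_a, l1_u_b t hab]
    cases β <;> simp
  have hne : l1_u t a b true ≠ l1_u t a b false := by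
    intro h
    have := congrFun h a
    rw [l1_u_a, l1_u_a] at this
    exact absurd this (by simp)
  have h0 : ∀ s : Fin (m + 1) → Bool, s ≠ l1_u t a b true ∧ s ≠ l1_u t a b false →
      eV m i q ζ t s * Th m q ζ s σ = 0 := by
    intro s hs
    have : eV m i q ζ t s = 0 := by
      unfold eV
      rw [if_neg]
      rintro ⟨h1, h2, h3⟩
      rw [← ha, ← hb] at h2
      rw [← ha, ← hb] at h1
      have h4 : s = l1_u t a b (s a) := by
        funext k
        by_cases hk : k = a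
        · rw [hk, l1_u_a]
        · by_cases hk2 : k = b
          · rw [hk2, l1_u_b t hab]
            revert h2
            cases s a <;> cases s b <;> simp
          · rw [l1_u_c t hk hk2, h1 k hk hk2]
      rcases h5 : s a
      · rw [h5] at h4
        exact hs.2 h4
      · rw [h5] at h4
        exact hs.1 h4
    rw [this, zero_mul]
  rw [Matrix.mul_apply, Fintype.sum_eq_add _ _ hne h0]
  have he : ∀ β, eV m i q ζ t (l1_u t a b β) = cup q ζ (t a) * cap q ζ β := by
    intro β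
    unfold eV
    rw [if_pos (hcond β), ← ha, l1_u_a]
  rw [he, he]
  ring

theorem l1_mul_zero {m : ℕ} (i : ℕ) (q : R) (ζ : Rˣ) (t : Fin (m + 1) → Bool)
    (σ : Pat (m + 1)) (ht : t (ix m i) = t (ix m (i + 1))) :
    (eV m i q ζ * Th m q ζ) t σ = 0 := by
  rw [Matrix.mul_apply]
  refine Finset.sum_eq_zero (fun s _ => ?_)
  have : eV m i q ζ t s = 0 := by
    unfold eV
    rw [if_neg]
    rintro ⟨h1, h2, h3⟩
    exact h3 ht
  rw [this, zero_mul]

theorem l1_z (ζ : Rˣ) (a b : ℤ) : ((ζ ^ (a + b) : Rˣ) : R) = ((ζ ^ a : Rˣ) : R) * ((ζ ^ b : Rˣ) : R) := by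
  rw [zpow_add, Units.val_mul]

theorem l1_z1 (ζ : Rˣ) : ((ζ ^ (1 : ℤ) : Rˣ) : R) = (ζ : R) := by rw [zpow_one]

theorem l1_zm1 (ζ : Rˣ) : ((ζ ^ (-1 : ℤ) : Rˣ) : R) = ((ζ⁻¹ : Rˣ) : R) := by rw [zpow_neg_one]

/-! ### case 1: `i` and `i+1` are joined -/

theorem l1_case1 {m : ℕ} (hm : 2 ≤ m) (i : ℕ) (q : R) (hq : q ^ 2 + q + 1 = 0) (ζ : Rˣ)
    (t : Fin (m + 1) → Bool) (σ : Pat (m + 1)) (ht : t (ix m i) ≠ t (ix m (i + 1)))
    (hσ : σ.1 (some (ix m i)) = some (ix m (i + 1))) :
    (eV m i q ζ * Th m q ζ) t σ = ((ζ ^ dE m i σ : Rˣ) : R) * Th m q ζ t (E m i σ) := by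
  have hab : ix m i ≠ ix m (i + 1) := rel_ix_ne (by omega) i
  have hσ' : σ.1 (some (ix m (i + 1))) = some (ix m i) := by rw [← hσ, σ.2.inv]
  have hdE : dE m i σ = 0 := by
    unfold dE
    rw [hσ, hσ']
  rw [E_fix i σ hσ, hdE, zpow_zero, Units.val_one, one_mul, l1_mul hm i q ζ t σ ht]
  have hadj := l1_adj m i
  set a := ix m i with ha
  set b := ix m (i + 1) with hb
  have hxa : dpos σ ≠ a := by
    intro h
    have := l1_dpos_some σ
    rw [h, hσ] at this
    exact absurd this (by simp)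
  have hxb : dpos σ ≠ b := by
    intro h
    have := l1_dpos_some σ
    rw [h, hσ'] at this
    exact absurd this (by simp)
  have hrd : rd σ b = rd σ a + 1 := by
    rw [l1_rd, l1_rd]
    have h1 := (dpos σ).2
    have h2 : (dpos σ).val ≠ a.val := fun h => hxa (Fin.ext h)
    have h3 : (dpos σ).val ≠ b.val := fun h => hxb (Fin.ext h)
    split_ifs <;> omega
  -- compatibility
  have hok : ∀ s s' : Fin (m + 1) → Bool, (∀ k, k ≠ a → k ≠ b → s k = s' k) → s a ≠ s b →
      s' a ≠ s' b → l1_ok σ s → l1_ok σ s' := by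
    intro s s' h1 h2 h3 h4
    refine ⟨by rw [← h1 _ hxa hxb]; exact h4.1, ?_⟩
    intro k l hkl
    by_cases hk : k = a
    · subst hk
      rw [hσ] at hkl
      rw [← Option.some.inj hkl]
      exact h3
    by_cases hk2 : k = b
    · subst hk2
      rw [hσ'] at hkl
      rw [← Option.some.inj hkl]
      exact h3.symm
    have hlk : σ.1 (some l) = some k := by rw [← hkl, σ.2.inv]
    have hl : l ≠ a := by
      intro h
      apply hk2
      rw [h, hσ] at hlk
      exact (Option.some.inj hlk).symm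
    have hl2 : l ≠ b := by
      intro h
      apply hk
      rw [h, hσ'] at hlk
      exact (Option.some.inj hlk).symm
    rw [← h1 k hk hk2, ← h1 l hl hl2]
    exact h4.2 k l hkl
  have hu : ∀ β, l1_u t a b β a ≠ l1_u t a b β b := by
    intro β
    rw [l1_u_a, l1_u_b t hab]
    cases β <;> simp
  by_cases hv : l1_ok σ t
  · have hvu : ∀ β, l1_ok σ (l1_u t a b β) := fun β =>
      hok t _ (fun k h1 h2 => (l1_u_c t h1 h2 β).symm) ht (hu β) hv
    have key : ∀ s : Fin (m + 1) → Bool, (∀ k, k ≠ a → k ≠ b → s k = t k) → l1_ok σ s →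
        s a ≠ s b → Th m q ζ s σ =
        (if s a = true then ((ζ ^ (-1 : ℤ) : Rˣ) : R) else ((ζ ^ (1 : ℤ) : Rˣ) : R) * (-q ^ 2)) *
          (((ζ ^ (∑ k ∈ (univ.erase a).erase b, l1_e (rd σ) t k) : Rˣ) : R) *
            ∏ k ∈ (univ.erase a).erase b, l1_f q (rd σ) σ t k) := by
      intro s hs hsv hsab
      rw [l1_Th_pos q ζ s σ hsv, l1_sum2 hab, l1_prod2 hab]
      have e1 : ∑ k ∈ (univ.erase a).erase b, l1_e (rd σ) s k =
          ∑ k ∈ (univ.erase a).erase b, l1_e (rd σ) t k := by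
        refine Finset.sum_congr rfl (fun k hk => ?_)
        have hk' := l1_mem2.mp hk
        unfold l1_e
        rw [hs k hk'.1 hk'.2]
      have e2 : ∏ k ∈ (univ.erase a).erase b, l1_f q (rd σ) σ s k =
          ∏ k ∈ (univ.erase a).erase b, l1_f q (rd σ) σ t k := by
        refine Finset.prod_congr rfl (fun k hk => ?_)
        have hk' := l1_mem2.mp hk
        unfold l1_f
        rw [hs k hk'.1 hk'.2]
      rw [e1, e2, l1_f_some q (rd σ) σ s hσ, l1_f_some q (rd σ) σ s hσ', ← add_assoc, l1_z]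
      rcases h1 : s a
      · have h2 : s b = true := by
          rw [h1] at hsab
          revert hsab
          cases s b <;> simp
        have e3 : l1_e (rd σ) s a + l1_e (rd σ) s b = 1 := by
          simp only [l1_e, h1, h2, hrd, if_true, Bool.false_eq_true, if_false]
          push_cast
          ring
        rw [e3, h2, if_neg (by simp), if_pos ⟨rfl, by omega⟩, if_neg (by simp)]
        ring
      · have h2 : s b = false := by
          rw [h1] at hsab
          revert hsab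
          cases s b <;> simp
        have e3 : l1_e (rd σ) s a + l1_e (rd σ) s b = -1 := by
          simp only [l1_e, h1, h2, hrd, if_true, Bool.false_eq_true, if_false]
          push_cast
          ring
        rw [e3, h2, if_neg (by rintro ⟨-, h⟩; omega), if_neg (by simp), if_pos rfl]
        ring
    rw [key _ (fun k h1 h2 => l1_u_c t h1 h2 true) (hvu true) (hu true),
      key _ (fun k h1 h2 => l1_u_c t h1 h2 false) (hvu false) (hu false),
      key t (fun k _ _ => rfl) hv ht, l1_u_a, l1_u_a]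
    generalize ((ζ ^ (∑ k ∈ (univ.erase a).erase b, l1_e (rd σ) t k) : Rˣ) : R) = Z
    generalize ∏ k ∈ (univ.erase a).erase b, l1_f q (rd σ) σ t k = P
    have hζ : (ζ : R) * ((ζ⁻¹ : Rˣ) : R) = 1 := Units.mul_inv ζ
    rw [l1_z1, l1_zm1]
    unfold cup cap
    simp only [if_true, Bool.false_eq_true, if_false]
    generalize (ζ : R) = z at hζ ⊢
    generalize ((ζ⁻¹ : Rˣ) : R) = z' at hζ ⊢
    split_ifs
    · linear_combination (z' * Z * P * (-q - q ^ 2)) * hζ - z' * Z * P * hq
    · linear_combination (-q ^ 2 * z * Z * P * (-q - q ^ 2)) * hζ + q ^ 2 * z * Z * P * hq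
  · have hvu : ∀ β, ¬ l1_ok σ (l1_u t a b β) := fun β h =>
      hv (hok _ t (fun k h1 h2 => l1_u_c t h1 h2 β) (hu β) ht h)
    rw [l1_Th_neg q ζ _ σ (hvu true), l1_Th_neg q ζ _ σ (hvu false), l1_Th_neg q ζ t σ hv]
    ring

/-! ### reduction of the general case -/

/-- an entry of `Th` for a pattern in which `i` and `i+1` are joined -/
theorem l1_key {m : ℕ} (hm : 2 ≤ m) (i : ℕ) (q : R) (ζ : Rˣ)
    (s : Fin (m + 1) → Bool) (σ : Pat (m + 1))
    (hσ : σ.1 (some (ix m i)) = some (ix m (i + 1))) (hs : l1_ok σ s) :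
    Th m q ζ s σ = cup q ζ (s (ix m i)) *
          (((ζ ^ (∑ k ∈ (univ.erase (ix m i)).erase (ix m (i + 1)), l1_e (rd σ) s k) : Rˣ) : R) *
            ∏ k ∈ (univ.erase (ix m i)).erase (ix m (i + 1)), l1_f q (rd σ) σ s k) := by
  have hab : ix m i ≠ ix m (i + 1) := rel_ix_ne (by omega) i
  have hσ' : σ.1 (some (ix m (i + 1))) = some (ix m i) := by rw [← hσ, σ.2.inv]
  have hadj := l1_adj m i
  set a := ix m i with ha
  set b := ix m (i + 1) with hb
  have hsab := hs.2 _ _ hσ
  have hxa : dpos σ ≠ a := by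
    intro h
    have := l1_dpos_some σ
    rw [h, hσ] at this
    exact absurd this (by simp)
  have hxb : dpos σ ≠ b := by
    intro h
    have := l1_dpos_some σ
    rw [h, hσ'] at this
    exact absurd this (by simp)
  have hrd : rd σ b = rd σ a + 1 := by
    rw [l1_rd, l1_rd]
    have h1 := (dpos σ).2
    have h2 : (dpos σ).val ≠ a.val := fun h => hxa (Fin.ext h)
    have h3 : (dpos σ).val ≠ b.val := fun h => hxb (Fin.ext h)
    split_ifs <;> omega
  rw [l1_Th_pos q ζ s σ hs, l1_sum2 hab, l1_prod2 hab, l1_f_some q (rd σ) σ s hσ,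
    l1_f_some q (rd σ) σ s hσ', ← add_assoc, l1_z]
  unfold cup
  rcases h1 : s a
  · have h2 : s b = true := by
      rw [h1] at hsab
      revert hsab
      cases s b <;> simp
    have e3 : l1_e (rd σ) s a + l1_e (rd σ) s b = 1 := by
      simp only [l1_e, h1, h2, hrd, if_true, Bool.false_eq_true, if_false]
      push_cast
      ring
    rw [e3, h2, if_neg (by simp), if_pos ⟨rfl, by omega⟩, if_neg (by simp), l1_z1]
    ring
  · have h2 : s b = false := by
      rw [h1] at hsab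
      revert hsab
      cases s b <;> simp
    have e3 : l1_e (rd σ) s a + l1_e (rd σ) s b = -1 := by
      simp only [l1_e, h1, h2, hrd, if_true, Bool.false_eq_true, if_false]
      push_cast
      ring
    rw [e3, h2, if_neg (by rintro ⟨-, h⟩; omega), if_neg (by simp), if_pos rfl, l1_zm1]
    ring

theorem l1_red {m : ℕ} (hm : 2 ≤ m) (i : ℕ) (q : R) (ζ : Rˣ)
    (t : Fin (m + 1) → Bool) (σ : Pat (m + 1)) (ht : t (ix m i) ≠ t (ix m (i + 1)))
    (h0 : ¬ l1_ok (E m i σ) t → ∀ β, ¬ l1_ok σ (l1_u t (ix m i) (ix m (i + 1)) β))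
    (h1 : l1_ok (E m i σ) t →
      cap q ζ true * Th m q ζ (l1_u t (ix m i) (ix m (i + 1)) true) σ
        + cap q ζ false * Th m q ζ (l1_u t (ix m i) (ix m (i + 1)) false) σ
      = ((ζ ^ dE m i σ : Rˣ) : R) *
          (((ζ ^ (∑ k ∈ (univ.erase (ix m i)).erase (ix m (i + 1)), l1_e (rd (E m i σ)) t k)
            : Rˣ) : R) *
            ∏ k ∈ (univ.erase (ix m i)).erase (ix m (i + 1)), l1_f q (rd (E m i σ)) (E m i σ) t k)) :
    (eV m i q ζ * Th m q ζ) t σ = ((ζ ^ dE m i σ : Rˣ) : R) * Th m q ζ t (E m i σ) := by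
  rw [l1_mul hm i q ζ t σ ht]
  by_cases hv : l1_ok (E m i σ) t
  · rw [h1 hv, l1_key hm i q ζ t (E m i σ) (E_arc (by omega) i σ) hv]
    ring
  · rw [l1_Th_neg q ζ _ σ (h0 hv true), l1_Th_neg q ζ _ σ (h0 hv false), l1_Th_neg q ζ t _ hv]
    ring

/-! ### cases 2 and 3: the defect is at `i` or `i+1` -/

/-- noncrossing in the coordinate `rd` -/
theorem l1_side {m : ℕ} (σ : Pat (m + 1)) {a b x y c k l : Fin (m + 1)}
    (hadj : (b.val = a.val + 1 ∧ a.val < m) ∨ (a.val = m ∧ b.val = 0))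
    (hxy : (x = a ∧ y = b) ∨ (x = b ∧ y = a)) (hx : dpos σ = x)
    (hyc : σ.1 (some y) = some c) (hcx : c ≠ x) (hcy : c ≠ y)
    (hk : k ≠ x ∧ k ≠ y ∧ k ≠ c) (hl : l ≠ x ∧ l ≠ y ∧ l ≠ c) (hkl : σ.1 (some k) = some l) :
    rd σ k < rd σ c ↔ rd σ l < rd σ c := by
  have hnc := σ.2.nc y c k l hyc hkl hk.2.1 hk.2.2
  rw [l1_rd, l1_rd, l1_rd, hx]
  have e1 : ∀ u v : Fin (m + 1), u ≠ v → u.val ≠ v.val := fun u v h h' => h (Fin.ext h')
  have h1 := e1 _ _ hk.1
  have h2 := e1 _ _ hk.2.1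
  have h3 := e1 _ _ hk.2.2
  have h4 := e1 _ _ hl.1
  have h5 := e1 _ _ hl.2.1
  have h6 := e1 _ _ hl.2.2
  have h7 := e1 _ _ hcx
  have h8 := e1 _ _ hcy
  have hk2 := k.2
  have hl2 := l.2
  have hc2 := c.2
  simp only [Pool.Agent.H974R3.Btw, Fin.lt_def] at hnc
  rcases hxy with ⟨rfl, rfl⟩ | ⟨rfl, rfl⟩ <;> rcases hadj with ⟨g1, g2⟩ | ⟨g1, g2⟩ <;>
    split_ifs <;> omega

theorem l1_shift {m : ℕ} (σ σ' : Pat (m + 1)) {c : Fin (m + 1)} (hc : dpos σ' = c)
    (k : Fin (m + 1)) :
    rd σ' k + rd σ c = rd σ k + (if rd σ k < rd σ c then m + 1 else 0) := by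
  rw [l1_rd, l1_rd, l1_rd, hc]
  have h1 := k.2
  have h2 := c.2
  have h3 := (dpos σ).2
  split_ifs <;> omega

/-- the other sites contribute the same before and after -/
theorem l1_rest {m : ℕ} (q : R) (σ σ' : Pat (m + 1)) (t : Fin (m + 1) → Bool)
    {a b x y c : Fin (m + 1)}
    (hadj : (b.val = a.val + 1 ∧ a.val < m) ∨ (a.val = m ∧ b.val = 0))
    (hxy : (x = a ∧ y = b) ∨ (x = b ∧ y = a)) (hx : dpos σ = x)
    (hyc : σ.1 (some y) = some c) (hcx : c ≠ x) (hcy : c ≠ y) (hc : dpos σ' = c)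
    (hσ' : ∀ k, k ≠ x → k ≠ y → k ≠ c → σ'.1 (some k) = σ.1 (some k))
    (W : Finset (Fin (m + 1))) (hW : ∀ k, k ∈ W ↔ k ≠ x ∧ k ≠ y ∧ k ≠ c)
    (ht : ∀ k ∈ W, ∀ l, σ.1 (some k) = some l → t k ≠ t l) :
    ∑ k ∈ W, l1_e (rd σ) t k = ∑ k ∈ W, l1_e (rd σ') t k ∧
      ∏ k ∈ W, l1_f q (rd σ) σ t k = ∏ k ∈ W, l1_f q (rd σ') σ' t k := by
  have hpart : ∀ k ∈ W, ∃ l ∈ W, σ.1 (some k) = some l ∧ t k ≠ t l := by
    intro k hk
    have hk' := (hW k).mp hk
    rcases h : σ.1 (some k) with _ | l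
    · exact absurd (l1_dpos_eq σ h) (by rw [hx]; exact fun h => hk'.1 h.symm)
    · refine ⟨l, (hW l).mpr ⟨?_, ?_, ?_⟩, rfl, ht k hk l h⟩
      · intro h2
        have h3 : σ.1 (some l) = some k := by rw [← h, σ.2.inv]
        rw [h2, ← hx, l1_dpos_some] at h3
        exact absurd h3 (by simp)
      · intro h2
        have h3 : σ.1 (some l) = some k := by rw [← h, σ.2.inv]
        rw [h2, hyc] at h3
        exact hk'.2.2 (Option.some.inj h3).symm
      · intro h2
        have h3 : σ.1 (some l) = some k := by rw [← h, σ.2.inv]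
        have h4 : σ.1 (some c) = some y := by rw [← hyc, σ.2.inv]
        rw [h2, h4] at h3
        exact hk'.2.1 (Option.some.inj h3).symm
  constructor
  · have e1 : ∀ k ∈ W, l1_e (rd σ) t k = l1_e (rd σ') t k +
        ((rd σ c : ℤ) * (if t k = true then (1 : ℤ) else -1) -
          (m + 1 : ℤ) * (if rd σ k < rd σ c then (if t k = true then (1 : ℤ) else -1) else 0)) := by
      intro k _
      have h := l1_shift σ σ' hc k
      unfold l1_e
      split_ifs at h ⊢ <;> omega
    rw [Finset.sum_congr rfl e1, Finset.sum_add_distrib, Finset.sum_sub_distrib, ← Finset.mul_sum,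
      ← Finset.mul_sum, l1_bal σ t W hpart, ← Finset.sum_filter, l1_bal σ t]
    · ring
    · intro k hk
      rw [Finset.mem_filter] at hk
      obtain ⟨l, h1, h2, h3⟩ := hpart k hk.1
      refine ⟨l, Finset.mem_filter.mpr ⟨h1, ?_⟩, h2, h3⟩
      exact (l1_side σ hadj hxy hx hyc hcx hcy ((hW k).mp hk.1) ((hW l).mp h1) h2).mp hk.2
  · refine Finset.prod_congr rfl (fun k hk => ?_)
    obtain ⟨l, h1, h2, h3⟩ := hpart k hk
    have hk' := (hW k).mp hk
    have h4 : σ'.1 (some k) = some l := by rw [hσ' k hk'.1 hk'.2.1 hk'.2.2, h2]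
    rw [l1_f_some q _ σ t h2, l1_f_some q _ σ' t h4]
    have h5 := l1_side σ hadj hxy hx hyc hcx hcy hk' ((hW l).mp h1) h2
    have h6 := l1_shift σ σ' hc k
    have h7 := l1_shift σ σ' hc l
    have h8 : rd σ l < rd σ k ↔ rd σ' l < rd σ' k := by
      split_ifs at h6 h7 <;> omega
    simp only [h8]

theorem l1_E_apply {m : ℕ} (hm : 2 ≤ m) (i : ℕ) (σ : Pat (m + 1)) (v : Vx (m + 1)) :
    (E m i σ).1 v = if v = some (ix m i) then some (ix m (i + 1)) else
      if v = some (ix m (i + 1)) then some (ix m i) else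
      if v = σ.1 (some (ix m i)) then σ.1 (some (ix m (i + 1))) else
      if v = σ.1 (some (ix m (i + 1))) then σ.1 (some (ix m i)) else σ.1 v := by
  have hab : (some (ix m i) : Vx (m + 1)) ≠ some (ix m (i + 1)) := by
    intro h
    exact rel_ix_ne (by omega) i (Option.some.inj h)
  rw [E_val]
  exact r2_join_apply hab σ.2.inv σ.2.nofix v

/-- action of `E` in the cases 2 and 3 -/
theorem l1_E23 {m : ℕ} (hm : 2 ≤ m) (i : ℕ) (σ : Pat (m + 1)) {x y c : Fin (m + 1)}
    (hxy : (x = ix m i ∧ y = ix m (i + 1)) ∨ (x = ix m (i + 1) ∧ y = ix m i))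
    (hx : dpos σ = x) (hyc : σ.1 (some y) = some c) :
    dpos (E m i σ) = c ∧ ∀ k, k ≠ x → k ≠ y → k ≠ c → (E m i σ).1 (some k) = σ.1 (some k) := by
  have hE := l1_E_apply hm i σ
  have hx1 : σ.1 (some x) = none := by rw [← hx]; exact l1_dpos_some σ
  have hcy : σ.1 (some c) = some y := by rw [← hyc, σ.2.inv]
  have hcx' : c ≠ x := by
    intro h
    rw [h, hx1] at hcy
    exact absurd hcy (by simp)
  have hcy' : c ≠ y := by
    intro h
    rw [h] at hcy
    exact σ.2.nofix _ hcy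
  rcases hxy with ⟨rfl, rfl⟩ | ⟨rfl, rfl⟩
  · constructor
    · apply l1_dpos_eq
      rw [hE, hx1, hyc]
      simp [hcx', hcy']
    · intro k h1 h2 h3
      rw [hE, hx1, hyc]
      simp [h1, h2, h3]
  · constructor
    · apply l1_dpos_eq
      rw [hE, hx1, hyc]
      simp [hcx', hcy']
    · intro k h1 h2 h3
      rw [hE, hx1, hyc]
      simp [h1, h2, h3]

theorem l1_case23 {m : ℕ} (hm : 2 ≤ m) (i : ℕ) (q : R) (hq : q ^ 2 + q + 1 = 0) (ζ : Rˣ)
    (t : Fin (m + 1) → Bool) (σ : Pat (m + 1)) (ht : t (ix m i) ≠ t (ix m (i + 1)))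
    {x y c : Fin (m + 1)}
    (hxy : (x = ix m i ∧ y = ix m (i + 1)) ∨ (x = ix m (i + 1) ∧ y = ix m i))
    (hx : dpos σ = x) (hyc : σ.1 (some y) = some c)
    (hdE : dE m i σ = if x = ix m i then (rd σ c : ℤ) else (rd σ c : ℤ) - (m + 1)) :
    (eV m i q ζ * Th m q ζ) t σ = ((ζ ^ dE m i σ : Rˣ) : R) * Th m q ζ t (E m i σ) := by
  have hab : ix m i ≠ ix m (i + 1) := rel_ix_ne (by omega) i
  have hadj := l1_adj m i
  obtain ⟨hc, hE⟩ := l1_E23 hm i σ hxy hx hyc
  have hEa := E_arc (show 1 ≤ m by omega) i σ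
  have hEb : (E m i σ).1 (some (ix m (i + 1))) = some (ix m i) := by rw [← hEa, (E m i σ).2.inv]
  have hEc : (E m i σ).1 (some c) = none := by rw [← hc]; exact l1_dpos_some _
  have hx1 : σ.1 (some x) = none := by rw [← hx]; exact l1_dpos_some σ
  have hcy : σ.1 (some c) = some y := by rw [← hyc, σ.2.inv]
  have hcx' : c ≠ x := by
    intro h
    rw [h, hx1] at hcy
    exact absurd hcy (by simp)
  have hcy' : c ≠ y := by
    intro h
    rw [h] at hcy
    exact σ.2.nofix _ hcy
  have hxy' : x ≠ y := by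
    rcases hxy with ⟨h1, h2⟩ | ⟨h1, h2⟩
    · rw [h1, h2]; exact hab
    · rw [h1, h2]; exact hab.symm
  have hca : c ≠ ix m i := by
    rcases hxy with ⟨h1, h2⟩ | ⟨h1, h2⟩
    · rw [← h1]; exact hcx'
    · rw [← h2]; exact hcy'
  have hcb : c ≠ ix m (i + 1) := by
    rcases hxy with ⟨h1, h2⟩ | ⟨h1, h2⟩
    · rw [← h2]; exact hcy'
    · rw [← h1]; exact hcx'
  set a := ix m i with ha
  set b := ix m (i + 1) with hb
  have hkab : ∀ k, k ≠ a → k ≠ b → k ≠ x ∧ k ≠ y := by
    intro k h1 h2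
    rcases hxy with ⟨h3, h4⟩ | ⟨h3, h4⟩
    · rw [h3, h4]; exact ⟨h1, h2⟩
    · rw [h3, h4]; exact ⟨h2, h1⟩
  have hkxy : ∀ k, k ≠ x → k ≠ y → k ≠ a ∧ k ≠ b := by
    intro k h1 h2
    rcases hxy with ⟨h3, h4⟩ | ⟨h3, h4⟩
    · rw [h3] at h1; rw [h4] at h2; exact ⟨h1, h2⟩
    · rw [h3] at h1; rw [h4] at h2; exact ⟨h2, h1⟩
  -- spins of `u`
  have huk : ∀ β k, k ≠ a → k ≠ b → l1_u t a b β k = t k := fun β k h1 h2 => l1_u_c t h1 h2 β
  have huxy : ∀ β, l1_u t a b β x ≠ l1_u t a b β y := by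
    intro β
    rcases hxy with ⟨h3, h4⟩ | ⟨h3, h4⟩
    · rw [h3, h4, l1_u_a, l1_u_b t hab]; cases β <;> simp
    · rw [h3, h4, l1_u_a, l1_u_b t hab]; cases β <;> simp
  -- partners of the other sites
  have hpart : ∀ k l, k ≠ x → k ≠ y → k ≠ c → σ.1 (some k) = some l → l ≠ x ∧ l ≠ y ∧ l ≠ c := by
    intro k l h1 h2 h3 h
    have h5 : σ.1 (some l) = some k := by rw [← h, σ.2.inv]
    refine ⟨?_, ?_, ?_⟩
    · intro h6
      rw [h6, hx1] at h5
      exact absurd h5 (by simp)
    · intro h6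
      rw [h6, hyc] at h5
      exact h3 (Option.some.inj h5).symm
    · intro h6
      rw [h6, hcy] at h5
      exact h2 (Option.some.inj h5).symm
  have hoku : ∀ β, l1_ok σ (l1_u t a b β) → l1_u t a b β x = true ∧ l1_ok (E m i σ) t := by
    intro β h
    have h1 : l1_u t a b β x = true := by rw [← hx]; exact h.1
    have h2 : l1_u t a b β y = false := by
      have := huxy β
      rw [h1] at this
      revert this
      cases l1_u t a b β y <;> simp
    have h3 : t c = true := by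
      have := h.2 y c hyc
      rw [h2, huk β c hca hcb] at this
      revert this
      cases t c <;> simp
    refine ⟨h1, by rw [hc]; exact h3, ?_⟩
    intro k l hkl
    by_cases hk1 : k = a
    · subst hk1
      rw [hEa] at hkl
      rw [← Option.some.inj hkl]
      exact ht
    by_cases hk2 : k = b
    · subst hk2
      rw [hEb] at hkl
      rw [← Option.some.inj hkl]
      exact ht.symm
    by_cases hk3 : k = c
    · subst hk3
      rw [hEc] at hkl
      exact absurd hkl (by simp)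
    have hk4 := hkab k hk1 hk2
    rw [hE k hk4.1 hk4.2 hk3] at hkl
    have hl := hpart k l hk4.1 hk4.2 hk3 hkl
    have hl' := hkxy l hl.1 hl.2.1
    have := h.2 k l hkl
    rwa [huk β k hk1 hk2, huk β l hl'.1 hl'.2] at this
  have hoku' : ∀ β, l1_u t a b β x = true → l1_ok (E m i σ) t → l1_ok σ (l1_u t a b β) := by
    intro β h1 h
    have h2 : l1_u t a b β y = false := by
      have := huxy β
      rw [h1] at this
      revert this
      cases l1_u t a b β y <;> simp
    have h3 : t c = true := by rw [← hc]; exact h.1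
    refine ⟨by rw [hx]; exact h1, ?_⟩
    intro k l hkl
    by_cases hk1 : k = x
    · subst hk1
      rw [hx1] at hkl
      exact absurd hkl (by simp)
    by_cases hk2 : k = y
    · subst hk2
      rw [hyc] at hkl
      rw [← Option.some.inj hkl, h2, huk β c hca hcb, h3]
      simp
    by_cases hk3 : k = c
    · subst hk3
      rw [hcy] at hkl
      rw [← Option.some.inj hkl, h2, huk β k hca hcb, h3]
      simp
    have hk4 := hkxy k hk1 hk2
    have hl := hpart k l hk1 hk2 hk3 hkl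
    have hl' := hkxy l hl.1 hl.2.1
    rw [huk β k hk4.1 hk4.2, huk β l hl'.1 hl'.2]
    exact h.2 k l (by rw [hE k hk1 hk2 hk3]; exact hkl)
  refine l1_red hm i q ζ t σ ht (fun h β h' => h (hoku β h').2) (fun hv => ?_)
  rw [← ha, ← hb]
  have htc : t c = true := by rw [← hc]; exact hv.1
  -- the right hand side
  have hcW : c ∈ (univ.erase a).erase b := l1_mem2.mpr ⟨hca, hcb⟩
  have hrc' : rd (E m i σ) c = 0 := by
    rw [l1_rd, hc, if_pos le_rfl, Nat.sub_self]
  rw [← add_sum_erase _ _ hcW, ← mul_prod_erase _ _ hcW, l1_f_none q _ _ t hEc, one_mul]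
  have he0 : l1_e (rd (E m i σ)) t c = 0 := by
    unfold l1_e
    rw [hrc']
    simp
  rw [he0, zero_add]
  have hW : ∀ k, k ∈ ((univ.erase a).erase b).erase c ↔ k ≠ x ∧ k ≠ y ∧ k ≠ c := by
    intro k
    rw [l1_mem3]
    constructor
    · rintro ⟨h1, h2, h3⟩
      exact ⟨(hkab k h1 h2).1, (hkab k h1 h2).2, h3⟩
    · rintro ⟨h1, h2, h3⟩
      exact ⟨(hkxy k h1 h2).1, (hkxy k h1 h2).2, h3⟩
  have hrest := l1_rest q σ (E m i σ) t hadj hxy hx hyc hcx' hcy' hc hE
    (((univ.erase a).erase b).erase c) hW (by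
      intro k hk l hkl
      have hk' := (hW k).mp hk
      exact hv.2 k l (by rw [hE k hk'.1 hk'.2.1 hk'.2.2]; exact hkl))
  rw [← hrest.1, ← hrest.2]
  -- the left hand side
  have key : ∀ β, l1_u t a b β x = true → Th m q ζ (l1_u t a b β) σ =
      ((ζ ^ ((rd σ c : ℤ) - (rd σ y : ℤ)) : Rˣ) : R) *
        (if rd σ y < rd σ c then -q ^ 2 else 1) *
        (((ζ ^ (∑ k ∈ ((univ.erase a).erase b).erase c, l1_e (rd σ) t k) : Rˣ) : R) *
          ∏ k ∈ ((univ.erase a).erase b).erase c, l1_f q (rd σ) σ t k) := by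
    intro β h1
    have hok := hoku' β h1 hv
    have h2 : l1_u t a b β y = false := by
      have := huxy β
      rw [h1] at this
      revert this
      cases l1_u t a b β y <;> simp
    have h3 : l1_u t a b β c = true := by rw [huk β c hca hcb, htc]
    have hset : ((univ.erase x).erase y).erase c = ((univ.erase a).erase b).erase c := by
      ext k
      rw [hW, l1_mem3]
    rw [l1_Th_pos q ζ _ σ hok, l1_sum3 hxy' hcx'.symm hcy'.symm, l1_prod3 hxy' hcx'.symm hcy'.symm,
      l1_f_none q _ σ _ hx1, l1_f_some q _ σ _ hyc, l1_f_some q _ σ _ hcy, h2, h3, hset]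
    have e1 : ∑ k ∈ ((univ.erase a).erase b).erase c, l1_e (rd σ) (l1_u t a b β) k =
        ∑ k ∈ ((univ.erase a).erase b).erase c, l1_e (rd σ) t k := by
      refine Finset.sum_congr rfl (fun k hk => ?_)
      have hk' := l1_mem3.mp hk
      unfold l1_e
      rw [huk β k hk'.1 hk'.2.1]
    have e2 : ∏ k ∈ ((univ.erase a).erase b).erase c, l1_f q (rd σ) σ (l1_u t a b β) k =
        ∏ k ∈ ((univ.erase a).erase b).erase c, l1_f q (rd σ) σ t k := by
      refine Finset.prod_congr rfl (fun k hk => ?_)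
      have hk' := l1_mem3.mp hk
      unfold l1_f
      rw [huk β k hk'.1 hk'.2.1]
    have hrx : rd σ x = 0 := by
      rw [l1_rd, hx, if_pos le_rfl, Nat.sub_self]
    have e3 : l1_e (rd σ) (l1_u t a b β) x + (l1_e (rd σ) (l1_u t a b β) y +
        (l1_e (rd σ) (l1_u t a b β) c + ∑ k ∈ ((univ.erase a).erase b).erase c, l1_e (rd σ) t k))
        = ((rd σ c : ℤ) - (rd σ y : ℤ)) +
          ∑ k ∈ ((univ.erase a).erase b).erase c, l1_e (rd σ) t k := by
      simp only [l1_e, h1, h2, h3, hrx, if_true, Bool.false_eq_true, if_false]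
      push_cast
      ring
    rw [e1, e2, e3, l1_z]
    simp only [Bool.false_eq_true, false_and, if_false, true_and]
    ring
  generalize ((ζ ^ (∑ k ∈ ((univ.erase a).erase b).erase c, l1_e (rd σ) t k) : Rˣ) : R) = Z
    at key ⊢
  generalize ∏ k ∈ ((univ.erase a).erase b).erase c, l1_f q (rd σ) σ t k = P at key ⊢
  have hζ : (ζ : R) * ((ζ⁻¹ : Rˣ) : R) = 1 := Units.mul_inv ζ
  rcases hxy with ⟨h3, h4⟩ | ⟨h3, h4⟩
  · have hf : ¬ l1_ok σ (l1_u t a b false) := by
      intro h
      have := (hoku false h).1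
      rw [h3, l1_u_a] at this
      exact absurd this (by simp)
    have hry : rd σ y = 1 := by
      rw [l1_rd, hx, h3, h4]
      split_ifs <;> omega
    have hrc : 1 < rd σ c := by
      have h5 : c.val ≠ a.val := fun h => hca (Fin.ext h)
      have h6 : c.val ≠ b.val := fun h => hcb (Fin.ext h)
      have := c.2
      rw [l1_rd, hx, h3]
      split_ifs <;> omega
    rw [key true (by rw [h3, l1_u_a]), l1_Th_neg q ζ _ σ hf, hry, if_pos hrc, hdE, if_pos h3]
    unfold cap
    simp only [if_true, mul_zero, add_zero]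
    rw [show (((1 : ℕ) : ℤ)) = 1 from rfl, sub_eq_add_neg, l1_z, l1_zm1]
    generalize (ζ : R) = z at hζ ⊢
    generalize ((ζ⁻¹ : Rˣ) : R) = z' at hζ ⊢
    generalize ((ζ ^ (rd σ c : ℤ) : Rˣ) : R) = D
    linear_combination (q ^ 3 * D * Z * P) * hζ + (q - 1) * D * Z * P * hq
  · have hf : ¬ l1_ok σ (l1_u t a b true) := by
      intro h
      have := (hoku true h).1
      rw [h3, l1_u_b t hab] at this
      exact absurd this (by simp)
    have hry : rd σ y = m := by
      rw [l1_rd, hx, h3, h4]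
      split_ifs <;> omega
    have hrc : ¬ m < rd σ c := by
      have := c.2
      have := (dpos σ).2
      rw [l1_rd, hx, h3]
      split_ifs <;> omega
    rw [key false (by rw [h3, l1_u_b t hab]; rfl), l1_Th_neg q ζ _ σ hf, hry, if_neg hrc, hdE,
      if_neg (by rw [h3]; exact hab.symm)]
    unfold cap
    simp only [Bool.false_eq_true, if_false, mul_zero, zero_add]
    rw [show ((rd σ c : ℤ) - (m : ℤ)) = ((rd σ c : ℤ) - (m + 1)) + 1 by ring, l1_z, l1_z1]
    generalize (ζ : R) = z at hζ ⊢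
    generalize ((ζ⁻¹ : Rˣ) : R) = z' at hζ ⊢
    generalize ((ζ ^ ((rd σ c : ℤ) - (m + 1)) : Rˣ) : R) = D
    linear_combination (D * Z * P) * hζ

/-! ### case 4: the partners of `i` and `i+1` are two other sites -/

/-- the possible orders in the coordinate `rd` -/
theorem l1_order {m : ℕ} (σ : Pat (m + 1)) {a b c d : Fin (m + 1)}
    (hadj : (b.val = a.val + 1 ∧ a.val < m) ∨ (a.val = m ∧ b.val = 0))
    (hxa : dpos σ ≠ a) (hxb : dpos σ ≠ b) (hxc : dpos σ ≠ c) (hxd : dpos σ ≠ d)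
    (hca : c ≠ a) (hcb : c ≠ b) (hda : d ≠ a) (hdb : d ≠ b) (hcd : c ≠ d)
    (hσa : σ.1 (some a) = some c) (hσb : σ.1 (some b) = some d) :
    rd σ b = rd σ a + 1 ∧ ((rd σ c < rd σ a ∧ rd σ b < rd σ d) ∨
      (rd σ b < rd σ d ∧ rd σ d < rd σ c) ∨ (rd σ d < rd σ c ∧ rd σ c < rd σ a)) := by
  have hab : b ≠ a := by
    intro h
    rw [h, hσa] at hσb
    exact hcd (Option.some.inj hσb)
  have hnc := σ.2.nc a c b d hσa hσb hab hcb.symm
  rw [l1_rd, l1_rd, l1_rd, l1_rd]
  have e1 : ∀ u v : Fin (m + 1), u ≠ v → u.val ≠ v.val := fun u v h h' => h (Fin.ext h')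
  have h1 := e1 _ _ hxa
  have h2 := e1 _ _ hxb
  have h3 := e1 _ _ hxc
  have h4 := e1 _ _ hxd
  have h5 := e1 _ _ hca
  have h6 := e1 _ _ hcb
  have h7 := e1 _ _ hda
  have h8 := e1 _ _ hdb
  have h9 := e1 _ _ hcd
  have ha2 := a.2
  have hb2 := b.2
  have hc2 := c.2
  have hd2 := d.2
  have hx2 := (dpos σ).2
  simp only [Pool.Agent.H974R3.Btw, Fin.lt_def] at hnc
  rcases hadj with ⟨g1, g2⟩ | ⟨g1, g2⟩ <;> split_ifs <;> omega

theorem l1_case4 {m : ℕ} (hm : 2 ≤ m) (i : ℕ) (q : R) (hq : q ^ 2 + q + 1 = 0) (ζ : Rˣ)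
    (t : Fin (m + 1) → Bool) (σ : Pat (m + 1)) (ht : t (ix m i) ≠ t (ix m (i + 1)))
    {c d : Fin (m + 1)} (hσa : σ.1 (some (ix m i)) = some c)
    (hσb : σ.1 (some (ix m (i + 1))) = some d) (hcb : c ≠ ix m (i + 1)) :
    (eV m i q ζ * Th m q ζ) t σ = ((ζ ^ dE m i σ : Rˣ) : R) * Th m q ζ t (E m i σ) := by
  have hab : ix m i ≠ ix m (i + 1) := rel_ix_ne (by omega) i
  have hadj := l1_adj m i
  have hdE : dE m i σ = 0 := by
    unfold dE
    rw [hσa, hσb]
  have hE0 := l1_E_apply hm i σ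
  have hEa := E_arc (show 1 ≤ m by omega) i σ
  have hEb : (E m i σ).1 (some (ix m (i + 1))) = some (ix m i) := by rw [← hEa, (E m i σ).2.inv]
  have hcy : σ.1 (some c) = some (ix m i) := by rw [← hσa, σ.2.inv]
  have hdy : σ.1 (some d) = some (ix m (i + 1)) := by rw [← hσb, σ.2.inv]
  set a := ix m i with ha
  set b := ix m (i + 1) with hb
  have hca : c ≠ a := by
    intro h
    rw [h] at hσa
    exact σ.2.nofix _ hσa
  have hdb : d ≠ b := by
    intro h
    rw [h] at hσb
    exact σ.2.nofix _ hσb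
  have hda : d ≠ a := by
    intro h
    rw [h, hσa] at hdy
    exact hcb (Option.some.inj hdy)
  have hcd : c ≠ d := by
    intro h
    rw [h, hdy] at hcy
    exact hab (Option.some.inj hcy).symm
  have hEc : (E m i σ).1 (some c) = some d := by
    rw [hE0, hσa, hσb]
    simp [hca, hcb]
  have hEd : (E m i σ).1 (some d) = some c := by
    rw [hE0, hσa, hσb]
    simp [hda, hdb, hcd.symm]
  have hE : ∀ k, k ≠ a → k ≠ b → k ≠ c → k ≠ d → (E m i σ).1 (some k) = σ.1 (some k) := by
    intro k h1 h2 h3 h4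
    rw [hE0, hσa, hσb]
    simp [h1, h2, h3, h4]
  have hxs := l1_dpos_some σ
  have hxa : dpos σ ≠ a := by
    intro h
    rw [h, hσa] at hxs
    exact absurd hxs (by simp)
  have hxb : dpos σ ≠ b := by
    intro h
    rw [h, hσb] at hxs
    exact absurd hxs (by simp)
  have hxc : dpos σ ≠ c := by
    intro h
    rw [h, hcy] at hxs
    exact absurd hxs (by simp)
  have hxd : dpos σ ≠ d := by
    intro h
    rw [h, hdy] at hxs
    exact absurd hxs (by simp)
  have hdp : dpos (E m i σ) = dpos σ := by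
    apply l1_dpos_eq
    rw [hE _ hxa hxb hxc hxd, hxs]
  have hrd : rd (E m i σ) = rd σ := by
    funext k
    rw [l1_rd, l1_rd, hdp]
  obtain ⟨hrab, hord⟩ := l1_order σ hadj hxa hxb hxc hxd hca hcb hda hdb hcd hσa hσb
  have huk : ∀ β k, k ≠ a → k ≠ b → l1_u t a b β k = t k := fun β k h1 h2 => l1_u_c t h1 h2 β
  -- partners of the other sites
  have hpart : ∀ k l, k ≠ a → k ≠ b → k ≠ c → k ≠ d → σ.1 (some k) = some l →
      l ≠ a ∧ l ≠ b ∧ l ≠ c ∧ l ≠ d := by
    intro k l h1 h2 h3 h4 h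
    have h5 : σ.1 (some l) = some k := by rw [← h, σ.2.inv]
    refine ⟨?_, ?_, ?_, ?_⟩
    · intro h6
      rw [h6, hσa] at h5
      exact h3 (Option.some.inj h5).symm
    · intro h6
      rw [h6, hσb] at h5
      exact h4 (Option.some.inj h5).symm
    · intro h6
      rw [h6, hcy] at h5
      exact h1 (Option.some.inj h5).symm
    · intro h6
      rw [h6, hdy] at h5
      exact h2 (Option.some.inj h5).symm
  have hoku : ∀ β, l1_ok σ (l1_u t a b β) → β = t d ∧ l1_ok (E m i σ) t := by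
    intro β h
    have h1 := h.2 a c hσa
    have h2 := h.2 b d hσb
    rw [l1_u_a, huk β c hca hcb] at h1
    rw [l1_u_b t hab, huk β d hda hdb] at h2
    have h3 : β = t d := by
      revert h2
      cases β <;> cases t d <;> simp
    have h4 : t c ≠ t d := by rw [← h3]; exact h1.symm
    refine ⟨h3, ?_, ?_⟩
    · rw [hdp, ← huk β _ hxa hxb]
      exact h.1
    · intro k l hkl
      by_cases hk1 : k = a
      · subst hk1
        rw [hEa] at hkl
        rw [← Option.some.inj hkl]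
        exact ht
      by_cases hk2 : k = b
      · subst hk2
        rw [hEb] at hkl
        rw [← Option.some.inj hkl]
        exact ht.symm
      by_cases hk3 : k = c
      · subst hk3
        rw [hEc] at hkl
        rw [← Option.some.inj hkl]
        exact h4
      by_cases hk4 : k = d
      · subst hk4
        rw [hEd] at hkl
        rw [← Option.some.inj hkl]
        exact h4.symm
      rw [hE k hk1 hk2 hk3 hk4] at hkl
      have hl := hpart k l hk1 hk2 hk3 hk4 hkl
      have := h.2 k l hkl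
      rwa [huk β k hk1 hk2, huk β l hl.1 hl.2.1] at this
  have hoku' : l1_ok (E m i σ) t → l1_ok σ (l1_u t a b (t d)) := by
    intro h
    have h4 : t c ≠ t d := h.2 c d hEc
    refine ⟨?_, ?_⟩
    · rw [huk _ _ hxa hxb, ← hdp]
      exact h.1
    · intro k l hkl
      by_cases hk1 : k = a
      · subst hk1
        rw [hσa] at hkl
        rw [← Option.some.inj hkl, l1_u_a, huk _ c hca hcb]
        exact h4.symm
      by_cases hk2 : k = b
      · subst hk2
        rw [hσb] at hkl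
        rw [← Option.some.inj hkl, l1_u_b t hab, huk _ d hda hdb]
        cases t d <;> simp
      by_cases hk3 : k = c
      · subst hk3
        rw [hcy] at hkl
        rw [← Option.some.inj hkl, l1_u_a, huk _ k hca hcb]
        exact h4
      by_cases hk4 : k = d
      · subst hk4
        rw [hdy] at hkl
        rw [← Option.some.inj hkl, l1_u_b t hab, huk _ k hda hdb]
        cases t k <;> simp
      have hl := hpart k l hk1 hk2 hk3 hk4 hkl
      rw [huk _ k hk1 hk2, huk _ l hl.1 hl.2.1]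
      exact h.2 k l (by rw [hE k hk1 hk2 hk3 hk4]; exact hkl)
  refine l1_red hm i q ζ t σ ht (fun h β h' => h (hoku β h').2) (fun hv => ?_)
  rw [← ha, ← hb, hdE, zpow_zero, Units.val_one, one_mul, hrd]
  have htcd : t c ≠ t d := hv.2 c d hEc
  -- the right hand side
  have hcW : c ∈ (univ.erase a).erase b := l1_mem2.mpr ⟨hca, hcb⟩
  have hdW : d ∈ ((univ.erase a).erase b).erase c := l1_mem3.mpr ⟨hda, hdb, hcd.symm⟩
  have hprod : ∏ k ∈ (univ.erase a).erase b, l1_f q (rd σ) (E m i σ) t k =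
      (if t c = true ∧ rd σ d < rd σ c then -q ^ 2 else 1) *
      ((if t d = true ∧ rd σ c < rd σ d then -q ^ 2 else 1) *
        ∏ k ∈ (((univ.erase a).erase b).erase c).erase d, l1_f q (rd σ) σ t k) := by
    rw [← mul_prod_erase _ _ hcW, ← mul_prod_erase _ _ hdW, l1_f_some q _ _ t hEc,
      l1_f_some q _ _ t hEd]
    congr 2
    refine Finset.prod_congr rfl (fun k hk => ?_)
    have hk' := l1_mem4.mp hk
    unfold l1_f
    rw [hE k hk'.1 hk'.2.1 hk'.2.2.1 hk'.2.2.2]
  rw [hprod]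
  -- the left hand side
  have key : Th m q ζ (l1_u t a b (t d)) σ =
      ((ζ ^ (if t d = true then (-1 : ℤ) else 1) : Rˣ) : R) *
        ((if t d = true ∧ rd σ c < rd σ a then -q ^ 2 else 1) *
        ((if (!t d) = true ∧ rd σ d < rd σ b then -q ^ 2 else 1) *
        ((if t c = true ∧ rd σ a < rd σ c then -q ^ 2 else 1) *
        (if t d = true ∧ rd σ b < rd σ d then -q ^ 2 else 1)))) *
        (((ζ ^ (∑ k ∈ (univ.erase a).erase b, l1_e (rd σ) t k) : Rˣ) : R) *
          ∏ k ∈ (((univ.erase a).erase b).erase c).erase d, l1_f q (rd σ) σ t k) := by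
    have hok := hoku' hv
    rw [l1_Th_pos q ζ _ σ hok, l1_sum2 hab, l1_prod4 hab hca.symm hcb.symm hda.symm hdb.symm hcd,
      l1_f_some q _ σ _ hσa, l1_f_some q _ σ _ hσb, l1_f_some q _ σ _ hcy,
      l1_f_some q _ σ _ hdy, l1_u_a, l1_u_b t hab, huk _ c hca hcb, huk _ d hda hdb]
    have e1 : ∑ k ∈ (univ.erase a).erase b, l1_e (rd σ) (l1_u t a b (t d)) k =
        ∑ k ∈ (univ.erase a).erase b, l1_e (rd σ) t k := by
      refine Finset.sum_congr rfl (fun k hk => ?_)
      have hk' := l1_mem2.mp hk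
      unfold l1_e
      rw [huk _ k hk'.1 hk'.2]
    have e2 : ∏ k ∈ (((univ.erase a).erase b).erase c).erase d,
        l1_f q (rd σ) σ (l1_u t a b (t d)) k =
        ∏ k ∈ (((univ.erase a).erase b).erase c).erase d, l1_f q (rd σ) σ t k := by
      refine Finset.prod_congr rfl (fun k hk => ?_)
      have hk' := l1_mem4.mp hk
      unfold l1_f
      rw [huk _ k hk'.1 hk'.2.1]
    have e3 : l1_e (rd σ) (l1_u t a b (t d)) a + l1_e (rd σ) (l1_u t a b (t d)) b =
        if t d = true then (-1 : ℤ) else 1 := by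
      unfold l1_e
      rw [l1_u_a, l1_u_b t hab, hrab]
      cases t d <;> simp
    rw [e1, e2, ← add_assoc, e3, l1_z]
    ring
  generalize ((ζ ^ (∑ k ∈ (univ.erase a).erase b, l1_e (rd σ) t k) : Rˣ) : R) = Z at key ⊢
  generalize ∏ k ∈ (((univ.erase a).erase b).erase c).erase d, l1_f q (rd σ) σ t k = P at key ⊢
  have hζ : (ζ : R) * ((ζ⁻¹ : Rˣ) : R) = 1 := Units.mul_inv ζ
  have hneg : Th m q ζ (l1_u t a b (!t d)) σ = 0 := by
    apply l1_Th_neg
    intro h
    have := (hoku _ h).1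
    revert this
    cases t d <;> simp
  have h3 : q ^ 3 = 1 := by linear_combination (q - 1) * hq
  generalize rd σ a = A at *
  generalize rd σ b = B at *
  generalize rd σ c = C at *
  generalize rd σ d = D at *
  subst hrab
  rcases htd : t d
  · have htc : t c = true := by
      rw [htd] at htcd
      revert htcd
      cases t c <;> simp
    rw [htd] at key hneg
    rw [htc] at key
    rw [Bool.not_false] at hneg
    rw [key, hneg, htc]
    simp only [Bool.not_false, Bool.false_eq_true, false_and, if_false, true_and, one_mul, mul_one,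
      mul_zero, zero_add, l1_z1, cap]
    generalize (ζ : R) = z at hζ ⊢
    generalize ((ζ⁻¹ : Rˣ) : R) = z' at hζ ⊢
    rcases hord with ⟨g1, g2⟩ | ⟨g1, g2⟩ | ⟨g1, g2⟩
    · rw [if_neg (by omega), if_neg (by omega), if_neg (by omega)]
      linear_combination (Z * P) * hζ
    · rw [if_neg (by omega), if_pos (by omega), if_pos (by omega)]
      linear_combination (-q ^ 2 * Z * P) * hζ
    · rw [if_pos (by omega), if_neg (by omega), if_pos (by omega)]
      linear_combination (-q ^ 2 * Z * P) * hζ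
  · have htc : t c = false := by
      rw [htd] at htcd
      revert htcd
      cases t c <;> simp
    rw [htd] at key hneg
    rw [htc] at key
    rw [Bool.not_true] at hneg
    rw [key, hneg, htc]
    simp only [Bool.not_true, Bool.false_eq_true, false_and, if_false, true_and, one_mul, mul_one,
      mul_zero, add_zero, l1_zm1, cap, if_true]
    generalize (ζ : R) = z at hζ ⊢
    generalize ((ζ⁻¹ : Rˣ) : R) = z' at hζ ⊢
    rcases hord with ⟨g1, g2⟩ | ⟨g1, g2⟩ | ⟨g1, g2⟩
    · rw [if_pos (by omega), if_pos (by omega), if_pos (by omega)]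
      linear_combination (-q ^ 5 * Z * P) * hζ - q ^ 2 * Z * P * h3
    · rw [if_neg (by omega), if_pos (by omega), if_neg (by omega)]
      linear_combination (q ^ 3 * Z * P) * hζ + Z * P * h3
    · rw [if_pos (by omega), if_neg (by omega), if_neg (by omega)]
      linear_combination (q ^ 3 * Z * P) * hζ + Z * P * h3

/-! ### the statement of L1 -/

theorem eV_Th {m : ℕ} (hm : 2 ≤ m) (i : ℕ) (q : R) (hq : q ^ 2 + q + 1 = 0) (ζ : Rˣ)
    (t : Fin (m + 1) → Bool) (σ : Pat (m + 1)) :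
    (eV m i q ζ * Th m q ζ) t σ = ((ζ ^ dE m i σ : Rˣ) : R) * Th m q ζ t (E m i σ) := by
  by_cases ht : t (ix m i) = t (ix m (i + 1))
  · rw [l1_mul_zero i q ζ t σ ht, l1_Th_neg q ζ t (E m i σ), mul_zero]
    intro h
    exact h.2 _ _ (E_arc (by omega) i σ) ht
  have hab : ix m i ≠ ix m (i + 1) := rel_ix_ne (by omega) i
  rcases hσa : σ.1 (some (ix m i)) with _ | c
  · rcases hσb : σ.1 (some (ix m (i + 1))) with _ | d
    · exfalso
      have := σ.1.injective (hσa.trans hσb.symm)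
      exact hab (Option.some.inj this)
    · have hx := l1_dpos_eq σ hσa
      refine l1_case23 hm i q hq ζ t σ ht (Or.inl ⟨rfl, rfl⟩) hx hσb ?_
      rw [if_pos rfl]
      unfold dE
      rw [hσa, hσb]
      show ((d.val : ℤ) - i) % ((m : ℤ) + 1) = _
      have hi : (i : ℤ) = (m + 1 : ℤ) * ((i / (m + 1) : ℕ) : ℤ) + ((ix m i).val : ℤ) := by
        have := Nat.div_add_mod i (m + 1)
        show (i : ℤ) = (m + 1 : ℤ) * ((i / (m + 1) : ℕ) : ℤ) + ((i % (m + 1) : ℕ) : ℤ)
        exact_mod_cast this.symm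
      have h1 := (ix m i).2
      have h2 := d.2
      have e : ((d.val : ℤ) - i) = ((d.val : ℤ) - (ix m i).val) +
          (m + 1 : ℤ) * (-((i / (m + 1) : ℕ) : ℤ)) := by
        rw [hi]; ring
      rw [e, Int.add_mul_emod_self_left, l1_rd, hx]
      split_ifs with h3
      · rw [Int.emod_eq_of_lt (by omega) (by omega)]
        omega
      · rw [← Int.add_emod_right, Int.emod_eq_of_lt (by omega) (by omega)]
        omega
  · rcases hσb : σ.1 (some (ix m (i + 1))) with _ | d
    · have hx := l1_dpos_eq σ hσb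
      refine l1_case23 hm i q hq ζ t σ ht (Or.inr ⟨rfl, rfl⟩) hx hσa ?_
      rw [if_neg hab.symm]
      unfold dE
      rw [hσa, hσb]
      show -(((i : ℤ) + 1 - c.val) % ((m : ℤ) + 1)) = _
      have hi : ((i : ℤ) + 1) = (m + 1 : ℤ) * (((i + 1) / (m + 1) : ℕ) : ℤ) +
          ((ix m (i + 1)).val : ℤ) := by
        have := Nat.div_add_mod (i + 1) (m + 1)
        show ((i : ℤ) + 1) = (m + 1 : ℤ) * (((i + 1) / (m + 1) : ℕ) : ℤ) +
          (((i + 1) % (m + 1) : ℕ) : ℤ)
        exact_mod_cast this.symm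
      have h1 := (ix m (i + 1)).2
      have h2 := c.2
      have hcb : c ≠ ix m (i + 1) := by
        intro h
        rw [h] at hσa
        have := σ.2.inv (some (ix m i))
        rw [hσa, hσb] at this
        exact absurd this (by simp)
      have h4 : c.val ≠ (ix m (i + 1)).val := fun h => hcb (Fin.ext h)
      have e : ((i : ℤ) + 1 - c.val) = ((ix m (i + 1)).val - (c.val : ℤ)) +
          (m + 1 : ℤ) * (((i + 1) / (m + 1) : ℕ) : ℤ) := by
        rw [hi]; ring
      rw [e, Int.add_mul_emod_self_left, l1_rd, hx]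
      split_ifs with h3
      · rw [← Int.add_emod_right, Int.emod_eq_of_lt (by omega) (by omega)]
        omega
      · rw [Int.emod_eq_of_lt (by omega) (by omega)]
        omega
    · by_cases hcb : c = ix m (i + 1)
      · rw [hcb] at hσa
        exact l1_case1 hm i q hq ζ t σ ht hσa
      · exact l1_case4 hm i q hq ζ t σ ht hσa hσb hcb

end ring

end H906K
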