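import Pool.Agent.H906R3.K6.L4Aux
import Pool.Agent.H906R3.K6.V0
import Pool.Agent.H906R3.K6.L1
import Pool.Agent.H906R3.K6.L2
import Pool.Agent.H906R3.K6.L3

/-! # L4: the intertwining relation (helper819) -/

set_option autoImplicit false

namespace H906K
open Pool.Agent.H974R3 Polynomial MeasureTheory Filter Topology

section ring
variable {R : Type*} [CommRing R]

theorem TVc_Th (n : ℕ) (c : Fin (2 * n + 1) → Bool) (q : R) (hq : q ^ 2 + q + 1 = 0) (ζ : Rˣ)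
    (t : Fin (2 * n + 1) → Bool) (σ : Pat (2 * n + 1)) :
    (TVc (2 * n) c q ζ * Th (2 * n) q ζ) t σ
      = ((ζ ^ dTc (2 * n) c σ : Rˣ) : R) * Th (2 * n) q ζ t (Tc (2 * n) c σ) :=
  l4_TVc n c q ζ (fun hm i t σ => eV_Th hm i q hq ζ t σ) (fun t σ => rotM_Th (2 * n) q ζ t σ)
    (fun t σ => rotMi_Th (2 * n) q ζ t σ) (fun k hk => TVc_word (2 * n) c k hk q hq ζ)
    (fun h => TVc_true (2 * n) c h q hq ζ) t σ

theorem TV_Th (n : ℕ) (q x : R) (hq : q ^ 2 + q + 1 = 0) (ζ : Rˣ) :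
    TV (2 * n) q x ζ * Th (2 * n) q ζ = Th (2 * n) q ζ * TL (2 * n) q x ζ :=
  l4_TV n q x ζ (TV_expand (2 * n) q x hq ζ) (fun c t σ => TVc_Th n c q hq ζ t σ)

end ring

end H906K
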