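import Pool.Agent.H906R3.K6.Defs2

/-! # V2: fusion of two vertex transfer matrices (helper287) -/

set_option autoImplicit false

namespace H906K
open Pool.Agent.H974R3
open scoped Kronecker

section ring
variable {R : Type*} [CommRing R]

/-- sum over the intermediate spins of Kronecker products of ordered products -/
theorem v2_kron (n : ℕ) (A B : Fin n → Bool → Matrix Bool Bool R) :
    ∑ u : Fin n → Bool, ((List.ofFn fun j => A j (u j)).prod ⊗ₖ (List.ofFn fun j => B j (u j)).prod)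
      = (List.ofFn fun j => ∑ b, A j b ⊗ₖ B j b).prod := by
  induction n with
  | zero =>
    simp only [List.ofFn_zero, List.prod_nil, Matrix.one_kronecker_one]
    rw [Fintype.sum_unique]
  | succ n ih =>
    rw [List.ofFn_succ, List.prod_cons, ← ih (fun j => A j.succ) (fun j => B j.succ),
      Finset.sum_mul_sum, ← Fintype.sum_prod_type',
      ← (Fin.consEquiv (fun _ : Fin (n + 1) => Bool)).sum_comp]
    refine Finset.sum_congr rfl fun p _ => ?_
    rw [List.ofFn_succ, List.ofFn_succ, List.prod_cons, List.prod_cons,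
      Matrix.mul_kronecker_mul]
    rfl

/-- intertwined products -/
theorem v2_inter {α β : Type*} [Fintype α] [Fintype β] [DecidableEq α] [DecidableEq β] (n : ℕ)
    (M : Fin n → Matrix α α R) (D : Fin n → Matrix β β R) (G : Matrix α β R)
    (h : ∀ i, M i * G = G * D i) : (List.ofFn M).prod * G = G * (List.ofFn D).prod := by
  induction n with
  | zero => simp
  | succ n ih =>
    rw [List.ofFn_succ, List.ofFn_succ, List.prod_cons, List.prod_cons, Matrix.mul_assoc,
      ih (fun i => M i.succ) (fun i => D i.succ) (fun i => h i.succ), ← Matrix.mul_assoc, h 0,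
      Matrix.mul_assoc]

/-- products of block triangular matrices -/
theorem v2_block {α β : Type*} [Fintype α] [Fintype β] [DecidableEq α] [DecidableEq β] (n : ℕ)
    (A : Fin n → Matrix α α R) (B : Fin n → Matrix α β R) (D : Fin n → Matrix β β R) :
    ∃ X : Matrix α β R, (List.ofFn fun j => Matrix.fromBlocks (A j) (B j) 0 (D j)).prod =
      Matrix.fromBlocks (List.ofFn A).prod X 0 (List.ofFn D).prod := by
  induction n with
  | zero => exact ⟨0, by simp [Matrix.fromBlocks_one]⟩
  | succ n ih =>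
    obtain ⟨X, hX⟩ := ih (fun i => A i.succ) (fun i => B i.succ) (fun i => D i.succ)
    refine ⟨A 0 * X + B 0 * (List.ofFn fun i => D i.succ).prod, ?_⟩
    rw [List.ofFn_succ, List.prod_cons, hX, Matrix.fromBlocks_multiply]
    rw [List.ofFn_succ, List.ofFn_succ, List.prod_cons, List.prod_cons]
    simp

/-- scalars come out of products -/
theorem v2_smul {α : Type*} [Fintype α] [DecidableEq α] (n : ℕ) (c : Fin n → R)
    (X : Fin n → Matrix α α R) :
    (List.ofFn fun j => c j • X j).prod = (∏ j, c j) • (List.ofFn X).prod := by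
  induction n with
  | zero => simp
  | succ n ih =>
    rw [List.ofFn_succ, List.prod_cons, ih (fun i => c i.succ) (fun i => X i.succ),
      List.ofFn_succ, List.prod_cons, Fin.prod_univ_succ, Matrix.smul_mul, Matrix.mul_smul,
      smul_smul]

theorem v2_trace {α β : Type*} [Fintype α] [Fintype β] (A : Matrix α α R) (B : Matrix α β R)
    (C : Matrix β α R) (D : Matrix β β R) :
    (Matrix.fromBlocks A B C D).trace = A.trace + D.trace := by
  simp [Matrix.trace, Fintype.sum_sum_type]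

/-- the change of basis -/
def v2_G (q : R) : Matrix (Bool × Bool) (Unit ⊕ Fin 3) R := fun p c =>
  match c with
  | Sum.inl _ => if p = (true, false) then 1 else if p = (false, true) then -q ^ 2 else 0
  | Sum.inr 0 => if p = (true, true) then 1 else 0
  | Sum.inr 1 => if p = (true, false) then 1 else 0
  | Sum.inr 2 => if p = (false, false) then 1 else 0

/-- the inverse -/
def v2_G' (q : R) : Matrix (Unit ⊕ Fin 3) (Bool × Bool) R := fun c p =>
  match c with
  | Sum.inl _ => if p = (false, true) then -q else 0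
  | Sum.inr 0 => if p = (true, true) then 1 else 0
  | Sum.inr 1 => if p = (true, false) then 1 else if p = (false, true) then q else 0
  | Sum.inr 2 => if p = (false, false) then 1 else 0

/-- the local matrix without twist -/
def v2_M (q z : R) (s t : Bool) : Matrix (Bool × Bool) (Bool × Bool) R :=
  ∑ u, loc q (q * z) u t ⊗ₖ loc q (q ^ 2 * z) s u

/-- the scalar block -/
def v2_la (q z : R) (s t : Bool) : R := if s = t then (1 + q * z) * (1 + q ^ 2 * z) else 0

/-- the off-diagonal block -/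
def v2_st (q z : R) (s t : Bool) : Matrix Unit (Fin 3) R := fun _ c =>
  match s, t, c with
  | false, false, 1 => -3 * z
  | true, false, 0 => q * (1 - q ^ 2) * (q ^ 2 + z)
  | false, true, 2 => (1 - q) * (q + z) * z
  | _, _, _ => 0

/-- the quotient block divided by `1 + z` -/
def v2_N (q z : R) (s t : Bool) : Matrix (Fin 3) (Fin 3) R :=
  match s, t with
  | true, true => !![q ^ 2 * (q ^ 2 + z), 0, 0; 0, 1 + z, 0; 0, 0, q * (q + z)]
  | false, false => !![q * (q + z), 0, 0; 0, 1 + z, 0; 0, 0, q ^ 2 * (q ^ 2 + z)]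
  | true, false => !![0, 0, 0; q ^ 2 - q, 0, 0; 0, 1 - q, 0]
  | false, true => !![0, (q ^ 2 - q) * z, 0; 0, 0, (q ^ 2 - 1) * z; 0, 0, 0]

theorem v2_GG' (q : R) (hq : q ^ 2 + q + 1 = 0) : v2_G' q * v2_G q = 1 := by
  ext a b
  rcases a with a | a <;> rcases b with b | b <;> fin_cases a <;> fin_cases b <;>
    simp [Matrix.mul_apply, v2_G, v2_G', Fintype.sum_prod_type] <;>
    first | linear_combination (q - 1) * hq | linear_combination (1 - q) * hq

theorem v2_G'G (q : R) (hq : q ^ 2 + q + 1 = 0) : v2_G q * v2_G' q = 1 := by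
  ext ⟨a, a'⟩ ⟨b, b'⟩
  cases a <;> cases a' <;> cases b <;> cases b' <;>
    simp [Matrix.mul_apply, v2_G, v2_G', Fin.sum_univ_three]
  linear_combination (q - 1) * hq

theorem v2_MG (q z : R) (hq : q ^ 2 + q + 1 = 0) (s t : Bool) :
    v2_M q z s t * v2_G q = v2_G q * Matrix.fromBlocks (v2_la q z s t • 1) (v2_st q z s t) 0
      ((1 + z) • v2_N q z s t) := by
  ext ⟨a, a'⟩ c
  rcases c with c | c
  · cases s <;> cases t <;> cases a <;> cases a' <;>
    simp [Matrix.mul_apply, v2_G, v2_M, v2_la, v2_N, loc, wt,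
      Fintype.sum_prod_type, Matrix.add_apply] <;> grind
  · cases s <;> cases t <;> fin_cases c <;> cases a <;> cases a' <;>
    simp [Matrix.mul_apply, v2_G, v2_M, v2_la, v2_st, v2_N, loc, wt, Fin.sum_univ_three,
      Matrix.add_apply] <;> grind

/-- the twist in the quotient -/
def v2_NK (ζ : Rˣ) : Matrix (Fin 3) (Fin 3) R :=
  Matrix.diagonal ![(ζ : R) * ζ, 1, ((ζ⁻¹ : Rˣ) : R) * ((ζ⁻¹ : Rˣ) : R)]

/-- the twist in the new basis -/
def v2_DK (ζ : Rˣ) : Matrix (Unit ⊕ Fin 3) (Unit ⊕ Fin 3) R :=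
  Matrix.fromBlocks 1 0 0 (v2_NK ζ)

theorem v2_KG (q : R) (ζ : Rˣ) :
    (Kz ζ ⊗ₖ Kz ζ) * v2_G q = v2_G q * v2_DK ζ := by
  ext ⟨a, a'⟩ c
  rw [Matrix.mul_apply, Matrix.mul_apply, Fintype.sum_prod_type, Fintype.sum_sum_type]
  rcases c with c | c
  · cases a <;> cases a' <;>
    simp [v2_G, Kz, v2_DK, Matrix.diagonal_apply]
  · fin_cases c <;> cases a <;> cases a' <;>
    simp [v2_G, Kz, v2_NK, v2_DK, Matrix.diagonal_apply]

/-- the diagonal blocks of the local matrix with twist -/
theorem v2_local (q z : R) (hq : q ^ 2 + q + 1 = 0) (ζ : Rˣ) (s t : Bool) :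
    (∑ b, (loc q (q * z) b t * Kz ζ) ⊗ₖ (loc q (q ^ 2 * z) s b * Kz ζ)) * v2_G q =
      v2_G q * Matrix.fromBlocks (v2_la q z s t • 1) (v2_st q z s t * v2_NK ζ) 0
        ((1 + z) • (v2_N q z s t * v2_NK ζ)) := by
  have h1 : (∑ b, (loc q (q * z) b t * Kz ζ) ⊗ₖ (loc q (q ^ 2 * z) s b * Kz ζ)) =
      v2_M q z s t * (Kz ζ ⊗ₖ Kz ζ) := by
    unfold v2_M
    rw [Finset.sum_mul]
    exact Finset.sum_congr rfl fun b _ => Matrix.mul_kronecker_mul _ _ _ _
  rw [h1, Matrix.mul_assoc, v2_KG, ← Matrix.mul_assoc, v2_MG q z hq s t, Matrix.mul_assoc, v2_DK,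
    Matrix.fromBlocks_multiply]
  simp

/-- V2: fusion of two vertex transfer matrices -/
theorem fus2 (m : ℕ) (q z : R) (hq : q ^ 2 + q + 1 = 0) (ζ : Rˣ) :
    ∃ T2 : Matrix (Fin (m + 1) → Bool) (Fin (m + 1) → Bool) R,
      TV m q (q * z) ζ * TV m q (q ^ 2 * z) ζ
        = ((1 + q * z) * (1 + q ^ 2 * z)) ^ (m + 1) • (1 : Matrix _ _ R)
          + (1 + z) ^ (m + 1) • T2 := by
  refine ⟨Matrix.of fun t s =>
    Matrix.trace (List.ofFn fun j => v2_N q z (s j) (t j) * v2_NK ζ).prod, ?_⟩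
  ext t s
  have h1 : (TV m q (q * z) ζ * TV m q (q ^ 2 * z) ζ) t s = Matrix.trace
      ((List.ofFn fun j => ∑ b, (loc q (q * z) b (t j) * Kz ζ) ⊗ₖ
        (loc q (q ^ 2 * z) (s j) b * Kz ζ)).prod) := by
    rw [← v2_kron, Matrix.trace_sum, Matrix.mul_apply]
    refine Finset.sum_congr rfl fun u _ => ?_
    rw [Matrix.trace_kronecker]
    rfl
  have h2 := v2_inter (m + 1) (fun j => ∑ b, (loc q (q * z) b (t j) * Kz ζ) ⊗ₖ
        (loc q (q ^ 2 * z) (s j) b * Kz ζ))
      (fun j => Matrix.fromBlocks (v2_la q z (s j) (t j) • (1 : Matrix Unit Unit R))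
        (v2_st q z (s j) (t j) * v2_NK ζ) 0 ((1 + z) • (v2_N q z (s j) (t j) * v2_NK ζ)))
      (v2_G q) (fun j => v2_local q z hq ζ (s j) (t j))
  have h3 : Matrix.trace ((List.ofFn fun j => ∑ b, (loc q (q * z) b (t j) * Kz ζ) ⊗ₖ
        (loc q (q ^ 2 * z) (s j) b * Kz ζ)).prod) = Matrix.trace
      ((List.ofFn fun j => Matrix.fromBlocks (v2_la q z (s j) (t j) • (1 : Matrix Unit Unit R))
        (v2_st q z (s j) (t j) * v2_NK ζ) 0
        ((1 + z) • (v2_N q z (s j) (t j) * v2_NK ζ))).prod) := by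
    calc Matrix.trace ((List.ofFn fun j => ∑ b, (loc q (q * z) b (t j) * Kz ζ) ⊗ₖ
        (loc q (q ^ 2 * z) (s j) b * Kz ζ)).prod)
        = Matrix.trace ((List.ofFn fun j => ∑ b, (loc q (q * z) b (t j) * Kz ζ) ⊗ₖ
          (loc q (q ^ 2 * z) (s j) b * Kz ζ)).prod * (v2_G q * v2_G' q)) := by
          rw [v2_G'G q hq, Matrix.mul_one]
      _ = _ := by
          rw [← Matrix.mul_assoc, h2, Matrix.trace_mul_comm, ← Matrix.mul_assoc, v2_GG' q hq,
            Matrix.one_mul]
  obtain ⟨X, hX⟩ := v2_block (m + 1)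
    (fun j => v2_la q z (s j) (t j) • (1 : Matrix Unit Unit R))
    (fun j => v2_st q z (s j) (t j) * v2_NK ζ)
    (fun j => (1 + z) • (v2_N q z (s j) (t j) * v2_NK ζ))
  rw [h1, h3, hX, v2_trace,
    v2_smul (m + 1) (fun j => v2_la q z (s j) (t j)) (fun _ => (1 : Matrix Unit Unit R)),
    v2_smul (m + 1) (fun _ => 1 + z) (fun j => v2_N q z (s j) (t j) * v2_NK ζ)]
  rw [Matrix.trace_smul, Matrix.trace_smul, Finset.prod_const, Finset.card_univ, Fintype.card_fin,
    Matrix.add_apply, Matrix.smul_apply, Matrix.smul_apply, Matrix.of_apply]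
  congr 1
  have h4 : (List.ofFn fun _ : Fin (m + 1) => (1 : Matrix Unit Unit R)).prod = 1 := by
    apply List.prod_eq_one
    intro x hx
    rw [List.mem_ofFn] at hx
    obtain ⟨_, h⟩ := hx
    exact h.symm
  rw [h4, Matrix.trace_one, Fintype.card_unit, Nat.cast_one, smul_eq_mul, mul_one, smul_eq_mul]
  by_cases h : t = s
  · subst h
    rw [Matrix.one_apply_eq, mul_one]
    unfold v2_la
    simp
  · rw [Matrix.one_apply_ne h, mul_zero]
    obtain ⟨j, hj⟩ := Function.ne_iff.1 h
    refine Finset.prod_eq_zero (Finset.mem_univ j) ?_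
    unfold v2_la
    rw [if_neg (Ne.symm hj)]

end ring
end H906K
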