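import Pool.Agent.H906R3.K6.Defs2

/-! V3: fusion of three transfer matrices. -/

namespace H906K
open Pool.Agent.H974R3 Polynomial MeasureTheory Filter Topology Matrix Kronecker

/-! ### generalities on ordered products -/

section gen
variable {R : Type*} [CommRing R]

theorem v3_sum_prod {S : Type*} [Semiring S] {X : Type*} [Fintype X] :
    ∀ (n : ℕ) (A : Fin n → X → S),
      ∑ f : Fin n → X, (List.ofFn fun j => A j (f j)).prod
        = (List.ofFn fun j => ∑ x, A j x).prod := by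
  intro n
  induction n with
  | zero => intro A; simp
  | succ n ih =>
    intro A
    rw [← (Fin.consEquiv (fun _ : Fin (n + 1) => X)).sum_comp, Fintype.sum_prod_type,
      List.ofFn_succ, List.prod_cons, ← ih, Finset.sum_mul_sum]
    refine Finset.sum_congr rfl fun x _ => Finset.sum_congr rfl fun f _ => ?_
    rw [List.ofFn_succ, List.prod_cons]
    simp [Fin.consEquiv]

theorem v3_kron_prod {I J : Type*} [Fintype I] [DecidableEq I] [Fintype J] [DecidableEq J] :
    ∀ (n : ℕ) (P : Fin n → Matrix I I R) (Q : Fin n → Matrix J J R),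
      (List.ofFn P).prod ⊗ₖ (List.ofFn Q).prod = (List.ofFn fun j => P j ⊗ₖ Q j).prod := by
  intro n
  induction n with
  | zero => intro P Q; simp
  | succ n ih =>
    intro P Q
    rw [List.ofFn_succ, List.ofFn_succ, List.ofFn_succ, List.prod_cons, List.prod_cons,
      List.prod_cons, Matrix.mul_kronecker_mul, ih]

theorem v3_conj {I J : Type*} [Fintype I] [DecidableEq I] [Fintype J] [DecidableEq J]
    (G : Matrix I J R) (G' : Matrix J I R) (h1 : G * G' = 1) (h2 : G' * G = 1)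
    (n : ℕ) (M : Fin n → Matrix I I R) (U : Fin n → Matrix J J R) (h : ∀ j, M j * G = G * U j) :
    Matrix.trace (List.ofFn M).prod = Matrix.trace (List.ofFn U).prod := by
  have key : ∀ (n : ℕ) (M : Fin n → Matrix I I R) (U : Fin n → Matrix J J R),
      (∀ j, M j * G = G * U j) → (List.ofFn M).prod * G = G * (List.ofFn U).prod := by
    intro n
    induction n with
    | zero => intro M U _; simp
    | succ n ih =>
      intro M U h
      rw [List.ofFn_succ, List.ofFn_succ, List.prod_cons, List.prod_cons, Matrix.mul_assoc,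
        ih _ _ (fun j => h j.succ), ← Matrix.mul_assoc, h 0, Matrix.mul_assoc]
  calc Matrix.trace (List.ofFn M).prod = Matrix.trace ((List.ofFn M).prod * (G * G')) := by
        rw [h1, Matrix.mul_one]
    _ = Matrix.trace (G * (List.ofFn U).prod * G') := by
        rw [← Matrix.mul_assoc, key n M U h]
    _ = Matrix.trace (G' * (G * (List.ofFn U).prod)) := Matrix.trace_mul_comm _ _
    _ = Matrix.trace (List.ofFn U).prod := by rw [← Matrix.mul_assoc, h2, Matrix.one_mul]

theorem v3_block {I J : Type*} [Fintype I] [DecidableEq I] [Fintype J] [DecidableEq J]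
    (n : ℕ) (A : Fin n → Matrix I I R) (B : Fin n → Matrix I J R) (D : Fin n → Matrix J J R) :
    Matrix.trace (List.ofFn fun j => Matrix.fromBlocks (A j) (B j) 0 (D j)).prod
      = Matrix.trace (List.ofFn A).prod + Matrix.trace (List.ofFn D).prod := by
  have key : ∀ (n : ℕ) (A : Fin n → Matrix I I R) (B : Fin n → Matrix I J R)
      (D : Fin n → Matrix J J R), ∃ C : Matrix I J R,
        (List.ofFn fun j => Matrix.fromBlocks (A j) (B j) 0 (D j)).prod
          = Matrix.fromBlocks (List.ofFn A).prod C 0 (List.ofFn D).prod := by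
    intro n
    induction n with
    | zero => intro A B D; exact ⟨0, by simp⟩
    | succ n ih =>
      intro A B D
      obtain ⟨C, hC⟩ := ih (fun j => A j.succ) (fun j => B j.succ) (fun j => D j.succ)
      refine ⟨A 0 * C + B 0 * (List.ofFn fun j => D j.succ).prod, ?_⟩
      rw [List.ofFn_succ, List.prod_cons, hC, Matrix.fromBlocks_multiply, List.ofFn_succ,
        List.ofFn_succ, List.prod_cons, List.prod_cons]
      simp
  obtain ⟨C, hC⟩ := key n A B D
  rw [hC]
  simp [Matrix.trace, Fintype.sum_sum_type]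

theorem v3_smul {I : Type*} [Fintype I] [DecidableEq I] (c : R) :
    ∀ (n : ℕ) (X : Fin n → Matrix I I R),
      (List.ofFn fun j => c • X j).prod = c ^ n • (List.ofFn X).prod := by
  intro n
  induction n with
  | zero => intro X; simp
  | succ n ih =>
    intro X
    rw [List.ofFn_succ, List.ofFn_succ, List.prod_cons, List.prod_cons, ih,
      Matrix.smul_mul, Matrix.mul_smul, smul_smul, pow_succ']

/-- one by one blocks -/
theorem v3_one (c : R) : ∀ (n : ℕ) (s t : Fin n → Bool),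
      Matrix.trace (List.ofFn fun j => (if s j = t j then c • (1 : Matrix Unit Unit R) else 0)).prod
        = c ^ n * (if t = s then 1 else 0) := by
  have key : ∀ (n : ℕ) (s t : Fin n → Bool),
      (List.ofFn fun j => (if s j = t j then c • (1 : Matrix Unit Unit R) else 0)).prod
        = (if t = s then c ^ n • (1 : Matrix Unit Unit R) else 0) := by
    intro n
    induction n with
    | zero => intro s t; simp [Subsingleton.elim s t]
    | succ n ih =>
      intro s t
      rw [List.ofFn_succ, List.prod_cons, ih]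
      by_cases h0 : s 0 = t 0
      · by_cases h1 : (fun j : Fin n => t j.succ) = (fun j => s j.succ)
        · have h : t = s := by
            funext j
            refine Fin.cases h0.symm (fun i => congrFun h1 i) j
          rw [if_pos h0, if_pos h1, if_pos h, Matrix.smul_mul, Matrix.one_mul, smul_smul, pow_succ']
        · have h : ¬ t = s := by
            rintro rfl; exact h1 rfl
          rw [if_neg h1, if_neg h, Matrix.mul_zero]
      · have h : ¬ t = s := by
          rintro rfl; exact h0 rfl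
        rw [if_neg h0, if_neg h, Matrix.zero_mul]
  intro n s t
  rw [key]
  split_ifs with h
  · rw [Matrix.trace_smul]; simp
  · simp

end gen


section ring
variable {R : Type*} [CommRing R]

/-! ### the local matrices -/

/-- index set of the triple auxiliary space -/
abbrev V3I : Type := (Bool × Bool) × Bool
/-- index set of the adapted basis -/
abbrev V3J : Type := Bool ⊕ (Bool ⊕ (Unit ⊕ (Unit ⊕ Bool)))

/-- three lines, without the twist -/
def v3L (q z : R) (s t : Bool) : Matrix V3I V3I R :=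
  ∑ w : Bool, ∑ u : Bool, (loc q (q * z) u t ⊗ₖ loc q (q ^ 2 * z) w u) ⊗ₖ loc q z s w

/-- the singlet -/
def v3v (q : R) : Bool → Bool → R
  | true, false => 1
  | false, true => -q ^ 2
  | _, _ => 0

/-- the adapted basis -/
def v3G (q : R) : Matrix V3I V3J R := fun i j =>
  match i, j with
  | ((a, b), c), Sum.inl x => if c = x then v3v q a b else 0
  | ((a, b), c), Sum.inr (Sum.inl x) => if a = x then v3v q b c else 0
  | ((true, true), true), Sum.inr (Sum.inr (Sum.inl _)) => 1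
  | ((false, false), false), Sum.inr (Sum.inr (Sum.inr (Sum.inl _))) => 1
  | ((true, true), false), Sum.inr (Sum.inr (Sum.inr (Sum.inr true))) => 1
  | ((true, false), false), Sum.inr (Sum.inr (Sum.inr (Sum.inr false))) => -1
  | _, _ => 0

/-- the inverse -/
def v3H (q : R) : Matrix V3J V3I R := fun j i =>
  match j, i with
  | Sum.inl true, ((false, true), true) => -q
  | Sum.inl false, ((false, true), false) => -q
  | Sum.inl false, ((false, false), true) => -q ^ 2
  | Sum.inr (Sum.inl true), ((true, false), true) => -q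
  | Sum.inr (Sum.inl true), ((false, true), true) => -q ^ 2
  | Sum.inr (Sum.inl false), ((false, false), true) => -q
  | Sum.inr (Sum.inr (Sum.inl _)), ((true, true), true) => 1
  | Sum.inr (Sum.inr (Sum.inr (Sum.inl _))), ((false, false), false) => 1
  | Sum.inr (Sum.inr (Sum.inr (Sum.inr true))), ((true, true), false) => 1
  | Sum.inr (Sum.inr (Sum.inr (Sum.inr true))), ((true, false), true) => q
  | Sum.inr (Sum.inr (Sum.inr (Sum.inr true))), ((false, true), true) => q ^ 2
  | Sum.inr (Sum.inr (Sum.inr (Sum.inr false))), ((false, true), false) => -q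
  | Sum.inr (Sum.inr (Sum.inr (Sum.inr false))), ((false, false), true) => -q ^ 2
  | Sum.inr (Sum.inr (Sum.inr (Sum.inr false))), ((true, false), false) => -1
  | _, _ => 0

theorem v3_pows (q : R) (hq : q ^ 2 + q + 1 = 0) :
    q ^ 2 = -q - 1 ∧ q ^ 3 = 1 ∧ q ^ 4 = q ∧ q ^ 5 = -q - 1 ∧ q ^ 6 = 1 ∧ q ^ 7 = q ∧
      q ^ 8 = -q - 1 ∧ q ^ 9 = 1 ∧ q ^ 10 = q ∧ q ^ 11 = -q - 1 ∧ q ^ 12 = 1 := by
  have h2 : q ^ 2 = -q - 1 := by linear_combination hq
  have h3 : q ^ 3 = 1 := by linear_combination (q - 1) * hq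
  have h4 : q ^ 4 = q := by rw [pow_succ, h3, one_mul]
  have h5 : q ^ 5 = -q - 1 := by rw [pow_succ, h4, ← h2, sq]
  have h6 : q ^ 6 = 1 := by rw [pow_succ, h5, ← h2, ← pow_succ, h3]
  have h7 : q ^ 7 = q := by rw [pow_succ, h6, one_mul]
  have h8 : q ^ 8 = -q - 1 := by rw [pow_succ, h7, ← h2, sq]
  have h9 : q ^ 9 = 1 := by rw [pow_succ, h8, ← h2, ← pow_succ, h3]
  have h10 : q ^ 10 = q := by rw [pow_succ, h9, one_mul]
  have h11 : q ^ 11 = -q - 1 := by rw [pow_succ, h10, ← h2, sq]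
  have h12 : q ^ 12 = 1 := by rw [pow_succ, h11, ← h2, ← pow_succ, h3]
  exact ⟨h2, h3, h4, h5, h6, h7, h8, h9, h10, h11, h12⟩

theorem v3_HG (q : R) (hq : q ^ 2 + q + 1 = 0) : v3H q * v3G q = 1 := by
  obtain ⟨h2, h3, h4, h5, h6, -⟩ := v3_pows q hq
  ext j k
  rw [Matrix.mul_apply]
  rcases j with (_ | _) | (_ | _) | _ | _ | (_ | _) <;>
  rcases k with (_ | _) | (_ | _) | _ | _ | (_ | _) <;>
    simp only [v3G, v3H, v3v, Matrix.one_apply, Fintype.sum_prod_type, Fintype.sum_bool,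
      mul_zero, zero_mul, add_zero, zero_add, if_true, mul_one, one_mul, Sum.inl.injEq,
      Sum.inr.injEq, reduceCtorEq, if_false, Bool.false_eq_true, Bool.true_eq_false] <;>
    first | done | ring1 | (ring_nf; simp only [h2, h3, h4, h5, h6]; done) |
      (ring_nf; simp only [h2, h3, h4, h5, h6]; ring1)

theorem v3_GH (q : R) (hq : q ^ 2 + q + 1 = 0) : v3G q * v3H q = 1 :=
  (Matrix.mul_eq_one_comm_of_card_eq _ _ _ (by simp)).1 (v3_HG q hq)

/-- off-diagonal blocks -/
def v3O1 (q z : R) (s t : Bool) : Matrix Bool (Bool ⊕ (Unit ⊕ (Unit ⊕ Bool))) R := fun x k =>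
  match s, t, x, k with
  | true, false, true, Sum.inr (Sum.inl _) => 1 - z + z ^ 2 + 2 * q - 2 * q * z + 2 * q * z ^ 2
  | true, false, false, Sum.inr (Sum.inr (Sum.inr true)) =>
      1 + 2 * z - 2 * z ^ 2 - q + 4 * q * z - q * z ^ 2
  | false, true, false, Sum.inr (Sum.inr (Sum.inl _)) =>
      -2 * z + 2 * z ^ 2 - 2 * z ^ 3 - q * z + q * z ^ 2 - q * z ^ 3
  | false, false, true, Sum.inr (Sum.inr (Sum.inr true)) => 3 * z + 3 * q * z ^ 2
  | false, false, false, Sum.inr (Sum.inr (Sum.inr false)) =>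
      -3 * z ^ 2 + 3 * q * z - 3 * q * z ^ 2
  | _, _, _, _ => 0

/-- off-diagonal blocks -/
def v3O2 (q z : R) (s t : Bool) : Matrix Bool (Unit ⊕ (Unit ⊕ Bool)) R := fun x k =>
  match s, t, x, k with
  | true, false, true, Sum.inl _ => -1 - 2 * z - z ^ 2 - 2 * q - q * z + q * z ^ 2
  | false, true, true, Sum.inr (Sum.inr false) =>
      z + 2 * z ^ 2 + z ^ 3 + 2 * q * z + 4 * q * z ^ 2 + 2 * q * z ^ 3
  | false, true, false, Sum.inr (Sum.inl _) =>
      -z + z ^ 2 + 2 * z ^ 3 + q * z + 2 * q * z ^ 2 + q * z ^ 3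
  | false, false, true, Sum.inr (Sum.inr true) => -3 * z - 3 * z ^ 2
  | false, false, false, Sum.inr (Sum.inr false) => 3 * z + 3 * z ^ 2 + 3 * q * z + 3 * q * z ^ 2
  | _, _, _, _ => 0

/-- off-diagonal blocks -/
def v3O3 (q z : R) (s t : Bool) : Matrix Unit (Unit ⊕ Bool) R := fun _ k =>
  match s, t, k with
  | false, true, Sum.inr true => z - z ^ 2 - 2 * z ^ 3 + 2 * q * z + q * z ^ 2 - q * z ^ 3
  | _, _, _ => 0

/-- off-diagonal blocks -/
def v3O4 (q z : R) (s t : Bool) : Matrix Unit Bool R := fun _ k =>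
  match s, t, k with
  | true, false, false => 1 - z - 2 * z ^ 2 + 2 * q + q * z - q * z ^ 2
  | _, _, _ => 0

/-- the one by one blocks -/
def v3c (z : R) (s t : Bool) : Matrix Unit Unit R := if s = t then (-(1 + z ^ 3)) • 1 else 0

/-- three lines in the adapted basis -/
def v3U (q z : R) (s t : Bool) : Matrix V3J V3J R :=
  fromBlocks (((1 + q * z) * (1 + q ^ 2 * z)) • loc q z s t) (v3O1 q z s t) 0
    (fromBlocks (((1 + q ^ 2 * z) * (1 + z)) • loc q (q * z) s t) (v3O2 q z s t) 0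
      (fromBlocks (v3c z s t) (v3O3 q z s t) 0
        (fromBlocks (v3c z s t) (v3O4 q z s t) 0
          (((1 + z) * (1 + q * z)) • loc q (q ^ 2 * z) s t))))

theorem v3L_apply (q z : R) (s t a b c a' b' c' : Bool) :
    v3L q z s t ((a, b), c) ((a', b'), c') = ∑ w : Bool, ∑ u : Bool,
      loc q (q * z) u t a a' * loc q (q ^ 2 * z) w u b b' * loc q z s w c c' := by
  unfold v3L
  simp only [Matrix.sum_apply, Matrix.kroneckerMap_apply]

theorem v3_key (q z : R) (hq : q ^ 2 + q + 1 = 0) (s t : Bool) :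
    v3L q z s t * v3G q = v3G q * v3U q z s t := by
  obtain ⟨h2, h3, h4, h5, h6, h7, h8, h9, h10, h11, h12⟩ := v3_pows q hq
  ext ⟨⟨a, b⟩, c⟩ k
  rw [Matrix.mul_apply, Matrix.mul_apply]
  rcases k with (_ | _) | (_ | _) | _ | _ | (_ | _) <;>
  simp only [v3G, v3v, Fintype.sum_prod_type, Fintype.sum_bool, Fintype.sum_sum_type,
      mul_zero, zero_mul, add_zero, zero_add, if_true, mul_one, one_mul,
      if_false, Bool.false_eq_true, Bool.true_eq_false] <;>
  cases s <;> cases t <;> cases a <;> cases b <;> cases c <;>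
  simp only [v3U, v3G, v3v, v3O1, v3O2, v3O3, v3O4, v3c, v3L_apply, fromBlocks_apply₁₁,
    fromBlocks_apply₁₂, fromBlocks_apply₂₁, fromBlocks_apply₂₂, Matrix.smul_apply, smul_eq_mul,
    Fintype.sum_bool, loc, wt,  mul_zero, zero_mul, add_zero, zero_add, if_true, mul_one, one_mul,
      if_false, Bool.false_eq_true, Bool.true_eq_false, and_true, true_and, false_and, and_false,
      Matrix.zero_apply, Finset.univ_unique, Finset.sum_singleton, Matrix.one_apply_eq,
      Bool.xor_true, Bool.xor_false, Bool.not_true, Bool.not_false] <;>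
    first | done | ring1 |
      (ring_nf; simp only [h2, h3, h4, h5, h6, h7, h8, h9, h10, h11, h12]; done) |
      (ring_nf; simp only [h2, h3, h4, h5, h6, h7, h8, h9, h10, h11, h12]; ring1)

/-- the twist in the adapted basis -/
def v3K (ζ : Rˣ) : Matrix V3J V3J R :=
  fromBlocks (Kz ζ) 0 0 (fromBlocks (Kz ζ) 0 0
    (fromBlocks (((ζ ^ 3 : Rˣ) : R) • 1) 0 0
      (fromBlocks ((((ζ⁻¹) ^ 3 : Rˣ) : R) • 1) 0 0 (Kz ζ))))

theorem v3_K (q : R) (ζ : Rˣ) :
    ((Kz ζ ⊗ₖ Kz ζ) ⊗ₖ Kz ζ) * v3G q = v3G q * v3K ζ := by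
  have hz : (ζ : R) * ((ζ⁻¹ : Rˣ) : R) = 1 := Units.mul_inv ζ
  have h3 : ((ζ ^ 3 : Rˣ) : R) = (ζ : R) ^ 3 := by push_cast; rfl
  have h3' : (((ζ⁻¹) ^ 3 : Rˣ) : R) = ((ζ⁻¹ : Rˣ) : R) ^ 3 := by push_cast; rfl
  generalize hζ : ((ζ⁻¹ : Rˣ) : R) = y at *
  ext ⟨⟨a, b⟩, c⟩ k
  rw [Matrix.mul_apply, Matrix.mul_apply]
  rcases k with (_ | _) | (_ | _) | _ | _ | (_ | _) <;>
  simp only [v3G, v3v, Fintype.sum_prod_type, Fintype.sum_bool, Fintype.sum_sum_type,
      mul_zero, zero_mul, add_zero, zero_add, if_true, mul_one, one_mul,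
      if_false, Bool.false_eq_true, Bool.true_eq_false] <;>
  cases a <;> cases b <;> cases c <;>
  simp only [v3K, v3G, v3v, fromBlocks_apply₁₁, Kz, Matrix.diagonal_apply, hζ,
    fromBlocks_apply₁₂, fromBlocks_apply₂₁, fromBlocks_apply₂₂, Matrix.smul_apply, smul_eq_mul,
    Fintype.sum_bool, mul_zero, zero_mul, add_zero, zero_add, if_true, mul_one, one_mul,
      if_false, Bool.false_eq_true, Bool.true_eq_false, and_true, true_and, false_and, and_false,
      Matrix.zero_apply, Finset.univ_unique, Finset.sum_singleton, Matrix.one_apply_eq,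
      Matrix.kroneckerMap_apply, h3, h3'] <;>
    first | done | ring1 | (linear_combination (ζ : R) * hz) | (linear_combination y * hz) |
      (linear_combination (-(ζ : R)) * hz) | (linear_combination (-y) * hz) |
      (linear_combination (ζ : R) * q ^ 2 * hz) | (linear_combination y * q ^ 2 * hz) |
      (linear_combination (-(ζ : R)) * q ^ 2 * hz) | (linear_combination (-y) * q ^ 2 * hz)

theorem v3_M (q z : R) (ζ : Rˣ) (s t : Bool) :
    ∑ w : Bool, ∑ u : Bool, ((loc q (q * z) u t * Kz ζ) ⊗ₖ (loc q (q ^ 2 * z) w u * Kz ζ)) ⊗ₖ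
      (loc q z s w * Kz ζ) = v3L q z s t * ((Kz ζ ⊗ₖ Kz ζ) ⊗ₖ Kz ζ) := by
  unfold v3L
  simp only [Matrix.mul_kronecker_mul, Finset.sum_mul]

theorem v3_tr (m : ℕ) (q z : R) (ζ : Rˣ) (t s : Fin (m + 1) → Bool) :
    (TV m q (q * z) ζ * TV m q (q ^ 2 * z) ζ * TV m q z ζ) t s
      = Matrix.trace (List.ofFn fun j =>
          v3L q z (s j) (t j) * ((Kz ζ ⊗ₖ Kz ζ) ⊗ₖ Kz ζ)).prod := by
  simp only [← v3_M]
  rw [← v3_sum_prod (m + 1) (fun j w => ∑ u : Bool,
    ((loc q (q * z) u (t j) * Kz ζ) ⊗ₖ (loc q (q ^ 2 * z) w u * Kz ζ)) ⊗ₖ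
      (loc q z (s j) w * Kz ζ)), Matrix.mul_apply, Matrix.trace_sum]
  refine Finset.sum_congr rfl fun w _ => ?_
  rw [← v3_sum_prod (m + 1) (fun j u =>
    ((loc q (q * z) u (t j) * Kz ζ) ⊗ₖ (loc q (q ^ 2 * z) (w j) u * Kz ζ)) ⊗ₖ
      (loc q z (s j) (w j) * Kz ζ)), Matrix.mul_apply, Matrix.trace_sum, Finset.sum_mul]
  refine Finset.sum_congr rfl fun u _ => ?_
  rw [← v3_kron_prod, ← v3_kron_prod, Matrix.trace_kronecker, Matrix.trace_kronecker]
  rfl

theorem v3_UK (q z : R) (ζ : Rˣ) (s t : Bool) : v3U q z s t * v3K ζ =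
    fromBlocks (((1 + q * z) * (1 + q ^ 2 * z)) • (loc q z s t * Kz ζ))
      (v3O1 q z s t * (fromBlocks (Kz ζ) 0 0
        (fromBlocks (((ζ ^ 3 : Rˣ) : R) • 1) 0 0
          (fromBlocks ((((ζ⁻¹) ^ 3 : Rˣ) : R) • 1) 0 0 (Kz ζ))))) 0
    (fromBlocks (((1 + q ^ 2 * z) * (1 + z)) • (loc q (q * z) s t * Kz ζ))
      (v3O2 q z s t * (fromBlocks (((ζ ^ 3 : Rˣ) : R) • 1) 0 0
          (fromBlocks ((((ζ⁻¹) ^ 3 : Rˣ) : R) • 1) 0 0 (Kz ζ)))) 0
    (fromBlocks (if s = t then (-(1 + z ^ 3) * ((ζ ^ 3 : Rˣ) : R)) • (1 : Matrix Unit Unit R) else 0)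
      (v3O3 q z s t * (fromBlocks ((((ζ⁻¹) ^ 3 : Rˣ) : R) • 1) 0 0 (Kz ζ))) 0
    (fromBlocks (if s = t then (-(1 + z ^ 3) * (((ζ⁻¹) ^ 3 : Rˣ) : R)) • (1 : Matrix Unit Unit R)
        else 0)
      (v3O4 q z s t * Kz ζ) 0
      (((1 + z) * (1 + q * z)) • (loc q (q ^ 2 * z) s t * Kz ζ))))) := by
  have hc : ∀ c : R, v3c z s t * (c • (1 : Matrix Unit Unit R)) =
      if s = t then (-(1 + z ^ 3) * c) • (1 : Matrix Unit Unit R) else 0 := by
    intro c
    unfold v3c
    split_ifs with h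
    · rw [Matrix.smul_mul, Matrix.mul_smul, Matrix.one_mul, smul_smul]
    · rw [Matrix.zero_mul]
  unfold v3U v3K
  rw [fromBlocks_multiply, fromBlocks_multiply, fromBlocks_multiply, fromBlocks_multiply]
  simp only [Matrix.mul_zero, Matrix.zero_mul, add_zero, zero_add, hc, Matrix.smul_mul]
  rfl

theorem fus3 (m : ℕ) (q z : R) (hq : q ^ 2 + q + 1 = 0) (ζ : Rˣ) :
    TV m q (q * z) ζ * TV m q (q ^ 2 * z) ζ * TV m q z ζ
      = ((1 + q * z) * (1 + q ^ 2 * z)) ^ (m + 1) • TV m q z ζ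
        + ((1 + q ^ 2 * z) * (1 + z)) ^ (m + 1) • TV m q (q * z) ζ
        + ((1 + z) * (1 + q * z)) ^ (m + 1) • TV m q (q ^ 2 * z) ζ
        + ((-(1 + z ^ 3)) ^ (m + 1) * (((ζ ^ (3 * (m + 1)) : Rˣ) : R)
            + (((ζ⁻¹) ^ (3 * (m + 1)) : Rˣ) : R))) • (1 : Matrix _ _ R) := by
  ext t s
  rw [v3_tr, v3_conj (v3G q) (v3H q) (v3_GH q hq) (v3_HG q hq) (m + 1) _
    (fun j => v3U q z (s j) (t j) * v3K ζ) (by
      intro j
      rw [Matrix.mul_assoc, v3_K, ← Matrix.mul_assoc, v3_key q z hq, Matrix.mul_assoc])]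
  simp only [v3_UK]
  rw [v3_block, v3_block, v3_block, v3_block, v3_one, v3_one, v3_smul, v3_smul, v3_smul]
  simp only [Matrix.trace_smul, smul_eq_mul, Matrix.add_apply, Matrix.smul_apply,
    Matrix.one_apply, TV, mul_pow, ← Units.val_pow_eq_pow_val, ← pow_mul]
  ring

end ring

end H906K
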