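import Pool.Agent.H906R3.K6.Defs2

/-! Module V4: the values of the vertex transfer matrix at `x = 0` and its leading coefficient. -/

namespace H906K
open Pool.Agent.H974R3 Polynomial MeasureTheory Filter Topology

section ring
variable {R : Type*} [CommRing R]

/-- products of triangular `2 × 2` matrices -/
theorem v4_tri (c : Bool) (l : List (Matrix Bool Bool R)) (h : ∀ M ∈ l, M c (!c) = 0) :
    l.prod c (!c) = 0 ∧ ∀ a, l.prod a a = (l.map (fun M => M a a)).prod := by
  induction l with
  | nil =>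
    refine ⟨?_, fun a => ?_⟩
    · rw [List.prod_nil, Matrix.one_apply_ne (by cases c <;> simp)]
    · rw [List.prod_nil, Matrix.one_apply_eq]; simp
  | cons M l ih =>
    obtain ⟨h1, h2⟩ := ih fun N hN => h N (List.mem_cons_of_mem _ hN)
    have h0 := h M List.mem_cons_self
    refine ⟨?_, fun a => ?_⟩
    · rw [List.prod_cons, Matrix.mul_apply, Fintype.sum_bool]
      cases c
      · simp only [Bool.not_false] at h0 h1 ⊢
        rw [h0, h1]; ring
      · simp only [Bool.not_true] at h0 h1 ⊢
        rw [h0, h1]; ring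
    · rw [List.prod_cons, List.map_cons, List.prod_cons, ← h2 a, Matrix.mul_apply,
        Fintype.sum_bool]
      cases c
      · simp only [Bool.not_false] at h0 h1
        cases a
        · rw [h0]; ring
        · rw [h1]; ring
      · simp only [Bool.not_true] at h0 h1
        cases a
        · rw [h1]; ring
        · rw [h0]; ring

/-- trace of a product of triangular matrices given by a function -/
theorem v4_trace (c : Bool) {k : ℕ} (M : Fin k → Matrix Bool Bool R) (h : ∀ j, M j c (!c) = 0) :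
    Matrix.trace (List.ofFn M).prod = ∏ j, M j true true + ∏ j, M j false false := by
  have h1 := (v4_tri c (List.ofFn M) (by
    intro N hN
    rw [List.mem_ofFn] at hN
    obtain ⟨j, rfl⟩ := hN
    exact h j)).2
  rw [Matrix.trace, Fintype.sum_bool, Matrix.diag_apply, Matrix.diag_apply, h1, h1,
    List.map_ofFn, List.map_ofFn, List.prod_ofFn, List.prod_ofFn]
  rfl

theorem v4_Kz (ζ : Rˣ) (M : Matrix Bool Bool R) (a b : Bool) :
    (M * Kz ζ) a b = M a b * (if b = true then (ζ : R) else ((ζ⁻¹ : Rˣ) : R)) := by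
  unfold Kz
  rw [Matrix.mul_diagonal]

/-- number of sites with spin up -/
theorem v4_card {n : ℕ} (s : Fin (2 * n + 1) → Bool) (hs : spin s = 1) :
    (Finset.univ.filter fun j => s j = true).card = n + 1 ∧
      (Finset.univ.filter fun j => ¬ s j = true).card = n := by
  unfold spin at hs
  rw [Finset.sum_ite, Finset.sum_const, Finset.sum_const] at hs
  have h1 := Finset.card_filter_add_card_filter_not (s := (Finset.univ : Finset (Fin (2 * n + 1))))
    (fun j => s j = true)
  rw [Finset.card_univ, Fintype.card_fin] at h1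
  simp only [nsmul_eq_mul, mul_one, mul_neg] at hs
  constructor <;> omega

theorem v4_prod {n : ℕ} (s : Fin (2 * n + 1) → Bool) (hs : spin s = 1) (A B : R) :
    ∏ j, (if s j = true then A else B) = A ^ (n + 1) * B ^ n := by
  obtain ⟨h1, h2⟩ := v4_card s hs
  rw [Finset.prod_ite, Finset.prod_const, Finset.prod_const, h1, h2]

theorem v4_pow1 (n : ℕ) (q : R) (hq : q ^ 2 + q + 1 = 0) :
    (-q ^ 2) ^ (n + 1) * (-q) ^ n = -q ^ 2 := by
  have h3 : q ^ 3 = 1 := by linear_combination (q - 1) * hq
  calc (-q ^ 2) ^ (n + 1) * (-q) ^ n = (-q ^ 2) * ((-q ^ 2) * (-q)) ^ n := by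
        rw [pow_succ, mul_pow]; ring
    _ = (-q ^ 2) * (q ^ 3) ^ n := by
        congr 2; ring
    _ = -q ^ 2 := by rw [h3, one_pow, mul_one]

theorem v4_pow2 (n : ℕ) (q : R) (hq : q ^ 2 + q + 1 = 0) :
    (-q) ^ (n + 1) * (-q ^ 2) ^ n = -q := by
  have h3 : q ^ 3 = 1 := by linear_combination (q - 1) * hq
  calc (-q) ^ (n + 1) * (-q ^ 2) ^ n = (-q) * ((-q) * (-q ^ 2)) ^ n := by
        rw [pow_succ, mul_pow]; ring
    _ = (-q) * (q ^ 3) ^ n := by
        congr 2; ring
    _ = -q := by rw [h3, one_pow, mul_one]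

/-- the common computation: triangular matrices which are nonzero on the diagonal only if
`t j = s j`, with the diagonal entries `A` for `a ≠ s j` and `B` for `a = s j` -/
theorem v4_main (n : ℕ) (c : Bool) (ζ : Rˣ) (t s : Fin (2 * n + 1) → Bool) (hs : spin s = 1)
    (P : Fin (2 * n + 1) → Matrix Bool Bool R) (A B : R)
    (h0 : ∀ j, P j c (!c) = 0)
    (h1 : ∀ j a, P j a a = if s j = t j then (if a = s j then B else A) else 0) :
    Matrix.trace (List.ofFn fun j => P j * Kz ζ).prod =
      if t = s then B ^ (n + 1) * A ^ n * ((ζ ^ (2 * n + 1) : Rˣ) : R)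
        + A ^ (n + 1) * B ^ n * (((ζ⁻¹) ^ (2 * n + 1) : Rˣ) : R) else 0 := by
  rw [v4_trace c _ (fun j => by rw [v4_Kz, h0, zero_mul])]
  simp only [v4_Kz, if_true, Bool.false_eq_true, if_false]
  rw [Finset.prod_mul_distrib, Finset.prod_mul_distrib, Finset.prod_const, Finset.prod_const,
    Finset.card_univ, Fintype.card_fin]
  by_cases hts : t = s
  · subst hts
    rw [if_pos rfl]
    have e1 : ∏ j, P j true true = B ^ (n + 1) * A ^ n := by
      rw [← v4_prod t hs]
      refine Finset.prod_congr rfl fun j _ => ?_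
      rw [h1, if_pos rfl]
      cases t j <;> simp
    have e2 : ∏ j, P j false false = A ^ (n + 1) * B ^ n := by
      rw [← v4_prod t hs]
      refine Finset.prod_congr rfl fun j _ => ?_
      rw [h1, if_pos rfl]
      cases t j <;> simp
    rw [e1, e2]
    push_cast
    rfl
  · rw [if_neg hts]
    obtain ⟨j, hj⟩ : ∃ j, t j ≠ s j := by
      by_contra hc
      push Not at hc
      exact hts (funext hc)
    have e : ∀ a, P j a a = 0 := fun a => by rw [h1, if_neg (Ne.symm hj)]
    rw [Finset.prod_eq_zero (Finset.mem_univ j) (e true),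
      Finset.prod_eq_zero (Finset.mem_univ j) (e false)]
    ring

theorem TV_zero (n : ℕ) (q : R) (hq : q ^ 2 + q + 1 = 0) (ζ : Rˣ)
    (t s : Fin (2 * n + 1) → Bool) (hs : spin s = 1) :
    TV (2 * n) q 0 ζ t s = if t = s then -q ^ 2 * ((ζ ^ (2 * n + 1) : Rˣ) : R)
      - q * (((ζ⁻¹) ^ (2 * n + 1) : Rˣ) : R) else 0 := by
  unfold TV
  rw [v4_main n true ζ t s hs (fun j => loc q 0 (s j) (t j)) (-q) (-q ^ 2)]
  · rw [v4_pow1 n q hq, v4_pow2 n q hq]
    split_ifs
    · ring
    · rfl
  · intro j
    unfold loc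
    cases s j <;> cases t j <;> simp
  · intro j a
    unfold loc wt
    cases s j <;> cases t j <;> cases a <;> simp

/-- products of matrices with entries of degree at most one -/
theorem v4_deg (l : List (Matrix Bool Bool R[X]))
    (h : ∀ M ∈ l, ∀ a b, (M a b).natDegree ≤ 1) :
    (∀ a b, (l.prod a b).natDegree ≤ l.length) ∧
    ∀ a b, (l.prod a b).coeff l.length =
      (l.map (fun M => (Matrix.of fun a b => (M a b).coeff 1 : Matrix Bool Bool R))).prod a b := by
  induction l with
  | nil =>
    refine ⟨fun a b => ?_, fun a b => ?_⟩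
    · rw [List.prod_nil, Matrix.one_apply]
      split_ifs <;> simp
    · rw [List.prod_nil, List.map_nil, List.prod_nil, Matrix.one_apply, Matrix.one_apply]
      split_ifs <;> simp
  | cons M l ih =>
    obtain ⟨h1, h2⟩ := ih fun N hN => h N (List.mem_cons_of_mem _ hN)
    have h0 := h M List.mem_cons_self
    refine ⟨fun a b => ?_, fun a b => ?_⟩
    · rw [List.prod_cons, Matrix.mul_apply, List.length_cons, add_comm]
      refine natDegree_sum_le_of_forall_le _ _ fun c _ => ?_
      exact natDegree_mul_le_of_le (h0 a c) (h1 c b)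
    · rw [List.prod_cons, Matrix.mul_apply, List.length_cons, List.map_cons, List.prod_cons,
        Matrix.mul_apply, finsetSum_coeff]
      refine Finset.sum_congr rfl fun c _ => ?_
      rw [add_comm, coeff_mul_add_eq_of_natDegree_le (h0 a c) (h1 c b), h2 c b]
      rfl

theorem v4_wt_deg (q : R) (b : Bool) : (wt (C q) b (X : R[X])).natDegree ≤ 1 := by
  unfold wt
  split_ifs
  · compute_degree
  · compute_degree

theorem v4_loc_deg (q : R) (s t a b : Bool) :
    (loc (C q) (X : R[X]) s t a b).natDegree ≤ 1 := by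
  unfold loc
  split_ifs
  · exact v4_wt_deg q _
  · simp
  · compute_degree
  · have e : (1 - C q ^ 2 : R[X]) = C (1 - q ^ 2) := by simp
    rw [e, natDegree_C]; omega
  · simp

theorem v4_factor_deg (q : R) (ζ : Rˣ) (s t a b : Bool) :
    ((loc (C q) (X : R[X]) s t * Kz (Units.map (C : R →+* R[X]).toMonoidHom ζ)) a b).natDegree
      ≤ 1 := by
  rw [v4_Kz]
  have h : (if b = true then ((Units.map (C : R →+* R[X]).toMonoidHom ζ : R[X]ˣ) : R[X]) else
      (((Units.map (C : R →+* R[X]).toMonoidHom ζ)⁻¹ : R[X]ˣ) : R[X])).natDegree ≤ 0 := by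
    split_ifs
    · exact (natDegree_C (ζ : R)).le
    · exact (natDegree_C ((ζ⁻¹ : Rˣ) : R)).le
  exact natDegree_mul_le_of_le (v4_loc_deg q s t a b) h

theorem TV_deg (m : ℕ) (q : R) (ζ : Rˣ) (t s : Fin (m + 1) → Bool) :
    (TV m (C q) (X : R[X]) (Units.map (C : R →+* R[X]).toMonoidHom ζ) t s).natDegree ≤ m + 1 := by
  unfold TV
  have h := (v4_deg (List.ofFn fun j => loc (C q) (X : R[X]) (s j) (t j) *
      Kz (Units.map (C : R →+* R[X]).toMonoidHom ζ)) (by
    intro M hM
    rw [List.mem_ofFn] at hM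
    obtain ⟨j, rfl⟩ := hM
    exact v4_factor_deg q ζ (s j) (t j))).1
  rw [List.length_ofFn] at h
  rw [Matrix.trace]
  exact natDegree_sum_le_of_forall_le _ _ fun a _ => h a a

/-- the leading coefficients of the local matrices -/
def v4_lead (q : R) (s t : Bool) : Matrix Bool Bool R := fun a b =>
  if s = t then (if a = b then (if xor a s = true then -q ^ 2 else -q) else 0)
  else (if a = t ∧ b = s then (if t = true then (1 - q) else 0) else 0)

theorem v4_coeff (q : R) (ζ : Rˣ) (s t : Bool) :
    (Matrix.of fun a b => ((loc (C q) (X : R[X]) s t *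
      Kz (Units.map (C : R →+* R[X]).toMonoidHom ζ)) a b).coeff 1 : Matrix Bool Bool R) =
    v4_lead q s t * Kz ζ := by
  ext a b
  rw [Matrix.of_apply, v4_Kz, v4_Kz]
  have h : (if b = true then ((Units.map (C : R →+* R[X]).toMonoidHom ζ : R[X]ˣ) : R[X]) else
      (((Units.map (C : R →+* R[X]).toMonoidHom ζ)⁻¹ : R[X]ˣ) : R[X])) =
      C (if b = true then (ζ : R) else ((ζ⁻¹ : Rˣ) : R)) := by
    split_ifs <;> rfl
  rw [h, coeff_mul_C]
  congr 1
  have e1 : ∀ c : Bool, (wt (C q) c (X : R[X])).coeff 1 = if c = true then -q ^ 2 else -q := by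
    intro c
    unfold wt
    split_ifs
    · rw [← C_pow, coeff_sub, coeff_C_mul, coeff_X_one, coeff_neg, coeff_C]; simp
    · rw [← C_pow, coeff_sub, coeff_C_mul, coeff_X_one, coeff_neg, coeff_C]; simp
  have e2 : ((1 - C q) * (X : R[X])).coeff 1 = 1 - q := by
    rw [← C_1, ← C_sub, coeff_C_mul, coeff_X_one, mul_one]
  have e3 : (1 - C q ^ 2 : R[X]).coeff 1 = 0 := by
    rw [← C_1, ← C_pow, ← C_sub, coeff_C]; simp
  unfold loc v4_lead
  by_cases g1 : s = t
  · simp only [if_pos g1]
    by_cases g2 : a = b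
    · simp only [if_pos g2]
      exact e1 _
    · simp only [if_neg g2, coeff_zero]
  · simp only [if_neg g1]
    by_cases g3 : a = t ∧ b = s
    · simp only [if_pos g3]
      by_cases g4 : t = true
      · simp only [if_pos g4]
        exact e2
      · simp only [if_neg g4]
        exact e3
    · simp only [if_neg g3, coeff_zero]

theorem TV_top (n : ℕ) (q : R) (hq : q ^ 2 + q + 1 = 0) (ζ : Rˣ)
    (t s : Fin (2 * n + 1) → Bool) (hs : spin s = 1) :
    (TV (2 * n) (C q) (X : R[X]) (Units.map (C : R →+* R[X]).toMonoidHom ζ) t s).coeff (2 * n + 1)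
      = if t = s then -q * ((ζ ^ (2 * n + 1) : Rˣ) : R)
      - q ^ 2 * (((ζ⁻¹) ^ (2 * n + 1) : Rˣ) : R) else 0 := by
  unfold TV
  have h := (v4_deg (List.ofFn fun j => loc (C q) (X : R[X]) (s j) (t j) *
      Kz (Units.map (C : R →+* R[X]).toMonoidHom ζ)) (by
    intro M hM
    rw [List.mem_ofFn] at hM
    obtain ⟨j, rfl⟩ := hM
    exact v4_factor_deg q ζ (s j) (t j))).2
  rw [List.length_ofFn, List.map_ofFn] at h
  have e : ((fun M => (Matrix.of fun a b => (M a b).coeff 1 : Matrix Bool Bool R)) ∘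
      fun j => loc (C q) (X : R[X]) (s j) (t j) *
        Kz (Units.map (C : R →+* R[X]).toMonoidHom ζ)) =
      fun j => v4_lead q (s j) (t j) * Kz ζ := by
    funext j
    exact v4_coeff q ζ (s j) (t j)
  rw [e] at h
  rw [Matrix.trace, finsetSum_coeff]
  have h2 : ∑ a : Bool, ((List.ofFn fun j => loc (C q) (X : R[X]) (s j) (t j) *
      Kz (Units.map (C : R →+* R[X]).toMonoidHom ζ)).prod.diag a).coeff (2 * n + 1) =
      Matrix.trace (List.ofFn fun j => v4_lead q (s j) (t j) * Kz ζ).prod := by
    rw [Matrix.trace]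
    refine Finset.sum_congr rfl fun a _ => ?_
    rw [Matrix.diag_apply, Matrix.diag_apply]
    exact h a a
  rw [h2, v4_main n false ζ t s hs (fun j => v4_lead q (s j) (t j)) (-q ^ 2) (-q)]
  · rw [v4_pow1 n q hq, v4_pow2 n q hq]
    split_ifs
    · ring
    · rfl
  · intro j
    unfold v4_lead
    cases s j <;> cases t j <;> simp
  · intro j a
    unfold v4_lead
    cases s j <;> cases t j <;> cases a <;> simp

end ring

end H906K
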