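import Pool.Agent.H906R3.K6.Defs2
import Pool.Agent.H906R3.K6.V2
import Pool.Agent.H906R3.K6.V3
import Pool.Agent.H906R3.K6.V4
import Pool.Agent.H906R3.K6.L2
import Pool.Agent.H906R3.K6.L2b
import Pool.Agent.H906R3.K6.L4

set_option linter.unusedSectionVars false

namespace H906K
open Pool.Agent.H974R3 Polynomial

section maps
variable {R R' : Type*} [CommRing R] [CommRing R']

theorem e3_zpow (f : R →+* R') (ζ : Rˣ) (k : ℤ) :
    (((Units.map f.toMonoidHom ζ) ^ k : R'ˣ) : R') = f ((ζ ^ k : Rˣ) : R) := by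
  rw [← map_zpow]; rfl

theorem e3_pow (f : R →+* R') (ζ : Rˣ) (k : ℕ) :
    (((Units.map f.toMonoidHom ζ) ^ k : R'ˣ) : R') = f ((ζ ^ k : Rˣ) : R) := by
  rw [← map_pow]; rfl

theorem e3_inv_pow (f : R →+* R') (ζ : Rˣ) (k : ℕ) :
    ((((Units.map f.toMonoidHom ζ)⁻¹) ^ k : R'ˣ) : R') = f (((ζ⁻¹) ^ k : Rˣ) : R) := by
  rw [← map_inv, ← map_pow]; rfl

theorem e3_wt (f : R →+* R') (q x : R) (b : Bool) : wt (f q) b (f x) = f (wt q b x) := by
  unfold wt; cases b <;> simp

theorem e3_loc (f : R →+* R') (q x : R) (s t : Bool) :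
    loc (f q) (f x) s t = f.mapMatrix (loc q x s t) := by
  ext a b
  simp only [RingHom.mapMatrix_apply, Matrix.map_apply, loc, e3_wt]
  split_ifs <;> simp

theorem e3_Kz (f : R →+* R') (ζ : Rˣ) :
    Kz (Units.map f.toMonoidHom ζ) = f.mapMatrix (Kz ζ) := by
  ext a b
  simp only [RingHom.mapMatrix_apply, Matrix.map_apply, Kz, Matrix.diagonal_apply]
  by_cases hab : a = b
  · subst hab
    rw [if_pos rfl, if_pos rfl]
    cases a
    · simp only [Bool.false_eq_true, if_false]
      rw [← map_inv]; rfl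
    · simp only [if_true]; rfl
  · rw [if_neg hab, if_neg hab, map_zero]

theorem e3_TV (f : R →+* R') (m : ℕ) (q x : R) (ζ : Rˣ) (t s : Fin (m + 1) → Bool) :
    TV m (f q) (f x) (Units.map f.toMonoidHom ζ) t s = f (TV m q x ζ t s) := by
  unfold TV
  have h1 : (List.ofFn fun j => loc (f q) (f x) (s j) (t j) * Kz (Units.map f.toMonoidHom ζ)) =
      (List.ofFn fun j => loc q x (s j) (t j) * Kz ζ).map f.mapMatrix := by
    rw [List.map_ofFn]
    congr 1
    funext j
    rw [Function.comp_apply, map_mul, e3_loc, e3_Kz]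
  rw [h1, ← map_list_prod]
  simp only [Matrix.trace, Matrix.diag, RingHom.mapMatrix_apply, Matrix.map_apply, map_sum]

theorem e3_Th (f : R →+* R') (m : ℕ) (q : R) (ζ : Rˣ) (s : Fin (m + 1) → Bool)
    (σ : Pat (m + 1)) :
    Th m (f q) (Units.map f.toMonoidHom ζ) s σ = f (Th m q ζ s σ) := by
  unfold Th
  split_ifs with h
  · rw [e3_zpow, map_mul, map_prod]
    congr 1
    refine Finset.prod_congr rfl (fun k _ => ?_)
    split_ifs <;> simp
  · simp

theorem e3_TL (f : R →+* R') (m : ℕ) (q x : R) (ζ : Rˣ) (τ σ : Pat (m + 1)) :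
    TL m (f q) (f x) (Units.map f.toMonoidHom ζ) τ σ = f (TL m q x ζ τ σ) := by
  unfold TL
  rw [map_sum]
  refine Finset.sum_congr rfl (fun c _ => ?_)
  split_ifs
  · rw [e3_zpow, map_mul, map_prod]
    congr 1
    refine Finset.prod_congr rfl (fun k _ => ?_)
    rw [e3_wt]
  · simp

end maps

theorem e3_odd {A : Type*} [CommRing A] (a : A) (n : ℕ) :
    (-a) ^ (2 * n + 1) = -a ^ (2 * n + 1) := Odd.neg_pow ⟨n, rfl⟩ a

theorem e3_om : om ^ 2 + om + 1 = 0 := by
  have h3 : Real.sqrt 3 ^ 2 = 3 := Real.sq_sqrt (by norm_num)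
  apply Complex.ext
  · simp [om, pow_two]
    nlinarith
  · simp [om, pow_two]
    ring

theorem e3_om2 : 1 - om ^ 2 ≠ 0 := by
  intro h
  have h1 : om ^ 2 = -om - 1 := by linear_combination e3_om
  rw [h1] at h
  have h2 := congrArg Complex.re h
  simp [om] at h2
  norm_num at h2

/-- the parameter `q` in `ℂ⟦ε⟧` -/
theorem e3_omK : (PowerSeries.C om : PowerSeries ℂ) ^ 2 + PowerSeries.C om + 1 = 0 := by
  have h1 := congrArg (PowerSeries.C : ℂ →+* PowerSeries ℂ) e3_om
  simpa using h1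

theorem e3_omS : (C (PowerSeries.C om) : (PowerSeries ℂ)[X]) ^ 2 + C (PowerSeries.C om) + 1 = 0 := by
  have h1 := congrArg (C : PowerSeries ℂ →+* (PowerSeries ℂ)[X]) e3_omK
  simpa using h1

theorem e3_ez_pow (k : ℕ) : ((ez ^ k : (PowerSeries ℂ)ˣ) : PowerSeries ℂ) = expI k := by
  induction k with
  | zero => simp [expI_zero]
  | succ k ih =>
    rw [pow_succ, Units.val_mul, ih]
    show expI k * expI 1 = _
    rw [expI_mul]; push_cast; rfl

theorem e3_ez_inv_pow (k : ℕ) : (((ez⁻¹) ^ k : (PowerSeries ℂ)ˣ) : PowerSeries ℂ) = expI (-k) := by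
  induction k with
  | zero => simp [expI_zero]
  | succ k ih =>
    rw [pow_succ, Units.val_mul, ih]
    show expI (-k) * expI (-1) = _
    rw [expI_mul]; push_cast; congr 1; ring

theorem e3_expI_cc (a : ℂ) : PowerSeries.constantCoeff (expI a) = 1 := by
  unfold expI
  rw [← PowerSeries.coeff_zero_eq_constantCoeff_apply, PowerSeries.coeff_rescale]
  simp

theorem e3_ez_cc : Units.map (PowerSeries.constantCoeff : PowerSeries ℂ →+* ℂ).toMonoidHom ez = 1 := by
  apply Units.ext
  exact e3_expI_cc 1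

theorem e3_C_TL_mulVec {ι κ : Type*} [Fintype ι] (M : Matrix κ ι (PowerSeries ℂ))
    (v : ι → PowerSeries ℂ) (s : κ) :
    ∑ i, C (M s i) * C (v i) = C (M.mulVec v s) := by
  rw [Matrix.mulVec, dotProduct, map_sum]
  simp

/-- substitution -/
theorem e3_comp_map (a : PowerSeries ℂ) :
    Units.map (compRingHom (C a * X) : (PowerSeries ℂ)[X] →+* (PowerSeries ℂ)[X]).toMonoidHom ezX
      = ezX := by
  apply Units.ext
  show (C ((ez : (PowerSeries ℂ)ˣ) : PowerSeries ℂ) : (PowerSeries ℂ)[X]).comp (C a * X) = _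
  rw [C_comp]; rfl

theorem e3_eval_map (a : PowerSeries ℂ) :
    Units.map (evalRingHom a : (PowerSeries ℂ)[X] →+* (PowerSeries ℂ)).toMonoidHom ezX
      = ez := by
  apply Units.ext
  show (C ((ez : (PowerSeries ℂ)ˣ) : PowerSeries ℂ) : (PowerSeries ℂ)[X]).eval a = _
  rw [eval_C]

theorem e3_cc_map :
    Units.map (mapRingHom PowerSeries.constantCoeff :
      (PowerSeries ℂ)[X] →+* ℂ[X]).toMonoidHom ezX = 1 := by
  apply Units.ext
  show (C ((ez : (PowerSeries ℂ)ˣ) : PowerSeries ℂ) : (PowerSeries ℂ)[X]).map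
    PowerSeries.constantCoeff = 1
  rw [map_C]
  show C (PowerSeries.constantCoeff (expI 1)) = 1
  rw [e3_expI_cc, C_1]

theorem tspec (n : ℕ) (v : Pat (2 * n + 1) → PowerSeries ℂ) (t : (PowerSeries ℂ)[X])
    (hv : ∑ σ, v σ = 1) (hd : t.natDegree ≤ 2 * n + 1)
    (ht : (TL (2 * n) (C (PowerSeries.C om)) (X : (PowerSeries ℂ)[X]) ezX).mulVec
      (fun σ => C (v σ)) = t • (fun σ => C (v σ))) : TSpec n t := by
  -- the vector `w`
  set Q : PowerSeries ℂ := PowerSeries.C om with hQ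
  set q : (PowerSeries ℂ)[X] := C Q with hq
  have hQ3 : Q ^ 2 + Q + 1 = 0 := e3_omK
  have hq3 : q ^ 2 + q + 1 = 0 := e3_omS
  set w : (Fin (2 * n + 1) → Bool) → PowerSeries ℂ := (Th (2 * n) Q ez).mulVec v with hw
  set W : (Fin (2 * n + 1) → Bool) → (PowerSeries ℂ)[X] := fun s => C (w s) with hW
  have hTh : ∀ s σ, Th (2 * n) q ezX s σ = C (Th (2 * n) Q ez s σ) := fun s σ =>
    e3_Th (C : PowerSeries ℂ →+* (PowerSeries ℂ)[X]) (2 * n) Q ez s σ
  have hWTh : (Th (2 * n) q ezX).mulVec (fun σ => C (v σ)) = W := by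
    funext s
    show ∑ σ, Th (2 * n) q ezX s σ * C (v σ) = C (w s)
    simp only [hTh]
    exact e3_C_TL_mulVec _ _ _
  -- the eigenvalue equation
  have h1 : (TV (2 * n) q X ezX).mulVec W = t • W := by
    rw [← hWTh, Matrix.mulVec_mulVec, TV_Th n q X hq3, ← Matrix.mulVec_mulVec, ht,
      Matrix.mulVec_smul]
  have h1s : ∀ s, ∑ s', TV (2 * n) q X ezX s s' * C (w s') = t * C (w s) := fun s =>
    congrFun h1 s
  -- substitution
  have h2 : ∀ a : PowerSeries ℂ, (TV (2 * n) q (C a * X) ezX).mulVec W =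
      t.comp (C a * X) • W := by
    intro a
    funext s
    have h3 := congrArg (compRingHom (C a * X) :
      (PowerSeries ℂ)[X] →+* (PowerSeries ℂ)[X]) (h1s s)
    rw [map_sum, map_mul] at h3
    simp only [map_mul] at h3
    have h4 : ∀ s', (compRingHom (C a * X) : (PowerSeries ℂ)[X] →+* (PowerSeries ℂ)[X])
        (TV (2 * n) q X ezX s s') = TV (2 * n) q (C a * X) ezX s s' := by
      intro s'
      rw [← e3_TV, e3_comp_map]
      simp [hq]
    simp only [h4] at h3
    show ∑ s', TV (2 * n) q (C a * X) ezX s s' * C (w s') = t.comp (C a * X) * C (w s)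
    simpa using h3
  -- a component which is a unit
  have hcc : ∑ s, PowerSeries.constantCoeff (w s) ≠ 0 := by
    have h3 : ∑ s, PowerSeries.constantCoeff (w s) = (1 - om ^ 2) ^ n := by
      have h4 : ∀ s, PowerSeries.constantCoeff (w s) =
          ∑ σ, Th (2 * n) om 1 s σ * PowerSeries.constantCoeff (v σ) := by
        intro s
        have h5 : w s = ∑ σ, Th (2 * n) Q ez s σ * v σ := rfl
        rw [h5, map_sum]
        refine Finset.sum_congr rfl (fun σ _ => ?_)
        rw [map_mul, ← e3_Th, e3_ez_cc, hQ, PowerSeries.constantCoeff_C]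
      simp only [h4]
      rw [Finset.sum_comm]
      simp only [← Finset.sum_mul, Th_sum]
      rw [← Finset.mul_sum, ← map_sum, hv, map_one, mul_one]
    rw [h3]
    exact pow_ne_zero _ e3_om2
  obtain ⟨s, -, hs⟩ := Finset.exists_ne_zero_of_sum_ne_zero hcc
  have hsu : IsUnit (w s) := by
    rw [PowerSeries.isUnit_iff_constantCoeff]
    exact isUnit_iff_ne_zero.mpr hs
  have hsU : IsUnit (C (w s)) := hsu.map C
  have hs0 : w s ≠ 0 := hsu.ne_zero
  have hS0 : C (w s) ≠ 0 := hsU.ne_zero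
  have hspin : ∀ s', spin s' ≠ 1 → w s' = 0 := by
    intro s' hs'
    have h5 : w s' = ∑ σ, Th (2 * n) Q ez s' σ * v σ := rfl
    rw [h5]
    exact Finset.sum_eq_zero (fun σ _ => by rw [Th_spin Q ez s' σ hs', zero_mul])
  have hq2 : q ^ 2 = C (PowerSeries.C (om ^ 2)) := by rw [hq, hQ]; simp
  have hTq := h2 (PowerSeries.C om)
  have hTq2 := h2 (PowerSeries.C (om ^ 2))
  rw [← hq2] at hTq2
  have hTq' : (TV (2 * n) q (q * X) ezX).mulVec W = t.comp (q * X) • W := hTq
  refine ⟨hd, ?_, ?_, ?_, ?_, ?_⟩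
  · -- const
    intro j
    have h3 : ∑ τ, ∑ σ, TL (2 * n) q X ezX τ σ * C (v σ) = t := by
      have h4 : ∀ τ, ∑ σ, TL (2 * n) q X ezX τ σ * C (v σ) = t * C (v τ) := fun τ =>
        congrFun ht τ
      simp only [h4]
      rw [← Finset.mul_sum, ← map_sum, hv, C_1, mul_one]
    have h5 := congrArg (mapRingHom PowerSeries.constantCoeff :
      (PowerSeries ℂ)[X] →+* ℂ[X]) h3
    rw [map_sum] at h5
    simp only [map_sum, map_mul] at h5
    have h6 : ∀ τ σ, (mapRingHom PowerSeries.constantCoeff : (PowerSeries ℂ)[X] →+* ℂ[X])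
        (TL (2 * n) q X ezX τ σ) = TL (2 * n) (C om) X 1 τ σ := by
      intro τ σ
      rw [← e3_TL, e3_cc_map]
      simp [hq, hQ]
    simp only [h6] at h5
    rw [Finset.sum_comm] at h5
    have h7 : ∀ σ, ∑ τ, TL (2 * n) (C om) (X : ℂ[X]) 1 τ σ = (1 + X) ^ (2 * n + 1) := by
      intro σ
      unfold TL
      rw [Finset.sum_comm]
      have h8 : ∀ c : Fin (2 * n + 1) → Bool, ∑ τ, (if Tc (2 * n) c σ = τ then
          (∏ j, wt (C om) (c j) (X : ℂ[X])) * (((1 : (ℂ[X])ˣ) ^ dTc (2 * n) c σ : (ℂ[X])ˣ) : ℂ[X])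
          else 0) = ∏ j, wt (C om) (c j) (X : ℂ[X]) := by
        intro c
        rw [Finset.sum_ite_eq]
        simp
      rw [Finset.sum_congr rfl (fun c _ => h8 c)]
      have h9 := (Finset.prod_univ_sum (κ := fun _ : Fin (2 * n + 1) => Bool)
        (t := fun _ => Finset.univ) (f := fun _ b => wt (C om) b (X : ℂ[X])))
      rw [Fintype.piFinset_univ] at h9
      rw [← h9]
      rw [Finset.prod_const, Finset.card_univ, Fintype.card_fin]
      congr 1
      rw [Fintype.sum_bool]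
      have h10 : (C om : ℂ[X]) ^ 2 + C om + 1 = 0 := by
        have := congrArg (C : ℂ →+* ℂ[X]) e3_om
        simpa using this
      simp only [wt, if_true, Bool.false_eq_true, if_false]
      linear_combination (-1 - X) * h10
    have h11 : (mapRingHom PowerSeries.constantCoeff : (PowerSeries ℂ)[X] →+* ℂ[X]) t
        = (1 + X) ^ (2 * n + 1) := by
      rw [← h5]
      simp only [← Finset.sum_mul, h7]
      rw [← Finset.mul_sum, ← map_sum, ← map_sum, hv]
      simp
    have h12 := congrArg (fun p => p.coeff j) h11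
    simp only [coe_mapRingHom, coeff_map] at h12
    rw [PowerSeries.coeff_zero_eq_constantCoeff_apply, h12, coeff_one_add_X_pow]
  · -- bot
    have h3 := congrArg (evalRingHom (0 : PowerSeries ℂ)) (h1s s)
    rw [map_sum, map_mul] at h3
    simp only [map_mul] at h3
    have h4 : ∀ s', (evalRingHom (0 : PowerSeries ℂ)) (TV (2 * n) q X ezX s s') =
        TV (2 * n) Q 0 ez s s' := by
      intro s'
      rw [← e3_TV, e3_eval_map]
      simp [hq]
    simp only [h4, coe_evalRingHom, eval_C] at h3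
    rw [← coeff_zero_eq_eval_zero] at h3
    have h5 : ∀ s', TV (2 * n) Q 0 ez s s' * w s' = if s = s' then
        (-Q ^ 2 * ((ez ^ (2 * n + 1) : (PowerSeries ℂ)ˣ) : PowerSeries ℂ)
          - Q * (((ez⁻¹) ^ (2 * n + 1) : (PowerSeries ℂ)ˣ) : PowerSeries ℂ)) * w s else 0 := by
      intro s'
      by_cases h6 : spin s' = 1
      · rw [TV_zero n Q hQ3 ez s s' h6]
        by_cases h7 : s = s'
        · subst h7; simp
        · rw [if_neg h7, if_neg h7, zero_mul]
      · rw [hspin s' h6, mul_zero]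
        by_cases h7 : s = s'
        · subst h7
          exact absurd (hspin s h6) hs0
        · rw [if_neg h7]
    rw [Finset.sum_congr rfl (fun s' _ => h5 s'), Finset.sum_ite_eq] at h3
    rw [if_pos (Finset.mem_univ s)] at h3
    have h8 := mul_right_cancel₀ hs0 h3
    rw [← h8, e3_ez_pow, e3_ez_inv_pow, hQ]
    simp
  · -- top
    have h3 := congrArg (fun p => coeff p (2 * n + 1)) (h1s s)
    simp only [finsetSum_coeff, coeff_mul_C] at h3
    have h5 : ∀ s', (TV (2 * n) q X ezX s s').coeff (2 * n + 1) * w s' = if s = s' then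
        (-Q * ((ez ^ (2 * n + 1) : (PowerSeries ℂ)ˣ) : PowerSeries ℂ)
          - Q ^ 2 * (((ez⁻¹) ^ (2 * n + 1) : (PowerSeries ℂ)ˣ) : PowerSeries ℂ)) * w s else 0 := by
      intro s'
      by_cases h6 : spin s' = 1
      · have h7 := TV_top n Q hQ3 ez s s' h6
        change (TV (2 * n) q X ezX s s').coeff (2 * n + 1) = _ at h7
        rw [h7]
        by_cases h7 : s = s'
        · subst h7; simp
        · rw [if_neg h7, if_neg h7, zero_mul]
      · rw [hspin s' h6, mul_zero]
        by_cases h7 : s = s'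
        · subst h7
          exact absurd (hspin s h6) hs0
        · rw [if_neg h7]
    rw [Finset.sum_congr rfl (fun s' _ => h5 s'), Finset.sum_ite_eq] at h3
    rw [if_pos (Finset.mem_univ s)] at h3
    have h8 := mul_right_cancel₀ hs0 h3
    rw [← h8, e3_ez_pow, e3_ez_inv_pow, hQ]
    simp
  · -- fus
    have h3 := fus3 (2 * n) q (X : (PowerSeries ℂ)[X]) hq3 ezX
    have h4 := congrFun (congrArg (fun M => M.mulVec W) h3) s
    simp only [Matrix.add_mulVec, ← Matrix.mulVec_mulVec, Matrix.smul_mulVec, h1, hTq', hTq2,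
      Matrix.mulVec_smul, Matrix.one_mulVec, Pi.add_apply, Pi.smul_apply, smul_eq_mul] at h4
    have h5 : W s = C (w s) := rfl
    rw [h5] at h4
    have h6 : ((ezX ^ (3 * (2 * n + 1)) : ((PowerSeries ℂ)[X])ˣ) : (PowerSeries ℂ)[X]) =
        C (expI (3 * (2 * n + 1))) := by
      unfold ezX
      rw [e3_pow, e3_ez_pow]; push_cast; rfl
    have h7 : (((ezX⁻¹) ^ (3 * (2 * n + 1)) : ((PowerSeries ℂ)[X])ˣ) : (PowerSeries ℂ)[X]) =
        C (expI (-(3 * (2 * n + 1)))) := by
      unfold ezX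
      rw [e3_inv_pow, e3_ez_inv_pow]; push_cast; rfl
    rw [h6, h7, e3_odd] at h4
    apply mul_right_cancel₀ hS0
    rw [C_add, ← hq2]
    show t.comp (q * X) * t.comp (q ^ 2 * X) * t * C (w s) = _
    linear_combination h4
  · -- div
    obtain ⟨T2, hT2⟩ := fus2 (2 * n) q (X : (PowerSeries ℂ)[X]) hq3 ezX
    have h4 := congrFun (congrArg (fun M => M.mulVec W) hT2) s
    simp only [Matrix.add_mulVec, ← Matrix.mulVec_mulVec, Matrix.smul_mulVec, hTq', hTq2,
      Matrix.mulVec_smul, Matrix.one_mulVec, Pi.add_apply, Pi.smul_apply, smul_eq_mul] at h4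
    have h5 : W s = C (w s) := rfl
    rw [h5] at h4
    rw [← hq2]
    have h6 : (1 + X) ^ (2 * n + 1) ∣ (t.comp (q * X) * t.comp (q ^ 2 * X)
        - ((1 + q * X) * (1 + q ^ 2 * X)) ^ (2 * n + 1)) * C (w s) :=
      ⟨T2.mulVec W s, by linear_combination h4⟩
    exact (IsUnit.dvd_mul_right hsU).mp h6

end H906K
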