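import Pool.Agent.H906R3.K6.Defs2
import Pool.Agent.H906R3.K6.A2a

/-! A priori bounds for the system of integral equations. -/

namespace H906K
open MeasureTheory Filter Topology

theorem a3_bdd {f : ℝ → ℝ} (hf : Continuous f) {c d : ℝ} (ht : Tendsto f atTop (𝓝 c))
    (hb : Tendsto f atBot (𝓝 d)) : ∃ K : ℝ, ∀ l, |f l| ≤ K := by
  have h1 : ∀ᶠ l in atTop, |f l| ≤ |c| + 1 := by
    have := ht.abs.eventually_lt_const (show |c| < |c| + 1 by linarith)
    exact this.mono fun l hl => hl.le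
  have h2 : ∀ᶠ l in atBot, |f l| ≤ |d| + 1 := by
    have := hb.abs.eventually_lt_const (show |d| < |d| + 1 by linarith)
    exact this.mono fun l hl => hl.le
  obtain ⟨a, ha⟩ := eventually_atTop.1 h1
  obtain ⟨b, hb'⟩ := eventually_atBot.1 h2
  obtain ⟨K, hK⟩ := (isCompact_Icc (a := b) (b := a)).exists_bound_of_continuousOn
    (f := f) hf.continuousOn
  refine ⟨max K (max (|c| + 1) (|d| + 1)), fun l => ?_⟩
  rcases le_total l b with h | h
  · exact (hb' l h).trans ((le_max_right _ _).trans (le_max_right _ _))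
  · rcases le_total l a with h' | h'
    · exact (hK l ⟨h, h'⟩).trans (le_max_left _ _)
    · exact (ha l h').trans ((le_max_left _ _).trans (le_max_right _ _))

/-- The least upper bound of `|f|`. -/
theorem a3_sup {f : ℝ → ℝ} {K0 : ℝ} (hK : ∀ l, |f l| ≤ K0) :
    ∃ S : ℝ, 0 ≤ S ∧ (∀ l, |f l| ≤ S) ∧ ∀ K, (∀ l, |f l| ≤ K) → S ≤ K := by
  have hb : BddAbove (Set.range fun l => |f l|) := ⟨K0, by rintro _ ⟨l, rfl⟩; exact hK l⟩
  refine ⟨⨆ l, |f l|, ?_, ?_, ?_⟩
  · exact (abs_nonneg (f 0)).trans (le_ciSup hb 0)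
  · exact fun l => le_ciSup hb l
  · exact fun K h => ciSup_le h

theorem a3_conv_cont {f : ℝ → ℝ} {K : ℝ} (hf : Continuous f) (hK : ∀ u, |f u| ≤ K) :
    Continuous fun l => ∫ u : ℝ, kk (l - u) * f u := by
  have h1 : ∀ l, ∫ u : ℝ, kk (l - u) * f u = ∫ v : ℝ, kk v * f (l - v) := by
    intro l
    rw [← integral_sub_left_eq_self (fun v => kk v * f (l - v)) volume l]
    apply integral_congr_ae
    refine Eventually.of_forall fun u => ?_
    simp
  simp_rw [h1]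
  refine continuous_of_dominated (bound := fun v => kk v * K) ?_ ?_ ?_ ?_
  · intro l
    exact (kk_cont.mul (hf.comp (continuous_const.sub continuous_id))).aestronglyMeasurable
  · intro l
    refine Eventually.of_forall fun v => ?_
    rw [norm_mul, Real.norm_of_nonneg (kk_pos v).le]
    exact mul_le_mul_of_nonneg_left (hK _) (kk_pos v).le
  · exact kk_integrable.mul_const K
  · refine Eventually.of_forall fun v => ?_
    exact continuous_const.mul (hf.comp (continuous_id.sub continuous_const))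

theorem a3_tanh (x : ℝ) : |Real.tanh x| ≤ 1 := by
  rw [abs_le]
  exact ⟨(Real.neg_one_lt_tanh x).le, (Real.tanh_lt_one x).le⟩

theorem a3_tanh_cont (N : ℕ) : Continuous fun l : ℝ => Real.tanh (3 * l / 4) ^ N := by
  have h : Continuous fun l : ℝ => Real.tanh (3 * l / 4) := by
    have h1 : (fun l : ℝ => Real.tanh (3 * l / 4)) =
        fun l => Real.sinh (3 * l / 4) / Real.cosh (3 * l / 4) := by
      funext l; rw [Real.tanh_eq_sinh_div_cosh]
    rw [h1]
    refine Continuous.div ?_ ?_ fun l => (Real.cosh_pos _).ne'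
    · exact Real.continuous_sinh.comp (by fun_prop)
    · exact Real.continuous_cosh.comp (by fun_prop)
  exact h.pow N

theorem a3_A1 {N : ℕ} {X : ℝ → ℝ} (hX : Continuous X) {M : ℝ} (hM : ∀ l, |X l| ≤ M) :
    Continuous (A1 N X) ∧ (∀ l, |A1 N X l| ≤ |Real.tanh (3 * l / 4)| ^ N * Real.sqrt (9 + M ^ 2)) ∧
      ∀ l, 0 ≤ G0 X l ∧ G0 X l ≤ Real.log (9 + M ^ 2) := by
  have hG : ∀ l, 0 ≤ G0 X l ∧ G0 X l ≤ Real.log (9 + M ^ 2) := by
    intro l
    unfold G0
    constructor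
    · apply Real.log_nonneg
      nlinarith [sq_nonneg (X l)]
    · apply Real.log_le_log (by positivity)
      have : X l ^ 2 ≤ M ^ 2 := by
        rw [← sq_abs (X l)]
        exact pow_le_pow_left₀ (abs_nonneg _) (hM l) 2
      linarith
  have hGc : Continuous (G0 X) := by
    unfold G0
    apply Continuous.log
    · fun_prop
    · intro l
      positivity
  have hGb : ∀ l, |G0 X l| ≤ Real.log (9 + M ^ 2) := by
    intro l
    rw [abs_of_nonneg (hG l).1]
    exact (hG l).2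
  have hbc : Continuous (be0 X) := by
    unfold be0
    exact a3_conv_cont hGc hGb
  refine ⟨?_, ?_, hG⟩
  · unfold A1
    exact (a3_tanh_cont N).mul (Real.continuous_exp.comp hbc)
  · intro l
    unfold A1
    rw [abs_mul, abs_pow, Real.abs_exp]
    apply mul_le_mul_of_nonneg_left _ (by positivity)
    have h1 := kk_conv_le (G0 X) _ hGc hGb l
    have h2 : be0 X l ≤ Real.log (9 + M ^ 2) / 2 := (le_abs_self _).trans h1
    have h3 : Real.sqrt (9 + M ^ 2) = Real.exp (Real.log (9 + M ^ 2) / 2) := by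
      rw [Real.sqrt_eq_rpow, Real.rpow_def_of_pos (by positivity)]
      congr 1
      ring
    rw [h3]
    exact Real.exp_le_exp.2 h2

theorem sys_bounds {N : ℕ} (hN : 1 ≤ N) {X Y B : ℝ → ℝ} (h : Sys N X Y B) :
    (∀ l, |X l| ≤ Real.sqrt 3) ∧ (∀ l, |Y l| ≤ 6) ∧ (∀ l, |B l| ≤ Real.sqrt 3) ∧
    (∀ l, |A1 N X l| ≤ 2 * Real.sqrt 3 * |Real.tanh (3 * l / 4)| ^ N) ∧
    (∀ l, |A2 N X B l| ≤ 12 * |Real.tanh (3 * l / 4)| ^ N) ∧
    (∀ l, |G1 X Y l| ≤ 4) ∧ (∀ l, 0 ≤ G0 X l ∧ G0 X l ≤ 3) := by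
  have hs3 : Real.sqrt 3 ^ 2 = 3 := Real.sq_sqrt (by norm_num)
  have hs0 : 0 ≤ Real.sqrt 3 := Real.sqrt_nonneg 3
  have hs2 : Real.sqrt 3 ≤ 2 := by nlinarith
  have hXc : Continuous X := h.niceX.1.continuous
  have hYc : Continuous Y := h.niceY.1.continuous
  have hBc : Continuous B := h.niceB.1.continuous
  have htp : ∀ l : ℝ, |Real.tanh (3 * l / 4)| ^ N ≤ 1 := fun l =>
    pow_le_one₀ (abs_nonneg _) (a3_tanh _)
  have htp0 : ∀ l : ℝ, 0 ≤ |Real.tanh (3 * l / 4)| ^ N := fun l => by positivity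
  -- the bound for X
  obtain ⟨K0, hK0⟩ := a3_bdd hXc h.topX h.botX
  obtain ⟨M, hM0, hM, hMl⟩ := a3_sup hK0
  obtain ⟨hA1c, hA1, -⟩ := a3_A1 (N := N) hXc hM
  have hA1' : ∀ l, |A1 N X l| ≤ Real.sqrt (9 + M ^ 2) := by
    intro l
    refine (hA1 l).trans ?_
    have := Real.sqrt_nonneg (9 + M ^ 2)
    nlinarith [htp l, htp0 l]
  have hM1 : M ≤ Real.sqrt (9 + M ^ 2) / 2 := by
    apply hMl
    intro l
    rw [h.eqX l]
    exact kk_conv_le _ _ hA1c hA1' l
  have hM3 : M ≤ Real.sqrt 3 := by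
    apply Real.le_sqrt_of_sq_le
    have h1 : Real.sqrt (9 + M ^ 2) ^ 2 = 9 + M ^ 2 := Real.sq_sqrt (by positivity)
    have h2 : (2 * M) ^ 2 ≤ Real.sqrt (9 + M ^ 2) ^ 2 :=
      pow_le_pow_left₀ (by linarith) (by linarith) 2
    nlinarith
  have hX : ∀ l, |X l| ≤ Real.sqrt 3 := fun l => (hM l).trans hM3
  obtain ⟨-, hA1, hG⟩ := a3_A1 (N := N) hXc hX
  have h12 : Real.sqrt (9 + Real.sqrt 3 ^ 2) = 2 * Real.sqrt 3 := by
    rw [hs3]
    rw [show (9 + 3 : ℝ) = 2 ^ 2 * 3 by norm_num, Real.sqrt_mul (by norm_num),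
      Real.sqrt_sq (by norm_num)]
  rw [h12] at hA1
  have hA1t : ∀ l, |A1 N X l| ≤ 2 * Real.sqrt 3 * |Real.tanh (3 * l / 4)| ^ N := fun l => by
    rw [mul_comm]; exact hA1 l
  have hA1b : ∀ l, |A1 N X l| ≤ 2 * Real.sqrt 3 := by
    intro l
    refine (hA1t l).trans ?_
    nlinarith [htp l, htp0 l]
  have hG0 : ∀ l, 0 ≤ G0 X l ∧ G0 X l ≤ 3 := by
    intro l
    refine ⟨(hG l).1, (hG l).2.trans ?_⟩
    rw [hs3]
    rw [Real.log_le_iff_le_exp (by norm_num)]
    have he : (2.7182818283 : ℝ) < Real.exp 1 := Real.exp_one_gt_d9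
    have h3 : Real.exp 3 = Real.exp 1 ^ 3 := by
      rw [← Real.exp_nat_mul]; norm_num
    rw [h3]
    have h4 : (2.7182818283 : ℝ) ^ 3 ≤ Real.exp 1 ^ 3 := pow_le_pow_left₀ (by norm_num) he.le 3
    refine le_trans ?_ h4
    norm_num
  -- the bounds for Y and B
  have hX2 : ∀ l, X l ^ 2 ≤ 3 := by
    intro l
    rw [← sq_abs (X l), ← hs3]
    exact pow_le_pow_left₀ (abs_nonneg _) (hX l) 2
  have hfrac : ∀ l, |2 * X l / (9 + X l ^ 2)| ≤ Real.sqrt 3 / 6 := by
    intro l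
    rw [abs_div, abs_mul, abs_of_pos (show (0 : ℝ) < 2 by norm_num),
      abs_of_pos (show 0 < 9 + X l ^ 2 by positivity), div_le_div_iff₀ (by positivity) (by norm_num)]
    rw [← sq_abs (X l)]
    have h1 := hX l
    have h2 := abs_nonneg (X l)
    have h3 : 0 ≤ Real.sqrt 3 * ((Real.sqrt 3 - |X l|) * (3 * Real.sqrt 3 - |X l|)) := by
      apply mul_nonneg hs0
      apply mul_nonneg (by linarith)
      linarith
    nlinarith
  obtain ⟨KY, hKY⟩ := a3_bdd hYc h.topY h.botY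
  obtain ⟨SY, hSY0, hSY, hSYl⟩ := a3_sup hKY
  obtain ⟨KB, hKB⟩ := a3_bdd hBc h.topB h.botB
  obtain ⟨SB, hSB0, hSB, hSBl⟩ := a3_sup hKB
  have hG1' : ∀ (S : ℝ), (∀ l, |Y l| ≤ S) → ∀ l, |G1 X Y l| ≤ Real.sqrt 3 / 6 * (S + 6) := by
    intro S hS l
    have e : G1 X Y l = (2 * X l / (9 + X l ^ 2)) * (Y l + X l ^ 2 / 2 + 9 / 2) := by
      unfold G1
      ring
    rw [e, abs_mul]
    have h1 : |Y l + X l ^ 2 / 2 + 9 / 2| ≤ S + 6 := by
      have := abs_le.1 (hS l)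
      rw [abs_le]
      have := hX2 l
      have := sq_nonneg (X l)
      constructor <;> linarith
    exact mul_le_mul (hfrac l) h1 (abs_nonneg _) (by positivity)
  have hG1c : Continuous (G1 X Y) := by
    unfold G1
    refine Continuous.div (by fun_prop) (by fun_prop) fun l => ?_
    positivity
  have hB1 : SB ≤ Real.sqrt 3 / 6 * (SY + 6) / 2 := by
    apply hSBl
    intro l
    rw [h.eqB l]
    exact kk_conv_le _ _ hG1c (hG1' SY hSY) l
  have hA2c : Continuous (A2 N X B) := by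
    unfold A2
    fun_prop
  have hA2b : ∀ l, |A2 N X B l| ≤ 2 * Real.sqrt 3 * SB + 6 := by
    intro l
    unfold A2
    have h1 := hA1b l
    have h2 := hSB l
    have h3 : |A1 N X l * B l| ≤ 2 * Real.sqrt 3 * SB := by
      rw [abs_mul]
      exact mul_le_mul h1 h2 (abs_nonneg _) (by positivity)
    have h4 : |A1 N X l ^ 2 / 2| ≤ 6 := by
      rw [abs_div, abs_pow, abs_of_pos (show (0 : ℝ) < 2 by norm_num)]
      have : |A1 N X l| ^ 2 ≤ (2 * Real.sqrt 3) ^ 2 := pow_le_pow_left₀ (abs_nonneg _) h1 2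
      nlinarith
    exact (abs_sub _ _).trans (add_le_add h3 h4)
  have hY1 : SY ≤ (2 * Real.sqrt 3 * SB + 6) / 2 := by
    apply hSYl
    intro l
    rw [h.eqY l]
    exact kk_conv_le _ _ hA2c hA2b l
  have hSY6 : SY ≤ 6 := by
    have h1 : Real.sqrt 3 * SB ≤ Real.sqrt 3 * (Real.sqrt 3 / 6 * (SY + 6) / 2) :=
      mul_le_mul_of_nonneg_left hB1 hs0
    have h2 : Real.sqrt 3 * (Real.sqrt 3 / 6 * (SY + 6) / 2) = (SY + 6) / 4 := by
      have : Real.sqrt 3 * (Real.sqrt 3 / 6 * (SY + 6) / 2) = Real.sqrt 3 ^ 2 * (SY + 6) / 12 := by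
        ring
      rw [this, hs3]; ring
    linarith
  have hSB3 : SB ≤ Real.sqrt 3 := by
    refine hB1.trans ?_
    nlinarith
  have hY6 : ∀ l, |Y l| ≤ 6 := fun l => (hSY l).trans hSY6
  have hB3 : ∀ l, |B l| ≤ Real.sqrt 3 := fun l => (hSB l).trans hSB3
  refine ⟨hX, hY6, hB3, hA1t, ?_, ?_, hG0⟩
  · intro l
    unfold A2
    set t := |Real.tanh (3 * l / 4)| ^ N with ht
    have h1 := hA1t l
    rw [← ht] at h1
    have h2 := hB3 l
    have ht0 : 0 ≤ t := htp0 l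
    have ht1 : t ≤ 1 := htp l
    have h3 : |A1 N X l * B l| ≤ 6 * t := by
      rw [abs_mul]
      have h5 : |A1 N X l| * |B l| ≤ (2 * Real.sqrt 3 * t) * Real.sqrt 3 :=
        mul_le_mul h1 h2 (abs_nonneg _) (by positivity)
      have h6 : (2 * Real.sqrt 3 * t) * Real.sqrt 3 = 6 * t := by
        have : (2 * Real.sqrt 3 * t) * Real.sqrt 3 = 2 * Real.sqrt 3 ^ 2 * t := by ring
        rw [this, hs3]; ring
      linarith
    have h4 : |A1 N X l ^ 2 / 2| ≤ 6 * t := by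
      rw [abs_div, abs_pow, abs_of_pos (show (0 : ℝ) < 2 by norm_num)]
      have h5 : |A1 N X l| ^ 2 ≤ (2 * Real.sqrt 3 * t) ^ 2 := pow_le_pow_left₀ (abs_nonneg _) h1 2
      have h6 : (2 * Real.sqrt 3 * t) ^ 2 = 12 * t ^ 2 := by
        have : (2 * Real.sqrt 3 * t) ^ 2 = 4 * Real.sqrt 3 ^ 2 * t ^ 2 := by ring
        rw [this, hs3]; ring
      nlinarith
    refine (abs_sub _ _).trans ?_
    linarith
  · intro l
    refine (hG1' 6 hY6 l).trans ?_
    nlinarith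

end H906K
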