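import Pool.Agent.H906R3.K6.Defs2
import Pool.Agent.H906R3.K6.A2b
import Pool.Agent.H906R3.K6.A3

/-! Task A4 (helper418): regularity and bounds of the derivatives. -/

namespace H906K
open MeasureTheory Filter Topology

theorem a4_comp {φ f : ℝ → ℝ} {K : ℝ} (hφ : ContDiff ℝ 1 φ) (hf : Nice f) (hK : ∀ u, |f u| ≤ K) :
    Nice (fun l => φ (f l)) ∧ ∀ l, deriv (fun l => φ (f l)) l = deriv φ (f l) * deriv f l := by
  obtain ⟨h1, h2, h3⟩ := hf
  have hd : Differentiable ℝ φ := hφ.differentiable (by norm_num)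
  have hc : Continuous (deriv φ) := hφ.continuous_deriv (by norm_num)
  have e : ∀ l, HasDerivAt (fun l => φ (f l)) (deriv φ (f l) * deriv f l) l := fun l =>
    (hd (f l)).hasDerivAt.comp l (h1 l).hasDerivAt
  have e' : deriv (fun l => φ (f l)) = fun l => deriv φ (f l) * deriv f l :=
    funext fun l => (e l).deriv
  refine ⟨⟨fun l => (e l).differentiableAt, ?_, ?_⟩, fun l => (e l).deriv⟩
  · rw [e']
    exact (hc.comp h1.continuous).mul h2
  · rw [e']
    have hcp : IsCompact (Set.Icc (-K) K) := isCompact_Icc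
    obtain ⟨P, hP⟩ := hcp.exists_bound_of_continuousOn hc.continuousOn
    refine Integrable.bdd_mul (c := P) h3 ((hc.comp h1.continuous).aestronglyMeasurable) ?_
    exact Eventually.of_forall fun l => hP _ (abs_le.1 (hK l))

theorem a4_mul {f g : ℝ → ℝ} {K L : ℝ} (hf : Nice f) (hg : Nice g) (hK : ∀ u, |f u| ≤ K)
    (hL : ∀ u, |g u| ≤ L) : Nice (fun l => f l * g l) ∧
    ∀ l, deriv (fun l => f l * g l) l = deriv f l * g l + f l * deriv g l := by
  obtain ⟨h1, h2, h3⟩ := hf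
  obtain ⟨g1, g2, g3⟩ := hg
  have e : ∀ l, HasDerivAt (fun l => f l * g l) (deriv f l * g l + f l * deriv g l) l := fun l =>
    (h1 l).hasDerivAt.mul (g1 l).hasDerivAt
  have e' : deriv (fun l => f l * g l) = fun l => deriv f l * g l + f l * deriv g l :=
    funext fun l => (e l).deriv
  refine ⟨⟨fun l => (e l).differentiableAt, ?_, ?_⟩, fun l => (e l).deriv⟩
  · rw [e']
    exact (h2.mul g1.continuous).add (h1.continuous.mul g2)
  · rw [e']
    refine Integrable.add ?_ ?_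
    · exact Integrable.mul_bdd (c := L) h3 g1.continuous.aestronglyMeasurable
        (Eventually.of_forall fun l => hL l)
    · exact Integrable.bdd_mul (c := K) g3 h1.continuous.aestronglyMeasurable
        (Eventually.of_forall fun l => hK l)

theorem a4_add {f g : ℝ → ℝ} (hf : Nice f) (hg : Nice g) : Nice (fun l => f l + g l) ∧
    ∀ l, deriv (fun l => f l + g l) l = deriv f l + deriv g l := by
  obtain ⟨h1, h2, h3⟩ := hf
  obtain ⟨g1, g2, g3⟩ := hg
  have e : ∀ l, HasDerivAt (fun l => f l + g l) (deriv f l + deriv g l) l := fun l =>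
    (h1 l).hasDerivAt.add (g1 l).hasDerivAt
  have e' : deriv (fun l => f l + g l) = fun l => deriv f l + deriv g l :=
    funext fun l => (e l).deriv
  refine ⟨⟨fun l => (e l).differentiableAt, ?_, ?_⟩, fun l => (e l).deriv⟩
  · rw [e']
    exact h2.add g2
  · rw [e']
    exact h3.add g3

theorem a4_sub {f g : ℝ → ℝ} (hf : Nice f) (hg : Nice g) : Nice (fun l => f l - g l) ∧
    ∀ l, deriv (fun l => f l - g l) l = deriv f l - deriv g l := by
  obtain ⟨h1, h2, h3⟩ := hf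
  obtain ⟨g1, g2, g3⟩ := hg
  have e : ∀ l, HasDerivAt (fun l => f l - g l) (deriv f l - deriv g l) l := fun l =>
    (h1 l).hasDerivAt.sub (g1 l).hasDerivAt
  have e' : deriv (fun l => f l - g l) = fun l => deriv f l - deriv g l :=
    funext fun l => (e l).deriv
  refine ⟨⟨fun l => (e l).differentiableAt, ?_, ?_⟩, fun l => (e l).deriv⟩
  · rw [e']
    exact h2.sub g2
  · rw [e']
    exact h3.sub g3

theorem a4_tanh_deriv (l : ℝ) : HasDerivAt (fun l : ℝ => Real.tanh (3 * l / 4))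
    (3 / 4 / Real.cosh (3 * l / 4) ^ 2) l := by
  have h1 : HasDerivAt (fun l : ℝ => 3 * l / 4) (3 / 4) l := by
    have := ((hasDerivAt_id l).const_mul 3).div_const 4
    simpa using this
  have h2 : ∀ x : ℝ, HasDerivAt Real.tanh (1 / Real.cosh x ^ 2) x := by
    intro x
    have hc := (Real.cosh_pos x).ne'
    have h3 := (Real.hasDerivAt_sinh x).div (Real.hasDerivAt_cosh x) hc
    have h4 : (fun x => Real.sinh x / Real.cosh x) = Real.tanh := by
      funext x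
      rw [Real.tanh_eq_sinh_div_cosh]
    have h5 : (Real.cosh x * Real.cosh x - Real.sinh x * Real.sinh x) / Real.cosh x ^ 2 =
        1 / Real.cosh x ^ 2 := by
      congr 1
      have := Real.cosh_sq x
      nlinarith
    rw [← h5, ← h4]
    exact h3
  have h6 := (h2 (3 * l / 4)).comp l h1
  have e : 1 / Real.cosh (3 * l / 4) ^ 2 * (3 / 4) = 3 / 4 / Real.cosh (3 * l / 4) ^ 2 := by ring
  rw [← e]
  exact h6

theorem a4_tanh_le (x : ℝ) : |Real.tanh x| ≤ 1 := by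
  have h := Real.abs_tanh_lt_one x
  exact h.le

theorem a4_tanh_nice : Nice (fun l : ℝ => Real.tanh (3 * l / 4)) := by
  have e' : deriv (fun l : ℝ => Real.tanh (3 * l / 4)) =
      fun l => 3 / 4 / Real.cosh (3 * l / 4) ^ 2 := funext fun l => (a4_tanh_deriv l).deriv
  have hc : Continuous fun l : ℝ => 3 / 4 / Real.cosh (3 * l / 4) ^ 2 := by
    refine Continuous.div continuous_const ?_ fun l => (pow_pos (Real.cosh_pos _) 2).ne'
    exact (Real.continuous_cosh.comp (by fun_prop)).pow 2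
  refine ⟨fun l => (a4_tanh_deriv l).differentiableAt, ?_, ?_⟩
  · rw [e']
    exact hc
  · rw [e']
    refine Integrable.mono' (kk_integrable.const_mul (2 * Real.pi)) hc.aestronglyMeasurable
      (Eventually.of_forall fun l => ?_)
    have hp := Real.cosh_pos (3 * l / 4)
    have hp2 := Real.cosh_pos (3 * l / 2)
    rw [Real.norm_of_nonneg (by positivity)]
    unfold kk
    have e : Real.cosh (3 * l / 2) ≤ 2 * Real.cosh (3 * l / 4) ^ 2 := by
      have h1 : 3 * l / 2 = 2 * (3 * l / 4) := by ring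
      rw [h1, Real.cosh_two_mul, Real.cosh_sq]
      nlinarith [sq_nonneg (Real.sinh (3 * l / 4))]
    have e2 : 2 * Real.pi * (3 / (4 * Real.pi * Real.cosh (3 * l / 2))) =
        3 / 2 / Real.cosh (3 * l / 2) := by
      field_simp
      ring
    rw [e2, div_le_div_iff₀ (by positivity) hp2]
    nlinarith

/-- `2x/(9+x²)` -/
noncomputable def a4_p (x : ℝ) : ℝ := 2 * x / (9 + x ^ 2)

/-- `x²/2+9/2` -/
noncomputable def a4_q (x : ℝ) : ℝ := x ^ 2 / 2 + 9 / 2

/-- `log (9+x²)` -/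
noncomputable def a4_l (x : ℝ) : ℝ := Real.log (9 + x ^ 2)

theorem a4_p_cd : ContDiff ℝ 1 a4_p := by
  unfold a4_p
  refine ContDiff.div (by fun_prop) (by fun_prop) fun x => ?_
  positivity

theorem a4_q_cd : ContDiff ℝ 1 a4_q := by
  unfold a4_q
  fun_prop

theorem a4_l_cd : ContDiff ℝ 1 a4_l := by
  unfold a4_l
  refine ContDiff.log (by fun_prop) fun x => ?_
  positivity

theorem a4_bdd {φ : ℝ → ℝ} (hφ : ContDiff ℝ 1 φ) (r : ℝ) :
    ∃ P : ℝ, 0 ≤ P ∧ ∀ x, |x| ≤ r → |φ x| ≤ P ∧ |deriv φ x| ≤ P := by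
  have hcp : IsCompact (Set.Icc (-r) r) := isCompact_Icc
  obtain ⟨P, hP⟩ := hcp.exists_bound_of_continuousOn
    (hφ.continuous_deriv (by norm_num)).continuousOn
  obtain ⟨P', hP'⟩ := hcp.exists_bound_of_continuousOn hφ.continuous.continuousOn
  refine ⟨max 0 (max P P'), le_max_left _ _, fun x hx => ⟨?_, ?_⟩⟩
  · exact (hP' x (abs_le.1 hx)).trans ((le_max_right _ _).trans (le_max_right _ _))
  · exact (hP x (abs_le.1 hx)).trans ((le_max_left _ _).trans (le_max_right _ _))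

theorem a4_G0 (X : ℝ → ℝ) : G0 X = fun l => a4_l (X l) := rfl

theorem a4_G1 (X Y : ℝ → ℝ) : G1 X Y = fun l => a4_p (X l) * (Y l + a4_q (X l)) := by
  funext l
  unfold G1 a4_p a4_q
  ring

theorem a4_pow_cd (N : ℕ) : ContDiff ℝ 1 (fun x : ℝ => x ^ N) := by fun_prop

theorem a4_A1_bd {N : ℕ} (hN : 1 ≤ N) {X Y B : ℝ → ℝ} (h : Sys N X Y B) (l : ℝ) :
    |A1 N X l| ≤ 2 * Real.sqrt 3 := by
  refine ((sys_bounds hN h).2.2.2.1 l).trans ?_
  have h1 : |Real.tanh (3 * l / 4)| ^ N ≤ 1 := pow_le_one₀ (abs_nonneg _) (a4_tanh_le _)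
  have h2 : 0 ≤ 2 * Real.sqrt 3 := by positivity
  calc 2 * Real.sqrt 3 * |Real.tanh (3 * l / 4)| ^ N ≤ 2 * Real.sqrt 3 * 1 := by gcongr
    _ = _ := mul_one _

theorem a4_A2_bd {N : ℕ} (hN : 1 ≤ N) {X Y B : ℝ → ℝ} (h : Sys N X Y B) (l : ℝ) :
    |A2 N X B l| ≤ 12 := by
  refine ((sys_bounds hN h).2.2.2.2.1 l).trans ?_
  have h1 : |Real.tanh (3 * l / 4)| ^ N ≤ 1 := pow_le_one₀ (abs_nonneg _) (a4_tanh_le _)
  linarith

/-- everything about the regularity, with the formulas of the derivatives -/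
theorem a4_all {N : ℕ} (hN : 1 ≤ N) {X Y B : ℝ → ℝ} (h : Sys N X Y B) :
    (Nice (G0 X) ∧ Nice (G1 X Y) ∧ Nice (be0 X) ∧ Nice (A1 N X) ∧ Nice (A2 N X B)) ∧
    (∀ l, deriv (G0 X) l = deriv a4_l (X l) * deriv X l) ∧
    (∀ l, deriv (G1 X Y) l = deriv a4_p (X l) * deriv X l * (Y l + a4_q (X l)) +
      a4_p (X l) * (deriv Y l + deriv a4_q (X l) * deriv X l)) ∧
    (∀ l, |be0 X l| ≤ 3 / 2) ∧ (∀ l, |deriv (be0 X) l| ≤ 3) ∧
    (∀ l, deriv (A1 N X) l = N * Real.tanh (3 * l / 4) ^ (N - 1) *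
      (3 / 4 / Real.cosh (3 * l / 4) ^ 2) * Real.exp (be0 X l) +
      Real.tanh (3 * l / 4) ^ N * (Real.exp (be0 X l) * deriv (be0 X) l)) ∧
    (∀ l, deriv (A2 N X B) l = deriv (A1 N X) l * B l + A1 N X l * deriv B l -
      A1 N X l * deriv (A1 N X) l) := by
  obtain ⟨hX, hY, hB, -, -, -, hG0⟩ := sys_bounds hN h
  have n0 := a4_comp a4_l_cd h.niceX hX
  have n1 := a4_comp a4_p_cd h.niceX hX
  have n2 := a4_comp a4_q_cd h.niceX hX
  obtain ⟨P, hP0, hP⟩ := a4_bdd a4_p_cd (Real.sqrt 3)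
  obtain ⟨Q, hQ0, hQ⟩ := a4_bdd a4_q_cd (Real.sqrt 3)
  have n3 := a4_add h.niceY n2.1
  have b3 : ∀ u, |Y u + a4_q (X u)| ≤ 6 + Q := fun u =>
    (abs_add_le _ _).trans (add_le_add (hY u) (hQ _ (hX u)).1)
  have n4 := a4_mul n1.1 n3.1 (fun u => (hP _ (hX u)).1) b3
  have hG0' : Nice (G0 X) := n0.1
  have b0 : ∀ u, |G0 X u| ≤ 3 := fun u => abs_le.2 ⟨by linarith [(hG0 u).1], (hG0 u).2⟩
  have n5 := kk_conv_nice (G0 X) 3 hG0' b0
  have nbe : Nice (be0 X) := n5.1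
  have bbe : ∀ u, |be0 X u| ≤ 3 / 2 := fun u => kk_conv_le (G0 X) 3 hG0'.1.continuous b0 u
  have dbe : ∀ u, |deriv (be0 X) u| ≤ 3 := fun u => kk_conv_deriv_le (G0 X) 3 hG0' b0 u
  have n6 := a4_comp Real.contDiff_exp nbe bbe
  have n7 := a4_comp (a4_pow_cd N) a4_tanh_nice (fun u => a4_tanh_le _)
  have b6 : ∀ u, |Real.exp (be0 X u)| ≤ Real.exp (3 / 2) := by
    intro u
    rw [abs_of_pos (Real.exp_pos _)]
    exact Real.exp_le_exp.2 ((le_abs_self _).trans (bbe u))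
  have b7 : ∀ u : ℝ, |Real.tanh (3 * u / 4) ^ N| ≤ 1 := by
    intro u
    rw [abs_pow]
    exact pow_le_one₀ (abs_nonneg _) (a4_tanh_le _)
  have n8 := a4_mul n7.1 n6.1 b7 b6
  have nA1 : Nice (A1 N X) := n8.1
  have bA1 := a4_A1_bd hN h
  have n9 := a4_mul nA1 h.niceB bA1 hB
  have n10 := a4_mul nA1 nA1 bA1 bA1
  have hhalf : ∀ f : ℝ → ℝ, Nice f → Nice (fun l => f l / 2) ∧
      ∀ l, deriv (fun l => f l / 2) l = deriv f l / 2 := by
    intro f hf
    obtain ⟨h1, h2, h3⟩ := hf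
    have e : ∀ l, HasDerivAt (fun l => f l / 2) (deriv f l / 2) l := fun l =>
      (h1 l).hasDerivAt.div_const 2
    have e' : deriv (fun l => f l / 2) = fun l => deriv f l / 2 := funext fun l => (e l).deriv
    refine ⟨⟨fun l => (e l).differentiableAt, ?_, ?_⟩, fun l => (e l).deriv⟩
    · rw [e']
      exact h2.div_const 2
    · rw [e']
      exact h3.div_const 2
  have n11 := hhalf _ n10.1
  have n12 := a4_sub n9.1 n11.1
  have eA2 : A2 N X B = fun l => A1 N X l * B l - A1 N X l * A1 N X l / 2 := by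
    funext l
    unfold A2
    ring
  refine ⟨⟨n0.1, ?_, nbe, nA1, ?_⟩, n0.2, ?_, bbe, dbe, ?_, ?_⟩
  · rw [a4_G1]
    exact n4.1
  · rw [eA2]
    exact n12.1
  · intro l
    rw [a4_G1, n4.2, n3.2, n1.2, n2.2]
  · intro l
    have e1 := n8.2 l
    have e2 : deriv (fun x : ℝ => x ^ N) (Real.tanh (3 * l / 4)) =
        N * Real.tanh (3 * l / 4) ^ (N - 1) := by simp
    rw [n7.2, n6.2, Real.deriv_exp, e2, (a4_tanh_deriv l).deriv] at e1
    exact e1
  · intro l
    rw [eA2, n12.2, n11.2, n9.2, n10.2]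
    ring

theorem sys_nice {N : ℕ} (hN : 1 ≤ N) {X Y B : ℝ → ℝ} (h : Sys N X Y B) :
    Nice (G0 X) ∧ Nice (G1 X Y) ∧ Nice (be0 X) ∧ Nice (A1 N X) ∧ Nice (A2 N X B) :=
  (a4_all hN h).1

theorem sys_deriv : ∃ K : ℝ, 0 < K ∧ ∀ (N : ℕ) (X Y B : ℝ → ℝ), 1 ≤ N → Sys N X Y B →
    (∀ l, |deriv (G0 X) l| ≤ K) ∧ (∀ l, |deriv (G1 X Y) l| ≤ K) ∧
    (∀ l, |deriv (A1 N X) l| ≤ K * (|Real.tanh (3 * l / 4)| ^ N
      + N * |Real.tanh (3 * l / 4)| ^ (N - 1) / Real.cosh (3 * l / 4) ^ 2)) ∧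
    (∀ l, |deriv (A2 N X B) l| ≤ K * (|Real.tanh (3 * l / 4)| ^ N
      + N * |Real.tanh (3 * l / 4)| ^ (N - 1) / Real.cosh (3 * l / 4) ^ 2)) := by
  obtain ⟨P, hP0, hP⟩ := a4_bdd a4_p_cd (Real.sqrt 3)
  obtain ⟨Q, hQ0, hQ⟩ := a4_bdd a4_q_cd (Real.sqrt 3)
  obtain ⟨R, hR0, hR⟩ := a4_bdd a4_l_cd (Real.sqrt 3)
  set E : ℝ := Real.exp (3 / 2) with hE
  have hE0 : 0 < E := Real.exp_pos _
  have hs3 : Real.sqrt 3 ≤ 2 := by
    rw [show (2 : ℝ) = Real.sqrt 4 by
      rw [show (4 : ℝ) = 2 ^ 2 by norm_num, Real.sqrt_sq (by norm_num)]]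
    exact Real.sqrt_le_sqrt (by norm_num)
  have hs0 : 0 ≤ Real.sqrt 3 := Real.sqrt_nonneg 3
  set K1 : ℝ := R * 4 with hK1
  set K2 : ℝ := P * 4 * (6 + Q) + P * (12 + Q * 4) with hK2
  set K3 : ℝ := 3 * E with hK3
  set K4 : ℝ := K3 * 6 + 16 with hK4
  refine ⟨K1 + K2 + K3 + K4 + 1, by positivity, fun N X Y B hN h => ?_⟩
  obtain ⟨hX, hY, hB, hA1, hA2, hG1, hG0⟩ := sys_bounds hN h
  obtain ⟨⟨nG0, nG1, nbe, nA1, nA2⟩, dG0, dG1, bbe, dbe, dA1, dA2⟩ := a4_all hN h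
  have bA1 := a4_A1_bd hN h
  have bA2 := a4_A2_bd hN h
  -- derivatives of X, Y, B
  have eX : X = fun l => ∫ u : ℝ, kk (l - u) * A1 N X u := funext h.eqX
  have eY : Y = fun l => ∫ u : ℝ, kk (l - u) * A2 N X B u := funext h.eqY
  have eB : B = fun l => ∫ u : ℝ, kk (l - u) * G1 X Y u := funext h.eqB
  have dX : ∀ l, |deriv X l| ≤ 4 := by
    intro l
    have h1 := kk_conv_deriv_le (A1 N X) (2 * Real.sqrt 3) nA1 bA1 l
    rw [← eX] at h1
    linarith
  have dY : ∀ l, |deriv Y l| ≤ 12 := by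
    intro l
    have h1 := kk_conv_deriv_le (A2 N X B) 12 nA2 bA2 l
    rwa [← eY] at h1
  have dB : ∀ l, |deriv B l| ≤ 4 := by
    intro l
    have h1 := kk_conv_deriv_le (G1 X Y) 4 nG1 hG1 l
    rwa [← eB] at h1
  have key1 : ∀ l, |deriv (G0 X) l| ≤ K1 := by
    intro l
    rw [dG0, abs_mul]
    exact mul_le_mul (hR _ (hX l)).2 (dX l) (abs_nonneg _) hR0
  have key2 : ∀ l, |deriv (G1 X Y) l| ≤ K2 := by
    intro l
    rw [dG1]
    refine (abs_add_le _ _).trans (add_le_add ?_ ?_)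
    · rw [abs_mul, abs_mul]
      have h1 := (hP _ (hX l)).2
      have h2 := dX l
      have h3 : |Y l + a4_q (X l)| ≤ 6 + Q :=
        (abs_add_le _ _).trans (add_le_add (hY l) (hQ _ (hX l)).1)
      gcongr
    · rw [abs_mul]
      have h1 := (hP _ (hX l)).1
      have h3 : |deriv Y l + deriv a4_q (X l) * deriv X l| ≤ 12 + Q * 4 := by
        refine (abs_add_le _ _).trans (add_le_add (dY l) ?_)
        rw [abs_mul]
        exact mul_le_mul (hQ _ (hX l)).2 (dX l) (abs_nonneg _) hQ0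
      gcongr
  have hD0 : ∀ l : ℝ, 0 ≤ |Real.tanh (3 * l / 4)| ^ N
      + N * |Real.tanh (3 * l / 4)| ^ (N - 1) / Real.cosh (3 * l / 4) ^ 2 := by
    intro l
    have := Real.cosh_pos (3 * l / 4)
    positivity
  have key3 : ∀ l, |deriv (A1 N X) l| ≤ K3 * (|Real.tanh (3 * l / 4)| ^ N
      + N * |Real.tanh (3 * l / 4)| ^ (N - 1) / Real.cosh (3 * l / 4) ^ 2) := by
    intro l
    have hc := Real.cosh_pos (3 * l / 4)
    have hexp : Real.exp (be0 X l) ≤ E := Real.exp_le_exp.2 ((le_abs_self _).trans (bbe l))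
    rw [dA1]
    refine (abs_add_le _ _).trans ?_
    have h1 : |(N : ℝ) * Real.tanh (3 * l / 4) ^ (N - 1) * (3 / 4 / Real.cosh (3 * l / 4) ^ 2) *
        Real.exp (be0 X l)| ≤ K3 * (N * |Real.tanh (3 * l / 4)| ^ (N - 1) /
          Real.cosh (3 * l / 4) ^ 2) := by
      rw [abs_mul, abs_mul, abs_mul, abs_pow, Nat.abs_cast, abs_of_pos (Real.exp_pos _),
        abs_of_pos (by positivity : (0 : ℝ) < 3 / 4 / Real.cosh (3 * l / 4) ^ 2)]
      calc (N : ℝ) * |Real.tanh (3 * l / 4)| ^ (N - 1) * (3 / 4 / Real.cosh (3 * l / 4) ^ 2) *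
            Real.exp (be0 X l) ≤ (N : ℝ) * |Real.tanh (3 * l / 4)| ^ (N - 1) *
              (3 / 4 / Real.cosh (3 * l / 4) ^ 2) * E := by gcongr
        _ = 3 / 4 * E * (N * |Real.tanh (3 * l / 4)| ^ (N - 1) /
          Real.cosh (3 * l / 4) ^ 2) := by ring
        _ ≤ _ := by
          rw [hK3]
          gcongr
          norm_num
    have h2 : |Real.tanh (3 * l / 4) ^ N * (Real.exp (be0 X l) * deriv (be0 X) l)| ≤
        K3 * |Real.tanh (3 * l / 4)| ^ N := by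
      rw [abs_mul, abs_mul, abs_pow, abs_of_pos (Real.exp_pos _)]
      have h3 := dbe l
      calc |Real.tanh (3 * l / 4)| ^ N * (Real.exp (be0 X l) * |deriv (be0 X) l|) ≤
          |Real.tanh (3 * l / 4)| ^ N * (E * 3) := by gcongr
        _ = _ := by rw [hK3]; ring
    calc _ ≤ _ := add_le_add h1 h2
      _ = _ := by ring
  have key4 : ∀ l, |deriv (A2 N X B) l| ≤ K4 * (|Real.tanh (3 * l / 4)| ^ N
      + N * |Real.tanh (3 * l / 4)| ^ (N - 1) / Real.cosh (3 * l / 4) ^ 2) := by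
    intro l
    have hc := Real.cosh_pos (3 * l / 4)
    set D := |Real.tanh (3 * l / 4)| ^ N
      + N * |Real.tanh (3 * l / 4)| ^ (N - 1) / Real.cosh (3 * l / 4) ^ 2 with hD
    have hDl : |Real.tanh (3 * l / 4)| ^ N ≤ D := by
      rw [hD]
      have : 0 ≤ N * |Real.tanh (3 * l / 4)| ^ (N - 1) / Real.cosh (3 * l / 4) ^ 2 := by
        positivity
      linarith
    have k3 := key3 l
    rw [← hD] at k3
    have hA1l : |A1 N X l| ≤ 4 * D := by
      refine (hA1 l).trans ?_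
      have : 2 * Real.sqrt 3 ≤ 4 := by linarith
      calc 2 * Real.sqrt 3 * |Real.tanh (3 * l / 4)| ^ N ≤ 4 * |Real.tanh (3 * l / 4)| ^ N := by
            gcongr
        _ ≤ _ := by gcongr
    rw [dA2]
    have h1 : |deriv (A1 N X) l * B l| ≤ K3 * D * 2 := by
      rw [abs_mul]
      exact mul_le_mul k3 ((hB l).trans hs3) (abs_nonneg _) (by
        have := hD0 l
        rw [← hD] at this
        positivity)
    have h2 : |A1 N X l * deriv B l| ≤ 4 * D * 4 := by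
      rw [abs_mul]
      exact mul_le_mul hA1l (dB l) (abs_nonneg _) (by
        have := hD0 l
        rw [← hD] at this
        positivity)
    have h3 : |A1 N X l * deriv (A1 N X) l| ≤ 4 * (K3 * D) := by
      rw [abs_mul]
      exact mul_le_mul ((bA1 l).trans (by linarith)) k3 (abs_nonneg _) (by norm_num)
    calc |deriv (A1 N X) l * B l + A1 N X l * deriv B l - A1 N X l * deriv (A1 N X) l|
        ≤ |deriv (A1 N X) l * B l + A1 N X l * deriv B l| + |A1 N X l * deriv (A1 N X) l| :=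
          abs_sub _ _
      _ ≤ (|deriv (A1 N X) l * B l| + |A1 N X l * deriv B l|) + |A1 N X l * deriv (A1 N X) l| := by
          gcongr
          exact abs_add_le _ _
      _ ≤ (K3 * D * 2 + 4 * D * 4) + 4 * (K3 * D) := add_le_add (add_le_add h1 h2) h3
      _ = K4 * D := by rw [hK4]; ring
  have hK1' : 0 ≤ K1 := by positivity
  have hK2' : 0 ≤ K2 := by positivity
  have hK3' : 0 ≤ K3 := by positivity
  have hK4' : 0 ≤ K4 := by positivity
  refine ⟨fun l => (key1 l).trans (by linarith), fun l => (key2 l).trans (by linarith),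
    fun l => (key3 l).trans ?_, fun l => (key4 l).trans ?_⟩
  · exact mul_le_mul_of_nonneg_right (by linarith) (hD0 l)
  · exact mul_le_mul_of_nonneg_right (by linarith) (hD0 l)

end H906K
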