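import Pool.Agent.H906R3.K6.Defs2

/-! A5: the cross term -/

set_option autoImplicit false

namespace H906K
open MeasureTheory Set Filter Topology

private theorem a5_even (l : ℝ) : kk (-l) = kk l := by
  unfold kk
  rw [show 3 * -l / 2 = -(3 * l / 2) by ring, Real.cosh_neg]

private theorem a5_pos (l : ℝ) : 0 < kk l := by
  unfold kk
  have := Real.cosh_pos (3 * l / 2)
  positivity

private theorem a5_cont : Continuous kk := by
  unfold kk
  refine continuous_const.div (by fun_prop) (fun l => ?_)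
  have := Real.cosh_pos (3 * l / 2)
  positivity

private theorem a5_le (l : ℝ) : kk l ≤ 3 / (2 * Real.pi) * Real.exp (-(3 * |l| / 2)) := by
  unfold kk
  have h1 : Real.exp (3 * |l| / 2) / 2 ≤ Real.cosh (3 * l / 2) := by
    rw [← Real.cosh_abs, abs_div, abs_mul, abs_of_pos (by norm_num : (0 : ℝ) < 3),
      abs_of_pos (by norm_num : (0 : ℝ) < 2), Real.cosh_eq]
    have := (Real.exp_pos (-(3 * |l| / 2))).le
    linarith
  have h2 : 0 < Real.exp (3 * |l| / 2) := Real.exp_pos _
  have hpi := Real.pi_pos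
  rw [Real.exp_neg, ← div_eq_mul_inv, div_div]
  apply div_le_div_of_nonneg_left (by norm_num) (by positivity)
  nlinarith

private theorem a5_Iic : IntegrableOn (fun y : ℝ => Real.exp (-(3 * |y| / 2))) (Iic 0) ∧
    ∫ y in Iic (0 : ℝ), Real.exp (-(3 * |y| / 2)) = 2 / 3 := by
  have e : EqOn (fun y : ℝ => Real.exp (3 / 2 * y)) (fun y : ℝ => Real.exp (-(3 * |y| / 2)))
      (Iic 0) := by
    intro y hy
    simp only
    rw [abs_of_nonpos hy]
    ring_nf
  refine ⟨(integrableOn_exp_mul_Iic (by norm_num : (0 : ℝ) < 3 / 2) 0).congr_fun e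
    measurableSet_Iic, ?_⟩
  rw [← setIntegral_congr_fun measurableSet_Iic e, integral_exp_mul_Iic (by norm_num)]
  norm_num

private theorem a5_Ioi : IntegrableOn (fun y : ℝ => Real.exp (-(3 * |y| / 2))) (Ioi 0) ∧
    ∫ y in Ioi (0 : ℝ), Real.exp (-(3 * |y| / 2)) = 2 / 3 := by
  have e : EqOn (fun y : ℝ => Real.exp (-(3 / 2) * y)) (fun y : ℝ => Real.exp (-(3 * |y| / 2)))
      (Ioi 0) := by
    intro y hy
    simp only
    rw [abs_of_pos hy]
    ring_nf
  refine ⟨(integrableOn_exp_mul_Ioi (by norm_num : (-(3 / 2) : ℝ) < 0) 0).congr_fun e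
    measurableSet_Ioi, ?_⟩
  rw [← setIntegral_congr_fun measurableSet_Ioi e, integral_exp_mul_Ioi (by norm_num)]
  norm_num

private theorem a5_expint : Integrable (fun y : ℝ => Real.exp (-(3 * |y| / 2))) := by
  rw [← integrableOn_univ, ← Iic_union_Ioi (a := (0 : ℝ))]
  exact a5_Iic.1.union a5_Ioi.1

private theorem a5_int : Integrable kk := by
  refine (a5_expint.const_mul (3 / (2 * Real.pi))).mono' a5_cont.aestronglyMeasurable
    (ae_of_all _ fun l => ?_)
  rw [Real.norm_eq_abs, abs_of_pos (a5_pos l)]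
  exact a5_le l

private noncomputable def a5H (f g : ℝ → ℝ) (l u : ℝ) : ℝ :=
  kk (l - u) * (f l * deriv g u - deriv f l * g u)

private theorem a5_intH {f g : ℝ → ℝ} {Kf Kg : ℝ} (hf : Nice f) (hg : Nice g)
    (hKf : ∀ l, |f l| ≤ Kf) (hKg : ∀ l, |g l| ≤ Kg) :
    Integrable (Function.uncurry (a5H f g)) ((volume : Measure ℝ).prod volume) := by
  have e1 : Integrable (fun p : ℝ × ℝ => deriv g p.2 * kk (p.1 - p.2))
      ((volume : Measure ℝ).prod volume) :=
    Integrable.convolution_integrand (ContinuousLinearMap.mul ℝ ℝ) hg.2.2 a5_int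
  have e2 : Integrable (fun p : ℝ × ℝ => deriv f p.1 * kk (p.1 - p.2))
      ((volume : Measure ℝ).prod volume) := by
    have := (Integrable.convolution_integrand (μ := (volume : Measure ℝ))
      (ν := (volume : Measure ℝ)) (ContinuousLinearMap.mul ℝ ℝ) hf.2.2 a5_int).swap
    refine this.congr (ae_of_all _ fun p => ?_)
    simp only [Function.comp, Prod.swap, ContinuousLinearMap.mul_apply']
    rw [← a5_even (p.2 - p.1), neg_sub]
  have e3 : Integrable (fun p : ℝ × ℝ => f p.1 * (deriv g p.2 * kk (p.1 - p.2)))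
      ((volume : Measure ℝ).prod volume) :=
    e1.bdd_mul (c := Kf) (hf.1.continuous.comp continuous_fst).aestronglyMeasurable
      (ae_of_all _ fun p => hKf p.1)
  have e4 : Integrable (fun p : ℝ × ℝ => g p.2 * (deriv f p.1 * kk (p.1 - p.2)))
      ((volume : Measure ℝ).prod volume) :=
    e2.bdd_mul (c := Kg) (hg.1.continuous.comp continuous_snd).aestronglyMeasurable
      (ae_of_all _ fun p => hKg p.2)
  refine (e3.sub e4).congr (ae_of_all _ fun p => ?_)
  simp only [a5H, Function.uncurry, Pi.sub_apply]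
  ring

private theorem a5_kkint (l : ℝ) : Integrable (fun u => kk (l - u)) :=
  (a5_int.comp_sub_left l)

private theorem a5_bdk (u : ℝ) : ‖kk u‖ ≤ 3 / (2 * Real.pi) := by
  rw [Real.norm_eq_abs, abs_of_pos (a5_pos u)]
  refine (a5_le u).trans ?_
  have h1 : Real.exp (-(3 * |u| / 2)) ≤ 1 := by
    rw [Real.exp_le_one_iff]
    have := abs_nonneg u
    linarith
  have h2 : (0 : ℝ) ≤ 3 / (2 * Real.pi) := by positivity
  nlinarith

/-- bounded times kernel -/
private theorem a5_i1 {g : ℝ → ℝ} {K : ℝ} (hg : Continuous g) (hK : ∀ l, |g l| ≤ K) (l : ℝ) :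
    Integrable (fun u => kk (l - u) * g u) :=
  (a5_kkint l).mul_bdd (c := K) hg.aestronglyMeasurable (ae_of_all _ hK)

/-- integrable times kernel -/
private theorem a5_i2 {g : ℝ → ℝ} (hg : Integrable g) (l : ℝ) :
    Integrable (fun u => kk (l - u) * g u) :=
  hg.bdd_mul (c := 3 / (2 * Real.pi))
    (a5_cont.comp (continuous_const.sub continuous_id)).aestronglyMeasurable
    (ae_of_all _ fun _ => a5_bdk _)

private theorem a5_row {f g : ℝ → ℝ} {Kg : ℝ} (hg : Nice g)
    (hKg : ∀ l, |g l| ≤ Kg) (l : ℝ) :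
    Integrable (fun u => a5H f g l u) ∧
    f l * (∫ u : ℝ, kk (l - u) * deriv g u) - deriv f l * (∫ u : ℝ, kk (l - u) * g u)
      = ∫ u, a5H f g l u := by
  have i1 := (a5_i2 hg.2.2 l).const_mul (f l)
  have i2 := (a5_i1 hg.1.continuous hKg l).const_mul (deriv f l)
  have e : (fun u => a5H f g l u) = fun u => f l * (kk (l - u) * deriv g u)
      - deriv f l * (kk (l - u) * g u) := by
    funext u
    unfold a5H
    ring
  rw [e]
  refine ⟨i1.sub i2, ?_⟩
  rw [integral_sub i1 i2, integral_const_mul, integral_const_mul]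

private theorem a5_col {f g : ℝ → ℝ} {Kf : ℝ} (hf : Nice f)
    (hKf : ∀ l, |f l| ≤ Kf) (l : ℝ) :
    Integrable (fun u => a5H f g u l) ∧
    (∫ u : ℝ, kk (l - u) * f u) * deriv g l - (∫ u : ℝ, kk (l - u) * deriv f u) * g l
      = ∫ u, a5H f g u l := by
  have i1 := (a5_i1 hf.1.continuous hKf l).mul_const (deriv g l)
  have i2 := (a5_i2 hf.2.2 l).mul_const (g l)
  have e : (fun u => a5H f g u l) = fun u => (kk (l - u) * f u) * deriv g l
      - (kk (l - u) * deriv f u) * g l := by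
    funext u
    unfold a5H
    rw [← a5_even (u - l), neg_sub]
    ring
  rw [e]
  refine ⟨i1.sub i2, ?_⟩
  rw [integral_sub i1 i2, integral_mul_const, integral_mul_const]

private theorem a5_bd {f g : ℝ → ℝ} {Kg Kg' : ℝ} (hKg : ∀ l, |g l| ≤ Kg)
    (hKg' : ∀ l, |deriv g l| ≤ Kg') (x y : ℝ) (h : |x - y| = |x| + |y|) :
    ‖a5H f g x y‖ ≤ (|f x| * Kg' + |deriv f x| * Kg) * (3 / (2 * Real.pi)
      * Real.exp (-(3 * |x| / 2))) * Real.exp (-(3 * |y| / 2)) := by
  unfold a5H
  rw [norm_mul, Real.norm_eq_abs, Real.norm_eq_abs, abs_of_pos (a5_pos _)]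
  have h1 : kk (x - y) ≤ 3 / (2 * Real.pi) * Real.exp (-(3 * |x| / 2))
      * Real.exp (-(3 * |y| / 2)) := by
    refine (a5_le _).trans (le_of_eq ?_)
    rw [h, mul_assoc, ← Real.exp_add]
    ring_nf
  have h2 : |f x * deriv g y - deriv f x * g y| ≤ |f x| * Kg' + |deriv f x| * Kg := by
    refine (abs_sub _ _).trans ?_
    rw [abs_mul, abs_mul]
    exact add_le_add (mul_le_mul_of_nonneg_left (hKg' y) (abs_nonneg _))
      (mul_le_mul_of_nonneg_left (hKg y) (abs_nonneg _))
  calc kk (x - y) * |f x * deriv g y - deriv f x * g y|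
      ≤ (3 / (2 * Real.pi) * Real.exp (-(3 * |x| / 2)) * Real.exp (-(3 * |y| / 2)))
        * (|f x| * Kg' + |deriv f x| * Kg) :=
        mul_le_mul h1 h2 (abs_nonneg _) (by positivity)
    _ = _ := by ring

private theorem a5_half {f g : ℝ → ℝ} {Kg Kg' : ℝ} (hKg : ∀ l, |g l| ≤ Kg)
    (hKg' : ∀ l, |deriv g l| ≤ Kg') (x : ℝ) (S : Set ℝ) (hS : MeasurableSet S)
    (h : ∀ y ∈ S, |x - y| = |x| + |y|)
    (hSi : IntegrableOn (fun y : ℝ => Real.exp (-(3 * |y| / 2))) S)
    (hSv : ∫ y in S, Real.exp (-(3 * |y| / 2)) = 2 / 3) :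
    ‖∫ y in S, a5H f g x y‖ ≤ (|f x| * Kg' + |deriv f x| * Kg) * Real.exp (-(3 * |x| / 2)) := by
  have hK0 : 0 ≤ Kg := (abs_nonneg _).trans (hKg 0)
  have hK0' : 0 ≤ Kg' := (abs_nonneg _).trans (hKg' 0)
  refine (norm_integral_le_of_norm_le (hSi.const_mul ((|f x| * Kg' + |deriv f x| * Kg)
    * (3 / (2 * Real.pi) * Real.exp (-(3 * |x| / 2))))) ?_).trans ?_
  · rw [ae_restrict_iff' hS]
    exact ae_of_all _ fun y hy => a5_bd hKg hKg' x y (h y hy)
  · rw [integral_const_mul, hSv]
    have h3 : 3 / (2 * Real.pi) * (2 / 3) ≤ (1 : ℝ) := by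
      have : 3 / (2 * Real.pi) * (2 / 3) = 1 / Real.pi := by
        field_simp
      rw [this, div_le_one Real.pi_pos]
      linarith [Real.pi_gt_three]
    have h4 : 0 ≤ (|f x| * Kg' + |deriv f x| * Kg) * Real.exp (-(3 * |x| / 2)) := by
      positivity
    calc _ = ((|f x| * Kg' + |deriv f x| * Kg) * Real.exp (-(3 * |x| / 2)))
          * (3 / (2 * Real.pi) * (2 / 3)) := by ring
      _ ≤ ((|f x| * Kg' + |deriv f x| * Kg) * Real.exp (-(3 * |x| / 2))) * 1 :=
        mul_le_mul_of_nonneg_left h3 h4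
      _ = _ := by ring

theorem Del_le (f g : ℝ → ℝ) (Kf Kg Kg' : ℝ) (hf : Nice f) (hg : Nice g)
    (hKf : ∀ l, |f l| ≤ Kf) (hKg : ∀ l, |g l| ≤ Kg) (hKg' : ∀ l, |deriv g l| ≤ Kg') :
    |Del f g| ≤ ∫ l : ℝ, (|f l| * Kg' + |deriv f l| * Kg) * Real.exp (-(3 * |l| / 2)) := by
  have hH := a5_intH hf hg hKf hKg
  have hr : ∀ S T : Set ℝ, Integrable (Function.uncurry (a5H f g))
      ((volume.restrict S).prod (volume.restrict T)) := by
    intro S T
    rw [Measure.prod_restrict]
    exact hH.restrict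
  have hr' : ∀ S T : Set ℝ, Integrable (Function.uncurry (fun l u => a5H f g u l))
      ((volume.restrict S).prod (volume.restrict T)) := by
    intro S T
    exact (hr T S).swap
  -- the bound is integrable
  have hE : Integrable (fun l : ℝ => (|f l| * Kg' + |deriv f l| * Kg)
      * Real.exp (-(3 * |l| / 2))) := by
    have i1 : Integrable (fun l : ℝ => |f l| * Kg' * Real.exp (-(3 * |l| / 2))) :=
      a5_expint.bdd_mul (c := Kf * |Kg'|)
        (hf.1.continuous.abs.mul continuous_const).aestronglyMeasurable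
        (ae_of_all _ fun l => by
          rw [norm_mul, Real.norm_eq_abs, Real.norm_eq_abs, abs_abs]
          exact mul_le_mul_of_nonneg_right (hKf l) (abs_nonneg _))
    have i2 : Integrable (fun l : ℝ => |deriv f l| * Kg * Real.exp (-(3 * |l| / 2))) :=
      (hf.2.2.abs.mul_const Kg).mul_bdd (c := 1)
        (by fun_prop : Continuous fun l : ℝ => Real.exp (-(3 * |l| / 2))).aestronglyMeasurable
        (ae_of_all _ fun l => by
          rw [Real.norm_eq_abs, Real.abs_exp, Real.exp_le_one_iff]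
          have := abs_nonneg l
          linarith)
    refine (i1.add i2).congr (ae_of_all _ fun l => ?_)
    simp only [Pi.add_apply]
    ring
  -- rewrite `Del`
  have hD : Del f g = (∫ l in Ioi (0 : ℝ), ∫ u in Iic (0 : ℝ), a5H f g l u)
      - ∫ l in Iic (0 : ℝ), ∫ u in Ioi (0 : ℝ), a5H f g l u := by
    unfold Del
    have s1 : ∀ l, f l * (∫ u : ℝ, kk (l - u) * deriv g u)
        - deriv f l * (∫ u : ℝ, kk (l - u) * g u)
        = (∫ u in Iic (0 : ℝ), a5H f g l u) + ∫ u in Ioi (0 : ℝ), a5H f g l u := by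
      intro l
      obtain ⟨h1, h2⟩ := a5_row (f := f) hg hKg l
      rw [h2, intervalIntegral.integral_Iic_add_Ioi h1.integrableOn h1.integrableOn]
    have s2 : ∀ l, (∫ u : ℝ, kk (l - u) * f u) * deriv g l
        - (∫ u : ℝ, kk (l - u) * deriv f u) * g l
        = (∫ u in Iic (0 : ℝ), a5H f g u l) + ∫ u in Ioi (0 : ℝ), a5H f g u l := by
      intro l
      obtain ⟨h1, h2⟩ := a5_col (g := g) hf hKf l
      rw [h2, intervalIntegral.integral_Iic_add_Ioi h1.integrableOn h1.integrableOn]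
    simp_rw [s1, s2]
    have ia : ∀ S T : Set ℝ, IntegrableOn (fun l => ∫ u in T, a5H f g l u) S :=
      fun S T => (hr S T).integral_prod_left
    have ib : ∀ S T : Set ℝ, IntegrableOn (fun l => ∫ u in T, a5H f g u l) S :=
      fun S T => (hr' S T).integral_prod_left
    rw [integral_add (ia (Ioi 0) (Iic 0)) (ia (Ioi 0) (Ioi 0)),
      integral_add (ib (Ioi 0) (Iic 0)) (ib (Ioi 0) (Ioi 0)),
      integral_integral_swap (hr' (Ioi 0) (Iic 0)), integral_integral_swap (hr' (Ioi 0) (Ioi 0))]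
    ring
  rw [hD, ← intervalIntegral.integral_Iic_add_Ioi (b := (0 : ℝ)) hE.integrableOn hE.integrableOn]
  refine (abs_sub _ _).trans ?_
  rw [add_comm]
  refine add_le_add ?_ ?_
  · rw [← Real.norm_eq_abs]
    refine norm_integral_le_of_norm_le hE.integrableOn ?_
    rw [ae_restrict_iff' measurableSet_Iic]
    refine ae_of_all _ fun x hx => a5_half hKg hKg' x (Ioi 0) measurableSet_Ioi ?_ a5_Ioi.1 a5_Ioi.2
    intro y hy
    have hx' : x ≤ 0 := hx
    have hy' : 0 < y := hy
    rw [abs_of_nonpos hx', abs_of_pos hy', abs_of_nonpos (by linarith)]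
    ring
  · rw [← Real.norm_eq_abs]
    refine norm_integral_le_of_norm_le hE.integrableOn ?_
    rw [ae_restrict_iff' measurableSet_Ioi]
    refine ae_of_all _ fun x hx => a5_half hKg hKg' x (Iic 0) measurableSet_Iic ?_ a5_Iic.1 a5_Iic.2
    intro y hy
    have hx' : 0 < x := hx
    have hy' : y ≤ 0 := hy
    rw [abs_of_pos hx', abs_of_nonpos hy', abs_of_nonneg (by linarith)]
    ring

end H906K
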