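import Pool.Agent.H906R3.K6.Defs

/-! Shared definitions (split from the blueprint `Stubs.lean`). -/

namespace H906K
open Pool.Agent.H974R3 Polynomial MeasureTheory Filter Topology

/-- properties of the eigenvalue -/
structure TSpec (n : ℕ) (t : (PowerSeries ℂ)[X]) : Prop where
  deg : t.natDegree ≤ 2 * n + 1
  const : ∀ j, PowerSeries.coeff 0 (t.coeff j) = ((2 * n + 1).choose j : ℂ)
  bot : t.coeff 0 = -PowerSeries.C (om ^ 2) * expI (2 * n + 1)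
    - PowerSeries.C om * expI (-(2 * n + 1))
  top : t.coeff (2 * n + 1) = -PowerSeries.C om * expI (2 * n + 1)
    - PowerSeries.C (om ^ 2) * expI (-(2 * n + 1))
  fus : t.comp (C (PowerSeries.C om) * X) * t.comp (C (PowerSeries.C (om ^ 2)) * X) * t
      = ((1 + C (PowerSeries.C om) * X) * (1 + C (PowerSeries.C (om ^ 2)) * X)) ^ (2 * n + 1) * t
        + ((1 + C (PowerSeries.C (om ^ 2)) * X) * (1 + X)) ^ (2 * n + 1)
            * t.comp (C (PowerSeries.C om) * X)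
        + ((1 + X) * (1 + C (PowerSeries.C om) * X)) ^ (2 * n + 1)
            * t.comp (C (PowerSeries.C (om ^ 2)) * X)
        - (1 + X ^ 3) ^ (2 * n + 1) * C (expI (3 * (2 * n + 1)) + expI (-(3 * (2 * n + 1))))
  div : (1 + X) ^ (2 * n + 1) ∣ t.comp (C (PowerSeries.C om) * X)
      * t.comp (C (PowerSeries.C (om ^ 2)) * X)
      - ((1 + C (PowerSeries.C om) * X) * (1 + C (PowerSeries.C (om ^ 2)) * X)) ^ (2 * n + 1)

/-- the difference of the two bilinear expressions on the half line -/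
noncomputable def Del (f g : ℝ → ℝ) : ℝ :=
  (∫ l in Set.Ioi (0 : ℝ), (f l * (∫ u : ℝ, kk (l - u) * deriv g u)
      - deriv f l * (∫ u : ℝ, kk (l - u) * g u)))
  - ∫ l in Set.Ioi (0 : ℝ), ((∫ u : ℝ, kk (l - u) * f u) * deriv g l
      - (∫ u : ℝ, kk (l - u) * deriv f u) * g l)

/-- the same data with real coefficients; `V1`, `V2` are the quotients in `div1`, `div2` -/
structure RPert (n : ℕ) (t1 t2 V1 V2 : ℝ[X]) : Prop where
  pert : Pert n (t1.map (algebraMap ℝ ℂ)) (t2.map (algebraMap ℝ ℂ))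
  d1 : ∀ x : ℂ, (t1.map (algebraMap ℝ ℂ)).eval (om * x) * (1 + om ^ 2 * x) ^ (2 * n + 1)
      + (t1.map (algebraMap ℝ ℂ)).eval (om ^ 2 * x) * (1 + om * x) ^ (2 * n + 1)
      = (1 + x) ^ (2 * n + 1) * (V1.map (algebraMap ℝ ℂ)).eval x
  d2 : ∀ x : ℂ, (t2.map (algebraMap ℝ ℂ)).eval (om * x) * (1 + om ^ 2 * x) ^ (2 * n + 1)
      + (t2.map (algebraMap ℝ ℂ)).eval (om ^ 2 * x) * (1 + om * x) ^ (2 * n + 1)
      + (t1.map (algebraMap ℝ ℂ)).eval (om * x) * (t1.map (algebraMap ℝ ℂ)).eval (om ^ 2 * x)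
      = (1 + x) ^ (2 * n + 1) * (V2.map (algebraMap ℝ ℂ)).eval x
  degV1 : V1.natDegree = 2 * n + 1
  degV2 : V2.natDegree ≤ 2 * n + 1
  neg : V1.coeff 0 < 0
  roots : ∀ z : ℂ, (V1.map (algebraMap ℝ ℂ)).eval z = 0 → ∃ r : ℝ, 0 < r ∧ z = r

/-- the complex functions `X`, `y`, `B`, `h` -/
noncomputable def Xc (n : ℕ) (t : ℝ[X]) (z : ℂ) : ℂ :=
  (t.map (algebraMap ℝ ℂ)).eval (Complex.exp z) / (1 + Complex.exp z) ^ (2 * n + 1)
noncomputable def Bc (V1 V2 : ℝ[X]) (z : ℂ) : ℂ :=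
  (V2.map (algebraMap ℝ ℂ)).eval (-Complex.exp z) / (V1.map (algebraMap ℝ ℂ)).eval (-Complex.exp z)
/-- `p = e^{z/2}`; `hc = (X_+ + X_-) / tanh(3z/4)^(2n+1)` -/
noncomputable def hc (n : ℕ) (V1 : ℝ[X]) (z : ℂ) : ℂ :=
  -(V1.map (algebraMap ℝ ℂ)).eval (-Complex.exp z)
    * ((Complex.exp (z / 2) + 1) * (Complex.exp (z / 2) ^ 3 + 1)
      / ((Complex.exp (z / 2) ^ 2 + Complex.exp (z / 2) + 1)
        * (1 + Complex.exp z + Complex.exp z ^ 2))) ^ (2 * n + 1)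

end H906K
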