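import Mathlib
import Pool.Agent.H906R3.K6.Defs2

/-! Task A6: decay integrals. Formalised by helper177. -/

namespace H906K

open MeasureTheory Filter Topology Set

theorem a6_hasDeriv (a : ℝ) (ha : 0 < a) (l : ℝ) :
    HasDerivAt (fun l : ℝ => 2 / (3 * a) * Real.exp (-(a * Real.exp (-(3 * l / 2)))))
      (Real.exp (-(3 * l / 2)) * Real.exp (-(a * Real.exp (-(3 * l / 2))))) l := by
  have h1 : HasDerivAt (fun l : ℝ => -(3 * l / 2)) (-(3 * 1 / 2)) l :=
    (((hasDerivAt_id l).const_mul 3).div_const 2).neg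
  have h2 := h1.exp
  have h3 := ((h2.const_mul a).neg.exp).const_mul (2 / (3 * a))
  refine h3.congr_deriv ?_
  field_simp
  rfl

theorem a6_tendsto (a : ℝ) :
    Tendsto (fun l : ℝ => 2 / (3 * a) * Real.exp (-(a * Real.exp (-(3 * l / 2))))) atTop
      (𝓝 (2 / (3 * a))) := by
  have h1 : Tendsto (fun l : ℝ => 3 * l / 2) atTop atTop := by
    have : (fun l : ℝ => 3 * l / 2) = fun l => (3 / 2 : ℝ) * l := by
      funext l
      ring
    rw [this]
    exact tendsto_id.const_mul_atTop (by norm_num)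
  have h2 : Tendsto (fun l : ℝ => Real.exp (-(3 * l / 2))) atTop (𝓝 0) :=
    Real.tendsto_exp_neg_atTop_nhds_zero.comp h1
  have h3 : Tendsto (fun l : ℝ => Real.exp (-(a * Real.exp (-(3 * l / 2))))) atTop
      (𝓝 (Real.exp (-(a * 0)))) := (Real.continuous_exp.tendsto _).comp (h2.const_mul a).neg
  have h4 := h3.const_mul (2 / (3 * a))
  simpa using h4

theorem a6_phi_integrable (a : ℝ) (ha : 0 < a) :
    IntegrableOn (fun l : ℝ => Real.exp (-(3 * l / 2)) *
      Real.exp (-(a * Real.exp (-(3 * l / 2))))) (Ioi 0) :=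
  integrableOn_Ioi_deriv_of_nonneg' (fun l _ => a6_hasDeriv a ha l)
    (fun l _ => by positivity) (a6_tendsto a)

theorem a6_phi_int (a : ℝ) (ha : 0 < a) :
    ∫ l in Ioi (0 : ℝ), Real.exp (-(3 * l / 2)) *
      Real.exp (-(a * Real.exp (-(3 * l / 2)))) ≤ 2 / (3 * a) := by
  rw [integral_Ioi_of_hasDerivAt_of_nonneg' (fun l _ => a6_hasDeriv a ha l)
    (fun l _ => by positivity) (a6_tendsto a)]
  have : 0 < 2 / (3 * a) * Real.exp (-(a * Real.exp (-(3 * (0 : ℝ) / 2)))) := by positivity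
  linarith

/-- domination on the half line -/
theorem a6_dom (a C : ℝ) (ha : 0 < a) (hC : 0 ≤ C) (f : ℝ → ℝ) (h0 : ∀ l, 0 < l → 0 ≤ f l)
    (h : ∀ l, 0 < l → f l ≤ C * (Real.exp (-(3 * l / 2)) *
      Real.exp (-(a * Real.exp (-(3 * l / 2)))))) :
    ∫ l in Ioi (0 : ℝ), f l ≤ C * (2 / (3 * a)) := by
  calc ∫ l in Ioi (0 : ℝ), f l ≤ ∫ l in Ioi (0 : ℝ), C * (Real.exp (-(3 * l / 2)) *
        Real.exp (-(a * Real.exp (-(3 * l / 2))))) := by
        refine integral_mono_of_nonneg ?_ ((a6_phi_integrable a ha).const_mul C) ?_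
        · exact (ae_restrict_mem measurableSet_Ioi).mono fun l hl => h0 l hl
        · exact (ae_restrict_mem measurableSet_Ioi).mono fun l hl => h l hl
    _ = C * ∫ l in Ioi (0 : ℝ), (Real.exp (-(3 * l / 2)) *
        Real.exp (-(a * Real.exp (-(3 * l / 2))))) := integral_const_mul _ _
    _ ≤ C * (2 / (3 * a)) := mul_le_mul_of_nonneg_left (a6_phi_int a ha) hC

theorem a6_tanh (l : ℝ) : Real.tanh (3 * l / 4) =
    (1 - Real.exp (-(3 * l / 2))) / (1 + Real.exp (-(3 * l / 2))) := by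
  rw [Real.tanh_eq_sinh_div_cosh, Real.sinh_eq, Real.cosh_eq]
  have h : Real.exp (-(3 * l / 2)) = Real.exp (-(3 * l / 4)) * Real.exp (-(3 * l / 4)) := by
    rw [← Real.exp_add]
    congr 1
    ring
  have h2 : Real.exp (3 * l / 4) * Real.exp (-(3 * l / 4)) = 1 := by
    rw [← Real.exp_add]
    simp
  have h3 : 0 < Real.exp (3 * l / 4) := Real.exp_pos _
  have h4 : 0 < Real.exp (-(3 * l / 4)) := Real.exp_pos _
  rw [h, div_eq_div_iff (by positivity) (by positivity)]
  linear_combination (Real.exp (-(3 * l / 4))) * h2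

theorem a6_ineq {w : ℝ} (hw : 0 ≤ w) : 1 - w ≤ (1 + w) * Real.exp (-(2 * w)) := by
  have hd : ∀ x : ℝ, HasDerivAt (fun x : ℝ => (1 + x) * Real.exp (-(2 * x)) + x)
      (1 * Real.exp (-(2 * x)) + (1 + x) * (Real.exp (-(2 * x)) * (-(2 * 1))) + 1) x := by
    intro x
    have h1 : HasDerivAt (fun x : ℝ => 1 + x) 1 x := (hasDerivAt_id x).const_add 1
    have h2 : HasDerivAt (fun x : ℝ => -(2 * x)) (-(2 * 1)) x :=
      ((hasDerivAt_id x).const_mul 2).neg
    exact (h1.mul h2.exp).add (hasDerivAt_id x)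
  have hmono : MonotoneOn (fun x : ℝ => (1 + x) * Real.exp (-(2 * x)) + x) (Ici 0) := by
    refine monotoneOn_of_deriv_nonneg (convex_Ici 0) ?_ ?_ ?_
    · exact fun x _ => (hd x).continuousAt.continuousWithinAt
    · exact fun x _ => (hd x).differentiableAt.differentiableWithinAt
    · intro x hx
      rw [interior_Ici] at hx
      rw [(hd x).deriv]
      have h1 : 2 * x + 1 ≤ Real.exp (2 * x) := Real.add_one_le_exp _
      have h2 : Real.exp (2 * x) * Real.exp (-(2 * x)) = 1 := by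
        rw [← Real.exp_add]
        simp
      have h3 : 0 < Real.exp (-(2 * x)) := Real.exp_pos _
      nlinarith [mul_le_mul_of_nonneg_right h1 h3.le]
  have := hmono (self_mem_Ici) (mem_Ici.mpr hw) hw
  simp only [add_zero, mul_zero, neg_zero, Real.exp_zero, mul_one] at this
  linarith

theorem a6_tanh_le {l : ℝ} : Real.tanh (3 * l / 4) ≤
    Real.exp (-(2 * Real.exp (-(3 * l / 2)))) := by
  rw [a6_tanh, div_le_iff₀ (by positivity)]
  have := a6_ineq (w := Real.exp (-(3 * l / 2))) (by positivity)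
  linarith

theorem a6_tanh_nonneg {l : ℝ} (hl : 0 ≤ l) : 0 ≤ Real.tanh (3 * l / 4) := by
  rw [a6_tanh]
  have h : Real.exp (-(3 * l / 2)) ≤ 1 := by
    rw [Real.exp_le_one_iff]
    linarith
  exact div_nonneg (by linarith) (by positivity)

theorem a6_tanh_pow_le {l : ℝ} (hl : 0 ≤ l) (M : ℕ) : Real.tanh (3 * l / 4) ^ M ≤
    Real.exp (-(2 * M * Real.exp (-(3 * l / 2)))) := by
  calc Real.tanh (3 * l / 4) ^ M ≤ Real.exp (-(2 * Real.exp (-(3 * l / 2)))) ^ M :=
        pow_le_pow_left₀ (a6_tanh_nonneg hl) a6_tanh_le M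
    _ = Real.exp (-(2 * M * Real.exp (-(3 * l / 2)))) := by
        rw [← Real.exp_nat_mul]
        congr 1
        ring

theorem a6_wexp {b w : ℝ} (hb : 0 < b) : w * Real.exp (-(b * w)) ≤ 1 / b := by
  rw [le_div_iff₀ hb]
  have h1 : b * w + 1 ≤ Real.exp (b * w) := Real.add_one_le_exp _
  have h2 : Real.exp (b * w) * Real.exp (-(b * w)) = 1 := by
    rw [← Real.exp_add]
    simp
  have h3 : 0 < Real.exp (-(b * w)) := Real.exp_pos _
  nlinarith [mul_le_mul_of_nonneg_right h1 h3.le]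

theorem a6_cosh {l : ℝ} : 1 / Real.cosh (3 * l / 4) ^ 2 ≤ 4 * Real.exp (-(3 * l / 2)) := by
  have hc : 0 < Real.cosh (3 * l / 4) := Real.cosh_pos _
  rw [div_le_iff₀ (by positivity), Real.cosh_eq]
  have h : Real.exp (-(3 * l / 2)) = Real.exp (-(3 * l / 4)) ^ 2 := by
    rw [← Real.exp_nat_mul]
    congr 1
    push_cast
    ring
  have h2 : Real.exp (3 * l / 4) * Real.exp (-(3 * l / 4)) = 1 := by
    rw [← Real.exp_add]
    simp
  have h4 : 0 < Real.exp (-(3 * l / 4)) := Real.exp_pos _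
  rw [h]
  have e : 4 * Real.exp (-(3 * l / 4)) ^ 2 *
      ((Real.exp (3 * l / 4) + Real.exp (-(3 * l / 4))) / 2) ^ 2 =
      (Real.exp (3 * l / 4) * Real.exp (-(3 * l / 4)) + Real.exp (-(3 * l / 4)) ^ 2) ^ 2 := by
    ring
  rw [e, h2]
  nlinarith [sq_nonneg (Real.exp (-(3 * l / 4))), sq_nonneg (Real.exp (-(3 * l / 4)) ^ 2)]

theorem a6_abs_tanh (l : ℝ) : |Real.tanh (3 * l / 4)| = Real.tanh (3 * |l| / 4) := by
  rcases le_total 0 l with h | h
  · rw [abs_of_nonneg h, abs_of_nonneg (a6_tanh_nonneg h)]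
  · rw [abs_of_nonpos h]
    have h1 : Real.tanh (3 * -l / 4) = -Real.tanh (3 * l / 4) := by
      rw [← Real.tanh_neg]
      congr 1
      ring
    have h2 := a6_tanh_nonneg (l := -l) (by linarith)
    rw [h1] at h2 ⊢
    rw [abs_of_nonpos (by linarith)]

theorem a6_cosh_abs (l : ℝ) : Real.cosh (3 * l / 4) = Real.cosh (3 * |l| / 4) := by
  rcases le_total 0 l with h | h
  · rw [abs_of_nonneg h]
  · rw [abs_of_nonpos h, ← Real.cosh_neg]
    congr 1
    ring

theorem a6_first {N : ℕ} (hN : 2 ≤ N) :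
    (∫ l : ℝ, |Real.tanh (3 * l / 4)| ^ N * Real.exp (-(3 * |l| / 2))) ≤ 64 / N := by
  have hNr : (2 : ℝ) ≤ N := by exact_mod_cast hN
  have e : (fun l : ℝ => |Real.tanh (3 * l / 4)| ^ N * Real.exp (-(3 * |l| / 2))) =
      fun l : ℝ => (fun x : ℝ => Real.tanh (3 * x / 4) ^ N * Real.exp (-(3 * x / 2))) |l| := by
    funext l
    simp only
    rw [a6_abs_tanh]
  rw [e, integral_comp_abs
    (f := fun x : ℝ => Real.tanh (3 * x / 4) ^ N * Real.exp (-(3 * x / 2)))]
  have h := a6_dom (2 * N) 1 (by linarith) zero_le_one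
    (fun x : ℝ => Real.tanh (3 * x / 4) ^ N * Real.exp (-(3 * x / 2)))
    (fun l hl => mul_nonneg (pow_nonneg (a6_tanh_nonneg hl.le) _) (Real.exp_pos _).le)
    (fun l hl => by
      rw [one_mul, mul_comm]
      exact mul_le_mul_of_nonneg_left (a6_tanh_pow_le hl.le N) (Real.exp_pos _).le)
  have h2 : 2 * (1 * (2 / (3 * (2 * (N : ℝ))))) ≤ 64 / N := by
    rw [show 2 * (1 * (2 / (3 * (2 * (N : ℝ))))) = (2 / 3) / N by field_simp]
    exact div_le_div_of_nonneg_right (by norm_num) (by linarith)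
  linarith

theorem a6_second {N : ℕ} (hN : 2 ≤ N) :
    (∫ l : ℝ, N * |Real.tanh (3 * l / 4)| ^ (N - 1) / Real.cosh (3 * l / 4) ^ 2
      * Real.exp (-(3 * |l| / 2))) ≤ 64 / N := by
  have hNr : (2 : ℝ) ≤ N := by exact_mod_cast hN
  have hcast : ((N - 1 : ℕ) : ℝ) = N - 1 := by
    rw [Nat.cast_sub (by omega)]
    simp
  set a : ℝ := (N : ℝ) - 1 with ha
  have ha2 : (N : ℝ) / 2 ≤ a := by rw [ha]; linarith
  have ha0 : 0 < a := by linarith
  have e : (fun l : ℝ => N * |Real.tanh (3 * l / 4)| ^ (N - 1) / Real.cosh (3 * l / 4) ^ 2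
      * Real.exp (-(3 * |l| / 2))) =
      fun l : ℝ => (fun x : ℝ => N * Real.tanh (3 * x / 4) ^ (N - 1) / Real.cosh (3 * x / 4) ^ 2
        * Real.exp (-(3 * x / 2))) |l| := by
    funext l
    simp only
    rw [a6_abs_tanh, a6_cosh_abs]
  rw [e, integral_comp_abs
    (f := fun x : ℝ => N * Real.tanh (3 * x / 4) ^ (N - 1) / Real.cosh (3 * x / 4) ^ 2
        * Real.exp (-(3 * x / 2)))]
  have h := a6_dom a (4 * N * (1 / a)) ha0 (by positivity)
    (fun x : ℝ => N * Real.tanh (3 * x / 4) ^ (N - 1) / Real.cosh (3 * x / 4) ^ 2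
        * Real.exp (-(3 * x / 2)))
    (fun l hl => by
      have := pow_nonneg (a6_tanh_nonneg hl.le) (N - 1)
      positivity)
    (fun l hl => by
      have h1 := a6_tanh_pow_le hl.le (N - 1)
      rw [hcast] at h1
      set w := Real.exp (-(3 * l / 2)) with hw
      have hw0 : 0 < w := Real.exp_pos _
      have h2 := a6_cosh (l := l)
      rw [← hw] at h2
      have h3 := a6_wexp (w := w) ha0
      have hc : 0 < Real.cosh (3 * l / 4) := Real.cosh_pos _
      have h4 : Real.exp (-(2 * a * w)) = Real.exp (-(a * w)) * Real.exp (-(a * w)) := by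
        rw [← Real.exp_add]
        congr 1
        ring
      have hT := pow_nonneg (a6_tanh_nonneg hl.le) (N - 1)
      calc (N : ℝ) * Real.tanh (3 * l / 4) ^ (N - 1) / Real.cosh (3 * l / 4) ^ 2 * w
          = N * (Real.tanh (3 * l / 4) ^ (N - 1) * (1 / Real.cosh (3 * l / 4) ^ 2)) * w := by ring
        _ ≤ N * (Real.exp (-(2 * a * w)) * (4 * w)) * w := by
            refine mul_le_mul_of_nonneg_right (mul_le_mul_of_nonneg_left
              (mul_le_mul h1 h2 (by positivity) (Real.exp_pos _).le) (by positivity)) hw0.le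
        _ = 4 * N * (w * Real.exp (-(a * w))) * (w * Real.exp (-(a * w))) := by
            rw [h4]
            ring
        _ ≤ 4 * N * (1 / a) * (w * Real.exp (-(a * w))) := by
            refine mul_le_mul_of_nonneg_right (mul_le_mul_of_nonneg_left h3 (by positivity))
              (by positivity))
  have h2 : 2 * (4 * (N : ℝ) * (1 / a) * (2 / (3 * a))) ≤ 64 / N := by
    have hN0 : (0 : ℝ) < N := by linarith
    rw [show 2 * (4 * (N : ℝ) * (1 / a) * (2 / (3 * a))) = (16 / 3 * N) / a ^ 2 by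
      field_simp; ring, div_le_div_iff₀ (by positivity) hN0]
    nlinarith [mul_self_nonneg (a - N / 2), mul_nonneg (sub_nonneg.mpr ha2) hN0.le]
  linarith

theorem a6_third {N : ℕ} (hN : 2 ≤ N) :
    (∫ l in Set.Ioi (0 : ℝ), Real.tanh (3 * l / 4) ^ N * (3 / 2 * N / Real.sinh (3 * l / 2))
      * (1 - Real.tanh (3 * l / 2))) ≤ 64 / N := by
  have hNr : (2 : ℝ) ≤ N := by exact_mod_cast hN
  have hcast : ((N - 1 : ℕ) : ℝ) = N - 1 := by
    rw [Nat.cast_sub (by omega)]
    simp
  set a : ℝ := (N : ℝ) - 1 with ha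
  have ha2 : (N : ℝ) / 2 ≤ a := by rw [ha]; linarith
  have ha0 : 0 < a := by linarith
  have hN0 : (0 : ℝ) < N := by linarith
  -- the three expressions in terms of `w`
  have hs : ∀ l : ℝ, Real.sinh (3 * l / 2) =
      (1 - Real.exp (-(3 * l / 2)) ^ 2) / (2 * Real.exp (-(3 * l / 2))) := by
    intro l
    rw [Real.sinh_eq]
    have h2 : Real.exp (3 * l / 2) * Real.exp (-(3 * l / 2)) = 1 := by
      rw [← Real.exp_add]
      simp
    have h3 : 0 < Real.exp (-(3 * l / 2)) := Real.exp_pos _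
    rw [div_eq_div_iff (by norm_num) (by positivity)]
    linear_combination 2 * h2
  have ht : ∀ l : ℝ, 1 - Real.tanh (3 * l / 2) =
      2 * Real.exp (-(3 * l / 2)) ^ 2 / (1 + Real.exp (-(3 * l / 2)) ^ 2) := by
    intro l
    rw [Real.tanh_eq_sinh_div_cosh, Real.sinh_eq, Real.cosh_eq]
    have h2 : Real.exp (3 * l / 2) * Real.exp (-(3 * l / 2)) = 1 := by
      rw [← Real.exp_add]
      simp
    have h3 : 0 < Real.exp (-(3 * l / 2)) := Real.exp_pos _
    have h4 : 0 < Real.exp (3 * l / 2) := Real.exp_pos _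
    have h5 : (Real.exp (3 * l / 2) - Real.exp (-(3 * l / 2))) / 2 /
        ((Real.exp (3 * l / 2) + Real.exp (-(3 * l / 2))) / 2) =
        (1 - Real.exp (-(3 * l / 2)) ^ 2) / (1 + Real.exp (-(3 * l / 2)) ^ 2) := by
      rw [div_div_div_cancel_right₀ (by norm_num), div_eq_div_iff (by positivity) (by positivity)]
      linear_combination (2 * Real.exp (-(3 * l / 2))) * h2
    rw [h5, eq_div_iff (by positivity), sub_mul, div_mul_cancel₀ _ (by positivity)]
    ring
  have h := a6_dom a (6 * N * (1 / (a / 2)) ^ 2) ha0 (by positivity)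
    (fun l : ℝ => Real.tanh (3 * l / 4) ^ N * (3 / 2 * N / Real.sinh (3 * l / 2))
      * (1 - Real.tanh (3 * l / 2)))
    (fun l hl => by
      have h1 := pow_nonneg (a6_tanh_nonneg hl.le) N
      have h2 : 0 < Real.sinh (3 * l / 2) := Real.sinh_pos_iff.mpr (by linarith)
      rw [ht]
      positivity)
    (fun l hl => by
      have h1 := a6_tanh_pow_le hl.le (N - 1)
      rw [hcast] at h1
      have hT0 := pow_nonneg (a6_tanh_nonneg hl.le) (N - 1)
      have hsplit : Real.tanh (3 * l / 4) ^ N =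
          Real.tanh (3 * l / 4) ^ (N - 1) * Real.tanh (3 * l / 4) := by
        rw [← pow_succ]
        congr 1
        omega
      rw [hsplit, hs, ht]
      rw [show Real.tanh (3 * l / 4) = (1 - Real.exp (-(3 * l / 2))) /
        (1 + Real.exp (-(3 * l / 2))) from a6_tanh l] at h1 hT0 ⊢
      set w := Real.exp (-(3 * l / 2)) with hw
      have hw0 : 0 < w := Real.exp_pos _
      have hw1 : w < 1 := by
        rw [hw, Real.exp_lt_one_iff]
        linarith
      set T := ((1 - w) / (1 + w)) ^ (N - 1) with hT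
      have h3 := a6_wexp (b := a / 2) (w := w) (by positivity)
      have h4 : Real.exp (-(2 * a * w)) =
          Real.exp (-(a * w)) * Real.exp (-(a / 2 * w)) ^ 2 := by
        rw [← Real.exp_nat_mul, ← Real.exp_add]
        congr 1
        push_cast
        ring
      have h1w : 0 < 1 - w := by linarith
      have h5 : T * ((1 - w) / (1 + w)) * (3 / 2 * N / ((1 - w ^ 2) / (2 * w))) *
          (2 * w ^ 2 / (1 + w ^ 2)) =
          T * (6 * N * w ^ 3) * (1 / ((1 + w) ^ 2 * (1 + w ^ 2))) := by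
        have h6 : (1 - w ^ 2) = (1 - w) * (1 + w) := by ring
        rw [h6]
        field_simp
        ring
      have h7 : 1 / ((1 + w) ^ 2 * (1 + w ^ 2)) ≤ 1 := by
        rw [div_le_one (by positivity)]
        nlinarith [pow_pos hw0 2, pow_pos hw0 3, pow_pos hw0 4]
      rw [h5]
      calc T * (6 * N * w ^ 3) * (1 / ((1 + w) ^ 2 * (1 + w ^ 2)))
          ≤ T * (6 * N * w ^ 3) * 1 := mul_le_mul_of_nonneg_left h7 (by positivity)
        _ = T * (6 * N * w ^ 3) := mul_one _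
        _ ≤ Real.exp (-(2 * a * w)) * (6 * N * w ^ 3) :=
            mul_le_mul_of_nonneg_right h1 (by positivity)
        _ = 6 * N * (w * Real.exp (-(a / 2 * w))) ^ 2 * (w * Real.exp (-(a * w))) := by
            rw [h4]
            ring
        _ ≤ 6 * N * (1 / (a / 2)) ^ 2 * (w * Real.exp (-(a * w))) := by
            refine mul_le_mul_of_nonneg_right (mul_le_mul_of_nonneg_left ?_ (by positivity))
              (by positivity)
            exact pow_le_pow_left₀ (by positivity) h3 2)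
  refine h.trans ?_
  rw [show 6 * (N : ℝ) * (1 / (a / 2)) ^ 2 * (2 / (3 * a)) = (16 * N) / a ^ 3 by
    field_simp; ring, div_le_div_iff₀ (by positivity) hN0]
  have h8 : (N : ℝ) / 2 * (N / 2) ≤ a * a := mul_le_mul ha2 ha2 (by positivity) ha0.le
  have h9 : (1 : ℝ) ≤ a := by rw [ha]; linarith
  have h10 : a * a ≤ a ^ 3 := by
    have : a ^ 3 = a * a * a := by ring
    rw [this]
    nlinarith [mul_pos ha0 ha0]
  nlinarith

theorem dec_int : ∃ K : ℝ, 0 < K ∧ ∀ N : ℕ, 2 ≤ N →
    (∫ l : ℝ, |Real.tanh (3 * l / 4)| ^ N * Real.exp (-(3 * |l| / 2))) ≤ K / N ∧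
    (∫ l : ℝ, N * |Real.tanh (3 * l / 4)| ^ (N - 1) / Real.cosh (3 * l / 4) ^ 2
      * Real.exp (-(3 * |l| / 2))) ≤ K / N ∧
    (∫ l in Set.Ioi (0 : ℝ), Real.tanh (3 * l / 4) ^ N * (3 / 2 * N / Real.sinh (3 * l / 2))
      * (1 - Real.tanh (3 * l / 2))) ≤ K / N :=
  ⟨64, by norm_num, fun _ hN => ⟨a6_first hN, a6_second hN, a6_third hN⟩⟩

end H906K
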