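import Pool.Agent.H906R3.K6.A7Core
import Pool.Agent.H906R3.K6.A4

/-! ## A7: the identity on the half line -/

namespace H906K
open MeasureTheory Filter Topology Set

theorem half_identity {N : ℕ} (hN : 2 ≤ N) {X Y B : ℝ → ℝ} (h : Sys N X Y B) :
    IntegrableOn (fun l => A2 N X B l * (3 / 2 * N / Real.sinh (3 * l / 2))) (Set.Ioi 0) ∧
    2 * ∫ l in Set.Ioi (0 : ℝ), A2 N X B l * (3 / 2 * N / Real.sinh (3 * l / 2))
      = -3 - (G0 X 0 * Y 0 + X 0 ^ 2 - G1 X Y 0 * X 0)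
        - Del (A1 N X) (G1 X Y) - Del (A2 N X B) (G0 X) :=
  a7_core hN h (sys_nice (by omega) h)

end H906K
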