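import Pool.Agent.H906R3.K6.Defs2
import Pool.Agent.H906R3.K6.A2b
import Pool.Agent.H906R3.K6.A3

/-! ## A7: the identity on the half line -/

namespace H906K
open MeasureTheory Filter Topology Set

theorem a7_int_mul {f g : ℝ → ℝ} {K : ℝ} (hf : Continuous f) (hK : ∀ u, |f u| ≤ K)
    (hg : Integrable g) : Integrable (fun u => f u * g u) := by
  refine hg.bdd_mul (c := K) hf.aestronglyMeasurable (ae_of_all _ fun u => ?_)
  rw [Real.norm_eq_abs]
  exact hK u

theorem a7_int_mul' {f g : ℝ → ℝ} {K : ℝ} (hf : Continuous f) (hK : ∀ u, |f u| ≤ K)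
    (hg : Integrable g) : Integrable (fun u => g u * f u) := by
  have := a7_int_mul hf hK hg
  simpa [mul_comm] using this

theorem a7_tanh_deriv (l : ℝ) :
    HasDerivAt (fun l : ℝ => Real.tanh (3 * l / 4)) ((3 / 4) / Real.cosh (3 * l / 4) ^ 2) l := by
  have h1 : HasDerivAt (fun l : ℝ => 3 * l / 4) (3 / 4) l := by
    have := ((hasDerivAt_id l).const_mul 3).div_const 4
    simpa using this
  have hc : Real.cosh (3 * l / 4) ≠ 0 := (Real.cosh_pos _).ne'
  have h2 : HasDerivAt (fun l : ℝ => Real.sinh (3 * l / 4) / Real.cosh (3 * l / 4))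
      ((Real.cosh (3 * l / 4) * (3 / 4) * Real.cosh (3 * l / 4)
        - Real.sinh (3 * l / 4) * (Real.sinh (3 * l / 4) * (3 / 4))) / Real.cosh (3 * l / 4) ^ 2) l :=
    (h1.sinh).div (h1.cosh) hc
  have h3 : (fun l : ℝ => Real.tanh (3 * l / 4)) =
      fun l : ℝ => Real.sinh (3 * l / 4) / Real.cosh (3 * l / 4) := by
    funext l
    rw [Real.tanh_eq_sinh_div_cosh]
  rw [h3]
  refine h2.congr_deriv ?_
  congr 1
  have := Real.cosh_sq (3 * l / 4)
  nlinarith

/-- the logarithmic derivative of `tanh(3l/4)^N` -/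
theorem a7_pow_deriv (N : ℕ) (hN : 1 ≤ N) (l : ℝ) (hl : 0 < l) :
    HasDerivAt (fun l : ℝ => Real.tanh (3 * l / 4) ^ N)
      (Real.tanh (3 * l / 4) ^ N * (3 / 2 * N / Real.sinh (3 * l / 2))) l := by
  have h1 := (a7_tanh_deriv l).fun_pow N
  refine h1.congr_deriv ?_
  have ha : 0 < 3 * l / 4 := by positivity
  have hs : 0 < Real.sinh (3 * l / 4) := Real.sinh_pos_iff.2 ha
  have hc : 0 < Real.cosh (3 * l / 4) := Real.cosh_pos _
  have e1 : Real.sinh (3 * l / 2) = 2 * Real.sinh (3 * l / 4) * Real.cosh (3 * l / 4) := by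
    rw [← Real.sinh_two_mul]
    congr 1
    ring
  obtain ⟨m, rfl⟩ : ∃ m, N = m + 1 := ⟨N - 1, by omega⟩
  rw [e1, Nat.add_sub_cancel, pow_succ (Real.tanh (3 * l / 4)) m, Real.tanh_eq_sinh_div_cosh]
  generalize Real.sinh (3 * l / 4) = s at *
  generalize Real.cosh (3 * l / 4) = c at *
  generalize (s / c) ^ m = w
  field_simp
  ring

theorem a7_tanh_nonneg (l : ℝ) (hl : 0 < l) : 0 ≤ Real.tanh (3 * l / 4) := by
  rw [Real.tanh_eq_sinh_div_cosh]
  have ha : 0 < 3 * l / 4 := by positivity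
  have hs : 0 < Real.sinh (3 * l / 4) := Real.sinh_pos_iff.2 ha
  have hc : 0 < Real.cosh (3 * l / 4) := Real.cosh_pos _
  positivity

theorem a7_tanh_abs_le (l : ℝ) : |Real.tanh (3 * l / 4)| ≤ 1 := (Real.abs_tanh_lt_one _).le

theorem a7_tendsto_tanh : Tendsto (fun l : ℝ => Real.tanh (3 * l / 4)) atTop (𝓝 1) := by
  have h1 : Tendsto (fun l : ℝ => -(2 * (3 * l / 4))) atTop atBot := by
    have : Tendsto (fun l : ℝ => (3 / 2) * l) atTop atTop :=
      tendsto_id.const_mul_atTop (by norm_num)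
    refine (tendsto_neg_atTop_atBot.comp this).congr fun l => ?_
    simp only [Function.comp]
    ring
  have h2 : Tendsto (fun l : ℝ => 1 - 2 * Real.exp (-(2 * (3 * l / 4)))) atTop (𝓝 (1 - 2 * 0)) :=
    ((Real.tendsto_exp_atBot.comp h1).const_mul 2).const_sub 1
  rw [mul_zero, sub_zero] at h2
  refine tendsto_of_tendsto_of_tendsto_of_le_of_le h2 tendsto_const_nhds (fun l => ?_)
    (fun l => (Real.tanh_lt_one _).le)
  have hc : 0 < Real.cosh (3 * l / 4) := Real.cosh_pos _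
  have e1 : 1 - Real.tanh (3 * l / 4) = Real.exp (-(3 * l / 4)) / Real.cosh (3 * l / 4) := by
    rw [Real.tanh_eq_sinh_div_cosh, eq_div_iff hc.ne', sub_mul, div_mul_cancel₀ _ hc.ne', one_mul,
      Real.cosh_sub_sinh]
  have e2 : Real.exp (-(3 * l / 4)) / Real.cosh (3 * l / 4) ≤ 2 * Real.exp (-(2 * (3 * l / 4))) := by
    rw [div_le_iff₀ hc]
    have e3 : Real.exp (3 * l / 4) ≤ 2 * Real.cosh (3 * l / 4) := by
      rw [Real.cosh_eq]
      have := Real.exp_pos (-(3 * l / 4))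
      linarith
    have e4 : Real.exp (-(3 * l / 4)) = Real.exp (-(2 * (3 * l / 4))) * Real.exp (3 * l / 4) := by
      rw [← Real.exp_add]
      congr 1
      ring
    rw [e4]
    have e5 := mul_le_mul_of_nonneg_left e3 (Real.exp_pos (-(2 * (3 * l / 4)))).le
    linarith
  simp only
  linarith

/-- `A₂ D'` is integrable -/
theorem a7_bound_int {N : ℕ} (hN : 2 ≤ N) {A : ℝ → ℝ} (hA : Continuous A)
    (hb : ∀ l, |A l| ≤ 12 * |Real.tanh (3 * l / 4)| ^ N) :
    IntegrableOn (fun l => A l * (3 / 2 * N / Real.sinh (3 * l / 2))) (Set.Ioi 0) := by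
  have hint : IntegrableOn (fun l : ℝ => 36 * N * Real.exp (-(3 / 2) * l)) (Set.Ioi 0) :=
    (integrableOn_exp_mul_Ioi (by norm_num : (-(3 / 2) : ℝ) < 0) 0).const_mul _
  refine Integrable.mono' hint ?_ ?_
  · apply Measurable.aestronglyMeasurable
    refine hA.measurable.mul ?_
    refine Measurable.div measurable_const ?_
    exact (Real.continuous_sinh.comp (by fun_prop)).measurable
  · refine (ae_restrict_mem measurableSet_Ioi).mono fun l hl => ?_
    have hl0 : 0 < l := hl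
    have ha : 0 < 3 * l / 4 := by positivity
    have hs : 0 < Real.sinh (3 * l / 4) := Real.sinh_pos_iff.2 ha
    have hc : 0 < Real.cosh (3 * l / 4) := Real.cosh_pos _
    have e1 : Real.sinh (3 * l / 2) = 2 * Real.sinh (3 * l / 4) * Real.cosh (3 * l / 4) := by
      rw [← Real.sinh_two_mul]
      congr 1
      ring
    have hNpos : (0 : ℝ) < N := by
      have : 0 < N := by omega
      exact_mod_cast this
    rw [Real.norm_eq_abs, abs_mul]
    have hD : 0 ≤ 3 / 2 * (N : ℝ) / Real.sinh (3 * l / 2) := by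
      rw [e1]; positivity
    rw [abs_of_nonneg hD]
    have hT0 := a7_tanh_nonneg l hl0
    have hT1 := a7_tanh_abs_le l
    have hpow : |Real.tanh (3 * l / 4)| ^ N ≤ Real.tanh (3 * l / 4) := by
      obtain ⟨m, rfl⟩ : ∃ m, N = m + 1 := ⟨N - 1, by omega⟩
      rw [pow_succ, abs_of_nonneg hT0]
      rw [abs_of_nonneg hT0] at hT1
      have := pow_le_one₀ hT0 hT1 (n := m)
      nlinarith
    have h2 : |A l| ≤ 12 * Real.tanh (3 * l / 4) := (hb l).trans (by linarith)
    have hce : Real.exp (3 * l / 4) ≤ 2 * Real.cosh (3 * l / 4) := by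
      rw [Real.cosh_eq]
      have := Real.exp_pos (-(3 * l / 4))
      linarith
    have hE : Real.exp (-(3 / 2) * l) * Real.exp (3 * l / 4) ^ 2 = 1 := by
      rw [← Real.exp_nat_mul, ← Real.exp_add, Real.exp_eq_one_iff]
      push_cast
      ring
    have h3 : 1 ≤ Real.exp (-(3 / 2) * l) * (4 * Real.cosh (3 * l / 4) ^ 2) := by
      rw [← hE]
      apply mul_le_mul_of_nonneg_left _ (Real.exp_pos _).le
      have := pow_le_pow_left₀ (Real.exp_pos (3 * l / 4)).le hce 2
      calc _ ≤ (2 * Real.cosh (3 * l / 4)) ^ 2 := this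
        _ = _ := by ring
    calc |A l| * (3 / 2 * N / Real.sinh (3 * l / 2))
        ≤ 12 * Real.tanh (3 * l / 4) * (3 / 2 * N / Real.sinh (3 * l / 2)) :=
          mul_le_mul_of_nonneg_right h2 hD
      _ = 9 * N / Real.cosh (3 * l / 4) ^ 2 := by
          rw [e1, Real.tanh_eq_sinh_div_cosh]
          generalize Real.sinh (3 * l / 4) = s at *
          generalize Real.cosh (3 * l / 4) = c at *
          field_simp
          ring
      _ ≤ 36 * N * Real.exp (-(3 / 2) * l) := by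
          rw [div_le_iff₀ (by positivity)]
          nlinarith

theorem a7_core {N : ℕ} (hN : 2 ≤ N) {X Y B : ℝ → ℝ} (h : Sys N X Y B)
    (hnice : Nice (G0 X) ∧ Nice (G1 X Y) ∧ Nice (be0 X) ∧ Nice (A1 N X) ∧ Nice (A2 N X B)) :
    IntegrableOn (fun l => A2 N X B l * (3 / 2 * N / Real.sinh (3 * l / 2))) (Set.Ioi 0) ∧
    2 * ∫ l in Set.Ioi (0 : ℝ), A2 N X B l * (3 / 2 * N / Real.sinh (3 * l / 2))
      = -3 - (G0 X 0 * Y 0 + X 0 ^ 2 - G1 X Y 0 * X 0)
        - Del (A1 N X) (G1 X Y) - Del (A2 N X B) (G0 X) := by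
  have hN1 : 1 ≤ N := by omega
  obtain ⟨bX, bY, bB, bA1, bA2, bG1, bG0⟩ := sys_bounds hN1 h
  obtain ⟨nG0, nG1, nbe, nA1, nA2⟩ := hnice
  have bT : ∀ l, |Real.tanh (3 * l / 4)| ^ N ≤ 1 := fun l =>
    pow_le_one₀ (abs_nonneg _) (a7_tanh_abs_le l)
  have bA1' : ∀ l, |A1 N X l| ≤ 2 * Real.sqrt 3 := fun l => (bA1 l).trans (by
    have := mul_le_mul_of_nonneg_left (bT l) (show 0 ≤ 2 * Real.sqrt 3 by positivity)
    linarith)
  have bA2' : ∀ l, |A2 N X B l| ≤ 12 := fun l => (bA2 l).trans (by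
    have := bT l
    linarith)
  have bG0' : ∀ l, |G0 X l| ≤ 3 := fun l => by
    rw [abs_of_nonneg (bG0 l).1]
    exact (bG0 l).2
  -- convolutions
  have eX : X = fun l => ∫ u : ℝ, kk (l - u) * A1 N X u := funext h.eqX
  have eY : Y = fun l => ∫ u : ℝ, kk (l - u) * A2 N X B u := funext h.eqY
  have eB : B = fun l => ∫ u : ℝ, kk (l - u) * G1 X Y u := funext h.eqB
  have ebe : be0 X = fun l => ∫ u : ℝ, kk (l - u) * G0 X u := rfl
  have dX : ∀ l, deriv X l = ∫ u : ℝ, kk (l - u) * deriv (A1 N X) u := fun l => by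
    conv_lhs => rw [eX]
    exact (kk_conv_nice (A1 N X) _ nA1 bA1').2 l
  have dY : ∀ l, deriv Y l = ∫ u : ℝ, kk (l - u) * deriv (A2 N X B) u := fun l => by
    conv_lhs => rw [eY]
    exact (kk_conv_nice (A2 N X B) _ nA2 bA2').2 l
  have dB : ∀ l, deriv B l = ∫ u : ℝ, kk (l - u) * deriv (G1 X Y) u := fun l => by
    conv_lhs => rw [eB]
    exact (kk_conv_nice (G1 X Y) _ nG1 bG1).2 l
  have dbe : ∀ l, deriv (be0 X) l = ∫ u : ℝ, kk (l - u) * deriv (G0 X) u := fun l => by
    conv_lhs => rw [ebe]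
    exact (kk_conv_nice (G0 X) _ nG0 bG0').2 l
  have bbe : ∀ l, |be0 X l| ≤ 3 / 2 := fun l =>
    kk_conv_le (G0 X) 3 nG0.1.continuous bG0' l
  -- continuity
  have cX := h.niceX.1.continuous
  have cY := h.niceY.1.continuous
  have cB := h.niceB.1.continuous
  have cG0 := nG0.1.continuous
  have cG1 := nG1.1.continuous
  have cbe := nbe.1.continuous
  have cA1 := nA1.1.continuous
  have cA2 := nA2.1.continuous
  -- the two Del
  have hDel1 : Del (A1 N X) (G1 X Y) =
      (∫ l in Set.Ioi (0 : ℝ), (A1 N X l * deriv B l - deriv (A1 N X) l * B l))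
      - ∫ l in Set.Ioi (0 : ℝ), (X l * deriv (G1 X Y) l - deriv X l * G1 X Y l) := by
    unfold Del
    congr 1
    · apply integral_congr_ae
      refine ae_of_all _ fun l => ?_
      simp only
      rw [dB, ← h.eqB]
    · apply integral_congr_ae
      refine ae_of_all _ fun l => ?_
      simp only
      rw [dX, ← h.eqX]
  have hDel2 : Del (A2 N X B) (G0 X) =
      (∫ l in Set.Ioi (0 : ℝ), (A2 N X B l * deriv (be0 X) l - deriv (A2 N X B) l * be0 X l))
      - ∫ l in Set.Ioi (0 : ℝ), (Y l * deriv (G0 X) l - deriv Y l * G0 X l) := by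
    unfold Del
    congr 1
    · apply integral_congr_ae
      refine ae_of_all _ fun l => ?_
      simp only
      rw [dbe]
      rfl
    · apply integral_congr_ae
      refine ae_of_all _ fun l => ?_
      simp only
      rw [dY, ← h.eqY]
  -- integrability
  have i1 : IntegrableOn (fun l => A1 N X l * deriv B l - deriv (A1 N X) l * B l) (Set.Ioi 0) :=
    ((a7_int_mul cA1 bA1' h.niceB.2.2).sub (a7_int_mul' cB bB nA1.2.2)).integrableOn
  have i2 : IntegrableOn (fun l => X l * deriv (G1 X Y) l - deriv X l * G1 X Y l) (Set.Ioi 0) :=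
    ((a7_int_mul cX bX nG1.2.2).sub (a7_int_mul' cG1 bG1 h.niceX.2.2)).integrableOn
  have i3 : IntegrableOn (fun l => A2 N X B l * deriv (be0 X) l - deriv (A2 N X B) l * be0 X l)
      (Set.Ioi 0) :=
    ((a7_int_mul cA2 bA2' nbe.2.2).sub (a7_int_mul' cbe bbe nA2.2.2)).integrableOn
  have i4 : IntegrableOn (fun l => Y l * deriv (G0 X) l - deriv Y l * G0 X l) (Set.Ioi 0) :=
    ((a7_int_mul cY bY nG0.2.2).sub (a7_int_mul' cG0 bG0' h.niceY.2.2)).integrableOn
  have i5 : IntegrableOn (fun l => A2 N X B l * (3 / 2 * N / Real.sinh (3 * l / 2))) (Set.Ioi 0) :=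
    a7_bound_int hN cA2 bA2
  refine ⟨i5, ?_⟩
  -- limits
  have lG0 : Tendsto (G0 X) atTop (𝓝 (Real.log 12)) := by
    have h1 : Tendsto (fun l => 9 + X l ^ 2) atTop (𝓝 (9 + Real.sqrt 3 ^ 2)) :=
      (h.topX.pow 2).const_add 9
    have h2 : (9 : ℝ) + Real.sqrt 3 ^ 2 = 12 := by
      rw [Real.sq_sqrt (by norm_num)]
      norm_num
    rw [h2] at h1
    exact h1.log (by norm_num)
  have lbe : Tendsto (be0 X) atTop (𝓝 (Real.log 12 / 2)) :=
    kk_conv_top (G0 X) 3 _ cG0 bG0' lG0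
  have lA1 : Tendsto (A1 N X) atTop (𝓝 (2 * Real.sqrt 3)) := by
    have h1 : Tendsto (fun l => Real.tanh (3 * l / 4) ^ N * Real.exp (be0 X l)) atTop
        (𝓝 (1 ^ N * Real.exp (Real.log 12 / 2))) :=
      (a7_tendsto_tanh.pow N).mul ((Real.continuous_exp.tendsto _).comp lbe)
    have h2 : (1 : ℝ) ^ N * Real.exp (Real.log 12 / 2) = 2 * Real.sqrt 3 := by
      rw [one_pow, one_mul]
      have h3 : Real.exp (Real.log 12 / 2) = Real.sqrt 12 := by
        rw [Real.sqrt_eq_rpow, Real.rpow_def_of_pos (by norm_num)]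
        congr 1
        ring
      rw [h3, show (12 : ℝ) = 2 ^ 2 * 3 by norm_num, Real.sqrt_mul (by norm_num),
        Real.sqrt_sq (by norm_num)]
    rw [h2] at h1
    exact h1
  have s3 : Real.sqrt 3 * Real.sqrt 3 = 3 := Real.mul_self_sqrt (by norm_num)
  have s3p : 0 < Real.sqrt 3 := Real.sqrt_pos.2 (by norm_num)
  have lA2 : Tendsto (A2 N X B) atTop (𝓝 (-4)) := by
    have h1 : Tendsto (fun l => A1 N X l * B l - A1 N X l ^ 2 / 2) atTop
        (𝓝 (2 * Real.sqrt 3 * (1 / Real.sqrt 3) - (2 * Real.sqrt 3) ^ 2 / 2)) :=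
      (lA1.mul h.topB).sub ((lA1.pow 2).div_const 2)
    have h2 : 2 * Real.sqrt 3 * (1 / Real.sqrt 3) - (2 * Real.sqrt 3) ^ 2 / 2 = -4 := by
      field_simp
      nlinarith
    rw [h2] at h1
    exact h1
  have lG1 : Tendsto (G1 X Y) atTop (𝓝 (2 / Real.sqrt 3)) := by
    have h1 : Tendsto (fun l => 2 * X l * (Y l + X l ^ 2 / 2 + 9 / 2) / (9 + X l ^ 2)) atTop
        (𝓝 (2 * Real.sqrt 3 * (-2 + Real.sqrt 3 ^ 2 / 2 + 9 / 2) / (9 + Real.sqrt 3 ^ 2))) := by
      refine Tendsto.div ?_ ((h.topX.pow 2).const_add 9) (by positivity)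
      exact (h.topX.const_mul 2).mul ((h.topY.add ((h.topX.pow 2).div_const 2)).add_const _)
    have h2 : 2 * Real.sqrt 3 * (-2 + Real.sqrt 3 ^ 2 / 2 + 9 / 2) / (9 + Real.sqrt 3 ^ 2) =
        2 / Real.sqrt 3 := by
      rw [Real.sq_sqrt (by norm_num : (0 : ℝ) ≤ 3)]
      field_simp
      rw [Real.sq_sqrt (by norm_num : (0 : ℝ) ≤ 3)]
      norm_num
    rw [h2] at h1
    exact h1
  -- derivatives
  have hA2at : ∀ l, HasDerivAt (A2 N X B) (deriv (A2 N X B) l) l := fun l =>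
    (nA2.1 l).hasDerivAt
  have hbeat : ∀ l, HasDerivAt (be0 X) (deriv (be0 X) l) l := fun l => (nbe.1 l).hasDerivAt
  have hXat : ∀ l, HasDerivAt X (deriv X l) l := fun l => (h.niceX.1 l).hasDerivAt
  have hYat : ∀ l, HasDerivAt Y (deriv Y l) l := fun l => (h.niceY.1 l).hasDerivAt
  have hBat : ∀ l, HasDerivAt B (deriv B l) l := fun l => (h.niceB.1 l).hasDerivAt
  have hG0at : ∀ l, HasDerivAt (G0 X) (deriv (G0 X) l) l := fun l => (nG0.1 l).hasDerivAt
  have hG1at : ∀ l, HasDerivAt (G1 X Y) (deriv (G1 X Y) l) l := fun l => (nG1.1 l).hasDerivAt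
  have hA1at : ∀ l, HasDerivAt (A1 N X) (deriv (A1 N X) l) l := fun l => (nA1.1 l).hasDerivAt
  have dG0 : ∀ l, deriv (G0 X) l = 2 * X l * deriv X l / (9 + X l ^ 2) := fun l => by
    have h1 : HasDerivAt (fun l => 9 + X l ^ 2) (2 * X l * deriv X l) l := by
      have := ((hXat l).fun_pow 2).const_add 9
      refine this.congr_deriv ?_
      simp
    have h2 : HasDerivAt (G0 X) (2 * X l * deriv X l / (9 + X l ^ 2)) l :=
      h1.log (by positivity)
    exact h2.deriv
  have dA1 : ∀ l, 0 < l → deriv (A1 N X) l =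
      A1 N X l * (3 / 2 * N / Real.sinh (3 * l / 2) + deriv (be0 X) l) := fun l hl => by
    have h1 : HasDerivAt (fun l => Real.tanh (3 * l / 4) ^ N * Real.exp (be0 X l))
        (Real.tanh (3 * l / 4) ^ N * (3 / 2 * N / Real.sinh (3 * l / 2)) * Real.exp (be0 X l)
          + Real.tanh (3 * l / 4) ^ N * (Real.exp (be0 X l) * deriv (be0 X) l)) l :=
      (a7_pow_deriv N hN1 l hl).mul (hbeat l).exp
    have h2 : HasDerivAt (A1 N X)
        (A1 N X l * (3 / 2 * N / Real.sinh (3 * l / 2) + deriv (be0 X) l)) l := by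
      refine h1.congr_deriv ?_
      unfold A1
      ring
    exact h2.deriv
  have dA2 : ∀ l, deriv (A2 N X B) l = deriv (A1 N X) l * B l + A1 N X l * deriv B l
      - A1 N X l * deriv (A1 N X) l := fun l => by
    have h1 : HasDerivAt (fun l => A1 N X l * B l - A1 N X l ^ 2 / 2)
        (deriv (A1 N X) l * B l + A1 N X l * deriv B l
          - (2 : ℕ) * A1 N X l ^ (2 - 1) * deriv (A1 N X) l / 2) l :=
      ((hA1at l).mul (hBat l)).sub (((hA1at l).fun_pow 2).div_const 2)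
    have h2 : HasDerivAt (A2 N X B) (deriv (A1 N X) l * B l + A1 N X l * deriv B l
      - A1 N X l * deriv (A1 N X) l) l := by
      refine h1.congr_deriv ?_
      push_cast
      ring
    exact h2.deriv
  -- first integral
  have I1 : ∫ l in Set.Ioi (0 : ℝ), ((A1 N X l * deriv B l - deriv (A1 N X) l * B l)
      + (A2 N X B l * deriv (be0 X) l - deriv (A2 N X B) l * be0 X l)
      + 2 * (A2 N X B l * (3 / 2 * N / Real.sinh (3 * l / 2)))) =
      (-4 - (-4) * (Real.log 12 / 2)) - (A2 N X B 0 - A2 N X B 0 * be0 X 0) := by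
    refine integral_Ioi_of_hasDerivAt_of_tendsto
      (f := fun l => A2 N X B l - A2 N X B l * be0 X l) ?_ ?_ ?_ ?_
    · exact (cA2.sub (cA2.mul cbe)).continuousWithinAt
    · intro l hl
      have h1 : HasDerivAt (fun l => A2 N X B l - A2 N X B l * be0 X l)
        (deriv (A2 N X B) l - (deriv (A2 N X B) l * be0 X l + A2 N X B l * deriv (be0 X) l)) l :=
        (hA2at l).sub ((hA2at l).mul (hbeat l))
      refine h1.congr_deriv ?_
      rw [dA2 l, dA1 l hl]
      unfold A2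
      ring
    · exact (i1.add i3).add (i5.const_mul 2)
    · exact lA2.sub (lA2.mul lbe)
  have I2 : ∫ l in Set.Ioi (0 : ℝ), -((X l * deriv (G1 X Y) l - deriv X l * G1 X Y l)
      + (Y l * deriv (G0 X) l - deriv Y l * G0 X l)) =
      (Real.log 12 * (-2) + Real.sqrt 3 ^ 2 - 2 / Real.sqrt 3 * Real.sqrt 3)
        - (G0 X 0 * Y 0 + X 0 ^ 2 - G1 X Y 0 * X 0) := by
    refine integral_Ioi_of_hasDerivAt_of_tendsto
      (f := fun l => G0 X l * Y l + X l ^ 2 - G1 X Y l * X l) ?_ ?_ ?_ ?_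
    · exact (((cG0.mul cY).add (cX.pow 2)).sub (cG1.mul cX)).continuousWithinAt
    · intro l _
      have h1 : HasDerivAt (fun l => G0 X l * Y l + X l ^ 2 - G1 X Y l * X l)
        ((deriv (G0 X) l * Y l + G0 X l * deriv Y l) + (2 : ℕ) * X l ^ (2 - 1) * deriv X l
          - (deriv (G1 X Y) l * X l + G1 X Y l * deriv X l)) l :=
        (((hG0at l).mul (hYat l)).add ((hXat l).fun_pow 2)).sub ((hG1at l).mul (hXat l))
      refine h1.congr_deriv ?_
      rw [dG0 l]
      have hpos : 9 + X l ^ 2 ≠ 0 := by positivity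
      unfold G1
      push_cast
      field_simp
      ring
    · exact (i2.add i4).neg
    · exact ((lG0.mul h.topY).add (h.topX.pow 2)).sub (lG1.mul h.topX)
  have hA20 : A2 N X B 0 = 0 := by
    unfold A2 A1
    have : Real.tanh (3 * 0 / 4) = 0 := by simp
    rw [this, zero_pow (by omega)]
    ring
  rw [hA20] at I1
  rw [integral_neg, integral_add i2 i4] at I2
  have i13 : IntegrableOn (fun l => (A1 N X l * deriv B l - deriv (A1 N X) l * B l)
      + (A2 N X B l * deriv (be0 X) l - deriv (A2 N X B) l * be0 X l)) (Set.Ioi 0) := i1.add i3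
  rw [integral_add i13 (i5.const_mul 2), integral_add i1 i3, integral_const_mul] at I1
  rw [hDel1, hDel2]
  have e1 : 2 / Real.sqrt 3 * Real.sqrt 3 = 2 := div_mul_cancel₀ _ s3p.ne'
  rw [e1, Real.sq_sqrt (by norm_num : (0 : ℝ) ≤ 3)] at I2
  linarith

end H906K
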