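import Pool.Agent.H906R3.K6.Defs2
import Pool.Agent.H906R3.K6.A2a
import Pool.Agent.H906R3.K6.A3
import Pool.Agent.H906R3.K6.A4
import Pool.Agent.H906R3.K6.A5
import Pool.Agent.H906R3.K6.A6
import Pool.Agent.H906R3.K6.A7

namespace H906K
open MeasureTheory Filter Topology

theorem a8_tanh_cont : Continuous Real.tanh := by
  have : Real.tanh = fun x => Real.sinh x / Real.cosh x := by
    funext x; exact Real.tanh_eq_sinh_div_cosh x
  rw [this]
  exact Real.continuous_sinh.div Real.continuous_cosh (fun x => (Real.cosh_pos x).ne')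

theorem a8_exp_int : Integrable (fun l : ℝ => Real.exp (-(3 * |l| / 2))) := by
  rw [← integrableOn_univ, ← Set.Iic_union_Ioi (a := (0:ℝ)), integrableOn_union]
  constructor
  · refine (integrableOn_exp_mul_Iic (a := 3/2) (by norm_num) 0).congr_fun ?_ measurableSet_Iic
    intro x hx
    simp only
    rw [abs_of_nonpos hx]
    congr 1
    ring
  · refine (integrableOn_exp_mul_Ioi (a := -(3/2)) (by norm_num) 0).congr_fun ?_ measurableSet_Ioi
    intro x hx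
    simp only
    rw [abs_of_pos hx]
    congr 1
    ring

theorem a8_pow_le (N : ℕ) (l : ℝ) : |Real.tanh (3 * l / 4)| ^ N ≤ 1 :=
  pow_le_one₀ (abs_nonneg _) (Real.abs_tanh_lt_one _).le

theorem a8_T_cont (N : ℕ) : Continuous (fun l : ℝ => |Real.tanh (3 * l / 4)| ^ N) :=
  ((a8_tanh_cont.comp (by fun_prop)).abs).pow N

theorem a8_exp_cont : Continuous (fun l : ℝ => Real.exp (-(3 * |l| / 2))) := by
  fun_prop

theorem a8_T_int (N : ℕ) :
    Integrable (fun l : ℝ => |Real.tanh (3 * l / 4)| ^ N * Real.exp (-(3 * |l| / 2))) := by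
  refine a8_exp_int.mono' ((a8_T_cont N).mul a8_exp_cont).aestronglyMeasurable ?_
  refine Eventually.of_forall (fun l => ?_)
  rw [Real.norm_eq_abs, abs_of_nonneg (by positivity)]
  calc _ ≤ 1 * Real.exp (-(3 * |l| / 2)) :=
        mul_le_mul_of_nonneg_right (a8_pow_le N l) (Real.exp_pos _).le
    _ = _ := one_mul _

theorem a8_S_int (N : ℕ) :
    Integrable (fun l : ℝ => N * |Real.tanh (3 * l / 4)| ^ (N - 1) / Real.cosh (3 * l / 4) ^ 2
      * Real.exp (-(3 * |l| / 2))) := by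
  refine (a8_exp_int.const_mul (N : ℝ)).mono' (Continuous.aestronglyMeasurable ?_) ?_
  · refine Continuous.mul (Continuous.div (continuous_const.mul (a8_T_cont _)) ?_ ?_) a8_exp_cont
    · exact (Real.continuous_cosh.comp (by fun_prop)).pow 2
    · intro x
      have := Real.cosh_pos (3 * x / 4)
      positivity
  · refine Eventually.of_forall (fun l => ?_)
    have hc := Real.one_le_cosh (3 * l / 4)
    have hc2 : (1:ℝ) ≤ Real.cosh (3 * l / 4) ^ 2 := one_le_pow₀ hc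
    rw [Real.norm_eq_abs, abs_of_nonneg (by positivity)]
    refine mul_le_mul_of_nonneg_right ?_ (Real.exp_pos _).le
    rw [div_le_iff₀ (by positivity)]
    calc (N : ℝ) * |Real.tanh (3 * l / 4)| ^ (N - 1) ≤ N * 1 :=
          mul_le_mul_of_nonneg_left (a8_pow_le _ l) (by positivity)
      _ ≤ N * Real.cosh (3 * l / 4) ^ 2 := mul_le_mul_of_nonneg_left hc2 (by positivity)

theorem a8_tanh_nonneg {x : ℝ} (hx : 0 ≤ x) : 0 ≤ Real.tanh x := by
  rw [Real.tanh_eq_sinh_div_cosh]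
  exact div_nonneg (Real.sinh_nonneg_iff.mpr hx) (Real.cosh_pos x).le

theorem a8_W_bound {N : ℕ} (hN : 1 ≤ N) {l : ℝ} (hl : 0 < l) :
    0 ≤ Real.tanh (3 * l / 4) ^ N * (3 / 2 * N / Real.sinh (3 * l / 2))
      * (1 - Real.tanh (3 * l / 2)) ∧
    Real.tanh (3 * l / 4) ^ N * (3 / 2 * N / Real.sinh (3 * l / 2))
      * (1 - Real.tanh (3 * l / 2)) ≤ N * Real.exp (-(3 * |l| / 2)) := by
  have hs : 0 < Real.sinh (3 * l / 2) := Real.sinh_pos_iff.mpr (by linarith)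
  have hc : 0 < Real.cosh (3 * l / 2) := Real.cosh_pos _
  have hc1 : 1 ≤ Real.cosh (3 * l / 2) := Real.one_le_cosh _
  have h0 : 0 ≤ Real.tanh (3 * l / 4) := a8_tanh_nonneg (by linarith)
  have h1 : Real.tanh (3 * l / 4) ≤ 1 := (Real.tanh_lt_one _).le
  have ha : 0 ≤ 1 - Real.tanh (3 * l / 2) := by linarith [Real.tanh_lt_one (3 * l / 2)]
  have hb : 1 - Real.tanh (3 * l / 2) ≤ Real.exp (-(3 * |l| / 2)) := by
    rw [abs_of_pos hl, Real.tanh_eq_sinh_div_cosh, one_sub_div hc.ne', Real.cosh_sub_sinh]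
    exact div_le_self (Real.exp_pos _).le hc1
  refine ⟨by positivity, ?_⟩
  refine mul_le_mul ?_ hb ha (by positivity)
  have hp : Real.tanh (3 * l / 4) ^ N ≤ Real.tanh (3 * l / 4) := by
    calc _ ≤ Real.tanh (3 * l / 4) ^ 1 := pow_le_pow_of_le_one h0 h1 hN
      _ = _ := pow_one _
  have hs2 : Real.sinh (3 * l / 2) = 2 * Real.sinh (3 * l / 4) * Real.cosh (3 * l / 4) := by
    rw [← Real.sinh_two_mul]; ring_nf
  have hsa : 0 < Real.sinh (3 * l / 4) := Real.sinh_pos_iff.mpr (by linarith)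
  have hca : 1 ≤ Real.cosh (3 * l / 4) := Real.one_le_cosh _
  calc Real.tanh (3 * l / 4) ^ N * (3 / 2 * N / Real.sinh (3 * l / 2))
      ≤ Real.tanh (3 * l / 4) * (3 / 2 * N / Real.sinh (3 * l / 2)) :=
        mul_le_mul_of_nonneg_right hp (by positivity)
    _ = 3 / 4 * N / Real.cosh (3 * l / 4) ^ 2 := by
        rw [Real.tanh_eq_sinh_div_cosh, hs2]
        have : Real.cosh (3 * l / 4) ≠ 0 := by positivity
        field_simp
        ring
    _ ≤ N := by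
        rw [div_le_iff₀ (by positivity)]
        have : (1:ℝ) ≤ Real.cosh (3 * l / 4) ^ 2 := one_le_pow₀ hca
        have hN0 : (0:ℝ) ≤ N := by positivity
        nlinarith

theorem a8_W_meas (N : ℕ) : Measurable (fun l : ℝ =>
    Real.tanh (3 * l / 4) ^ N * (3 / 2 * N / Real.sinh (3 * l / 2))
      * (1 - Real.tanh (3 * l / 2))) := by
  have h1 : Measurable (fun l : ℝ => Real.tanh (3 * l / 4)) :=
    a8_tanh_cont.measurable.comp (by fun_prop)
  have h2 : Measurable (fun l : ℝ => Real.tanh (3 * l / 2)) :=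
    a8_tanh_cont.measurable.comp (by fun_prop)
  have h3 : Measurable (fun l : ℝ => Real.sinh (3 * l / 2)) :=
    Real.continuous_sinh.measurable.comp (by fun_prop)
  exact ((h1.pow_const N).mul (measurable_const.div h3)).mul (measurable_const.sub h2)

theorem a8_W_int {N : ℕ} (hN : 1 ≤ N) : IntegrableOn (fun l : ℝ =>
    Real.tanh (3 * l / 4) ^ N * (3 / 2 * N / Real.sinh (3 * l / 2))
      * (1 - Real.tanh (3 * l / 2))) (Set.Ioi 0) := by
  refine ((a8_exp_int.const_mul (N : ℝ)).integrableOn (s := Set.Ioi 0)).mono'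
    (a8_W_meas N).aestronglyMeasurable ?_
  refine (ae_restrict_iff' measurableSet_Ioi).mpr (Eventually.of_forall (fun l hl => ?_))
  obtain ⟨h1, h2⟩ := a8_W_bound hN (Set.mem_Ioi.mp hl)
  rw [Real.norm_eq_abs, abs_of_nonneg h1]
  exact h2

theorem a8_kk_le1 (l : ℝ) : kk l ≤ Real.exp (-(3 * |l| / 2)) := by
  refine (kk_le l).trans ?_
  have h : 3 / (2 * Real.pi) ≤ 1 := by
    rw [div_le_one (by positivity)]
    linarith [Real.pi_gt_three]
  calc _ ≤ 1 * Real.exp (-(3 * |l| / 2)) := mul_le_mul_of_nonneg_right h (Real.exp_pos _).le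
    _ = _ := one_mul _

theorem a8_conv0 {K6 : ℝ} {N : ℕ} (f : ℝ → ℝ) (a : ℝ) (ha : 0 ≤ a)
    (hf : ∀ l, |f l| ≤ a * |Real.tanh (3 * l / 4)| ^ N)
    (h1 : (∫ l : ℝ, |Real.tanh (3 * l / 4)| ^ N * Real.exp (-(3 * |l| / 2))) ≤ K6 / N) :
    |∫ u : ℝ, kk (0 - u) * f u| ≤ a * (K6 / N) := by
  have h2 : |∫ u : ℝ, kk (0 - u) * f u| ≤
      ∫ u : ℝ, a * (|Real.tanh (3 * u / 4)| ^ N * Real.exp (-(3 * |u| / 2))) := by
    rw [← Real.norm_eq_abs]
    refine norm_integral_le_of_norm_le ((a8_T_int N).const_mul a)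
      (Eventually.of_forall (fun u => ?_))
    rw [Real.norm_eq_abs, abs_mul, zero_sub, kk_even, abs_of_pos (kk_pos u)]
    calc kk u * |f u| ≤ Real.exp (-(3 * |u| / 2)) * (a * |Real.tanh (3 * u / 4)| ^ N) :=
          mul_le_mul (a8_kk_le1 u) (hf u) (abs_nonneg _) (Real.exp_pos _).le
      _ = _ := by ring
  rw [integral_const_mul] at h2
  exact h2.trans (mul_le_mul_of_nonneg_left h1 ha)

theorem a8_del {K6 K4 : ℝ} (hK4 : 0 < K4) {N : ℕ} (f g : ℝ → ℝ) (a Kg : ℝ) (ha : 0 ≤ a)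
    (hKg0 : 0 ≤ Kg)
    (hf : Nice f) (hg : Nice g) (hfb : ∀ l, |f l| ≤ a * |Real.tanh (3 * l / 4)| ^ N)
    (hgb : ∀ l, |g l| ≤ Kg) (hg' : ∀ l, |deriv g l| ≤ K4)
    (hf' : ∀ l, |deriv f l| ≤ K4 * (|Real.tanh (3 * l / 4)| ^ N
      + N * |Real.tanh (3 * l / 4)| ^ (N - 1) / Real.cosh (3 * l / 4) ^ 2))
    (h1 : (∫ l : ℝ, |Real.tanh (3 * l / 4)| ^ N * Real.exp (-(3 * |l| / 2))) ≤ K6 / N)
    (h2 : (∫ l : ℝ, N * |Real.tanh (3 * l / 4)| ^ (N - 1) / Real.cosh (3 * l / 4) ^ 2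
      * Real.exp (-(3 * |l| / 2))) ≤ K6 / N) :
    |Del f g| ≤ (a * K4 + 2 * Kg * K4) * (K6 / N) := by
  have hfa : ∀ l, |f l| ≤ a := fun l => (hfb l).trans (by
    calc a * |Real.tanh (3 * l / 4)| ^ N ≤ a * 1 :=
          mul_le_mul_of_nonneg_left (a8_pow_le N l) ha
      _ = a := mul_one _)
  refine (Del_le f g a Kg K4 hf hg hfa hgb hg').trans ?_
  have h3 : (∫ l : ℝ, (|f l| * K4 + |deriv f l| * Kg) * Real.exp (-(3 * |l| / 2))) ≤
      ∫ l : ℝ, ((a * K4 + Kg * K4) *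
        (|Real.tanh (3 * l / 4)| ^ N * Real.exp (-(3 * |l| / 2)))
        + (Kg * K4) * (N * |Real.tanh (3 * l / 4)| ^ (N - 1) / Real.cosh (3 * l / 4) ^ 2
      * Real.exp (-(3 * |l| / 2)))) := by
    refine integral_mono_of_nonneg (Eventually.of_forall (fun l => ?_))
      (((a8_T_int N).const_mul _).add ((a8_S_int N).const_mul _))
      (Eventually.of_forall (fun l => ?_))
    · simp only [Pi.zero_apply]
      positivity
    · simp only
      have e1 : |f l| * K4 ≤ a * |Real.tanh (3 * l / 4)| ^ N * K4 :=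
        mul_le_mul_of_nonneg_right (hfb l) hK4.le
      have e2 : |deriv f l| * Kg ≤ K4 * (|Real.tanh (3 * l / 4)| ^ N
          + N * |Real.tanh (3 * l / 4)| ^ (N - 1) / Real.cosh (3 * l / 4) ^ 2) * Kg :=
        mul_le_mul_of_nonneg_right (hf' l) hKg0
      calc _ ≤ (a * |Real.tanh (3 * l / 4)| ^ N * K4 + K4 * (|Real.tanh (3 * l / 4)| ^ N
          + N * |Real.tanh (3 * l / 4)| ^ (N - 1) / Real.cosh (3 * l / 4) ^ 2) * Kg)
            * Real.exp (-(3 * |l| / 2)) :=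
            mul_le_mul_of_nonneg_right (add_le_add e1 e2) (Real.exp_pos _).le
        _ = _ := by ring
  refine h3.trans ?_
  rw [integral_add ((a8_T_int N).const_mul _) ((a8_S_int N).const_mul _), integral_const_mul,
    integral_const_mul]
  have e1 := mul_le_mul_of_nonneg_left h1 (by positivity : 0 ≤ a * K4 + Kg * K4)
  have e2 := mul_le_mul_of_nonneg_left h2 (by positivity : 0 ≤ Kg * K4)
  calc _ ≤ (a * K4 + Kg * K4) * (K6 / N) + (Kg * K4) * (K6 / N) := add_le_add e1 e2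
    _ = _ := by ring

theorem a8_core {K6 K4 : ℝ} (hK6 : 0 < K6) (hK4 : 0 < K4) {N : ℕ} (hN : 2 ≤ N)
    (h1 : (∫ l : ℝ, |Real.tanh (3 * l / 4)| ^ N * Real.exp (-(3 * |l| / 2))) ≤ K6 / N)
    (h2 : (∫ l : ℝ, N * |Real.tanh (3 * l / 4)| ^ (N - 1) / Real.cosh (3 * l / 4) ^ 2
      * Real.exp (-(3 * |l| / 2))) ≤ K6 / N)
    (h3 : (∫ l in Set.Ioi (0 : ℝ), Real.tanh (3 * l / 4) ^ N * (3 / 2 * N / Real.sinh (3 * l / 2))
      * (1 - Real.tanh (3 * l / 2))) ≤ K6 / N)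
    {X Y B : ℝ → ℝ} (h : Sys N X Y B)
    (d1 : ∀ l, |deriv (G0 X) l| ≤ K4) (d2 : ∀ l, |deriv (G1 X Y) l| ≤ K4)
    (d3 : ∀ l, |deriv (A1 N X) l| ≤ K4 * (|Real.tanh (3 * l / 4)| ^ N
      + N * |Real.tanh (3 * l / 4)| ^ (N - 1) / Real.cosh (3 * l / 4) ^ 2))
    (d4 : ∀ l, |deriv (A2 N X B) l| ≤ K4 * (|Real.tanh (3 * l / 4)| ^ N
      + N * |Real.tanh (3 * l / 4)| ^ (N - 1) / Real.cosh (3 * l / 4) ^ 2)) :
    |(N : ℝ) * (∫ l in Set.Ioi (0 : ℝ), kk l * A2 N X B l) + 3 / (4 * Real.pi)|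
      ≤ (84 * K6 + 30 * K4 * K6) / N := by
  obtain ⟨b1, b2, b3, b4, b5, b6, b7⟩ := sys_bounds (by omega : 1 ≤ N) h
  obtain ⟨n1, n2, n3, n4, n5⟩ := sys_nice (by omega : 1 ≤ N) h
  have hsq3 : Real.sqrt 3 ≤ 2 := by
    rw [show (2:ℝ) = Real.sqrt 4 by
      rw [show (4:ℝ) = 2 ^ 2 by norm_num, Real.sqrt_sq (by norm_num)]]
    exact Real.sqrt_le_sqrt (by norm_num)
  have hN0 : (0:ℝ) < N := by
    have : 0 < N := by omega
    exact_mod_cast this
  have hKN : 0 ≤ K6 / N := by positivity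
  -- the values at zero
  have hT : ∀ l, 0 ≤ |Real.tanh (3 * l / 4)| ^ N := fun l => by positivity
  have b4' : ∀ l, |A1 N X l| ≤ 4 * |Real.tanh (3 * l / 4)| ^ N := fun l =>
    (b4 l).trans (mul_le_mul_of_nonneg_right (by linarith) (hT l))
  have hX0 : |X 0| ≤ 4 * (K6 / N) := by
    rw [h.eqX 0]
    exact a8_conv0 _ 4 (by norm_num) b4' h1
  have hY0 : |Y 0| ≤ 12 * (K6 / N) := by
    rw [h.eqY 0]
    exact a8_conv0 _ 12 (by norm_num) b5 h1
  have hD1 : |Del (A1 N X) (G1 X Y)| ≤ (4 * K4 + 2 * 4 * K4) * (K6 / N) :=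
    a8_del hK4 _ _ 4 4 (by norm_num) (by norm_num) n4 n2 b4' b6 d2 d3 h1 h2
  have hD2 : |Del (A2 N X B) (G0 X)| ≤ (12 * K4 + 2 * 3 * K4) * (K6 / N) :=
    a8_del hK4 _ _ 12 3 (by norm_num) (by norm_num) n5 n1 b5
      (fun l => by rw [abs_of_nonneg (b7 l).1]; exact (b7 l).2) d1 d4 h1 h2
  -- the identity
  obtain ⟨hi, hid⟩ := half_identity hN h
  have hHint : IntegrableOn (fun l => A2 N X B l * (3 / 2 * N / Real.sinh (3 * l / 2))
      * (1 - Real.tanh (3 * l / 2))) (Set.Ioi 0) := by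
    refine ((a8_W_int (by omega : 1 ≤ N)).const_mul 12).mono' ?_ ?_
    · refine hi.aestronglyMeasurable.mul ?_
      exact (continuous_const.sub (a8_tanh_cont.comp (by fun_prop))).aestronglyMeasurable
    · refine (ae_restrict_iff' measurableSet_Ioi).mpr (Eventually.of_forall (fun l hl => ?_))
      have hl' : (0:ℝ) < l := hl
      have hs : 0 < Real.sinh (3 * l / 2) := Real.sinh_pos_iff.mpr (by linarith)
      have ha : 0 ≤ 1 - Real.tanh (3 * l / 2) := by linarith [Real.tanh_lt_one (3 * l / 2)]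
      have h0 : 0 ≤ Real.tanh (3 * l / 4) := a8_tanh_nonneg (by linarith)
      have b := b5 l
      rw [abs_of_nonneg h0] at b
      rw [Real.norm_eq_abs, abs_mul, abs_mul, abs_of_nonneg ha,
        abs_of_nonneg (by positivity : 0 ≤ 3 / 2 * (N:ℝ) / Real.sinh (3 * l / 2))]
      calc _ ≤ 12 * Real.tanh (3 * l / 4) ^ N * (3 / 2 * (N:ℝ) / Real.sinh (3 * l / 2))
            * (1 - Real.tanh (3 * l / 2)) := by
            refine mul_le_mul_of_nonneg_right (mul_le_mul_of_nonneg_right b (by positivity)) ha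
        _ = _ := by ring
  have hH : |∫ l in Set.Ioi (0:ℝ), A2 N X B l * (3 / 2 * N / Real.sinh (3 * l / 2))
      * (1 - Real.tanh (3 * l / 2))| ≤ 12 * (K6 / N) := by
    have : |∫ l in Set.Ioi (0:ℝ), A2 N X B l * (3 / 2 * N / Real.sinh (3 * l / 2))
        * (1 - Real.tanh (3 * l / 2))| ≤ ∫ l in Set.Ioi (0:ℝ),
        12 * (Real.tanh (3 * l / 4) ^ N * (3 / 2 * N / Real.sinh (3 * l / 2))
        * (1 - Real.tanh (3 * l / 2))) := by
      rw [← Real.norm_eq_abs]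
      refine norm_integral_le_of_norm_le ((a8_W_int (by omega : 1 ≤ N)).const_mul 12) ?_
      refine (ae_restrict_iff' measurableSet_Ioi).mpr (Eventually.of_forall (fun l hl => ?_))
      have hl' : (0:ℝ) < l := hl
      have hs : 0 < Real.sinh (3 * l / 2) := Real.sinh_pos_iff.mpr (by linarith)
      have ha : 0 ≤ 1 - Real.tanh (3 * l / 2) := by linarith [Real.tanh_lt_one (3 * l / 2)]
      have h0 : 0 ≤ Real.tanh (3 * l / 4) := a8_tanh_nonneg (by linarith)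
      have b := b5 l
      rw [abs_of_nonneg h0] at b
      rw [Real.norm_eq_abs, abs_mul, abs_mul, abs_of_nonneg ha,
        abs_of_nonneg (by positivity : 0 ≤ 3 / 2 * (N:ℝ) / Real.sinh (3 * l / 2))]
      calc _ ≤ 12 * Real.tanh (3 * l / 4) ^ N * (3 / 2 * (N:ℝ) / Real.sinh (3 * l / 2))
            * (1 - Real.tanh (3 * l / 2)) := by
            refine mul_le_mul_of_nonneg_right (mul_le_mul_of_nonneg_right b (by positivity)) ha
        _ = _ := by ring
    rw [integral_const_mul] at this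
    exact this.trans (mul_le_mul_of_nonneg_left h3 (by norm_num))
  have hid2 : (N : ℝ) * (∫ l in Set.Ioi (0 : ℝ), kk l * A2 N X B l)
      = 1 / (2 * Real.pi) * ((∫ l in Set.Ioi (0:ℝ), A2 N X B l * (3 / 2 * N / Real.sinh (3 * l / 2)))
        - ∫ l in Set.Ioi (0:ℝ), A2 N X B l * (3 / 2 * N / Real.sinh (3 * l / 2))
      * (1 - Real.tanh (3 * l / 2))) := by
    rw [← integral_sub hi hHint, ← integral_const_mul, ← integral_const_mul]
    refine setIntegral_congr_fun measurableSet_Ioi (fun l hl => ?_)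
    have hl' : (0:ℝ) < l := hl
    have hs : 0 < Real.sinh (3 * l / 2) := Real.sinh_pos_iff.mpr (by linarith)
    have hc : 0 < Real.cosh (3 * l / 2) := Real.cosh_pos _
    simp only [kk, Real.tanh_eq_sinh_div_cosh]
    have hpi := Real.pi_pos
    field_simp
    ring
  set I1 := ∫ l in Set.Ioi (0:ℝ), A2 N X B l * (3 / 2 * N / Real.sinh (3 * l / 2)) with hI1
  set I2 := ∫ l in Set.Ioi (0:ℝ), A2 N X B l * (3 / 2 * N / Real.sinh (3 * l / 2))
      * (1 - Real.tanh (3 * l / 2)) with hI2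
  have hpi := Real.pi_pos
  have hpi3 := Real.pi_gt_three
  have key : (N : ℝ) * (∫ l in Set.Ioi (0 : ℝ), kk l * A2 N X B l) + 3 / (4 * Real.pi)
      = 1 / (4 * Real.pi) * (- (G0 X 0 * Y 0 + X 0 ^ 2 - G1 X Y 0 * X 0)
        - Del (A1 N X) (G1 X Y) - Del (A2 N X B) (G0 X) - 2 * I2) := by
    rw [hid2]
    have : I1 = (-3 - (G0 X 0 * Y 0 + X 0 ^ 2 - G1 X Y 0 * X 0)
        - Del (A1 N X) (G1 X Y) - Del (A2 N X B) (G0 X)) / 2 := by linarith
    rw [this]
    field_simp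
    ring
  rw [key, abs_mul, abs_of_pos (by positivity : 0 < 1 / (4 * Real.pi))]
  have h4pi : 1 / (4 * Real.pi) ≤ 1 := by
    rw [div_le_one (by positivity)]
    linarith
  have hG0 : |G0 X 0 * Y 0| ≤ 3 * (12 * (K6 / N)) := by
    rw [abs_mul]
    refine mul_le_mul ?_ hY0 (abs_nonneg _) (by norm_num)
    rw [abs_of_nonneg (b7 0).1]; exact (b7 0).2
  have hXX : |X 0 ^ 2| ≤ 2 * (4 * (K6 / N)) := by
    rw [pow_two, abs_mul]
    exact mul_le_mul ((b1 0).trans hsq3) hX0 (abs_nonneg _) (by norm_num)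
  have hGX : |G1 X Y 0 * X 0| ≤ 4 * (4 * (K6 / N)) := by
    rw [abs_mul]
    exact mul_le_mul (b6 0) hX0 (abs_nonneg _) (by norm_num)
  have hbig : |(- (G0 X 0 * Y 0 + X 0 ^ 2 - G1 X Y 0 * X 0)
        - Del (A1 N X) (G1 X Y) - Del (A2 N X B) (G0 X) - 2 * I2)| ≤
        3 * (12 * (K6 / N)) + 2 * (4 * (K6 / N)) + 4 * (4 * (K6 / N))
        + (4 * K4 + 2 * 4 * K4) * (K6 / N) + (12 * K4 + 2 * 3 * K4) * (K6 / N)
        + 2 * (12 * (K6 / N)) := by
    rw [abs_le] at *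
    constructor <;> linarith [hG0.1, hG0.2, hXX.1, hXX.2, hGX.1, hGX.2, hD1.1, hD1.2, hD2.1,
      hD2.2, hH.1, hH.2]
  calc _ ≤ 1 * |(- (G0 X 0 * Y 0 + X 0 ^ 2 - G1 X Y 0 * X 0)
        - Del (A1 N X) (G1 X Y) - Del (A2 N X B) (G0 X) - 2 * I2)| :=
        mul_le_mul_of_nonneg_right h4pi (abs_nonneg _)
    _ ≤ 3 * (12 * (K6 / N)) + 2 * (4 * (K6 / N)) + 4 * (4 * (K6 / N))
        + (4 * K4 + 2 * 4 * K4) * (K6 / N) + (12 * K4 + 2 * 3 * K4) * (K6 / N)
        + 2 * (12 * (K6 / N)) := by rw [one_mul]; exact hbig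
    _ = (84 * K6 + 30 * K4 * K6) / N := by ring


theorem half_asymp : ∃ K : ℝ, ∀ (n : ℕ) (X Y B : ℝ → ℝ), 1 ≤ n → Sys (2 * n + 1) X Y B →
    |(2 * n + 1 : ℝ) * (∫ l in Set.Ioi (0 : ℝ), kk l * A2 (2 * n + 1) X B l)
      + 3 / (4 * Real.pi)| ≤ K / (2 * n + 1) := by
  obtain ⟨K6, hK6, h6⟩ := dec_int
  obtain ⟨K4, hK4, h4⟩ := sys_deriv
  refine ⟨84 * K6 + 30 * K4 * K6, fun n X Y B hn h => ?_⟩
  obtain ⟨h1, h2, h3⟩ := h6 (2 * n + 1) (by omega)
  obtain ⟨d1, d2, d3, d4⟩ := h4 (2 * n + 1) X Y B (by omega) h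
  have := a8_core hK6 hK4 (by omega) h1 h2 h3 h d1 d2 d3 d4
  push_cast at this
  exact this

end H906K
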