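import Pool.Agent.H906R3.K6.A8

/-! A9: reflection and sum of the two halves. -/

namespace H906K
open Pool.Agent.H974R3 Polynomial MeasureTheory Filter Topology

theorem a9_kk_even (l : ℝ) : kk (-l) = kk l := by
  unfold kk
  have : 3 * -l / 2 = -(3 * l / 2) := by ring
  rw [this, Real.cosh_neg]

/-- change of variables -/
theorem a9_conv (f : ℝ → ℝ) (l : ℝ) :
    ∫ u : ℝ, kk (l - u) * f (-u) = ∫ u : ℝ, kk (-l - u) * f u := by
  rw [← integral_neg_eq_self (fun u : ℝ => kk (-l - u) * f u)]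
  congr 1
  funext u
  have : -l - -u = -(l - u) := by ring
  rw [this, a9_kk_even]

theorem a9_be0 (X : ℝ → ℝ) (l : ℝ) : be0 (fun l => -X (-l)) l = be0 X (-l) := by
  unfold be0
  rw [← a9_conv (G0 X) l]
  congr 1
  funext u
  simp [G0]

theorem a9_A1 (n : ℕ) (X : ℝ → ℝ) (l : ℝ) :
    A1 (2 * n + 1) (fun l => -X (-l)) l = -A1 (2 * n + 1) X (-l) := by
  unfold A1
  rw [a9_be0]
  have h1 : 3 * l / 4 = -(3 * -l / 4) := by ring
  rw [h1, Real.tanh_neg, Odd.neg_pow ⟨n, rfl⟩]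
  ring

theorem a9_A2 (n : ℕ) (X B : ℝ → ℝ) (l : ℝ) :
    A2 (2 * n + 1) (fun l => -X (-l)) (fun l => -B (-l)) l = A2 (2 * n + 1) X B (-l) := by
  unfold A2
  rw [a9_A1]
  ring

theorem a9_G1 (X Y : ℝ → ℝ) (l : ℝ) :
    G1 (fun l => -X (-l)) (fun l => Y (-l)) l = -G1 X Y (-l) := by
  unfold G1
  simp only [neg_sq]
  ring

theorem a9_nice {f : ℝ → ℝ} (hf : Nice f) : Nice (fun l => f (-l)) := by
  have h1 : deriv (fun l => f (-l)) = fun l => -deriv f (-l) := by
    funext l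
    exact deriv_comp_neg f l
  refine ⟨hf.1.comp differentiable_neg, ?_, ?_⟩
  · rw [h1]
    exact (hf.2.1.comp continuous_neg).neg
  · rw [h1]
    exact hf.2.2.comp_neg.neg

theorem a9_nice_neg {f : ℝ → ℝ} (hf : Nice f) : Nice (fun l => -f (-l)) := by
  have h := a9_nice hf
  have h1 : deriv (fun l => -f (-l)) = fun l => -deriv (fun l => f (-l)) l := by
    funext l
    exact deriv.fun_neg
  refine ⟨h.1.neg, ?_, ?_⟩
  · rw [h1]
    exact h.2.1.neg
  · rw [h1]
    exact h.2.2.neg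

theorem sys_reflect {n : ℕ} {X Y B : ℝ → ℝ} (h : Sys (2 * n + 1) X Y B) :
    Sys (2 * n + 1) (fun l => -X (-l)) (fun l => Y (-l)) (fun l => -B (-l)) where
  niceX := a9_nice_neg h.niceX
  niceY := a9_nice h.niceY
  niceB := a9_nice_neg h.niceB
  eqX l := by
    simp only [a9_A1, mul_neg]
    rw [integral_neg, a9_conv (A1 (2 * n + 1) X) l, ← h.eqX]
  eqY l := by
    simp only [a9_A2]
    rw [a9_conv (A2 (2 * n + 1) X B) l, ← h.eqY]
  eqB l := by
    simp only [a9_G1, mul_neg]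
    rw [integral_neg, a9_conv (G1 X Y) l, ← h.eqB]
  topX := by
    have := (h.botX.comp tendsto_neg_atTop_atBot).neg
    rwa [neg_neg] at this
  botX := (h.topX.comp tendsto_neg_atBot_atTop).neg
  topY := h.botY.comp tendsto_neg_atTop_atBot
  botY := h.topY.comp tendsto_neg_atBot_atTop
  topB := by
    have := (h.botB.comp tendsto_neg_atTop_atBot).neg
    rwa [neg_neg] at this
  botB := (h.topB.comp tendsto_neg_atBot_atTop).neg

theorem sys_asymp : ∃ K : ℝ, ∀ (n : ℕ) (X Y B : ℝ → ℝ), 1 ≤ n → Sys (2 * n + 1) X Y B →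
    |(2 * n + 1 : ℝ) * Y 0 + 3 / (2 * Real.pi)| ≤ K / (2 * n + 1) := by
  obtain ⟨K, hK⟩ := half_asymp
  refine ⟨2 * K, fun n X Y B hn h => ?_⟩
  have h1 := hK n X Y B hn h
  have h2 := hK n _ _ _ hn (sys_reflect h)
  have hint : Integrable (fun u : ℝ => kk u * A2 (2 * n + 1) X B u) := by
    refine Integrable.mul_bdd (c := 12) kk_integrable
      (sys_nice (by omega) h).2.2.2.2.1.continuous.aestronglyMeasurable ?_
    refine Filter.Eventually.of_forall fun u => ?_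
    refine ((sys_bounds (by omega) h).2.2.2.2.1 u).trans ?_
    have h3 : |Real.tanh (3 * u / 4)| ≤ 1 := (Real.abs_tanh_lt_one _).le
    have h4 : |Real.tanh (3 * u / 4)| ^ (2 * n + 1) ≤ 1 := pow_le_one₀ (abs_nonneg _) h3
    linarith
  have hY : Y 0 = (∫ u in Set.Ioi (0 : ℝ), kk u * A2 (2 * n + 1) X B u) +
      ∫ u in Set.Ioi (0 : ℝ), kk u *
        A2 (2 * n + 1) (fun l => -X (-l)) (fun l => -B (-l)) u := by
    have e1 : Y 0 = ∫ u : ℝ, kk u * A2 (2 * n + 1) X B u := by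
      rw [h.eqY 0]
      congr 1
      funext u
      rw [zero_sub, a9_kk_even]
    have e2 : (∫ u in Set.Ioi (0 : ℝ), kk u *
        A2 (2 * n + 1) (fun l => -X (-l)) (fun l => -B (-l)) u) =
        ∫ u in Set.Iic (0 : ℝ), kk u * A2 (2 * n + 1) X B u := by
      have e3 := integral_comp_neg_Ioi (0 : ℝ) (fun u : ℝ => kk u * A2 (2 * n + 1) X B u)
      rw [neg_zero] at e3
      rw [← e3]
      congr 1
      funext u
      rw [a9_A2, a9_kk_even]
    rw [e1, e2]
    exact (intervalIntegral.integral_Iic_add_Ioi hint.integrableOn hint.integrableOn).symm.trans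
      (add_comm _ _)
  rw [hY]
  have h5 : ((2 * n + 1 : ℝ) * ((∫ u in Set.Ioi (0 : ℝ), kk u * A2 (2 * n + 1) X B u) +
      ∫ u in Set.Ioi (0 : ℝ), kk u *
        A2 (2 * n + 1) (fun l => -X (-l)) (fun l => -B (-l)) u) + 3 / (2 * Real.pi)) =
      ((2 * n + 1 : ℝ) * (∫ l in Set.Ioi (0 : ℝ), kk l * A2 (2 * n + 1) X B l)
        + 3 / (4 * Real.pi)) +
      ((2 * n + 1 : ℝ) * (∫ l in Set.Ioi (0 : ℝ), kk l *
        A2 (2 * n + 1) (fun l => -X (-l)) (fun l => -B (-l)) l) + 3 / (4 * Real.pi)) := by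
    have := Real.pi_pos
    field_simp
    ring
  rw [h5]
  refine (abs_add_le _ _).trans ?_
  have h6 : 2 * K / (2 * n + 1 : ℝ) = K / (2 * n + 1) + K / (2 * n + 1) := by ring
  rw [h6]
  exact add_le_add h1 h2

end H906K
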