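import Pool.Agent.H906R3.K6.Defs2

/-!
# Formal perturbation of a simple eigenvalue

The eigenvector for the eigenvalue `L` is the solution `v` of `(A - L + e 1ᵀ) v = e`, and `L` is the
fixed point of a contraction of the ring of power series.
-/

namespace H906K
open Polynomial MeasureTheory Filter Topology

/-- the matrix `A - L + e 1ᵀ` -/
noncomputable def e1M {ι : Type*} [DecidableEq ι] (A : Matrix ι ι (PowerSeries ℂ))
    (e : ι → ℂ) (L : PowerSeries ℂ) : Matrix ι ι (PowerSeries ℂ) :=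
  fun i j => A i j - (if i = j then L else 0) + PowerSeries.C (e i)

theorem e1M_mulVec {ι : Type*} [Fintype ι] [DecidableEq ι] (A : Matrix ι ι (PowerSeries ℂ))
    (e : ι → ℂ) (L : PowerSeries ℂ) (v : ι → PowerSeries ℂ) (i : ι) :
    (e1M A e L).mulVec v i = A.mulVec v i - L * v i + PowerSeries.C (e i) * ∑ j, v j := by
  unfold e1M Matrix.mulVec dotProduct
  have h : ∀ j, (A i j - (if i = j then L else 0) + PowerSeries.C (e i)) * v j
      = A i j * v j - (if i = j then L * v j else 0) + PowerSeries.C (e i) * v j := by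
    intro j
    by_cases hj : i = j
    · simp [hj]
      ring
    · simp [hj]
      ring
  rw [Finset.sum_congr rfl (fun j _ => h j), Finset.sum_add_distrib, Finset.sum_sub_distrib,
    Finset.sum_ite_eq, if_pos (Finset.mem_univ i), Finset.mul_sum]

theorem e1M_vecMul {ι : Type*} [Fintype ι] [DecidableEq ι] (A : Matrix ι ι (PowerSeries ℂ))
    (e : ι → ℂ) (L : PowerSeries ℂ) (w : ι → PowerSeries ℂ) (j : ι) :
    (e1M A e L).vecMul w j
      = A.vecMul w j - L * w j + ∑ i, w i * PowerSeries.C (e i) := by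
  unfold e1M Matrix.vecMul dotProduct
  have h : ∀ i, w i * (A i j - (if i = j then L else 0) + PowerSeries.C (e i))
      = w i * A i j - (if i = j then L * w i else 0) + w i * PowerSeries.C (e i) := by
    intro i
    by_cases hj : i = j
    · simp [hj]
      ring
    · simp [hj]
      ring
  rw [Finset.sum_congr rfl (fun i _ => h i), Finset.sum_add_distrib, Finset.sum_sub_distrib,
    Finset.sum_ite_eq', if_pos (Finset.mem_univ j)]

theorem e1M_isUnit {ι : Type*} [Fintype ι] [DecidableEq ι]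
    (A : Matrix ι ι (PowerSeries ℂ)) (l0 : ℂ)
    (h1 : ∀ j, ∑ i, PowerSeries.coeff 0 (A i j) = l0)
    (h2 : ∀ u : ι → ℂ, (∀ i, ∑ j, PowerSeries.coeff 0 (A i j) * u j = l0 * u i) →
      ∑ i, u i = 0 → u = 0)
    (e : ι → ℂ) (he : ∑ i, e i = 1) (L : PowerSeries ℂ) (hL : PowerSeries.coeff 0 L = l0) :
    IsUnit (e1M A e L).det := by
  rw [PowerSeries.isUnit_iff_constantCoeff, isUnit_iff_ne_zero, RingHom.map_det]
  intro h0
  obtain ⟨u, hu, hu0⟩ := Matrix.exists_mulVec_eq_zero_iff.mpr h0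
  have key : ∀ i, ∑ j, PowerSeries.coeff 0 (A i j) * u j - l0 * u i + e i * ∑ j, u j = 0 := by
    intro i
    have h3 := congrFun hu0 i
    unfold Matrix.mulVec dotProduct at h3
    rw [Pi.zero_apply] at h3
    rw [← h3]
    have h : ∀ j, ((PowerSeries.constantCoeff (R := ℂ)).mapMatrix (e1M A e L)) i j * u j
        = PowerSeries.coeff 0 (A i j) * u j - (if i = j then l0 * u j else 0) + e i * u j := by
      intro j
      rw [RingHom.mapMatrix_apply, Matrix.map_apply]
      unfold e1M
      rw [map_add, map_sub, PowerSeries.constantCoeff_C, PowerSeries.coeff_zero_eq_constantCoeff]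
      by_cases hj : i = j
      · rw [if_pos hj, if_pos hj, ← hL, PowerSeries.coeff_zero_eq_constantCoeff]
        ring
      · rw [if_neg hj, if_neg hj, map_zero]
        ring
    rw [Finset.sum_congr rfl (fun j _ => h j), Finset.sum_add_distrib, Finset.sum_sub_distrib,
      Finset.sum_ite_eq, if_pos (Finset.mem_univ i), Finset.mul_sum]
  have hs : ∑ j, u j = 0 := by
    have h3 : ∑ i, (∑ j, PowerSeries.coeff 0 (A i j) * u j - l0 * u i + e i * ∑ j, u j) = 0 :=
      Finset.sum_eq_zero (fun i _ => key i)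
    rw [Finset.sum_add_distrib, Finset.sum_sub_distrib, ← Finset.sum_mul, he, one_mul,
      Finset.sum_comm, ← Finset.mul_sum] at h3
    have h4 : ∑ j, ∑ i, PowerSeries.coeff 0 (A i j) * u j = l0 * ∑ j, u j := by
      rw [Finset.mul_sum]
      apply Finset.sum_congr rfl
      intro j _
      rw [← Finset.sum_mul, h1 j]
    rw [h4, sub_self, zero_add] at h3
    exact h3
  apply hu
  apply h2 u _ hs
  intro i
  have h5 := key i
  rw [hs, mul_zero, add_zero] at h5
  exact sub_eq_zero.1 h5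

/-- Fixed points of contractions of `ℂ⟦ε⟧`. -/
theorem e1_fix (F : PowerSeries ℂ → PowerSeries ℂ) (l0 : ℂ)
    (h0 : ∀ l, PowerSeries.coeff 0 (F l) = l0)
    (h1 : ∀ l l', PowerSeries.coeff 0 l = l0 → PowerSeries.coeff 0 l' = l0 → ∀ k : ℕ,
      PowerSeries.X ^ k ∣ l - l' → PowerSeries.X ^ (k + 1) ∣ F l - F l') :
    ∃ l, PowerSeries.coeff 0 l = l0 ∧ F l = l := by
  obtain ⟨x, hx0, hx⟩ : ∃ x : ℕ → PowerSeries ℂ, PowerSeries.coeff 0 (x 0) = l0 ∧
      ∀ n, x (n + 1) = F (x n) :=
    ⟨fun n => F^[n] (PowerSeries.C l0), by simp, fun n => Function.iterate_succ_apply' _ _ _⟩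
  have hc : ∀ n, PowerSeries.coeff 0 (x n) = l0 := by
    intro n
    cases n with
    | zero => exact hx0
    | succ n => rw [hx]; exact h0 _
  have hd : ∀ n, PowerSeries.X ^ (n + 1) ∣ x (n + 1) - x n := by
    intro n
    induction n with
    | zero =>
      rw [zero_add, pow_one, PowerSeries.X_dvd_iff, map_sub,
        ← PowerSeries.coeff_zero_eq_constantCoeff_apply,
        ← PowerSeries.coeff_zero_eq_constantCoeff_apply, hc, hc, sub_self]
    | succ n ih =>
      rw [hx (n + 1)]
      nth_rewrite 2 [hx n]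
      exact h1 _ _ (hc _) (hc _) _ ih
  have hst : ∀ j n, PowerSeries.coeff j (x (j + n)) = PowerSeries.coeff j (x j) := by
    intro j n
    induction n with
    | zero => rw [add_zero]
    | succ n ih =>
      rw [← ih]
      have h3 := PowerSeries.X_pow_dvd_iff.1 (hd (j + n)) j (by omega)
      rw [map_sub] at h3
      exact sub_eq_zero.1 h3
  obtain ⟨l, hl⟩ : ∃ l : PowerSeries ℂ, ∀ j, PowerSeries.coeff j l = PowerSeries.coeff j (x j) :=
    ⟨PowerSeries.mk (fun j => PowerSeries.coeff j (x j)), fun j => PowerSeries.coeff_mk _ _⟩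
  have hl0 : PowerSeries.coeff 0 l = l0 := by rw [hl, hc]
  have hlx : ∀ n, PowerSeries.X ^ (n + 1) ∣ l - x n := by
    intro n
    rw [PowerSeries.X_pow_dvd_iff]
    intro j hj
    rw [map_sub, hl]
    have h3 := hst j (n - j)
    rw [show j + (n - j) = n by omega] at h3
    rw [h3, sub_self]
  refine ⟨l, hl0, ?_⟩
  ext j
  have h3 := h1 l (x j) hl0 (hc j) (j + 1) (hlx j)
  rw [← hx] at h3
  have h4 := hlx (j + 1)
  have h5 := PowerSeries.X_pow_dvd_iff.1 h3 j (by omega)
  have h6 := PowerSeries.X_pow_dvd_iff.1 h4 j (by omega)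
  rw [map_sub] at h5 h6
  rw [sub_eq_zero.1 h5, sub_eq_zero.1 h6]

/-- the solution of `(A - L + e 1ᵀ) v = e` -/
noncomputable def e1V {ι : Type*} [Fintype ι] [DecidableEq ι] (A : Matrix ι ι (PowerSeries ℂ))
    (e : ι → ℂ) (L : PowerSeries ℂ) : ι → PowerSeries ℂ :=
  (e1M A e L)⁻¹.mulVec (fun i => PowerSeries.C (e i))

theorem e1V_spec {ι : Type*} [Fintype ι] [DecidableEq ι] (A : Matrix ι ι (PowerSeries ℂ))
    (e : ι → ℂ) (L : PowerSeries ℂ) (h : IsUnit (e1M A e L).det) :
    (e1M A e L).mulVec (e1V A e L) = fun i => PowerSeries.C (e i) := by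
  unfold e1V
  rw [Matrix.mulVec_mulVec, Matrix.mul_nonsing_inv _ h, Matrix.one_mulVec]

theorem e1_inj {ι : Type*} [Fintype ι] [DecidableEq ι] (A : Matrix ι ι (PowerSeries ℂ))
    (e : ι → ℂ) (L : PowerSeries ℂ) (h : IsUnit (e1M A e L).det) (u : ι → PowerSeries ℂ) :
    u = (e1M A e L)⁻¹.mulVec ((e1M A e L).mulVec u) := by
  rw [Matrix.mulVec_mulVec, Matrix.nonsing_inv_mul _ h, Matrix.one_mulVec]

theorem eig {ι : Type*} [Fintype ι] [DecidableEq ι] [Nonempty ι]
    (A : Matrix ι ι (PowerSeries ℂ)) (l0 : ℂ)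
    (h1 : ∀ j, ∑ i, PowerSeries.coeff 0 (A i j) = l0)
    (h2 : ∀ u : ι → ℂ, (∀ i, ∑ j, PowerSeries.coeff 0 (A i j) * u j = l0 * u i) →
      ∑ i, u i = 0 → u = 0) :
    ∃ (v : ι → PowerSeries ℂ) (L : PowerSeries ℂ), ∑ i, v i = 1 ∧ A.mulVec v = L • v ∧
      PowerSeries.coeff 0 L = l0 ∧
      (∀ u : ι → PowerSeries ℂ, A.mulVec u = L • u → ∑ i, u i = 0 → u = 0) := by
  obtain ⟨e, he⟩ : ∃ e : ι → ℂ, ∑ i, e i = 1 := by
    refine ⟨Pi.single (Classical.arbitrary ι) 1, ?_⟩
    rw [Finset.sum_pi_single' (Classical.arbitrary ι) (1 : ℂ) Finset.univ,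
      if_pos (Finset.mem_univ _)]
  have hun : ∀ L, PowerSeries.coeff 0 L = l0 → IsUnit (e1M A e L).det :=
    fun L hL => e1M_isUnit A l0 h1 h2 e he L hL
  -- the part of positive degree
  have hX : ∀ i j, PowerSeries.X ∣ A i j - PowerSeries.C (PowerSeries.coeff 0 (A i j)) := by
    intro i j
    rw [PowerSeries.X_dvd_iff, map_sub, PowerSeries.constantCoeff_C,
      PowerSeries.coeff_zero_eq_constantCoeff_apply, sub_self]
  obtain ⟨F, hF⟩ : ∃ F : PowerSeries ℂ → PowerSeries ℂ, ∀ L, F L = PowerSeries.C l0 +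
      ∑ i, ∑ j, (A i j - PowerSeries.C (PowerSeries.coeff 0 (A i j))) * e1V A e L j :=
    ⟨_, fun L => rfl⟩
  have hF0 : ∀ L, PowerSeries.coeff 0 (F L) = l0 := by
    intro L
    rw [hF, map_add, PowerSeries.coeff_zero_C]
    have h3 : PowerSeries.X ∣ ∑ i, ∑ j,
        (A i j - PowerSeries.C (PowerSeries.coeff 0 (A i j))) * e1V A e L j :=
      Finset.dvd_sum (fun i _ => Finset.dvd_sum (fun j _ => Dvd.dvd.mul_right (hX i j) _))
    rw [PowerSeries.X_dvd_iff] at h3
    rw [PowerSeries.coeff_zero_eq_constantCoeff_apply, h3, add_zero]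
  have hF1 : ∀ l l', PowerSeries.coeff 0 l = l0 → PowerSeries.coeff 0 l' = l0 → ∀ k : ℕ,
      PowerSeries.X ^ k ∣ l - l' → PowerSeries.X ^ (k + 1) ∣ F l - F l' := by
    intro l l' hl hl' k hk
    have h3 : ∀ j, PowerSeries.X ^ k ∣ e1V A e l j - e1V A e l' j := by
      have h4 : e1V A e l - e1V A e l'
          = (e1M A e l)⁻¹.mulVec ((l - l') • e1V A e l') := by
        rw [e1_inj A e l (hun l hl) (e1V A e l - e1V A e l')]
        congr 1
        rw [Matrix.mulVec_sub, e1V_spec A e l (hun l hl)]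
        funext i
        have h5 := congrFun (e1V_spec A e l' (hun l' hl')) i
        rw [e1M_mulVec] at h5
        rw [Pi.sub_apply, e1M_mulVec, Pi.smul_apply, smul_eq_mul]
        linear_combination -h5
      intro j
      have h5 := congrFun h4 j
      rw [Pi.sub_apply] at h5
      rw [h5, Matrix.mulVec_smul, Pi.smul_apply, smul_eq_mul]
      exact Dvd.dvd.mul_right hk _
    rw [hF, hF, add_sub_add_left_eq_sub, ← Finset.sum_sub_distrib]
    apply Finset.dvd_sum
    intro i _
    rw [← Finset.sum_sub_distrib]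
    apply Finset.dvd_sum
    intro j _
    rw [← mul_sub, pow_succ']
    exact mul_dvd_mul (hX i j) (h3 j)
  obtain ⟨L, hL0, hL⟩ := e1_fix F l0 hF0 hF1
  have hu := hun L hL0
  have hv : ∀ i, A.mulVec (e1V A e L) i - L * e1V A e L i
      + PowerSeries.C (e i) * ∑ j, e1V A e L j = PowerSeries.C (e i) := by
    intro i
    rw [← e1M_mulVec, e1V_spec A e L hu]
  have hs : ∑ j, e1V A e L j = 1 := by
    have h3 : ∑ i, (A.mulVec (e1V A e L) i - L * e1V A e L i
      + PowerSeries.C (e i) * ∑ j, e1V A e L j) = ∑ i, PowerSeries.C (e i) :=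
      Finset.sum_congr rfl (fun i _ => hv i)
    rw [Finset.sum_add_distrib, Finset.sum_sub_distrib, ← Finset.sum_mul, ← map_sum, he, map_one,
      one_mul, ← Finset.mul_sum] at h3
    have h4 : ∑ i, A.mulVec (e1V A e L) i
        = PowerSeries.C l0 * ∑ j, e1V A e L j + (L - PowerSeries.C l0) := by
      have h5 : L - PowerSeries.C l0 = ∑ i, ∑ j,
          (A i j - PowerSeries.C (PowerSeries.coeff 0 (A i j))) * e1V A e L j := by
        nth_rewrite 1 [← hL]
        rw [hF, add_sub_cancel_left]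
      rw [h5]
      have h6 : PowerSeries.C l0 * ∑ j, e1V A e L j
          = ∑ i, ∑ j, PowerSeries.C (PowerSeries.coeff 0 (A i j)) * e1V A e L j := by
        rw [Finset.sum_comm, Finset.mul_sum]
        apply Finset.sum_congr rfl
        intro j _
        rw [← Finset.sum_mul, ← map_sum, h1 j]
      rw [h6, ← Finset.sum_add_distrib]
      apply Finset.sum_congr rfl
      intro i _
      rw [← Finset.sum_add_distrib]
      apply Finset.sum_congr rfl
      intro j _
      ring
    rw [h4] at h3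
    have h7 : (∑ j, e1V A e L j - 1) * (1 + PowerSeries.C l0 - L) = 0 := by
      linear_combination h3
    rcases mul_eq_zero.1 h7 with h8 | h8
    · exact sub_eq_zero.1 h8
    · exfalso
      have h9 := congrArg (PowerSeries.coeff 0) h8
      rw [map_sub, map_add, hL0, PowerSeries.coeff_zero_C, map_zero] at h9
      simp at h9
  refine ⟨e1V A e L, L, hs, ?_, hL0, ?_⟩
  · funext i
    have h3 := hv i
    rw [hs, mul_one] at h3
    rw [Pi.smul_apply, smul_eq_mul]
    have h4 : A.mulVec (e1V A e L) i - L * e1V A e L i = 0 := by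
      linear_combination h3
    exact sub_eq_zero.1 h4
  · intro u hu1 hu2
    rw [e1_inj A e L hu u]
    have h3 : (e1M A e L).mulVec u = 0 := by
      funext i
      rw [e1M_mulVec, hu1, hu2]
      simp
    rw [h3, Matrix.mulVec_zero]

end H906K
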