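import Pool.Agent.H906R3.K6.E1

/-!
# The left eigenvector
-/

namespace H906K
open Polynomial MeasureTheory Filter Topology

theorem eig_left {ι : Type*} [Fintype ι] [DecidableEq ι] [Nonempty ι]
    (A : Matrix ι ι (PowerSeries ℂ)) (l0 : ℂ)
    (h1 : ∀ j, ∑ i, PowerSeries.coeff 0 (A i j) = l0)
    (h2 : ∀ u : ι → ℂ, (∀ i, ∑ j, PowerSeries.coeff 0 (A i j) * u j = l0 * u i) →
      ∑ i, u i = 0 → u = 0)
    (v : ι → PowerSeries ℂ) (L : PowerSeries ℂ) (hv : ∑ i, v i = 1) (hL : A.mulVec v = L • v) :
    ∃ w : ι → PowerSeries ℂ, (∀ i, PowerSeries.coeff 0 (w i) = 1) ∧ A.vecMul w = L • w := by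
  obtain ⟨e, he⟩ : ∃ e : ι → ℂ, ∑ i, e i = 1 := by
    refine ⟨Pi.single (Classical.arbitrary ι) 1, ?_⟩
    rw [Finset.sum_pi_single' (Classical.arbitrary ι) (1 : ℂ) Finset.univ,
      if_pos (Finset.mem_univ _)]
  have hs : ∑ i, A.mulVec v i = L := by
    rw [hL]
    simp only [Pi.smul_apply, smul_eq_mul]
    rw [← Finset.mul_sum, hv, mul_one]
  have hL0 : PowerSeries.coeff 0 L = l0 := by
    rw [← hs, map_sum]
    unfold Matrix.mulVec dotProduct
    have h3 : ∀ i, PowerSeries.coeff 0 (∑ j, A i j * v j)
        = ∑ j, PowerSeries.coeff 0 (A i j) * PowerSeries.coeff 0 (v j) := by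
      intro i
      rw [map_sum]
      apply Finset.sum_congr rfl
      intro j _
      simp only [PowerSeries.coeff_zero_eq_constantCoeff, map_mul]
    rw [Finset.sum_congr rfl (fun i _ => h3 i), Finset.sum_comm]
    have h4 : ∀ j, ∑ i, PowerSeries.coeff 0 (A i j) * PowerSeries.coeff 0 (v j)
        = l0 * PowerSeries.coeff 0 (v j) := by
      intro j
      rw [← Finset.sum_mul, h1 j]
    rw [Finset.sum_congr rfl (fun j _ => h4 j), ← Finset.mul_sum, ← map_sum, hv]
    simp
  have hu := e1M_isUnit A l0 h1 h2 e he L hL0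
  have hve : (e1M A e L).mulVec v = fun i => PowerSeries.C (e i) := by
    funext i
    rw [e1M_mulVec, hL, hv]
    simp
  have hM1 : v = (e1M A e L)⁻¹.mulVec (fun i => PowerSeries.C (e i)) := by
    rw [← hve]
    exact e1_inj A e L hu v
  obtain ⟨w, hw⟩ : ∃ w, w = (e1M A e L)⁻¹.vecMul (fun _ => (1 : PowerSeries ℂ)) := ⟨_, rfl⟩
  have hwM : (e1M A e L).vecMul w = fun _ => 1 := by
    rw [hw, Matrix.vecMul_vecMul, Matrix.nonsing_inv_mul _ hu, Matrix.vecMul_one]
  have hwe : ∑ i, w i * PowerSeries.C (e i) = 1 := by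
    have h3 : w ⬝ᵥ (fun i => PowerSeries.C (e i)) = 1 := by
      rw [hw, ← Matrix.dotProduct_mulVec, ← hM1]
      unfold dotProduct
      simp only [one_mul]
      exact hv
    exact h3
  refine ⟨w, ?_, ?_⟩
  · -- constant coefficients
    have hc : ∀ j, ∑ i, PowerSeries.constantCoeff (w i - 1)
        * PowerSeries.constantCoeff (e1M A e L i j) = 0 := by
      intro j
      have h3 := congrFun hwM j
      unfold Matrix.vecMul dotProduct at h3
      have h4 := congrArg (PowerSeries.constantCoeff (R := ℂ)) h3
      rw [map_sum, map_one] at h4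
      have h5 : ∑ i, PowerSeries.constantCoeff (e1M A e L i j) = 1 := by
        unfold e1M
        have h6 : ∀ i, PowerSeries.constantCoeff
            (A i j - (if i = j then L else 0) + PowerSeries.C (e i))
            = PowerSeries.coeff 0 (A i j) - (if i = j then l0 else 0) + e i := by
          intro i
          rw [map_add, map_sub, PowerSeries.constantCoeff_C,
            PowerSeries.coeff_zero_eq_constantCoeff]
          by_cases hj : i = j
          · rw [if_pos hj, if_pos hj, ← hL0, PowerSeries.coeff_zero_eq_constantCoeff]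
          · rw [if_neg hj, if_neg hj, map_zero]
        rw [Finset.sum_congr rfl (fun i _ => h6 i), Finset.sum_add_distrib,
          Finset.sum_sub_distrib, h1 j, Finset.sum_ite_eq', if_pos (Finset.mem_univ j), he]
        ring
      have h7 : ∀ i, PowerSeries.constantCoeff (w i - 1)
          * PowerSeries.constantCoeff (e1M A e L i j)
          = PowerSeries.constantCoeff (w i * e1M A e L i j)
            - PowerSeries.constantCoeff (e1M A e L i j) := by
        intro i
        rw [map_sub, map_one, map_mul]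
        ring
      rw [Finset.sum_congr rfl (fun i _ => h7 i), Finset.sum_sub_distrib, h4, h5, sub_self]
    have hdet : ((PowerSeries.constantCoeff (R := ℂ)).mapMatrix (e1M A e L)).det ≠ 0 := by
      rw [← RingHom.map_det]
      exact ((PowerSeries.isUnit_iff_constantCoeff).1 hu).ne_zero
    have h0 : (fun i => PowerSeries.constantCoeff (w i - 1)) = (0 : ι → ℂ) := by
      apply Matrix.eq_zero_of_vecMul_eq_zero hdet
      funext j
      exact hc j
    intro i
    have h8 := congrFun h0 i
    rw [Pi.zero_apply, map_sub, map_one] at h8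
    rw [PowerSeries.coeff_zero_eq_constantCoeff_apply]
    exact sub_eq_zero.1 h8
  · funext j
    have h3 := congrFun hwM j
    rw [e1M_vecMul, hwe] at h3
    rw [Pi.smul_apply, smul_eq_mul]
    have h4 : A.vecMul w j - L * w j = 0 := by linear_combination h3
    exact sub_eq_zero.1 h4

end H906K
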