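import Pool.Agent.H906R3.K6.Defs2

/-! Module `L6`: the map `Th` is injective for a large twist. -/

namespace H906K
open Pool.Agent.H974R3 Polynomial MeasureTheory Filter Topology

section l6
variable {m : ℕ}

theorem l6_none (σ : Pat (m + 1)) : σ.1 none = some (dpos σ) := by
  have h := σ.2.nofix none
  unfold dpos
  rcases hσ : σ.1 none with _ | d
  · exact absurd hσ h
  · simp

theorem l6_dpos (σ : Pat (m + 1)) : σ.1 (some (dpos σ)) = none := by
  rw [← l6_none]; exact σ.2.inv none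

theorem l6_part (σ : Pat (m + 1)) (k : Fin (m + 1)) (hk : k ≠ dpos σ) :
    ∃ l, σ.1 (some k) = some l ∧ σ.1 (some l) = some k ∧ l ≠ k ∧ l ≠ dpos σ := by
  rcases hl : σ.1 (some k) with _ | l
  · exfalso
    apply hk
    have := σ.2.inv (some k)
    rw [hl, l6_none] at this
    exact (Option.some.inj this).symm
  · refine ⟨l, rfl, ?_, ?_, ?_⟩
    · rw [← hl]; exact σ.2.inv _
    · rintro rfl
      exact σ.2.nofix _ hl
    · rintro rfl
      have := σ.2.inv (some k)
      rw [hl, l6_dpos] at this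
      cases this

theorem l6_symm (σ : Pat (m + 1)) {k l : Fin (m + 1)} (h : σ.1 (some k) = some l) :
    σ.1 (some l) = some k := by
  rw [← h]; exact σ.2.inv _

/-- cyclic distance -/
def l6_cd (k l : Fin (m + 1)) : ℕ := (l.val + (m + 1) - k.val) % (m + 1)

theorem l6_cd_spec (k l : Fin (m + 1)) :
    (k.val ≤ l.val ∧ l6_cd k l + k.val = l.val) ∨
      (l.val < k.val ∧ l6_cd k l + k.val = l.val + (m + 1)) := by
  have hk := k.2
  have hl := l.2
  unfold l6_cd
  rcases le_or_gt k.val l.val with h | h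
  · left
    refine ⟨h, ?_⟩
    rw [show l.val + (m + 1) - k.val = (l.val - k.val) + (m + 1) by omega, Nat.add_mod_right,
      Nat.mod_eq_of_lt (by omega)]
    omega
  · right
    refine ⟨h, ?_⟩
    rw [Nat.mod_eq_of_lt (by omega)]
    omega

theorem l6_rd_eq (σ : Pat (m + 1)) (k : Fin (m + 1)) : rd σ k = l6_cd (dpos σ) k := rfl

theorem l6_rd_dpos (σ : Pat (m + 1)) : rd σ (dpos σ) = 0 := by
  rw [l6_rd_eq]
  rcases l6_cd_spec (dpos σ) (dpos σ) with ⟨_, h⟩ | ⟨h, _⟩ <;> omega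

theorem l6_rd_inj (σ : Pat (m + 1)) {k l : Fin (m + 1)} (h : rd σ k = rd σ l) : k = l := by
  have hk := k.2
  have hl := l.2
  rw [l6_rd_eq, l6_rd_eq] at h
  apply Fin.ext
  rcases l6_cd_spec (dpos σ) k with ⟨h1, h2⟩ | ⟨h1, h2⟩ <;>
  rcases l6_cd_spec (dpos σ) l with ⟨h3, h4⟩ | ⟨h3, h4⟩ <;> omega

theorem l6_cd_rd (σ : Pat (m + 1)) (k l : Fin (m + 1)) :
    (rd σ k ≤ rd σ l ∧ l6_cd k l + rd σ k = rd σ l) ∨
    (rd σ l < rd σ k ∧ l6_cd k l + rd σ k = rd σ l + (m + 1)) := by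
  have hk := k.2
  have hl := l.2
  have hd := (dpos σ).2
  rw [l6_rd_eq, l6_rd_eq]
  rcases l6_cd_spec (dpos σ) k with ⟨h1, h2⟩ | ⟨h1, h2⟩ <;>
  rcases l6_cd_spec (dpos σ) l with ⟨h3, h4⟩ | ⟨h3, h4⟩ <;>
  rcases l6_cd_spec k l with ⟨h5, h6⟩ | ⟨h5, h6⟩ <;> omega

theorem l6_rd_lt (σ : Pat (m + 1)) (k : Fin (m + 1)) : rd σ k < m + 1 := by
  unfold rd
  exact Nat.mod_lt _ (Nat.succ_pos m)

theorem l6_nc (σ : Pat (m + 1)) {k l x y : Fin (m + 1)} (h : σ.1 (some k) = some l)
    (h' : σ.1 (some x) = some y) (h1 : rd σ k < rd σ x) (h2 : rd σ x < rd σ l) :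
    rd σ k < rd σ y ∧ rd σ y < rd σ l := by
  have hxk : x ≠ k := by rintro rfl; omega
  have hxl : x ≠ l := by rintro rfl; omega
  have hyk : y.val ≠ k.val := by
    intro e
    have e : y = k := Fin.ext e
    subst e
    have := l6_symm σ h'
    rw [h] at this
    exact hxl (Option.some.inj this).symm
  have hyl : y.val ≠ l.val := by
    intro e
    have e : y = l := Fin.ext e
    subst e
    have h3 := l6_symm σ h'
    have h4 := l6_symm σ h
    rw [h3] at h4
    exact hxk (Option.some.inj h4)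
  have hxk' : x.val ≠ k.val := fun e => hxk (Fin.ext e)
  have hxl' : x.val ≠ l.val := fun e => hxl (Fin.ext e)
  have nc := σ.2.nc k l x y h h' hxk hxl
  simp only [Pool.Agent.H974R3.Btw, Fin.lt_def] at nc
  have bk := k.2
  have bl := l.2
  have bx := x.2
  have b_y := y.2
  have bd := (dpos σ).2
  rw [l6_rd_eq, l6_rd_eq] at *
  rw [l6_rd_eq] at *
  rcases l6_cd_spec (dpos σ) k with ⟨a1, a2⟩ | ⟨a1, a2⟩ <;>
  rcases l6_cd_spec (dpos σ) l with ⟨a3, a4⟩ | ⟨a3, a4⟩ <;>
  rcases l6_cd_spec (dpos σ) x with ⟨a5, a6⟩ | ⟨a5, a6⟩ <;>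
  rcases l6_cd_spec (dpos σ) y with ⟨a7, a8⟩ | ⟨a7, a8⟩ <;> omega

open Classical in
/-- the maximal orientation -/
noncomputable def l6_st (σ : Pat (m + 1)) (k : Fin (m + 1)) : Bool :=
  decide (k = dpos σ ∨ ∃ l, σ.1 (some k) = some l ∧ rd σ l < rd σ k)

theorem l6_st_dpos (σ : Pat (m + 1)) : l6_st σ (dpos σ) = true := by
  simp [l6_st]

theorem l6_st_arc (σ : Pat (m + 1)) {k l : Fin (m + 1)} (h : σ.1 (some k) = some l) :
    l6_st σ k = decide (rd σ l < rd σ k) := by
  have hk : k ≠ dpos σ := by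
    rintro rfl
    rw [l6_dpos] at h
    cases h
  unfold l6_st
  congr 1
  simp only [hk, false_or, eq_iff_iff]
  constructor
  · rintro ⟨l', h1, h2⟩
    rw [h] at h1
    rw [Option.some.inj h1]
    exact h2
  · intro h2
    exact ⟨l, h, h2⟩

theorem l6_arc_ne (σ : Pat (m + 1)) {k l : Fin (m + 1)} (h : σ.1 (some k) = some l) :
    rd σ k ≠ rd σ l := by
  intro e
  have := l6_rd_inj σ e
  subst this
  exact σ.2.nofix _ h

/-- the descent -/
theorem l6_desc (σ τ : Pat (m + 1)) (hs : l6_st σ = l6_st τ) : ∀ D : ℕ, ∀ k l l' : Fin (m + 1),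
    σ.1 (some k) = some l → τ.1 (some k) = some l' → rd σ k < rd σ l → rd τ k < rd τ l' →
    l6_cd k l = D → l6_cd k l < l6_cd k l' → False := by
  intro D
  induction D using Nat.strong_induction_on with
  | _ D ih =>
  intro k l l' h h' hkl hkl' hD hlt
  have c1 := l6_cd_rd σ k l
  have c2 := l6_cd_rd τ k l'
  have c3 := l6_cd_rd τ k l
  have b1 := l6_rd_lt τ l'
  have b2 := l6_rd_lt σ l
  have b3 := l6_rd_lt τ l
  have b4 := l6_rd_lt τ k
  have i1 : rd τ k < rd τ l ∧ rd τ l < rd τ l' := by omega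
  have sl : l6_st σ l = true := by
    rw [l6_st_arc σ (l6_symm σ h)]
    simpa using hkl
  rw [hs] at sl
  have hld : l ≠ dpos τ := by
    rintro rfl
    rw [l6_rd_dpos] at i1
    omega
  obtain ⟨x, hx1, hx2, hx3, hx4⟩ := l6_part τ l hld
  rw [l6_st_arc τ hx1] at sl
  have sl' : rd τ x < rd τ l := by simpa using sl
  have i2 := l6_nc τ h' hx1 i1.1 i1.2
  have sx : l6_st τ x = false := by
    rw [l6_st_arc τ hx2]
    simp only [decide_eq_false_iff_not, not_lt]
    exact sl'.le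
  rw [← hs] at sx
  have hxd : x ≠ dpos σ := by
    rintro rfl
    rw [l6_st_dpos] at sx
    cases sx
  obtain ⟨y, hy1, hy2, hy3, hy4⟩ := l6_part σ x hxd
  rw [l6_st_arc σ hy1] at sx
  have sx' : rd σ x ≤ rd σ y := by simpa using sx
  have sx'' : rd σ x ≠ rd σ y := l6_arc_ne σ hy1
  have c4 := l6_cd_rd τ k x
  have c5 := l6_cd_rd σ k x
  have b5 := l6_rd_lt σ x
  have b6 := l6_rd_lt τ x
  have b7 := l6_rd_lt σ k
  have i3 : rd σ k < rd σ x ∧ rd σ x < rd σ l := by omega
  have i4 := l6_nc σ h hy1 i3.1 i3.2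
  have c6 := l6_cd_rd σ x y
  have c7 := l6_cd_rd σ x l
  refine ih (l6_cd x y) ?_ x y l hy1 hx2 (by omega) sl' rfl ?_
  · omega
  · omega

theorem l6_st_inj (σ τ : Pat (m + 1)) (hs : l6_st σ = l6_st τ) : σ = τ := by
  -- left ends
  have key : ∀ k, l6_st σ k = false → σ.1 (some k) = τ.1 (some k) := by
    intro k hk
    have hk' : l6_st τ k = false := by rw [← hs]; exact hk
    have h1 : k ≠ dpos σ := by rintro rfl; rw [l6_st_dpos] at hk; cases hk
    have h2 : k ≠ dpos τ := by rintro rfl; rw [l6_st_dpos] at hk'; cases hk'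
    obtain ⟨l, a1, a2, a3, a4⟩ := l6_part σ k h1
    obtain ⟨l', b1, b2, b3, b4⟩ := l6_part τ k h2
    rw [l6_st_arc σ a1] at hk
    rw [l6_st_arc τ b1] at hk'
    have hk1 : rd σ k ≤ rd σ l := by simpa using hk
    have hk2 : rd τ k ≤ rd τ l' := by simpa using hk'
    have hk3 := l6_arc_ne σ a1
    have hk4 := l6_arc_ne τ b1
    rcases lt_trichotomy (l6_cd k l) (l6_cd k l') with h | h | h
    · exact (l6_desc σ τ hs _ k l l' a1 b1 (by omega) (by omega) rfl h).elim
    · rw [a1, b1]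
      congr 1
      apply Fin.ext
      have := l.2
      have := l'.2
      have := k.2
      have c1 := l6_cd_spec k l
      have c2 := l6_cd_spec k l'
      omega
    · exact (l6_desc τ σ hs.symm _ k l' l b1 a1 (by omega) (by omega) rfl h).elim
  -- all vertices
  have key2 : ∀ k, σ.1 (some k) = τ.1 (some k) := by
    intro k
    rcases hk : l6_st σ k with _ | _
    · exact key k hk
    · have hk' : l6_st τ k = true := by rw [← hs]; exact hk
      rcases hl : σ.1 (some k) with _ | l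
      · rcases hl' : τ.1 (some k) with _ | l'
        · rfl
        · exfalso
          rw [l6_st_arc τ hl'] at hk'
          have h3 : rd τ l' < rd τ k := by simpa using hk'
          have h4 : l6_st τ l' = false := by
            rw [l6_st_arc τ (l6_symm τ hl')]
            simp only [decide_eq_false_iff_not, not_lt]
            exact h3.le
          have h5 := key l' (by rw [hs]; exact h4)
          rw [l6_symm τ hl'] at h5
          have h6 := l6_symm σ h5
          rw [hl] at h6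
          cases h6
      · rw [l6_st_arc σ hl] at hk
        have h3 : rd σ l < rd σ k := by simpa using hk
        have h4 : l6_st σ l = false := by
          rw [l6_st_arc σ (l6_symm σ hl)]
          simp only [decide_eq_false_iff_not, not_lt]
          exact h3.le
        have h5 := key l h4
        rw [l6_symm σ hl] at h5
        exact (l6_symm τ h5.symm).symm
  apply Subtype.ext
  apply Equiv.ext
  intro v
  rcases v with _ | k
  · rw [l6_none, l6_none]
    have h1 := l6_dpos σ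
    rw [key2] at h1
    have h2 := τ.2.inv (some (dpos σ))
    rw [h1, l6_none] at h2
    exact h2.symm
  · exact key2 k

/-- the exponent of the twist -/
noncomputable def l6_w (s : Fin (m + 1) → Bool) (σ : Pat (m + 1)) : ℤ :=
  ∑ k, if s k = true then (rd σ k : ℤ) else -(rd σ k : ℤ)

/-- the partner -/
def l6_p (σ : Pat (m + 1)) (k : Fin (m + 1)) : Fin (m + 1) := (σ.1 (some k)).getD k

theorem l6_p_inv (σ : Pat (m + 1)) : Function.Involutive (l6_p σ) := by
  intro k
  by_cases hk : k = dpos σ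
  · subst hk
    simp [l6_p, l6_dpos]
  · obtain ⟨l, h1, h2, _, _⟩ := l6_part σ k hk
    simp [l6_p, h1, h2]

theorem l6_w_lt (σ : Pat (m + 1)) (s : Fin (m + 1) → Bool) (h1 : s (dpos σ) = true)
    (h2 : ∀ k l, σ.1 (some k) = some l → s k ≠ s l) (h3 : s ≠ l6_st σ) :
    l6_w s σ ≤ l6_w (l6_st σ) σ - 1 := by
  set g : Fin (m + 1) → ℤ := fun k => (if l6_st σ k = true then (rd σ k : ℤ) else -(rd σ k : ℤ)) -
    (if s k = true then (rd σ k : ℤ) else -(rd σ k : ℤ)) with hg
  have e1 : l6_w (l6_st σ) σ - l6_w s σ = ∑ k, g k := by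
    unfold l6_w
    rw [← Finset.sum_sub_distrib]
  have e2 : ∑ k, g (l6_p σ k) = ∑ k, g k :=
    Equiv.sum_comp (l6_p_inv σ).toPerm g
  have e3 : 2 * ∑ k, g k = ∑ k, (g k + g (l6_p σ k)) := by
    rw [Finset.sum_add_distrib, e2]; ring
  have key : ∀ k, (s k = l6_st σ k → g k + g (l6_p σ k) = 0) ∧
      (s k ≠ l6_st σ k → 2 ≤ g k + g (l6_p σ k)) := by
    intro k
    by_cases hk : k = dpos σ
    · subst hk
      have : s (dpos σ) = l6_st σ (dpos σ) := by rw [h1, l6_st_dpos]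
      refine ⟨fun _ => ?_, fun h => absurd this h⟩
      simp [hg, l6_p, l6_dpos, l6_rd_dpos]
    · obtain ⟨l, a1, a2, a3, a4⟩ := l6_part σ k hk
      have hp : l6_p σ k = l := by simp [l6_p, a1]
      have s1 := l6_st_arc σ a1
      have s2 := l6_st_arc σ a2
      have hne := l6_arc_ne σ a1
      have hs := h2 k l a1
      simp only [hg, hp]
      rcases lt_or_gt_of_ne hne with hlt | hlt
      · have t1 : l6_st σ k = false := by
          rw [s1]; simp only [decide_eq_false_iff_not, not_lt]; exact hlt.le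
        have t2 : l6_st σ l = true := by rw [s2]; simpa using hlt
        rw [t1, t2]
        rcases hsk : s k with _ | _ <;> rcases hsl : s l with _ | _ <;> rw [hsk, hsl] at hs
        · exact absurd rfl hs
        · refine ⟨fun _ => by simp, fun h => absurd rfl h⟩
        · refine ⟨fun h => (by cases h), fun _ => ?_⟩
          simp only [Bool.false_eq_true, if_false, if_true]
          omega
        · exact absurd rfl hs
      · have t1 : l6_st σ k = true := by rw [s1]; simpa using hlt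
        have t2 : l6_st σ l = false := by
          rw [s2]; simp only [decide_eq_false_iff_not, not_lt]; exact hlt.le
        rw [t1, t2]
        rcases hsk : s k with _ | _ <;> rcases hsl : s l with _ | _ <;> rw [hsk, hsl] at hs
        · exact absurd rfl hs
        · refine ⟨fun h => (by cases h), fun _ => ?_⟩
          simp only [Bool.false_eq_true, if_false, if_true]
          omega
        · refine ⟨fun _ => by simp, fun h => absurd rfl h⟩
        · exact absurd rfl hs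
  obtain ⟨k0, hk0⟩ : ∃ k, s k ≠ l6_st σ k := by
    by_contra hcon
    push Not at hcon
    exact h3 (funext hcon)
  have e4 : 2 ≤ ∑ k, (g k + g (l6_p σ k)) := by
    calc (2 : ℤ) ≤ g k0 + g (l6_p σ k0) := (key k0).2 hk0
      _ ≤ ∑ k, (g k + g (l6_p σ k)) := by
        apply Finset.single_le_sum (f := fun k => g k + g (l6_p σ k)) _ (Finset.mem_univ k0)
        intro k _
        by_cases hk : s k = l6_st σ k
        · exact ((key k).1 hk).ge
        · exact le_trans (by norm_num) ((key k).2 hk)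
  omega

end l6

theorem l6_norm_q (q : ℂ) (hq : q ^ 2 + q + 1 = 0) : ‖q‖ = 1 := by
  have h : q ^ 3 = 1 := by linear_combination (q - 1) * hq
  have h2 : ‖q‖ ^ 3 = 1 := by rw [← norm_pow, h, norm_one]
  exact (pow_eq_one_iff_of_nonneg (norm_nonneg q) (by norm_num)).1 h2

open Classical in
theorem l6_norm_Th {m : ℕ} (q : ℂ) (hq : q ^ 2 + q + 1 = 0) (ζ : ℂˣ) (s : Fin (m + 1) → Bool)
    (σ : Pat (m + 1)) : ‖Th m q ζ s σ‖ =
      if s (dpos σ) = true ∧ ∀ k l, σ.1 (some k) = some l → s k ≠ s l then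
        ‖(ζ : ℂ)‖ ^ l6_w s σ else 0 := by
  unfold Th
  split_ifs with h
  · rw [norm_mul, Units.val_zpow_eq_zpow_val, norm_zpow, norm_prod, Finset.prod_eq_one, mul_one]
    · rfl
    · intro k _
      split_ifs
      · rw [norm_neg, norm_pow, l6_norm_q q hq, one_pow]
      · exact norm_one
  · exact norm_zero

/-- `Th` is injective for a large twist -/
theorem Th_inj (n : ℕ) (q : ℂ) (hq : q ^ 2 + q + 1 = 0) : ∃ R0 : ℝ, ∀ ζ : ℂˣ, R0 < ‖(ζ : ℂ)‖ →
    ∀ f : Pat (2 * n + 1) → ℂ, (Th (2 * n) q ζ).mulVec f = 0 → f = 0 := by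
  classical
  refine ⟨Fintype.card (Pat (2 * n + 1)) + 1, fun ζ hζ f hf => ?_⟩
  by_contra hne
  obtain ⟨σ1, hσ1⟩ : ∃ σ, f σ ≠ 0 := by
    by_contra hcon
    push Not at hcon
    exact hne (funext hcon)
  set z : ℝ := ‖(ζ : ℂ)‖ with hz
  have hcard : (0 : ℝ) ≤ Fintype.card (Pat (2 * n + 1)) := Nat.cast_nonneg _
  have z1 : 1 < z := by linarith
  have z0 : 0 < z := by linarith
  set A : Pat (2 * n + 1) → ℤ := fun σ => l6_w (l6_st σ) σ with hA
  obtain ⟨σ0, -, hmax⟩ := Finset.exists_max_image Finset.univ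
    (fun σ => ‖f σ‖ * z ^ A σ) ⟨σ1, Finset.mem_univ _⟩
  have hM : 0 < ‖f σ0‖ * z ^ A σ0 := by
    refine lt_of_lt_of_le ?_ (hmax σ1 (Finset.mem_univ _))
    exact mul_pos (norm_pos_iff.2 hσ1) (zpow_pos z0 _)
  have hcomp := congrFun hf (l6_st σ0)
  simp only [Matrix.mulVec, dotProduct, Pi.zero_apply] at hcomp
  rw [← Finset.add_sum_erase _ _ (Finset.mem_univ σ0)] at hcomp
  have h1 : ‖Th (2 * n) q ζ (l6_st σ0) σ0 * f σ0‖ = ‖f σ0‖ * z ^ A σ0 := by
    rw [norm_mul, l6_norm_Th q hq, if_pos, mul_comm]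
    refine ⟨l6_st_dpos σ0, ?_⟩
    intro k l hkl
    rw [l6_st_arc σ0 hkl, l6_st_arc σ0 (l6_symm σ0 hkl)]
    have := l6_arc_ne σ0 hkl
    intro h
    rw [decide_eq_decide] at h
    omega
  have h2 : ∀ σ ∈ Finset.univ.erase σ0, ‖Th (2 * n) q ζ (l6_st σ0) σ * f σ‖
      ≤ ‖f σ0‖ * z ^ A σ0 / z := by
    intro σ hσ
    have hσ' : σ ≠ σ0 := Finset.ne_of_mem_erase hσ
    rw [norm_mul, l6_norm_Th q hq]
    split_ifs with hv
    · have hw := l6_w_lt σ (l6_st σ0) hv.1 hv.2 (fun h => hσ' (l6_st_inj _ _ h.symm))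
      have : z ^ l6_w (l6_st σ0) σ ≤ z ^ (A σ - 1) := zpow_le_zpow_right₀ z1.le hw
      rw [zpow_sub_one₀ z0.ne'] at this
      calc z ^ l6_w (l6_st σ0) σ * ‖f σ‖ ≤ (z ^ A σ * z⁻¹) * ‖f σ‖ :=
            mul_le_mul_of_nonneg_right this (norm_nonneg _)
        _ = (‖f σ‖ * z ^ A σ) / z := by rw [div_eq_mul_inv]; ring
        _ ≤ (‖f σ0‖ * z ^ A σ0) / z :=
            div_le_div_of_nonneg_right (hmax σ (Finset.mem_univ _)) z0.le
    · rw [zero_mul]
      positivity
  have h3 : ‖f σ0‖ * z ^ A σ0 ≤ (Fintype.card (Pat (2 * n + 1)) : ℝ) * (‖f σ0‖ * z ^ A σ0 / z) := by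
    have e : ‖Th (2 * n) q ζ (l6_st σ0) σ0 * f σ0‖
        = ‖∑ x ∈ Finset.univ.erase σ0, Th (2 * n) q ζ (l6_st σ0) x * f x‖ := by
      rw [eq_neg_of_add_eq_zero_left hcomp, norm_neg]
    rw [h1] at e
    have hM' : 0 ≤ ‖f σ0‖ * z ^ A σ0 / z := by positivity
    calc ‖f σ0‖ * z ^ A σ0
        ≤ ∑ x ∈ Finset.univ.erase σ0, ‖Th (2 * n) q ζ (l6_st σ0) x * f x‖ := by
          rw [e]; exact norm_sum_le _ _
      _ ≤ ∑ x ∈ Finset.univ.erase σ0, ‖f σ0‖ * z ^ A σ0 / z := Finset.sum_le_sum h2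
      _ ≤ ∑ x : Pat (2 * n + 1), ‖f σ0‖ * z ^ A σ0 / z :=
          Finset.sum_le_sum_of_subset_of_nonneg (Finset.erase_subset _ _) (fun _ _ _ => hM')
      _ = _ := by rw [Finset.sum_const, nsmul_eq_mul, Finset.card_univ]
  have h4 : (Fintype.card (Pat (2 * n + 1)) : ℝ) * (‖f σ0‖ * z ^ A σ0 / z)
      < ‖f σ0‖ * z ^ A σ0 := by
    rw [mul_div_assoc', div_lt_iff₀ z0, mul_comm]
    exact mul_lt_mul_of_pos_left (by linarith) hM
  linarith

end H906K
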