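import Pool.Agent.H906R3.K6.Defs2
import Pool.Agent.H906R3.K6.V1
import Pool.Agent.H906R3.K6.L4
import Pool.Agent.H906R3.K6.L6

/-! L7: the transfer matrices on patterns commute. -/

namespace H906K
open Pool.Agent.H974R3 Polynomial MeasureTheory Filter Topology

/-- Laurent polynomials as functions of a unit -/
def l7_Lau (f : ℂˣ → ℂ) : Prop :=
  ∃ (N : ℕ) (P : Polynomial ℂ), ∀ ζ : ℂˣ, (ζ : ℂ) ^ N * f ζ = P.eval (ζ : ℂ)

theorem l7_const (a : ℂ) : l7_Lau (fun _ => a) := ⟨0, C a, fun ζ => by simp⟩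

theorem l7_zpow (k : ℤ) : l7_Lau (fun ζ => ((ζ ^ k : ℂˣ) : ℂ)) := by
  rcases Int.eq_nat_or_neg k with ⟨n, rfl | rfl⟩
  · exact ⟨0, X ^ n, fun ζ => by simp⟩
  · refine ⟨n, 1, fun ζ => ?_⟩
    simp only [zpow_neg, zpow_natCast, Units.val_inv_eq_inv_val, Units.val_pow_eq_pow_val,
      eval_one]
    exact mul_inv_cancel₀ (pow_ne_zero _ ζ.ne_zero)

theorem l7_add {f g : ℂˣ → ℂ} (hf : l7_Lau f) (hg : l7_Lau g) : l7_Lau (fun ζ => f ζ + g ζ) := by
  obtain ⟨N, P, hP⟩ := hf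
  obtain ⟨M, Q, hQ⟩ := hg
  refine ⟨N + M, X ^ M * P + X ^ N * Q, fun ζ => ?_⟩
  simp only [eval_add, eval_mul, eval_pow, eval_X, ← hP, ← hQ]
  ring

theorem l7_mul {f g : ℂˣ → ℂ} (hf : l7_Lau f) (hg : l7_Lau g) : l7_Lau (fun ζ => f ζ * g ζ) := by
  obtain ⟨N, P, hP⟩ := hf
  obtain ⟨M, Q, hQ⟩ := hg
  refine ⟨N + M, P * Q, fun ζ => ?_⟩
  simp only [eval_mul, ← hP, ← hQ]
  ring

theorem l7_sum {ι : Type*} (s : Finset ι) (f : ι → ℂˣ → ℂ) (h : ∀ i ∈ s, l7_Lau (f i)) :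
    l7_Lau (fun ζ => ∑ i ∈ s, f i ζ) := by
  classical
  induction s using Finset.induction_on with
  | empty => simpa using l7_const 0
  | insert a s ha ih =>
    have h1 := l7_add (h a (Finset.mem_insert_self a s))
      (ih (fun i hi => h i (Finset.mem_insert_of_mem hi)))
    have e : (fun ζ => ∑ i ∈ insert a s, f i ζ) = fun ζ => f a ζ + ∑ i ∈ s, f i ζ := by
      funext ζ
      rw [Finset.sum_insert ha]
    rw [e]
    exact h1

theorem l7_eq_zero {f : ℂˣ → ℂ} (hf : l7_Lau f) (R0 : ℝ)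
    (h0 : ∀ ζ : ℂˣ, R0 < ‖(ζ : ℂ)‖ → f ζ = 0) (ζ : ℂˣ) : f ζ = 0 := by
  obtain ⟨N, P, hP⟩ := hf
  have hP0 : P = 0 := by
    apply Polynomial.eq_zero_of_infinite_isRoot
    refine Set.infinite_of_injective_forall_mem (f := fun n : ℕ => (((n : ℝ) + (|R0| + 1) : ℝ) : ℂ))
      ?_ ?_
    · intro a b hab
      simp only [Complex.ofReal_inj, add_left_inj, Nat.cast_inj] at hab
      exact hab
    · intro n
      have hpos : (0 : ℝ) < (n : ℝ) + (|R0| + 1) := by positivity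
      have hne : (((n : ℝ) + (|R0| + 1) : ℝ) : ℂ) ≠ 0 := by
        rw [Ne, Complex.ofReal_eq_zero]
        exact hpos.ne'
      have h1 := hP (Units.mk0 _ hne)
      rw [h0 (Units.mk0 _ hne) ?_, mul_zero, Units.val_mk0] at h1
      · exact h1.symm
      · rw [Units.val_mk0, Complex.norm_real, Real.norm_of_nonneg hpos.le]
        have h2 := le_abs_self R0
        have h3 : (0 : ℝ) ≤ n := Nat.cast_nonneg n
        linarith
  have h1 := hP ζ
  rw [hP0, eval_zero] at h1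
  exact (mul_eq_zero.mp h1).resolve_left (pow_ne_zero _ ζ.ne_zero)

theorem l7_TL (m : ℕ) (q x : ℂ) (τ σ : Pat (m + 1)) : l7_Lau (fun ζ => TL m q x ζ τ σ) := by
  classical
  unfold TL
  apply l7_sum
  intro c _
  by_cases h : Tc m c σ = τ
  · simp only [h, if_true]
    exact l7_mul (l7_const _) (l7_zpow _)
  · simp only [h, if_false]
    exact l7_const 0

theorem l7_mulTL (m : ℕ) (q x y : ℂ) (τ σ : Pat (m + 1)) :
    l7_Lau (fun ζ => (TL m q x ζ * TL m q y ζ) τ σ) := by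
  simp only [Matrix.mul_apply]
  apply l7_sum
  intro k _
  exact l7_mul (l7_TL m q x τ k) (l7_TL m q y k σ)

theorem TL_comm (n : ℕ) (q x y : ℂ) (hq : q ^ 2 + q + 1 = 0) (ζ : ℂˣ) :
    TL (2 * n) q x ζ * TL (2 * n) q y ζ = TL (2 * n) q y ζ * TL (2 * n) q x ζ := by
  obtain ⟨R0, hR⟩ := Th_inj n q hq
  have key : ∀ (ζ : ℂˣ), R0 < ‖(ζ : ℂ)‖ → ∀ τ σ,
      (TL (2 * n) q x ζ * TL (2 * n) q y ζ) τ σ = (TL (2 * n) q y ζ * TL (2 * n) q x ζ) τ σ := by
    intro ζ hζ τ σ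
    have e1 : Th (2 * n) q ζ * (TL (2 * n) q x ζ * TL (2 * n) q y ζ) =
        Th (2 * n) q ζ * (TL (2 * n) q y ζ * TL (2 * n) q x ζ) := by
      rw [← Matrix.mul_assoc, ← TV_Th n q x hq ζ, Matrix.mul_assoc, ← TV_Th n q y hq ζ,
        ← Matrix.mul_assoc, TV_comm (2 * n) q x y hq ζ, Matrix.mul_assoc, TV_Th n q x hq ζ,
        ← Matrix.mul_assoc, TV_Th n q y hq ζ, Matrix.mul_assoc]
    have e2 : (Th (2 * n) q ζ).mulVec (fun τ => (TL (2 * n) q x ζ * TL (2 * n) q y ζ) τ σ -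
        (TL (2 * n) q y ζ * TL (2 * n) q x ζ) τ σ) = 0 := by
      funext s
      have e3 := congrFun (congrFun e1 s) σ
      rw [Matrix.mul_apply, Matrix.mul_apply] at e3
      simp only [Matrix.mulVec, dotProduct, mul_sub, Finset.sum_sub_distrib, Pi.zero_apply]
      rw [e3, sub_self]
    have e4 := congrFun (hR ζ hζ _ e2) τ
    simp only [Pi.zero_apply] at e4
    exact sub_eq_zero.mp e4
  ext τ σ
  have h1 : l7_Lau (fun ζ => (TL (2 * n) q x ζ * TL (2 * n) q y ζ) τ σ +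
      (-1) * (TL (2 * n) q y ζ * TL (2 * n) q x ζ) τ σ) :=
    l7_add (l7_mulTL _ q x y τ σ) (l7_mul (l7_const (-1)) (l7_mulTL _ q y x τ σ))
  have h2 := l7_eq_zero h1 R0 (fun ζ hζ => by rw [key ζ hζ τ σ]; ring) ζ
  linear_combination h2

end H906K
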