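import Pool.Agent.H906R3.K6.L8a
import Pool.Agent.H906R3.K6.L7

/-!
# Commutation over `ℂ⟦ε⟧[x]`
-/

namespace H906K
open Pool.Agent.H974R3 Polynomial MeasureTheory Filter Topology

theorem TL_comm_X (n : ℕ) :
    TL (2 * n) (C (PowerSeries.C om)) (X : (PowerSeries ℂ)[X]) ezX
        * TL (2 * n) (C (PowerSeries.C om)) 1 ezX
      = TL (2 * n) (C (PowerSeries.C om)) 1 ezX
        * TL (2 * n) (C (PowerSeries.C om)) (X : (PowerSeries ℂ)[X]) ezX :=
  l8_TL_comm_X n (fun x y ζ => TL_comm n om x y l8_om ζ)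

end H906K
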