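import Pool.Agent.H906R3.K6.Defs2
import Pool.Agent.H906R3.K6.E1
import Pool.Agent.H906R3.K6.E1b
import Pool.Agent.H906R3.K6.L8
import Pool.Agent.H974R3.Markov

/-!
# E2: the eigenvalue `t(x)` (helper305)
-/

set_option autoImplicit false

namespace H906K
open Pool.Agent.H974R3 Polynomial

/-! ### naturality of the transfer matrix -/

theorem e2_TL_map {R R' : Type*} [CommRing R] [CommRing R'] (f : R →+* R') (m : ℕ) (q x : R)
    (ζ : Rˣ) : TL m (f q) (f x) (Units.map f.toMonoidHom ζ) = (TL m q x ζ).map f := by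
  ext τ σ
  simp only [TL, Matrix.map_apply, map_sum]
  refine Finset.sum_congr rfl fun c _ => ?_
  by_cases h : Tc m c σ = τ
  · simp only [h, if_true, map_mul, map_prod]
    congr 1
    · refine Finset.prod_congr rfl fun j _ => ?_
      cases c j <;> simp [wt]
    · rw [← map_zpow]; rfl
  · simp [h]

theorem e2_om : om ^ 2 + om + 1 = 0 := by
  have h3 : Real.sqrt 3 * Real.sqrt 3 = 3 := Real.mul_self_sqrt (by norm_num)
  apply Complex.ext
  · simp [om, pow_two, Complex.mul_re, Complex.add_re]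
    nlinarith [h3]
  · simp [om, pow_two, Complex.mul_im, Complex.add_im]
    ring

theorem e2_wt (b : Bool) : wt (PowerSeries.C om) b 1 = 1 := by
  have h : (PowerSeries.C om) ^ 2 + PowerSeries.C om + 1 = 0 := by
    have := congrArg (PowerSeries.C (R := ℂ)) e2_om
    simpa only [map_add, map_pow, map_one, map_zero] using this
  cases b
  · simp only [wt, Bool.false_eq_true, if_false, mul_one]
    linear_combination -h
  · simp only [wt, if_true, mul_one]
    linear_combination -h

theorem e2_ez (d : ℤ) : PowerSeries.coeff 0 ((ez ^ d : (PowerSeries ℂ)ˣ) : PowerSeries ℂ) = 1 := by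
  have h0 : Units.map (PowerSeries.constantCoeff (R := ℂ)).toMonoidHom ez = 1 := by
    apply Units.ext
    simp [ez, expI, PowerSeries.rescale, PowerSeries.exp]
  have h1 : Units.map (PowerSeries.constantCoeff (R := ℂ)).toMonoidHom (ez ^ d) = 1 := by
    rw [map_zpow, h0, one_zpow]
  have h2 : PowerSeries.constantCoeff ((ez ^ d : (PowerSeries ℂ)ˣ) : PowerSeries ℂ) = 1 :=
    congrArg (fun u : ℂˣ => (u : ℂ)) h1
  rw [PowerSeries.coeff_zero_eq_constantCoeff_apply]
  exact h2

theorem e2_coeff (m : ℕ) (τ σ : Pat (m + 1)) :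
    PowerSeries.coeff 0 (TL m (PowerSeries.C om) 1 ez τ σ)
      = ∑ c : Fin (m + 1) → Bool, if Tc m c σ = τ then (1 : ℂ) else 0 := by
  simp only [TL, map_sum]
  refine Finset.sum_congr rfl fun c _ => ?_
  by_cases h : Tc m c σ = τ
  · simp only [h, if_true, e2_wt, Finset.prod_const_one, one_mul, e2_ez]
  · simp [h]

theorem e2_h1 (m : ℕ) (σ : Pat (m + 1)) :
    ∑ τ, PowerSeries.coeff 0 (TL m (PowerSeries.C om) 1 ez τ σ) = 2 ^ (m + 1) := by
  simp only [e2_coeff]
  rw [Finset.sum_comm]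
  simp

theorem e2_h2 (n : ℕ) (u : Pat (2 * n + 1) → ℂ)
    (h : ∀ i, ∑ j, PowerSeries.coeff 0 (TL (2 * n) (PowerSeries.C om) 1 ez i j) * u j
      = 2 ^ (2 * n + 1) * u i) (hs : ∑ i, u i = 0) : u = 0 := by
  refine markov_unique n u (fun σ => ?_) hs
  rw [← h σ]
  simp only [e2_coeff, push, Finset.sum_mul]
  rw [Finset.sum_comm]
  refine Finset.sum_congr rfl fun j _ => Finset.sum_congr rfl fun c _ => ?_
  split_ifs <;> simp

theorem e2_CA (n : ℕ) : TL (2 * n) (C (PowerSeries.C om)) (1 : (PowerSeries ℂ)[X]) ezX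
    = (TL (2 * n) (PowerSeries.C om) 1 ez).map C := by
  have := e2_TL_map (Polynomial.C : PowerSeries ℂ →+* (PowerSeries ℂ)[X]) (2 * n)
    (PowerSeries.C om) 1 ez
  rw [map_one] at this
  exact this

theorem e2_eval (n : ℕ) :
    (TL (2 * n) (C (PowerSeries.C om)) (X : (PowerSeries ℂ)[X]) ezX).map (Polynomial.eval 1)
      = TL (2 * n) (PowerSeries.C om) 1 ez := by
  have := e2_TL_map (Polynomial.evalRingHom (1 : PowerSeries ℂ)) (2 * n)
    (C (PowerSeries.C om)) X ezX
  have h1 : Units.map (Polynomial.evalRingHom (1 : PowerSeries ℂ)).toMonoidHom ezX = ez := by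
    apply Units.ext
    simp [ezX]
  rw [h1] at this
  simpa using this.symm

theorem e2_wt_deg (b : Bool) :
    (wt (C (PowerSeries.C om)) b (X : (PowerSeries ℂ)[X])).natDegree ≤ 1 := by
  cases b
  · simp only [wt, Bool.false_eq_true, if_false]
    rw [← map_pow]
    compute_degree
  · simp only [wt, if_true]
    rw [← map_pow]
    compute_degree

theorem e2_ezX (d : ℤ) : ((ezX ^ d : ((PowerSeries ℂ)[X])ˣ) : (PowerSeries ℂ)[X])
    = C ((ez ^ d : (PowerSeries ℂ)ˣ) : PowerSeries ℂ) := by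
  unfold ezX
  rw [← map_zpow]
  rfl

theorem e2_deg (n : ℕ) (τ σ : Pat (2 * n + 1)) :
    (TL (2 * n) (C (PowerSeries.C om)) (X : (PowerSeries ℂ)[X]) ezX τ σ).natDegree
      ≤ 2 * n + 1 := by
  simp only [TL]
  refine Polynomial.natDegree_sum_le_of_forall_le _ _ fun c _ => ?_
  split_ifs
  · rw [e2_ezX]
    refine (Polynomial.natDegree_mul_C_le _ _).trans ?_
    refine (Polynomial.natDegree_prod_le _ _).trans ?_
    calc ∑ j : Fin (2 * n + 1), (wt (C (PowerSeries.C om)) (c j)
          (X : (PowerSeries ℂ)[X])).natDegree ≤ ∑ _j : Fin (2 * n + 1), 1 :=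
          Finset.sum_le_sum fun j _ => e2_wt_deg (c j)
      _ = 2 * n + 1 := by simp
  · simp

theorem exists_t (n : ℕ) : ∃ (v : Pat (2 * n + 1) → PowerSeries ℂ) (t : (PowerSeries ℂ)[X]),
    ∑ σ, v σ = 1 ∧ t.natDegree ≤ 2 * n + 1 ∧
    (TL (2 * n) (C (PowerSeries.C om)) (X : (PowerSeries ℂ)[X]) ezX).mulVec (fun σ => C (v σ))
      = t • (fun σ => C (v σ)) ∧
    ∃ w : Pat (2 * n + 1) → PowerSeries ℂ, (∀ σ, PowerSeries.coeff 0 (w σ) = 1) ∧
      (TL (2 * n) (PowerSeries.C om) 1 ez).vecMul w = (t.eval 1) • w := by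
  have : Nonempty (Pat (2 * n + 1)) := ⟨base n⟩
  obtain ⟨v, L, hv, hL, -, huniq⟩ := eig (TL (2 * n) (PowerSeries.C om) 1 ez) (2 ^ (2 * n + 1))
    (fun σ => e2_h1 (2 * n) σ) (fun u hu hs => e2_h2 n u hu hs)
  obtain ⟨w, hw, hwL⟩ := eig_left (TL (2 * n) (PowerSeries.C om) 1 ez) (2 ^ (2 * n + 1))
    (fun σ => e2_h1 (2 * n) σ) (fun u hu hs => e2_h2 n u hu hs) v L hv hL
  set A := TL (2 * n) (PowerSeries.C om) 1 ez with hA
  set B := TL (2 * n) (C (PowerSeries.C om)) (X : (PowerSeries ℂ)[X]) ezX with hB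
  set Cv : Pat (2 * n + 1) → (PowerSeries ℂ)[X] := fun σ => C (v σ) with hCv
  set u := B.mulVec Cv with hu
  -- `u` is an eigenvector
  have hcomm : B * A.map C = A.map C * B := by
    have := TL_comm_X n
    rw [e2_CA] at this
    exact this
  have hCA : (A.map C).mulVec Cv = C L • Cv := by
    funext σ
    have h1 := congrFun hL σ
    simp only [Matrix.mulVec, dotProduct, Matrix.map_apply, Pi.smul_apply, smul_eq_mul, hCv]
      at h1 ⊢
    rw [← map_mul, ← h1, map_sum]
    simp
  have hueig : (A.map C).mulVec u = C L • u := by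
    rw [hu, Matrix.mulVec_mulVec, ← hcomm, ← Matrix.mulVec_mulVec, hCA, Matrix.mulVec_smul]
  set t : (PowerSeries ℂ)[X] := ∑ σ, u σ with ht
  have hut : u = t • Cv := by
    funext σ
    ext1 k
    have hk : (fun σ => (u σ).coeff k - t.coeff k * v σ) = 0 := by
      apply huniq
      · funext τ
        have h1 := congrArg (fun p : (PowerSeries ℂ)[X] => p.coeff k) (congrFun hueig τ)
        have h2 := congrFun hL τ
        simp only [Matrix.mulVec, dotProduct, Matrix.map_apply, Pi.smul_apply, smul_eq_mul,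
          Polynomial.finsetSum_coeff, Polynomial.coeff_C_mul] at h1 h2 ⊢
        simp only [mul_sub, Finset.sum_sub_distrib]
        rw [h1]
        congr 1
        rw [mul_left_comm, ← h2, Finset.mul_sum]
        exact Finset.sum_congr rfl fun _ _ => by ring
      · simp only [Finset.sum_sub_distrib, ← Finset.mul_sum, hv, mul_one]
        rw [ht, Polynomial.finsetSum_coeff, sub_self]
    have h3 := congrFun hk σ
    simp only [Pi.zero_apply] at h3
    simp only [Pi.smul_apply, smul_eq_mul, hCv, Polynomial.coeff_mul_C]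
    exact sub_eq_zero.1 h3
  have hdeg : t.natDegree ≤ 2 * n + 1 := by
    rw [ht]
    refine Polynomial.natDegree_sum_le_of_forall_le _ _ fun σ _ => ?_
    rw [hu]
    simp only [Matrix.mulVec, dotProduct]
    refine Polynomial.natDegree_sum_le_of_forall_le _ _ fun τ _ => ?_
    rw [hCv]
    refine (Polynomial.natDegree_mul_C_le _ _).trans ?_
    rw [hB]
    exact e2_deg n σ τ
  have hev : t.eval 1 = L := by
    have h1 : ∀ σ, (u σ).eval 1 = L * v σ := by
      intro σ
      have h2 := congrFun hL σ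
      have h3 := e2_eval n
      rw [← hA, ← hB] at h3
      rw [← h3] at h2
      simp only [Matrix.mulVec, dotProduct, Matrix.map_apply, Pi.smul_apply, smul_eq_mul] at h2
      rw [← h2, hu]
      simp only [Matrix.mulVec, dotProduct, Polynomial.eval_finsetSum, hCv,
        Polynomial.eval_mul, Polynomial.eval_C]
    rw [ht, Polynomial.eval_finsetSum]
    simp only [h1, ← Finset.mul_sum, hv, mul_one]
  refine ⟨v, t, hv, hdeg, hut, w, hw, ?_⟩
  rw [hev]
  exact hwL

end H906K
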