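import Pool.Agent.H906R3.K6.Defs2

namespace H906K
open Polynomial

/-- the `k`-th Taylor coefficient in `ε` of a polynomial over `ℂ⟦ε⟧` -/
noncomputable def e4_cf (k : ℕ) (t : (PowerSeries ℂ)[X]) : ℂ[X] :=
  ∑ j ∈ Finset.range (t.natDegree + 1), monomial j (PowerSeries.coeff k (t.coeff j))

theorem e4_cf_coeff (k : ℕ) (t : (PowerSeries ℂ)[X]) (j : ℕ) :
    (e4_cf k t).coeff j = PowerSeries.coeff k (t.coeff j) := by
  unfold e4_cf
  rw [finsetSum_coeff]
  simp only [coeff_monomial]
  rw [Finset.sum_ite_eq']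
  split_ifs with h
  · rfl
  · rw [Finset.mem_range] at h
    rw [coeff_eq_zero_of_natDegree_lt (by omega), map_zero]

theorem e4_cf_deg (k : ℕ) (t : (PowerSeries ℂ)[X]) {N : ℕ} (h : t.natDegree ≤ N) :
    (e4_cf k t).natDegree ≤ N := by
  rw [natDegree_le_iff_coeff_eq_zero]
  intro j hj
  rw [e4_cf_coeff, coeff_eq_zero_of_natDegree_lt (by omega), map_zero]

theorem e4_eval (k : ℕ) (t : (PowerSeries ℂ)[X]) (x : ℂ) :
    PowerSeries.coeff k (t.eval (PowerSeries.C x)) = (e4_cf k t).eval x := by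
  rw [eval_eq_sum_range, map_sum]
  unfold e4_cf
  rw [eval_finsetSum]
  refine Finset.sum_congr rfl (fun j _ => ?_)
  rw [eval_monomial, ← map_pow, PowerSeries.coeff_mul_C]

theorem e4_mul0 (a b : PowerSeries ℂ) : PowerSeries.coeff 0 (a * b)
    = PowerSeries.coeff 0 a * PowerSeries.coeff 0 b := by
  rw [PowerSeries.coeff_mul]; simp

theorem e4_mul1 (a b : PowerSeries ℂ) : PowerSeries.coeff 1 (a * b)
    = PowerSeries.coeff 0 a * PowerSeries.coeff 1 b
      + PowerSeries.coeff 1 a * PowerSeries.coeff 0 b := by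
  rw [PowerSeries.coeff_mul, Finset.Nat.sum_antidiagonal_eq_sum_range_succ_mk]
  simp [Finset.sum_range_succ]

theorem e4_mul2 (a b : PowerSeries ℂ) : PowerSeries.coeff 2 (a * b)
    = PowerSeries.coeff 0 a * PowerSeries.coeff 2 b
      + PowerSeries.coeff 1 a * PowerSeries.coeff 1 b
      + PowerSeries.coeff 2 a * PowerSeries.coeff 0 b := by
  rw [PowerSeries.coeff_mul, Finset.Nat.sum_antidiagonal_eq_sum_range_succ_mk]
  simp [Finset.sum_range_succ]

theorem e4_mul3 (a b : PowerSeries ℂ) : PowerSeries.coeff 3 (a * b)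
    = PowerSeries.coeff 0 a * PowerSeries.coeff 3 b
      + PowerSeries.coeff 1 a * PowerSeries.coeff 2 b
      + PowerSeries.coeff 2 a * PowerSeries.coeff 1 b
      + PowerSeries.coeff 3 a * PowerSeries.coeff 0 b := by
  rw [PowerSeries.coeff_mul, Finset.Nat.sum_antidiagonal_eq_sum_range_succ_mk]
  simp [Finset.sum_range_succ]

theorem e4_expI (a : ℂ) (k : ℕ) : PowerSeries.coeff k (expI a)
    = (a * Complex.I) ^ k / (k.factorial : ℂ) := by
  unfold expI
  rw [PowerSeries.coeff_rescale, PowerSeries.coeff_exp]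
  simp [div_eq_mul_inv]

theorem e4_om1 : om ^ 2 + om + 1 = 0 := by
  have h3 : Real.sqrt 3 * Real.sqrt 3 = 3 := Real.mul_self_sqrt (by norm_num)
  apply Complex.ext
  · simp [om, pow_two]
    linarith
  · simp [om, pow_two]
    ring

theorem e4_om3 : om ^ 3 = 1 := by
  have h := e4_om1
  linear_combination (om - 1) * h

theorem e4_omI : (om - om ^ 2) = Complex.I * (Real.sqrt 3 : ℂ) := by
  apply Complex.ext
  · simp [om, pow_two]
    have h3 : Real.sqrt 3 * Real.sqrt 3 = 3 := Real.mul_self_sqrt (by norm_num)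
    linarith
  · simp [om, pow_two]
    ring

theorem e4_fac (x : ℂ) : (1 + x) * (1 + om * x) * (1 + om ^ 2 * x) = 1 + x ^ 3 := by
  have h := e4_om1
  have h3 := e4_om3
  linear_combination (x + x ^ 2 * om) * h + x ^ 3 * h3 

theorem e4_cf0 {n : ℕ} {t : (PowerSeries ℂ)[X]} (h : TSpec n t) :
    e4_cf 0 t = (1 + X) ^ (2 * n + 1) := by
  ext j
  rw [e4_cf_coeff, h.const, coeff_one_add_X_pow]

theorem e4_fus {n : ℕ} {t : (PowerSeries ℂ)[X]} (h : TSpec n t) (x : ℂ) :
    t.eval (PowerSeries.C (om * x)) * t.eval (PowerSeries.C (om ^ 2 * x)) * t.eval (PowerSeries.C x)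
      = PowerSeries.C (((1 + om * x) * (1 + om ^ 2 * x)) ^ (2 * n + 1))
          * t.eval (PowerSeries.C x)
        + PowerSeries.C (((1 + om ^ 2 * x) * (1 + x)) ^ (2 * n + 1))
          * t.eval (PowerSeries.C (om * x))
        + PowerSeries.C (((1 + x) * (1 + om * x)) ^ (2 * n + 1))
          * t.eval (PowerSeries.C (om ^ 2 * x))
        - PowerSeries.C ((1 + x ^ 3) ^ (2 * n + 1))
          * (expI (3 * (2 * n + 1)) + expI (-(3 * (2 * n + 1)))) := by
  have hf := congrArg (fun p => p.eval (PowerSeries.C x)) h.fus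
  simp only [eval_mul, eval_comp, eval_add, eval_sub, eval_pow, eval_C, eval_X, eval_one] at hf
  simp only [map_pow, map_mul, map_add, map_one] at hf ⊢
  exact hf

theorem e4_div {n : ℕ} {t : (PowerSeries ℂ)[X]} (h : TSpec n t) :
    ∃ Q : (PowerSeries ℂ)[X], ∀ x : ℂ,
      t.eval (PowerSeries.C (om * x)) * t.eval (PowerSeries.C (om ^ 2 * x))
        = PowerSeries.C (((1 + om * x) * (1 + om ^ 2 * x)) ^ (2 * n + 1))
          + PowerSeries.C ((1 + x) ^ (2 * n + 1)) * Q.eval (PowerSeries.C x) := by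
  obtain ⟨Q, hQ⟩ := h.div
  refine ⟨Q, fun x => ?_⟩
  have hf := congrArg (fun p => p.eval (PowerSeries.C x)) hQ
  simp only [eval_mul, eval_comp, eval_add, eval_sub, eval_pow, eval_C, eval_X, eval_one] at hf
  simp only [map_pow, map_mul, map_add, map_one] at hf ⊢
  linear_combination hf

theorem pert_of_tspec (n : ℕ) (t : (PowerSeries ℂ)[X]) (h : TSpec n t) :
    ∃ t1 t2 : ℂ[X], Pert n t1 t2 ∧
      PowerSeries.coeff 1 (t.eval 1) = (2 * n + 1) * t1.eval 1 ∧
      PowerSeries.coeff 2 (t.eval 1) = (2 * n + 1) ^ 2 * t2.eval 1 := by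
  have hN : ((2 * n + 1 : ℂ)) ≠ 0 := by
    exact_mod_cast (by omega : 2 * n + 1 ≠ 0)
  set N : ℂ := 2 * n + 1 with hNdef
  have hev0 : ∀ x : ℂ, PowerSeries.coeff 0 (t.eval (PowerSeries.C x)) = (1 + x) ^ (2 * n + 1) := by
    intro x
    rw [e4_eval, e4_cf0 h]
    simp
  have hfac : ∀ x : ℂ, (1 + x ^ 3) ^ (2 * n + 1)
      = (1 + x) ^ (2 * n + 1) * (1 + om * x) ^ (2 * n + 1) * (1 + om ^ 2 * x) ^ (2 * n + 1) := by
    intro x
    rw [← mul_pow, ← mul_pow, e4_fac]
  have hI2 : Complex.I ^ 2 = -1 := Complex.I_sq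
  have hom := e4_om1
  have homI := e4_omI
  obtain ⟨Q, hQ⟩ := e4_div h
  refine ⟨C (1 / N) * e4_cf 1 t, C (1 / N ^ 2) * e4_cf 2 t, ?_, ?_, ?_⟩
  · refine ⟨?_, ?_, ?_, ?_, ?_, ?_, ?_, ?_, ?_, ?_⟩
    · exact (natDegree_C_mul_le _ _).trans (e4_cf_deg 1 t h.deg)
    · exact (natDegree_C_mul_le _ _).trans (e4_cf_deg 2 t h.deg)
    · rw [coeff_C_mul, e4_cf_coeff, h.bot, map_sub, neg_mul, map_neg, PowerSeries.coeff_C_mul,
        PowerSeries.coeff_C_mul, e4_expI, e4_expI]
      simp only [← hNdef]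
      field_simp
      simp
      linear_combination Complex.I * homI + (Real.sqrt 3 : ℂ) * hI2
    · rw [coeff_C_mul, e4_cf_coeff, h.top, map_sub, neg_mul, map_neg, PowerSeries.coeff_C_mul,
        PowerSeries.coeff_C_mul, e4_expI, e4_expI]
      simp only [← hNdef]
      field_simp
      simp
      linear_combination -Complex.I * homI - (Real.sqrt 3 : ℂ) * hI2
    · rw [coeff_C_mul, e4_cf_coeff, h.bot, map_sub, neg_mul, map_neg, PowerSeries.coeff_C_mul,
        PowerSeries.coeff_C_mul, e4_expI, e4_expI]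
      simp only [← hNdef]
      field_simp
      simp
      linear_combination -hom
    · rw [coeff_C_mul, e4_cf_coeff, h.top, map_sub, neg_mul, map_neg, PowerSeries.coeff_C_mul,
        PowerSeries.coeff_C_mul, e4_expI, e4_expI]
      simp only [← hNdef]
      field_simp
      simp
      linear_combination -hom
    · intro x
      have h2 := congrArg (PowerSeries.coeff 2) (e4_fus h x)
      simp only [e4_mul2, e4_mul1, e4_mul0, map_sub, map_add, PowerSeries.coeff_C_mul, hev0,
        e4_expI, e4_eval, mul_pow, hfac x] at h2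
      simp only [eval_mul, eval_C, hfac x]
      simp only [← hNdef, Nat.factorial] at h2
      push_cast at h2
      field_simp
      linear_combination h2 - 9 * N ^ 2 * ((1 + x) ^ (2 * n + 1) * (1 + om * x) ^ (2 * n + 1)
        * (1 + om ^ 2 * x) ^ (2 * n + 1)) * hI2
    · intro x
      have h3 := congrArg (PowerSeries.coeff 3) (e4_fus h x)
      simp only [e4_mul3, e4_mul2, e4_mul1, e4_mul0, map_sub, map_add, PowerSeries.coeff_C_mul, hev0,
        e4_expI, e4_eval, mul_pow, hfac x] at h3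
      simp only [eval_mul, eval_C, hfac x]
      simp only [← hNdef, Nat.factorial] at h3
      push_cast at h3
      field_simp
      linear_combination h3
    · refine ⟨C (1 / N) * e4_cf 1 Q, fun x => ?_⟩
      have h1 := congrArg (PowerSeries.coeff 1) (hQ x)
      simp only [e4_mul1, map_add, PowerSeries.coeff_C_mul, hev0, e4_eval, mul_pow] at h1
      simp only [eval_mul, eval_C]
      have hz : PowerSeries.coeff 1 (PowerSeries.C ((1 + om * x) ^ (2 * n + 1)
          * (1 + om ^ 2 * x) ^ (2 * n + 1))) = 0 := by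
        rw [PowerSeries.coeff_C]; simp
      rw [hz] at h1
      field_simp
      linear_combination h1
    · refine ⟨C (1 / N ^ 2) * e4_cf 2 Q, fun x => ?_⟩
      have h1 := congrArg (PowerSeries.coeff 2) (hQ x)
      simp only [e4_mul2, map_add, PowerSeries.coeff_C_mul, hev0, e4_eval, mul_pow] at h1
      simp only [eval_mul, eval_C]
      have hz : PowerSeries.coeff 2 (PowerSeries.C ((1 + om * x) ^ (2 * n + 1)
          * (1 + om ^ 2 * x) ^ (2 * n + 1))) = 0 := by
        rw [PowerSeries.coeff_C]; simp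
      rw [hz] at h1
      field_simp
      linear_combination h1
  · have h1 := e4_eval 1 t 1
    rw [map_one] at h1
    rw [h1, eval_mul, eval_C]
    field_simp
  · have h1 := e4_eval 2 t 1
    rw [map_one] at h1
    rw [h1, eval_mul, eval_C]
    field_simp

end H906K
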