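import Pool.Agent.H906R3.K6.Defs2

set_option autoImplicit false

namespace H906K
open Polynomial

theorem u1_der (F : ℂ[X]) (h0 : F.coeff 0 ≠ 0) :
    (derivative F).support.card + 1 ≤ F.support.card := by
  classical
  have h1 : (derivative F).support.card ≤ (F.support.erase 0).card := by
    refine Finset.card_le_card_of_injOn (fun i => i + 1) ?_ ?_
    · intro i hi
      have hi' : (derivative F).coeff i ≠ 0 := mem_support_iff.mp hi
      rw [coeff_derivative] at hi'
      have h2 : F.coeff (i + 1) ≠ 0 := fun h => hi' (by rw [h, zero_mul])
      simp [h2]
    · intro a _ b _ h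
      simpa using h
  have h2 : (F.support.erase 0).card + 1 = F.support.card :=
    Finset.card_erase_add_one (mem_support_iff.mpr h0)
  omega

theorem u1_div (F : ℂ[X]) : (F.divX).support.card ≤ F.support.card := by
  classical
  refine Finset.card_le_card_of_injOn (fun i => i + 1) ?_ ?_
  · intro i hi
    have hi' : F.divX.coeff i ≠ 0 := mem_support_iff.mp hi
    rw [coeff_divX] at hi'
    simpa using hi'
  · intro a _ b _ h
    simpa using h

theorem u1_main (r : ℂ) (hr : r ≠ 0) : ∀ (d : ℕ) (F : ℂ[X]), F.natDegree ≤ d → F ≠ 0 →
    F.rootMultiplicity r < F.support.card := by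
  intro d
  induction d with
  | zero =>
    intro F hd hF
    have h1 : F = C (F.coeff 0) := eq_C_of_natDegree_eq_zero (by omega)
    have h2 : F.rootMultiplicity r = 0 := by
      rw [h1]; exact rootMultiplicity_C _ _
    have h3 : 0 < F.support.card := by
      rw [Finset.card_pos]
      exact nonempty_support_iff.mpr hF
    omega
  | succ d ih =>
    intro F hd hF
    by_cases h0 : F.coeff 0 = 0
    · have h1 : X * F.divX = F := by
        have := X_mul_divX_add F
        rw [h0, C_0, add_zero] at this
        exact this
      have h2 : F.divX ≠ 0 := fun h => hF (by rw [← h1, h, mul_zero])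
      have h3 : F.divX.natDegree ≤ d := by
        rw [natDegree_divX_eq_natDegree_tsub_one]; omega
      have h4 := ih F.divX h3 h2
      have h5 : F.rootMultiplicity r = F.divX.rootMultiplicity r := by
        conv_lhs => rw [← h1]
        rw [rootMultiplicity_mul (by rw [h1]; exact hF)]
        have : rootMultiplicity r (X : ℂ[X]) = 0 := by
          apply rootMultiplicity_eq_zero
          simpa using hr
        rw [this, zero_add]
      have h6 := u1_div F
      omega
    · have h1 := u1_der F h0
      by_cases hd0 : derivative F = 0
      · have h2 : F.natDegree = 0 := natDegree_eq_zero_of_derivative_eq_zero hd0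
        have h3 : F = C (F.coeff 0) := eq_C_of_natDegree_eq_zero h2
        have h4 : F.rootMultiplicity r = 0 := by
          rw [h3]; exact rootMultiplicity_C _ _
        omega
      · have h2 : (derivative F).natDegree ≤ d := by
          have := natDegree_derivative_le F
          omega
        have h3 := ih (derivative F) h2 hd0
        have h4 : F.rootMultiplicity r - 1 ≤ (derivative F).rootMultiplicity r :=
          rootMultiplicity_sub_one_le_derivative_rootMultiplicity F r
        omega

theorem rootMult_lt (F : ℂ[X]) (hF : F ≠ 0) (r : ℂ) (hr : r ≠ 0) :
    F.rootMultiplicity r < F.support.card :=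
  u1_main r hr F.natDegree F le_rfl hF

end H906K
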