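import Pool.Agent.H906R3.K6.Defs2

set_option autoImplicit false

namespace H906K
open MeasureTheory Filter Topology Complex Set

/-- `exp (-|x|)` is integrable -/
theorem u2_exp_int : Integrable (fun x : ℝ => Real.exp (-|x|)) := by
  have h1 : IntegrableOn (fun x : ℝ => Real.exp (-|x|)) (Ioi 0) := by
    refine (exp_neg_integrableOn_Ioi 0 (b := 1) one_pos).congr_fun ?_ measurableSet_Ioi
    intro x hx
    have : (0 : ℝ) < x := hx
    simp [abs_of_pos this]
  have h2 : IntegrableOn (fun x : ℝ => Real.exp (-|x|)) (Iic 0) := by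
    refine (integrableOn_exp_Iic 0).congr_fun ?_ measurableSet_Iic
    intro x hx
    have : x ≤ (0 : ℝ) := hx
    simp [abs_of_nonpos this]
  have := h2.union h1
  rwa [Iic_union_Ioi, integrableOn_univ] at this

theorem u2_exp_top : Tendsto (fun x : ℝ => Real.exp (-|x|)) atTop (𝓝 0) :=
  Real.tendsto_exp_atBot.comp (tendsto_neg_atTop_atBot.comp tendsto_abs_atTop_atTop)

theorem u2_exp_bot : Tendsto (fun x : ℝ => Real.exp (-|x|)) atBot (𝓝 0) :=
  Real.tendsto_exp_atBot.comp (tendsto_neg_atTop_atBot.comp tendsto_abs_atBot_atTop)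

/-- shift of a line of integration -/
theorem u2_strip (g : ℂ → ℂ) (a b : ℝ) (hab : a ≤ b) (B : ℝ → ℝ) (hB : Integrable B)
    (hB0 : Tendsto B atTop (𝓝 0)) (hB1 : Tendsto B atBot (𝓝 0))
    (hd : ∀ t y : ℝ, a ≤ y → y ≤ b → DifferentiableAt ℂ g (t + y * I))
    (hb : ∀ t y : ℝ, a ≤ y → y ≤ b → ‖g (t + y * I)‖ ≤ B t) :
    ∫ t : ℝ, g (t + a * I) = ∫ t : ℝ, g (t + b * I) := by
  have hint : ∀ c : ℝ, a ≤ c → c ≤ b → Integrable (fun t : ℝ => g (t + c * I)) := by
    intro c hc1 hc2
    refine hB.mono' ?_ (Eventually.of_forall fun t => hb t c hc1 hc2)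
    have : Continuous (fun t : ℝ => g (t + c * I)) := by
      rw [continuous_iff_continuousAt]
      intro t
      refine ContinuousAt.comp (f := fun t : ℝ => ((t : ℂ) + c * I)) (hd t c hc1 hc2).continuousAt ?_
      fun_prop
    exact this.aestronglyMeasurable
  have key : ∀ T : ℝ, 0 ≤ T →
      (∫ t in (-T)..T, g (t + a * I)) - (∫ t in (-T)..T, g (t + b * I))
      + I • (∫ y in a..b, g (T + y * I)) - I • (∫ y in a..b, g ((-T : ℝ) + y * I)) = 0 := by
    intro T hT
    have h := Complex.integral_boundary_rect_eq_zero_of_differentiableOn g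
      (⟨-T, a⟩ : ℂ) (⟨T, b⟩ : ℂ) (by
        intro z hz
        rw [mem_reProdIm] at hz
        have h2 : z.im ∈ uIcc a b := hz.2
        rw [uIcc_of_le hab] at h2
        have h3 := hd z.re z.im h2.1 h2.2
        rw [re_add_im] at h3
        exact h3.differentiableWithinAt)
    exact h
  have hlim1 : Tendsto (fun T : ℝ => ∫ t in (-T)..T, g (t + a * I)) atTop
      (𝓝 (∫ t : ℝ, g (t + a * I))) :=
    intervalIntegral_tendsto_integral (hint a le_rfl hab) tendsto_neg_atTop_atBot tendsto_id
  have hlim2 : Tendsto (fun T : ℝ => ∫ t in (-T)..T, g (t + b * I)) atTop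
      (𝓝 (∫ t : ℝ, g (t + b * I))) :=
    intervalIntegral_tendsto_integral (hint b hab le_rfl) tendsto_neg_atTop_atBot tendsto_id
  have hlim3 : Tendsto (fun T : ℝ => ∫ y in a..b, g (T + y * I)) atTop (𝓝 0) := by
    rw [tendsto_zero_iff_norm_tendsto_zero]
    refine squeeze_zero (g := fun T => B T * |b - a|) (fun _ => norm_nonneg _) ?_ ?_
    · intro T
      refine intervalIntegral.norm_integral_le_of_norm_le_const ?_
      intro y hy
      rw [uIoc_of_le hab] at hy
      exact hb T y hy.1.le hy.2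
    · simpa using hB0.mul_const (|b - a|)
  have hlim4 : Tendsto (fun T : ℝ => ∫ y in a..b, g ((-T : ℝ) + y * I)) atTop (𝓝 0) := by
    rw [tendsto_zero_iff_norm_tendsto_zero]
    refine squeeze_zero (g := fun T => B (-T) * |b - a|) (fun _ => norm_nonneg _) ?_ ?_
    · intro T
      refine intervalIntegral.norm_integral_le_of_norm_le_const ?_
      intro y hy
      rw [uIoc_of_le hab] at hy
      exact hb (-T) y hy.1.le hy.2
    · simpa using (hB1.comp tendsto_neg_atTop_atBot).mul_const (|b - a|)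
  have hlim := (((hlim1.sub hlim2).add (hlim3.const_smul I)).sub (hlim4.const_smul I))
  have hz : Tendsto (fun T : ℝ => (∫ t in (-T)..T, g (t + a * I)) - (∫ t in (-T)..T, g (t + b * I))
      + I • (∫ y in a..b, g (T + y * I)) - I • (∫ y in a..b, g ((-T : ℝ) + y * I)))
      atTop (𝓝 0) := by
    refine Tendsto.congr' ?_ tendsto_const_nhds
    filter_upwards [eventually_ge_atTop (0 : ℝ)] with T hT
    exact (key T hT).symm
  have := tendsto_nhds_unique hlim hz
  simp only [smul_zero, add_zero, sub_zero] at this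
  exact sub_eq_zero.mp this

theorem u2_subst (f : ℂ → ℂ) (θ : ℝ) :
    ∫ r in Set.Ioi (0 : ℝ), f (r * Complex.exp (θ * I)) * Complex.exp (θ * I)
      = ∫ t : ℝ, f (Complex.exp (t + θ * I)) * Complex.exp (t + θ * I) := by
  have h1 : Real.exp '' (univ : Set ℝ) = Ioi 0 := by
    rw [image_univ, Real.range_exp]
  have h2 := integral_image_eq_integral_abs_deriv_smul (s := univ) (f := Real.exp)
    (f' := Real.exp) MeasurableSet.univ (fun x _ => (Real.hasDerivAt_exp x).hasDerivWithinAt)
    (Real.exp_injective.injOn)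
    (fun r : ℝ => f (r * Complex.exp (θ * I)) * Complex.exp (θ * I))
  rw [h1] at h2
  rw [h2, Measure.restrict_univ]
  congr 1
  funext t
  rw [abs_of_pos (Real.exp_pos t), Complex.exp_add, Complex.real_smul, ← Complex.ofReal_exp]
  ring

theorem u2_om : om = Complex.exp ((2 * Real.pi / 3 : ℝ) * I) := by
  rw [Complex.exp_mul_I, ← Complex.ofReal_cos, ← Complex.ofReal_sin]
  have h1 : Real.cos (2 * Real.pi / 3) = -1 / 2 := by
    have : 2 * Real.pi / 3 = Real.pi - Real.pi / 3 := by ring
    rw [this, Real.cos_pi_sub, Real.cos_pi_div_three]; norm_num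
  have h2 : Real.sin (2 * Real.pi / 3) = Real.sqrt 3 / 2 := by
    have : 2 * Real.pi / 3 = Real.pi - Real.pi / 3 := by ring
    rw [this, Real.sin_pi_sub, Real.sin_pi_div_three]
  rw [h1, h2]
  apply Complex.ext
  · simp [om]
  · simp [om]

theorem rot_int (f : ℂ → ℂ) (K : ℝ)
    (hf : ∀ r θ : ℝ, 0 < r → 2 * Real.pi / 3 ≤ θ → θ ≤ Real.pi →
      DifferentiableAt ℂ f (r * Complex.exp (θ * Complex.I)) ∧
      ‖f (r * Complex.exp (θ * Complex.I))‖ ≤ K / (1 + r ^ 2)) :
    ∫ r in Set.Ioi (0 : ℝ), f (r * om) * om = -∫ r in Set.Ioi (0 : ℝ), f (-(r : ℂ)) := by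
  have hpi := Real.pi_pos
  have hK : 0 ≤ K := by
    have h := (hf 1 Real.pi one_pos (by linarith) le_rfl).2
    have h2 := (norm_nonneg _).trans h
    have : K / (1 + 1 ^ 2) = K / 2 := by norm_num
    rw [this] at h2
    linarith
  have hexp : ∀ t y : ℝ, Complex.exp (t + y * I) = (Real.exp t : ℝ) * Complex.exp (y * I) := by
    intro t y
    rw [Complex.exp_add, Complex.ofReal_exp]
  have h := u2_strip (fun w => f (Complex.exp w) * Complex.exp w) (2 * Real.pi / 3) Real.pi
    (by linarith) (fun t => K * Real.exp (-|t|)) (u2_exp_int.const_mul K)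
    (by simpa using u2_exp_top.const_mul K) (by simpa using u2_exp_bot.const_mul K)
    (by
      intro t y h1 h2
      have h3 := (hf (Real.exp t) y (Real.exp_pos t) h1 h2).1
      rw [← hexp] at h3
      refine DifferentiableAt.mul ?_ ?_
      · exact DifferentiableAt.comp (𝕜 := ℂ) (f := Complex.exp) _ h3
          Complex.differentiableAt_exp
      · exact Complex.differentiableAt_exp)
    (by
      intro t y h1 h2
      have h3 := (hf (Real.exp t) y (Real.exp_pos t) h1 h2).2
      rw [← hexp] at h3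
      have h4 : ‖Complex.exp (t + y * I)‖ = Real.exp t := by
        rw [Complex.norm_exp]; simp
      rw [norm_mul, h4]
      have h5 : K / (1 + Real.exp t ^ 2) * Real.exp t ≤ K * Real.exp (-|t|) := by
        rw [div_mul_eq_mul_div, div_le_iff₀ (by positivity), mul_assoc]
        refine mul_le_mul_of_nonneg_left ?_ hK
        rcases le_total 0 t with h | h
        · rw [abs_of_nonneg h]
          have : Real.exp (-t) * Real.exp t = 1 := by rw [← Real.exp_add]; simp
          nlinarith [Real.exp_pos (-t), Real.exp_pos t]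
        · rw [abs_of_nonpos h, neg_neg]
          nlinarith [Real.exp_pos t, pow_pos (Real.exp_pos t) 3]
      exact (mul_le_mul_of_nonneg_right h3 (Real.exp_pos t).le).trans h5)
  rw [← u2_subst, ← u2_subst, ← u2_om] at h
  rw [h]
  have h2 : Complex.exp ((Real.pi : ℝ) * I) = -1 := Complex.exp_pi_mul_I
  rw [h2, ← integral_neg]
  congr 1
  funext r
  ring_nf

end H906K
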