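import Pool.Agent.H906R3.K6.Defs2
import Pool.Agent.H906R3.K6.U2

/-! U3: location of the zeros of `F`. -/

namespace H906K
open Polynomial MeasureTheory Filter Topology

theorem u3_sv_lt (P : ℝ[X]) (hP : P ≠ 0) : P.signVariations < P.support.card := by
  induction h : P.support.card using Nat.strong_induction_on generalizing P with
  | _ m ih =>
    by_cases h0 : P.eraseLead = 0
    · have h1 := P.eraseLead_add_C_mul_X_pow
      rw [h0, zero_add, C_mul_X_pow_eq_monomial] at h1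
      have h2 : P.signVariations = 0 := by rw [← h1]; exact signVariations_monomial _ _
      have h3 : 0 < P.support.card := Finset.card_pos.mpr (nonempty_support_iff.mpr hP)
      omega
    · have h1 := card_support_eraseLead_add_one hP
      have h2 := ih _ (by omega) P.eraseLead h0 rfl
      have h3 := signVariations_le_eraseLead_succ (P := P)
      omega

theorem u3_comp_coeff (F : ℝ[X]) (k : ℕ) : (F.comp (-X)).coeff k = (-1) ^ k * F.coeff k := by
  have h := Polynomial.comp_C_mul_X_coeff (p := F) (r := (-1 : ℝ)) (n := k)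
  rw [C_neg, C_1, neg_one_mul] at h
  rw [h, mul_comm]

theorem u3_comp_support (F : ℝ[X]) : (F.comp (-X)).support = F.support := by
  ext k
  rw [mem_support_iff, mem_support_iff, u3_comp_coeff]
  have : ((-1 : ℝ) ^ k) ≠ 0 := pow_ne_zero _ (by norm_num)
  simp [this]

theorem u3_count (F : ℝ[X]) (hF : F ≠ 0) (N : ℕ) (y : ℝ) (hy : 0 < y)
    (h : (X + 1) ^ N * (X + C y) ∣ F) : N + 1 < F.support.card := by
  have hG : F.comp (-X) ≠ 0 := by
    intro h0
    have := u3_comp_support F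
    rw [h0, support_zero] at this
    exact hF (support_eq_empty.mp this.symm)
  have hd : (X - C 1) ^ N * (X - C y) ∣ F.comp (-X) := by
    obtain ⟨H, hH⟩ := h
    have : F.comp (-X) = ((-X + 1) ^ N * (-X + C y)) * H.comp (-X) := by
      rw [hH]; simp
    rw [this]
    refine Dvd.dvd.mul_right (mul_dvd_mul (pow_dvd_pow_of_dvd ?_ N) ?_) _
    · exact ⟨-1, by simp; ring⟩
    · exact ⟨-1, by ring⟩
  have hle := Polynomial.roots.le_of_dvd hG hd
  have hne1 : (X - C (1 : ℝ)) ^ N ≠ 0 := pow_ne_zero _ (X_sub_C_ne_zero _)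
  have hne2 : (X - C y) ≠ 0 := X_sub_C_ne_zero _
  rw [roots_mul (mul_ne_zero hne1 hne2), roots_pow, roots_X_sub_C, roots_X_sub_C] at hle
  have h1 := Multiset.countP_le_of_le (fun x : ℝ => 0 < x) hle
  have h2 : Multiset.countP (fun x : ℝ => 0 < x) (N • {(1 : ℝ)} + {y}) = N + 1 := by
    rw [Multiset.countP_add, Multiset.nsmul_singleton]
    have e1 : Multiset.countP (fun x : ℝ => 0 < x) (Multiset.replicate N (1 : ℝ)) = N := by
      rw [Multiset.countP_eq_card.mpr]
      · simp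
      · intro a ha
        rw [Multiset.eq_of_mem_replicate ha]; norm_num
    have e2 : Multiset.countP (fun x : ℝ => 0 < x) {y} = 1 := by
      rw [Multiset.countP_eq_card.mpr]
      · simp
      · intro a ha
        rw [Multiset.mem_singleton.mp ha]; exact hy
    rw [e1, e2]
  have h3 := roots_countP_pos_le_signVariations (P := F.comp (-X))
  have h4 := u3_sv_lt _ hG
  rw [u3_comp_support] at h4
  omega

theorem u3_count' (F : ℝ[X]) (hF : F ≠ 0) (N : ℕ)
    (h : (X + 1) ^ (N + 1) ∣ F) : N + 1 < F.support.card := by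
  refine u3_count F hF N 1 one_pos ?_
  rwa [C_1, ← pow_succ]

theorem u3_card (n : ℕ) : ((Finset.range (3 * n + 2)).filter (fun k => k % 3 ≠ 2)).card
    = 2 * n + 2 := by
  induction n with
  | zero => decide
  | succ n ih =>
    rw [show 3 * (n + 1) + 2 = 3 * n + 2 + 1 + 1 + 1 by ring, Finset.range_add_one,
      Finset.range_add_one, Finset.range_add_one, Finset.filter_insert, Finset.filter_insert,
      Finset.filter_insert, if_pos (by omega), if_pos (by omega), if_neg (by omega),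
      Finset.card_insert_of_notMem, Finset.card_insert_of_notMem, ih]
    · ring
    · simp
    · simp

theorem u3_support (n : ℕ) (F : ℝ[X]) (hF : F ≠ 0)
    (hs : ∀ k, F.coeff k ≠ 0 → k ≤ 3 * n + 1 ∧ k % 3 ≠ 2) (hd : (X + 1) ^ (2 * n + 1) ∣ F) :
    F.support = (Finset.range (3 * n + 2)).filter (fun k => k % 3 ≠ 2) := by
  have h1 := u3_count' F hF (2 * n) hd
  refine Finset.eq_of_subset_of_card_le ?_ ?_
  · intro k hk
    have := hs k (mem_support_iff.mp hk)
    rw [Finset.mem_filter, Finset.mem_range]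
    exact ⟨by omega, this.2⟩
  · rw [u3_card]; omega

theorem u3_Qneg (n : ℕ) (F Q : ℝ[X]) (hF : F ≠ 0)
    (hs : ∀ k, F.coeff k ≠ 0 → k ≤ 3 * n + 1 ∧ k % 3 ≠ 2) (hd : F = (X + 1) ^ (2 * n + 1) * Q)
    (y : ℝ) (hy : 0 < y) : Q.eval (-y) ≠ 0 := by
  intro h0
  have h1 : X + C y ∣ Q := by
    have := dvd_iff_isRoot.mpr (show Q.IsRoot (-y) from h0)
    rwa [C_neg, sub_neg_eq_add] at this
  have h2 := u3_count F hF (2 * n + 1) y hy (by rw [hd]; exact mul_dvd_mul_left _ h1)
  rw [u3_support n F hF hs ⟨Q, hd⟩, u3_card] at h2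
  omega

/-- constant sign on an interval without zeros -/
theorem u3_sign (f : ℝ → ℝ) (hf : Continuous f) (a b : ℝ) (hab : a ≤ b)
    (h0 : ∀ x ∈ Set.Icc a b, f x ≠ 0) : 0 < f a * f b := by
  by_contra hneg
  have hne : f a * f b ≠ 0 := mul_ne_zero (h0 a ⟨le_rfl, hab⟩) (h0 b ⟨hab, le_rfl⟩)
  have hlt : f a * f b < 0 := lt_of_le_of_ne (not_lt.mp hneg) hne
  rcases mul_neg_iff.mp hlt with ⟨h1, h2⟩ | ⟨h1, h2⟩
  · obtain ⟨x, hx, hx0⟩ := intermediate_value_Icc' hab hf.continuousOn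
      (show (0 : ℝ) ∈ Set.Icc (f b) (f a) from ⟨h2.le, h1.le⟩)
    exact h0 x hx hx0
  · obtain ⟨x, hx, hx0⟩ := intermediate_value_Icc hab hf.continuousOn
      (show (0 : ℝ) ∈ Set.Icc (f a) (f b) from ⟨h1.le, h2.le⟩)
    exact h0 x hx hx0

theorem u3_poly_bound (p : ℂ[X]) (d : ℕ) (hd : p.natDegree ≤ d) :
    ∃ K : ℝ, 0 ≤ K ∧ ∀ z : ℂ, ‖p.eval z‖ ≤ K * (1 + ‖z‖) ^ d := by
  refine ⟨∑ k ∈ Finset.range (p.natDegree + 1), ‖p.coeff k‖, by positivity, fun z => ?_⟩
  rw [eval_eq_sum_range, Finset.sum_mul]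
  refine (norm_sum_le _ _).trans (Finset.sum_le_sum fun k hk => ?_)
  rw [norm_mul, norm_pow]
  refine mul_le_mul_of_nonneg_left ?_ (norm_nonneg _)
  have hk' : k ≤ d := by
    have := Finset.mem_range.mp hk
    omega
  have h0 := norm_nonneg z
  calc ‖z‖ ^ k ≤ (1 + ‖z‖) ^ k := pow_le_pow_left₀ h0 (by linarith) k
    _ ≤ (1 + ‖z‖) ^ d := pow_le_pow_right₀ (by linarith) hk'

theorem u3_om_cube : om ^ 3 = 1 := by
  have h3 : Real.sqrt 3 * Real.sqrt 3 = 3 := Real.mul_self_sqrt (by norm_num)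
  apply Complex.ext
  · simp [om, pow_succ]; nlinarith
  · simp [om, pow_succ]; linear_combination (-Real.sqrt 3 / 8) * h3

theorem u3_om_sq : om ^ 2 = (starRingEnd ℂ) om := by
  have h3 : Real.sqrt 3 * Real.sqrt 3 = 3 := Real.mul_self_sqrt (by norm_num)
  apply Complex.ext
  · simp [om, pow_succ]; nlinarith
  · simp [om, pow_succ]; ring

theorem u3_om_sum : 1 + om + om ^ 2 = 0 := by
  rw [u3_om_sq]
  apply Complex.ext
  · simp [om]; ring
  · simp [om]

theorem u3_om_exp : Complex.exp ((2 * Real.pi / 3 : ℝ) * Complex.I) = om := by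
  rw [Complex.exp_mul_I, ← Complex.ofReal_cos, ← Complex.ofReal_sin]
  have h1 : Real.cos (2 * Real.pi / 3) = -1 / 2 := by
    rw [show 2 * Real.pi / 3 = Real.pi - Real.pi / 3 by ring, Real.cos_pi_sub,
      Real.cos_pi_div_three]; ring
  have h2 : Real.sin (2 * Real.pi / 3) = Real.sqrt 3 / 2 := by
    rw [show 2 * Real.pi / 3 = Real.pi - Real.pi / 3 by ring, Real.sin_pi_sub,
      Real.sin_pi_div_three]
  rw [h1, h2]
  apply Complex.ext
  · simp [om]
  · simp [om]

theorem u3_sum (F : ℝ[X]) (hs : ∀ k, F.coeff k ≠ 0 → k % 3 ≠ 2) (z : ℂ) :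
    aeval z F + om * aeval (om * z) F + om ^ 2 * aeval (om ^ 2 * z) F = 0 := by
  rw [aeval_eq_sum_range, aeval_eq_sum_range, aeval_eq_sum_range, Finset.mul_sum, Finset.mul_sum,
    ← Finset.sum_add_distrib, ← Finset.sum_add_distrib]
  refine Finset.sum_eq_zero fun k _ => ?_
  by_cases hk : F.coeff k = 0
  · simp [hk]
  · have h1 := hs k hk
    have h2 : 1 + om ^ (k + 1) + (om ^ (k + 1)) ^ 2 = 0 := by
      have h3 : k + 1 = 3 * (k / 3) + (k % 3 + 1) := by omega
      have h4 : k % 3 = 0 ∨ k % 3 = 1 := by omega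
      rw [h3, pow_add, pow_mul, u3_om_cube, one_pow, one_mul]
      rcases h4 with h4 | h4
      · rw [h4]; simpa using u3_om_sum
      · rw [h4]
        have h5 : (om ^ (1 + 1)) ^ 2 = om := by
          calc (om ^ (1 + 1)) ^ 2 = om ^ 3 * om := by ring
            _ = om := by rw [u3_om_cube, one_mul]
        rw [h5]
        linear_combination u3_om_sum
    simp only [Algebra.smul_def]
    linear_combination (algebraMap ℝ ℂ (F.coeff k)) * z ^ k * h2

theorem u3_real (p : ℝ[X]) (x : ℝ) : aeval (x : ℂ) p = ((p.eval x : ℝ) : ℂ) := by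
  have := aeval_algebraMap_apply ℂ x p
  simpa using this

/-- the function `f` -/
noncomputable def u3f (W : ℝ[X]) (N : ℕ) (z : ℂ) : ℂ := aeval z W / (1 - z + z ^ 2) ^ N

theorem u3f_conj (W : ℝ[X]) (N : ℕ) (z : ℂ) :
    u3f W N ((starRingEnd ℂ) z) = (starRingEnd ℂ) (u3f W N z) := by
  unfold u3f
  rw [aeval_conj, map_div₀, map_pow, map_add, map_sub, map_pow, map_one]

theorem u3f_eq (P F Q : ℝ[X]) (N : ℕ) (hd : F = (X + 1) ^ N * Q) (z : ℂ) (hz : 1 + z ^ 3 ≠ 0) :
    u3f (P.comp (X ^ 3) * Q) N z = aeval (z ^ 3) P * aeval z F / (1 + z ^ 3) ^ N := by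
  have h1 : 1 + z ^ 3 = (1 + z) * (1 - z + z ^ 2) := by ring
  rw [h1] at hz
  have h2 : 1 + z ≠ 0 := left_ne_zero_of_mul hz
  have h3 : 1 - z + z ^ 2 ≠ 0 := right_ne_zero_of_mul hz
  unfold u3f
  rw [h1, hd, map_mul, aeval_comp, map_mul, map_pow, map_pow, map_add, map_one, aeval_X,
    mul_pow]
  have h4 : (z + 1) ^ N = (1 + z) ^ N := by rw [add_comm]
  rw [h4]
  field_simp

theorem u3_ident (P F Q : ℝ[X]) (N : ℕ) (hd : F = (X + 1) ^ N * Q)
    (hs : ∀ k, F.coeff k ≠ 0 → k % 3 ≠ 2) (r : ℝ) (hr : 0 < r) :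
    (P.comp (X ^ 3) * Q).eval r / (1 - r + r ^ 2) ^ N
      = -2 * (u3f (P.comp (X ^ 3) * Q) N (r * om) * om).re := by
  have hr3 : (1 : ℂ) + (r : ℂ) ^ 3 ≠ 0 := by
    have : (0 : ℝ) < 1 + r ^ 3 := by positivity
    exact_mod_cast this.ne'
  have e1 : (om * (r : ℂ)) ^ 3 = (r : ℂ) ^ 3 := by rw [mul_pow, u3_om_cube, one_mul]
  have e2 : (om ^ 2 * (r : ℂ)) ^ 3 = (r : ℂ) ^ 3 := by
    calc (om ^ 2 * (r : ℂ)) ^ 3 = (om ^ 3) ^ 2 * (r : ℂ) ^ 3 := by ring
      _ = _ := by rw [u3_om_cube, one_pow, one_mul]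
  have h0 := u3f_eq P F Q N hd (r : ℂ) hr3
  have h1 := u3f_eq P F Q N hd (om * (r : ℂ)) (by rw [e1]; exact hr3)
  have h2 := u3f_eq P F Q N hd (om ^ 2 * (r : ℂ)) (by rw [e2]; exact hr3)
  rw [e1] at h1
  rw [e2] at h2
  set W := P.comp (X ^ 3) * Q with hW
  have hsum := u3_sum F hs (r : ℂ)
  have h3 : u3f W N r + om * u3f W N (om * r) + om ^ 2 * u3f W N (om ^ 2 * r) = 0 := by
    rw [h0, h1, h2]
    have : aeval ((r : ℂ) ^ 3) P * aeval (r : ℂ) F / (1 + (r : ℂ) ^ 3) ^ N
        + om * (aeval ((r : ℂ) ^ 3) P * aeval (om * (r : ℂ)) F / (1 + (r : ℂ) ^ 3) ^ N)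
        + om ^ 2 * (aeval ((r : ℂ) ^ 3) P * aeval (om ^ 2 * (r : ℂ)) F / (1 + (r : ℂ) ^ 3) ^ N)
        = aeval ((r : ℂ) ^ 3) P / (1 + (r : ℂ) ^ 3) ^ N * (aeval (r : ℂ) F
          + om * aeval (om * (r : ℂ)) F + om ^ 2 * aeval (om ^ 2 * (r : ℂ)) F) := by ring
    rw [this, hsum, mul_zero]
  have h4 : om ^ 2 * u3f W N (om ^ 2 * r) = (starRingEnd ℂ) (om * u3f W N (om * r)) := by
    rw [map_mul, ← u3f_conj, map_mul, Complex.conj_ofReal, ← u3_om_sq]
  have h5 : u3f W N r = (((W.eval r / (1 - r + r ^ 2) ^ N : ℝ)) : ℂ) := by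
    unfold u3f
    rw [u3_real]
    push_cast
    ring
  rw [h4, h5] at h3
  have h6 := congrArg Complex.re h3
  simp only [Complex.add_re, Complex.ofReal_re, Complex.conj_re, Complex.zero_re] at h6
  rw [mul_comm (r : ℂ) om, mul_comm _ om]
  linarith

theorem u3_cos (θ : ℝ) (h1 : 2 * Real.pi / 3 ≤ θ) (h2 : θ ≤ Real.pi) : Real.cos θ ≤ -1 / 2 := by
  have hpi := Real.pi_pos
  have h3 : Real.cos (2 * Real.pi / 3) = -1 / 2 := by
    rw [show 2 * Real.pi / 3 = Real.pi - Real.pi / 3 by ring, Real.cos_pi_sub,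
      Real.cos_pi_div_three]; ring
  rw [← h3]
  exact Real.cos_le_cos_of_nonneg_of_le_pi (by positivity) h2 h1

theorem u3_den (z : ℂ) (r : ℝ) (hr : 0 < r) (hz : z.re ≤ -r / 2) :
    (1 + r) ^ 2 / 4 ≤ ‖1 - z + z ^ 2‖ := by
  have h1 : 1 - z + z ^ 2 = (z + om) * (z + om ^ 2) := by
    linear_combination (-z) * u3_om_sum - u3_om_cube
  have h2 : (1 + r) / 2 ≤ ‖z + om‖ := by
    have := Complex.abs_re_le_norm (z + om)
    have h3 : (z + om).re ≤ -(1 + r) / 2 := by
      have : (z + om).re = z.re - 1 / 2 := by simp [om]; ring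
      rw [this]; linarith
    rw [abs_of_nonpos (by linarith)] at this
    linarith
  have h4 : (1 + r) / 2 ≤ ‖z + om ^ 2‖ := by
    have := Complex.abs_re_le_norm (z + om ^ 2)
    have h3 : (z + om ^ 2).re ≤ -(1 + r) / 2 := by
      have : (z + om ^ 2).re = z.re - 1 / 2 := by rw [u3_om_sq]; simp [om]; ring
      rw [this]; linarith
    rw [abs_of_nonpos (by linarith)] at this
    linarith
  rw [h1, norm_mul]
  calc (1 + r) ^ 2 / 4 = (1 + r) / 2 * ((1 + r) / 2) := by ring
    _ ≤ _ := mul_le_mul h2 h4 (by positivity) (norm_nonneg _)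

theorem u3f_bound (W : ℝ[X]) (n : ℕ) (hW : W.natDegree ≤ 4 * n) :
    ∃ K : ℝ, ∀ r θ : ℝ, 0 < r → 2 * Real.pi / 3 ≤ θ → θ ≤ Real.pi →
      DifferentiableAt ℂ (u3f W (2 * n + 1)) (r * Complex.exp (θ * Complex.I)) ∧
      ‖u3f W (2 * n + 1) (r * Complex.exp (θ * Complex.I))‖ ≤ K / (1 + r ^ 2) := by
  obtain ⟨K, hK, hb⟩ := u3_poly_bound (W.map (algebraMap ℝ ℂ)) (4 * n)
    ((natDegree_map_le).trans hW)
  refine ⟨K * 4 ^ (2 * n + 1), fun r θ hr h1 h2 => ?_⟩
  set z : ℂ := r * Complex.exp (θ * Complex.I) with hz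
  have hnorm : ‖z‖ = r := by
    rw [hz, norm_mul, Complex.norm_exp_ofReal_mul_I, mul_one, Complex.norm_real, Real.norm_eq_abs,
      abs_of_pos hr]
  have hre : z.re ≤ -r / 2 := by
    have : z.re = r * Real.cos θ := by
      rw [hz, Complex.re_ofReal_mul, Complex.exp_ofReal_mul_I_re]
    rw [this]
    have := u3_cos θ h1 h2
    nlinarith
  have hden := u3_den z r hr hre
  have hpos : 0 < (1 + r) ^ 2 / 4 := by positivity
  have hne : 1 - z + z ^ 2 ≠ 0 := by
    intro h0
    rw [h0, norm_zero] at hden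
    linarith
  constructor
  · unfold u3f
    refine DifferentiableAt.div ?_ (by fun_prop) (pow_ne_zero _ hne)
    have : (fun z : ℂ => aeval z W) = fun z => (W.map (algebraMap ℝ ℂ)).eval z := by
      funext z; rw [eval_map_algebraMap]
    rw [this]
    exact Polynomial.differentiableAt _
  · unfold u3f
    rw [norm_div, norm_pow]
    have e1 := hb z
    rw [eval_map_algebraMap, hnorm] at e1
    have e2 : ((1 + r) ^ 2 / 4) ^ (2 * n + 1) ≤ ‖1 - z + z ^ 2‖ ^ (2 * n + 1) :=
      pow_le_pow_left₀ hpos.le hden _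
    have e3 : ‖aeval z W‖ / ‖1 - z + z ^ 2‖ ^ (2 * n + 1)
        ≤ K * (1 + r) ^ (4 * n) / ((1 + r) ^ 2 / 4) ^ (2 * n + 1) :=
      div_le_div₀ (by positivity) e1 (by positivity) e2
    refine e3.trans ?_
    have e4 : K * (1 + r) ^ (4 * n) / ((1 + r) ^ 2 / 4) ^ (2 * n + 1)
        = K * 4 ^ (2 * n + 1) / (1 + r) ^ 2 := by
      rw [div_pow, ← pow_mul]
      have : (1 + r) ^ (2 * (2 * n + 1)) = (1 + r) ^ (4 * n) * (1 + r) ^ 2 := by
        rw [← pow_add]; congr 1; ring
      rw [this]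
      have h1r : (1 + r) ≠ 0 := by positivity
      field_simp
    rw [e4]
    refine div_le_div_of_nonneg_left (by positivity) (by positivity) ?_
    nlinarith


theorem u3_key (n : ℕ) (F Q : ℝ[X]) (hF : F ≠ 0)
    (hs : ∀ k, F.coeff k ≠ 0 → k ≤ 3 * n + 1 ∧ k % 3 ≠ 2) (hd : F = (X + 1) ^ (2 * n + 1) * Q)
    (hQ0 : Q.eval 0 ≠ 0) (hQn : Q.natDegree ≤ n)
    (ρ : Multiset ℝ) (hρ : ∀ a ∈ ρ, 0 < a) (Q1 : ℝ[X])
    (hQ : Q = (ρ.map (fun a => X - C a)).prod * Q1) (hQ1 : ∀ x, 0 < x → Q1.eval x ≠ 0)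
    (hcard : Multiset.card ρ < n) : False := by
  set P : ℝ[X] := X * (ρ.map (fun a => C (a ^ 3) - X)).prod with hP
  set W : ℝ[X] := P.comp (X ^ 3) * Q with hW
  have hPdeg : P.natDegree ≤ n := by
    have h1 : (ρ.map (fun a : ℝ => C (a ^ 3) - X)).prod.natDegree ≤ Multiset.card ρ := by
      refine (natDegree_multiset_prod_le _).trans ?_
      rw [Multiset.map_map]
      refine (Multiset.sum_le_card_nsmul _ 1 ?_).trans ?_
      · intro x hx
        obtain ⟨a, -, rfl⟩ := Multiset.mem_map.mp hx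
        simp only [Function.comp]
        refine (natDegree_sub_le _ _).trans ?_
        simp
      · simp
    have h2 := natDegree_mul_le (p := (X : ℝ[X]))
      (q := (ρ.map (fun a : ℝ => C (a ^ 3) - X)).prod)
    rw [natDegree_X] at h2
    rw [hP]
    omega
  have hWdeg : W.natDegree ≤ 4 * n := by
    have h1 := natDegree_mul_le (p := P.comp (X ^ 3)) (q := Q)
    rw [natDegree_comp, natDegree_X_pow] at h1
    rw [← hW] at h1
    omega
  obtain ⟨K, hK⟩ := u3f_bound W n hWdeg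
  have hrot := rot_int (u3f W (2 * n + 1)) K hK
  -- the real function on the negative axis
  set v : ℝ → ℝ := fun r => W.eval (-r) / (1 + r + r ^ 2) ^ (2 * n + 1) with hv
  set u : ℝ → ℝ := fun r => W.eval r / (1 - r + r ^ 2) ^ (2 * n + 1) with hu
  have hfv : ∀ r : ℝ, u3f W (2 * n + 1) (-(r : ℂ)) = ((v r : ℝ) : ℂ) := by
    intro r
    unfold u3f
    have h1 := u3_real W (-r)
    push_cast at h1
    rw [h1, hv]
    push_cast
    congr 1
    ring
  have hint2 : ∫ r in Set.Ioi (0 : ℝ), u3f W (2 * n + 1) (-(r : ℂ))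
      = ((∫ r in Set.Ioi (0 : ℝ), v r : ℝ) : ℂ) := by
    simp_rw [hfv]
    exact integral_ofReal
  -- integrability
  have hbase : IntegrableOn (fun r : ℝ => K / (1 + r ^ 2)) (Set.Ioi 0) := by
    have := (integrable_inv_one_add_sq.const_mul K).integrableOn (s := Set.Ioi (0 : ℝ))
    refine this.congr_fun (fun r _ => by ring) measurableSet_Ioi
  have hIom : IntegrableOn (fun r : ℝ => u3f W (2 * n + 1) (r * om) * om) (Set.Ioi 0) := by
    refine Integrable.mul_const ?_ _
    refine hbase.mono' ?_ ?_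
    · refine ContinuousOn.aestronglyMeasurable ?_ measurableSet_Ioi
      intro r hr
      have h1 := (hK r (2 * Real.pi / 3) hr le_rfl (by have := Real.pi_pos; linarith)).1
      rw [u3_om_exp] at h1
      have h2 : ContinuousAt (fun r : ℝ => (r : ℂ) * om) r := by fun_prop
      exact (ContinuousAt.comp (f := fun r : ℝ => (r : ℂ) * om) h1.continuousAt h2).continuousWithinAt
    · refine (ae_restrict_iff' measurableSet_Ioi).mpr (Eventually.of_forall fun r hr => ?_)
      have h1 := (hK r (2 * Real.pi / 3) hr le_rfl (by have := Real.pi_pos; linarith)).2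
      rwa [u3_om_exp] at h1
  have hIv : IntegrableOn v (Set.Ioi 0) := by
    refine hbase.mono' ?_ ?_
    · refine ContinuousOn.aestronglyMeasurable ?_ measurableSet_Ioi
      intro r hr
      have hr' : (0 : ℝ) < r := hr
      have : (1 + r + r ^ 2) ^ (2 * n + 1) ≠ 0 := by positivity
      refine ContinuousAt.continuousWithinAt ?_
      refine ContinuousAt.div ?_ ?_ this
      · exact (W.continuous.comp continuous_neg).continuousAt
      · fun_prop
    · refine (ae_restrict_iff' measurableSet_Ioi).mpr (Eventually.of_forall fun r hr => ?_)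
      have h1 := (hK r Real.pi hr (by have := Real.pi_pos; linarith) le_rfl).2
      rw [Complex.exp_pi_mul_I, mul_neg_one, hfv] at h1
      rw [Complex.norm_real] at h1
      exact h1
  have hmain : ∫ r in Set.Ioi (0 : ℝ), u r = 2 * ∫ r in Set.Ioi (0 : ℝ), v r := by
    have h1 : ∫ r in Set.Ioi (0 : ℝ), u r
        = ∫ r in Set.Ioi (0 : ℝ), -2 * (u3f W (2 * n + 1) (r * om) * om).re := by
      refine setIntegral_congr_fun measurableSet_Ioi fun r hr => ?_
      exact u3_ident P F Q (2 * n + 1) hd (fun k hk => (hs k hk).2) r hr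
    rw [h1, integral_const_mul]
    have h2 : ∫ r in Set.Ioi (0 : ℝ), (u3f W (2 * n + 1) (r * om) * om).re
        = (∫ r in Set.Ioi (0 : ℝ), u3f W (2 * n + 1) (r * om) * om).re := by
      have := Complex.reCLM.integral_comp_comm hIom
      simpa using this
    rw [h2, hrot, hint2, Complex.neg_re, Complex.ofReal_re]
    ring
  -- signs
  have hQneg : ∀ r : ℝ, 0 < r → 0 < Q.eval 0 * Q.eval (-r) := by
    intro r hr
    have := u3_sign (fun x => Q.eval (-x)) (Q.continuous.comp continuous_neg) 0 r hr.le (by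
      intro x hx
      rcases eq_or_lt_of_le hx.1 with h0 | h0
      · simp only [← h0, neg_zero]; exact hQ0
      · exact u3_Qneg n F Q hF hs hd x h0)
    simpa using this
  have hQ10 : Q1.eval 0 ≠ 0 := by
    intro h0
    apply hQ0
    rw [hQ, eval_mul, h0, mul_zero]
  have hQ1pos : ∀ r : ℝ, 0 < r → 0 < Q1.eval 0 * Q1.eval r := by
    intro r hr
    exact u3_sign (fun x => Q1.eval x) Q1.continuous 0 r hr.le (by
      intro x hx
      rcases eq_or_lt_of_le hx.1 with h0 | h0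
      · simp only [← h0]; exact hQ10
      · exact hQ1 x h0)
  have hevP : ∀ x : ℝ, P.eval x = x * (ρ.map (fun a => a ^ 3 - x)).prod := by
    intro x
    rw [hP, eval_mul, eval_X, eval_multiset_prod, Multiset.map_map]
    congr 3
    funext a
    simp
  have hevQ : ∀ x : ℝ, Q.eval x = (ρ.map (fun a => x - a)).prod * Q1.eval x := by
    intro x
    rw [hQ, eval_mul, eval_multiset_prod, Multiset.map_map]
    congr 3
    funext a
    simp
  have hupos : ∀ r : ℝ, 0 < r → 0 ≤ Q.eval 0 * u r := by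
    intro r hr
    have h1 : Q.eval 0 * u r = r ^ 3 * (ρ.map (fun a => (a ^ 3 - r ^ 3) * ((r - a) * (0 - a)))).prod
        * (Q1.eval 0 * Q1.eval r) / (1 - r + r ^ 2) ^ (2 * n + 1) := by
      rw [Multiset.prod_map_mul, Multiset.prod_map_mul, hu]
      simp only [hW]
      rw [eval_mul, eval_comp, eval_pow, eval_X, hevP, hevQ r, hevQ 0]
      ring
    rw [h1]
    have h2 : 0 < 1 - r + r ^ 2 := by nlinarith [sq_nonneg (r - 1 / 2)]
    have h3 : 0 ≤ (ρ.map (fun a => (a ^ 3 - r ^ 3) * ((r - a) * (0 - a)))).prod := by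
      refine Multiset.prod_nonneg ?_
      intro x hx
      obtain ⟨a, ha, rfl⟩ := Multiset.mem_map.mp hx
      have ha0 := hρ a ha
      have e : (a ^ 3 - r ^ 3) * ((r - a) * (0 - a))
          = (a - r) ^ 2 * (a * (a ^ 2 + a * r + r ^ 2)) := by ring
      rw [e]
      positivity
    have h4 := (hQ1pos r hr).le
    positivity
  have hvneg : ∀ r : ℝ, 0 < r → Q.eval 0 * v r < 0 := by
    intro r hr
    have h1 : Q.eval 0 * v r = -(r ^ 3 * (ρ.map (fun a => a ^ 3 + r ^ 3)).prod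
        * (Q.eval 0 * Q.eval (-r)) / (1 + r + r ^ 2) ^ (2 * n + 1)) := by
      have e : (ρ.map (fun a => a ^ 3 - (-r) ^ 3)) = ρ.map (fun a => a ^ 3 + r ^ 3) := by
        congr 1; funext a; ring
      rw [hv]
      simp only [hW]
      rw [eval_mul, eval_comp, eval_pow, eval_X, hevP, e]
      ring
    rw [h1, neg_lt_zero]
    have h3 : 0 < (ρ.map (fun a => a ^ 3 + r ^ 3)).prod := by
      refine Multiset.prod_pos ?_
      intro x hx
      obtain ⟨a, ha, rfl⟩ := Multiset.mem_map.mp hx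
      have ha0 := hρ a ha
      positivity
    have h4 := hQneg r hr
    positivity
  have hL : 0 ≤ ∫ r in Set.Ioi (0 : ℝ), Q.eval 0 * u r :=
    setIntegral_nonneg measurableSet_Ioi fun r hr => hupos r hr
  have hR : 0 < ∫ r in Set.Ioi (0 : ℝ), -(Q.eval 0 * v r) := by
    rw [setIntegral_pos_iff_support_of_nonneg_ae]
    · have : Function.support (fun r => -(Q.eval 0 * v r)) ∩ Set.Ioi 0 = Set.Ioi 0 := by
        refine Set.inter_eq_right.mpr fun r hr => ?_
        have := hvneg r hr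
        simp only [Function.mem_support]
        linarith
      rw [this]
      simp
    · refine (ae_restrict_iff' measurableSet_Ioi).mpr (Eventually.of_forall fun r hr => ?_)
      have := hvneg r hr
      simp only [Pi.zero_apply]
      linarith
    · exact (hIv.const_mul _).neg
  rw [integral_const_mul, hmain] at hL
  rw [integral_neg, integral_const_mul] at hR
  linarith

/-- U3 -/
theorem F_roots (n : ℕ) (F : ℝ[X]) (hF : F ≠ 0)
    (hs : ∀ k, F.coeff k ≠ 0 → k ≤ 3 * n + 1 ∧ k % 3 ≠ 2) (hd : (X + 1) ^ (2 * n + 1) ∣ F) :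
    F.coeff 0 ≠ 0 ∧ F.natDegree = 3 * n + 1 ∧
    ∀ z : ℂ, (F.map (algebraMap ℝ ℂ)).eval z = 0 → z = -1 ∨ ∃ r : ℝ, 0 < r ∧ z = r := by
  have hsup := u3_support n F hF hs hd
  have hc0 : F.coeff 0 ≠ 0 := by
    rw [← mem_support_iff, hsup]; simp
  have hc1 : F.coeff (3 * n + 1) ≠ 0 := by
    rw [← mem_support_iff, hsup, Finset.mem_filter, Finset.mem_range]
    omega
  have hdeg : F.natDegree = 3 * n + 1 := by
    refine le_antisymm ?_ (le_natDegree_of_ne_zero hc1)
    exact (hs _ (by rw [coeff_natDegree]; exact leadingCoeff_ne_zero.mpr hF)).1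
  refine ⟨hc0, hdeg, fun z hz => ?_⟩
  obtain ⟨Q, hQd⟩ := hd
  have hQne : Q ≠ 0 := by
    rintro rfl
    exact hF (by rw [hQd, mul_zero])
  have hmonic : (((X : ℝ[X]) + 1) ^ (2 * n + 1)).Monic := by
    have := (monic_X_add_C (1 : ℝ)).pow (2 * n + 1)
    rwa [C_1] at this
  have hQdeg : Q.natDegree = n := by
    have h1 : F.natDegree = (((X : ℝ[X]) + 1) ^ (2 * n + 1)).natDegree + Q.natDegree := by
      rw [hQd, hmonic.natDegree_mul' hQne]
    have h2 : (((X : ℝ[X]) + 1) ^ (2 * n + 1)).natDegree = 2 * n + 1 := by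
      rw [← C_1, natDegree_pow, natDegree_X_add_C, mul_one]
    omega
  have hQ0 : Q.eval 0 ≠ 0 := by
    intro h0
    apply hc0
    rw [coeff_zero_eq_eval_zero, hQd, eval_mul, h0, mul_zero]
  set ρ : Multiset ℝ := Q.roots.filter (fun x => 0 < x) with hρ
  have hle : ρ ≤ Q.roots := Multiset.filter_le _ _
  obtain ⟨Q1, hQ1⟩ : (ρ.map (fun a => X - C a)).prod ∣ Q := by
    refine dvd_trans (Multiset.prod_dvd_prod_of_le (Multiset.map_le_map hle)) ?_
    exact prod_multiset_X_sub_C_dvd Q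
  have hQ1ne : Q1 ≠ 0 := by
    rintro rfl
    exact hQne (by rw [hQ1, mul_zero])
  have hprodne : (ρ.map (fun a => X - C a)).prod ≠ 0 := (monic_multisetProd_X_sub_C _).ne_zero
  have hroots : Q.roots = ρ + Q1.roots := by
    conv_lhs => rw [hQ1]
    rw [roots_mul (by rw [← hQ1]; exact hQne), roots_multiset_prod_X_sub_C]
  have hQ1pos : ∀ x, 0 < x → Q1.eval x ≠ 0 := by
    intro x hx h0
    have h1 : x ∈ Q1.roots := (mem_roots hQ1ne).mpr h0
    have h2 := congrArg (Multiset.count x) hroots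
    rw [Multiset.count_add, hρ, Multiset.count_filter_of_pos hx] at h2
    have h3 := Multiset.count_pos.mpr h1
    omega
  have hρpos : ∀ a ∈ ρ, 0 < a := fun a ha => (Multiset.mem_filter.mp ha).2
  have hcard : ¬ Multiset.card ρ < n := fun h =>
    u3_key n F Q hF hs hQd hQ0 hQdeg.le ρ hρpos Q1 hQ1 hQ1pos h
  have hQ1deg : Q1.natDegree = 0 := by
    have h1 : Q.natDegree = (ρ.map (fun a => X - C a)).prod.natDegree + Q1.natDegree := by
      conv_lhs => rw [hQ1]
      rw [(monic_multisetProd_X_sub_C _).natDegree_mul' hQ1ne]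
    rw [natDegree_multiset_prod_X_sub_C_eq_card] at h1
    omega
  obtain ⟨c, hc⟩ := natDegree_eq_zero.mp hQ1deg
  have hcne : c ≠ 0 := by
    rintro rfl
    exact hQ1ne (by rw [← hc, C_0])
  rw [eval_map_algebraMap, hQd, map_mul] at hz
  rcases mul_eq_zero.mp hz with h1 | h1
  · left
    rw [map_pow, map_add, aeval_X, map_one] at h1
    exact eq_neg_of_add_eq_zero_left (pow_eq_zero_iff (by omega) |>.mp h1)
  · right
    rw [hQ1, ← hc, map_mul, aeval_C] at h1
    have h2 : aeval z (ρ.map (fun a => X - C a)).prod = 0 := by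
      rcases mul_eq_zero.mp h1 with h | h
      · exact h
      · exact absurd ((map_eq_zero _).mp h) hcne
    rw [map_multiset_prod, Multiset.map_map, Multiset.prod_eq_zero_iff, Multiset.mem_map] at h2
    obtain ⟨a, ha, ha0⟩ := h2
    refine ⟨a, hρpos a ha, ?_⟩
    simp only [Function.comp, map_sub, aeval_X, aeval_C] at ha0
    have := sub_eq_zero.mp ha0
    simpa using this

end H906K
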