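import Pool.Agent.H906R3.K6.Defs2
import Pool.Agent.H906R3.K6.U2

set_option autoImplicit false

namespace H906K
open Pool.Agent.H974R3 Polynomial MeasureTheory Filter Topology

theorem u3b_sv : ∀ (c : ℕ) (P : ℝ[X]), P ≠ 0 → P.support.card = c → signVariations P + 1 ≤ c := by
  intro c
  induction c with
  | zero =>
    intro P hP hc
    exact absurd (card_support_eq_zero.mp hc) hP
  | succ c ih =>
    intro P hP hc
    have h1 := card_support_eraseLead_add_one hP
    have h2 : P.eraseLead.support.card = c := by omega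
    by_cases h0 : P.eraseLead = 0
    · have h3 : P.signVariations = 0 := by
        have h4 := eraseLead_add_C_mul_X_pow P
        rw [h0, zero_add, C_mul_X_pow_eq_monomial] at h4
        rw [← h4, signVariations_monomial]
      omega
    · have h3 := ih P.eraseLead h0 h2
      have h4 := signVariations_le_eraseLead_succ (P := P)
      omega

theorem u3b_coeff_neg (P : ℝ[X]) (k : ℕ) : (P.comp (-X)).coeff k = (-1) ^ k * P.coeff k := by
  have h : (-X : ℝ[X]) = C (-1) * X := by simp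
  rw [h, comp_C_mul_X_coeff]
  ring

theorem u3b_supp_neg (P : ℝ[X]) : (P.comp (-X)).support = P.support := by
  ext k
  simp [mem_support_iff, u3b_coeff_neg]

/-- a polynomial has fewer negative roots than monomials -/
theorem u3b_negroots (P : ℝ[X]) (hP : P ≠ 0) :
    P.roots.countP (· < 0) + 1 ≤ P.support.card := by
  have h1 := roots_countP_pos_le_signVariations (P := P.comp (-X))
  have h2 : P.comp (-X) ≠ 0 := fun h => hP (comp_neg_X_eq_zero_iff.mp h)
  have h3 := u3b_sv _ (P.comp (-X)) h2 rfl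
  rw [u3b_supp_neg] at h3
  have h4 : (P.comp (-X)).roots.countP (0 < ·) = P.roots.countP (· < 0) := by
    rw [roots_comp_neg_X, Multiset.countP_map, Multiset.countP_eq_card_filter]
    simp
  omega

/-- number of elements of the exponent set -/
theorem u3b_card_exp (n : ℕ) :
    ((Finset.range (3 * n + 3)).filter (fun k => k % 3 ≠ 1)).card = 2 * n + 2 := by
  induction n with
  | zero => rfl
  | succ n ih =>
    have h : 3 * (n + 1) + 3 = (3 * n + 3) + 1 + 1 + 1 := by ring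
    rw [h, Finset.range_add_one, Finset.filter_insert, Finset.range_add_one, Finset.filter_insert,
      Finset.range_add_one, Finset.filter_insert]
    have e1 : (3 * n + 3 + 1 + 1) % 3 ≠ 1 := by omega
    have e2 : ¬ ((3 * n + 3 + 1) % 3 ≠ 1) := by omega
    have e3 : (3 * n + 3) % 3 ≠ 1 := by omega
    rw [if_pos e1, if_neg e2, if_pos e3]
    rw [Finset.card_insert_of_notMem, Finset.card_insert_of_notMem, ih]
    · ring
    · simp
    · simp only [Finset.mem_insert, Finset.mem_filter, Finset.mem_range]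
      omega

/-- structure of the polynomial `G` -/
theorem u3b_struct (n : ℕ) (G : ℝ[X]) (hG : G ≠ 0)
    (hs : ∀ k, G.coeff k ≠ 0 → k ≤ 3 * n + 2 ∧ k % 3 ≠ 1) (hd : (X + 1) ^ (2 * n + 1) ∣ G) :
    G.coeff 0 ≠ 0 ∧ G.natDegree = 3 * n + 2 ∧ ∃ P : ℝ[X], G = (X + 1) ^ (2 * n + 1) * P ∧
      P ≠ 0 ∧ P.natDegree = n + 1 ∧ ∀ x : ℝ, P.eval x = 0 → 0 < x := by
  classical
  obtain ⟨P, hP⟩ := hd
  have hP0 : P ≠ 0 := by
    rintro rfl
    exact hG (by rw [hP, mul_zero])
  have hsub : G.support ⊆ (Finset.range (3 * n + 3)).filter (fun k => k % 3 ≠ 1) := by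
    intro k hk
    have := hs k (mem_support_iff.mp hk)
    simp only [Finset.mem_filter, Finset.mem_range]
    omega
  have hcard := Finset.card_le_card hsub
  rw [u3b_card_exp] at hcard
  have hneg := u3b_negroots G hG
  have hr1 : ((X + 1 : ℝ[X]) ^ (2 * n + 1)).roots = Multiset.replicate (2 * n + 1) (-1) := by
    have : (X + 1 : ℝ[X]) = X - C (-1) := by simp
    rw [this, roots_pow, roots_X_sub_C, Multiset.nsmul_singleton]
  have hr : G.roots = Multiset.replicate (2 * n + 1) (-1) + P.roots := by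
    rw [hP, roots_mul (by rw [← hP]; exact hG), hr1]
  have hcnt : G.roots.countP (· < 0) = 2 * n + 1 + P.roots.countP (· < 0) := by
    rw [hr, Multiset.countP_add]
    congr 1
    rw [Multiset.countP_eq_card_filter, Multiset.filter_eq_self.mpr, Multiset.card_replicate]
    intro a ha
    rw [Multiset.eq_of_mem_replicate ha]
    norm_num
  have hz : P.roots.countP (· < 0) = 0 := by omega
  have hcard2 : G.support.card = 2 * n + 2 := by omega
  have heq : G.support = (Finset.range (3 * n + 3)).filter (fun k => k % 3 ≠ 1) :=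
    Finset.eq_of_subset_of_card_le hsub (by rw [u3b_card_exp, hcard2])
  have hc0 : G.coeff 0 ≠ 0 := by
    rw [← mem_support_iff, heq]
    simp
  have hctop : G.coeff (3 * n + 2) ≠ 0 := by
    rw [← mem_support_iff, heq]
    simp only [Finset.mem_filter, Finset.mem_range]
    omega
  have hdeg : G.natDegree = 3 * n + 2 := by
    apply le_antisymm
    · rw [natDegree_le_iff_coeff_eq_zero]
      intro k hk
      by_contra h
      have := (hs k h).1
      omega
    · exact le_natDegree_of_ne_zero hctop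
  refine ⟨hc0, hdeg, P, hP, hP0, ?_, ?_⟩
  · have h1 : ((X + 1 : ℝ[X]) ^ (2 * n + 1)).natDegree = 2 * n + 1 := by
      have : (X + 1 : ℝ[X]) = X + C 1 := by simp
      rw [this, natDegree_pow, natDegree_X_add_C, mul_one]
    have h2 := natDegree_mul (p := (X + 1 : ℝ[X]) ^ (2 * n + 1)) (q := P)
      (fun h => hG (by rw [hP, h, zero_mul])) hP0
    rw [← hP, hdeg, h1] at h2
    omega
  · intro x hx
    by_contra hx0
    rcases lt_or_eq_of_le (not_lt.mp hx0) with h | h
    · have hm : x ∈ P.roots := (mem_roots hP0).mpr hx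
      have : 0 < P.roots.countP (· < 0) := Multiset.countP_pos.mpr ⟨x, hm, h⟩
      omega
    · subst h
      apply hc0
      rw [coeff_zero_eq_eval_zero, hP, eval_mul, hx, mul_zero]


theorem u3b_polybd (m : ℕ) (Q : ℂ[X]) (hQ : Q.natDegree ≤ 2 * m) (z : ℂ) :
    ‖Q.eval z‖ ≤ (∑ k ∈ Finset.range (2 * m + 1), ‖Q.coeff k‖) * (1 + ‖z‖ ^ 2) ^ m := by
  rw [eval_eq_sum_range' (n := 2 * m + 1) (by omega), Finset.sum_mul]
  refine (norm_sum_le _ _).trans (Finset.sum_le_sum fun k hk => ?_)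
  rw [norm_mul, norm_pow]
  refine mul_le_mul_of_nonneg_left ?_ (norm_nonneg _)
  have hk' : k ≤ 2 * m := by
    have := Finset.mem_range.mp hk
    omega
  have h0 := norm_nonneg z
  have h1 : ‖z‖ ^ k ≤ (max 1 ‖z‖) ^ (2 * m) :=
    (pow_le_pow_left₀ h0 (le_max_right 1 ‖z‖) k).trans
      (pow_le_pow_right₀ (le_max_left 1 ‖z‖) hk')
  refine h1.trans ?_
  rw [pow_mul]
  refine pow_le_pow_left₀ (by positivity) ?_ m
  rcases max_cases 1 ‖z‖ with h | h
  · rw [h.1]; nlinarith
  · rw [h.1]; nlinarith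

theorem u3b_den (z : ℂ) (hz : z.re ≤ -‖z‖ / 2) : (1 + ‖z‖ ^ 2) / 2 ≤ ‖1 - z + z ^ 2‖ := by
  have h0 := norm_nonneg z
  have h1 : ‖z‖ ^ 2 = z.re ^ 2 + z.im ^ 2 := by
    rw [← Complex.normSq_eq_norm_sq, Complex.normSq_apply]; ring
  have h2 : ‖1 - z + z ^ 2‖ ^ 2 = (‖z‖ ^ 2) ^ 2 - ‖z‖ ^ 2 + 1 + 4 * z.re ^ 2
      - 2 * z.re * (1 + ‖z‖ ^ 2) := by
    rw [h1, ← Complex.normSq_eq_norm_sq, Complex.normSq_apply]
    have e1 : (1 - z + z ^ 2).re = 1 - z.re + (z.re ^ 2 - z.im ^ 2) := by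
      simp [pow_two]
    have e2 : (1 - z + z ^ 2).im = - z.im + 2 * z.re * z.im := by
      simp [pow_two]; ring
    rw [e1, e2]; ring
  have h3 : ‖z‖ ^ 2 ≤ 4 * z.re ^ 2 := by nlinarith
  have h4 : 0 ≤ - z.re * (1 + ‖z‖ ^ 2) := mul_nonneg (by linarith) (by positivity)
  have h5 : ((1 + ‖z‖ ^ 2) / 2) ^ 2 ≤ ‖1 - z + z ^ 2‖ ^ 2 := by
    rw [h2]
    nlinarith [sq_nonneg (1 - ‖z‖ ^ 2), sq_nonneg (‖z‖ ^ 2)]
  exact (pow_le_pow_iff_left₀ (by positivity) (norm_nonneg _) (by norm_num)).mp h5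

noncomputable def u3b_f (m : ℕ) (Q : ℂ[X]) (z : ℂ) : ℂ := Q.eval z / (1 - z + z ^ 2) ^ (m + 1)

theorem u3b_bound (m : ℕ) (Q : ℂ[X]) (hQ : Q.natDegree ≤ 2 * m) (z : ℂ)
    (hz : z.re ≤ -‖z‖ / 2) :
    DifferentiableAt ℂ (u3b_f m Q) z ∧
    ‖u3b_f m Q z‖ ≤ ((∑ k ∈ Finset.range (2 * m + 1), ‖Q.coeff k‖) * 2 ^ (m + 1))
      / (1 + ‖z‖ ^ 2) := by
  have h1 := u3b_den z hz
  have h2 : 0 < ‖1 - z + z ^ 2‖ := lt_of_lt_of_le (by positivity) h1
  have h3 : (1 - z + z ^ 2) ≠ 0 := norm_pos_iff.mp h2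
  constructor
  · unfold u3b_f
    refine DifferentiableAt.div Q.differentiableAt ?_ (pow_ne_zero _ h3)
    fun_prop
  · unfold u3b_f
    rw [norm_div, norm_pow]
    have h4 := u3b_polybd m Q hQ z
    have h5 : ((1 + ‖z‖ ^ 2) / 2) ^ (m + 1) ≤ ‖1 - z + z ^ 2‖ ^ (m + 1) :=
      pow_le_pow_left₀ (by positivity) h1 _
    have hS : 0 ≤ ∑ k ∈ Finset.range (2 * m + 1), ‖Q.coeff k‖ :=
      Finset.sum_nonneg fun _ _ => norm_nonneg _
    calc ‖Q.eval z‖ / ‖1 - z + z ^ 2‖ ^ (m + 1)
        ≤ ((∑ k ∈ Finset.range (2 * m + 1), ‖Q.coeff k‖) * (1 + ‖z‖ ^ 2) ^ m)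
          / ((1 + ‖z‖ ^ 2) / 2) ^ (m + 1) :=
          div_le_div₀ (by positivity) h4 (by positivity) h5
      _ = _ := by
          have : (1 + ‖z‖ ^ 2) ≠ 0 := by positivity
          rw [div_pow, pow_succ (1 + ‖z‖ ^ 2) m]
          field_simp

theorem u3b_intble (g : ℝ → ℂ) (K : ℝ) (hc : ∀ r, 0 < r → ContinuousAt g r)
    (hb : ∀ r, 0 < r → ‖g r‖ ≤ K / (1 + r ^ 2)) : IntegrableOn g (Set.Ioi 0) := by
  have h1 : IntegrableOn (fun r : ℝ => K * (1 + r ^ 2)⁻¹) (Set.Ioi 0) :=
    (integrable_inv_one_add_sq.const_mul K).integrableOn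
  refine Integrable.mono' h1 ?_ ?_
  · refine ContinuousOn.aestronglyMeasurable (fun r hr => (hc r hr).continuousWithinAt)
      measurableSet_Ioi
  · refine (ae_restrict_iff' measurableSet_Ioi).mpr (Filter.Eventually.of_forall fun r hr => ?_)
    have := hb r hr
    rwa [div_eq_mul_inv] at this

theorem u3b_om_re : om.re = -1 / 2 := rfl
theorem u3b_om_im : om.im = Real.sqrt 3 / 2 := rfl

theorem u3b_om_norm : ‖om‖ = 1 := by
  have h : ‖om‖ ^ 2 = 1 := by
    rw [← Complex.normSq_eq_norm_sq, Complex.normSq_apply, u3b_om_re, u3b_om_im]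
    have := Real.mul_self_sqrt (show (0 : ℝ) ≤ 3 by norm_num)
    nlinarith
  have h2 := norm_nonneg om
  nlinarith

theorem u3b_om_sq : om ^ 2 = -1 - om := by
  have h3 := Real.mul_self_sqrt (show (0 : ℝ) ≤ 3 by norm_num)
  apply Complex.ext
  · simp only [pow_two, Complex.mul_re, Complex.sub_re, Complex.neg_re, Complex.one_re, u3b_om_re,
      u3b_om_im]
    nlinarith
  · simp only [pow_two, Complex.mul_im, Complex.sub_im, Complex.neg_im, Complex.one_im, u3b_om_re,
      u3b_om_im]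
    ring

theorem u3b_om_cube : om ^ 3 = 1 := by
  rw [pow_succ, u3b_om_sq]
  have := u3b_om_sq
  linear_combination -this

theorem u3b_om_sq_re : (om ^ 2).re = -1 / 2 := by
  rw [u3b_om_sq]
  simp only [Complex.sub_re, Complex.neg_re, Complex.one_re, u3b_om_re]
  norm_num

theorem u3b_re (G : ℝ[X]) (hG : ∀ k, k % 3 = 1 → G.coeff k = 0) (r : ℝ) :
    (om ^ 2 * (G.map (algebraMap ℝ ℂ)).eval (r * om)).re = -(1 / 2) * G.eval r := by
  rw [eval_eq_sum_range, eval_eq_sum_range, natDegree_map, Finset.mul_sum, Complex.re_sum,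
    Finset.mul_sum]
  refine Finset.sum_congr rfl fun k _ => ?_
  rw [coeff_map]
  have h1 : om ^ 2 * ((algebraMap ℝ ℂ) (G.coeff k) * (r * om) ^ k)
      = ((G.coeff k * r ^ k : ℝ) : ℂ) * om ^ (k + 2) := by
    rw [mul_pow, pow_add]
    push_cast
    simp only [Complex.coe_algebraMap]
    ring
  rw [h1, Complex.re_ofReal_mul]
  have h3 : k % 3 = 0 ∨ k % 3 = 1 ∨ k % 3 = 2 := by omega
  rcases h3 with h | h | h
  · obtain ⟨j, hj⟩ : ∃ j, k = 3 * j := ⟨k / 3, by omega⟩
    have : om ^ (k + 2) = om ^ 2 := by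
      rw [hj, pow_add, pow_mul, u3b_om_cube, one_pow, one_mul]
    rw [this, u3b_om_sq_re]
    ring
  · rw [hG k h]; ring
  · obtain ⟨j, hj⟩ : ∃ j, k = 3 * j + 2 := ⟨k / 3, by omega⟩
    have : om ^ (k + 2) = om := by
      rw [hj, show 3 * j + 2 + 2 = 3 * (j + 1) + 1 by ring, pow_add, pow_mul, u3b_om_cube, one_pow,
        one_mul, pow_one]
    rw [this, u3b_om_re]
    ring

theorem u3b_rot (m : ℕ) (Q : ℂ[X]) (hQ : Q.natDegree ≤ 2 * m) :
    IntegrableOn (fun r : ℝ => u3b_f m Q (-(r : ℂ))) (Set.Ioi 0) ∧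
    ∫ r in Set.Ioi (0 : ℝ), (u3b_f m Q (r * om) * om).re
      = -∫ r in Set.Ioi (0 : ℝ), (u3b_f m Q (-(r : ℂ))).re := by
  set K := ((∑ k ∈ Finset.range (2 * m + 1), ‖Q.coeff k‖) * 2 ^ (m + 1)) with hK
  have hf : ∀ r θ : ℝ, 0 < r → 2 * Real.pi / 3 ≤ θ → θ ≤ Real.pi →
      DifferentiableAt ℂ (u3b_f m Q) (r * Complex.exp (θ * Complex.I)) ∧
      ‖u3b_f m Q (r * Complex.exp (θ * Complex.I))‖ ≤ K / (1 + r ^ 2) := by
    intro r θ hr h1 h2
    have hn : ‖(r : ℂ) * Complex.exp (θ * Complex.I)‖ = r := by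
      rw [norm_mul, Complex.norm_exp_ofReal_mul_I, mul_one, Complex.norm_real, Real.norm_eq_abs,
        abs_of_pos hr]
    have hre : ((r : ℂ) * Complex.exp (θ * Complex.I)).re = r * Real.cos θ := by
      rw [Complex.re_ofReal_mul, Complex.exp_ofReal_mul_I_re]
    have hcos : Real.cos θ ≤ -1 / 2 := by
      have h3 : Real.cos (2 * Real.pi / 3) = -1 / 2 := by
        rw [show 2 * Real.pi / 3 = Real.pi - Real.pi / 3 by ring, Real.cos_pi_sub,
          Real.cos_pi_div_three]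
        norm_num
      rw [← h3]
      exact Real.cos_le_cos_of_nonneg_of_le_pi (by positivity) h2 h1
    have h4 := u3b_bound m Q hQ ((r : ℂ) * Complex.exp (θ * Complex.I))
      (by rw [hn, hre]; nlinarith)
    rw [hn] at h4
    exact h4
  have hneg : ∀ r : ℝ, 0 < r → DifferentiableAt ℂ (u3b_f m Q) (-(r : ℂ)) ∧
      ‖u3b_f m Q (-(r : ℂ))‖ ≤ K / (1 + r ^ 2) := by
    intro r hr
    have hn : ‖-(r : ℂ)‖ = r := by
      rw [norm_neg, Complex.norm_real, Real.norm_eq_abs, abs_of_pos hr]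
    have h4 := u3b_bound m Q hQ (-(r : ℂ)) (by rw [hn, Complex.neg_re, Complex.ofReal_re]; linarith)
    rw [hn] at h4
    exact h4
  have homr : ∀ r : ℝ, 0 < r → DifferentiableAt ℂ (u3b_f m Q) ((r : ℂ) * om) ∧
      ‖u3b_f m Q ((r : ℂ) * om)‖ ≤ K / (1 + r ^ 2) := by
    intro r hr
    have hn : ‖(r : ℂ) * om‖ = r := by
      rw [norm_mul, u3b_om_norm, mul_one, Complex.norm_real, Real.norm_eq_abs, abs_of_pos hr]
    have h4 := u3b_bound m Q hQ ((r : ℂ) * om)
      (by rw [hn, Complex.re_ofReal_mul, u3b_om_re]; linarith)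
    rw [hn] at h4
    exact h4
  have hI1 : IntegrableOn (fun r : ℝ => u3b_f m Q (-(r : ℂ))) (Set.Ioi 0) := by
    refine u3b_intble _ K (fun r hr => ?_) (fun r hr => (hneg r hr).2)
    exact ContinuousAt.comp (f := fun r : ℝ => -(r : ℂ)) (g := u3b_f m Q)
      (hneg r hr).1.continuousAt (by fun_prop)
  have hI2 : IntegrableOn (fun r : ℝ => u3b_f m Q ((r : ℂ) * om) * om) (Set.Ioi 0) := by
    refine u3b_intble _ K (fun r hr => ?_) (fun r hr => ?_)
    · refine ContinuousAt.mul ?_ continuousAt_const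
      exact ContinuousAt.comp (f := fun r : ℝ => (r : ℂ) * om) (g := u3b_f m Q)
        (homr r hr).1.continuousAt (by fun_prop)
    · rw [norm_mul, u3b_om_norm, mul_one]
      exact (homr r hr).2
  refine ⟨hI1, ?_⟩
  have h1 := rot_int (u3b_f m Q) K hf
  have h2 := integral_re hI2
  have h3 := integral_re hI1
  simp only [RCLike.re_to_complex] at h2 h3
  rw [h2, h3, h1, Complex.neg_re]


theorem u3b_sign (q : ℝ[X]) (hq : q ≠ 0) (hr : q.roots = 0) (x : ℝ) :
    0 < q.eval 0 * q.eval x := by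
  have hne : ∀ y, q.eval y ≠ 0 := by
    intro y hy
    have : y ∈ q.roots := (mem_roots hq).mpr hy
    rw [hr] at this
    exact absurd this (Multiset.notMem_zero y)
  by_contra h
  have hlt : q.eval 0 * q.eval x < 0 :=
    lt_of_le_of_ne (not_lt.mp h) (mul_ne_zero (hne 0) (hne x))
  have hmem : (0 : ℝ) ∈ Set.range (fun y => q.eval y) := by
    rcases mul_neg_iff.mp hlt with h | h
    · exact mem_range_of_exists_le_of_exists_ge q.continuous ⟨x, h.2.le⟩ ⟨0, h.1.le⟩
    · exact mem_range_of_exists_le_of_exists_ge q.continuous ⟨0, h.1.le⟩ ⟨x, h.2.le⟩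
  obtain ⟨y, hy⟩ := hmem
  exact hne y hy

/-- the auxiliary product -/
noncomputable def u3b_V (s : Multiset ℝ) : ℝ[X] := (s.map fun a => C (a ^ 3) - X).prod

theorem u3b_V_deg (s : Multiset ℝ) : (u3b_V s).natDegree ≤ Multiset.card s := by
  induction s using Multiset.induction_on with
  | empty => simp [u3b_V]
  | cons a s ih =>
    have h : u3b_V (a ::ₘ s) = (C (a ^ 3) - X) * u3b_V s := by simp [u3b_V]
    rw [h, Multiset.card_cons]
    have h1 : (C (a ^ 3) - X : ℝ[X]).natDegree ≤ 1 := by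
      refine (natDegree_sub_le _ _).trans ?_
      simp
    have := natDegree_mul_le (p := (C (a ^ 3) - X : ℝ[X])) (q := u3b_V s)
    omega

theorem u3b_A (s : Multiset ℝ) (hs : ∀ a ∈ s, 0 < a) (x : ℝ) (hx : 0 < x) :
    0 ≤ (u3b_V s).eval (x ^ 3) * (s.map fun a => X - C a).prod.eval x
      * (s.map fun a => X - C a).prod.eval 0 := by
  induction s using Multiset.induction_on with
  | empty => simp [u3b_V]
  | cons a s ih =>
    have h : u3b_V (a ::ₘ s) = (C (a ^ 3) - X) * u3b_V s := by simp [u3b_V]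
    have ha : 0 < a := hs a (Multiset.mem_cons_self a s)
    have h1 := ih fun b hb => hs b (Multiset.mem_cons_of_mem hb)
    rw [h, Multiset.map_cons, Multiset.prod_cons]
    simp only [eval_mul, eval_sub, eval_C, eval_X]
    have h2 : 0 ≤ (a ^ 3 - x ^ 3) * (x - a) * (0 - a) := by
      have : (a ^ 3 - x ^ 3) * (x - a) * (0 - a) = a * (a - x) ^ 2 * (a ^ 2 + a * x + x ^ 2) := by
        ring
      rw [this]
      positivity
    have h3 := mul_nonneg h2 h1
    have e : (a ^ 3 - x ^ 3) * (u3b_V s).eval (x ^ 3) *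
        ((x - a) * (s.map fun a => X - C a).prod.eval x) *
        ((0 - a) * (s.map fun a => X - C a).prod.eval 0)
        = (a ^ 3 - x ^ 3) * (x - a) * (0 - a) * ((u3b_V s).eval (x ^ 3) *
          (s.map fun a => X - C a).prod.eval x * (s.map fun a => X - C a).prod.eval 0) := by ring
    rw [e]
    exact h3

theorem u3b_B (s : Multiset ℝ) (hs : ∀ a ∈ s, 0 < a) (x : ℝ) (hx : 0 < x) :
    0 < (u3b_V s).eval ((-x) ^ 3) * (s.map fun a => X - C a).prod.eval (-x)
      * (s.map fun a => X - C a).prod.eval 0 := by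
  induction s using Multiset.induction_on with
  | empty => simp [u3b_V]
  | cons a s ih =>
    have h : u3b_V (a ::ₘ s) = (C (a ^ 3) - X) * u3b_V s := by simp [u3b_V]
    have ha : 0 < a := hs a (Multiset.mem_cons_self a s)
    have h1 := ih fun b hb => hs b (Multiset.mem_cons_of_mem hb)
    rw [h, Multiset.map_cons, Multiset.prod_cons]
    simp only [eval_mul, eval_sub, eval_C, eval_X]
    have h2 : 0 < (a ^ 3 - (-x) ^ 3) * (-x - a) * (0 - a) := by
      have : (a ^ 3 - (-x) ^ 3) * (-x - a) * (0 - a) = (a ^ 3 + x ^ 3) * (x + a) * a := by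
        ring
      rw [this]
      positivity
    have h3 := mul_pos h2 h1
    have e : (a ^ 3 - (-x) ^ 3) * (u3b_V s).eval ((-x) ^ 3) *
        ((-x - a) * (s.map fun a => X - C a).prod.eval (-x)) *
        ((0 - a) * (s.map fun a => X - C a).prod.eval 0)
        = (a ^ 3 - (-x) ^ 3) * (-x - a) * (0 - a) * ((u3b_V s).eval ((-x) ^ 3) *
          (s.map fun a => X - C a).prod.eval (-x) * (s.map fun a => X - C a).prod.eval 0) := by
      ring
    rw [e]
    exact h3

theorem u3b_evalreal (Q : ℝ[X]) (x : ℝ) :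
    (Q.map (algebraMap ℝ ℂ)).eval (x : ℂ) = ((Q.eval x : ℝ) : ℂ) := by
  have := Polynomial.eval_map_apply (f := algebraMap ℝ ℂ) (p := Q) x
  simpa using this

theorem u3b_contra (n : ℕ) (G P : ℝ[X]) (hGc : ∀ k, k % 3 = 1 → G.coeff k = 0)
    (hGP : G = (X + 1) ^ (2 * n + 1) * P) (hP0 : P ≠ 0) (hdeg : P.natDegree = n + 1)
    (hpos : ∀ x : ℝ, P.eval x = 0 → 0 < x) (hcard : Multiset.card P.roots + 1 ≤ n) : False := by
  obtain ⟨q, hq1, hq2, hq3⟩ := exists_prod_multiset_X_sub_C_mul P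
  have hq0 : q ≠ 0 := by
    rintro rfl
    exact hP0 (by rw [← hq1, mul_zero])
  have hs : ∀ a ∈ P.roots, 0 < a := fun a ha => hpos a ((mem_roots hP0).mp ha)
  set s := P.roots with hsdef
  set V := u3b_V s with hV
  set Q : ℝ[X] := X * V.comp (X ^ 3) * P with hQ
  set Qc := Q.map (algebraMap ℝ ℂ) with hQc
  have hQdeg : Qc.natDegree ≤ 2 * (2 * n) := by
    rw [hQc, natDegree_map]
    have h1 := natDegree_mul_le (p := X * V.comp (X ^ 3)) (q := P)
    have h2 := natDegree_mul_le (p := (X : ℝ[X])) (q := V.comp (X ^ 3))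
    have h3 : (V.comp (X ^ 3)).natDegree = V.natDegree * 3 := by
      rw [natDegree_comp, natDegree_X_pow]
    have h4 := u3b_V_deg s
    have h5 : (X : ℝ[X]).natDegree = 1 := natDegree_X
    rw [← hQ] at h1
    rw [← hV] at h4
    omega
  obtain ⟨hI1, hrot⟩ := u3b_rot (2 * n) Qc hQdeg
  -- values of P
  have hPx : ∀ x, P.eval x = (s.map fun a => X - C a).prod.eval x * q.eval x := by
    intro x
    conv_lhs => rw [← hq1]
    rw [eval_mul]
  -- value on the negative axis
  have hval1 : ∀ r : ℝ, (u3b_f (2 * n) Qc (-(r : ℂ))).re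
      = -r * V.eval ((-r) ^ 3) * P.eval (-r) / (1 + r + r ^ 2) ^ (2 * n + 1) := by
    intro r
    have h1 : u3b_f (2 * n) Qc (-(r : ℂ))
        = ((Q.eval (-r) / (1 + r + r ^ 2) ^ (2 * n + 1) : ℝ) : ℂ) := by
      unfold u3b_f
      have h2 : (-(r : ℂ)) = ((-r : ℝ) : ℂ) := by push_cast; ring
      rw [h2, hQc, u3b_evalreal]
      push_cast
      congr 2
      ring
    rw [h1, Complex.ofReal_re, hQ]
    simp only [eval_mul, eval_X, eval_comp, eval_pow]
  have hneg : ∀ r : ℝ, 0 < r → P.eval 0 * (u3b_f (2 * n) Qc (-(r : ℂ))).re < 0 := by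
    intro r hr
    rw [hval1, hPx, hPx]
    have h1 := u3b_B s hs r hr
    have h2 := u3b_sign q hq0 hq3 (-r)
    have h3 := mul_pos (mul_pos h1 h2) hr
    have h4 : 0 < (1 + r + r ^ 2) ^ (2 * n + 1) := by positivity
    have h5 := div_pos h3 h4
    rw [← hV] at h5
    have e : (s.map fun a => X - C a).prod.eval 0 * q.eval 0 *
        (-r * V.eval ((-r) ^ 3) * ((s.map fun a => X - C a).prod.eval (-r) * q.eval (-r)) /
          (1 + r + r ^ 2) ^ (2 * n + 1))
        = - (V.eval ((-r) ^ 3) * (s.map fun a => X - C a).prod.eval (-r)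
          * (s.map fun a => X - C a).prod.eval 0 * (q.eval 0 * q.eval (-r)) * r /
          (1 + r + r ^ 2) ^ (2 * n + 1)) := by ring
    rw [e]
    linarith
  -- value on the ray
  have hval2 : ∀ r : ℝ, 0 < r → (u3b_f (2 * n) Qc ((r : ℂ) * om) * om).re
      = -(1 / 2) * (r * V.eval (r ^ 3) * P.eval r * (1 + r) ^ (2 * n + 1))
        / (1 + r ^ 3) ^ (2 * n + 1) := by
    intro r hr
    have hw3 : ((r : ℂ) * om) ^ 3 = ((r ^ 3 : ℝ) : ℂ) := by
      rw [mul_pow, u3b_om_cube]; push_cast; ring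
    have hfac : (1 + (r : ℂ) * om) * (1 - (r : ℂ) * om + ((r : ℂ) * om) ^ 2)
        = ((1 + r ^ 3 : ℝ) : ℂ) := by
      have : (1 + (r : ℂ) * om) * (1 - (r : ℂ) * om + ((r : ℂ) * om) ^ 2)
        = 1 + ((r : ℂ) * om) ^ 3 := by ring
      rw [this, hw3]; push_cast; ring
    have hne : ((1 + r ^ 3 : ℝ) : ℂ) ≠ 0 := by
      rw [Complex.ofReal_ne_zero]; positivity
    have hne1 : (1 + (r : ℂ) * om) ≠ 0 := fun h => hne (by rw [← hfac, h, zero_mul])
    have hne2 : (1 - (r : ℂ) * om + ((r : ℂ) * om) ^ 2) ≠ 0 :=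
      fun h => hne (by rw [← hfac, h, mul_zero])
    have hG1 : (G.map (algebraMap ℝ ℂ)).eval ((r : ℂ) * om)
        = (1 + (r : ℂ) * om) ^ (2 * n + 1) * (P.map (algebraMap ℝ ℂ)).eval ((r : ℂ) * om) := by
      rw [hGP]
      simp only [Polynomial.map_mul, Polynomial.map_pow, Polynomial.map_add, map_X,
        Polynomial.map_one, eval_mul, eval_pow, eval_add, eval_X, eval_one]
      congr 2
      ring
    have hQ1 : Qc.eval ((r : ℂ) * om) = ((r : ℂ) * om) * ((V.eval (r ^ 3) : ℝ) : ℂ)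
        * (P.map (algebraMap ℝ ℂ)).eval ((r : ℂ) * om) := by
      rw [hQc, hQ]
      simp only [Polynomial.map_mul, Polynomial.map_pow, map_X, eval_mul, eval_X,
        Polynomial.map_comp, eval_comp, eval_pow]
      rw [hw3, u3b_evalreal]
    have h1 : u3b_f (2 * n) Qc ((r : ℂ) * om) * om
        = ((r * V.eval (r ^ 3) / (1 + r ^ 3) ^ (2 * n + 1) : ℝ) : ℂ)
          * (om ^ 2 * (G.map (algebraMap ℝ ℂ)).eval ((r : ℂ) * om)) := by
      unfold u3b_f
      rw [hQ1, hG1]
      have h2 : (((1 + r ^ 3 : ℝ) : ℂ)) ^ (2 * n + 1) = (1 + (r : ℂ) * om) ^ (2 * n + 1)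
          * (1 - (r : ℂ) * om + ((r : ℂ) * om) ^ 2) ^ (2 * n + 1) := by
        rw [← hfac, mul_pow]
      rw [Complex.ofReal_div, Complex.ofReal_pow, h2, Complex.ofReal_mul]
      field_simp
    rw [h1, Complex.re_ofReal_mul, u3b_re G hGc r, hGP]
    simp only [eval_mul, eval_pow, eval_add, eval_X, eval_one]
    ring
  have hnonpos : ∀ r : ℝ, 0 < r → P.eval 0 * (u3b_f (2 * n) Qc ((r : ℂ) * om) * om).re ≤ 0 := by
    intro r hr
    rw [hval2 r hr, hPx, hPx]
    have h1 := u3b_A s hs r hr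
    have h2 := u3b_sign q hq0 hq3 r
    have h3 := mul_nonneg (mul_nonneg (mul_nonneg h1 h2.le) hr.le)
      (show 0 ≤ (1 + r) ^ (2 * n + 1) by positivity)
    have h4 : 0 < (1 + r ^ 3) ^ (2 * n + 1) := by positivity
    have h5 := div_nonneg h3 h4.le
    rw [← hV] at h5
    have e : (s.map fun a => X - C a).prod.eval 0 * q.eval 0 *
        (-(1 / 2) * (r * V.eval (r ^ 3) * ((s.map fun a => X - C a).prod.eval r * q.eval r)
          * (1 + r) ^ (2 * n + 1)) / (1 + r ^ 3) ^ (2 * n + 1))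
        = - (1 / 2) * (V.eval (r ^ 3) * (s.map fun a => X - C a).prod.eval r
          * (s.map fun a => X - C a).prod.eval 0 * (q.eval 0 * q.eval r) * r
          * (1 + r) ^ (2 * n + 1) / (1 + r ^ 3) ^ (2 * n + 1)) := by ring
    rw [e]
    linarith
  -- the integrals
  have hint1 : P.eval 0 * ∫ r in Set.Ioi (0 : ℝ), (u3b_f (2 * n) Qc ((r : ℂ) * om) * om).re ≤ 0 := by
    rw [← integral_const_mul]
    exact setIntegral_nonpos measurableSet_Ioi fun r hr => hnonpos r hr
  have hint2 : 0 < ∫ r in Set.Ioi (0 : ℝ), -(P.eval 0 * (u3b_f (2 * n) Qc (-(r : ℂ))).re) := by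
    rw [setIntegral_pos_iff_support_of_nonneg_ae]
    · have hsupp : (Function.support fun r : ℝ => -(P.eval 0 * (u3b_f (2 * n) Qc (-(r : ℂ))).re))
          ∩ Set.Ioi 0 = Set.Ioi 0 := by
        apply Set.inter_eq_right.mpr
        intro r hr
        have := hneg r hr
        simp only [Function.mem_support]
        intro h
        linarith
      rw [hsupp]
      simp
    · refine (ae_restrict_iff' measurableSet_Ioi).mpr (Filter.Eventually.of_forall fun r hr => ?_)
      have := hneg r hr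
      simp only [Pi.zero_apply]
      linarith
    · have := hI1.re
      simp only [RCLike.re_to_complex] at this
      exact (this.const_mul _).neg
  rw [integral_neg, integral_const_mul] at hint2
  rw [hrot] at hint1
  linarith

theorem G_roots (n : ℕ) (G : ℝ[X]) (hG : G ≠ 0)
    (hs : ∀ k, G.coeff k ≠ 0 → k ≤ 3 * n + 2 ∧ k % 3 ≠ 1) (hd : (X + 1) ^ (2 * n + 1) ∣ G) :
    G.coeff 0 ≠ 0 ∧ G.natDegree = 3 * n + 2 ∧
    ∀ z : ℂ, (G.map (algebraMap ℝ ℂ)).eval z = 0 → z = -1 ∨ ∃ r : ℝ, 0 < r ∧ z = r := by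
  obtain ⟨h0, hdeg, P, hGP, hP0, hPd, hpos⟩ := u3b_struct n G hG hs hd
  refine ⟨h0, hdeg, ?_⟩
  have hGc : ∀ k, k % 3 = 1 → G.coeff k = 0 := by
    intro k hk
    by_contra h
    exact (hs k h).2 hk
  have hcard : n ≤ Multiset.card P.roots := by
    by_contra h
    exact u3b_contra n G P hGc hGP hP0 hPd hpos (by omega)
  obtain ⟨q, hq1, hq2, hq3⟩ := exists_prod_multiset_X_sub_C_mul P
  have hq0 : q ≠ 0 := by
    rintro rfl
    exact hP0 (by rw [← hq1, mul_zero])
  have hqd : q.natDegree = 0 := by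
    by_contra h
    have h1 : q.natDegree = 1 := by omega
    have h2 : q.degree = 1 := by
      rw [degree_eq_natDegree hq0, h1]; rfl
    obtain ⟨x, hx⟩ := exists_root_of_degree_eq_one h2
    have : x ∈ q.roots := (mem_roots hq0).mpr hx
    rw [hq3] at this
    exact absurd this (Multiset.notMem_zero x)
  intro z hz
  rw [hGP] at hz
  simp only [Polynomial.map_mul, Polynomial.map_pow, Polynomial.map_add, map_X,
    Polynomial.map_one, eval_mul, eval_pow, eval_add, eval_X, eval_one] at hz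
  rcases mul_eq_zero.mp hz with h | h
  · left
    have := pow_eq_zero_iff (by omega : 2 * n + 1 ≠ 0) |>.mp h
    linear_combination this
  · right
    rw [← hq1, Polynomial.map_mul, eval_mul] at h
    rcases mul_eq_zero.mp h with h | h
    · rw [Polynomial.map_multiset_prod, Multiset.map_map, eval_multiset_prod, Multiset.map_map,
        Multiset.prod_eq_zero_iff, Multiset.mem_map] at h
      obtain ⟨a, ha, ha2⟩ := h
      refine ⟨a, hpos a ((mem_roots hP0).mp ha), ?_⟩
      simp only [Function.comp_apply, Polynomial.map_sub, map_X, map_C, eval_sub, eval_X,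
        eval_C] at ha2
      rw [Complex.coe_algebraMap] at ha2
      linear_combination ha2
    · exfalso
      rw [eq_C_of_natDegree_eq_zero hqd, map_C, eval_C] at h
      have h1 : q.coeff 0 = 0 := by simpa using h
      apply hq0
      rw [eq_C_of_natDegree_eq_zero hqd, h1, C_0]

end H906K
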