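import Pool.Agent.H906R3.K6.Defs2

/-! Module U4: factorisation of the quadratic form. -/

namespace H906K
open Pool.Agent.H974R3 Polynomial MeasureTheory Filter Topology

private theorem u4_om : om ^ 2 + om + 1 = 0 := by
  have h3 : Real.sqrt 3 * Real.sqrt 3 = 3 := Real.mul_self_sqrt (by norm_num)
  apply Complex.ext
  · simp [om, pow_two]
    nlinarith
  · simp [om, pow_two]
    ring

private theorem u4_om3 : om ^ 3 = 1 := by
  have h := u4_om
  linear_combination (om - 1) * h

private theorem u4_split (P : ℂ[X]) :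
    P = expand ℂ 3 (contract 3 P) + X * expand ℂ 3 (contract 3 P.divX)
      + X ^ 2 * expand ℂ 3 (contract 3 P.divX.divX) := by
  ext n
  rw [coeff_add, coeff_add]
  obtain ⟨k, hk | hk | hk⟩ : ∃ k, n = 3 * k ∨ n = 3 * k + 1 ∨ n = 3 * k + 2 :=
    ⟨n / 3, by omega⟩
  · subst hk
    have e1 : (expand ℂ 3 (contract 3 P)).coeff (3 * k) = P.coeff (3 * k) := by
      rw [coeff_expand (by norm_num), if_pos (Dvd.intro k rfl), coeff_contract (by norm_num),
        Nat.mul_div_cancel_left _ (by norm_num), mul_comm]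
    have e2 : (X * expand ℂ 3 (contract 3 P.divX)).coeff (3 * k) = 0 := by
      rcases Nat.eq_zero_or_pos k with h | h
      · subst h; simp
      · obtain ⟨j, rfl⟩ : ∃ j, k = j + 1 := ⟨k - 1, by omega⟩
        rw [show 3 * (j + 1) = (3 * j + 2) + 1 by ring, coeff_X_mul,
          coeff_expand (by norm_num), if_neg (by omega)]
    have e3 : (X ^ 2 * expand ℂ 3 (contract 3 P.divX.divX)).coeff (3 * k) = 0 := by
      rw [coeff_X_pow_mul']
      split_ifs with h
      · rw [coeff_expand (by norm_num), if_neg (by omega)]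
      · rfl
    rw [e1, e2, e3]; ring
  · subst hk
    have e1 : (expand ℂ 3 (contract 3 P)).coeff (3 * k + 1) = 0 := by
      rw [coeff_expand (by norm_num), if_neg (by omega)]
    have e2 : (X * expand ℂ 3 (contract 3 P.divX)).coeff (3 * k + 1) = P.coeff (3 * k + 1) := by
      rw [coeff_X_mul, coeff_expand (by norm_num), if_pos (Dvd.intro k rfl),
        coeff_contract (by norm_num), Nat.mul_div_cancel_left _ (by norm_num), coeff_divX,
        mul_comm]
    have e3 : (X ^ 2 * expand ℂ 3 (contract 3 P.divX.divX)).coeff (3 * k + 1) = 0 := by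
      rw [coeff_X_pow_mul']
      split_ifs with h
      · rw [coeff_expand (by norm_num), if_neg (by omega)]
      · rfl
    rw [e1, e2, e3]; ring
  · subst hk
    have e1 : (expand ℂ 3 (contract 3 P)).coeff (3 * k + 2) = 0 := by
      rw [coeff_expand (by norm_num), if_neg (by omega)]
    have e2 : (X * expand ℂ 3 (contract 3 P.divX)).coeff (3 * k + 2) = 0 := by
      rw [show 3 * k + 2 = (3 * k + 1) + 1 by ring, coeff_X_mul,
        coeff_expand (by norm_num), if_neg (by omega)]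
    have e3 : (X ^ 2 * expand ℂ 3 (contract 3 P.divX.divX)).coeff (3 * k + 2)
        = P.coeff (3 * k + 2) := by
      rw [coeff_X_pow_mul', if_pos (by omega), Nat.add_sub_cancel,
        coeff_expand (by norm_num), if_pos (Dvd.intro k rfl),
        coeff_contract (by norm_num), Nat.mul_div_cancel_left _ (by norm_num), coeff_divX,
        coeff_divX, mul_comm]
    rw [e1, e2, e3]; ring

theorem factor (N : ℕ) (hN : 1 ≤ N) (t1 : ℂ[X]) (deg1 : t1.natDegree ≤ N)
    (bot1 : t1.coeff 0 = -(Real.sqrt 3 : ℂ)) (top1 : t1.coeff N = (Real.sqrt 3 : ℂ))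
    (e2 : ∀ x : ℂ,
      t1.eval x * t1.eval (om * x) * (1 + om ^ 2 * x) ^ N
      + t1.eval (om * x) * t1.eval (om ^ 2 * x) * (1 + x) ^ N
      + t1.eval (om ^ 2 * x) * t1.eval x * (1 + om * x) ^ N
      = 9 * (1 + x ^ 3) ^ N) :
    ∃ u v g h : ℂ[X], IsCoprime u v ∧ g * u - X * h * v = (1 + X) ^ N ∧
      u.coeff 0 * g.coeff 0 = 1 ∧
      v ≠ 0 ∧ h ≠ 0 ∧ v.natDegree + h.natDegree = N - 1 ∧ u.natDegree ≤ v.natDegree ∧
      g.natDegree ≤ h.natDegree ∧
      ∀ x : ℂ, (t1.eval (om * x) * (1 + om ^ 2 * x) ^ N + t1.eval (om ^ 2 * x) * (1 + om * x) ^ N)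
          * (1 + x) ^ N
        = -2 * (Real.sqrt 3 : ℂ) * (u.eval (x ^ 3) + x * v.eval (x ^ 3))
            * (g.eval (x ^ 3) + x ^ 2 * h.eval (x ^ 3)) := by
  have hom := u4_om
  have hom3 := u4_om3
  set q := om with hq
  have hs3 : (Real.sqrt 3 : ℂ) ^ 2 = 3 := by
    rw [← Complex.ofReal_pow, Real.sq_sqrt (by norm_num)]; norm_num
  have hs0 : (Real.sqrt 3 : ℂ) ≠ 0 := by
    intro h; rw [h] at hs3; norm_num at hs3
  set w : ℂ := (Real.sqrt 3 : ℂ) with hw
  -- the polynomial `P`
  set P : ℂ[X] := -t1 * (1 + C q * X) ^ N * (1 + C (q ^ 2) * X) ^ N with hP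
  have hdl : ∀ a : ℂ, (1 + C a * X : ℂ[X]).natDegree ≤ 1 := by
    intro a
    refine (natDegree_add_le _ _).trans (max_le (by simp) ?_)
    exact (natDegree_C_mul_le a X).trans natDegree_X_le
  have hdlp : ∀ a : ℂ, ((1 + C a * X : ℂ[X]) ^ N).natDegree ≤ N := by
    intro a
    refine natDegree_pow_le.trans ?_
    calc N * (1 + C a * X : ℂ[X]).natDegree ≤ N * 1 := Nat.mul_le_mul_left _ (hdl a)
      _ = N := by ring
  have hPdeg : P.natDegree ≤ 3 * N := by
    refine natDegree_mul_le.trans ?_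
    have h1 : (-t1 * (1 + C q * X) ^ N).natDegree ≤ N + N := by
      refine natDegree_mul_le.trans ?_
      rw [natDegree_neg]
      exact Nat.add_le_add deg1 (hdlp q)
    have h2 := hdlp (q ^ 2)
    omega
  have hPeval : ∀ x : ℂ, P.eval x = -t1.eval x * (1 + q * x) ^ N * (1 + q ^ 2 * x) ^ N := by
    intro x; simp [hP]
  have hP0 : P.coeff 0 = w := by
    rw [coeff_zero_eq_eval_zero, hPeval, ← coeff_zero_eq_eval_zero, bot1]
    simp
  have hlc : ∀ a : ℂ, ((1 + C a * X : ℂ[X]) ^ N).coeff N = a ^ N := by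
    intro a
    have := coeff_pow_of_natDegree_le (m := N) (hdl a)
    rw [mul_one] at this
    rw [this]
    congr 1
    simp [coeff_one]
  have hPN : P.coeff (3 * N) = -w := by
    have h1 : (-t1 * (1 + C q * X) ^ N).coeff (N + N) = -w * q ^ N := by
      rw [coeff_mul_add_eq_of_natDegree_le (by rw [natDegree_neg]; exact deg1) (hdlp q), coeff_neg, top1,
        hlc]
    have h2 : P.coeff ((N + N) + N) = (-w * q ^ N) * (q ^ 2) ^ N := by
      rw [hP, coeff_mul_add_eq_of_natDegree_le _ (hdlp (q ^ 2)), h1, hlc]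
      refine natDegree_mul_le.trans ?_
      rw [natDegree_neg]
      exact Nat.add_le_add deg1 (hdlp q)
    rw [show 3 * N = (N + N) + N by ring, h2]
    have h3 : q ^ N * (q ^ 2) ^ N = 1 := by
      rw [← mul_pow, ← pow_succ', hom3, one_pow]
    linear_combination (-w) * h3
  -- decomposition modulo 3
  set A := contract 3 P with hA
  set B := contract 3 P.divX with hB
  set D := contract 3 P.divX.divX with hD
  have hsplit : P = expand ℂ 3 A + X * expand ℂ 3 B + X ^ 2 * expand ℂ 3 D := u4_split P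
  have hPABD : ∀ x : ℂ, P.eval x = A.eval (x ^ 3) + x * B.eval (x ^ 3) + x ^ 2 * D.eval (x ^ 3) := by
    intro x
    conv_lhs => rw [hsplit]
    simp [expand_eval]
  have hcA : ∀ k, A.coeff k = P.coeff (3 * k) := by
    intro k; rw [hA, coeff_contract (by norm_num), mul_comm]
  have hcB : ∀ k, B.coeff k = P.coeff (3 * k + 1) := by
    intro k; rw [hB, coeff_contract (by norm_num), coeff_divX, mul_comm]
  have hcD : ∀ k, D.coeff k = P.coeff (3 * k + 2) := by
    intro k; rw [hD, coeff_contract (by norm_num), coeff_divX, coeff_divX, mul_comm]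
  have hdA : A.natDegree ≤ N := by
    rw [natDegree_le_iff_coeff_eq_zero]
    intro k hk
    rw [hcA]
    exact coeff_eq_zero_of_natDegree_lt (by omega)
  have hdB : B.natDegree ≤ N - 1 := by
    rw [natDegree_le_iff_coeff_eq_zero]
    intro k hk
    rw [hcB]
    exact coeff_eq_zero_of_natDegree_lt (by omega)
  have hdD : D.natDegree ≤ N - 1 := by
    rw [natDegree_le_iff_coeff_eq_zero]
    intro k hk
    rw [hcD]
    exact coeff_eq_zero_of_natDegree_lt (by omega)
  -- values at the three points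
  have hq1 : ∀ x : ℂ, P.eval (q * x)
      = A.eval (x ^ 3) + q * x * B.eval (x ^ 3) + q ^ 2 * x ^ 2 * D.eval (x ^ 3) := by
    intro x
    rw [hPABD, mul_pow q x 3, hom3, one_mul]; ring
  have hq2 : ∀ x : ℂ, P.eval (q ^ 2 * x)
      = A.eval (x ^ 3) + q ^ 2 * x * B.eval (x ^ 3) + q * x ^ 2 * D.eval (x ^ 3) := by
    intro x
    rw [hPABD]
    have h1 : (q ^ 2 * x) ^ 3 = x ^ 3 := by
      rw [mul_pow, ← pow_mul, show 2 * 3 = 3 * 2 by norm_num, pow_mul, hom3]; ring
    rw [h1]
    linear_combination (q * x ^ 2 * D.eval (x ^ 3)) * hom3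
  have hq1' : ∀ x : ℂ, P.eval (q * x) = -t1.eval (q * x) * (1 + q ^ 2 * x) ^ N * (1 + x) ^ N := by
    intro x
    rw [hPeval]
    have h1 : q * (q * x) = q ^ 2 * x := by ring
    have h2 : q ^ 2 * (q * x) = x := by linear_combination x * hom3
    rw [h1, h2]
  have hq2' : ∀ x : ℂ, P.eval (q ^ 2 * x)
      = -t1.eval (q ^ 2 * x) * (1 + x) ^ N * (1 + q * x) ^ N := by
    intro x
    rw [hPeval]
    have h1 : q * (q ^ 2 * x) = x := by linear_combination x * hom3
    have h2 : q ^ 2 * (q ^ 2 * x) = q * x := by linear_combination (q * x) * hom3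
    rw [h1, h2]
  have hphi : ∀ x : ℂ, (1 + x) ^ N * (1 + q * x) ^ N * (1 + q ^ 2 * x) ^ N = (1 + x ^ 3) ^ N := by
    intro x
    rw [← mul_pow, ← mul_pow]
    congr 1
    linear_combination (x + q * x ^ 2 + (q - 1) * x ^ 3) * hom
  have hABD : ∀ s : ℂ, A.eval s ^ 2 - s * B.eval s * D.eval s = 3 * ((1 + s) ^ N) ^ 2 := by
    intro s
    obtain ⟨x, hx⟩ : ∃ x : ℂ, x ^ 3 = s := IsAlgClosed.exists_pow_nat_eq s (by norm_num)
    have h1 : P.eval x * P.eval (q * x) + P.eval (q * x) * P.eval (q ^ 2 * x)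
        + P.eval (q ^ 2 * x) * P.eval x = 9 * ((1 + x ^ 3) ^ N) ^ 2 := by
      rw [hPeval, hq1', hq2']
      have h3 := hphi x
      have h4 := e2 x
      generalize (1 + x) ^ N = f0 at h3 h4 ⊢
      generalize (1 + q * x) ^ N = f1 at h3 h4 ⊢
      generalize (1 + q ^ 2 * x) ^ N = f2 at h3 h4 ⊢
      generalize (1 + x ^ 3) ^ N = f at h3 h4 ⊢
      generalize t1.eval x = T0 at h4 ⊢
      generalize t1.eval (q * x) = T1 at h4 ⊢
      generalize t1.eval (q ^ 2 * x) = T2 at h4 ⊢
      linear_combination f * h4 + (T0 * T1 * f2 + T1 * T2 * f0 + T2 * T0 * f1) * h3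
    have h2 : P.eval x * P.eval (q * x) + P.eval (q * x) * P.eval (q ^ 2 * x)
        + P.eval (q ^ 2 * x) * P.eval x
        = 3 * (A.eval (x ^ 3) ^ 2 - x ^ 3 * B.eval (x ^ 3) * D.eval (x ^ 3)) := by
      rw [hPABD x, hq1, hq2]
      generalize A.eval (x ^ 3) = a
      generalize B.eval (x ^ 3) = b
      generalize D.eval (x ^ 3) = d
      linear_combination (2 * a * (x * b + x ^ 2 * d) + q * (x * b) ^ 2 + q * (x ^ 2 * d) ^ 2
        + (q ^ 2 - q + 3) * (x * b) * (x ^ 2 * d)) * hom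
    rw [← hx]
    linear_combination (1 / 3) * h1 - (1 / 3) * h2
  -- the polynomials κ, m, l
  set κ : ℂ[X] := C w⁻¹ * A with hκ
  set m : ℂ[X] := C (-(2 * w)⁻¹) * B with hm
  set l : ℂ[X] := C (-(2 * w)⁻¹) * D with hl
  have hκe : ∀ s, A.eval s = w * κ.eval s := by
    intro s; rw [hκ]; simp only [eval_mul, eval_C]; field_simp
  have hme : ∀ s, B.eval s = -2 * w * m.eval s := by
    intro s; rw [hm]; simp only [eval_mul, eval_C]; field_simp
  have hle : ∀ s, D.eval s = -2 * w * l.eval s := by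
    intro s; rw [hl]; simp only [eval_mul, eval_C]; field_simp
  have hmdeg : m.natDegree ≤ N - 1 := (natDegree_C_mul_le _ _).trans hdB
  have hldeg : l.natDegree ≤ N - 1 := (natDegree_C_mul_le _ _).trans hdD
  have hκN : κ.coeff N = -1 := by
    rw [hκ, coeff_C_mul, hcA, hPN]; field_simp
  have hκ0 : κ.coeff 0 = 1 := by
    rw [hκ, coeff_C_mul, hcA, mul_zero, hP0]; field_simp
  have hκdeg : κ.natDegree ≤ N := (natDegree_C_mul_le _ _).trans hdA
  have hone : (1 + X : ℂ[X]) = 1 + C 1 * X := by simp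
  have hpdeg1 : ((1 + X : ℂ[X]) ^ N).natDegree ≤ N := by rw [hone]; exact hdlp 1
  have hpN : ((1 + X : ℂ[X]) ^ N).coeff N = 1 := by rw [hone, hlc, one_pow]
  have hp0' : ((1 + X : ℂ[X]) ^ N).coeff 0 = 1 := by
    rw [coeff_zero_eq_eval_zero]; simp
  set p : ℂ[X] := C (1 / 2) * (κ + (1 + X) ^ N) with hp
  set p' : ℂ[X] := C (1 / 2) * (κ - (1 + X) ^ N) with hp'
  have hpc0 : p.coeff 0 = 1 := by
    rw [hp, coeff_C_mul, coeff_add, hκ0, hp0']; norm_num
  have hpcN : p.coeff N = 0 := by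
    rw [hp, coeff_C_mul, coeff_add, hκN, hpN]; norm_num
  have hp'c0 : p'.coeff 0 = 0 := by
    rw [hp', coeff_C_mul, coeff_sub, hκ0, hp0']; norm_num
  have hp'cN : p'.coeff N = -1 := by
    rw [hp', coeff_C_mul, coeff_sub, hκN, hpN]; norm_num
  have hpdeg : p.natDegree ≤ N - 1 := by
    rw [natDegree_le_iff_coeff_eq_zero]
    intro k hk
    rcases Nat.lt_or_ge N k with h | h
    · apply coeff_eq_zero_of_natDegree_lt
      refine lt_of_le_of_lt ((natDegree_C_mul_le _ _).trans ?_) h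
      exact (natDegree_add_le _ _).trans (max_le hκdeg hpdeg1)
    · have : k = N := by omega
      rw [this]; exact hpcN
  have hp'deg : p'.natDegree ≤ N := by
    refine (natDegree_C_mul_le _ _).trans ?_
    exact (natDegree_sub_le _ _).trans (max_le hκdeg hpdeg1)
  set r := p'.divX with hr
  have hp'r : p' = X * r := by
    have := divX_mul_X_add p'
    rw [hp'c0, C_0, add_zero] at this
    rw [hr, mul_comm]; exact this.symm
  have hrc : r.coeff (N - 1) = -1 := by
    rw [hr, coeff_divX, show N - 1 + 1 = N by omega]; exact hp'cN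
  have hr0 : r ≠ 0 := by
    intro h; rw [h] at hrc; simp at hrc
  have hrdeg : r.natDegree = N - 1 := by
    apply le_antisymm
    · rw [natDegree_le_iff_coeff_eq_zero]
      intro k hk
      rw [hr, coeff_divX]
      exact coeff_eq_zero_of_natDegree_lt (by omega)
    · apply le_natDegree_of_ne_zero
      rw [hrc]; norm_num
  have hp0 : p ≠ 0 := by
    intro h; rw [h] at hpc0; simp at hpc0
  have hpr : p * r = m * l := by
    have h1 : X * (p * r) = X * (m * l) := by
      have h2 : X * (p * r) = p * p' := by rw [hp'r]; ring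
      rw [h2]
      apply Polynomial.funext
      intro s
      have h3 := hABD s
      rw [hκe, hme, hle] at h3
      have h4 : w ^ 2 * (κ.eval s ^ 2 - 4 * s * m.eval s * l.eval s - ((1 + s) ^ N) ^ 2) = 0 := by
        linear_combination h3 - ((1 + s) ^ N) ^ 2 * hs3
      have h5 : κ.eval s ^ 2 - 4 * s * m.eval s * l.eval s - ((1 + s) ^ N) ^ 2 = 0 := by
        rcases mul_eq_zero.mp h4 with h | h
        · exact absurd h (pow_ne_zero 2 hs0)
        · exact h
      simp only [hp, hp', eval_mul, eval_C, eval_add, eval_sub, eval_pow, eval_one, eval_X]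
      linear_combination (1 / 4) * h5
    exact mul_left_cancel₀ X_ne_zero h1
  have hprel : p - X * r = (1 + X) ^ N := by
    rw [← hp'r, hp, hp']
    have h1 : (C (1 / 2 : ℂ) : ℂ[X]) * 2 = 1 := by
      have : (2 : ℂ[X]) = C 2 := (map_ofNat C 2).symm
      rw [this, ← C_mul]; norm_num
    linear_combination ((1 + X) ^ N) * h1
  have hpsum : p + X * r = κ := by
    rw [← hp'r, hp, hp']
    have h1 : (C (1 / 2 : ℂ) : ℂ[X]) * 2 = 1 := by
      have : (2 : ℂ[X]) = C 2 := (map_ofNat C 2).symm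
      rw [this, ← C_mul]; norm_num
    linear_combination κ * h1
  obtain ⟨u, v, g, hrel, hgu, hgv⟩ := UniqueFactorizationMonoid.exists_reduced_factors p hp0 m
  have hco : IsCoprime u v := isRelPrime_iff_isCoprime.mp hrel
  have hg0 : g ≠ 0 := by
    intro h; rw [h, zero_mul] at hgu; exact hp0 hgu.symm
  have hu0 : u ≠ 0 := by
    intro h; rw [h, mul_zero] at hgu; exact hp0 hgu.symm
  have hurvl : u * r = v * l := by
    apply mul_left_cancel₀ hg0
    rw [← mul_assoc, ← mul_assoc, hgu, hgv, hpr]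
  obtain ⟨h, hh⟩ : v ∣ r := hco.symm.dvd_of_dvd_mul_left ⟨l, hurvl⟩
  have hv0 : v ≠ 0 := by
    intro h'; rw [h', zero_mul] at hh; exact hr0 hh
  have hh0 : h ≠ 0 := by
    intro h'; rw [h', mul_zero] at hh; exact hr0 hh
  have hlu : l = h * u := by
    apply mul_left_cancel₀ hv0
    rw [← hurvl, hh]; ring
  have hdvh : v.natDegree + h.natDegree = N - 1 := by
    rw [← hrdeg, hh, natDegree_mul hv0 hh0]
  refine ⟨u, v, g, h, hco, ?_, ?_, hv0, hh0, hdvh, ?_, ?_, ?_⟩
  · rw [hgu, ← hprel, hh]; ring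
  · rw [← hpc0, ← hgu, mul_coeff_zero, mul_comm]
  · have h1 : l.natDegree = h.natDegree + u.natDegree := by rw [hlu, natDegree_mul hh0 hu0]
    omega
  · have h1 : m.natDegree = g.natDegree + v.natDegree := by rw [← hgv, natDegree_mul hg0 hv0]
    omega
  · intro x
    have h1 : (t1.eval (q * x) * (1 + q ^ 2 * x) ^ N + t1.eval (q ^ 2 * x) * (1 + q * x) ^ N)
        * (1 + x) ^ N = -(P.eval (q * x) + P.eval (q ^ 2 * x)) := by
      rw [hq1', hq2']; ring
    have h2 : P.eval (q * x) + P.eval (q ^ 2 * x)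
        = 2 * A.eval (x ^ 3) - x * B.eval (x ^ 3) - x ^ 2 * D.eval (x ^ 3) := by
      rw [hq1, hq2]
      linear_combination (x * B.eval (x ^ 3) + x ^ 2 * D.eval (x ^ 3)) * hom
    rw [h1, h2, hκe, hme, hle]
    have h3 : κ.eval (x ^ 3) = g.eval (x ^ 3) * u.eval (x ^ 3)
        + x ^ 3 * (v.eval (x ^ 3) * h.eval (x ^ 3)) := by
      have := congrArg (eval (x ^ 3)) hpsum
      rw [← this, ← hgu, hh]
      simp
    have h4 : m.eval (x ^ 3) = g.eval (x ^ 3) * v.eval (x ^ 3) := by
      rw [← hgv]; simp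
    have h5 : l.eval (x ^ 3) = h.eval (x ^ 3) * u.eval (x ^ 3) := by
      rw [hlu]; simp
    rw [h3, h4, h5]
    ring

end H906K
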