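import Pool.Agent.H906R3.K6.U1

set_option autoImplicit false

namespace H906K
open Polynomial

theorem u5_om : om ^ 2 + om + 1 = 0 := by
  have h3 : Real.sqrt 3 * Real.sqrt 3 = 3 := Real.mul_self_sqrt (by norm_num)
  apply Complex.ext
  · simp [om, pow_two]
    nlinarith
  · simp [om, pow_two]
    ring

theorem u5_om3 : om ^ 3 = 1 := by
  have : om ^ 3 - 1 = (om - 1) * (om ^ 2 + om + 1) := by ring
  rw [u5_om, mul_zero] at this
  exact sub_eq_zero.mp this

theorem u5_om1 : om - 1 ≠ 0 := by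
  intro h
  have := congrArg Complex.re h
  simp [om] at this
  norm_num at this

theorem u5_card_comp (p : ℂ[X]) : (p.comp (X ^ 3)).support.card ≤ p.natDegree + 1 := by
  classical
  rw [← expand_eq_comp_X_pow]
  refine le_trans ?_ (card_supp_le_succ_natDegree p)
  refine Finset.card_le_card_of_injOn (fun i => i / 3) ?_ ?_
  · intro i hi
    have h1 : (expand ℂ 3 p).coeff i ≠ 0 := mem_support_iff.mp hi
    rw [coeff_expand (by norm_num)] at h1
    split_ifs at h1 with h2
    · simpa using h1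
    · exact absurd rfl h1
  · intro i hi j hj hij
    have h1 : (expand ℂ 3 p).coeff i ≠ 0 := mem_support_iff.mp hi
    have h2 : (expand ℂ 3 p).coeff j ≠ 0 := mem_support_iff.mp hj
    rw [coeff_expand (by norm_num)] at h1 h2
    split_ifs at h1 h2 with h3 h4
    · simp only at hij
      omega
    · exact absurd rfl h2
    · exact absurd rfl h1
    · exact absurd rfl h1

theorem u5_card_shift (j : ℕ) (p : ℂ[X]) : (X ^ j * p).support.card ≤ p.support.card := by
  classical
  refine Finset.card_le_card_of_injOn (fun i => i - j) ?_ ?_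
  · intro i hi
    have h1 : (X ^ j * p).coeff i ≠ 0 := mem_support_iff.mp hi
    rw [coeff_X_pow_mul'] at h1
    split_ifs at h1 with h2
    · simpa using h1
    · exact absurd rfl h1
  · intro i hi k hk hik
    have h1 : (X ^ j * p).coeff i ≠ 0 := mem_support_iff.mp hi
    have h2 : (X ^ j * p).coeff k ≠ 0 := mem_support_iff.mp hk
    rw [coeff_X_pow_mul'] at h1 h2
    split_ifs at h1 h2 with h3 h4
    · simp only at hik
      omega
    · exact absurd rfl h2
    · exact absurd rfl h1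
    · exact absurd rfl h1

theorem u5_card (j : ℕ) (p q : ℂ[X]) (h : p.natDegree ≤ q.natDegree) :
    (p.comp (X ^ 3) + X ^ j * q.comp (X ^ 3)).support.card ≤ 2 * (q.natDegree + 1) := by
  classical
  have h1 := Finset.card_le_card (support_add (p := p.comp (X ^ 3)) (q := X ^ j * q.comp (X ^ 3)))
  have h2 := Finset.card_union_le (p.comp (X ^ 3)).support (X ^ j * q.comp (X ^ 3)).support
  have h3 := u5_card_comp p
  have h4 := u5_card_shift j (q.comp (X ^ 3))
  have h5 := u5_card_comp q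
  omega

/-- multiplicity of a product with an explicit power -/
theorem u5_ord (r : ℂ) (k : ℕ) (Q : ℂ[X]) (hQ : Q.eval r ≠ 0) :
    ((X - C r) ^ k * Q).rootMultiplicity r = k := by
  have h0 : Q ≠ 0 := by
    rintro rfl
    simp at hQ
  rw [rootMultiplicity_mul (mul_ne_zero (pow_ne_zero _ (X_sub_C_ne_zero r)) h0),
    rootMultiplicity_X_sub_C_pow, rootMultiplicity_eq_zero hQ, add_zero]

theorem u5_cube : (1 + X ^ 3 : ℂ[X]) = (X - C (-1)) * (X ^ 2 - X + 1) := by
  rw [C_neg, C_1]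
  ring

theorem u5_cube_pow (k : ℕ) :
    (1 + X ^ 3 : ℂ[X]) ^ k = (X - C (-1)) ^ k * (X ^ 2 - X + 1) ^ k := by
  rw [u5_cube, mul_pow]

theorem u5_cube_ord (k : ℕ) (Q : ℂ[X]) (hQ : Q.eval (-1) ≠ 0) :
    ((1 + X ^ 3 : ℂ[X]) ^ k * Q).rootMultiplicity (-1) = k := by
  rw [u5_cube_pow, mul_assoc]
  refine u5_ord _ _ _ ?_
  rw [eval_mul, eval_pow]
  refine mul_ne_zero (pow_ne_zero _ ?_) hQ
  simp
  norm_num

theorem u5_comp_cube (p : ℂ[X]) (k : ℕ) :
    ((X - C (-1)) ^ k * p).comp (X ^ 3) = (1 + X ^ 3) ^ k * p.comp (X ^ 3) := by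
  rw [mul_comp, pow_comp, sub_comp, X_comp, C_comp, C_neg, C_1]
  ring

/-- order at `-1` of `p(x³)` -/
theorem u5_descend (p : ℂ[X]) (m : ℕ) (h : (X - C (-1 : ℂ)) ^ m ∣ p.comp (X ^ 3)) :
    (X - C (-1 : ℂ)) ^ m ∣ p := by
  by_cases hp : p = 0
  · rw [hp]; exact dvd_zero _
  obtain ⟨q, hq, hq2⟩ := exists_eq_pow_rootMultiplicity_mul_and_not_dvd p hp (-1)
  have hq3 : q.eval (-1) ≠ 0 := fun hh => hq2 (dvd_iff_isRoot.mpr hh)
  set k := rootMultiplicity (-1) p with hk
  have h1 : (p.comp (X ^ 3)).rootMultiplicity (-1) = k := by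
    rw [hq, u5_comp_cube]
    refine u5_cube_ord _ _ ?_
    rw [eval_comp, eval_pow, eval_X]
    norm_num
    exact hq3
  have h2 : p.comp (X ^ 3) ≠ 0 := by
    intro hh
    rw [← expand_eq_comp_X_pow] at hh
    exact hp ((expand_eq_zero (by norm_num)).mp hh)
  have h3 : m ≤ k := by
    rw [← h1]
    exact (le_rootMultiplicity_iff h2).mpr h
  rw [hq]
  exact (pow_dvd_pow _ h3).mul_right _

/-- if `A - B = R`, `ord R = N`, `ord B > N`, then `ord A = N` -/
theorem u5_sub (A B R : ℂ[X]) (N : ℕ) (r : ℂ) (h : A - B = R) (hR : R ≠ 0)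
    (hN : R.rootMultiplicity r = N) (hB : (X - C r) ^ (N + 1) ∣ B) :
    A ≠ 0 ∧ A.rootMultiplicity r = N := by
  have hnot : ¬ (X - C r) ^ (N + 1) ∣ A := by
    intro hA
    have h1 : (X - C r) ^ (N + 1) ∣ R := by rw [← h]; exact dvd_sub hA hB
    have := (le_rootMultiplicity_iff hR).mpr h1
    omega
  have hA0 : A ≠ 0 := by
    rintro rfl
    exact hnot (dvd_zero _)
  refine ⟨hA0, le_antisymm ?_ ?_⟩
  · by_contra hc
    push Not at hc
    exact hnot ((le_rootMultiplicity_iff hA0).mp hc)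
  · rw [le_rootMultiplicity_iff hA0]
    have h1 : A = R + B := by rw [← h]; ring
    rw [h1]
    refine dvd_add ?_ ?_
    · exact (le_rootMultiplicity_iff hR).mp hN.ge
    · exact (pow_dvd_pow _ (Nat.le_succ N)).trans hB

theorem u5_ne (j : ℕ) (hj : j = 1 ∨ j = 2) (p q : ℂ[X]) (hq : q ≠ 0) :
    p.comp (X ^ 3) + X ^ j * q.comp (X ^ 3) ≠ 0 := by
  intro h0
  apply hq
  ext k
  have h1 := congrArg (fun P => coeff P (3 * k + j)) h0
  simp only [coeff_add, coeff_zero, coeff_X_pow_mul', ← expand_eq_comp_X_pow] at h1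
  have h2 : ¬ (3 ∣ 3 * k + j) := by rcases hj with h | h <;> omega
  have h3 : 3 ∣ 3 * k + j - j := by omega
  have h5 : j ≤ 3 * k + j := by omega
  rw [coeff_expand (by norm_num), if_neg h2, if_pos h5, coeff_expand (by norm_num),
    if_pos h3] at h1
  have h4 : (3 * k + j - j) / 3 = k := by omega
  rw [h4, zero_add] at h1
  rw [h1, coeff_zero]

theorem u5_C_ord (c : ℂ) (hc : c ≠ 0) (P : ℂ[X]) (r : ℂ) (hP : P ≠ 0) :
    (C c * P).rootMultiplicity r = P.rootMultiplicity r := by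
  have h1 : (C c : ℂ[X]) ≠ 0 := by simpa using hc
  rw [rootMultiplicity_mul (mul_ne_zero h1 hP), rootMultiplicity_C, zero_add]

theorem balanced (n : ℕ) (u v g h : ℂ[X]) (hco : IsCoprime u v)
    (hw : g * u - X * h * v = (1 + X) ^ (2 * n + 1)) (hv : v ≠ 0) (hh : h ≠ 0)
    (hdeg : v.natDegree + h.natDegree = 2 * n) (hu : u.natDegree ≤ v.natDegree)
    (hg : g.natDegree ≤ h.natDegree)
    (hd : (X + 1 : ℂ[X]) ^ (2 * (2 * n + 1)) ∣ (u.comp (X ^ 3) + X * v.comp (X ^ 3))
      * (g.comp (X ^ 3) + X ^ 2 * h.comp (X ^ 3))) :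
    v.natDegree = n ∧ h.natDegree = n ∧
    (X + 1 : ℂ[X]) ^ (2 * n + 1) ∣ u.comp (X ^ 3) + X * v.comp (X ^ 3) ∧
    (X + 1 : ℂ[X]) ^ (2 * n + 1) ∣ g.comp (X ^ 3) + X ^ 2 * h.comp (X ^ 3) := by
  have hX1 : (X + 1 : ℂ[X]) = X - C (-1) := by rw [C_neg, C_1]; ring
  rw [hX1] at hd ⊢
  have hw' : g.comp (X ^ 3) * u.comp (X ^ 3) - X ^ 3 * h.comp (X ^ 3) * v.comp (X ^ 3)
      = (1 + X ^ 3) ^ (2 * n + 1) := by
    have := congrArg (fun P => P.comp (X ^ 3)) hw
    simpa only [sub_comp, mul_comp, X_comp, pow_comp, add_comp, one_comp] using this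
  have hF0 : u.comp (X ^ 3) + X * v.comp (X ^ 3) ≠ 0 := by
    have := u5_ne 1 (Or.inl rfl) u v hv
    rwa [pow_one] at this
  have hG0 := u5_ne 2 (Or.inr rfl) g h hh
  have hH0 : h.comp (X ^ 3) ≠ 0 := by
    intro hx
    rw [← expand_eq_comp_X_pow] at hx
    exact hh ((expand_eq_zero (by norm_num)).mp hx)
  have hcF := u5_card 1 u v hu
  rw [pow_one] at hcF
  have hcG := u5_card 2 g h hg
  have hUF := rootMult_lt _ hF0 (-1) (by norm_num)
  have hUG := rootMult_lt _ hG0 (-1) (by norm_num)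
  have hevF : (u.comp (X ^ 3) + X * v.comp (X ^ 3)).eval (-1) = u.eval (-1) - v.eval (-1) := by
    rw [eval_add, eval_mul, eval_comp, eval_comp, eval_pow, eval_X]
    norm_num
    ring
  generalize hUd : u.comp (X ^ 3) = U at *
  generalize hVd : v.comp (X ^ 3) = V at *
  generalize hGd : g.comp (X ^ 3) = Gg at *
  generalize hHd : h.comp (X ^ 3) = H at *
  set N := 2 * n + 1 with hN
  set F : ℂ[X] := U + X * V with hFd
  set G : ℂ[X] := Gg + X ^ 2 * H with hGdef
  set F1 : ℂ[X] := U + C om * X * V with hF1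
  set F2 : ℂ[X] := U + C (om ^ 2) * X * V with hF2
  set G1 : ℂ[X] := Gg + C (om ^ 2) * X ^ 2 * H with hG1
  set G2 : ℂ[X] := Gg + C om * X ^ 2 * H with hG2
  have hom3 : (C om : ℂ[X]) ^ 3 = 1 := by rw [← C_pow, u5_om3, C_1]
  have hom2 : (C om : ℂ[X]) ^ 2 + C om + 1 = 0 := by
    rw [← C_pow, ← C_1, ← C_add, ← C_add, u5_om, C_0]
  have hom0 : om ≠ 0 := by
    intro hx
    have := u5_om3
    rw [hx] at this
    norm_num at this
  have I1 : C om * (F * G1) - F1 * G = C (om - 1) * (1 + X ^ 3) ^ N := by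
    rw [← hw', hFd, hG1, hF1, hGdef, C_sub, C_1, C_pow]
    linear_combination (U * X ^ 2 * H + X ^ 3 * V * H) * hom3
  have I2 : F * G2 - C om * (F2 * G) = C (1 - om) * (1 + X ^ 3) ^ N := by
    rw [← hw', hFd, hG2, hF2, hGdef, C_sub, C_1, C_pow]
    linear_combination (-(X * V * Gg) - X ^ 3 * V * H) * hom3
  have hRord : ∀ c : ℂ, c ≠ 0 → (C c * (1 + X ^ 3 : ℂ[X]) ^ N) ≠ 0 ∧
      (C c * (1 + X ^ 3 : ℂ[X]) ^ N).rootMultiplicity (-1) = N := by
    intro c hc
    have h1 : (1 + X ^ 3 : ℂ[X]) ^ N ≠ 0 := by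
      intro hx
      have := congrArg (eval 0) hx
      simp at this
    refine ⟨mul_ne_zero (by simpa using hc) h1, ?_⟩
    rw [u5_C_ord c hc _ _ h1]
    have := u5_cube_ord N 1 (by simp)
    rwa [mul_one] at this
  obtain ⟨hR1, hR1o⟩ := hRord (om - 1) u5_om1
  obtain ⟨hR2, hR2o⟩ := hRord (1 - om) (by
    intro hx; exact u5_om1 (by linear_combination -hx))
  set a := F.rootMultiplicity (-1) with ha
  set b := G.rootMultiplicity (-1) with hb
  have hab : 2 * N ≤ a + b := by
    have h1 := (le_rootMultiplicity_iff (mul_ne_zero hF0 hG0)).mpr hd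
    rwa [rootMultiplicity_mul (mul_ne_zero hF0 hG0)] at h1
  have haN : N ≤ a := by
    by_contra hlt
    push Not at hlt
    have hGdvd : (X - C (-1 : ℂ)) ^ (N + 1) ∣ G :=
      (le_rootMultiplicity_iff hG0).mp (by omega)
    obtain ⟨hA1, hA1o⟩ := u5_sub (C om * (F * G1)) (F1 * G) _ N (-1) I1 hR1 hR1o
      (hGdvd.mul_left _)
    obtain ⟨hA2, hA2o⟩ := u5_sub (F * G2) (C om * (F2 * G)) _ N (-1) I2 hR2 hR2o
      ((hGdvd.mul_left _).mul_left _)
    have hFG1 : F * G1 ≠ 0 := right_ne_zero_of_mul hA1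
    rw [u5_C_ord om hom0 _ _ hFG1, rootMultiplicity_mul hFG1] at hA1o
    rw [rootMultiplicity_mul hA2] at hA2o
    have hG10 : G1 ≠ 0 := right_ne_zero_of_mul hFG1
    have hG20 : G2 ≠ 0 := right_ne_zero_of_mul hA2
    obtain ⟨m, hm⟩ : ∃ m, m = N - a := ⟨_, rfl⟩
    have hd0 : (X - C (-1 : ℂ)) ^ m ∣ G := (le_rootMultiplicity_iff hG0).mp (by omega)
    have hd1 : (X - C (-1 : ℂ)) ^ m ∣ G1 := (le_rootMultiplicity_iff hG10).mp (by omega)
    have hd2 : (X - C (-1 : ℂ)) ^ m ∣ G2 := (le_rootMultiplicity_iff hG20).mp (by omega)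
    have hC3 : (C (1 / 3 : ℂ) : ℂ[X]) * 3 = 1 := by
      have : (3 : ℂ[X]) = C 3 := rfl
      rw [this, ← C_mul, ← C_1]
      norm_num
    have hdg : (X - C (-1 : ℂ)) ^ m ∣ Gg := by
      have : Gg = C (1 / 3) * (G + G1 + G2) := by
        rw [hGdef, hG1, hG2, C_pow]
        linear_combination (-Gg) * hC3 - C (1 / 3) * X ^ 2 * H * hom2
      rw [this]
      exact ((hd0.add hd1).add hd2).mul_left _
    have hdh' : (X - C (-1 : ℂ)) ^ m ∣ X ^ 2 * H := by
      have : X ^ 2 * H = C (1 / 3) * (G + C om * G1 + C om ^ 2 * G2) := by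
        rw [hGdef, hG1, hG2, C_pow]
        linear_combination (-(X ^ 2 * H)) * hC3 - C (1 / 3) * Gg * hom2
          - 2 * C (1 / 3) * X ^ 2 * H * hom3
      rw [this]
      exact ((hd0.add (hd1.mul_left _)).add (hd2.mul_left _)).mul_left _
    have hdh : (X - C (-1 : ℂ)) ^ m ∣ H := by
      have hne : (X ^ 2 * H : ℂ[X]) ≠ 0 := mul_ne_zero (pow_ne_zero _ X_ne_zero) hH0
      have h1 := (le_rootMultiplicity_iff hne).mpr hdh'
      rw [rootMultiplicity_mul hne] at h1
      have h2 : rootMultiplicity (-1 : ℂ) (X ^ 2 : ℂ[X]) = 0 := by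
        apply rootMultiplicity_eq_zero
        simp
      rw [h2, zero_add] at h1
      exact (le_rootMultiplicity_iff hH0).mp h1
    rw [← hGd] at hdg
    rw [← hHd] at hdh
    obtain ⟨g', hg'⟩ := u5_descend g m hdg
    obtain ⟨h', hh'⟩ := u5_descend h m hdh
    have hh'0 : h' ≠ 0 := by
      rintro rfl
      rw [mul_zero] at hh'
      exact hh hh'
    have hpm : (X - C (-1 : ℂ)) ^ m ≠ 0 := pow_ne_zero _ (X_sub_C_ne_zero _)
    have hdegh : h.natDegree = m + h'.natDegree := by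
      rw [hh', natDegree_mul hpm hh'0, natDegree_pow, natDegree_X_sub_C, mul_one]
    have hdegg : g'.natDegree ≤ h'.natDegree := by
      by_cases hg0 : g' = 0
      · rw [hg0, natDegree_zero]; exact Nat.zero_le _
      · have : g.natDegree = m + g'.natDegree := by
          rw [hg', natDegree_mul hpm hg0, natDegree_pow, natDegree_X_sub_C, mul_one]
        omega
    have hGG : G = (1 + X ^ 3) ^ m * (g'.comp (X ^ 3) + X ^ 2 * h'.comp (X ^ 3)) := by
      rw [hGdef, ← hGd, ← hHd, hg', hh', u5_comp_cube, u5_comp_cube]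
      ring
    have hG'0 := u5_ne 2 (Or.inr rfl) g' h' hh'0
    have hcG' := u5_card 2 g' h' hdegg
    have hUG' := rootMult_lt _ hG'0 (-1) (by norm_num)
    have hb' : b = m + (g'.comp (X ^ 3) + X ^ 2 * h'.comp (X ^ 3)).rootMultiplicity (-1) := by
      rw [hb]
      conv_lhs => rw [hGG]
      rw [rootMultiplicity_mul (by rw [← hGG]; exact hG0)]
      have := u5_cube_ord m 1 (by simp)
      rw [mul_one] at this
      rw [this]
    omega
  have hbN : N ≤ b := by
    by_cases haeq : a = N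
    · omega
    · have hFdvd : (X - C (-1 : ℂ)) ^ (N + 1) ∣ F :=
        (le_rootMultiplicity_iff hF0).mp (by omega)
      have I1' : F1 * G - C om * (F * G1) = C (1 - om) * (1 + X ^ 3) ^ N := by
        have : (C (1 - om) : ℂ[X]) = -C (om - 1) := by rw [← C_neg]; congr 1; ring
        rw [this]
        linear_combination -I1
      obtain ⟨hA1, hA1o⟩ := u5_sub (F1 * G) (C om * (F * G1)) _ N (-1) I1' hR2 hR2o
        ((hFdvd.mul_right _).mul_left _)
      rw [rootMultiplicity_mul hA1] at hA1o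
      have hF1ev : F1.eval (-1) ≠ 0 := by
        intro hx
        have hF : F.eval (-1) = 0 := by
          have : (X - C (-1 : ℂ)) ∣ F := (dvd_pow_self _ (Nat.succ_ne_zero N)).trans hFdvd
          exact dvd_iff_isRoot.mp this
        rw [hevF] at hF
        rw [hF1, ← hUd, ← hVd, eval_add, eval_mul, eval_mul, eval_C, eval_X, eval_comp, eval_comp,
          eval_pow, eval_X] at hx
        have h3 : ((-1 : ℂ)) ^ 3 = -1 := by norm_num
        rw [h3] at hx
        have h4 : (1 - om) * v.eval (-1) = 0 := by linear_combination hx - hF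
        have h5 : v.eval (-1) = 0 := by
          rcases mul_eq_zero.mp h4 with h6 | h6
          · exact absurd (by linear_combination -h6) u5_om1
          · exact h6
        have h6 : u.eval (-1) = 0 := by linear_combination hF + h5
        obtain ⟨p, q, hpq⟩ := hco
        have := congrArg (eval (-1)) hpq
        rw [eval_add, eval_mul, eval_mul, h5, h6, eval_one] at this
        simp at this
      rw [rootMultiplicity_eq_zero hF1ev, zero_add] at hA1o
      omega
  refine ⟨by omega, by omega, ?_, ?_⟩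
  · exact (le_rootMultiplicity_iff hF0).mp haN
  · exact (le_rootMultiplicity_iff hG0).mp hbN

end H906K
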