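import Pool.Agent.H906R3.K6.Defs2
import Pool.Agent.H906R3.K6.U1
import Pool.Agent.H906R3.K6.U3
import Pool.Agent.H906R3.K6.U3b
import Pool.Agent.H906R3.K6.U4
import Pool.Agent.H906R3.K6.U5

/-! # Task U6: reality and location of the zeros of the perturbation data -/

namespace H906K
open Pool.Agent.H974R3 Polynomial MeasureTheory Filter Topology

theorem u6_sq3 : (Real.sqrt 3) * (Real.sqrt 3) = 3 := Real.mul_self_sqrt (by norm_num)

theorem u6_conj_om : (starRingEnd ℂ) om = om ^ 2 := by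
  have h := u6_sq3
  apply Complex.ext
  · simp [om, pow_two]
    nlinarith
  · simp [om, pow_two]
    ring

theorem u6_om3 : om ^ 3 = 1 := by
  have h := u6_sq3
  have h2 : om ^ 2 = ⟨-1 / 2, -(Real.sqrt 3 / 2)⟩ := by
    rw [← u6_conj_om]
    apply Complex.ext <;> simp [om]
  rw [pow_succ, h2]
  apply Complex.ext
  · simp [om]
    nlinarith
  · simp [om]
    ring

/-- evaluation of the conjugate polynomial -/
theorem u6_eval_conj (p : ℂ[X]) (x : ℂ) :
    (p.map (starRingEnd ℂ)).eval (starRingEnd ℂ x) = starRingEnd ℂ (p.eval x) := by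
  rw [Polynomial.eval_map, Polynomial.eval₂_at_apply]

/-- a real polynomial is invariant under conjugation -/
theorem u6_conj_real (V : ℝ[X]) :
    (V.map (algebraMap ℝ ℂ)).map (starRingEnd ℂ) = V.map (algebraMap ℝ ℂ) := by
  ext k
  rw [Polynomial.coeff_map, Polynomial.coeff_map]
  exact Complex.conj_ofReal _

/-- a polynomial with real coefficients comes from a real polynomial -/
theorem u6_lift (P : ℂ[X]) (h : ∀ k, (P.coeff k).im = 0) :
    ∃ R : ℝ[X], R.map (algebraMap ℝ ℂ) = P := by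
  have h1 : P ∈ Polynomial.lifts (algebraMap ℝ ℂ) := by
    rw [Polynomial.lifts_iff_coeff_lifts]
    intro k
    exact ⟨(P.coeff k).re, by
      apply Complex.ext
      · simp
      · simp [h k]⟩
  exact (Polynomial.mem_lifts P).1 h1

theorem u6_real (N : ℕ) (P : ℂ[X]) (h0 : (P.coeff 0).im = 0) (hd : (X + 1 : ℂ[X]) ^ N ∣ P)
    (hyp : ∀ B : ℝ[X], B ≠ 0 → (∀ k, B.coeff k ≠ 0 → P.coeff k ≠ 0) → (X + 1) ^ N ∣ B →
      B.coeff 0 ≠ 0) : ∃ R : ℝ[X], R.map (algebraMap ℝ ℂ) = P := by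
  have hco : ∀ k, (C (-Complex.I / 2) * (P - P.map (starRingEnd ℂ))).coeff k =
      (((P.coeff k).im : ℝ) : ℂ) := by
    intro k
    rw [Polynomial.coeff_C_mul, Polynomial.coeff_sub, Polynomial.coeff_map]
    apply Complex.ext
    · simp
      ring
    · simp
  obtain ⟨B, hB⟩ := u6_lift (C (-Complex.I / 2) * (P - P.map (starRingEnd ℂ))) (by
    intro k
    rw [hco k, Complex.ofReal_im])
  have hBc : ∀ k, B.coeff k = (P.coeff k).im := by
    intro k
    have h1 := congrArg (fun q => Polynomial.coeff q k) hB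
    simp only [Polynomial.coeff_map] at h1
    rw [hco k] at h1
    exact Complex.ofReal_injective h1
  have hX : ((X + 1 : ℝ[X]) ^ N).map (algebraMap ℝ ℂ) = (X + 1) ^ N := by
    simp
  have hXc : ((X + 1 : ℂ[X]) ^ N).map (starRingEnd ℂ) = (X + 1) ^ N := by
    simp
  have hdB : (X + 1 : ℝ[X]) ^ N ∣ B := by
    rw [← Polynomial.map_dvd_map' (algebraMap ℝ ℂ), hX, hB]
    refine Dvd.dvd.mul_left (dvd_sub hd ?_) _
    have := Polynomial.map_dvd (starRingEnd ℂ) hd
    rwa [hXc] at this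
  have hB0 : B = 0 := by
    by_contra hne
    refine hyp B hne ?_ hdB ?_
    · intro k hk hPk
      apply hk
      rw [hBc k, hPk, Complex.zero_im]
    · rw [hBc 0, h0]
  refine u6_lift P fun k => ?_
  rw [← hBc k, hB0, Polynomial.coeff_zero]

/-- exponents -/
theorem u6_coeff (u v : ℂ[X]) (e k n : ℕ) (hu : u.natDegree ≤ n) (hv : v.natDegree ≤ n)
    (h : (u.comp (X ^ 3) + X ^ e * v.comp (X ^ 3)).coeff k ≠ 0) :
    (k % 3 = 0 ∧ k ≤ 3 * n) ∨ (e ≤ k ∧ (k - e) % 3 = 0 ∧ k ≤ 3 * n + e) := by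
  rw [← Polynomial.expand_eq_comp_X_pow, ← Polynomial.expand_eq_comp_X_pow,
    Polynomial.coeff_add, Polynomial.coeff_X_pow_mul', Polynomial.coeff_expand (by norm_num)] at h
  by_cases h1 : 3 ∣ k ∧ u.coeff (k / 3) ≠ 0
  · left
    have := Polynomial.le_natDegree_of_ne_zero h1.2
    have h3 := h1.1
    omega
  · right
    have h2 : (if 3 ∣ k then u.coeff (k / 3) else 0) = 0 := by
      by_cases h3 : 3 ∣ k
      · rw [if_pos h3]
        by_contra h4
        exact h1 ⟨h3, h4⟩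
      · rw [if_neg h3]
    rw [h2, zero_add] at h
    by_cases h5 : e ≤ k
    · rw [if_pos h5, Polynomial.coeff_expand (by norm_num)] at h
      by_cases h6 : 3 ∣ k - e
      · rw [if_pos h6] at h
        have := Polynomial.le_natDegree_of_ne_zero h
        omega
      · rw [if_neg h6] at h
        exact absurd rfl h
    · rw [if_neg h5] at h
      exact absurd rfl h

theorem u6_card1 (n : ℕ) :
    ((Finset.range (3 * n + 2)).filter (fun k => k % 3 ≠ 2)).card = 2 * n + 2 := by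
  induction n with
  | zero => decide
  | succ n ih =>
    have e : 3 * (n + 1) + 2 = (3 * n + 2) + 1 + 1 + 1 := by ring
    rw [e, Finset.range_add_one, Finset.range_add_one, Finset.range_add_one,
      Finset.filter_insert, Finset.filter_insert, Finset.filter_insert]
    rw [if_pos (by omega), if_pos (by omega), if_neg (by omega),
      Finset.card_insert_of_notMem (by simp), Finset.card_insert_of_notMem (by simp), ih]
    ring

theorem u6_card2 (n : ℕ) :
    ((Finset.range (3 * n + 3)).filter (fun k => k % 3 ≠ 1)).card = 2 * n + 2 := by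
  induction n with
  | zero => decide
  | succ n ih =>
    have e : 3 * (n + 1) + 3 = (3 * n + 3) + 1 + 1 + 1 := by ring
    rw [e, Finset.range_add_one, Finset.range_add_one, Finset.range_add_one,
      Finset.filter_insert, Finset.filter_insert, Finset.filter_insert]
    rw [if_pos (by omega), if_neg (by omega), if_pos (by omega),
      Finset.card_insert_of_notMem (by simp), Finset.card_insert_of_notMem (by simp), ih]
    ring

/-- `F_roots` and `G_roots` together -/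
theorem u6_roots (n e : ℕ) (he : e = 1 ∨ e = 2) (B : ℝ[X]) (hB : B ≠ 0)
    (hs : ∀ k, B.coeff k ≠ 0 → k ≤ 3 * n + e ∧ k % 3 ≠ 3 - e) (hd : (X + 1) ^ (2 * n + 1) ∣ B) :
    B.coeff 0 ≠ 0 ∧ B.natDegree = 3 * n + e ∧
    ∀ z : ℂ, (B.map (algebraMap ℝ ℂ)).eval z = 0 → z = -1 ∨ ∃ r : ℝ, 0 < r ∧ z = r := by
  rcases he with rfl | rfl
  · exact F_roots n B hB (fun k hk => by have := hs k hk; omega) hd
  · exact G_roots n B hB (fun k hk => by have := hs k hk; omega) hd

theorem u6_supp (n e : ℕ) (he : e = 1 ∨ e = 2) (P : ℂ[X])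
    (hs : ∀ k, P.coeff k ≠ 0 → k ≤ 3 * n + e ∧ k % 3 ≠ 3 - e) : P.support.card ≤ 2 * n + 2 := by
  rcases he with rfl | rfl
  · rw [← u6_card1 n]
    refine Finset.card_le_card fun k hk => ?_
    have := hs k (Polynomial.mem_support_iff.1 hk)
    rw [Finset.mem_filter, Finset.mem_range]
    omega
  · rw [← u6_card2 n]
    refine Finset.card_le_card fun k hk => ?_
    have := hs k (Polynomial.mem_support_iff.1 hk)
    rw [Finset.mem_filter, Finset.mem_range]
    omega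

theorem u6_half (n e : ℕ) (he : e = 1 ∨ e = 2) (u v : ℂ[X]) (hu : u.natDegree ≤ n)
    (hv : v.natDegree ≤ n) (h0 : u.coeff 0 ≠ 0)
    (hd : (X + 1 : ℂ[X]) ^ (2 * n + 1) ∣ u.comp (X ^ 3) + X ^ e * v.comp (X ^ 3)) :
    ∃ Q : ℝ[X], Q.natDegree + 1 = n + e ∧ Q.coeff 0 = 1 ∧
      u.comp (X ^ 3) + X ^ e * v.comp (X ^ 3) =
        C (u.coeff 0) * ((X + 1) ^ (2 * n + 1) * Q.map (algebraMap ℝ ℂ)) ∧
      ∀ z : ℂ, (Q.map (algebraMap ℝ ℂ)).eval z = 0 → ∃ r : ℝ, 0 < r ∧ z = r := by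
  have he1 : 1 ≤ e := by rcases he with rfl | rfl <;> norm_num
  obtain ⟨F, hF⟩ : ∃ F : ℂ[X], F = u.comp (X ^ 3) + X ^ e * v.comp (X ^ 3) := ⟨_, rfl⟩
  rw [← hF] at hd ⊢
  have hFs : ∀ k, F.coeff k ≠ 0 → k ≤ 3 * n + e ∧ k % 3 ≠ 3 - e := by
    intro k hk
    rw [hF] at hk
    have := u6_coeff u v e k n hu hv hk
    rcases he with rfl | rfl <;> omega
  have hF0 : F.coeff 0 = u.coeff 0 := by
    rw [hF, Polynomial.coeff_zero_eq_eval_zero, Polynomial.coeff_zero_eq_eval_zero]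
    rcases he with rfl | rfl <;> simp [Polynomial.eval_comp]
  obtain ⟨P, hP⟩ : ∃ P : ℂ[X], P = C (u.coeff 0)⁻¹ * F := ⟨_, rfl⟩
  have hPc : ∀ k, P.coeff k = (u.coeff 0)⁻¹ * F.coeff k := by
    intro k; rw [hP, Polynomial.coeff_C_mul]
  have hP0 : P.coeff 0 = 1 := by rw [hPc, hF0, inv_mul_cancel₀ h0]
  have hFP : F = C (u.coeff 0) * P := by
    rw [hP, ← mul_assoc, ← C_mul, mul_inv_cancel₀ h0, C_1, one_mul]
  have hPF : ∀ k, P.coeff k ≠ 0 → F.coeff k ≠ 0 := by
    intro k hk hk'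
    exact hk (by rw [hPc, hk', mul_zero])
  have hPs : ∀ k, P.coeff k ≠ 0 → k ≤ 3 * n + e ∧ k % 3 ≠ 3 - e := fun k hk => hFs k (hPF k hk)
  have hdP : (X + 1 : ℂ[X]) ^ (2 * n + 1) ∣ P := by rw [hP]; exact hd.mul_left _
  obtain ⟨R, hR⟩ := u6_real (2 * n + 1) P (by rw [hP0]; simp) hdP (by
    intro B hB hBP hdB
    exact (u6_roots n e he B hB (fun k hk => hPs k (hBP k hk)) hdB).1)
  have hPne : P ≠ 0 := by
    intro h; rw [h, Polynomial.coeff_zero] at hP0; exact zero_ne_one hP0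
  have hRne : R ≠ 0 := by
    intro h; rw [h, Polynomial.map_zero] at hR; exact hPne hR.symm
  have hX : ((X + 1 : ℝ[X]) ^ (2 * n + 1)).map (algebraMap ℝ ℂ) = (X + 1) ^ (2 * n + 1) := by
    simp
  have hdR : (X + 1 : ℝ[X]) ^ (2 * n + 1) ∣ R := by
    rw [← Polynomial.map_dvd_map' (algebraMap ℝ ℂ), hX, hR]
    exact hdP
  have hRs : ∀ k, R.coeff k ≠ 0 → k ≤ 3 * n + e ∧ k % 3 ≠ 3 - e := by
    intro k hk
    refine hPs k ?_
    rw [← hR, Polynomial.coeff_map]
    intro h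
    apply hk
    exact Complex.ofReal_injective (by simpa using h)
  obtain ⟨-, hdeg, hroots⟩ := u6_roots n e he R hRne hRs hdR
  obtain ⟨Q, hQ⟩ := hdR
  have hQne : Q ≠ 0 := by
    intro h; rw [h, mul_zero] at hQ; exact hRne hQ
  have hXne : (X + 1 : ℝ[X]) ≠ 0 := by
    have : (X + 1 : ℝ[X]) = X + C 1 := by simp
    rw [this]; exact Polynomial.X_add_C_ne_zero 1
  have hXdeg : ((X + 1 : ℝ[X]) ^ (2 * n + 1)).natDegree = 2 * n + 1 := by
    have : (X + 1 : ℝ[X]) = X + C 1 := by simp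
    rw [Polynomial.natDegree_pow, this, Polynomial.natDegree_X_add_C, mul_one]
  have hPQ : P = (X + 1) ^ (2 * n + 1) * Q.map (algebraMap ℝ ℂ) := by
    rw [← hR, hQ, Polynomial.map_mul, hX]
  refine ⟨Q, ?_, ?_, ?_, ?_⟩
  · have h1 : R.natDegree = (2 * n + 1) + Q.natDegree := by
      rw [hQ, Polynomial.natDegree_mul (pow_ne_zero _ hXne) hQne, hXdeg]
    omega
  · have h1 : R.coeff 0 = Q.coeff 0 := by
      rw [hQ, Polynomial.mul_coeff_zero, Polynomial.coeff_zero_eq_eval_zero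
        ((X + 1 : ℝ[X]) ^ (2 * n + 1))]
      simp
    have h2 : ((R.coeff 0 : ℝ) : ℂ) = 1 := by
      rw [← hP0, ← hR, Polynomial.coeff_map]
      rfl
    rw [← h1]
    exact_mod_cast h2
  · rw [hFP, hPQ]
  · intro z hz
    have hPz : (R.map (algebraMap ℝ ℂ)).eval z = 0 := by
      rw [hR, hPQ, Polynomial.eval_mul, hz, mul_zero]
    rcases hroots z hPz with h1 | h1
    · exfalso
      -- the multiplicity of `-1` would be too large
      have hlt := rootMult_lt P hPne (-1) (by norm_num)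
      have hsc := u6_supp n e he P hPs
      have hdvd : (X - C (-1 : ℂ)) ^ (2 * n + 2) ∣ P := by
        have e1 : (X - C (-1 : ℂ)) = X + 1 := by
          rw [C_neg, C_1, sub_neg_eq_add]
        have e2 : (X - C (-1 : ℂ)) ∣ Q.map (algebraMap ℝ ℂ) := by
          rw [Polynomial.dvd_iff_isRoot, Polynomial.IsRoot, ← h1]
          exact hz
        rw [hPQ, pow_succ]
        rw [e1] at e2 ⊢
        exact mul_dvd_mul dvd_rfl e2
      have hge := (Polynomial.le_rootMultiplicity_iff hPne).2 hdvd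
      omega
    · exact h1

/-- reality of `t1` -/
theorem u6_t1_real (n : ℕ) (t1 : ℂ[X]) (VR : ℝ[X])
    (hE : ∀ x : ℂ, t1.eval (om * x) * (1 + om ^ 2 * x) ^ (2 * n + 1)
        + t1.eval (om ^ 2 * x) * (1 + om * x) ^ (2 * n + 1)
        = (1 + x) ^ (2 * n + 1) * (VR.map (algebraMap ℝ ℂ)).eval x) :
    ∀ k, (t1.coeff k).im = 0 := by
  obtain ⟨T, hT⟩ : ∃ T : ℂ[X], T = t1.map (starRingEnd ℂ) := ⟨_, rfl⟩
  have hTe : ∀ x : ℂ, T.eval (starRingEnd ℂ x) = starRingEnd ℂ (t1.eval x) := by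
    intro x; rw [hT]; exact u6_eval_conj t1 x
  have o4 : om ^ 4 = om := by
    rw [pow_succ, u6_om3, one_mul]
  have hE' : ∀ y : ℂ, T.eval (om * y) * (1 + om ^ 2 * y) ^ (2 * n + 1)
      + T.eval (om ^ 2 * y) * (1 + om * y) ^ (2 * n + 1)
      = (1 + y) ^ (2 * n + 1) *
        (VR.map (algebraMap ℝ ℂ)).eval y := by
    intro y
    have h1 := congrArg (starRingEnd ℂ) (hE (starRingEnd ℂ y))
    rw [map_add, map_mul, map_mul, map_mul, ← hTe, ← hTe, ← u6_eval_conj, u6_conj_real] at h1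
    simp only [map_mul, map_pow, map_add, map_one, Complex.conj_conj, u6_conj_om] at h1
    have o4' : (om ^ 2) ^ 2 = om := by rw [← pow_mul]; exact o4
    rw [o4'] at h1
    rw [← h1]
    ring
  have hD : ∀ y : ℂ, (t1 - T).eval (om * y) * (1 + om ^ 2 * y) ^ (2 * n + 1)
      + (t1 - T).eval (om ^ 2 * y) * (1 + om * y) ^ (2 * n + 1) = 0 := by
    intro y
    rw [Polynomial.eval_sub, Polynomial.eval_sub]
    linear_combination hE y - hE' y
  have hz : ∀ x : ℂ, (t1 - T).eval x * ((1 + om * x) ^ (2 * n + 1) *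
      (1 + om ^ 2 * x) ^ (2 * n + 1)) = 0 := by
    intro x
    have q1 := hD x
    have q2 := hD (om * x)
    have q3 := hD (om ^ 2 * x)
    have r1 : om * (om * x) = om ^ 2 * x := by ring
    have r2 : om ^ 2 * (om * x) = x := by
      have : om ^ 2 * (om * x) = om ^ 3 * x := by ring
      rw [this, u6_om3, one_mul]
    have r3 : om * (om ^ 2 * x) = x := by
      have : om * (om ^ 2 * x) = om ^ 3 * x := by ring
      rw [this, u6_om3, one_mul]
    have r4 : om ^ 2 * (om ^ 2 * x) = om * x := by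
      have : om ^ 2 * (om ^ 2 * x) = om ^ 4 * x := by ring
      rw [this, o4]
    rw [r1, r2] at q2
    rw [r3, r4] at q3
    linear_combination (1 / 2) * ((1 + om * x) ^ (2 * n + 1) * q2 +
      (1 + om ^ 2 * x) ^ (2 * n + 1) * q3 - (1 + x) ^ (2 * n + 1) * q1)
  have hpol : (t1 - T) * ((1 + C om * X) ^ (2 * n + 1) * (1 + C (om ^ 2) * X) ^ (2 * n + 1)) =
      0 := by
    refine Polynomial.funext fun x => ?_
    simp only [Polynomial.eval_mul, Polynomial.eval_pow, Polynomial.eval_add,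
      Polynomial.eval_one, Polynomial.eval_C, Polynomial.eval_X, Polynomial.eval_zero]
    exact hz x
  have hn1 : ∀ c : ℂ, (1 + C c * X : ℂ[X]) ≠ 0 := by
    intro c h0
    have := congrArg (fun q : ℂ[X] => q.eval 0) h0
    simp at this
  have hDz : t1 - T = 0 := by
    rcases mul_eq_zero.1 hpol with h1 | h1
    · exact h1
    · exact absurd h1 (mul_ne_zero (pow_ne_zero _ (hn1 _)) (pow_ne_zero _ (hn1 _)))
  intro k
  have h1 : t1.coeff k = starRingEnd ℂ (t1.coeff k) := by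
    have h2 := congrArg (fun q : ℂ[X] => q.coeff k) (sub_eq_zero.1 hDz)
    simp only [hT, Polynomial.coeff_map] at h2
    exact h2
  exact Complex.conj_eq_iff_im.1 h1.symm

theorem pert_roots (n : ℕ) (t1 t2 : ℂ[X]) (h : Pert n t1 t2) :
    (∀ k, (t1.coeff k).im = 0) ∧
    ∃ V : ℝ[X], V.natDegree = 2 * n + 1 ∧ V.coeff 0 < 0 ∧
      (∀ x : ℂ, t1.eval (om * x) * (1 + om ^ 2 * x) ^ (2 * n + 1)
        + t1.eval (om ^ 2 * x) * (1 + om * x) ^ (2 * n + 1)
        = (1 + x) ^ (2 * n + 1) * (V.map (algebraMap ℝ ℂ)).eval x) ∧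
      ∀ z : ℂ, (V.map (algebraMap ℝ ℂ)).eval z = 0 → ∃ r : ℝ, 0 < r ∧ z = r := by
  obtain ⟨u, v, g, w, hco, hw, hug, hv0, hw0, hdeg, hu, hg, hfac⟩ :=
    factor (2 * n + 1) (by omega) t1 h.deg1 h.bot1 h.top1 h.e2
  obtain ⟨V0, hV0⟩ := h.div1
  have hs3 : (Real.sqrt 3 : ℂ) ≠ 0 := by
    have : Real.sqrt 3 ≠ 0 := by positivity
    exact_mod_cast this
  have hc : (-2 * (Real.sqrt 3 : ℂ)) ≠ 0 := mul_ne_zero (by norm_num) hs3
  -- the polynomial identity
  have hid : (X + 1 : ℂ[X]) ^ (2 * (2 * n + 1)) * V0 = C (-2 * (Real.sqrt 3 : ℂ)) *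
      ((u.comp (X ^ 3) + X * v.comp (X ^ 3)) * (g.comp (X ^ 3) + X ^ 2 * w.comp (X ^ 3))) := by
    refine Polynomial.funext fun x => ?_
    have h1 := hfac x
    rw [hV0 x] at h1
    simp only [Polynomial.eval_mul, Polynomial.eval_pow, Polynomial.eval_add, Polynomial.eval_X,
      Polynomial.eval_one, Polynomial.eval_C, Polynomial.eval_comp]
    have h2 : (x + 1) ^ (2 * (2 * n + 1)) * V0.eval x =
        (1 + x) ^ (2 * n + 1) * V0.eval x * (1 + x) ^ (2 * n + 1) := by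
      rw [two_mul (2 * n + 1), pow_add]
      ring
    rw [h2, h1]
    ring
  have hdv : (X + 1 : ℂ[X]) ^ (2 * (2 * n + 1)) ∣ (u.comp (X ^ 3) + X * v.comp (X ^ 3))
      * (g.comp (X ^ 3) + X ^ 2 * w.comp (X ^ 3)) := by
    have h1 : (u.comp (X ^ 3) + X * v.comp (X ^ 3)) * (g.comp (X ^ 3) + X ^ 2 * w.comp (X ^ 3)) =
        C (-2 * (Real.sqrt 3 : ℂ))⁻¹ * ((X + 1 : ℂ[X]) ^ (2 * (2 * n + 1)) * V0) := by
      rw [hid, ← mul_assoc, ← C_mul, inv_mul_cancel₀ hc, C_1, one_mul]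
    rw [h1]
    exact Dvd.dvd.mul_left (dvd_mul_right _ _) _
  obtain ⟨hvn, hwn, dF, dG⟩ := balanced n u v g w hco hw hv0 hw0 (by omega) hu hg hdv
  have hu0 : u.coeff 0 ≠ 0 := by
    intro h0; rw [h0, zero_mul] at hug; exact zero_ne_one hug
  have hg0 : g.coeff 0 ≠ 0 := by
    intro h0; rw [h0, mul_zero] at hug; exact zero_ne_one hug
  obtain ⟨Q, hQd, hQ0, hQF, hQr⟩ := u6_half n 1 (Or.inl rfl) u v (by omega) (by omega) hu0
    (by rw [pow_one]; exact dF)
  obtain ⟨P, hPd, hP0, hPG, hPr⟩ := u6_half n 2 (Or.inr rfl) g w (by omega) (by omega) hg0 dG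
  rw [pow_one] at hQF
  have hQne : Q ≠ 0 := by
    intro h0; rw [h0, Polynomial.coeff_zero] at hQ0; exact zero_ne_one hQ0
  have hPne : P ≠ 0 := by
    intro h0; rw [h0, Polynomial.coeff_zero] at hP0; exact zero_ne_one hP0
  have hcR : (-2 * Real.sqrt 3) ≠ 0 := mul_ne_zero (by norm_num) (by positivity)
  have hXne : (X + 1 : ℂ[X]) ≠ 0 := by
    have : (X + 1 : ℂ[X]) = X + C 1 := by simp
    rw [this]; exact Polynomial.X_add_C_ne_zero 1
  -- the quotient is real
  have hVV : V0 = (C (-2 * Real.sqrt 3) * (Q * P)).map (algebraMap ℝ ℂ) := by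
    apply mul_left_cancel₀ (pow_ne_zero (2 * (2 * n + 1)) hXne)
    rw [hid, hQF, hPG, Polynomial.map_mul, Polynomial.map_mul, Polynomial.map_C]
    have e1 : (algebraMap ℝ ℂ) (-2 * Real.sqrt 3) = -2 * (Real.sqrt 3 : ℂ) := by
      simp
    rw [e1]
    have e2 : (C (u.coeff 0) : ℂ[X]) * C (g.coeff 0) = 1 := by
      rw [← C_mul, hug, C_1]
    have e3 : (X + 1 : ℂ[X]) ^ (2 * (2 * n + 1)) =
        (X + 1) ^ (2 * n + 1) * (X + 1) ^ (2 * n + 1) := by
      rw [two_mul (2 * n + 1), pow_add]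
    rw [e3]
    linear_combination (C (-2 * (Real.sqrt 3 : ℂ)) * ((X + 1) ^ (2 * n + 1) *
      (X + 1) ^ (2 * n + 1)) * Q.map (algebraMap ℝ ℂ) * P.map (algebraMap ℝ ℂ)) * e2
  have hE : ∀ x : ℂ, t1.eval (om * x) * (1 + om ^ 2 * x) ^ (2 * n + 1)
        + t1.eval (om ^ 2 * x) * (1 + om * x) ^ (2 * n + 1)
        = (1 + x) ^ (2 * n + 1) *
          ((C (-2 * Real.sqrt 3) * (Q * P)).map (algebraMap ℝ ℂ)).eval x := by
    intro x
    rw [hV0 x, hVV]
  refine ⟨?_, C (-2 * Real.sqrt 3) * (Q * P), ?_, ?_, hE, ?_⟩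
  · exact u6_t1_real n t1 _ hE
  · rw [Polynomial.natDegree_C_mul hcR, Polynomial.natDegree_mul hQne hPne]
    omega
  · rw [Polynomial.coeff_C_mul, Polynomial.mul_coeff_zero, hQ0, hP0]
    have : 0 < Real.sqrt 3 := by positivity
    linarith
  · intro z hz
    rw [Polynomial.map_mul, Polynomial.map_mul, Polynomial.map_C, Polynomial.eval_mul,
      Polynomial.eval_C, Polynomial.eval_mul] at hz
    have e1 : (algebraMap ℝ ℂ) (-2 * Real.sqrt 3) ≠ 0 := by
      simp
    rcases mul_eq_zero.1 hz with h1 | h1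
    · exact absurd h1 e1
    · rcases mul_eq_zero.1 h1 with h2 | h2
      · exact hQr z h2
      · exact hPr z h2

end H906K
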