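import Pool.Agent.H906R3.K6.G1a
import Pool.Agent.H906R3.K6.U6

/-!
Task G1: real polynomials from the perturbation data.
-/

namespace H906K
open Polynomial

theorem rpert_of_pert (n : ℕ) (t1 t2 : ℂ[X]) (h : Pert n t1 t2) :
    ∃ s1 s2 V1 V2 : ℝ[X], RPert n s1 s2 V1 V2 ∧ t1 = s1.map (algebraMap ℝ ℂ) ∧
      ∀ k, s2.coeff k = (t2.coeff k).re :=
  rpert_of_pert_aux n t1 t2 h (pert_roots n t1 t2 h)

end H906K
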