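import Pool.Agent.H906R3.K6.Defs2

/-! Analyticity, bounds, reality and limits of the function `Xc`. -/

namespace H906K
open Pool.Agent.H974R3 Polynomial MeasureTheory Filter Topology

/-- the polynomial `∑ t_j s^j (1-s)^(N-j)` -/
noncomputable def g3aQ {F : Type*} [Field F] (N : ℕ) (p : F[X]) : F[X] :=
  ∑ j ∈ Finset.range (N + 1), C (p.coeff j) * (X ^ j * (1 - X) ^ (N - j))

theorem g3a_rep {F : Type*} [Field F] (N : ℕ) (p : F[X]) (hp : p.natDegree ≤ N) (x : F)
    (hx : 1 + x ≠ 0) : p.eval x / (1 + x) ^ N = (g3aQ N p).eval (x / (1 + x)) := by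
  unfold g3aQ
  rw [eval_finsetSum, Polynomial.eval_eq_sum_range' (Nat.lt_succ_of_le hp), Finset.sum_div]
  apply Finset.sum_congr rfl
  intro j hj
  have hj' : j ≤ N := Nat.lt_succ_iff.1 (Finset.mem_range.1 hj)
  have h1 : 1 - x / (1 + x) = 1 / (1 + x) := by field_simp; ring
  simp only [eval_mul, eval_C, eval_pow, eval_X, eval_sub, eval_one]
  rw [h1, div_pow, div_pow, one_pow, div_mul_div_comm, mul_one, ← pow_add, Nat.add_sub_cancel' hj',
    mul_div_assoc]

theorem g3a_Q1 {F : Type*} [Field F] (N : ℕ) (p : F[X]) : (g3aQ N p).eval 1 = p.coeff N := by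
  unfold g3aQ
  rw [eval_finsetSum, Finset.sum_eq_single N]
  · simp
  · intro j hj hjN
    have : N - j ≠ 0 := by
      have := Finset.mem_range.1 hj
      omega
    simp [this]
  · intro h
    exact absurd (Finset.mem_range.2 (Nat.lt_succ_self N)) h

theorem g3a_Q0 {F : Type*} [Field F] (N : ℕ) (p : F[X]) : (g3aQ N p).eval 0 = p.coeff 0 := by
  unfold g3aQ
  rw [eval_finsetSum, Finset.sum_eq_single 0]
  · simp
  · intro j hj hj0
    simp [hj0]
  · intro h
    exact absurd (Finset.mem_range.2 (Nat.succ_pos N)) h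

/-- lower bound for the denominator -/
theorem g3a_den (z : ℂ) (hz : |z.im| ≤ 2 * Real.pi / 3) :
    (1 + ‖Complex.exp z‖) / 2 ≤ ‖1 + Complex.exp z‖ := by
  have hpi := Real.pi_pos
  have hc : -(1 / 2) ≤ Real.cos z.im := by
    rw [← Real.cos_abs]
    have h1 : Real.cos (2 * Real.pi / 3) = -(1 / 2) := by
      have : 2 * Real.pi / 3 = Real.pi - Real.pi / 3 := by ring
      rw [this, Real.cos_pi_sub, Real.cos_pi_div_three]
    rw [← h1]
    exact Real.cos_le_cos_of_nonneg_of_le_pi (abs_nonneg _) (by linarith) hz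
  rw [Complex.norm_exp]
  have hr := Real.exp_pos z.re
  apply le_of_sq_le_sq _ (norm_nonneg _)
  rw [← Complex.normSq_eq_norm_sq, Complex.normSq_apply]
  simp only [Complex.add_re, Complex.one_re, Complex.add_im, Complex.one_im, Complex.exp_re,
    Complex.exp_im]
  have hs := Real.sin_sq_add_cos_sq z.im
  have e : (1 + Real.exp z.re * Real.cos z.im) * (1 + Real.exp z.re * Real.cos z.im)
      + (0 + Real.exp z.re * Real.sin z.im) * (0 + Real.exp z.re * Real.sin z.im)
      = 1 + 2 * Real.exp z.re * Real.cos z.im + Real.exp z.re ^ 2 := by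
    linear_combination Real.exp z.re ^ 2 * hs
  rw [e]
  nlinarith [sq_nonneg (1 - Real.exp z.re), mul_le_mul_of_nonneg_left hc hr.le]

theorem g3a_ne (z : ℂ) (hz : |z.im| ≤ 2 * Real.pi / 3) : 1 + Complex.exp z ≠ 0 := by
  intro h
  have := g3a_den z hz
  rw [h, norm_zero] at this
  have := norm_nonneg (Complex.exp z)
  linarith

theorem g3a_diff (n : ℕ) (t : ℝ[X]) (z : ℂ) (hz : |z.im| ≤ 2 * Real.pi / 3) :
    DifferentiableAt ℂ (Xc n t) z := by
  unfold Xc
  apply DifferentiableAt.div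
  · exact (Polynomial.differentiable _).differentiableAt.comp z
      Complex.differentiable_exp.differentiableAt
  · exact ((differentiableAt_const _).add Complex.differentiable_exp.differentiableAt).pow _
  · exact pow_ne_zero _ (g3a_ne z hz)

theorem g3a_bound (n : ℕ) (t : ℝ[X]) (ht : t.natDegree ≤ 2 * n + 1) :
    ∃ K : ℝ, ∀ z : ℂ, |z.im| ≤ 2 * Real.pi / 3 → ‖Xc n t z‖ ≤ K := by
  have hd : (t.map (algebraMap ℝ ℂ)).natDegree ≤ 2 * n + 1 :=
    (Polynomial.natDegree_map_le).trans ht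
  obtain ⟨K, hK⟩ := (isCompact_closedBall (0 : ℂ) 2).exists_bound_of_continuousOn
    (f := fun w => (g3aQ (2 * n + 1) (t.map (algebraMap ℝ ℂ))).eval w)
    (Polynomial.continuous _).continuousOn
  refine ⟨K, fun z hz => ?_⟩
  unfold Xc
  rw [g3a_rep _ _ hd _ (g3a_ne z hz)]
  apply hK
  rw [mem_closedBall_zero_iff, norm_div, div_le_iff₀ (norm_pos_iff.2 (g3a_ne z hz))]
  have := g3a_den z hz
  linarith

/-- the real function -/
theorem g3a_real (n : ℕ) (t : ℝ[X]) (u : ℝ) :
    Xc n t u = ((t.eval (Real.exp u) / (1 + Real.exp u) ^ (2 * n + 1) : ℝ) : ℂ) := by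
  unfold Xc
  rw [← Complex.ofReal_exp]
  have : (t.map (algebraMap ℝ ℂ)).eval ((Real.exp u : ℝ) : ℂ) = ((t.eval (Real.exp u) : ℝ) : ℂ) := by
    rw [Polynomial.eval_map]
    exact Polynomial.eval₂_at_apply (algebraMap ℝ ℂ) (Real.exp u)
  rw [this]
  push_cast
  rfl

theorem g3a_s_deriv (u : ℝ) : HasDerivAt (fun u : ℝ => Real.exp u / (1 + Real.exp u))
    (Real.exp u / (1 + Real.exp u) ^ 2) u := by
  have hu : 1 + Real.exp u ≠ 0 := by have := Real.exp_pos u; positivity
  have h := (Real.hasDerivAt_exp u).div ((Real.hasDerivAt_exp u).const_add 1) hu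
  have e : (Real.exp u * (1 + Real.exp u) - Real.exp u * Real.exp u) / (1 + Real.exp u) ^ 2 =
      Real.exp u / (1 + Real.exp u) ^ 2 := by
    congr 1
    ring
  rw [e] at h
  exact h

theorem g3a_s_top : Tendsto (fun u : ℝ => Real.exp u / (1 + Real.exp u)) atTop (𝓝 1) := by
  have h1 : Tendsto (fun u : ℝ => 1 + Real.exp u) atTop atTop :=
    tendsto_atTop_add_const_left _ _ Real.tendsto_exp_atTop
  have h2 : Tendsto (fun u : ℝ => 1 - (1 + Real.exp u)⁻¹) atTop (𝓝 (1 - 0)) :=
    tendsto_const_nhds.sub (tendsto_inv_atTop_zero.comp h1)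
  rw [sub_zero] at h2
  refine h2.congr fun u => ?_
  have hu : 1 + Real.exp u ≠ 0 := by have := Real.exp_pos u; positivity
  field_simp
  ring

theorem g3a_s_bot : Tendsto (fun u : ℝ => Real.exp u / (1 + Real.exp u)) atBot (𝓝 0) := by
  have h1 : Tendsto (fun u : ℝ => 1 + Real.exp u) atBot (𝓝 (1 + 0)) :=
    tendsto_const_nhds.add Real.tendsto_exp_atBot
  have h2 := Real.tendsto_exp_atBot.div h1 (by norm_num)
  rw [zero_div] at h2
  exact h2

theorem g3a_quad (u : ℝ) : Real.exp u / (1 + Real.exp u) ^ 2 ≤ 2 * (1 + u ^ 2)⁻¹ := by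
  have he := Real.exp_pos u
  rw [div_le_iff₀ (by positivity), mul_assoc, ← div_eq_inv_mul, ← mul_div_assoc,
    le_div_iff₀ (by positivity)]
  rcases le_total 0 u with hu | hu
  · have h := Real.quadratic_le_exp_of_nonneg hu
    nlinarith [mul_le_mul_of_nonneg_left h he.le, sq_nonneg u]
  · have h := Real.quadratic_le_exp_of_nonneg (x := -u) (by linarith)
    have h2 : Real.exp u * Real.exp (-u) = 1 := by rw [← Real.exp_add]; simp
    have h3 := mul_le_mul_of_nonneg_left h he.le
    rw [h2] at h3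
    nlinarith [sq_nonneg u]

theorem Xc_an (n : ℕ) (t : ℝ[X]) (ht : t.natDegree ≤ 2 * n + 1) :
    (∀ z : ℂ, |z.im| ≤ 2 * Real.pi / 3 → DifferentiableAt ℂ (Xc n t) z) ∧
    (∃ K : ℝ, ∀ z : ℂ, |z.im| ≤ 2 * Real.pi / 3 → ‖Xc n t z‖ ≤ K) ∧
    (∀ u : ℝ, (Xc n t u).im = 0) ∧ Nice (fun u : ℝ => (Xc n t u).re) ∧
    Tendsto (fun u : ℝ => (Xc n t u).re) atTop (𝓝 (t.coeff (2 * n + 1))) ∧
    Tendsto (fun u : ℝ => (Xc n t u).re) atBot (𝓝 (t.coeff 0)) := by
  have hf : (fun u : ℝ => (Xc n t u).re) =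
      fun u : ℝ => (g3aQ (2 * n + 1) t).eval (Real.exp u / (1 + Real.exp u)) := by
    funext u
    have hu : 1 + Real.exp u ≠ 0 := by have := Real.exp_pos u; positivity
    rw [g3a_real, Complex.ofReal_re, g3a_rep _ _ ht _ hu]
  refine ⟨g3a_diff n t, g3a_bound n t ht, fun u => by rw [g3a_real, Complex.ofReal_im], ?_, ?_, ?_⟩
  · rw [hf]
    set Q := g3aQ (2 * n + 1) t
    have hd : ∀ u : ℝ, HasDerivAt (fun u : ℝ => Q.eval (Real.exp u / (1 + Real.exp u)))
        (Q.derivative.eval (Real.exp u / (1 + Real.exp u)) *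
          (Real.exp u / (1 + Real.exp u) ^ 2)) u := fun u =>
      (Q.hasDerivAt _).comp u (g3a_s_deriv u)
    have hdf : deriv (fun u : ℝ => Q.eval (Real.exp u / (1 + Real.exp u))) = fun u =>
        (Q.derivative.eval (Real.exp u / (1 + Real.exp u)) *
          (Real.exp u / (1 + Real.exp u) ^ 2)) := funext fun u => (hd u).deriv
    have hcs : Continuous (fun u : ℝ => Real.exp u / (1 + Real.exp u)) :=
      continuous_iff_continuousAt.2 fun u => (g3a_s_deriv u).continuousAt
    have hc : Continuous (fun u : ℝ => Q.derivative.eval (Real.exp u / (1 + Real.exp u)) *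
          (Real.exp u / (1 + Real.exp u) ^ 2)) := by
      apply ((Polynomial.continuous _).comp hcs).mul
      apply Real.continuous_exp.div₀ ((continuous_const.add Real.continuous_exp).pow 2)
      intro u
      have := Real.exp_pos u
      have h1 : 0 < 1 + Real.exp u := by positivity
      exact pow_ne_zero 2 h1.ne'
    refine ⟨fun u => (hd u).differentiableAt, ?_, ?_⟩
    · rw [hdf]; exact hc
    · rw [hdf]
      obtain ⟨K, hK⟩ := (isCompact_Icc (a := (0 : ℝ)) (b := 1)).exists_bound_of_continuousOn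
        (f := fun w => Q.derivative.eval w) (Polynomial.continuous _).continuousOn
      have hK0 : 0 ≤ K := (norm_nonneg _).trans (hK 0 (by simp))
      refine Integrable.mono' ((integrable_inv_one_add_sq.const_mul (2 * K)))
        hc.aestronglyMeasurable (Eventually.of_forall fun u => ?_)
      have he := Real.exp_pos u
      rw [norm_mul]
      have h1 : ‖Real.exp u / (1 + Real.exp u) ^ 2‖ ≤ 2 * (1 + u ^ 2)⁻¹ := by
        rw [Real.norm_of_nonneg (by positivity)]
        exact g3a_quad u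
      have h2 := hK (Real.exp u / (1 + Real.exp u)) ⟨by positivity, by
        rw [div_le_one (by positivity)]; linarith⟩
      calc _ ≤ K * (2 * (1 + u ^ 2)⁻¹) := mul_le_mul h2 h1 (norm_nonneg _) hK0
        _ = 2 * K * (1 + u ^ 2)⁻¹ := by ring
  · rw [hf]
    have h := ((Polynomial.continuous (g3aQ (2 * n + 1) t)).tendsto 1).comp g3a_s_top
    rw [g3a_Q1] at h
    exact h
  · rw [hf]
    have h := ((Polynomial.continuous (g3aQ (2 * n + 1) t)).tendsto 0).comp g3a_s_bot
    rw [g3a_Q0] at h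
    exact h

end H906K
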