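import Pool.Agent.H906R3.K6.Defs2

/-! G3b: analytic properties of `Bc`. -/

namespace H906K
open Pool.Agent.H974R3 Polynomial MeasureTheory Filter Topology

theorem g3b_reflect {K : Type*} [Field K] (N : ℕ) (p : K[X]) (hp : p.natDegree ≤ N) (w : K)
    (hw : w ≠ 0) : p.eval w = (p.reflect N).eval w⁻¹ * w ^ N := by
  have : Invertible w := invertibleOfNonzero hw
  have h := Polynomial.eval₂_reflect_mul_pow (RingHom.id K) w N p hp
  rw [invOf_eq_inv] at h
  simpa [Polynomial.eval₂_id] using h.symm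

theorem g3b_reflect0 {K : Type*} [Field K] (N : ℕ) (p : K[X]) :
    (p.reflect N).eval 0 = p.coeff N := by
  rw [← Polynomial.coeff_zero_eq_eval_zero, Polynomial.coeff_reflect]
  simp [Polynomial.revAt_zero]

/-- quotient under inversion -/
theorem g3b_quot {K : Type*} [Field K] (N : ℕ) (p q : K[X]) (hp : p.natDegree ≤ N)
    (hq : q.natDegree ≤ N) (w : K) (hw : w ≠ 0) :
    q.eval w / p.eval w = (q.reflect N).eval w⁻¹ / (p.reflect N).eval w⁻¹ := by
  rw [g3b_reflect N p hp w hw, g3b_reflect N q hq w hw]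
  rw [mul_div_mul_right _ _ (pow_ne_zero N hw)]

/-- the reflected denominator has no zeros in the closed left half plane -/
theorem g3b_ne {N : ℕ} {p : ℂ[X]} (hp : p.natDegree ≤ N) (hN : p.coeff N ≠ 0)
    (h : ∀ w : ℂ, w.re ≤ 0 → p.eval w ≠ 0) (w : ℂ) (hw : w.re ≤ 0) :
    (p.reflect N).eval w ≠ 0 := by
  by_cases h0 : w = 0
  · rw [h0, g3b_reflect0]; exact hN
  · intro h1
    have h2 : w⁻¹ ≠ 0 := inv_ne_zero h0
    have h3 := g3b_reflect N p hp w⁻¹ h2
    rw [inv_inv, h1, zero_mul] at h3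
    refine h w⁻¹ ?_ h3
    rw [Complex.inv_re]
    exact div_nonpos_of_nonpos_of_nonneg hw (Complex.normSq_nonneg w)

/-- boundedness on the part of the closed left half plane in the closed unit disk -/
theorem g3b_bdd (p q : ℂ[X]) (h : ∀ w : ℂ, w.re ≤ 0 → p.eval w ≠ 0) :
    ∃ K : ℝ, ∀ w : ℂ, w.re ≤ 0 → ‖w‖ ≤ 1 → ‖q.eval w / p.eval w‖ ≤ K := by
  have hc : IsCompact ({w : ℂ | w.re ≤ 0} ∩ Metric.closedBall 0 1) :=
    (isCompact_closedBall (0 : ℂ) 1).inter_left (isClosed_le Complex.continuous_re continuous_const)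
  obtain ⟨K, hK⟩ := hc.exists_bound_of_continuousOn (f := fun w => q.eval w / p.eval w) (by
    apply ContinuousOn.div
    · exact q.continuous.continuousOn
    · exact p.continuous.continuousOn
    · intro w hw; exact h w hw.1)
  refine ⟨K, fun w hw hw1 => hK w ⟨hw, ?_⟩⟩
  simpa using hw1

/-- the exponential on the strip -/
theorem g3b_re {z : ℂ} (hz : |z.im| ≤ Real.pi / 3) : (-Complex.exp z).re ≤ 0 := by
  rw [Complex.neg_re, Complex.exp_re]
  have hpi := Real.pi_pos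
  have : 0 ≤ Real.cos z.im := by
    apply Real.cos_nonneg_of_mem_Icc
    rw [abs_le] at hz
    constructor <;> linarith
  have := mul_nonneg (Real.exp_pos z.re).le this
  linarith

/-- boundedness on the strip -/
theorem g3b_strip {N : ℕ} (p q : ℂ[X]) (hp : p.natDegree ≤ N) (hq : q.natDegree ≤ N)
    (hN : p.coeff N ≠ 0) (h : ∀ w : ℂ, w.re ≤ 0 → p.eval w ≠ 0) :
    ∃ K : ℝ, ∀ z : ℂ, |z.im| ≤ Real.pi / 3 →
      ‖q.eval (-Complex.exp z) / p.eval (-Complex.exp z)‖ ≤ K := by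
  obtain ⟨K1, hK1⟩ := g3b_bdd p q h
  obtain ⟨K2, hK2⟩ := g3b_bdd (p.reflect N) (q.reflect N) (g3b_ne hp hN h)
  refine ⟨max K1 K2, fun z hz => ?_⟩
  have hre := g3b_re hz
  rcases le_total z.re 0 with h0 | h0
  · refine (hK1 _ hre ?_).trans (le_max_left _ _)
    rw [norm_neg, Complex.norm_exp]
    exact Real.exp_le_one_iff.2 h0
  · refine le_trans ?_ (le_max_right K1 K2)
    rw [g3b_quot N p q hp hq _ (neg_ne_zero.2 (Complex.exp_ne_zero z))]
    have e1 : (-Complex.exp z)⁻¹ = -Complex.exp (-z) := by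
      rw [Complex.exp_neg, inv_neg]
    rw [e1]
    apply hK2
    · apply g3b_re; simpa using hz
    · rw [norm_neg, Complex.norm_exp]
      apply Real.exp_le_one_iff.2
      simpa using h0

/-! ### the real function -/

/-- real rational function in `-e^u` -/
noncomputable def g3b_g (p q : ℝ[X]) (u : ℝ) : ℝ := q.eval (-Real.exp u) / p.eval (-Real.exp u)

/-- its derivative -/
noncomputable def g3b_d (p q : ℝ[X]) (u : ℝ) : ℝ :=
  (q.derivative.eval (-Real.exp u) * p.eval (-Real.exp u)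
    - q.eval (-Real.exp u) * p.derivative.eval (-Real.exp u)) / (p.eval (-Real.exp u)) ^ 2
    * (-Real.exp u)

theorem g3b_hasDeriv (p q : ℝ[X]) (h : ∀ y : ℝ, y ≤ 0 → p.eval y ≠ 0) (u : ℝ) :
    HasDerivAt (g3b_g p q) (g3b_d p q u) u := by
  have e1 : HasDerivAt (fun u : ℝ => -Real.exp u) (-Real.exp u) u := (Real.hasDerivAt_exp u).neg
  have hp := (p.hasDerivAt (-Real.exp u)).comp u e1
  have hq := (q.hasDerivAt (-Real.exp u)).comp u e1
  have hne : p.eval (-Real.exp u) ≠ 0 := h _ (by have := Real.exp_pos u; linarith)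
  have := hq.div hp hne
  refine HasDerivAt.congr_deriv this ?_
  unfold g3b_d
  simp only [Function.comp_apply]
  ring

theorem g3b_contd (p q : ℝ[X]) (h : ∀ y : ℝ, y ≤ 0 → p.eval y ≠ 0) :
    Continuous (g3b_d p q) := by
  unfold g3b_d
  have e1 : Continuous (fun u : ℝ => -Real.exp u) := Real.continuous_exp.neg
  refine Continuous.mul (Continuous.div ?_ ?_ ?_) e1
  · exact ((q.derivative.continuous.comp e1).mul (p.continuous.comp e1)).sub
      ((q.continuous.comp e1).mul (p.derivative.continuous.comp e1))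
  · exact (p.continuous.comp e1).pow 2
  · intro u
    exact pow_ne_zero 2 (h _ (by have := Real.exp_pos u; linarith))

theorem g3b_dbound (p q : ℝ[X]) (h : ∀ y : ℝ, y ≤ 0 → p.eval y ≠ 0) :
    ∃ C : ℝ, ∀ u : ℝ, u ≤ 0 → |g3b_d p q u| ≤ C * Real.exp u := by
  obtain ⟨C, hC⟩ := (isCompact_Icc (a := (-1 : ℝ)) (b := 0)).exists_bound_of_continuousOn
    (f := fun y => (q.derivative.eval y * p.eval y - q.eval y * p.derivative.eval y)
      / (p.eval y) ^ 2) (by
      apply ContinuousOn.div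
      · exact ((q.derivative.continuous.mul p.continuous).sub
          (q.continuous.mul p.derivative.continuous)).continuousOn
      · exact (p.continuous.pow 2).continuousOn
      · intro y hy; exact pow_ne_zero 2 (h y hy.2))
  refine ⟨C, fun u hu => ?_⟩
  have h1 := hC (-Real.exp u) ⟨by
    have := Real.exp_le_one_iff.2 hu; linarith, by have := Real.exp_pos u; linarith⟩
  unfold g3b_d
  rw [abs_mul, abs_neg, abs_of_pos (Real.exp_pos u)]
  exact mul_le_mul_of_nonneg_right h1 (Real.exp_pos u).le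

theorem g3b_lim (p q : ℝ[X]) (h : ∀ y : ℝ, y ≤ 0 → p.eval y ≠ 0) :
    Tendsto (g3b_g p q) atBot (𝓝 (q.eval 0 / p.eval 0)) := by
  have e1 : Tendsto (fun u : ℝ => -Real.exp u) atBot (𝓝 0) := by
    have := Real.tendsto_exp_atBot.neg
    simpa using this
  exact ((q.continuous.tendsto 0).comp e1).div ((p.continuous.tendsto 0).comp e1) (h 0 le_rfl)

theorem g3b_gneg {N : ℕ} (p q : ℝ[X]) (hp : p.natDegree ≤ N) (hq : q.natDegree ≤ N) (u : ℝ) :
    g3b_g p q u = g3b_g (p.reflect N) (q.reflect N) (-u) := by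
  unfold g3b_g
  rw [g3b_quot N p q hp hq _ (neg_ne_zero.2 (Real.exp_ne_zero u))]
  have e1 : (-Real.exp u)⁻¹ = -Real.exp (-u) := by
    rw [Real.exp_neg, inv_neg]
  rw [e1]

theorem g3b_nice {N : ℕ} (p q : ℝ[X]) (hp : p.natDegree ≤ N) (hq : q.natDegree ≤ N)
    (h : ∀ y : ℝ, y ≤ 0 → p.eval y ≠ 0)
    (h' : ∀ y : ℝ, y ≤ 0 → (p.reflect N).eval y ≠ 0) :
    Nice (g3b_g p q) ∧
    Tendsto (g3b_g p q) atTop (𝓝 (q.coeff N / p.coeff N)) ∧
    Tendsto (g3b_g p q) atBot (𝓝 (q.coeff 0 / p.coeff 0)) := by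
  have hd : deriv (g3b_g p q) = g3b_d p q := funext fun u => (g3b_hasDeriv p q h u).deriv
  have hd2 : ∀ u, g3b_d p q u = -g3b_d (p.reflect N) (q.reflect N) (-u) := by
    intro u
    have a1 := g3b_hasDeriv p q h u
    have a2 := g3b_hasDeriv (p.reflect N) (q.reflect N) h' (-u)
    have a3 : HasDerivAt (fun u : ℝ => -u) (-1) u := hasDerivAt_neg u
    have a4 := a2.comp u a3
    have a5 : g3b_g (p.reflect N) (q.reflect N) ∘ (fun u : ℝ => -u) = g3b_g p q := by
      funext v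
      exact (g3b_gneg p q hp hq v).symm
    rw [a5] at a4
    have := a1.unique a4
    rw [this]; ring
  refine ⟨⟨fun u => (g3b_hasDeriv p q h u).differentiableAt, ?_, ?_⟩, ?_, ?_⟩
  · rw [hd]; exact g3b_contd p q h
  · rw [hd]
    obtain ⟨C1, hC1⟩ := g3b_dbound p q h
    obtain ⟨C2, hC2⟩ := g3b_dbound (p.reflect N) (q.reflect N) h'
    have hcont := g3b_contd p q h
    have i1 : IntegrableOn (g3b_d p q) (Set.Iic 0) := by
      refine Integrable.mono' ((integrableOn_exp_Iic 0).const_mul C1)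
        hcont.aestronglyMeasurable ?_
      refine (ae_restrict_iff' measurableSet_Iic).2 (Eventually.of_forall fun u hu => ?_)
      exact hC1 u hu
    have i2 : IntegrableOn (g3b_d p q) (Set.Ioi 0) := by
      refine Integrable.mono' ((integrableOn_exp_neg_Ioi 0).const_mul C2)
        hcont.aestronglyMeasurable ?_
      refine (ae_restrict_iff' measurableSet_Ioi).2 (Eventually.of_forall fun u hu => ?_)
      rw [hd2, norm_neg]
      exact hC2 (-u) (by have : (0 : ℝ) < u := hu; linarith)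
    have := i1.union i2
    rw [Set.Iic_union_Ioi, integrableOn_univ] at this
    exact this
  · have := (g3b_lim (p.reflect N) (q.reflect N) h').comp tendsto_neg_atTop_atBot
    rw [g3b_reflect0, g3b_reflect0] at this
    refine this.congr fun u => ?_
    exact (g3b_gneg p q hp hq u).symm
  · have := g3b_lim p q h
    rwa [← Polynomial.coeff_zero_eq_eval_zero, ← Polynomial.coeff_zero_eq_eval_zero] at this

theorem g3b_om3 : om ^ 3 = 1 := by
  have h3 : Real.sqrt 3 ^ 2 = 3 := Real.sq_sqrt (by norm_num)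
  have e : om ^ 3 = om * om * om := by ring
  rw [e]
  apply Complex.ext
  · simp only [om, Complex.mul_re, Complex.mul_im, Complex.one_re]
    nlinarith [h3]
  · simp only [om, Complex.mul_re, Complex.mul_im, Complex.one_im]
    linear_combination (-(Real.sqrt 3) / 8) * h3

theorem g3b_natdeg (a : ℂ) : (C a * X : ℂ[X]).natDegree ≤ 1 := by
  refine (Polynomial.natDegree_C_mul_le a X).trans Polynomial.natDegree_X_le

theorem g3b_coeff {N : ℕ} (t : ℂ[X]) (ht : t.natDegree ≤ N) (a b : ℂ) :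
    (t.comp (C a * X) * (1 + C b * X) ^ N).coeff (N + N) = t.coeff N * a ^ N * b ^ N := by
  have d1 : (t.comp (C a * X)).natDegree ≤ N := by
    refine Polynomial.natDegree_comp_le.trans ?_
    have : (C a * X : ℂ[X]).natDegree ≤ 1 := g3b_natdeg a
    calc t.natDegree * (C a * X : ℂ[X]).natDegree ≤ N * 1 := Nat.mul_le_mul ht this
      _ = N := mul_one N
  have d2 : (1 + C b * X : ℂ[X]).natDegree ≤ 1 := by
    refine Polynomial.natDegree_add_le_of_degree_le ?_ (g3b_natdeg b)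
    simp
  have d3 : ((1 + C b * X : ℂ[X]) ^ N).natDegree ≤ N := by
    refine (Polynomial.natDegree_pow_le).trans ?_
    calc N * (1 + C b * X : ℂ[X]).natDegree ≤ N * 1 := Nat.mul_le_mul le_rfl d2
      _ = N := mul_one N
  rw [Polynomial.coeff_mul_add_eq_of_natDegree_le d1 d3, Polynomial.comp_C_mul_X_coeff]
  congr 1
  have := Polynomial.coeff_pow_of_natDegree_le (m := N) d2
  rw [mul_one] at this
  rw [this]
  simp [Polynomial.coeff_one]

theorem g3b_coeff1 {N : ℕ} (V : ℂ[X]) (ht : V.natDegree ≤ N) :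
    ((1 + X) ^ N * V).coeff (N + N) = V.coeff N := by
  have d2 : (1 + X : ℂ[X]).natDegree ≤ 1 := by
    refine Polynomial.natDegree_add_le_of_degree_le ?_ Polynomial.natDegree_X_le
    simp
  have d3 : ((1 + X : ℂ[X]) ^ N).natDegree ≤ N := by
    refine (Polynomial.natDegree_pow_le).trans ?_
    calc N * (1 + X : ℂ[X]).natDegree ≤ N * 1 := Nat.mul_le_mul le_rfl d2
      _ = N := mul_one N
  rw [Polynomial.coeff_mul_add_eq_of_natDegree_le d3 ht]
  have := Polynomial.coeff_pow_of_natDegree_le (m := N) d2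
  rw [mul_one] at this
  rw [this]
  simp [Polynomial.coeff_one]

theorem g3b_coeff2 {N : ℕ} (t : ℂ[X]) (ht : t.natDegree ≤ N) (a b : ℂ) :
    (t.comp (C a * X) * t.comp (C b * X)).coeff (N + N)
      = (t.coeff N * a ^ N) * (t.coeff N * b ^ N) := by
  have d1 : ∀ a : ℂ, (t.comp (C a * X)).natDegree ≤ N := by
    intro a
    refine Polynomial.natDegree_comp_le.trans ?_
    have : (C a * X : ℂ[X]).natDegree ≤ 1 := g3b_natdeg a
    calc t.natDegree * (C a * X : ℂ[X]).natDegree ≤ N * 1 := Nat.mul_le_mul ht this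
      _ = N := mul_one N
  rw [Polynomial.coeff_mul_add_eq_of_natDegree_le (d1 a) (d1 b), Polynomial.comp_C_mul_X_coeff,
    Polynomial.comp_C_mul_X_coeff]

theorem g3b_ompow (N : ℕ) : om ^ N * (om ^ 2) ^ N = 1 := by
  rw [← mul_pow]
  have : om * om ^ 2 = 1 := by rw [← g3b_om3]; ring
  rw [this, one_pow]

theorem g3b_vals {n : ℕ} {t1 t2 V1 V2 : ℝ[X]} (h : RPert n t1 t2 V1 V2) :
    V1.coeff 0 = -2 * Real.sqrt 3 ∧ V2.coeff 0 = 2 ∧
    V1.coeff (2 * n + 1) = 2 * Real.sqrt 3 ∧ V2.coeff (2 * n + 1) = 2 := by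
  have s3 : ((Real.sqrt 3 : ℝ) : ℂ) ^ 2 = 3 := by
    rw [← Complex.ofReal_pow, Real.sq_sqrt (by norm_num)]; norm_num
  set T1 := t1.map (algebraMap ℝ ℂ) with hT1
  set T2 := t2.map (algebraMap ℝ ℂ) with hT2
  set P := V1.map (algebraMap ℝ ℂ) with hP
  set Q := V2.map (algebraMap ℝ ℂ) with hQ
  have dP : P.natDegree ≤ 2 * n + 1 := by
    rw [hP]; exact (Polynomial.natDegree_map_le).trans h.degV1.le
  have dQ : Q.natDegree ≤ 2 * n + 1 := by
    rw [hQ]; exact (Polynomial.natDegree_map_le).trans h.degV2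
  have dT1 : T1.natDegree ≤ 2 * n + 1 := h.pert.deg1
  have dT2 : T2.natDegree ≤ 2 * n + 1 := h.pert.deg2
  have b1 : T1.coeff 0 = -(Real.sqrt 3 : ℂ) := h.pert.bot1
  have b2 : T2.coeff 0 = -1 / 2 := h.pert.bot2
  have p1 : T1.coeff (2 * n + 1) = (Real.sqrt 3 : ℂ) := h.pert.top1
  have p2 : T2.coeff (2 * n + 1) = -1 / 2 := h.pert.top2
  have cP : ∀ k, P.coeff k = ((V1.coeff k : ℝ) : ℂ) := fun k => by
    rw [hP, Polynomial.coeff_map]; rfl
  have cQ : ∀ k, Q.coeff k = ((V2.coeff k : ℝ) : ℂ) := fun k => by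
    rw [hQ, Polynomial.coeff_map]; rfl
  have z1 := h.d1 0
  have z2 := h.d2 0
  simp only [mul_zero, add_zero, one_pow, mul_one, one_mul] at z1 z2
  rw [← Polynomial.coeff_zero_eq_eval_zero, ← Polynomial.coeff_zero_eq_eval_zero] at z1
  rw [← Polynomial.coeff_zero_eq_eval_zero, ← Polynomial.coeff_zero_eq_eval_zero,
    ← Polynomial.coeff_zero_eq_eval_zero] at z2
  have E1 : T1.comp (C om * X) * (1 + C (om ^ 2) * X) ^ (2 * n + 1)
      + T1.comp (C (om ^ 2) * X) * (1 + C om * X) ^ (2 * n + 1) = (1 + X) ^ (2 * n + 1) * P := by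
    apply Polynomial.funext
    intro x
    have := h.d1 x
    simpa only [Polynomial.eval_comp, Polynomial.eval_add, Polynomial.eval_mul,
      Polynomial.eval_pow, Polynomial.eval_C, Polynomial.eval_X, Polynomial.eval_one] using this
  have E2 : T2.comp (C om * X) * (1 + C (om ^ 2) * X) ^ (2 * n + 1)
      + T2.comp (C (om ^ 2) * X) * (1 + C om * X) ^ (2 * n + 1)
      + T1.comp (C om * X) * T1.comp (C (om ^ 2) * X) = (1 + X) ^ (2 * n + 1) * Q := by
    apply Polynomial.funext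
    intro x
    have := h.d2 x
    simpa only [Polynomial.eval_comp, Polynomial.eval_add, Polynomial.eval_mul,
      Polynomial.eval_pow, Polynomial.eval_C, Polynomial.eval_X, Polynomial.eval_one] using this
  have F1 := congrArg (fun r : ℂ[X] => r.coeff ((2 * n + 1) + (2 * n + 1))) E1
  have F2 := congrArg (fun r : ℂ[X] => r.coeff ((2 * n + 1) + (2 * n + 1))) E2
  simp only [Polynomial.coeff_add] at F1 F2
  rw [g3b_coeff _ dT1, g3b_coeff _ dT1, g3b_coeff1 _ dP] at F1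
  rw [g3b_coeff _ dT2, g3b_coeff _ dT2, g3b_coeff1 _ dQ, g3b_coeff2 _ dT1] at F2
  have o1 := g3b_ompow (2 * n + 1)
  refine ⟨?_, ?_, ?_, ?_⟩
  · have : ((V1.coeff 0 : ℝ) : ℂ) = ((-2 * Real.sqrt 3 : ℝ) : ℂ) := by
      rw [← cP, ← z1, b1]; push_cast; ring
    exact_mod_cast this
  · have : ((V2.coeff 0 : ℝ) : ℂ) = ((2 : ℝ) : ℂ) := by
      rw [← cQ, ← z2, b1, b2]; push_cast; linear_combination s3
    exact_mod_cast this
  · have : ((V1.coeff (2 * n + 1) : ℝ) : ℂ) = ((2 * Real.sqrt 3 : ℝ) : ℂ) := by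
      rw [← cP, ← F1, p1]; push_cast
      linear_combination (2 * (Real.sqrt 3 : ℂ)) * o1
    exact_mod_cast this
  · have : ((V2.coeff (2 * n + 1) : ℝ) : ℂ) = ((2 : ℝ) : ℂ) := by
      rw [← cQ, ← F2, p1, p2]; push_cast
      linear_combination (-1 + (Real.sqrt 3 : ℂ) ^ 2) * o1 + s3
    exact_mod_cast this

theorem Bc_an {n : ℕ} {t1 t2 V1 V2 : ℝ[X]} (h : RPert n t1 t2 V1 V2) :
    (∀ z : ℂ, |z.im| ≤ Real.pi / 3 → DifferentiableAt ℂ (Bc V1 V2) z) ∧
    (∃ K : ℝ, ∀ z : ℂ, |z.im| ≤ Real.pi / 3 → ‖Bc V1 V2 z‖ ≤ K) ∧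
    (∀ u : ℝ, (Bc V1 V2 u).im = 0) ∧ Nice (fun u : ℝ => (Bc V1 V2 u).re) ∧
    Tendsto (fun u : ℝ => (Bc V1 V2 u).re) atTop (𝓝 (1 / Real.sqrt 3)) ∧
    Tendsto (fun u : ℝ => (Bc V1 V2 u).re) atBot (𝓝 (-(1 / Real.sqrt 3))) := by
  obtain ⟨v1, v2, v3, v4⟩ := g3b_vals h
  have hs : 0 < Real.sqrt 3 := Real.sqrt_pos.2 (by norm_num)
  have dP : (V1.map (algebraMap ℝ ℂ)).natDegree ≤ 2 * n + 1 :=
    (Polynomial.natDegree_map_le).trans h.degV1.le
  have dQ : (V2.map (algebraMap ℝ ℂ)).natDegree ≤ 2 * n + 1 :=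
    (Polynomial.natDegree_map_le).trans h.degV2
  have hN : (V1.map (algebraMap ℝ ℂ)).coeff (2 * n + 1) ≠ 0 := by
    rw [Polynomial.coeff_map, v3]
    have : (2 * Real.sqrt 3 : ℝ) ≠ 0 := by positivity
    simpa using this
  have hroot : ∀ w : ℂ, w.re ≤ 0 → (V1.map (algebraMap ℝ ℂ)).eval w ≠ 0 := by
    intro w hw h0
    obtain ⟨r, hr, hwr⟩ := h.roots w h0
    rw [hwr, Complex.ofReal_re] at hw
    linarith
  have evr : ∀ (p : ℝ[X]) (y : ℝ), (p.map (algebraMap ℝ ℂ)).eval (y : ℂ) = ((p.eval y : ℝ) : ℂ) := by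
    intro p y
    have : (y : ℂ) = algebraMap ℝ ℂ y := rfl
    rw [this, Polynomial.eval_map_algebraMap, Polynomial.aeval_algebraMap_apply]
    simp
  have hr1 : ∀ y : ℝ, y ≤ 0 → V1.eval y ≠ 0 := by
    intro y hy h0
    apply hroot (y : ℂ) (by simpa using hy)
    rw [evr, h0]; simp
  have hr2 : ∀ y : ℝ, y ≤ 0 → (V1.reflect (2 * n + 1)).eval y ≠ 0 := by
    intro y hy h0
    rcases eq_or_lt_of_le hy with h1 | h1
    · rw [h1, g3b_reflect0, v3] at h0
      have : (2 * Real.sqrt 3 : ℝ) ≠ 0 := by positivity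
      exact this h0
    · have h2 := g3b_reflect (2 * n + 1) V1 h.degV1.le y⁻¹ (inv_ne_zero h1.ne)
      rw [inv_inv, h0, zero_mul] at h2
      exact hr1 y⁻¹ (inv_nonpos.2 hy) h2
  have hreal : ∀ u : ℝ, Bc V1 V2 u = ((g3b_g V1 V2 u : ℝ) : ℂ) := by
    intro u
    unfold Bc g3b_g
    have : -Complex.exp (u : ℂ) = ((-Real.exp u : ℝ) : ℂ) := by push_cast; rfl
    rw [this, evr, evr]
    push_cast
    rfl
  have hfun : (fun u : ℝ => (Bc V1 V2 u).re) = g3b_g V1 V2 := by
    funext u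
    rw [hreal, Complex.ofReal_re]
  obtain ⟨n1, n2, n3⟩ := g3b_nice V1 V2 h.degV1.le h.degV2 hr1 hr2
  refine ⟨?_, ?_, ?_, ?_, ?_, ?_⟩
  · intro z hz
    have e1 : DifferentiableAt ℂ (fun z : ℂ => -Complex.exp z) z :=
      (Complex.differentiable_exp z).neg
    have hq : DifferentiableAt ℂ (fun z : ℂ => (V2.map (algebraMap ℝ ℂ)).eval (-Complex.exp z)) z :=
      ((V2.map (algebraMap ℝ ℂ)).differentiable _).comp z e1
    have hp : DifferentiableAt ℂ (fun z : ℂ => (V1.map (algebraMap ℝ ℂ)).eval (-Complex.exp z)) z :=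
      ((V1.map (algebraMap ℝ ℂ)).differentiable _).comp z e1
    exact hq.div hp (hroot _ (g3b_re hz))
  · exact g3b_strip _ _ dP dQ hN hroot
  · intro u
    rw [hreal, Complex.ofReal_im]
  · rw [hfun]; exact n1
  · rw [hfun]
    have : V2.coeff (2 * n + 1) / V1.coeff (2 * n + 1) = 1 / Real.sqrt 3 := by
      rw [v3, v4]; field_simp
    rw [← this]; exact n2
  · rw [hfun]
    have : V2.coeff 0 / V1.coeff 0 = -(1 / Real.sqrt 3) := by
      rw [v1, v2]; field_simp
    rw [← this]; exact n3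

end H906K
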