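import Pool.Agent.H906R3.K6.Defs2

/-! G3c: the function `hc`. -/

set_option autoImplicit false

namespace H906K
open Pool.Agent.H974R3 Polynomial MeasureTheory Filter Topology

/-! ### logarithmic derivatives -/

/-- differentiable, nonzero, logarithmic derivative at most `K` -/
def g3c_Good (K : ℝ) (f : ℂ → ℂ) (z : ℂ) : Prop :=
  DifferentiableAt ℂ f z ∧ f z ≠ 0 ∧ ‖deriv f z / f z‖ ≤ K

theorem g3c_mul {K L : ℝ} {f g : ℂ → ℂ} {z : ℂ} (hf : g3c_Good K f z) (hg : g3c_Good L g z) :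
    g3c_Good (K + L) (fun z => f z * g z) z := by
  obtain ⟨f1, f2, f3⟩ := hf
  obtain ⟨g1, g2, g3⟩ := hg
  refine ⟨f1.mul g1, mul_ne_zero f2 g2, ?_⟩
  have e : deriv (fun z => f z * g z) z / (f z * g z) = deriv f z / f z + deriv g z / g z := by
    have h1 : deriv (fun z => f z * g z) z = deriv f z * g z + f z * deriv g z :=
      (f1.hasDerivAt.mul g1.hasDerivAt).deriv
    rw [h1]; field_simp
  rw [e]
  exact (norm_add_le _ _).trans (add_le_add f3 g3)

theorem g3c_div {K L : ℝ} {f g : ℂ → ℂ} {z : ℂ} (hf : g3c_Good K f z) (hg : g3c_Good L g z) :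
    g3c_Good (K + L) (fun z => f z / g z) z := by
  obtain ⟨f1, f2, f3⟩ := hf
  obtain ⟨g1, g2, g3⟩ := hg
  refine ⟨f1.div g1 g2, div_ne_zero f2 g2, ?_⟩
  have e : deriv (fun z => f z / g z) z / (f z / g z) = deriv f z / f z - deriv g z / g z := by
    have h1 : deriv (fun z => f z / g z) z = (deriv f z * g z - f z * deriv g z) / g z ^ 2 :=
      (f1.hasDerivAt.div g1.hasDerivAt g2).deriv
    rw [h1]; field_simp
  rw [e]
  exact (norm_sub_le _ _).trans (add_le_add f3 g3)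

theorem g3c_pow {K : ℝ} {f : ℂ → ℂ} {z : ℂ} (hf : g3c_Good K f z) (n : ℕ) :
    g3c_Good (n * K) (fun z => f z ^ n) z := by
  induction n with
  | zero =>
    refine ⟨by simp, by simp, by simp⟩
  | succ n ih =>
    have := g3c_mul ih hf
    have e : (fun z => f z ^ (n + 1)) = fun z => f z ^ n * f z := by
      funext z; rw [pow_succ]
    rw [e]
    have e2 : ((n + 1 : ℕ) : ℝ) * K = n * K + K := by push_cast; ring
    rw [e2]
    exact this

theorem g3c_const {c : ℂ} (hc : c ≠ 0) (z : ℂ) : g3c_Good 0 (fun _ => c) z :=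
  ⟨differentiableAt_const c, hc, by simp⟩

theorem g3c_list {K : ℝ} {z : ℂ} (l : List ℝ)
    (h : ∀ r ∈ l, g3c_Good K (fun z => Complex.exp z + (r : ℂ)) z) :
    g3c_Good (l.length * K) (fun z => (l.map fun r : ℝ => Complex.exp z + (r : ℂ)).prod) z := by
  induction l with
  | nil =>
    have := g3c_const (one_ne_zero) z
    simpa using this
  | cons r l ih =>
    have h1 := g3c_mul (h r List.mem_cons_self) (ih fun s hs => h s (List.mem_cons_of_mem _ hs))
    have e2 : ((r :: l).length : ℝ) * K = K + l.length * K := by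
      rw [List.length_cons]; push_cast; ring
    rw [e2]
    simpa only [List.map_cons, List.prod_cons] using h1

/-! ### elementary estimates -/

theorem g3c_le_add_real {x : ℂ} {r : ℝ} (hx : 0 ≤ x.re) (hr : 0 ≤ r) : ‖x‖ ≤ ‖x + r‖ := by
  rw [← sq_le_sq₀ (norm_nonneg _) (norm_nonneg _), ← Complex.normSq_eq_norm_sq,
    ← Complex.normSq_eq_norm_sq, Complex.normSq_apply, Complex.normSq_apply]
  simp only [Complex.add_re, Complex.ofReal_re, Complex.add_im, Complex.ofReal_im]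
  nlinarith [mul_nonneg hx hr]

theorem g3c_one_le {w : ℂ} (h : 1 ≤ w.re) : 1 ≤ ‖w‖ := h.trans (Complex.re_le_norm w)

theorem g3c_quad {y : ℂ} (h : 0 ≤ y.re) : 1 / 2 ≤ ‖1 + y + y ^ 2‖ := by
  have e : (1 / 4 : ℝ) ≤ ‖1 + y + y ^ 2‖ ^ 2 := by
    rw [← Complex.normSq_eq_norm_sq, Complex.normSq_apply]
    simp only [pow_two, Complex.add_re, Complex.add_im, Complex.mul_re, Complex.mul_im,
      Complex.one_re, Complex.one_im]
    nlinarith [sq_nonneg (y.im ^ 2 - 1 / 2), mul_nonneg h h, mul_nonneg h (sq_nonneg y.im),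
      mul_nonneg (mul_nonneg h h) (sq_nonneg y.im), mul_nonneg (mul_nonneg h h) h,
      mul_nonneg (mul_nonneg h h) (mul_nonneg h h)]
  by_contra hc
  push Not at hc
  nlinarith [norm_nonneg (1 + y + y ^ 2)]

theorem g3c_exp_re (z : ℂ) (h : |z.im| ≤ Real.pi / 2) : 0 ≤ (Complex.exp z).re := by
  rw [Complex.exp_re]
  rw [abs_le] at h
  exact mul_nonneg (Real.exp_pos _).le (Real.cos_nonneg_of_mem_Icc ⟨by linarith [h.1], h.2⟩)

theorem g3c_exp_re_pos (z : ℂ) (h : |z.im| < Real.pi / 2) : 0 < (Complex.exp z).re := by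
  rw [Complex.exp_re]
  rw [abs_lt] at h
  exact mul_pos (Real.exp_pos _) (Real.cos_pos_of_mem_Ioo ⟨by linarith [h.1], h.2⟩)

/-! ### the factors -/

theorem g3c_base {z : ℂ} (hz : |z.im| ≤ Real.pi / 3) {r : ℝ} (hr : 0 < r) :
    g3c_Good 1 (fun z => Complex.exp z + (r : ℂ)) z := by
  have hpi := Real.pi_pos
  have hx : 0 < (Complex.exp z).re := g3c_exp_re_pos z (by linarith)
  have hne : Complex.exp z + (r : ℂ) ≠ 0 := by
    intro h
    have := congrArg Complex.re h
    simp only [Complex.add_re, Complex.ofReal_re, Complex.zero_re] at this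
    linarith
  refine ⟨by fun_prop, hne, ?_⟩
  have h1 : deriv (fun z => Complex.exp z + (r : ℂ)) z = Complex.exp z := by
    rw [deriv_add_const]; exact Complex.hasDerivAt_exp z |>.deriv
  rw [h1, norm_div, div_le_one (norm_pos_iff.mpr hne)]
  exact g3c_le_add_real hx.le hr.le

theorem g3c_half (z : ℂ) : HasDerivAt (fun z => Complex.exp (z / 2)) (Complex.exp (z / 2) / 2) z := by
  have h1 : HasDerivAt (fun z : ℂ => z / 2) (1 / 2) z := (hasDerivAt_id z).div_const 2
  exact h1.cexp.congr_deriv (by ring)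

theorem g3c_im_half (z : ℂ) : (z / 2).im = z.im / 2 := by simp

theorem g3c_p1 {z : ℂ} (hz : |z.im| ≤ Real.pi / 3) :
    g3c_Good (1 / 2) (fun z => Complex.exp (z / 2) + 1) z := by
  have hpi := Real.pi_pos
  have hx : 0 < (Complex.exp (z / 2)).re := g3c_exp_re_pos _ (by
    rw [g3c_im_half, abs_div]; norm_num; linarith)
  have hne : Complex.exp (z / 2) + 1 ≠ 0 := by
    intro h
    have := congrArg Complex.re h
    simp only [Complex.add_re, Complex.one_re, Complex.zero_re] at this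
    linarith
  refine ⟨((g3c_half z).add_const 1).differentiableAt, hne, ?_⟩
  rw [((g3c_half z).add_const 1).deriv, norm_div, div_le_iff₀ (norm_pos_iff.mpr hne), norm_div]
  have := g3c_le_add_real hx.le (zero_le_one (α := ℝ))
  rw [Complex.ofReal_one] at this
  simp only [Complex.norm_ofNat]
  linarith

theorem g3c_p3 {z : ℂ} (hz : |z.im| ≤ Real.pi / 3) :
    g3c_Good (3 / 2) (fun z => Complex.exp (z / 2) ^ 3 + 1) z := by
  have hpi := Real.pi_pos
  have e3 : Complex.exp (z / 2) ^ 3 = Complex.exp (3 * (z / 2)) := by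
    rw [← Complex.exp_nat_mul]; norm_num
  have hx : 0 ≤ (Complex.exp (z / 2) ^ 3).re := by
    rw [e3]
    apply g3c_exp_re
    have : (3 * (z / 2)).im = 3 / 2 * z.im := by
      simp [Complex.mul_im]; ring
    rw [this, abs_mul]; norm_num; linarith
  have hne : Complex.exp (z / 2) ^ 3 + 1 ≠ 0 := by
    intro h
    have := congrArg Complex.re h
    simp only [Complex.add_re, Complex.one_re, Complex.zero_re] at this
    linarith
  have hd : HasDerivAt (fun z => Complex.exp (z / 2) ^ 3 + 1)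
      (3 / 2 * Complex.exp (z / 2) ^ 3) z := by
    exact (((g3c_half z).pow 3).add_const 1).congr_deriv (by
      simp only [Nat.add_one_sub_one, Nat.cast_ofNat]
      ring)
  refine ⟨hd.differentiableAt, hne, ?_⟩
  rw [hd.deriv, norm_div, div_le_iff₀ (norm_pos_iff.mpr hne), norm_mul]
  have := g3c_le_add_real hx (zero_le_one (α := ℝ))
  rw [Complex.ofReal_one] at this
  simp only [norm_div, Complex.norm_ofNat]
  linarith

theorem g3c_pp {z : ℂ} (hz : |z.im| ≤ Real.pi / 3) :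
    g3c_Good 2 (fun z => Complex.exp (z / 2) ^ 2 + Complex.exp (z / 2) + 1) z := by
  have hpi := Real.pi_pos
  obtain ⟨p, hp⟩ : ∃ p, p = Complex.exp (z / 2) := ⟨_, rfl⟩
  obtain ⟨q, hq⟩ : ∃ q, q = Complex.exp (-(z / 2)) := ⟨_, rfl⟩
  have hpq : p * q = 1 := by rw [hp, hq, ← Complex.exp_add]; simp
  have h1 : 0 ≤ p.re := by
    rw [hp]; apply g3c_exp_re; rw [g3c_im_half, abs_div]; norm_num; linarith
  have h2 : 0 ≤ q.re := by
    rw [hq]; apply g3c_exp_re; rw [Complex.neg_im, abs_neg, g3c_im_half, abs_div]; norm_num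
    linarith
  have h3 : 0 ≤ (q ^ 2).re := by
    have : q ^ 2 = Complex.exp (-z) := by
      rw [hq, ← Complex.exp_nat_mul]; congr 1; push_cast; ring
    rw [this]; apply g3c_exp_re; rw [Complex.neg_im, abs_neg]; linarith
  have f1 : ‖p ^ 2‖ ≤ ‖p ^ 2 + p + 1‖ := by
    have e : p ^ 2 + p + 1 = p ^ 2 * (1 + q + q ^ 2) := by
      linear_combination (-p - 1 - p * q) * hpq
    rw [e, norm_mul]
    have : 1 ≤ ‖1 + q + q ^ 2‖ := g3c_one_le (by
      simp only [Complex.add_re, Complex.one_re]; linarith)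
    nlinarith [norm_nonneg (p ^ 2)]
  have f2 : ‖p‖ ≤ ‖p ^ 2 + p + 1‖ := by
    have e : p ^ 2 + p + 1 = p * (p + 1 + q) := by
      linear_combination (-1) * hpq
    rw [e, norm_mul]
    have : 1 ≤ ‖p + 1 + q‖ := g3c_one_le (by
      simp only [Complex.add_re, Complex.one_re]; linarith)
    nlinarith [norm_nonneg p]
  have hp0 : p ≠ 0 := by rw [hp]; exact Complex.exp_ne_zero _
  have hne : p ^ 2 + p + 1 ≠ 0 := by
    rw [← norm_pos_iff]
    exact lt_of_lt_of_le (norm_pos_iff.mpr hp0) f2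
  have hd : HasDerivAt (fun z => Complex.exp (z / 2) ^ 2 + Complex.exp (z / 2) + 1)
      (Complex.exp (z / 2) ^ 2 + Complex.exp (z / 2) / 2) z := by
    exact ((((g3c_half z).pow 2).add (g3c_half z)).add_const 1).congr_deriv (by
      simp only [Nat.cast_ofNat]
      ring)
  refine ⟨hd.differentiableAt, by beta_reduce; rw [← hp]; exact hne, ?_⟩
  rw [hd.deriv]
  beta_reduce
  rw [← hp, norm_div, div_le_iff₀ (norm_pos_iff.mpr hne)]
  have h4 := norm_add_le (p ^ 2) (p / 2)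
  have h5 : ‖p / 2‖ ≤ ‖p‖ := by
    rw [norm_div]; simp only [Complex.norm_ofNat]; linarith [norm_nonneg p]
  linarith

theorem g3c_xx {z : ℂ} (hz : |z.im| ≤ Real.pi / 3) :
    g3c_Good 5 (fun z => 1 + Complex.exp z + Complex.exp z ^ 2) z := by
  have hpi := Real.pi_pos
  obtain ⟨p, hp⟩ : ∃ p, p = Complex.exp z := ⟨_, rfl⟩
  obtain ⟨q, hq⟩ : ∃ q, q = Complex.exp (-z) := ⟨_, rfl⟩
  have hpq : p * q = 1 := by rw [hp, hq, ← Complex.exp_add]; simp
  have h1 : 0 ≤ p.re := by rw [hp]; apply g3c_exp_re; linarith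
  have h2 : 0 ≤ q.re := by
    rw [hq]; apply g3c_exp_re; rw [Complex.neg_im, abs_neg]; linarith
  have f1 : ‖p ^ 2‖ ≤ 2 * ‖1 + p + p ^ 2‖ := by
    have e : 1 + p + p ^ 2 = p ^ 2 * (1 + q + q ^ 2) := by
      linear_combination (-p - 1 - p * q) * hpq
    rw [e, norm_mul]
    have := g3c_quad h2
    nlinarith [norm_nonneg (p ^ 2)]
  have f2 : ‖p‖ ≤ ‖1 + p + p ^ 2‖ := by
    have e : 1 + p + p ^ 2 = p * (p + 1 + q) := by
      linear_combination (-1) * hpq
    rw [e, norm_mul]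
    have : 1 ≤ ‖p + 1 + q‖ := g3c_one_le (by
      simp only [Complex.add_re, Complex.one_re]; linarith)
    nlinarith [norm_nonneg p]
  have hp0 : p ≠ 0 := by rw [hp]; exact Complex.exp_ne_zero _
  have hne : 1 + p + p ^ 2 ≠ 0 := by
    rw [← norm_pos_iff]
    exact lt_of_lt_of_le (norm_pos_iff.mpr hp0) f2
  have hd : HasDerivAt (fun z => 1 + Complex.exp z + Complex.exp z ^ 2)
      (Complex.exp z + 2 * Complex.exp z ^ 2) z := by
    exact (((Complex.hasDerivAt_exp z).const_add 1).add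
      ((Complex.hasDerivAt_exp z).pow 2)).congr_deriv (by
        simp only [Nat.cast_ofNat]
        ring)
  refine ⟨hd.differentiableAt, by beta_reduce; rw [← hp]; exact hne, ?_⟩
  rw [hd.deriv]
  beta_reduce
  rw [← hp, norm_div, div_le_iff₀ (norm_pos_iff.mpr hne)]
  have h4 := norm_add_le p (2 * p ^ 2)
  have h5 : ‖2 * p ^ 2‖ = 2 * ‖p ^ 2‖ := by
    rw [norm_mul]; simp only [Complex.norm_ofNat]
  linarith

/-! ### the factorisation -/

theorem g3c_om3 : om ^ 3 = 1 := by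
  have h3 : Real.sqrt 3 * Real.sqrt 3 = 3 := Real.mul_self_sqrt (by norm_num)
  have h2 : om ^ 2 = ⟨-1 / 2, -(Real.sqrt 3 / 2)⟩ := by
    rw [pow_two]
    apply Complex.ext
    · simp only [om, Complex.mul_re]; linarith
    · simp only [om, Complex.mul_im]; ring
  have : om ^ 3 = om ^ 2 * om := by ring
  rw [this, h2]
  apply Complex.ext
  · simp only [om, Complex.mul_re, Complex.one_re]; linarith
  · simp only [om, Complex.mul_im, Complex.one_im]; ring

theorem g3c_lead {n : ℕ} {t1 t2 V1 V2 : ℝ[X]} (h : RPert n t1 t2 V1 V2) :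
    (V1.map (algebraMap ℝ ℂ)).coeff (2 * n + 1) = 2 * (Real.sqrt 3 : ℂ) := by
  set N := 2 * n + 1 with hN
  set T := t1.map (algebraMap ℝ ℂ) with hT
  set V := V1.map (algebraMap ℝ ℂ) with hV
  have hid : T.comp (C om * X) * (1 + C (om ^ 2) * X) ^ N
      + T.comp (C (om ^ 2) * X) * (1 + C om * X) ^ N = (1 + X) ^ N * V := by
    apply Polynomial.funext
    intro x
    have := h.d1 x
    simp only [eval_add, eval_mul, eval_comp, eval_pow, eval_one, eval_C, eval_X]
    exact this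
  have hc := congrArg (fun P : ℂ[X] => P.coeff (N + N)) hid
  have hTd : T.natDegree ≤ N := h.pert.deg1
  have hTc : T.coeff N = (Real.sqrt 3 : ℂ) := h.pert.top1
  have hVd : V.natDegree ≤ N := by
    rw [hV]; exact natDegree_map_le.trans h.degV1.le
  have d1 : ∀ a : ℂ, (T.comp (C a * X)).natDegree ≤ N := by
    intro a
    refine natDegree_comp_le.trans ?_
    calc T.natDegree * (C a * X).natDegree ≤ T.natDegree * 1 := by
          gcongr
          exact (natDegree_C_mul_le _ _).trans natDegree_X_le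
      _ ≤ N := by omega
  have d2 : ∀ a : ℂ, (1 + C a * X).natDegree ≤ 1 := by
    intro a
    compute_degree
  have d3 : ∀ a : ℂ, ((1 + C a * X) ^ N).natDegree ≤ N := by
    intro a
    refine natDegree_pow_le.trans ?_
    calc N * (1 + C a * X).natDegree ≤ N * 1 := by gcongr; exact d2 a
      _ = N := mul_one _
  have c3 : ∀ a : ℂ, ((1 + C a * X) ^ N).coeff N = a ^ N := by
    intro a
    have := coeff_pow_of_natDegree_le (n := 1) (m := N) (d2 a)
    rw [mul_one] at this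
    rw [this]
    simp [coeff_one]
  have c1 : ∀ a : ℂ, (T.comp (C a * X)).coeff N = (Real.sqrt 3 : ℂ) * a ^ N := by
    intro a
    rw [comp_C_mul_X_coeff, hTc]
  have e1 : (1 + X : ℂ[X]) = 1 + C 1 * X := by simp
  rw [e1] at hc
  simp only [coeff_add] at hc
  rw [coeff_mul_add_eq_of_natDegree_le (d1 _) (d3 _), coeff_mul_add_eq_of_natDegree_le (d1 _) (d3 _),
    coeff_mul_add_eq_of_natDegree_le (d3 _) hVd, c1, c1, c3, c3, c3] at hc
  have e3 : om ^ N * (om ^ 2) ^ N = 1 := by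
    rw [← mul_pow, ← pow_succ', g3c_om3, one_pow]
  rw [one_pow, one_mul] at hc
  rw [← hc]
  linear_combination (2 * (Real.sqrt 3 : ℂ)) * e3

theorem g3c_fac {n : ℕ} {t1 t2 V1 V2 : ℝ[X]} (h : RPert n t1 t2 V1 V2) :
    ∃ l : List ℝ, (∀ r ∈ l, 0 < r) ∧ l.length = 2 * n + 1 ∧ ∀ x : ℂ,
      -(V1.map (algebraMap ℝ ℂ)).eval (-x)
        = 2 * (Real.sqrt 3 : ℂ) * (l.map fun r : ℝ => x + (r : ℂ)).prod := by
  set V := V1.map (algebraMap ℝ ℂ) with hV
  have hlead := g3c_lead h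
  rw [← hV] at hlead
  have hVdeg : V.natDegree = 2 * n + 1 := by
    rw [hV, natDegree_map]; exact h.degV1
  have hsp : V.Splits := IsAlgClosed.splits V
  have hcard : V.roots.card = 2 * n + 1 := by
    rw [← hVdeg]; exact hsp.natDegree_eq_card_roots.symm
  have hfac := hsp.eq_prod_roots
  have hlc : V.leadingCoeff = 2 * (Real.sqrt 3 : ℂ) := by
    rw [leadingCoeff, hVdeg]; exact hlead
  have hroot : ∀ z ∈ V.roots, 0 < z.re ∧ z = (z.re : ℂ) := by
    intro z hz
    have hz' := (mem_roots'.mp hz).2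
    obtain ⟨r, hr, hzr⟩ := h.roots z hz'
    rw [hzr]
    exact ⟨by simpa using hr, by simp⟩
  refine ⟨V.roots.toList.map Complex.re, ?_, ?_, ?_⟩
  · intro r hr
    rw [List.mem_map] at hr
    obtain ⟨z, hz, rfl⟩ := hr
    exact (hroot z (Multiset.mem_toList.mp hz)).1
  · rw [List.length_map, Multiset.length_toList, hcard]
  · intro x
    have h1 : V.eval (-x) = V.leadingCoeff * ((V.roots.map fun z => -x - z)).prod := by
      conv_lhs => rw [hfac]
      rw [eval_mul, eval_C, eval_multiset_prod, Multiset.map_map]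
      congr 2
      apply Multiset.map_congr rfl
      intro z _
      simp
    have h2 : (V.roots.map fun z => -x - z).prod = -(V.roots.map fun z => x + z).prod := by
      have e : (fun z => -x - z) = fun z => (-1 : ℂ) * (x + z) := by funext z; ring
      rw [e, Multiset.prod_map_mul, Multiset.map_const', Multiset.prod_replicate, hcard]
      rw [Odd.neg_one_pow ⟨n, rfl⟩]
      ring
    have h3 : (V.roots.map fun z => x + z).prod
        = ((V.roots.toList.map Complex.re).map fun r : ℝ => x + (r : ℂ)).prod := by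
      rw [List.map_map]
      conv_lhs => rw [← Multiset.coe_toList V.roots, Multiset.map_coe, Multiset.prod_coe]
      congr 1
      apply List.map_congr_left
      intro z hz
      have := (hroot z (Multiset.mem_toList.mp hz)).2
      simp only [Function.comp]
      rw [← this]
    rw [h1, h2, h3, hlc]
    ring

theorem g3c_hc_eq {n : ℕ} {V1 : ℝ[X]} {l : List ℝ}
    (hl : ∀ x : ℂ, -(V1.map (algebraMap ℝ ℂ)).eval (-x)
        = 2 * (Real.sqrt 3 : ℂ) * (l.map fun r : ℝ => x + (r : ℂ)).prod) :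
    hc n V1 = fun z => (2 * (Real.sqrt 3 : ℂ) * (l.map fun r : ℝ => Complex.exp z + (r : ℂ)).prod)
      * (((Complex.exp (z / 2) + 1) * (Complex.exp (z / 2) ^ 3 + 1)
      / ((Complex.exp (z / 2) ^ 2 + Complex.exp (z / 2) + 1)
        * (1 + Complex.exp z + Complex.exp z ^ 2))) ^ (2 * n + 1)) := by
  funext z
  rw [← hl (Complex.exp z)]
  rfl

theorem g3c_self {f : ℂ → ℂ} {z : ℂ} (h1 : DifferentiableAt ℂ f z) (h2 : f z ≠ 0) :
    g3c_Good ‖deriv f z / f z‖ f z := ⟨h1, h2, le_rfl⟩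

theorem g3c_comb {n : ℕ} {l : List ℝ} {z : ℂ} {K0 K1 K2 K3 K4 : ℝ}
    (h0 : ∀ r ∈ l, g3c_Good K0 (fun z => Complex.exp z + (r : ℂ)) z)
    (h1 : g3c_Good K1 (fun z => Complex.exp (z / 2) + 1) z)
    (h2 : g3c_Good K2 (fun z => Complex.exp (z / 2) ^ 3 + 1) z)
    (h3 : g3c_Good K3 (fun z => Complex.exp (z / 2) ^ 2 + Complex.exp (z / 2) + 1) z)
    (h4 : g3c_Good K4 (fun z => 1 + Complex.exp z + Complex.exp z ^ 2) z) :
    g3c_Good ((0 + l.length * K0) + ((2 * n + 1 : ℕ) : ℝ) * ((K1 + K2) + (K3 + K4)))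
      (fun z => (2 * (Real.sqrt 3 : ℂ) * (l.map fun r : ℝ => Complex.exp z + (r : ℂ)).prod)
      * (((Complex.exp (z / 2) + 1) * (Complex.exp (z / 2) ^ 3 + 1)
      / ((Complex.exp (z / 2) ^ 2 + Complex.exp (z / 2) + 1)
        * (1 + Complex.exp z + Complex.exp z ^ 2))) ^ (2 * n + 1))) z := by
  have hs : (2 * (Real.sqrt 3 : ℂ)) ≠ 0 := by
    apply mul_ne_zero two_ne_zero
    rw [Complex.ofReal_ne_zero]
    positivity
  exact g3c_mul (g3c_mul (g3c_const hs z) (g3c_list l h0))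
    (g3c_pow (g3c_div (g3c_mul h1 h2) (g3c_mul h3 h4)) (2 * n + 1))

theorem g3c_wide {n : ℕ} {l : List ℝ} (hl : ∀ r ∈ l, 0 < r) {z : ℂ}
    (hz : |z.im| ≤ 2 * Real.pi / 5) :
    ∃ K : ℝ, g3c_Good K
      (fun z => (2 * (Real.sqrt 3 : ℂ) * (l.map fun r : ℝ => Complex.exp z + (r : ℂ)).prod)
      * (((Complex.exp (z / 2) + 1) * (Complex.exp (z / 2) ^ 3 + 1)
      / ((Complex.exp (z / 2) ^ 2 + Complex.exp (z / 2) + 1)
        * (1 + Complex.exp z + Complex.exp z ^ 2))) ^ (2 * n + 1))) z := by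
  have hpi := Real.pi_pos
  have hx : 0 < (Complex.exp z).re := g3c_exp_re_pos z (by linarith)
  have hp : 0 < (Complex.exp (z / 2)).re := g3c_exp_re_pos _ (by
    rw [g3c_im_half, abs_div]; norm_num; linarith)
  have e2 : Complex.exp (z / 2) ^ 2 = Complex.exp z := by
    rw [← Complex.exp_nat_mul]; congr 1; push_cast; ring
  have e3 : Complex.exp (z / 2) ^ 3 = Complex.exp (3 * (z / 2)) := by
    rw [← Complex.exp_nat_mul]; norm_num
  have n0 : ∀ r ∈ l, Complex.exp z + ((r : ℝ) : ℂ) ≠ 0 := by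
    intro r hr h
    have := congrArg Complex.re h
    simp only [Complex.add_re, Complex.ofReal_re, Complex.zero_re] at this
    linarith [hl r hr]
  have n1 : Complex.exp (z / 2) + 1 ≠ 0 := by
    intro h
    have := congrArg Complex.re h
    simp only [Complex.add_re, Complex.one_re, Complex.zero_re] at this
    linarith
  have n2 : Complex.exp (z / 2) ^ 3 + 1 ≠ 0 := by
    intro h
    rw [e3] at h
    have him := congrArg Complex.im h
    have hre := congrArg Complex.re h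
    have hi3 : (3 * (z / 2)).im = 3 / 2 * z.im := by
      simp [Complex.mul_im]; ring
    simp only [Complex.add_re, Complex.one_re, Complex.zero_re, Complex.add_im, Complex.one_im,
      Complex.zero_im, add_zero, Complex.exp_re, Complex.exp_im, hi3] at him hre
    have hs : Real.sin (3 / 2 * z.im) = 0 := by
      rcases mul_eq_zero.mp him with h | h
      · exact absurd h (Real.exp_pos _).ne'
      · exact h
    rw [abs_le] at hz
    have h0 : 3 / 2 * z.im = 0 :=
      (Real.sin_eq_zero_iff_of_lt_of_lt (by linarith [hz.1]) (by linarith [hz.2])).mp hs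
    rw [h0, Real.cos_zero, mul_one] at hre
    linarith [Real.exp_pos (3 * (z / 2)).re]
  have n3 : Complex.exp (z / 2) ^ 2 + Complex.exp (z / 2) + 1 ≠ 0 := by
    intro h
    rw [e2] at h
    have := congrArg Complex.re h
    simp only [Complex.add_re, Complex.one_re, Complex.zero_re] at this
    linarith
  have n4 : 1 + Complex.exp z + Complex.exp z ^ 2 ≠ 0 := by
    intro h
    have := g3c_quad hx.le
    rw [h, norm_zero] at this
    linarith
  have key : ∀ r ∈ l, DifferentiableAt ℂ (fun z => Complex.exp z + ((r : ℝ) : ℂ)) z := by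
    intro r _; fun_prop
  -- a common constant for the list
  obtain ⟨K0, hK0⟩ : ∃ K0 : ℝ, ∀ r ∈ l, g3c_Good K0 (fun z => Complex.exp z + ((r : ℝ) : ℂ)) z := by
    clear hl
    induction l with
    | nil => exact ⟨0, by simp⟩
    | cons a l ih =>
      obtain ⟨K, hK⟩ := ih (fun r hr => n0 r (List.mem_cons_of_mem _ hr))
        (fun r hr => key r (List.mem_cons_of_mem _ hr))
      refine ⟨max K ‖deriv (fun z => Complex.exp z + (a : ℂ)) z / (Complex.exp z + (a : ℂ))‖, ?_⟩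
      intro r hr
      rcases List.mem_cons.mp hr with rfl | hr
      · exact ⟨key _ List.mem_cons_self, n0 _ List.mem_cons_self, le_max_right _ _⟩
      · obtain ⟨a1, a2, a3⟩ := hK r hr
        exact ⟨a1, a2, a3.trans (le_max_left _ _)⟩
  exact ⟨_, g3c_comb hK0 (g3c_self (by fun_prop) n1) (g3c_self (by fun_prop) n2)
    (g3c_self (by fun_prop) n3) (g3c_self (by fun_prop) n4)⟩

/-! ### the real line -/

/-- the real function, in the variable `q = e^{-u/2}` -/
noncomputable def g3c_Phi (n : ℕ) (l : List ℝ) (q : ℝ) : ℝ :=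
  2 * Real.sqrt 3 * (l.map fun r : ℝ => 1 + r * q ^ 2).prod
    * (((1 + q) * (1 + q ^ 3)) / ((1 + q + q ^ 2) * (1 + q ^ 2 + q ^ 4))) ^ (2 * n + 1)

theorem g3c_cast_prod (l : List ℝ) (q : ℝ) :
    (((l.map fun r : ℝ => 1 + r * q ^ 2).prod : ℝ) : ℂ)
      = (l.map fun r : ℝ => 1 + (r : ℂ) * (q : ℂ) ^ 2).prod := by
  induction l with
  | nil => simp
  | cons a l ih => simp [ih]

theorem g3c_prod_scale (l : List ℝ) (p q : ℂ) (hpq : p * q = 1) :
    (l.map fun r : ℝ => p ^ 2 + (r : ℂ)).prod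
      = (p ^ 2) ^ l.length * (l.map fun r : ℝ => 1 + (r : ℂ) * q ^ 2).prod := by
  induction l with
  | nil => simp
  | cons a l ih =>
    have : p ^ 2 + (a : ℂ) = p ^ 2 * (1 + a * q ^ 2) := by
      linear_combination (-(a : ℂ) * (p * q + 1)) * hpq
    rw [List.map_cons, List.map_cons, List.prod_cons, List.prod_cons, ih, List.length_cons,
      this, pow_succ (p ^ 2)]
    ring

theorem g3c_real {n : ℕ} {l : List ℝ} (hlen : l.length = 2 * n + 1) (p q : ℝ) (hp : 0 < p)
    (hpq : p * q = 1) :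
    (2 * (Real.sqrt 3 : ℂ) * (l.map fun r : ℝ => (p : ℂ) ^ 2 + (r : ℂ)).prod)
      * ((((p : ℂ) + 1) * ((p : ℂ) ^ 3 + 1)
      / (((p : ℂ) ^ 2 + (p : ℂ) + 1)
        * (1 + (p : ℂ) ^ 2 + ((p : ℂ) ^ 2) ^ 2))) ^ (2 * n + 1))
      = (g3c_Phi n l q : ℂ) := by
  have hq : 0 < q := by
    by_contra hc
    push Not at hc
    nlinarith
  have hpqc : (p : ℂ) * q = 1 := by exact_mod_cast congrArg (fun x : ℝ => (x : ℂ)) hpq
  have hp0 : (p : ℂ) ≠ 0 := by exact_mod_cast hp.ne'
  rw [g3c_prod_scale l p q hpqc, hlen]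
  have hfr : ((p + 1) * (p ^ 3 + 1)) / ((p ^ 2 + p + 1) * (1 + p ^ 2 + (p ^ 2) ^ 2)) * p ^ 2
      = ((1 + q) * (1 + q ^ 3)) / ((1 + q + q ^ 2) * (1 + q ^ 2 + q ^ 4)) := by
    have hqe : q = 1 / p := by field_simp; linarith
    have a1 : p ^ 2 + p + 1 ≠ 0 := by positivity
    have a2 : 1 + p ^ 2 + (p ^ 2) ^ 2 ≠ 0 := by positivity
    have a3 : 1 + q + q ^ 2 ≠ 0 := by positivity
    have a4 : 1 + q ^ 2 + q ^ 4 ≠ 0 := by positivity
    have b1 : p + 1 = p * (1 + q) := by linear_combination (-1) * hpq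
    have b2 : p ^ 3 + 1 = p ^ 3 * (1 + q ^ 3) := by
      linear_combination (-1 - p * q - (p * q) ^ 2) * hpq
    have b3 : p ^ 2 + p + 1 = p ^ 2 * (1 + q + q ^ 2) := by
      linear_combination (-p - 1 - p * q) * hpq
    have b4 : 1 + p ^ 2 + (p ^ 2) ^ 2 = p ^ 4 * (1 + q ^ 2 + q ^ 4) := by
      linear_combination (-p ^ 2 * (1 + p * q) - (1 + p * q + (p * q) ^ 2 + (p * q) ^ 3)) * hpq
    rw [b1, b2, b3, b4]
    field_simp
  have hcast : (((((p + 1) * (p ^ 3 + 1)) / ((p ^ 2 + p + 1) * (1 + p ^ 2 + (p ^ 2) ^ 2)) * p ^ 2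
      : ℝ)) : ℂ) = ((((1 + q) * (1 + q ^ 3)) / ((1 + q + q ^ 2) * (1 + q ^ 2 + q ^ 4)) : ℝ) : ℂ) :=
    congrArg _ hfr
  rw [g3c_Phi]
  rw [Complex.ofReal_mul, Complex.ofReal_mul, g3c_cast_prod, Complex.ofReal_pow, ← hcast]
  push_cast
  obtain ⟨A, hA⟩ : ∃ A : ℂ, A = ((p : ℂ) + 1) * ((p : ℂ) ^ 3 + 1)
      / (((p : ℂ) ^ 2 + (p : ℂ) + 1)
        * (1 + (p : ℂ) ^ 2 + ((p : ℂ) ^ 2) ^ 2)) := ⟨_, rfl⟩
  rw [← hA, mul_pow A]
  ring

theorem g3c_Phi_pos {n : ℕ} {l : List ℝ} (hl : ∀ r ∈ l, 0 < r) {q : ℝ} (hq : 0 < q) :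
    0 < g3c_Phi n l q := by
  rw [g3c_Phi]
  have : 0 < (l.map fun r : ℝ => 1 + r * q ^ 2).prod := by
    apply List.prod_pos
    intro a ha
    rw [List.mem_map] at ha
    obtain ⟨r, hr, rfl⟩ := ha
    have := hl r hr
    positivity
  positivity

theorem g3c_Phi_cont (n : ℕ) (l : List ℝ) : ContinuousAt (g3c_Phi n l) 0 := by
  unfold g3c_Phi
  have h1 : Continuous fun q : ℝ => (l.map fun r : ℝ => 1 + r * q ^ 2).prod := by
    apply continuous_list_prod
    intro r _
    fun_prop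
  refine ContinuousAt.mul (continuousAt_const.mul h1.continuousAt) (ContinuousAt.pow ?_ _)
  refine ContinuousAt.div (by fun_prop) (by fun_prop) (by norm_num)

theorem g3c_Phi_zero (n : ℕ) (l : List ℝ) : g3c_Phi n l 0 = 2 * Real.sqrt 3 := by
  simp [g3c_Phi]

theorem hc_an {n : ℕ} {t1 t2 V1 V2 : ℝ[X]} (h : RPert n t1 t2 V1 V2) :
    (∀ z : ℂ, |z.im| ≤ 2 * Real.pi / 5 → DifferentiableAt ℂ (hc n V1) z ∧ hc n V1 z ≠ 0) ∧
    (∃ K : ℝ, ∀ z : ℂ, |z.im| ≤ Real.pi / 3 → ‖deriv (hc n V1) z / hc n V1 z‖ ≤ K) ∧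
    (∀ u : ℝ, (hc n V1 u).im = 0 ∧ 0 < (hc n V1 u).re) ∧
    Tendsto (fun u : ℝ => (hc n V1 u).re) atTop (𝓝 (2 * Real.sqrt 3)) := by
  obtain ⟨l, hl, hlen, hfac⟩ := g3c_fac h
  have hcu : ∀ u : ℝ, hc n V1 u = (g3c_Phi n l (Real.exp (-(u / 2))) : ℂ) := by
    intro u
    rw [g3c_hc_eq hfac]
    rw [← g3c_real hlen (Real.exp (u / 2)) (Real.exp (-(u / 2))) (Real.exp_pos _)
      (by rw [← Real.exp_add]; simp)]
    have e1 : Complex.exp ((u : ℂ) / 2) = ((Real.exp (u / 2) : ℝ) : ℂ) := by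
      push_cast; rfl
    have e2 : Complex.exp (u : ℂ) = ((Real.exp (u / 2) : ℝ) : ℂ) ^ 2 := by
      rw [← e1, ← Complex.exp_nat_mul]; congr 1; push_cast; ring
    beta_reduce
    rw [e1, e2]
  refine ⟨?_, ?_, ?_, ?_⟩
  · intro z hz
    rw [g3c_hc_eq hfac]
    obtain ⟨K, h1, h2, _⟩ := g3c_wide (n := n) hl hz
    exact ⟨h1, h2⟩
  · refine ⟨(0 + l.length * 1) + ((2 * n + 1 : ℕ) : ℝ) * ((1 / 2 + 3 / 2) + (2 + 5)), ?_⟩
    intro z hz
    rw [g3c_hc_eq hfac]
    exact (g3c_comb (fun r hr => g3c_base hz (hl r hr)) (g3c_p1 hz) (g3c_p3 hz) (g3c_pp hz)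
      (g3c_xx hz)).2.2
  · intro u
    rw [hcu u]
    exact ⟨Complex.ofReal_im _, by rw [Complex.ofReal_re]; exact g3c_Phi_pos hl (Real.exp_pos _)⟩
  · have e : (fun u : ℝ => (hc n V1 u).re) = fun u : ℝ => g3c_Phi n l (Real.exp (-(u / 2))) := by
      funext u; rw [hcu u, Complex.ofReal_re]
    rw [e, ← g3c_Phi_zero n l]
    refine (g3c_Phi_cont n l).tendsto.comp ?_
    apply Real.tendsto_exp_neg_atTop_nhds_zero.comp
    exact tendsto_id.atTop_div_const (by norm_num)

end H906K
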