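import Pool.Agent.H906R3.K6.Defs2
import Pool.Agent.H906R3.K6.A1
import Pool.Agent.H906R3.K6.A2b
import Pool.Agent.H906R3.K6.G2
import Pool.Agent.H906R3.K6.G3a
import Pool.Agent.H906R3.K6.G3c

/-! G4: the logarithmic representation. -/

namespace H906K
open Pool.Agent.H974R3 Polynomial MeasureTheory Filter Topology

/-- a differentiable function which is real on the real line -/
theorem g4_real {F : ℂ → ℂ} {u : ℝ} (hd : DifferentiableAt ℂ F u) (him : ∀ v : ℝ, (F v).im = 0) :
    HasDerivAt (fun v : ℝ => (F v).re) (deriv F u).re u ∧ deriv F u = ((deriv F u).re : ℂ) := by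
  have h1 : HasDerivAt F (deriv F u) (u : ℂ) := hd.hasDerivAt
  have h2 : HasDerivAt (fun v : ℝ => (F v).re) (deriv F u).re u := h1.real_of_complex
  refine ⟨h2, ?_⟩
  have h3 : HasDerivAt (fun v : ℝ => F v) (deriv F u) u := h1.comp_ofReal
  have h4 : HasDerivAt (fun v : ℝ => (((F v).re : ℝ) : ℂ)) ((deriv F u).re : ℂ) u := h2.ofReal_comp
  have h5 : (fun v : ℝ => (((F v).re : ℝ) : ℂ)) = fun v : ℝ => F v := by
    funext v
    apply Complex.ext
    · simp
    · simp [him v]
  rw [h5] at h4
  exact h3.unique h4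

theorem g4_nice {X : ℝ → ℝ} (hX : Nice X) {K : ℝ} (hK : ∀ u, |X u| ≤ K) :
    Nice (G0 X) ∧ (∀ u, deriv (G0 X) u = 2 * X u * deriv X u / (9 + X u ^ 2)) ∧
      ∀ u, |G0 X u| ≤ Real.log (9 + K ^ 2) := by
  obtain ⟨h1, h2, h3⟩ := hX
  have hpos : ∀ u, 0 < 9 + X u ^ 2 := fun u => by positivity
  have hder : ∀ u, HasDerivAt (G0 X) (2 * X u * deriv X u / (9 + X u ^ 2)) u := by
    intro u
    have e1 : HasDerivAt X (deriv X u) u := (h1 u).hasDerivAt
    have e2 : HasDerivAt (fun u => 9 + X u ^ 2) (2 * X u * deriv X u) u := by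
      have := (e1.fun_pow 2).const_add 9
      simpa using this
    exact e2.log (hpos u).ne'
  have hd : ∀ u, deriv (G0 X) u = 2 * X u * deriv X u / (9 + X u ^ 2) := fun u => (hder u).deriv
  have hd' : deriv (G0 X) = fun u => 2 * X u * deriv X u / (9 + X u ^ 2) := funext hd
  have hXc : Continuous X := h1.continuous
  refine ⟨⟨fun u => (hder u).differentiableAt, ?_, ?_⟩, hd, ?_⟩
  · rw [hd']
    exact ((continuous_const.mul hXc).mul h2).div (continuous_const.add (hXc.pow 2))
      (fun u => (hpos u).ne')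
  · rw [hd']
    have e3 : (fun u => 2 * X u * deriv X u / (9 + X u ^ 2)) =
        fun u => (2 * X u / (9 + X u ^ 2)) * deriv X u := by
      funext u; ring
    rw [e3]
    refine h3.bdd_mul (c := 2 * K / 9) ?_ ?_
    · exact ((continuous_const.mul hXc).div (continuous_const.add (hXc.pow 2))
        (fun u => (hpos u).ne')).aestronglyMeasurable
    · refine Eventually.of_forall fun u => ?_
      rw [Real.norm_eq_abs, abs_div, abs_of_pos (hpos u), abs_mul, abs_of_pos (by norm_num : (0:ℝ) < 2)]
      have := hK u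
      have h0 := abs_nonneg (X u)
      have hK0 : 0 ≤ K := h0.trans this
      have h9 : 9 ≤ 9 + X u ^ 2 := by nlinarith
      gcongr
  · intro u
    have h4 : X u ^ 2 ≤ K ^ 2 := by
      rw [← sq_abs (X u)]
      exact pow_le_pow_left₀ (abs_nonneg _) (hK u) 2
    have h5 : 0 ≤ Real.log (9 + X u ^ 2) := Real.log_nonneg (by nlinarith)
    rw [G0, abs_of_nonneg h5]
    exact Real.log_le_log (hpos u) (by linarith)

theorem log_rep {n : ℕ} {t1 t2 V1 V2 : ℝ[X]} (h : RPert n t1 t2 V1 V2) (u : ℝ) :
    (hc n V1 u).re = Real.exp (be0 (fun u => (Xc n t1 u).re) u) := by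
  have hpi := Real.pi_pos
  have hdeg : t1.natDegree ≤ 2 * n + 1 := by
    have := h.pert.deg1
    rwa [natDegree_map] at this
  have htop : t1.coeff (2 * n + 1) = Real.sqrt 3 := by
    have := h.pert.top1
    rw [coeff_map] at this
    exact Complex.ofReal_injective this
  obtain ⟨x1, ⟨K, x2⟩, x3, x4, x5, -⟩ := Xc_an n t1 hdeg
  obtain ⟨c1, ⟨K', c2⟩, c3, c4⟩ := hc_an h
  rw [htop] at x5
  set X : ℝ → ℝ := fun u => (Xc n t1 u).re with hX
  set H : ℂ → ℂ := hc n V1 with hH
  have hXK : ∀ u, |X u| ≤ K := by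
    intro u
    have := x2 (u : ℂ) (by simp; positivity)
    exact (Complex.abs_re_le_norm _).trans this
  obtain ⟨nG, dG, bG⟩ := g4_nice x4 hXK
  have hXu : ∀ u : ℝ, Xc n t1 u = (X u : ℂ) := by
    intro u
    apply Complex.ext
    · simp [hX]
    · simp [x3 u]
  -- the logarithmic derivative is analytic in the strip
  have hopen : IsOpen {z : ℂ | |z.im| < 2 * Real.pi / 5} :=
    isOpen_lt (continuous_abs.comp Complex.continuous_im) continuous_const
  have hHd : DifferentiableOn ℂ H {z : ℂ | |z.im| < 2 * Real.pi / 5} :=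
    fun z hz => (c1 z (le_of_lt hz)).1.differentiableWithinAt
  have hHd' : DifferentiableOn ℂ (deriv H) {z : ℂ | |z.im| < 2 * Real.pi / 5} := hHd.deriv hopen
  have hlt : Real.pi / 3 < 2 * Real.pi / 5 := by linarith
  have hf : ∀ z : ℂ, |z.im| ≤ Real.pi / 3 → DifferentiableAt ℂ (fun z => deriv H z / H z) z := by
    intro z hz
    have hz' : z ∈ {z : ℂ | |z.im| < 2 * Real.pi / 5} := lt_of_le_of_lt hz hlt
    exact (hHd'.differentiableAt (hopen.mem_nhds hz')).div (c1 z (le_of_lt hz')).1 (c1 z (le_of_lt hz')).2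
  -- the functional equation, differentiated
  have hrel : ∀ v : ℝ, deriv H (v + Real.pi / 3 * Complex.I) / H (v + Real.pi / 3 * Complex.I) +
      deriv H (v - Real.pi / 3 * Complex.I) / H (v - Real.pi / 3 * Complex.I) =
      ((deriv (G0 X) v : ℝ) : ℂ) := by
    intro v
    set p : ℂ := v + Real.pi / 3 * Complex.I with hp
    set m : ℂ := v - Real.pi / 3 * Complex.I with hm
    have hpim : p.im = Real.pi / 3 := by simp [hp]
    have hmim : m.im = -(Real.pi / 3) := by simp [hm]
    have hpa : |p.im| ≤ 2 * Real.pi / 5 := by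
      rw [hpim, abs_of_pos (by positivity)]; linarith
    have hma : |m.im| ≤ 2 * Real.pi / 5 := by
      rw [hmim, abs_neg, abs_of_pos (by positivity)]; linarith
    have d1 : HasDerivAt (fun z : ℂ => H (z + Real.pi / 3 * Complex.I)) (deriv H p) (v : ℂ) := by
      have := (c1 p hpa).1.hasDerivAt
      have h2 : HasDerivAt (fun z : ℂ => z + Real.pi / 3 * Complex.I) 1 (v : ℂ) :=
        (hasDerivAt_id _).add_const _
      have h3 := HasDerivAt.comp (h₂ := H) (h := fun z : ℂ => z + Real.pi / 3 * Complex.I) (v : ℂ) this h2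
      rw [mul_one] at h3
      exact h3
    have d2 : HasDerivAt (fun z : ℂ => H (z - Real.pi / 3 * Complex.I)) (deriv H m) (v : ℂ) := by
      have := (c1 m hma).1.hasDerivAt
      have h2 : HasDerivAt (fun z : ℂ => z - Real.pi / 3 * Complex.I) 1 (v : ℂ) :=
        (hasDerivAt_id _).sub_const _
      have h3 := HasDerivAt.comp (h₂ := H) (h := fun z : ℂ => z - Real.pi / 3 * Complex.I) (v : ℂ) this h2
      rw [mul_one] at h3
      exact h3
    have d3 := d1.mul d2
    have hXd : DifferentiableAt ℂ (Xc n t1) (v : ℂ) := x1 v (by simp; positivity)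
    have d4 : HasDerivAt (fun z : ℂ => 9 + Xc n t1 z ^ 2) (2 * Xc n t1 v * deriv (Xc n t1) v) (v : ℂ) := by
      have := (hXd.hasDerivAt.fun_pow 2).const_add 9
      simpa using this
    have hev : (fun z : ℂ => H (z + Real.pi / 3 * Complex.I) * H (z - Real.pi / 3 * Complex.I))
        =ᶠ[𝓝 (v : ℂ)] fun z => 9 + Xc n t1 z ^ 2 := by
      have hU : {z : ℂ | |z.im| < Real.pi / 3} ∈ 𝓝 (v : ℂ) := by
        apply (isOpen_lt (continuous_abs.comp Complex.continuous_im) continuous_const).mem_nhds
        simp; positivity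
      filter_upwards [hU] with z hz
      exact rel_prod h z hz
    have d5 : HasDerivAt (fun z : ℂ => 9 + Xc n t1 z ^ 2)
        (deriv H p * H m + H p * deriv H m) (v : ℂ) :=
      HasDerivAt.congr_of_eventuallyEq d3 hev.symm
    have d6 := d5.unique d4
    have hval : H p * H m = 9 + Xc n t1 v ^ 2 := hev.eq_of_nhds
    obtain ⟨-, r2⟩ := g4_real hXd x3
    have hX' : deriv X v = (deriv (Xc n t1) v).re := (g4_real hXd x3).1.deriv
    have hp0 := (c1 p hpa).2
    have hm0 := (c1 m hma).2
    rw [div_add_div _ _ hp0 hm0, d6, hval, dG v, hXu v, r2, ← hX']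
    push_cast
    rfl
  -- the representation
  have hrep : ∀ l : ℝ, deriv H l / H l = ((deriv (be0 X) l : ℝ) : ℂ) := by
    intro l
    have h1 : deriv H l / H l = ∫ v : ℝ, (kk (l - v) : ℂ) * (deriv H (v + Real.pi / 3 * Complex.I) /
        H (v + Real.pi / 3 * Complex.I) + deriv H (v - Real.pi / 3 * Complex.I) /
        H (v - Real.pi / 3 * Complex.I)) :=
      strip_rep (fun z => deriv H z / H z) K' hf (fun z hz => c2 z hz) l
    rw [h1]
    have h2 : ∀ v : ℝ, (kk (l - v) : ℂ) * (deriv H (v + Real.pi / 3 * Complex.I) /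
        H (v + Real.pi / 3 * Complex.I) + deriv H (v - Real.pi / 3 * Complex.I) /
        H (v - Real.pi / 3 * Complex.I)) = ((kk (l - v) * deriv (G0 X) v : ℝ) : ℂ) := by
      intro v
      rw [hrel v]
      push_cast
      rfl
    simp_rw [h2]
    rw [integral_complex_ofReal]
    have h3 := (kk_conv_nice (G0 X) _ nG bG).2 l
    congr 1
    exact h3.symm
  -- the difference of the logarithms is constant
  have hbd : ∀ l : ℝ, DifferentiableAt ℝ (be0 X) l := (kk_conv_nice (G0 X) _ nG bG).1.1
  have hHr : ∀ l : ℝ, HasDerivAt (fun v : ℝ => (H v).re) (deriv H l).re l ∧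
      deriv H l = ((deriv H l).re : ℂ) := by
    intro l
    exact g4_real (c1 l (by simp; positivity)).1 (fun v => (c3 v).1)
  have hD : ∀ l : ℝ, HasDerivAt (fun v : ℝ => Real.log (H v).re - be0 X v) 0 l := by
    intro l
    have e1 := (hHr l).1.log (c3 l).2.ne'
    have e2 := e1.sub (hbd l).hasDerivAt
    have e3 : (deriv H l).re / (H l).re = deriv (be0 X) l := by
      have h4 := hrep l
      have h5 : H l = ((H l).re : ℂ) := by
        apply Complex.ext
        · simp
        · simp [(c3 l).1]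
      rw [(hHr l).2, h5] at h4
      exact_mod_cast h4
    rw [e3, sub_self] at e2
    exact e2
  have hconst : ∀ a b : ℝ, Real.log (H a).re - be0 X a = Real.log (H b).re - be0 X b :=
    fun a b => is_const_of_deriv_eq_zero (fun l => (hD l).differentiableAt) (fun l => (hD l).deriv) a b
  -- the limit at infinity
  have l1 : Tendsto (fun v : ℝ => Real.log (H v).re) atTop (𝓝 (Real.log (2 * Real.sqrt 3))) :=
    (Real.continuousAt_log (by positivity)).tendsto.comp c4
  have l2 : Tendsto (G0 X) atTop (𝓝 (Real.log 12)) := by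
    have h3 : Tendsto (fun v => 9 + X v ^ 2) atTop (𝓝 12) := by
      have := (x5.pow 2).const_add 9
      have h3' : (9 : ℝ) + Real.sqrt 3 ^ 2 = 12 := by
        rw [Real.sq_sqrt (by norm_num)]; norm_num
      rwa [h3'] at this
    exact (Real.continuousAt_log (by norm_num)).tendsto.comp h3
  have l3 : Tendsto (be0 X) atTop (𝓝 (Real.log 12 / 2)) :=
    kk_conv_top (G0 X) _ _ nG.1.continuous bG l2
  have l4 : Real.log (2 * Real.sqrt 3) = Real.log 12 / 2 := by
    have : (2 * Real.sqrt 3) ^ 2 = 12 := by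
      rw [mul_pow, Real.sq_sqrt (by norm_num)]; norm_num
    rw [← this, Real.log_pow]
    push_cast
    ring
  have l5 : Tendsto (fun v : ℝ => Real.log (H v).re - be0 X v) atTop (𝓝 0) := by
    have := l1.sub l3
    rwa [l4, sub_self] at this
  have l6 : Real.log (H u).re - be0 X u = 0 := by
    have h7 : (fun v : ℝ => Real.log (H v).re - be0 X v) = fun _ => Real.log (H u).re - be0 X u :=
      funext fun v => hconst v u
    rw [h7] at l5
    exact tendsto_nhds_unique tendsto_const_nhds l5
  have l7 : Real.log (H u).re = be0 X u := by linarith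
  rw [← l7, Real.exp_log (c3 u).2]

end H906K
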