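import Pool.Agent.H906R3.K6.Defs2
import Pool.Agent.H906R3.K6.A1
import Pool.Agent.H906R3.K6.G2
import Pool.Agent.H906R3.K6.G3a
import Pool.Agent.H906R3.K6.G3b
import Pool.Agent.H906R3.K6.G3c
import Pool.Agent.H906R3.K6.G4

/-!
# The system of integral equations
-/

namespace H906K
open Pool.Agent.H974R3 Polynomial MeasureTheory Filter Topology

lemma g5_coeff {t : ℝ[X]} {k : ℕ} {c : ℝ}
    (h : (t.map (algebraMap ℝ ℂ)).coeff k = (c : ℂ)) : t.coeff k = c := by
  rw [Polynomial.coeff_map] at h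
  exact Complex.ofReal_injective h

lemma g5_deg {t : ℝ[X]} {N : ℕ} (h : (t.map (algebraMap ℝ ℂ)).natDegree ≤ N) :
    t.natDegree ≤ N := by
  rwa [Polynomial.natDegree_map_eq_of_injective (algebraMap ℝ ℂ).injective] at h

lemma g5_re {z : ℂ} (h : z.im = 0) : z = (z.re : ℂ) := by
  apply Complex.ext
  · simp
  · simp [h]

lemma g5_pi : Real.pi / 3 ≤ 2 * Real.pi / 3 := by
  have := Real.pi_pos
  linarith

/-- the sum of the boundary values of `X` -/
lemma g5_A1 {n : ℕ} {t1 t2 V1 V2 : ℝ[X]} (h : RPert n t1 t2 V1 V2) (u : ℝ) :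
    Xc n t1 (u + Real.pi / 3 * Complex.I) + Xc n t1 (u - Real.pi / 3 * Complex.I)
      = (A1 (2 * n + 1) (fun u => (Xc n t1 u).re) u : ℂ) := by
  have h0 : |(u : ℂ).im| ≤ Real.pi / 3 := by
    rw [Complex.ofReal_im, abs_zero]
    positivity
  have h1 := rel_one h (u : ℂ) h0
  rw [h1, g5_re ((hc_an h).2.2.1 u).1, log_rep h u]
  have h2 : (3 * (u : ℂ) / 4) = ((3 * u / 4 : ℝ) : ℂ) := by push_cast; ring
  rw [h2, ← Complex.ofReal_tanh]
  unfold A1
  push_cast
  ring

lemma g5_int (f : ℂ → ℂ) (g : ℝ → ℝ) (K : ℝ) (hr : ∀ u : ℝ, (f u).im = 0)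
    (hf : ∀ z : ℂ, |z.im| ≤ Real.pi / 3 → DifferentiableAt ℂ f z)
    (hb : ∀ z : ℂ, |z.im| ≤ Real.pi / 3 → ‖f z‖ ≤ K)
    (hg : ∀ u : ℝ, f (u + Real.pi / 3 * Complex.I) + f (u - Real.pi / 3 * Complex.I) = (g u : ℂ))
    (l : ℝ) : (f l).re = ∫ u : ℝ, kk (l - u) * g u := by
  have h1 := strip_rep f K hf hb l
  rw [g5_re (hr l)] at h1
  have h2 : ∫ u : ℝ, (kk (l - u) : ℂ) * (f (u + Real.pi / 3 * Complex.I)
      + f (u - Real.pi / 3 * Complex.I)) = ((∫ u : ℝ, kk (l - u) * g u : ℝ) : ℂ) := by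
    rw [← integral_complex_ofReal]
    congr 1
    funext u
    rw [hg u]
    push_cast
    ring
  rw [h2] at h1
  exact Complex.ofReal_injective h1

theorem sys_of_rpert {n : ℕ} {t1 t2 V1 V2 : ℝ[X]} (h : RPert n t1 t2 V1 V2) :
    Sys (2 * n + 1) (fun u => (Xc n t1 u).re)
      (fun u => (Xc n t2 u).re - (Xc n t1 u).re ^ 2 / 2) (fun u => (Bc V1 V2 u).re) := by
  obtain ⟨a1, ⟨K1, b1⟩, c1, d1, e1, f1⟩ := Xc_an n t1 (g5_deg h.pert.deg1)
  obtain ⟨a2, ⟨K2, b2⟩, c2, d2, e2, f2⟩ := Xc_an n t2 (g5_deg h.pert.deg2)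
  obtain ⟨a3, ⟨K3, b3⟩, c3, d3, e3, f3⟩ := Bc_an h
  have hT1 : t1.coeff (2 * n + 1) = Real.sqrt 3 := g5_coeff h.pert.top1
  have hB1 : t1.coeff 0 = -Real.sqrt 3 := g5_coeff (by rw [h.pert.bot1]; push_cast; ring)
  have hT2 : t2.coeff (2 * n + 1) = -1 / 2 := g5_coeff (by rw [h.pert.top2]; push_cast; ring)
  have hB2 : t2.coeff 0 = -1 / 2 := g5_coeff (by rw [h.pert.bot2]; push_cast; ring)
  have hbX : ∀ u : ℝ, ‖(Xc n t1 u).re‖ ≤ K1 := by
    intro u
    refine le_trans ?_ (b1 u (by rw [Complex.ofReal_im, abs_zero]; positivity))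
    rw [Real.norm_eq_abs]
    exact Complex.abs_re_le_norm _
  have hdY : ∀ u : ℝ, HasDerivAt (fun u : ℝ => (Xc n t2 u).re - (Xc n t1 u).re ^ 2 / 2)
      (deriv (fun u : ℝ => (Xc n t2 u).re) u
        - (Xc n t1 u).re * deriv (fun u : ℝ => (Xc n t1 u).re) u) u := by
    intro u
    have h1 := (d1.1 u).hasDerivAt
    have h2 := (d2.1 u).hasDerivAt
    have h3 := h2.sub ((h1.pow 2).div_const 2)
    refine h3.congr_deriv ?_
    simp only [Nat.cast_ofNat, Nat.add_one_sub_one, pow_one]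
    ring
  have hderY : deriv (fun u : ℝ => (Xc n t2 u).re - (Xc n t1 u).re ^ 2 / 2) = fun u : ℝ =>
      deriv (fun u : ℝ => (Xc n t2 u).re) u
        - (Xc n t1 u).re * deriv (fun u : ℝ => (Xc n t1 u).re) u := by
    funext u
    exact (hdY u).deriv
  refine ⟨d1, ?_, d3, ?_, ?_, ?_, ?_, ?_, ?_, ?_, e3, f3⟩
  · -- `Y` is nice
    refine ⟨fun u => (hdY u).differentiableAt, ?_, ?_⟩
    · rw [hderY]
      exact d2.2.1.sub (d1.1.continuous.mul d1.2.1)
    · rw [hderY]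
      refine d2.2.2.sub ?_
      exact d1.2.2.bdd_mul d1.1.continuous.aestronglyMeasurable
        (Filter.Eventually.of_forall hbX)
  · -- equation for `X`
    intro l
    exact g5_int (Xc n t1) _ K1 c1 (fun z hz => a1 z (hz.trans g5_pi))
      (fun z hz => b1 z (hz.trans g5_pi)) (g5_A1 h) l
  · -- equation for `Y`
    intro l
    have key := g5_int (fun z => Xc n t2 z - Xc n t1 z ^ 2 / 2)
      (fun u => A2 (2 * n + 1) (fun u => (Xc n t1 u).re) (fun u => (Bc V1 V2 u).re) u)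
      (K2 + K1 ^ 2 / 2) ?_ ?_ ?_ ?_ l
    · rw [← key]
      have h1 := g5_re (c1 l)
      rw [Complex.sub_re]
      congr 1
      rw [h1]
      simp only [Complex.ofReal_re]
      have h5 : ((((Xc n t1 l).re : ℝ) : ℂ) ^ 2 / 2) = (((Xc n t1 l).re ^ 2 / 2 : ℝ) : ℂ) := by
        push_cast
        ring
      rw [h5, Complex.ofReal_re]
    · intro u
      have h1 := g5_re (c1 u)
      have h2 := g5_re (c2 u)
      have h5 : Xc n t2 u - Xc n t1 u ^ 2 / 2 =
          (((Xc n t2 u).re - (Xc n t1 u).re ^ 2 / 2 : ℝ) : ℂ) := by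
        conv_lhs => rw [h1, h2]
        push_cast
        ring
      show (Xc n t2 u - Xc n t1 u ^ 2 / 2).im = 0
      rw [h5, Complex.ofReal_im]
    · intro z hz
      exact (a2 z (hz.trans g5_pi)).sub (((a1 z (hz.trans g5_pi)).pow 2).div_const 2)
    · intro z hz
      refine (norm_sub_le _ _).trans (add_le_add (b2 z (hz.trans g5_pi)) ?_)
      rw [norm_div, norm_pow, Complex.norm_two]
      have := b1 z (hz.trans g5_pi)
      have h0 := norm_nonneg (Xc n t1 z)
      gcongr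
    · intro u
      have h1 := g5_A1 h u
      have h2 := rel_two h u
      rw [h1] at h2
      have h3 := g5_re (c3 u)
      rw [h3] at h2
      have e : Xc n t2 (u + Real.pi / 3 * Complex.I) - Xc n t1 (u + Real.pi / 3 * Complex.I) ^ 2 / 2
          + (Xc n t2 (u - Real.pi / 3 * Complex.I)
            - Xc n t1 (u - Real.pi / 3 * Complex.I) ^ 2 / 2) =
          (Xc n t2 (u + Real.pi / 3 * Complex.I) + Xc n t2 (u - Real.pi / 3 * Complex.I)
            + Xc n t1 (u + Real.pi / 3 * Complex.I) * Xc n t1 (u - Real.pi / 3 * Complex.I))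
          - (Xc n t1 (u + Real.pi / 3 * Complex.I)
            + Xc n t1 (u - Real.pi / 3 * Complex.I)) ^ 2 / 2 := by ring
      rw [e, h2, h1]
      unfold A2
      push_cast
      ring
  · -- equation for `B`
    intro l
    refine g5_int (Bc V1 V2) _ K3 c3 a3 b3 ?_ l
    intro u
    have h2 := rel_B h u
    have h1 := g5_re (c1 u)
    have h3 := g5_re (c2 u)
    rw [h1, h3] at h2
    have hpos : (0 : ℝ) < 9 + (Xc n t1 u).re ^ 2 := by positivity
    have hne : ((9 : ℂ) + (((Xc n t1 u).re : ℝ) : ℂ) ^ 2) ≠ 0 := by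
      have : ((9 : ℂ) + (((Xc n t1 u).re : ℝ) : ℂ) ^ 2) = ((9 + (Xc n t1 u).re ^ 2 : ℝ) : ℂ) := by
        push_cast
        ring
      rw [this]
      exact Complex.ofReal_ne_zero.2 hpos.ne'
    rw [eq_div_of_mul_eq hne h2]
    unfold G1
    push_cast
    congr 1
    ring
  · rw [← hT1]; exact e1
  · rw [← hB1]; exact f1
  · have := e2.sub ((e1.pow 2).div_const 2)
    rw [hT1, hT2, Real.sq_sqrt (by norm_num)] at this
    convert this using 2
    norm_num
  · have := f2.sub ((f1.pow 2).div_const 2)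
    rw [hB1, hB2, neg_sq, Real.sq_sqrt (by norm_num)] at this
    convert this using 2
    norm_num

end H906K
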