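import Pool.Agent.H906R3.K6.Defs2

/-! Task P2: limit of the variance of the displacement (the identification of the displacement with
the second component of `run` is a hypothesis here). -/

namespace H906K
open Pool.Agent.H974R3 Polynomial MeasureTheory Filter Topology

theorem p2_om : om ^ 2 + om + 1 = 0 := by
  have h3 : Real.sqrt 3 * Real.sqrt 3 = 3 := Real.mul_self_sqrt (by norm_num)
  apply Complex.ext
  · simp only [om, pow_two, Complex.add_re, Complex.mul_re, Complex.one_re, Complex.zero_re]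
    nlinarith [h3]
  · simp only [om, pow_two, Complex.add_im, Complex.mul_im, Complex.one_im, Complex.zero_im]
    ring

theorem p2_wt (b : Bool) : wt (PowerSeries.C om) b 1 = 1 := by
  have h : (PowerSeries.C om) ^ 2 + PowerSeries.C om + 1 = 0 := by
    have := congrArg (PowerSeries.C (R := ℂ)) p2_om
    simpa using this
  cases b
  · simp only [wt]
    simp only [Bool.false_eq_true, if_false]
    linear_combination -h
  · simp only [wt, if_true]
    linear_combination -h

theorem p2_ez (k : ℤ) : ((ez ^ k : (PowerSeries ℂ)ˣ) : PowerSeries ℂ) = expI k := by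
  induction k using Int.induction_on with
  | zero => simp [expI_zero]
  | succ k ih =>
    rw [zpow_add_one, Units.val_mul, ih]
    show expI _ * expI 1 = _
    rw [expI_mul]; push_cast; rfl
  | pred k ih =>
    rw [zpow_sub_one, Units.val_mul, ih]
    show expI _ * expI (-1) = _
    rw [expI_mul]; push_cast; ring_nf

theorem p2_exp0 (a : ℂ) : PowerSeries.coeff 0 (expI a) = 1 := by
  simp [expI, PowerSeries.coeff_exp]

theorem p2_exp1 (a : ℂ) : PowerSeries.coeff 1 (expI a) = a * Complex.I := by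
  simp [expI, PowerSeries.coeff_rescale, PowerSeries.coeff_exp]

theorem p2_exp2 (a : ℂ) : PowerSeries.coeff 2 (expI a) = -a ^ 2 / 2 := by
  simp only [expI, PowerSeries.coeff_rescale, PowerSeries.coeff_exp]
  rw [mul_pow, Complex.I_sq]
  simp [Nat.factorial]
  ring

theorem p2_mul0 (f g : PowerSeries ℂ) : PowerSeries.coeff 0 (f * g) =
    PowerSeries.coeff 0 f * PowerSeries.coeff 0 g := by
  rw [PowerSeries.coeff_mul]; simp

theorem p2_mul1 (f g : PowerSeries ℂ) : PowerSeries.coeff 1 (f * g) =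
    PowerSeries.coeff 0 f * PowerSeries.coeff 1 g + PowerSeries.coeff 1 f * PowerSeries.coeff 0 g := by
  rw [PowerSeries.coeff_mul]; simp [Finset.Nat.antidiagonal_succ]

theorem p2_mul2 (f g : PowerSeries ℂ) : PowerSeries.coeff 2 (f * g) =
    PowerSeries.coeff 0 f * PowerSeries.coeff 2 g + PowerSeries.coeff 1 f * PowerSeries.coeff 1 g
      + PowerSeries.coeff 2 f * PowerSeries.coeff 0 g := by
  rw [PowerSeries.coeff_mul]; simp [Finset.Nat.antidiagonal_succ]
  ring

theorem p2_snoc {α β : Type*} [Fintype α] [AddCommMonoid β] (M : ℕ) (f : (Fin (M + 1) → α) → β) :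
    ∑ c, f c = ∑ c' : Fin M → α, ∑ r : α, f (Fin.snoc (α := fun _ => α) c' r) := by
  rw [← (Fin.snocEquiv (fun _ : Fin (M + 1) => α)).sum_comp, Fintype.sum_prod_type_right]
  rfl

theorem p2_run (m M : ℕ) (c : Fin M → Fin (m + 1) → Bool) (r : Fin (m + 1) → Bool) (σ : Pat (m + 1)) :
    run m (M + 1) (Fin.snoc (α := fun _ => Fin (m + 1) → Bool) c r) σ =
      (Tc m r (run m M c σ).1, (run m M c σ).2 + dTc m r (run m M c σ).1) := by
  have h : (fun i : Fin M => (Fin.snoc (α := fun _ => Fin (m + 1) → Bool) c r : Fin (M + 1) → _)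
      i.castSucc) = c := by
    funext i; simp
  have h2 : (Fin.snoc (α := fun _ => Fin (m + 1) → Bool) c r : Fin (M + 1) → _) (Fin.last M) = r := by
    simp
  show (Tc m _ _, _) = _
  rw [h, h2]

section
variable {n : ℕ} {L : PowerSeries ℂ} {w : Pat (2 * n + 1) → PowerSeries ℂ}

theorem p2_row (h : (TL (2 * n) (PowerSeries.C om) 1 ez).vecMul w = L • w) (σ : Pat (2 * n + 1)) :
    ∑ r, w (Tc (2 * n) r σ) * expI (dTc (2 * n) r σ) = L * w σ := by
  have := congrFun h σ
  rw [Pi.smul_apply, smul_eq_mul] at this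
  rw [← this]
  show _ = ∑ τ, w τ * TL (2 * n) (PowerSeries.C om) 1 ez τ σ
  simp only [TL, p2_wt, Finset.prod_const_one, one_mul, p2_ez, Finset.mul_sum]
  rw [Finset.sum_comm]
  refine Finset.sum_congr rfl fun r _ => ?_
  rw [Finset.sum_eq_single (Tc (2 * n) r σ)]
  · simp
  · intro τ _ hτ
    rw [if_neg (Ne.symm hτ), mul_zero]
  · intro h; exact absurd (Finset.mem_univ _) h

theorem p2_all (h : (TL (2 * n) (PowerSeries.C om) 1 ez).vecMul w = L • w) (σ : Pat (2 * n + 1))
    (M : ℕ) : ∑ c, w (run (2 * n) M c σ).1 * expI ((run (2 * n) M c σ).2 : ℂ) = L ^ M * w σ := by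
  induction M with
  | zero => simp [run, expI_zero]
  | succ M ih =>
    rw [p2_snoc, pow_succ', mul_assoc, ← ih, Finset.mul_sum]
    refine Finset.sum_congr rfl fun c _ => ?_
    simp only [p2_run]
    rw [← mul_assoc, ← p2_row h, Finset.sum_mul]
    refine Finset.sum_congr rfl fun r _ => ?_
    push_cast
    rw [mul_assoc, expI_mul, add_comm ((run (2 * n) M c σ).2 : ℂ)]

end

/-- elementary estimate -/
theorem p2_lim (y R : ℕ → ℝ) (s a b : ℝ) (ha : 0 ≤ a) (hb : 0 ≤ b) (hy : ∀ M, 0 ≤ y M)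
    (h : ∀ M : ℕ, y M = M * s + R M) (hR : ∀ M, |R M| ≤ a + b * Real.sqrt (y M)) :
    Tendsto (fun M : ℕ => y M / M) atTop (𝓝 s) := by
  have h1 : ∀ M : ℕ, y M ≤ 2 * (M * |s|) + (2 * a + b ^ 2) := by
    intro M
    have e1 := hR M
    have e2 := Real.sq_sqrt (hy M)
    have e3 : y M ≤ M * |s| + (a + b * Real.sqrt (y M)) := by
      have t0 := h M
      have t1 : (M : ℝ) * s ≤ M * |s| := mul_le_mul_of_nonneg_left (le_abs_self s) (Nat.cast_nonneg M)
      have t2 := le_abs_self (R M)
      linarith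
    nlinarith [sq_nonneg (Real.sqrt (y M) - b)]
  obtain ⟨D, hD0, hD⟩ : ∃ D : ℝ, 0 ≤ D ∧ ∀ M : ℕ, 1 ≤ M → y M ≤ D ^ 2 * M := by
    refine ⟨Real.sqrt (2 * |s| + (2 * a + b ^ 2)), Real.sqrt_nonneg _, fun M hM => ?_⟩
    rw [Real.sq_sqrt (by positivity)]
    refine (h1 M).trans ?_
    have hM' : (1 : ℝ) ≤ M := by exact_mod_cast hM
    nlinarith [mul_nonneg (by positivity : (0 : ℝ) ≤ 2 * a + b ^ 2) (sub_nonneg.2 hM')]
  have h2 : ∀ M : ℕ, 1 ≤ M → |y M / M - s| ≤ a * (1 / M) + b * D * (1 / Real.sqrt M) := by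
    intro M hM
    have hM' : (0 : ℝ) < M := by exact_mod_cast hM
    have e : y M / M - s = R M / M := by
      rw [h M]; field_simp; ring
    rw [e, abs_div, abs_of_pos hM', div_le_iff₀ hM']
    refine (hR M).trans ?_
    have e1 : Real.sqrt (y M) ≤ D * Real.sqrt M := by
      rw [← Real.sqrt_sq hD0, ← Real.sqrt_mul (sq_nonneg D)]
      exact Real.sqrt_le_sqrt (hD M hM)
    have e2 : Real.sqrt M * Real.sqrt M = M := Real.mul_self_sqrt hM'.le
    have e3 : (0 : ℝ) < Real.sqrt M := Real.sqrt_pos.2 hM'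
    have e4 : (a * (1 / M) + b * D * (1 / Real.sqrt M)) * M = a + b * (D * Real.sqrt M) := by
      have : (M : ℝ) / Real.sqrt M = Real.sqrt M := by
        rw [div_eq_iff e3.ne']; exact e2.symm
      calc (a * (1 / M) + b * D * (1 / Real.sqrt M)) * M = a * (M / M) + b * D * (M / Real.sqrt M) := by
            ring
        _ = _ := by rw [this, div_self hM'.ne']; ring
    rw [e4]
    nlinarith [mul_le_mul_of_nonneg_left e1 hb]
  have h3 : Tendsto (fun M : ℕ => a * (1 / (M : ℝ)) + b * D * (1 / Real.sqrt M)) atTop (𝓝 0) := by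
    have t1 : Tendsto (fun M : ℕ => 1 / (M : ℝ)) atTop (𝓝 0) := tendsto_one_div_atTop_nhds_zero_nat
    have t2 : Tendsto (fun M : ℕ => 1 / Real.sqrt (M : ℝ)) atTop (𝓝 0) := by
      have := (Real.tendsto_sqrt_atTop.comp (tendsto_natCast_atTop_atTop (R := ℝ))).inv_tendsto_atTop
      refine this.congr fun M => ?_
      simp [Function.comp_def, one_div]
    simpa using (t1.const_mul a).add (t2.const_mul (b * D))
  rw [tendsto_iff_norm_sub_tendsto_zero]
  refine squeeze_zero' (Eventually.of_forall fun _ => norm_nonneg _) ?_ h3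
  filter_upwards [eventually_ge_atTop 1] with M hM
  rw [Real.norm_eq_abs]
  exact h2 M hM

theorem var_limit_of (n : ℕ) (L : PowerSeries ℂ) (w : Pat (2 * n + 1) → PowerSeries ℂ)
    (hend : ∀ (M : ℕ) (c : Fin M → Fin (2 * n + 1) → Bool) (X : ℤ),
      End n M c X ↔ X = (run (2 * n) M c (start n)).2)
    (hw : ∀ σ, PowerSeries.coeff 0 (w σ) = 1)
    (h : (TL (2 * n) (PowerSeries.C om) 1 ez).vecMul w = L • w)
    (h1 : (PowerSeries.coeff 1 L).im = 0) :
    PowerSeries.coeff 1 L = 0 ∧ Tendsto (fun M : ℕ => VarX n M / M) atTop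
      (𝓝 (-(2 * (PowerSeries.coeff 2 L).re / 2 ^ (2 * n + 1)))) := by
  classical
  -- notation
  set K : ℝ := 2 ^ (2 * n + 1) with hK
  have hK0 : 0 < K := by positivity
  have hcard : ∀ M : ℕ, (Fintype.card (Fin M → Fin (2 * n + 1) → Bool) : ℝ) = K ^ M := by
    intro M
    simp [hK]
  have hExK : ∀ M (f : (Fin M → Fin (2 * n + 1) → Bool) → ℝ), Ex n M f = (∑ c, f c) / K ^ M := by
    intro M f; rw [Ex, hK, ← pow_mul]
  have hKM : ∀ M : ℕ, (0 : ℝ) < K ^ M := fun M => by positivity
  -- the displacement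
  set x : ∀ M, (Fin M → Fin (2 * n + 1) → Bool) → ℝ :=
    fun M c => ((run (2 * n) M c (start n)).2 : ℝ) with hx
  set p : ∀ M, (Fin M → Fin (2 * n + 1) → Bool) → Pat (2 * n + 1) :=
    fun M c => (run (2 * n) M c (start n)).1 with hp
  have hXd : ∀ M c, (Xd n M c : ℝ) = x M c := by
    intro M c
    have : End n M c (Xd n M c) := Classical.epsilon_spec (p := End n M c)
      ⟨_, (hend M c _).2 rfl⟩
    rw [hx, (hend M c _).1 this]
  -- coefficient 0 of L
  have hL0 : PowerSeries.coeff 0 L = (K : ℂ) := by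
    have := congrArg (PowerSeries.coeff 0) (p2_row h (start n))
    rw [map_sum, p2_mul0, hw, mul_one] at this
    simp only [p2_mul0, hw, p2_exp0, mul_one] at this
    rw [← this, hK]
    simp
  have hLM0 : ∀ M : ℕ, PowerSeries.coeff 0 (L ^ M) = (K : ℂ) ^ M := by
    intro M
    induction M with
    | zero => simp
    | succ M ih => rw [pow_succ, p2_mul0, ih, hL0, pow_succ]
  have hLM1 : ∀ M : ℕ, PowerSeries.coeff 1 (L ^ M) * K = M * K ^ M * PowerSeries.coeff 1 L := by
    intro M
    induction M with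
    | zero => simp [PowerSeries.coeff_one]
    | succ M ih =>
      rw [pow_succ, p2_mul1, hLM0, hL0, add_mul]
      rw [show PowerSeries.coeff 1 (L ^ M) * (K : ℂ) * K = (PowerSeries.coeff 1 (L ^ M) * K) * K by ring, ih]
      push_cast
      ring
  -- bounds for the coefficients of w
  obtain ⟨B, hB⟩ : ∃ B : ℝ, ∀ σ, ‖PowerSeries.coeff 1 (w σ)‖ ≤ B ∧ ‖PowerSeries.coeff 2 (w σ)‖ ≤ B := by
    obtain ⟨B1, hB1⟩ := (Set.finite_range fun σ => ‖PowerSeries.coeff 1 (w σ)‖).bddAbove
    obtain ⟨B2, hB2⟩ := (Set.finite_range fun σ => ‖PowerSeries.coeff 2 (w σ)‖).bddAbove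
    exact ⟨max B1 B2, fun σ => ⟨(hB1 ⟨σ, rfl⟩).trans (le_max_left _ _),
      (hB2 ⟨σ, rfl⟩).trans (le_max_right _ _)⟩⟩
  have hB0 : 0 ≤ B := (norm_nonneg _).trans (hB (start n)).1
  -- coefficient 1 identity
  have id1 : ∀ M : ℕ, (∑ c, PowerSeries.coeff 1 (w (p M c))) + Complex.I * ((∑ c, x M c : ℝ) : ℂ)
      = PowerSeries.coeff 1 (L ^ M) + K ^ M * PowerSeries.coeff 1 (w (start n)) := by
    intro M
    have := congrArg (PowerSeries.coeff 1) (p2_all h (start n) M)
    rw [map_sum, p2_mul1, hLM0, hw] at this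
    simp only [p2_mul1, hw, p2_exp0, p2_exp1, mul_one, one_mul, Finset.sum_add_distrib] at this
    push_cast
    rw [Finset.mul_sum]
    simp only [hp, hx]
    push_cast
    rw [add_comm (PowerSeries.coeff 1 (L ^ M)), ← this, add_comm]
    congr 1
    exact Finset.sum_congr rfl fun c _ => mul_comm _ _
  have sum_bd : ∀ (M : ℕ) (g : (Fin M → Fin (2 * n + 1) → Bool) → ℂ) (b : ℝ), (∀ c, ‖g c‖ ≤ b) →
      ‖∑ c, g c‖ ≤ b * K ^ M := by
    intro M g b hg
    refine (norm_sum_le _ _).trans ?_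
    refine (Finset.sum_le_card_nsmul _ _ b fun c _ => hg c).trans ?_
    rw [Finset.card_univ, nsmul_eq_mul, hcard, mul_comm]
  -- the coefficient 1 vanishes
  have hL1 : PowerSeries.coeff 1 L = 0 := by
    have hre : ∀ M : ℕ, M * |(PowerSeries.coeff 1 L).re| ≤ 2 * B * K := by
      intro M
      have e1 : PowerSeries.coeff 1 (L ^ M) = (∑ c, PowerSeries.coeff 1 (w (p M c)))
          + Complex.I * ((∑ c, x M c : ℝ) : ℂ) - ((K ^ M : ℝ) : ℂ) * PowerSeries.coeff 1 (w (start n)) := by
        rw [id1 M]; push_cast; ring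
      have e2 := congrArg Complex.re e1
      rw [Complex.sub_re, Complex.add_re, Complex.I_mul_re, Complex.ofReal_im, neg_zero, add_zero,
        Complex.re_ofReal_mul] at e2
      have e3 := congrArg Complex.re (hLM1 M)
      rw [Complex.re_mul_ofReal, show (M : ℂ) * (K : ℂ) ^ M * PowerSeries.coeff 1 L
        = ((M * K ^ M : ℝ) : ℂ) * PowerSeries.coeff 1 L by push_cast; rfl, Complex.re_ofReal_mul,
        mul_assoc] at e3
      have b1 : |(∑ c, PowerSeries.coeff 1 (w (p M c))).re| ≤ B * K ^ M :=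
        (Complex.abs_re_le_norm _).trans (sum_bd M _ B fun c => (hB _).1)
      have b2 : |K ^ M * (PowerSeries.coeff 1 (w (start n))).re| ≤ B * K ^ M := by
        rw [abs_mul, abs_of_pos (hKM M), mul_comm]
        exact mul_le_mul_of_nonneg_right ((Complex.abs_re_le_norm _).trans (hB _).1) (hKM M).le
      have b3 : |(PowerSeries.coeff 1 (L ^ M)).re| ≤ 2 * B * K ^ M := by
        rw [e2]
        refine (abs_sub _ _).trans ?_
        linarith
      have b4 : (M * |(PowerSeries.coeff 1 L).re|) * K ^ M ≤ (2 * B * K) * K ^ M := by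
        calc (M * |(PowerSeries.coeff 1 L).re|) * K ^ M
            = |M * (K ^ M * (PowerSeries.coeff 1 L).re)| := by
              rw [abs_mul, abs_mul, abs_of_pos (hKM M), Nat.abs_cast]; ring
          _ = |(PowerSeries.coeff 1 (L ^ M)).re| * K := by
              rw [← e3, abs_mul, abs_of_pos hK0]
          _ ≤ 2 * B * K ^ M * K := mul_le_mul_of_nonneg_right b3 hK0.le
          _ = _ := by ring
      exact le_of_mul_le_mul_right b4 (hKM M)
    have : (PowerSeries.coeff 1 L).re = 0 := by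
      by_contra hne
      have hpos : 0 < |(PowerSeries.coeff 1 L).re| := abs_pos.2 hne
      obtain ⟨M, hM⟩ := exists_nat_gt (2 * B * K / |(PowerSeries.coeff 1 L).re|)
      rw [div_lt_iff₀ hpos] at hM
      exact absurd (hre M) (not_le.2 hM)
    exact Complex.ext this h1
  refine ⟨hL1, ?_⟩
  have hLM1' : ∀ M : ℕ, PowerSeries.coeff 1 (L ^ M) = 0 := by
    intro M
    have := hLM1 M
    rw [hL1, mul_zero] at this
    rcases mul_eq_zero.1 this with h' | h'
    · exact h'
    · exact absurd (Complex.ofReal_eq_zero.1 h') hK0.ne'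
  have hLM2 : ∀ M : ℕ, PowerSeries.coeff 2 (L ^ M) * K = M * K ^ M * PowerSeries.coeff 2 L := by
    intro M
    induction M with
    | zero => simp [PowerSeries.coeff_one]
    | succ M ih =>
      rw [pow_succ, p2_mul2, hLM0, hL0, hL1, mul_zero, add_zero, add_mul]
      rw [show PowerSeries.coeff 2 (L ^ M) * (K : ℂ) * K = (PowerSeries.coeff 2 (L ^ M) * K) * K by ring, ih]
      push_cast
      ring
  -- coefficient 2 identity
  have id2 : ∀ M : ℕ, (∑ c, PowerSeries.coeff 2 (w (p M c)))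
      + Complex.I * (∑ c, PowerSeries.coeff 1 (w (p M c)) * (x M c : ℂ))
      - ((∑ c, x M c ^ 2 : ℝ) : ℂ) / 2
      = PowerSeries.coeff 2 (L ^ M) + ((K ^ M : ℝ) : ℂ) * PowerSeries.coeff 2 (w (start n)) := by
    intro M
    have := congrArg (PowerSeries.coeff 2) (p2_all h (start n) M)
    rw [map_sum, p2_mul2, hLM0, hw, hLM1', zero_mul, add_zero, mul_one] at this
    simp only [p2_mul2, hw, p2_exp0, p2_exp1, p2_exp2, mul_one, one_mul, Finset.sum_add_distrib] at this
    have r1 : ∑ c, -(((run (2 * n) M c (start n)).2 : ℂ)) ^ 2 / 2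
        = -((∑ c, x M c ^ 2 : ℝ) : ℂ) / 2 := by
      rw [← Finset.sum_div, Finset.sum_neg_distrib]
      simp only [hx]
      push_cast
      rfl
    have r2 : ∑ c, PowerSeries.coeff 1 (w (run (2 * n) M c (start n)).1)
        * (((run (2 * n) M c (start n)).2 : ℂ) * Complex.I)
        = Complex.I * (∑ c, PowerSeries.coeff 1 (w (p M c)) * (x M c : ℂ)) := by
      rw [Finset.mul_sum]
      refine Finset.sum_congr rfl fun c _ => ?_
      simp only [hx, hp]
      push_cast
      ring
    rw [r1, r2] at this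
    push_cast at this ⊢
    linear_combination this
  -- mean and second moment
  have hCS : ∀ (M : ℕ), (∑ c, |x M c|) ≤ Real.sqrt (Ex n M (fun c => x M c ^ 2)) * K ^ M := by
    intro M
    rw [← Real.sqrt_sq (hKM M).le, ← Real.sqrt_mul (by rw [hExK]; positivity)]
    apply Real.le_sqrt_of_sq_le
    rw [hExK]
    have := sq_sum_le_card_mul_sum_sq (s := (Finset.univ : Finset (Fin M → Fin (2 * n + 1) → Bool)))
      (f := fun c => |x M c|)
    rw [Finset.card_univ, hcard] at this
    refine this.trans (le_of_eq ?_)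
    simp only [sq_abs]
    field_simp
  have hEbd : ∀ M, |Ex n M (x M)| ≤ 2 * B := by
    intro M
    rw [hExK, abs_div, abs_of_pos (hKM M), div_le_iff₀ (hKM M)]
    have e1 := id1 M
    rw [hLM1', zero_add] at e1
    have e2 : Complex.I * ((∑ c, x M c : ℝ) : ℂ)
        = ((K ^ M : ℝ) : ℂ) * PowerSeries.coeff 1 (w (start n)) - ∑ c, PowerSeries.coeff 1 (w (p M c)) := by
      push_cast at e1 ⊢
      linear_combination e1
    have e3 : ‖Complex.I * ((∑ c, x M c : ℝ) : ℂ)‖ = |∑ c, x M c| := by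
      rw [norm_mul, Complex.norm_I, one_mul, Complex.norm_real, Real.norm_eq_abs]
    rw [← e3, e2]
    refine (norm_sub_le _ _).trans ?_
    have e4 : ‖((K ^ M : ℝ) : ℂ) * PowerSeries.coeff 1 (w (start n))‖ ≤ B * K ^ M := by
      rw [norm_mul, Complex.norm_real, Real.norm_eq_abs, abs_of_pos (hKM M), mul_comm]
      exact mul_le_mul_of_nonneg_right (hB _).1 (hKM M).le
    have e5 := sum_bd M (fun c => PowerSeries.coeff 1 (w (p M c))) B fun c => (hB _).1
    linarith
  have hlim2 : Tendsto (fun M : ℕ => Ex n M (fun c => x M c ^ 2) / M) atTop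
      (𝓝 (-(2 * (PowerSeries.coeff 2 L).re / 2 ^ (2 * n + 1)))) := by
    rw [← hK]
    refine p2_lim _ (fun M => Ex n M (fun c => x M c ^ 2) - M * -(2 * (PowerSeries.coeff 2 L).re / K))
      _ (4 * B) (2 * B) (by positivity) (by positivity) (fun M => by rw [hExK]; positivity)
      (fun M => by ring) (fun M => ?_)
    have e1 := congrArg Complex.re (id2 M)
    have e2 := congrArg Complex.re (hLM2 M)
    rw [Complex.re_mul_ofReal, show (M : ℂ) * (K : ℂ) ^ M * PowerSeries.coeff 2 L
        = ((M * K ^ M : ℝ) : ℂ) * PowerSeries.coeff 2 L by push_cast; rfl, Complex.re_ofReal_mul] at e2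
    rw [Complex.sub_re, Complex.add_re, Complex.add_re, Complex.I_mul_re, Complex.re_ofReal_mul,
      show (((∑ c, x M c ^ 2 : ℝ) : ℂ) / 2).re = (∑ c, x M c ^ 2) / 2 by
        rw [show (((∑ c, x M c ^ 2 : ℝ) : ℂ) / 2) = (((∑ c, x M c ^ 2) / 2 : ℝ) : ℂ) by push_cast; rfl,
          Complex.ofReal_re]] at e1
    have e3 : (PowerSeries.coeff 2 (L ^ M)).re = M * K ^ M * (PowerSeries.coeff 2 L).re / K := by
      rw [eq_div_iff hK0.ne']; exact e2
    have b1 : |(∑ c, PowerSeries.coeff 2 (w (p M c))).re| ≤ B * K ^ M :=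
      (Complex.abs_re_le_norm _).trans (sum_bd M _ B fun c => (hB _).2)
    have b2 : |K ^ M * (PowerSeries.coeff 2 (w (start n))).re| ≤ B * K ^ M := by
      rw [abs_mul, abs_of_pos (hKM M), mul_comm]
      exact mul_le_mul_of_nonneg_right ((Complex.abs_re_le_norm _).trans (hB _).2) (hKM M).le
    have b3 : |(∑ c, PowerSeries.coeff 1 (w (p M c)) * (x M c : ℂ)).im| ≤
        B * (Real.sqrt (Ex n M (fun c => x M c ^ 2)) * K ^ M) := by
      refine (Complex.abs_im_le_norm _).trans ((norm_sum_le _ _).trans ?_)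
      refine le_trans ?_ (mul_le_mul_of_nonneg_left (hCS M) hB0)
      rw [Finset.mul_sum]
      refine Finset.sum_le_sum fun c _ => ?_
      rw [norm_mul, Complex.norm_real, Real.norm_eq_abs]
      exact mul_le_mul_of_nonneg_right (hB _).1 (abs_nonneg _)
    have e4 : (Ex n M (fun c => x M c ^ 2) - M * -(2 * (PowerSeries.coeff 2 L).re / K)) * K ^ M
        = 2 * ((∑ c, PowerSeries.coeff 2 (w (p M c))).re
          - (∑ c, PowerSeries.coeff 1 (w (p M c)) * (x M c : ℂ)).im
          - K ^ M * (PowerSeries.coeff 2 (w (start n))).re) := by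
      rw [hExK, sub_mul, div_mul_cancel₀ _ (hKM M).ne']
      rw [e3] at e1
      have e5 : (M : ℝ) * K ^ M * (PowerSeries.coeff 2 L).re / K
          = K ^ M * (M * ((PowerSeries.coeff 2 L).re / K)) := by ring
      rw [e5] at e1
      linear_combination (-2) * e1
    have e6 : |Ex n M (fun c => x M c ^ 2) - M * -(2 * (PowerSeries.coeff 2 L).re / K)| * K ^ M
        ≤ (4 * B + 2 * B * Real.sqrt (Ex n M (fun c => x M c ^ 2))) * K ^ M := by
      rw [← abs_of_pos (hKM M), ← abs_mul, abs_of_pos (hKM M), e4, abs_mul, abs_two]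
      have t1 := abs_sub ((∑ c, PowerSeries.coeff 2 (w (p M c))).re
          - (∑ c, PowerSeries.coeff 1 (w (p M c)) * (x M c : ℂ)).im)
          (K ^ M * (PowerSeries.coeff 2 (w (start n))).re)
      have t2 := abs_sub ((∑ c, PowerSeries.coeff 2 (w (p M c))).re)
          ((∑ c, PowerSeries.coeff 1 (w (p M c)) * (x M c : ℂ)).im)
      nlinarith [b1, b2, b3, t1, t2]
    exact le_of_mul_le_mul_right e6 (hKM M)
  have hlim1 : Tendsto (fun M : ℕ => (Ex n M (fun c => x M c)) ^ 2 / M) atTop (𝓝 0) := by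
    have t : Tendsto (fun M : ℕ => (2 * B) ^ 2 * (1 / (M : ℝ))) atTop (𝓝 0) := by
      simpa using (tendsto_one_div_atTop_nhds_zero_nat (𝕜 := ℝ)).const_mul ((2 * B) ^ 2)
    refine squeeze_zero (fun M => by positivity) (fun M => ?_) t
    rw [mul_one_div]
    apply div_le_div_of_nonneg_right _ (Nat.cast_nonneg M)
    rw [← sq_abs]
    exact pow_le_pow_left₀ (abs_nonneg _) (hEbd M) 2
  have hfin := hlim2.sub hlim1
  rw [sub_zero] at hfin
  refine hfin.congr fun M => ?_
  have : (fun c => (Xd n M c : ℝ)) = x M := funext fun c => hXd M c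
  have h2 : (fun c => (Xd n M c : ℝ) ^ 2) = fun c => x M c ^ 2 := funext fun c => by rw [hXd M c]
  rw [VarX, this, h2]
  ring

end H906K
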