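import Pool.Agent.H906R3.K6.P1
import Pool.Agent.H906R3.K6.P2a

namespace H906K
open Pool.Agent.H974R3 Polynomial MeasureTheory Filter Topology

theorem var_limit (n : ℕ) (L : PowerSeries ℂ) (w : Pat (2 * n + 1) → PowerSeries ℂ)
    (hw : ∀ σ, PowerSeries.coeff 0 (w σ) = 1)
    (h : (TL (2 * n) (PowerSeries.C om) 1 ez).vecMul w = L • w)
    (h1 : (PowerSeries.coeff 1 L).im = 0) :
    PowerSeries.coeff 1 L = 0 ∧ Tendsto (fun M : ℕ => VarX n M / M) atTop
      (𝓝 (-(2 * (PowerSeries.coeff 2 L).re / 2 ^ (2 * n + 1)))) :=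
  var_limit_of n L w (fun M c X => end_run n M c X) hw h h1

end H906K
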