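import Pool.Agent.H906R3.K6.P1
import Pool.Agent.H906R3.K6.P2
import Pool.Agent.H906R3.K6.E2
import Pool.Agent.H906R3.K6.E3
import Pool.Agent.H906R3.K6.E4
import Pool.Agent.H906R3.K6.U6
import Pool.Agent.H906R3.K6.G1
import Pool.Agent.H906R3.K6.G5
import Pool.Agent.H906R3.K6.A9

namespace H906K
open Pool.Agent.H974R3 Polynomial MeasureTheory Filter Topology

theorem ev_one (s : ℝ[X]) : (s.map (algebraMap ℝ ℂ)).eval 1 = ((s.eval 1 : ℝ) : ℂ) := by
  have h := Polynomial.eval_map_apply (algebraMap ℝ ℂ) (p := s) 1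
  rw [map_one] at h
  exact h

theorem fin_one (n : ℕ) : ∃ (d : ℝ), Tendsto (fun M : ℕ => VarX n M / M) atTop (𝓝 d) ∧
    (∃ X Y B : ℝ → ℝ, Sys (2 * n + 1) X Y B ∧ d = -2 * (2 * n + 1) ^ 2 * Y 0) := by
  obtain ⟨v, t, hv, hd, ht, w, hw, hwL⟩ := exists_t n
  have hsp := tspec n v t hv hd ht
  obtain ⟨t1, t2, hP, hc1, hc2⟩ := pert_of_tspec n t hsp
  obtain ⟨hreal, -⟩ := pert_roots n t1 t2 hP
  obtain ⟨s1, s2, V1, V2, hR, hs1, hs2⟩ := rpert_of_pert n t1 t2 hP
  have e1 : t1.eval 1 = ((s1.eval 1 : ℝ) : ℂ) := by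
    rw [hs1]
    exact ev_one s1
  have h1 : (PowerSeries.coeff 1 (t.eval 1)).im = 0 := by
    rw [hc1, e1]
    simp
  obtain ⟨hL1, hlim⟩ := var_limit n (t.eval 1) w hw hwL h1
  have hN : ((2 * n + 1 : ℂ)) ≠ 0 := by
    have : ((2 * n + 1 : ℕ) : ℂ) ≠ 0 := Nat.cast_ne_zero.2 (by omega)
    push_cast at this
    exact this
  have hs10 : s1.eval 1 = 0 := by
    have : ((2 * n + 1 : ℂ)) * t1.eval 1 = 0 := by rw [← hc1, hL1]
    have h2 : t1.eval 1 = 0 := by
      rcases mul_eq_zero.1 this with h | h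
      · exact absurd h hN
      · exact h
    rw [e1] at h2
    exact_mod_cast h2
  refine ⟨_, hlim, _, _, _, sys_of_rpert hR, ?_⟩
  have X0 : (Xc n s1 (0 : ℝ)).re = 0 := by
    unfold Xc
    have e3 : (s1.map (algebraMap ℝ ℂ)).eval 1 = ((s1.eval 1 : ℝ) : ℂ) := by
      rw [← hs1, e1]
    simp [e3, hs10]
  have Y0 : (Xc n s2 (0 : ℝ)).re = (t2.eval 1).re / 2 ^ (2 * n + 1) := by
    unfold Xc
    have e3 : (s2.map (algebraMap ℝ ℂ)).eval 1 = ((s2.eval 1 : ℝ) : ℂ) := ev_one s2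
    have e4 : s2.eval 1 = (t2.eval 1).re := by
      have d2 : s2.natDegree ≤ 2 * n + 1 := by
        have := hR.pert.deg2
        rwa [Polynomial.natDegree_map] at this
      rw [Polynomial.eval_eq_sum_range' (n := 2 * n + 2) (by omega),
        Polynomial.eval_eq_sum_range' (n := 2 * n + 2) (show t2.natDegree < 2 * n + 2 by
          have := hP.deg2; omega), Complex.re_sum]
      apply Finset.sum_congr rfl
      intro k _
      rw [hs2]
      simp
    have e5 : (1 : ℂ) + 1 = ((2 : ℝ) : ℂ) := by push_cast; norm_num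
    simp only [Complex.ofReal_zero, Complex.exp_zero, e3, e5, e4]
    rw [← Complex.ofReal_pow, ← Complex.ofReal_div, Complex.ofReal_re]
  simp only [X0, Y0]
  rw [hc2]
  have e6 : ((2 * (n : ℂ) + 1) ^ 2 * t2.eval 1).re = (2 * (n : ℝ) + 1) ^ 2 * (t2.eval 1).re := by
    have : (2 * (n : ℂ) + 1) ^ 2 = (((2 * (n : ℝ) + 1) ^ 2 : ℝ) : ℂ) := by push_cast; ring
    rw [this, Complex.re_ofReal_mul]
  rw [e6]
  ring

/-- uniqueness of the interface, existence of its diffusivity, and the value `κ = 6` with a rate -/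
theorem final :
    (∀ (n M : ℕ) (c : Fin M → Fin (2 * n + 1) → Bool), ∃! X : ℤ, End n M c X) ∧
    ∃ D : ℕ → ℝ, (∀ n, Tendsto (fun M : ℕ => VarX n M / M) atTop (𝓝 (D n))) ∧
      ∃ K : ℝ, ∀ n : ℕ, |2 * Real.pi * D n / (2 * n + 1) - 6| ≤ K / (2 * n + 1) := by
  constructor
  · intro n M c
    refine ⟨_, (end_run n M c _).2 rfl, ?_⟩
    intro X hX
    exact (end_run n M c X).1 hX
  · choose D hD hS using fin_one
    refine ⟨D, hD, ?_⟩
    choose X Y B hSys hDY using hS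
    obtain ⟨K, hK⟩ := sys_asymp
    refine ⟨max (4 * Real.pi * K) |2 * Real.pi * D 0 - 6|, fun n => ?_⟩
    have hN : (0 : ℝ) < 2 * (n : ℝ) + 1 := by positivity
    rcases Nat.eq_zero_or_pos n with h0 | hn
    · subst h0
      simp only [Nat.cast_zero, mul_zero, zero_add, div_one]
      exact le_max_right _ _
    · have h := hK n _ _ _ hn (hSys n)
      have h1 : 2 * Real.pi * D n / (2 * n + 1) - 6
          = -(4 * Real.pi) * ((2 * n + 1 : ℝ) * Y n 0 + 3 / (2 * Real.pi)) := by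
        rw [hDY]
        have := Real.pi_ne_zero
        field_simp
        ring
      rw [h1, abs_mul, abs_neg, abs_of_pos (by positivity : (0 : ℝ) < 4 * Real.pi)]
      calc 4 * Real.pi * |(2 * (n : ℝ) + 1) * Y n 0 + 3 / (2 * Real.pi)|
          ≤ 4 * Real.pi * (K / (2 * n + 1)) := by gcongr
        _ = 4 * Real.pi * K / (2 * n + 1) := by ring
        _ ≤ _ := by gcongr; exact le_max_left _ _

end H906K
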