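import Pool.Agent.H906R3.K6.Defs2

/-!
Task G1 (first part): real polynomials from the perturbation data.
-/

namespace H906K
open Polynomial

/-- the real part of a polynomial -/
noncomputable def g1re (p : ℂ[X]) : ℝ[X] :=
  ∑ i ∈ Finset.range (p.natDegree + 1), Polynomial.monomial i (p.coeff i).re

theorem g1re_coeff (p : ℂ[X]) (k : ℕ) : (g1re p).coeff k = (p.coeff k).re := by
  unfold g1re
  rw [Polynomial.finsetSum_coeff]
  simp only [Polynomial.coeff_monomial]
  rw [Finset.sum_ite_eq' (Finset.range (p.natDegree + 1)) k (fun i => (p.coeff i).re)]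
  split_ifs with h
  · rfl
  · rw [Polynomial.coeff_eq_zero_of_natDegree_lt (by
      rw [Finset.mem_range] at h; omega)]
    simp

/-- the conjugate of a polynomial -/
noncomputable def g1cj (p : ℂ[X]) : ℂ[X] := p.map (starRingEnd ℂ)

theorem g1cj_eval (p : ℂ[X]) (x : ℂ) :
    (g1cj p).eval x = (starRingEnd ℂ) (p.eval ((starRingEnd ℂ) x)) := by
  unfold g1cj
  rw [Polynomial.eval_map]
  have h := Polynomial.hom_eval₂ p (RingHom.id ℂ) (starRingEnd ℂ) ((starRingEnd ℂ) x)
  rw [RingHom.comp_id, Complex.conj_conj] at h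
  rw [← h]
  rfl

theorem g1re_map (p : ℂ[X]) : (g1re p).map (algebraMap ℝ ℂ) = C (1 / 2) * (p + g1cj p) := by
  ext k
  rw [Polynomial.coeff_map, g1re_coeff, Polynomial.coeff_C_mul, Polynomial.coeff_add]
  unfold g1cj
  rw [Polynomial.coeff_map, Complex.add_conj, Complex.coe_algebraMap]
  push_cast
  ring

theorem g1re_eval (p : ℂ[X]) (x : ℂ) : ((g1re p).map (algebraMap ℝ ℂ)).eval x =
    (p.eval x + (starRingEnd ℂ) (p.eval ((starRingEnd ℂ) x))) / 2 := by
  rw [g1re_map, Polynomial.eval_mul, Polynomial.eval_C, Polynomial.eval_add, g1cj_eval]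
  ring

theorem g1om : (starRingEnd ℂ) om = om ^ 2 := by
  have h3 : Real.sqrt 3 * Real.sqrt 3 = 3 := Real.mul_self_sqrt (by norm_num)
  unfold om
  apply Complex.ext
  · simp only [Complex.conj_re, pow_two, Complex.mul_re]
    nlinarith
  · simp only [Complex.conj_im, pow_two, Complex.mul_im]
    ring

theorem g1om2 : (starRingEnd ℂ) (om ^ 2) = om := by
  rw [← g1om, Complex.conj_conj]

/-- the polynomials with the given values -/
theorem g1deg {N : ℕ} {t1 t2 V : ℂ[X]} (h1 : t1.natDegree ≤ N) (h2 : t2.natDegree ≤ N)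
    (h : ∀ x : ℂ, t2.eval (om * x) * (1 + om ^ 2 * x) ^ N
      + t2.eval (om ^ 2 * x) * (1 + om * x) ^ N
      + t1.eval (om * x) * t1.eval (om ^ 2 * x) = (1 + x) ^ N * V.eval x) :
    V.natDegree ≤ N := by
  have hP : t2.comp (C om * X) * (1 + C (om ^ 2) * X) ^ N
      + t2.comp (C (om ^ 2) * X) * (1 + C om * X) ^ N
      + t1.comp (C om * X) * t1.comp (C (om ^ 2) * X) = (X + C 1) ^ N * V := by
    apply Polynomial.funext
    intro x
    have := h x
    simp only [eval_add, eval_mul, eval_pow, eval_comp, eval_C, eval_X, eval_one]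
    rw [this, add_comm x 1]
  by_cases hV : V = 0
  · simp [hV]
  have hm : ((X + C 1 : ℂ[X]) ^ N).Monic := (monic_X_add_C 1).pow N
  have h3 : ((X + C 1 : ℂ[X]) ^ N * V).natDegree = N + V.natDegree := by
    rw [hm.natDegree_mul' hV, (monic_X_add_C (1 : ℂ)).natDegree_pow, natDegree_X_add_C, mul_one]
  have hc : ∀ (p : ℂ[X]) (c : ℂ), p.natDegree ≤ N → (p.comp (C c * X)).natDegree ≤ N := by
    intro p c hp
    refine (natDegree_comp_le).trans ?_
    have : (C c * X : ℂ[X]).natDegree ≤ 1 := (natDegree_C_mul_le c X).trans natDegree_X_le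
    calc p.natDegree * (C c * X : ℂ[X]).natDegree ≤ N * 1 := Nat.mul_le_mul hp this
      _ = N := mul_one N
  have hl : ∀ c : ℂ, ((1 + C c * X : ℂ[X]) ^ N).natDegree ≤ N := by
    intro c
    refine (natDegree_pow_le).trans ?_
    have : (1 + C c * X : ℂ[X]).natDegree ≤ 1 := by
      refine (natDegree_add_le _ _).trans ?_
      rw [natDegree_one]
      exact max_le (by norm_num) ((natDegree_C_mul_le c X).trans natDegree_X_le)
    calc N * (1 + C c * X : ℂ[X]).natDegree ≤ N * 1 := Nat.mul_le_mul le_rfl this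
      _ = N := mul_one N
  have h4 : (t2.comp (C om * X) * (1 + C (om ^ 2) * X) ^ N
      + t2.comp (C (om ^ 2) * X) * (1 + C om * X) ^ N
      + t1.comp (C om * X) * t1.comp (C (om ^ 2) * X)).natDegree ≤ N + N := by
    refine (natDegree_add_le _ _).trans (max_le ((natDegree_add_le _ _).trans (max_le ?_ ?_)) ?_)
    · exact natDegree_mul_le.trans (add_le_add (hc _ _ h2) (hl _))
    · exact natDegree_mul_le.trans (add_le_add (hc _ _ h2) (hl _))
    · exact natDegree_mul_le.trans (add_le_add (hc _ _ h1) (hc _ _ h1))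
  rw [hP, h3] at h4
  omega

/-- the statement of `pert_roots` (module U6) as a hypothesis -/
theorem rpert_of_pert_aux (n : ℕ) (t1 t2 : ℂ[X]) (h : Pert n t1 t2)
    (h0 : (∀ k, (t1.coeff k).im = 0) ∧
    ∃ V : ℝ[X], V.natDegree = 2 * n + 1 ∧ V.coeff 0 < 0 ∧
      (∀ x : ℂ, t1.eval (om * x) * (1 + om ^ 2 * x) ^ (2 * n + 1)
        + t1.eval (om ^ 2 * x) * (1 + om * x) ^ (2 * n + 1)
        = (1 + x) ^ (2 * n + 1) * (V.map (algebraMap ℝ ℂ)).eval x) ∧
      ∀ z : ℂ, (V.map (algebraMap ℝ ℂ)).eval z = 0 → ∃ r : ℝ, 0 < r ∧ z = r) :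
    ∃ s1 s2 V1 V2 : ℝ[X], RPert n s1 s2 V1 V2 ∧ t1 = s1.map (algebraMap ℝ ℂ) ∧
      ∀ k, s2.coeff k = (t2.coeff k).re := by
  obtain ⟨him, V1, hV1, hV10, hd1, hroots⟩ := h0
  obtain ⟨V, hV⟩ := h.div2
  have ht1 : t1 = (g1re t1).map (algebraMap ℝ ℂ) := by
    ext k
    rw [Polynomial.coeff_map, g1re_coeff]
    apply Complex.ext
    · simp
    · rw [him k]; simp
  have ht1c : ∀ x : ℂ, (starRingEnd ℂ) (t1.eval ((starRingEnd ℂ) x)) = t1.eval x := by
    intro x
    have h1 := g1re_eval t1 x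
    rw [← ht1] at h1
    linear_combination (-2) * h1
  have hc1 : ∀ x : ℂ, (starRingEnd ℂ) (om * (starRingEnd ℂ) x) = om ^ 2 * x := by
    intro x; rw [map_mul, g1om, Complex.conj_conj]
  have hc2 : ∀ x : ℂ, (starRingEnd ℂ) (om ^ 2 * (starRingEnd ℂ) x) = om * x := by
    intro x; rw [map_mul, g1om2, Complex.conj_conj]
  have hc1' : ∀ x : ℂ, om * (starRingEnd ℂ) x = (starRingEnd ℂ) (om ^ 2 * x) := by
    intro x; rw [map_mul, g1om2]
  have hc2' : ∀ x : ℂ, om ^ 2 * (starRingEnd ℂ) x = (starRingEnd ℂ) (om * x) := by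
    intro x; rw [map_mul, g1om]
  have hd2 : ∀ x : ℂ, ((g1re t2).map (algebraMap ℝ ℂ)).eval (om * x)
        * (1 + om ^ 2 * x) ^ (2 * n + 1)
      + ((g1re t2).map (algebraMap ℝ ℂ)).eval (om ^ 2 * x) * (1 + om * x) ^ (2 * n + 1)
      + t1.eval (om * x) * t1.eval (om ^ 2 * x)
      = (1 + x) ^ (2 * n + 1) * ((g1re V).map (algebraMap ℝ ℂ)).eval x := by
    intro x
    have e1 := hV x
    have e2 := congrArg (starRingEnd ℂ) (hV ((starRingEnd ℂ) x))
    have e3 : (om ^ 2) ^ 2 = om := by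
      have := g1om2
      rw [map_pow, g1om] at this
      exact this
    simp only [map_add, map_mul, map_pow, map_one] at e2
    simp only [hc1', hc2', g1om, Complex.conj_conj, ht1c, e3] at e2
    simp only [g1re_eval]
    linear_combination (1 / 2) * e1 + (1 / 2) * e2
  have hpt : Pert n t1 ((g1re t2).map (algebraMap ℝ ℂ)) := by
    refine ⟨h.deg1, ?_, h.bot1, h.top1, ?_, ?_, h.e2, ?_, h.div1, ?_⟩
    · rw [natDegree_le_iff_coeff_eq_zero]
      intro k hk
      rw [Polynomial.coeff_map, g1re_coeff,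
        coeff_eq_zero_of_natDegree_lt (lt_of_le_of_lt h.deg2 hk)]
      simp
    · rw [Polynomial.coeff_map, g1re_coeff, h.bot2]
      norm_num
    · rw [Polynomial.coeff_map, g1re_coeff, h.top2]
      norm_num
    · intro x
      have e1 := h.e3 x
      have e2 := congrArg (starRingEnd ℂ) (h.e3 ((starRingEnd ℂ) x))
      have e3 : (om ^ 2) ^ 2 = om := by
        have := g1om2
        rw [map_pow, g1om] at this
        exact this
      simp only [map_add, map_mul, map_pow, map_one, map_zero] at e2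
      simp only [hc1', hc2', g1om, Complex.conj_conj, ht1c, e3] at e2
      simp only [g1re_eval]
      linear_combination (1 / 2) * e1 + (1 / 2) * e2
    · refine ⟨(g1re V).map (algebraMap ℝ ℂ), fun x => ?_⟩
      exact hd2 x
  refine ⟨g1re t1, g1re t2, V1, g1re V, ⟨?_, ?_, ?_, hV1, ?_, hV10, hroots⟩, ht1, g1re_coeff t2⟩
  · rw [← ht1]; exact hpt
  · rw [← ht1]; exact hd1
  · rw [← ht1]; exact hd2
  · rw [natDegree_le_iff_coeff_eq_zero]
    intro k hk
    rw [g1re_coeff, coeff_eq_zero_of_natDegree_lt (lt_of_le_of_lt (g1deg h.deg1 h.deg2 hV) hk)]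
    simp

end H906K
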