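import Pool.Agent.H906R3.K6.Defs2
import Pool.Agent.H974R3.Trans

/-! # L4: the intertwining relation, from the relations for the generators (helper819) -/

set_option autoImplicit false

namespace H906K
open Pool.Agent.H974R3 Polynomial MeasureTheory Filter Topology

section ring
variable {R : Type*} [CommRing R]

/-- a scalar multiple of a column -/
theorem l4_mul_col {m : ℕ} {ι : Type*} (A B : Matrix (Fin (m + 1) → Bool) (Fin (m + 1) → Bool) R)
    (T : Matrix (Fin (m + 1) → Bool) ι R) (σ σ' : ι) (a : R)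
    (h : ∀ s, (B * T) s σ = a * T s σ') (t : Fin (m + 1) → Bool) :
    (A * B * T) t σ = a * (A * T) t σ' := by
  rw [Matrix.mul_assoc, Matrix.mul_apply, Matrix.mul_apply, Finset.mul_sum]
  refine Finset.sum_congr rfl fun s _ => ?_
  rw [h s]
  ring

theorem l4_word (n : ℕ) (q : R) (ζ : Rˣ) (c : Fin (2 * n + 1) → Bool) (k : ℕ)
    (hE : 2 ≤ 2 * n → ∀ (i : ℕ) (t : Fin (2 * n + 1) → Bool) (σ : Pat (2 * n + 1)),
      (eV (2 * n) i q ζ * Th (2 * n) q ζ) t σ =
        ((ζ ^ dE (2 * n) i σ : Rˣ) : R) * Th (2 * n) q ζ t (E (2 * n) i σ)) :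
    ∀ j : ℕ, j ≤ 2 * n → ∀ (t : Fin (2 * n + 1) → Bool) (σ : Pat (2 * n + 1)),
      (wordM (2 * n) c q ζ k j * Th (2 * n) q ζ) t σ =
        ((ζ ^ dword (2 * n) c k j σ : Rˣ) : R) * Th (2 * n) q ζ t (word (2 * n) c k j σ) := by
  intro j
  induction j with
  | zero =>
    intro _ t σ
    show ((1 : Matrix (Fin (2 * n + 1) → Bool) (Fin (2 * n + 1) → Bool) R) * Th (2 * n) q ζ) t σ = ((ζ ^ (0 : ℤ) : Rˣ) : R) * Th (2 * n) q ζ t σ
    rw [Matrix.one_mul, zpow_zero, Units.val_one, one_mul]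
  | succ j ih =>
    intro hj t σ
    have h1 := ih (by omega)
    show ((if c (ix (2 * n) (k + j + 1)) = true then eV (2 * n) (k + j) q ζ else 1) *
        wordM (2 * n) c q ζ k j * Th (2 * n) q ζ) t σ = _
    rw [l4_mul_col _ _ _ σ (word (2 * n) c k j σ) _ (fun s => h1 s σ) t]
    by_cases hc : c (ix (2 * n) (k + j + 1)) = true
    · rw [if_pos hc, hE (by omega)]
      have e1 : dword (2 * n) c k (j + 1) σ =
          dword (2 * n) c k j σ + dE (2 * n) (k + j) (word (2 * n) c k j σ) := by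
        show dword (2 * n) c k j σ +
          (if c (ix (2 * n) (k + j + 1)) = true then dE (2 * n) (k + j) (word (2 * n) c k j σ)
            else 0) = _
        rw [if_pos hc]
      have e2 : word (2 * n) c k (j + 1) σ = E (2 * n) (k + j) (word (2 * n) c k j σ) := if_pos hc
      rw [e1, e2, zpow_add, Units.val_mul]
      ring
    · rw [if_neg hc, Matrix.one_mul]
      have e1 : dword (2 * n) c k (j + 1) σ = dword (2 * n) c k j σ := by
        show dword (2 * n) c k j σ +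
          (if c (ix (2 * n) (k + j + 1)) = true then dE (2 * n) (k + j) (word (2 * n) c k j σ)
            else 0) = _
        rw [if_neg hc, add_zero]
      have e2 : word (2 * n) c k (j + 1) σ = word (2 * n) c k j σ := if_neg hc
      rw [e1, e2]

theorem l4_TVc (n : ℕ) (c : Fin (2 * n + 1) → Bool) (q : R) (ζ : Rˣ)
    (hE : 2 ≤ 2 * n → ∀ (i : ℕ) (t : Fin (2 * n + 1) → Bool) (σ : Pat (2 * n + 1)),
      (eV (2 * n) i q ζ * Th (2 * n) q ζ) t σ =
        ((ζ ^ dE (2 * n) i σ : Rˣ) : R) * Th (2 * n) q ζ t (E (2 * n) i σ))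
    (hrot : ∀ (t : Fin (2 * n + 1) → Bool) (σ : Pat (2 * n + 1)),
      (rotM (2 * n) ζ * Th (2 * n) q ζ) t σ = (ζ : R) * Th (2 * n) q ζ t (rot (2 * n) σ))
    (hroti : ∀ (t : Fin (2 * n + 1) → Bool) (σ : Pat (2 * n + 1)),
      (rotMi (2 * n) ζ * Th (2 * n) q ζ) t σ =
        ((ζ⁻¹ : Rˣ) : R) * Th (2 * n) q ζ t (rotInv (2 * n) σ))
    (hword : ∀ k : ℕ, c (ix (2 * n) k) = false →
      TVc (2 * n) c q ζ = rotM (2 * n) ζ * wordM (2 * n) c q ζ k (2 * n))
    (htrue : (∀ k, c k = true) → TVc (2 * n) c q ζ = rotMi (2 * n) ζ)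
    (t : Fin (2 * n + 1) → Bool) (σ : Pat (2 * n + 1)) :
    (TVc (2 * n) c q ζ * Th (2 * n) q ζ) t σ
      = ((ζ ^ dTc (2 * n) c σ : Rˣ) : R) * Th (2 * n) q ζ t (Tc (2 * n) c σ) := by
  classical
  by_cases h : ∃ k : ℕ, k < 2 * n + 1 ∧ c (ix (2 * n) k) = false
  · have e1 : dTc (2 * n) c σ = dword (2 * n) c (Nat.find h) (2 * n) σ + 1 := by
      unfold dTc
      rw [dif_pos h]
    have e2 : Tc (2 * n) c σ = rot (2 * n) (word (2 * n) c (Nat.find h) (2 * n) σ) := by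
      unfold Tc
      rw [dif_pos h]
    rw [e1, e2, hword _ (Nat.find_spec h).2,
      l4_mul_col _ _ _ σ _ _ (fun s => l4_word n q ζ c (Nat.find h) hE (2 * n) le_rfl s σ) t,
      hrot, zpow_add, Units.val_mul, zpow_one]
    ring
  · have e1 : dTc (2 * n) c σ = -1 := by
      unfold dTc
      rw [dif_neg h]
    have e2 : Tc (2 * n) c σ = rotInv (2 * n) σ := by
      unfold Tc
      rw [dif_neg h]
    have h3 : ∀ k, c k = true := by
      intro k
      by_contra hk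
      apply h
      refine ⟨k.val, k.2, ?_⟩
      have e : ix (2 * n) k.val = k := Fin.ext (Nat.mod_eq_of_lt k.2)
      rw [e]
      exact Bool.eq_false_iff.2 hk
    rw [e1, e2, htrue h3, hroti, zpow_neg_one]

theorem l4_TV (n : ℕ) (q x : R) (ζ : Rˣ)
    (hexp : TV (2 * n) q x ζ =
      ∑ c : Fin (2 * n + 1) → Bool, (∏ j, wt q (c j) x) • TVc (2 * n) c q ζ)
    (hc : ∀ (c : Fin (2 * n + 1) → Bool) (t : Fin (2 * n + 1) → Bool) (σ : Pat (2 * n + 1)),
      (TVc (2 * n) c q ζ * Th (2 * n) q ζ) t σ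
        = ((ζ ^ dTc (2 * n) c σ : Rˣ) : R) * Th (2 * n) q ζ t (Tc (2 * n) c σ)) :
    TV (2 * n) q x ζ * Th (2 * n) q ζ = Th (2 * n) q ζ * TL (2 * n) q x ζ := by
  classical
  ext t σ
  rw [hexp, Matrix.sum_mul, Matrix.sum_apply, Matrix.mul_apply]
  have h1 : ∀ τ, Th (2 * n) q ζ t τ * TL (2 * n) q x ζ τ σ =
      ∑ c : Fin (2 * n + 1) → Bool, if Tc (2 * n) c σ = τ then
        Th (2 * n) q ζ t τ * ((∏ j, wt q (c j) x) * ((ζ ^ dTc (2 * n) c σ : Rˣ) : R)) else 0 := by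
    intro τ
    unfold TL
    rw [Finset.mul_sum]
    refine Finset.sum_congr rfl fun c _ => ?_
    by_cases h : Tc (2 * n) c σ = τ
    · rw [if_pos h, if_pos h]
    · rw [if_neg h, if_neg h, mul_zero]
  rw [Finset.sum_congr rfl fun τ _ => h1 τ, Finset.sum_comm]
  refine Finset.sum_congr rfl fun c _ => ?_
  rw [Finset.sum_eq_single (Tc (2 * n) c σ)]
  · rw [if_pos rfl, Matrix.smul_mul, Matrix.smul_apply, hc c t σ, smul_eq_mul]
    ring
  · intro τ _ hτ
    rw [if_neg (Ne.symm hτ)]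
  · intro h
    exact absurd (Finset.mem_univ _) h

end ring

end H906K
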