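import Pool.Agent.H906R3.K6.Defs2

/-!
# Commutation over `ℂ⟦ε⟧[x]`

The relation holds over the ring `ℂ[x][ζ, ζ⁻¹]`, because a Laurent polynomial with polynomial
coefficients which vanishes at all points is zero.
-/

namespace H906K
open Pool.Agent.H974R3 Polynomial MeasureTheory Filter Topology

theorem l8_TL_map {R S : Type*} [CommRing R] [CommRing S] (f : R →+* S) (m : ℕ) (q x : R)
    (ζ : Rˣ) : (TL m q x ζ).map f = TL m (f q) (f x) (Units.map f.toMonoidHom ζ) := by
  funext τ σ
  rw [Matrix.map_apply]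
  unfold TL
  rw [map_sum]
  apply Finset.sum_congr rfl
  intro c _
  rw [apply_ite f, map_zero, map_mul, map_prod]
  have h1 : ∀ j, f (wt q (c j) x) = wt (f q) (c j) (f x) := by
    intro j
    unfold wt
    split_ifs <;> simp
  rw [Finset.prod_congr rfl (fun j _ => h1 j)]
  have h2 : f ((ζ ^ dTc m c σ : Rˣ) : R)
      = (((Units.map f.toMonoidHom ζ) ^ dTc m c σ : Sˣ) : S) := by
    rw [← map_zpow]
    rfl
  rw [h2]

theorem l8_poly_zero (p : ℂ[X]) (h : ∀ z : ℂ, z ≠ 0 → p.eval z = 0) : p = 0 := by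
  have h2 : (Polynomial.X * p) = 0 := by
    apply Polynomial.funext
    intro x
    by_cases hx : x = 0
    · simp [hx]
    · simp [h x hx]
  rcases mul_eq_zero.1 h2 with h3 | h3
  · exact absurd h3 Polynomial.X_ne_zero
  · exact h3

/-- evaluation of `ℂ[x][ζ, ζ⁻¹]` at a point -/
noncomputable def l8_ev (x0 : ℂ) (z : ℂˣ) : LaurentPolynomial ℂ[X] →+* ℂ :=
  LaurentPolynomial.eval₂ (Polynomial.evalRingHom x0) z

theorem l8_zero (D : LaurentPolynomial ℂ[X]) (h : ∀ x0 z, l8_ev x0 z D = 0) : D = 0 := by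
  obtain ⟨n, P, hP⟩ := LaurentPolynomial.exists_T_pow D
  have hP0 : P = 0 := by
    ext1 i
    rw [Polynomial.coeff_zero]
    apply Polynomial.funext
    intro x0
    rw [Polynomial.eval_zero]
    have hQ : P.map (Polynomial.evalRingHom x0) = 0 := by
      apply l8_poly_zero
      intro z hz
      have h1 : l8_ev x0 (Units.mk0 z hz) (toLaurent P) = 0 := by
        rw [hP, map_mul, h, zero_mul]
      unfold l8_ev at h1
      rw [LaurentPolynomial.eval₂_toLaurent] at h1
      rw [Polynomial.eval_map]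
      exact h1
    have h2 := congrArg (fun p => Polynomial.coeff p i) hQ
    simp only [Polynomial.coeff_map, Polynomial.coe_evalRingHom, Polynomial.coeff_zero] at h2
    exact h2
  rw [hP0, map_zero] at hP
  have h3 : D * LaurentPolynomial.T n * LaurentPolynomial.T (-n) = 0 := by
    rw [← hP, zero_mul]
  rw [LaurentPolynomial.mul_T_assoc, add_neg_cancel, LaurentPolynomial.T_zero, mul_one] at h3
  exact h3

/-- the unit `ζ` -/
noncomputable def l8_z : (LaurentPolynomial ℂ[X])ˣ where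
  val := LaurentPolynomial.T 1
  inv := LaurentPolynomial.T (-1)
  val_inv := by rw [← LaurentPolynomial.T_add, add_neg_cancel, LaurentPolynomial.T_zero]
  inv_val := by rw [← LaurentPolynomial.T_add, neg_add_cancel, LaurentPolynomial.T_zero]

theorem l8_z_map {S : Type*} [CommRing S] (f : ℂ[X] →+* S) (z : Sˣ) :
    Units.map (LaurentPolynomial.eval₂ f z).toMonoidHom l8_z = z := by
  apply Units.ext
  have h : (LaurentPolynomial.eval₂ f z) (LaurentPolynomial.T 1) = (z ^ (1 : ℤ)).val :=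
    LaurentPolynomial.eval₂_T f z 1
  rw [zpow_one] at h
  exact h

theorem l8_main (n : ℕ) (hcomm : ∀ (x y : ℂ) (ζ : ℂˣ),
    TL (2 * n) om x ζ * TL (2 * n) om y ζ = TL (2 * n) om y ζ * TL (2 * n) om x ζ)
    {S : Type*} [CommRing S] (f : ℂ[X] →+* S) (z : Sˣ) :
    TL (2 * n) (f (C om)) (f X) z * TL (2 * n) (f (C om)) 1 z
      = TL (2 * n) (f (C om)) 1 z * TL (2 * n) (f (C om)) (f X) z := by
  have hU : TL (2 * n) (LaurentPolynomial.C (C om)) (LaurentPolynomial.C (X : ℂ[X])) l8_z
        * TL (2 * n) (LaurentPolynomial.C (C om)) 1 l8_z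
      = TL (2 * n) (LaurentPolynomial.C (C om)) 1 l8_z
        * TL (2 * n) (LaurentPolynomial.C (C om)) (LaurentPolynomial.C (X : ℂ[X])) l8_z := by
    funext τ σ
    apply sub_eq_zero.1
    apply l8_zero
    intro x0 z0
    rw [map_sub, ← Matrix.map_apply (f := l8_ev x0 z0), ← Matrix.map_apply (f := l8_ev x0 z0),
      Matrix.map_mul, Matrix.map_mul, l8_TL_map, l8_TL_map]
    have h1 : l8_ev x0 z0 (LaurentPolynomial.C (C om)) = om := by
      unfold l8_ev
      rw [LaurentPolynomial.eval₂_C]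
      simp
    have h2 : l8_ev x0 z0 (LaurentPolynomial.C (X : ℂ[X])) = x0 := by
      unfold l8_ev
      rw [LaurentPolynomial.eval₂_C]
      simp
    have h3 : Units.map (l8_ev x0 z0).toMonoidHom l8_z = z0 := l8_z_map _ _
    rw [h1, h2, h3, map_one, hcomm, sub_self]
  have h4 := congrArg (fun M => M.map (LaurentPolynomial.eval₂ f z)) hU
  simp only [Matrix.map_mul] at h4
  rw [l8_TL_map, l8_TL_map, l8_z_map, LaurentPolynomial.eval₂_C, LaurentPolynomial.eval₂_C,
    map_one] at h4
  exact h4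

theorem l8_om : om ^ 2 + om + 1 = 0 := by
  unfold om
  have h3 : Real.sqrt 3 * Real.sqrt 3 = 3 := Real.mul_self_sqrt (by norm_num)
  apply Complex.ext
  · simp [pow_two]
    nlinarith
  · simp [pow_two]
    ring

theorem l8_TL_comm_X (n : ℕ) (hcomm : ∀ (x y : ℂ) (ζ : ℂˣ),
    TL (2 * n) om x ζ * TL (2 * n) om y ζ = TL (2 * n) om y ζ * TL (2 * n) om x ζ) :
    TL (2 * n) (C (PowerSeries.C om)) (X : (PowerSeries ℂ)[X]) ezX
        * TL (2 * n) (C (PowerSeries.C om)) 1 ezX
      = TL (2 * n) (C (PowerSeries.C om)) 1 ezX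
        * TL (2 * n) (C (PowerSeries.C om)) (X : (PowerSeries ℂ)[X]) ezX := by
  have h := l8_main n hcomm (Polynomial.mapRingHom (PowerSeries.C (R := ℂ))) ezX
  rw [Polynomial.coe_mapRingHom, Polynomial.map_C, Polynomial.map_X] at h
  exact h

end H906K
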