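import Pool.Agent.H906R3.K6.Defs2
import Pool.Agent.H974R3.Rel

/-!
# Module P1: strands and patterns
-/

namespace H906K
open Pool.Agent.H974R3 Equiv

/-! ### residues -/

theorem p1_jx_val (m : ℕ) (x : ℤ) : (((jx m x).val : ℕ) : ℤ) = x % ((m : ℤ) + 1) := by
  unfold jx
  simp only
  exact Int.toNat_of_nonneg (Int.emod_nonneg x (show ((m : ℤ) + 1) ≠ 0 by omega))

theorem p1_jx_eq {m : ℕ} {x : ℤ} {p : Fin (m + 1)} : jx m x = p ↔ ((m : ℤ) + 1) ∣ x - p.val := by
  have h1 := p1_jx_val m x
  have hp := p.2
  rw [Fin.ext_iff]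
  constructor
  · intro h
    rw [← h, h1]
    exact Int.dvd_self_sub_emod
  · intro h
    have h2 : x % ((m : ℤ) + 1) = p.val := by
      have h3 := (Int.emod_emod_of_dvd x (dvd_refl ((m : ℤ) + 1)))
      have h4 := Int.emod_eq_emod_iff_emod_sub_eq_zero.mpr (Int.emod_eq_zero_of_dvd h)
      rw [h4]
      exact Int.emod_eq_of_lt (by omega) (by omega)
    omega

theorem p1_jx_jx {m : ℕ} {x y : ℤ} : jx m x = jx m y ↔ ((m : ℤ) + 1) ∣ x - y := by
  rw [p1_jx_eq, p1_jx_val]
  have h1 : ((m : ℤ) + 1) ∣ y - y % ((m : ℤ) + 1) := Int.dvd_self_sub_emod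
  constructor
  · intro h
    have := dvd_sub h h1
    rwa [show x - y % ((m : ℤ) + 1) - (y - y % ((m : ℤ) + 1)) = x - y by ring] at this
  · intro h
    have := dvd_add h h1
    rwa [show x - y + (y - y % ((m : ℤ) + 1)) = x - y % ((m : ℤ) + 1) by ring] at this

theorem p1_ix (m i : ℕ) : ix m i = jx m i := by
  symm
  rw [p1_jx_eq]
  have : (((ix m i).val : ℕ) : ℤ) = (i : ℤ) % ((m : ℤ) + 1) := by
    unfold ix
    push_cast
    rfl
  rw [this]
  exact Int.dvd_self_sub_emod

theorem p1_inj {m : ℕ} {x y : ℤ} (h : jx m x = jx m y) (h1 : x - y < m + 1)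
    (h2 : y - x < m + 1) : x = y := by
  rw [p1_jx_jx] at h
  have := Int.eq_zero_of_abs_lt_dvd h (by rw [abs_lt]; constructor <;> omega)
  omega

theorem p1_add (m : ℕ) (x : ℤ) : jx m (x + (m + 1)) = jx m x := by
  rw [p1_jx_jx]
  exact ⟨1, by ring⟩

theorem p1_sub (m : ℕ) (x : ℤ) : jx m (x - (m + 1)) = jx m x := by
  rw [p1_jx_jx]
  exact ⟨-1, by ring⟩

theorem p1_shift {m : ℕ} {x y : ℤ} (h : jx m x = jx m y) (z : ℤ) : jx m (x + z) = jx m (y + z) := by
  rw [p1_jx_jx] at h ⊢
  rwa [show x + z - (y + z) = x - y by ring]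

theorem p1_ex (m : ℕ) (w : ℤ) (p : Fin (m + 1)) : ∃ r : ℤ, 0 ≤ r ∧ r < m + 1 ∧ jx m (w + r) = p := by
  refine ⟨(p.val - w) % ((m : ℤ) + 1), Int.emod_nonneg _ (by omega),
    Int.emod_lt_of_pos _ (by omega), ?_⟩
  rw [p1_jx_eq]
  have h := @Int.dvd_self_sub_emod ((p.val : ℤ) - w) ((m : ℤ) + 1)
  rw [← dvd_neg] at h
  rwa [show -((p.val : ℤ) - w - ((p.val : ℤ) - w) % ((m : ℤ) + 1))
    = w + (p.val - w) % ((m : ℤ) + 1) - p.val by ring] at h

/-- non-crossing in a window -/
theorem p1_nc {m : ℕ} (σ : Pat (m + 1)) {w r1 r2 r3 r4 : ℤ}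
    (h1 : 0 ≤ r1 ∧ r1 < m + 1) (h2 : 0 ≤ r2 ∧ r2 < m + 1) (h3 : 0 ≤ r3 ∧ r3 < m + 1)
    (h4 : 0 ≤ r4 ∧ r4 < m + 1)
    (e1 : σ.1 (some (jx m (w + r1))) = some (jx m (w + r2)))
    (e2 : σ.1 (some (jx m (w + r3))) = some (jx m (w + r4)))
    (n1 : r3 ≠ r1) (n2 : r3 ≠ r2) (hb : (r1 < r3 ∧ r3 < r2) ∨ (r2 < r3 ∧ r3 < r1)) :
    (r1 < r4 ∧ r4 < r2) ∨ (r2 < r4 ∧ r4 < r1) := by
  have inj : ∀ {a b : ℤ}, 0 ≤ a ∧ a < m + 1 → 0 ≤ b ∧ b < m + 1 → jx m (w + a) = jx m (w + b) →
      a = b := by
    intro a b ha hb hab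
    have := p1_inj hab (by omega) (by omega)
    omega
  have m1 : r4 ≠ r1 := by
    intro h
    rw [h] at e2
    have := σ.2.inv (some (jx m (w + r3)))
    rw [e2, e1] at this
    exact n2 (inj h3 h2 (Option.some.inj this).symm)
  have m2 : r4 ≠ r2 := by
    intro h
    rw [h, ← e1] at e2
    exact n1 (inj h3 h1 (Option.some.inj (σ.1.injective e2)))
  have hnc := σ.2.nc _ _ _ _ e1 e2 (fun h => n1 (inj h3 h1 h)) (fun h => n2 (inj h3 h2 h))
  have val : ∀ {a : ℤ}, 0 ≤ a ∧ a < m + 1 → (w % ((m : ℤ) + 1) + a < m + 1 ∧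
      ((jx m (w + a)).val : ℤ) = w % ((m : ℤ) + 1) + a) ∨ (m + 1 ≤ w % ((m : ℤ) + 1) + a ∧
      ((jx m (w + a)).val : ℤ) = w % ((m : ℤ) + 1) + a - (m + 1)) := by
    intro a ha
    have hw1 := Int.emod_nonneg w (show ((m : ℤ) + 1) ≠ 0 by omega)
    have hw2 := Int.emod_lt_of_pos w (show 0 < ((m : ℤ) + 1) by omega)
    rw [p1_jx_val]
    have e : (w + a) % ((m : ℤ) + 1) = (w % ((m : ℤ) + 1) + a) % ((m : ℤ) + 1) := by
      rw [Int.emod_add_emod]
    rw [e]
    by_cases h : w % ((m : ℤ) + 1) + a < m + 1
    · exact Or.inl ⟨h, Int.emod_eq_of_lt (by omega) h⟩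
    · refine Or.inr ⟨by omega, ?_⟩
      rw [← Int.sub_emod_right, Int.emod_eq_of_lt (by omega) (by omega)]
  unfold Pool.Agent.H974R3.Btw at hnc
  simp only [Fin.lt_def] at hnc
  have hw1 := Int.emod_nonneg w (show ((m : ℤ) + 1) ≠ 0 by omega)
  have hw2 := Int.emod_lt_of_pos w (show 0 < ((m : ℤ) + 1) by omega)
  have v1 := val h1
  have v2 := val h2
  have v3 := val h3
  have v4 := val h4
  generalize w % ((m : ℤ) + 1) = ω at *
  generalize (jx m (w + r1)).val = x1 at *
  generalize (jx m (w + r2)).val = x2 at *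
  generalize (jx m (w + r3)).val = x3 at *
  generalize (jx m (w + r4)).val = x4 at *
  omega


/-! ### lifted patterns -/

/-- the relation `R` connects the positions `A` at the current level as prescribed by the pattern `σ` with
the defect at the integer position `a` -/
structure P1Good {α : Type*} (m : ℕ) (R : α → α → Prop) (s : α) (A : ℤ → α) (σ : Pat (m + 1))
    (a : ℤ) : Prop where
  dft : σ.1 none = some (jx m a)
  str : R s (A a)
  prs : ∀ w r r' : ℤ, jx m w = jx m a → 0 < r → r < m + 1 → 0 < r' → r' < m + 1 →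
    σ.1 (some (jx m (w + r))) = some (jx m (w + r')) → R (A (w + r)) (A (w + r'))

theorem p1_none {m : ℕ} (σ : Pat (m + 1)) {p q : Fin (m + 1)} (h : σ.1 none = some q)
    (h2 : σ.1 (some p) = none) : p = q := by
  have := σ.2.inv (some p)
  rw [h2, h] at this
  exact (Option.some.inj this).symm

theorem p1_id {α : Type*} {m : ℕ} {R : α → α → Prop} (hR : Equivalence R) {s : α} {A A' : ℤ → α}
    {σ : Pat (m + 1)} {a : ℤ} (h : P1Good m R s A σ a) (hA : ∀ x, R (A x) (A' x)) :
    P1Good m R s A' σ a :=
  ⟨h.dft, hR.trans h.str (hA a), fun w r r' hw h1 h2 h3 h4 h5 =>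
    hR.trans (hR.symm (hA _)) (hR.trans (h.prs w r r' hw h1 h2 h3 h4 h5) (hA _))⟩

theorem p1_E {α : Type*} {m : ℕ} (hm : 1 ≤ m) {R : α → α → Prop} (hR : Equivalence R) {s : α}
    {A A' : ℤ → α} {σ : Pat (m + 1)} {a : ℤ} (h : P1Good m R s A σ a) (i : ℕ)
    (hA : ∀ x, jx m x = ix m i → R (A x) (A (x + 1)))
    (hA' : ∀ x, jx m x = ix m i → R (A' x) (A' (x + 1)))
    (hAA : ∀ x, jx m x ≠ ix m i → jx m x ≠ ix m (i + 1) → R (A x) (A' x)) :
    P1Good m R s A' (E m i σ) (a + dE m i σ) := by
  have hne : ix m i ≠ ix m (i + 1) := rel_ix_ne hm i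
  have hne' : (some (ix m i) : Vx (m + 1)) ≠ some (ix m (i + 1)) := by simpa using hne
  have hnext : ∀ x, jx m x = ix m i → jx m (x + 1) = ix m (i + 1) := by
    intro x hx
    rw [p1_ix] at hx ⊢
    have := p1_shift hx 1
    rw [this]
    congr 1
  have hprev : ∀ x, jx m x = ix m (i + 1) → jx m (x - 1) = ix m i := by
    intro x hx
    rw [p1_ix] at hx ⊢
    have := p1_shift hx (-1)
    rw [← sub_eq_add_neg, ← sub_eq_add_neg] at this
    rw [this]
    congr 1
    push_cast
    ring
  set τ := E m i σ with hτ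
  have hτv : ∀ v, τ.1 v = if v = some (ix m i) then some (ix m (i + 1)) else
      if v = some (ix m (i + 1)) then some (ix m i) else
      if v = σ.1 (some (ix m i)) then σ.1 (some (ix m (i + 1))) else
      if v = σ.1 (some (ix m (i + 1))) then σ.1 (some (ix m i)) else σ.1 v := by
    intro v
    rw [hτ, E_val, rel_join_apply _ _ _ σ.2.inv σ.2.nofix hne']
  have t1 : τ.1 (some (ix m i)) = some (ix m (i + 1)) := by rw [hτv, if_pos rfl]
  have t2 : τ.1 (some (ix m (i + 1))) = some (ix m i) := by
    rw [← t1, τ.2.inv]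
  -- treatment of the small arc, common to all cases
  have small : ∀ w r r' : ℤ, 0 < r → r < m + 1 → 0 < r' → r' < m + 1 →
      jx m (w + r) = ix m i → τ.1 (some (jx m (w + r))) = some (jx m (w + r')) →
      R (A' (w + r)) (A' (w + r')) := by
    intro w r r' h1 h2 h3 h4 h5 h6
    rw [h5, t1] at h6
    have h7 := (hnext _ h5).trans (Option.some.inj h6)
    have h8 := p1_inj h7 (by omega) (by omega)
    rw [← h8]
    exact hA' _ h5
  have smallr : ∀ w r r' : ℤ, 0 < r → r < m + 1 → 0 < r' → r' < m + 1 →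
      jx m (w + r) = ix m (i + 1) → τ.1 (some (jx m (w + r))) = some (jx m (w + r')) →
      R (A' (w + r)) (A' (w + r')) := by
    intro w r r' h1 h2 h3 h4 h5 h6
    have h7 : jx m (w + r') = ix m i := by
      rw [h5, t2] at h6
      exact (Option.some.inj h6).symm
    have h8 : τ.1 (some (jx m (w + r'))) = some (jx m (w + r)) := by
      rw [← h6, τ.2.inv]
    exact hR.symm (small w r' r h3 h4 h1 h2 h7 h8)
  -- reduction to the other strands
  have red : ∀ w r r' : ℤ, 0 < r → r < m + 1 → 0 < r' → r' < m + 1 →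
      τ.1 (some (jx m (w + r))) = some (jx m (w + r')) →
      ((jx m (w + r) ≠ ix m i ∧ jx m (w + r) ≠ ix m (i + 1)) →
        (jx m (w + r') ≠ ix m i ∧ jx m (w + r') ≠ ix m (i + 1)) →
        R (A (w + r)) (A (w + r'))) → R (A' (w + r)) (A' (w + r')) := by
    intro w r r' h1 h2 h3 h4 h5 h6
    by_cases c1 : jx m (w + r) = ix m i
    · exact small w r r' h1 h2 h3 h4 c1 h5
    by_cases c2 : jx m (w + r) = ix m (i + 1)
    · exact smallr w r r' h1 h2 h3 h4 c2 h5
    have h5' : τ.1 (some (jx m (w + r'))) = some (jx m (w + r)) := by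
      rw [← h5, τ.2.inv]
    have c3 : jx m (w + r') ≠ ix m i := by
      intro h
      rw [h, t1] at h5'
      exact c2 (Option.some.inj h5').symm
    have c4 : jx m (w + r') ≠ ix m (i + 1) := by
      intro h
      rw [h, t2] at h5'
      exact c1 (Option.some.inj h5').symm
    exact hR.trans (hR.symm (hAA _ c1 c2)) (hR.trans (h6 ⟨c1, c2⟩ ⟨c3, c4⟩) (hAA _ c3 c4))
  have win : ∀ (p : Fin (m + 1)) (w : ℤ), jx m w ≠ p → ∃ r : ℤ, 0 < r ∧ r < m + 1 ∧
      jx m (w + r) = p := by
    intro p w hw
    obtain ⟨r, hr0, hr1, hr2⟩ := p1_ex m w p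
    refine ⟨r, ?_, hr1, hr2⟩
    rcases eq_or_lt_of_le hr0 with h0 | h0
    · rw [← h0, add_zero] at hr2
      exact absurd hr2 hw
    · exact h0
  rcases h0 : σ.1 (some (ix m i)) with _ | b0
  · -- the defect is at `i`
    have ha : ix m i = jx m a := p1_none σ h.dft h0
    rcases h1 : σ.1 (some (ix m (i + 1))) with _ | b
    · exfalso
      exact hne (ha.trans (p1_none σ h.dft h1).symm)
    have hdE : dE m i σ = ((b.val : ℤ) - i) % ((m : ℤ) + 1) := by
      unfold dE
      rw [h0, h1]
    set β := dE m i σ with hβ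
    have hβ0 : 0 ≤ β := by rw [hdE]; exact Int.emod_nonneg _ (by omega)
    have hβ1 : β < m + 1 := by rw [hdE]; exact Int.emod_lt_of_pos _ (by omega)
    have hb : jx m (a + β) = b := by
      rw [p1_jx_eq]
      have e1 : ((m : ℤ) + 1) ∣ a - i := by
        rw [← p1_jx_jx, ← p1_ix, ha]
      have e2 : ((m : ℤ) + 1) ∣ ((b.val : ℤ) - i) - β := by
        rw [hdE]; exact Int.dvd_self_sub_emod
      have := dvd_sub e1 e2
      rwa [show a - i - ((b.val : ℤ) - i - β) = a + β - b.val by ring] at this
    have b1 : σ.1 (some b) = some (ix m (i + 1)) := by rw [← h1, σ.2.inv]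
    have hbi : b ≠ ix m i := by
      intro h2
      rw [h2, h0] at b1
      exact absurd b1 (by simp)
    have hbi1 : b ≠ ix m (i + 1) := by
      intro h2
      rw [h2] at b1
      exact σ.2.nofix _ b1
    have hβne0 : β ≠ 0 := by
      intro h2
      rw [h2, add_zero] at hb
      exact hbi (hb.symm.trans ha.symm)
    have hβne1 : β ≠ 1 := by
      intro h2
      rw [h2, hnext a ha.symm] at hb
      exact hbi1 hb.symm
    refine ⟨?_, ?_, ?_⟩
    · rw [hτv, if_neg (by simp), if_neg (by simp), if_pos h0.symm, h1, hb]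
    · refine hR.trans h.str (hR.trans (hA a ha.symm) (hR.trans ?_ (hAA _ (by rw [hb]; exact hbi)
        (by rw [hb]; exact hbi1))))
      exact h.prs a 1 β rfl (by norm_num) (by omega) (by omega) hβ1
        (by rw [hnext a ha.symm, h1, hb])
    · intro w' r r' hw hr0 hr1 hr0' hr1' hst
      refine red w' r r' hr0 hr1 hr0' hr1' hst ?_
      rintro ⟨c1, c2⟩ ⟨c3, c4⟩
      rw [hb] at hw
      have c5 : jx m (w' + r) ≠ b := by
        intro h2
        have := p1_inj (h2.trans hw.symm) (by omega) (by omega)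
        omega
      have hst' : σ.1 (some (jx m (w' + r))) = some (jx m (w' + r')) := by
        rw [hτv, if_neg (by simpa using c1), if_neg (by simpa using c2), h0, if_neg (by simp), h1,
          if_neg (by simpa using c5)] at hst
        exact hst
      have hwa : jx m (w' - β) = jx m a := by
        have := p1_shift (hw.trans hb.symm) (-β)
        rw [show a + β + -β = a by ring] at this
        exact this
      have hwa1 : jx m (w' - β + (m + 1)) = jx m a := by rw [p1_add, hwa]
      have hadj : jx m (w' - β + 1) = ix m (i + 1) := hnext _ (hwa.trans ha.symm)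
      have hadj1 : jx m (w' - β + (m + 1) + 1) = ix m (i + 1) := hnext _ (hwa1.trans ha.symm)
      have cx : β + r ≠ m + 1 := by
        intro h2
        apply c1
        rw [show w' + r = w' - β + (m + 1) by omega, hwa1, ha]
      have cy : β + r' ≠ m + 1 := by
        intro h2
        apply c3
        rw [show w' + r' = w' - β + (m + 1) by omega, hwa1, ha]
      have cx1 : β + r ≠ m + 1 + 1 := by
        intro h2
        apply c2
        rw [show w' + r = w' - β + (m + 1) + 1 by omega, hadj1]
      have cy1 : β + r' ≠ m + 1 + 1 := by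
        intro h2
        apply c4
        rw [show w' + r' = w' - β + (m + 1) + 1 by omega, hadj1]
      have chord : ∀ u, jx m u = jx m a → σ.1 (some (jx m (u + 1))) = some (jx m (u + β)) := by
        intro u hu
        rw [hnext u (hu.trans ha.symm), h1, ← hb, p1_shift hu β]
      by_cases g1 : β + r < m + 1
      · by_cases g2 : β + r' < m + 1
        · have := h.prs (w' - β) (β + r) (β + r') hwa (by omega) g1 (by omega) g2
            (by rw [show w' - β + (β + r) = w' + r by ring,
              show w' - β + (β + r') = w' + r' by ring]; exact hst')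
          rwa [show w' - β + (β + r) = w' + r by ring,
              show w' - β + (β + r') = w' + r' by ring] at this
        · exfalso
          have e1 : jx m (w' - β + (β + r' - (m + 1))) = jx m (w' + r') := by
            rw [show w' - β + (β + r' - (m + 1)) = w' + r' - (m + 1) by ring, p1_sub]
          have e2 : jx m (w' - β + (β + r)) = jx m (w' + r) := by
            rw [show w' - β + (β + r) = w' + r by ring]
          have := p1_nc σ (w := w' - β) (r1 := 1) (r2 := β) (r3 := β + r' - (m + 1)) (r4 := β + r)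
            (by omega) (by omega) (by omega) (by omega) (chord _ hwa)
            (by rw [e1, e2, ← hst', σ.2.inv]) (by omega) (by omega) (by omega)
          omega
      · by_cases g2 : β + r' < m + 1
        · exfalso
          have e1 : jx m (w' - β + (β + r - (m + 1))) = jx m (w' + r) := by
            rw [show w' - β + (β + r - (m + 1)) = w' + r - (m + 1) by ring, p1_sub]
          have e2 : jx m (w' - β + (β + r')) = jx m (w' + r') := by
            rw [show w' - β + (β + r') = w' + r' by ring]
          have := p1_nc σ (w := w' - β) (r1 := 1) (r2 := β) (r3 := β + r - (m + 1)) (r4 := β + r')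
            (by omega) (by omega) (by omega) (by omega) (chord _ hwa)
            (by rw [e1, e2, hst']) (by omega) (by omega) (by omega)
          omega
        · have := h.prs (w' - β + (m + 1)) (β + r - (m + 1)) (β + r' - (m + 1)) hwa1 (by omega)
            (by omega) (by omega) (by omega)
            (by rw [show w' - β + (m + 1) + (β + r - (m + 1)) = w' + r by ring,
              show w' - β + (m + 1) + (β + r' - (m + 1)) = w' + r' by ring]; exact hst')
          rwa [show w' - β + (m + 1) + (β + r - (m + 1)) = w' + r by ring,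
              show w' - β + (m + 1) + (β + r' - (m + 1)) = w' + r' by ring] at this
  rcases h1 : σ.1 (some (ix m (i + 1))) with _ | b1
  · -- the defect is at `i + 1`
    have ha : ix m (i + 1) = jx m a := p1_none σ h.dft h1
    have hdE : dE m i σ = -(((i : ℤ) + 1 - b0.val) % ((m : ℤ) + 1)) := by
      unfold dE
      rw [h0, h1]
    obtain ⟨β, hβ⟩ : ∃ β, β = ((i : ℤ) + 1 - b0.val) % ((m : ℤ) + 1) := ⟨_, rfl⟩
    rw [← hβ] at hdE
    have hβ0 : 0 ≤ β := by rw [hβ]; exact Int.emod_nonneg _ (by omega)
    have hβ1 : β < m + 1 := by rw [hβ]; exact Int.emod_lt_of_pos _ (by omega)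
    have hb : jx m (a - β) = b0 := by
      rw [p1_jx_eq]
      have e1 : ((m : ℤ) + 1) ∣ a - ((i + 1 : ℕ) : ℤ) := by
        rw [← p1_jx_jx, ← p1_ix, ha]
      have e2 : ((m : ℤ) + 1) ∣ ((i : ℤ) + 1 - b0.val) - β := by
        rw [hβ]; exact Int.dvd_self_sub_emod
      have := dvd_add e1 e2
      push_cast at this
      rwa [show a - ((i : ℤ) + 1) + ((i : ℤ) + 1 - b0.val - β) = a - β - b0.val by ring] at this
    have b1 : σ.1 (some b0) = some (ix m i) := by rw [← h0, σ.2.inv]
    have hbi : b0 ≠ ix m (i + 1) := by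
      intro h2
      rw [h2, h1] at b1
      exact absurd b1 (by simp)
    have hbi1 : b0 ≠ ix m i := by
      intro h2
      rw [h2] at b1
      exact σ.2.nofix _ b1
    have hβne0 : β ≠ 0 := by
      intro h2
      rw [h2, sub_zero] at hb
      exact hbi (hb.symm.trans ha.symm)
    have hβne1 : β ≠ 1 := by
      intro h2
      rw [h2, hprev a ha.symm] at hb
      exact hbi1 hb.symm
    rw [hdE, ← sub_eq_add_neg]
    refine ⟨?_, ?_, ?_⟩
    · rw [hτv, if_neg (by simp), if_neg (by simp), h0, if_neg (by simp), if_pos h1.symm, hb]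
    · have e1 : R (A (a - 1)) (A a) := by
        have := hA (a - 1) (hprev a ha.symm)
        rwa [sub_add_cancel] at this
      have e2 : R (A (a - (m + 1) + m)) (A (a - (m + 1) + ((m : ℤ) + 1 - β))) :=
        h.prs (a - (m + 1)) m (m + 1 - β) (p1_sub _ _) (by omega) (by omega) (by omega) (by omega)
          (by rw [show a - ((m : ℤ) + 1) + m = a - 1 by ring,
            show a - ((m : ℤ) + 1) + ((m : ℤ) + 1 - β) = a - β by ring,
            hprev a ha.symm, h0, hb])
      rw [show a - ((m : ℤ) + 1) + m = a - 1 by ring,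
            show a - ((m : ℤ) + 1) + ((m : ℤ) + 1 - β) = a - β by ring] at e2
      exact hR.trans h.str (hR.trans (hR.symm e1) (hR.trans e2 (hAA _ (by rw [hb]; exact hbi1)
        (by rw [hb]; exact hbi))))
    · intro w' r r' hw hr0 hr1 hr0' hr1' hst
      refine red w' r r' hr0 hr1 hr0' hr1' hst ?_
      rintro ⟨c1, c2⟩ ⟨c3, c4⟩
      rw [hb] at hw
      have c5 : jx m (w' + r) ≠ b0 := by
        intro h2
        have := p1_inj (h2.trans hw.symm) (by omega) (by omega)
        omega
      have hst' : σ.1 (some (jx m (w' + r))) = some (jx m (w' + r')) := by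
        rw [hτv, if_neg (by simpa using c1), if_neg (by simpa using c2), h0,
          if_neg (by simpa using c5), h1, if_neg (by simp)] at hst
        exact hst
      have hwa : jx m (w' + β) = jx m a := by
        have := p1_shift (hw.trans hb.symm) β
        rw [show a - β + β = a by ring] at this
        exact this
      have hwa1 : jx m (w' + β - (m + 1)) = jx m a := by rw [p1_sub, hwa]
      have hadj : jx m (w' + β - 1) = ix m i := hprev _ (hwa.trans ha.symm)
      have cx : r ≠ β := by
        intro h2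
        apply c2
        rw [h2, hwa, ha]
      have cy : r' ≠ β := by
        intro h2
        apply c4
        rw [h2, hwa, ha]
      have cx1 : r ≠ β - 1 := by
        intro h2
        apply c1
        rw [h2, show w' + (β - 1) = w' + β - 1 by ring, hadj]
      have cy1 : r' ≠ β - 1 := by
        intro h2
        apply c3
        rw [h2, show w' + (β - 1) = w' + β - 1 by ring, hadj]
      have chord : ∀ u, jx m u = jx m a →
          σ.1 (some (jx m (u + m))) = some (jx m (u + (m + 1 - β))) := by
        intro u hu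
        have e1 : jx m (u + m) = ix m i := by
          have := hprev (u + (m + 1)) (by rw [p1_add, hu, ha])
          rwa [show u + ((m : ℤ) + 1) - 1 = u + m by ring] at this
        rw [e1, h0, ← hb, show u + ((m : ℤ) + 1 - β) = u + -β + (m + 1) by ring, p1_add,
          sub_eq_add_neg, p1_shift hu (-β)]
      by_cases g1 : r < β
      · by_cases g2 : r' < β
        · have := h.prs (w' + β - (m + 1)) (m + 1 - β + r) (m + 1 - β + r') hwa1 (by omega)
            (by omega) (by omega) (by omega)
            (by rw [show w' + β - ((m : ℤ) + 1) + (m + 1 - β + r) = w' + r by ring,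
              show w' + β - ((m : ℤ) + 1) + (m + 1 - β + r') = w' + r' by ring]; exact hst')
          rwa [show w' + β - ((m : ℤ) + 1) + (m + 1 - β + r) = w' + r by ring,
              show w' + β - ((m : ℤ) + 1) + (m + 1 - β + r') = w' + r' by ring] at this
        · exfalso
          have e1 : jx m (w' + β - (m + 1) + (m + 1 - β + r)) = jx m (w' + r) := by
            rw [show w' + β - ((m : ℤ) + 1) + (m + 1 - β + r) = w' + r by ring]
          have e2 : jx m (w' + β - (m + 1) + (r' - β)) = jx m (w' + r') := by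
            rw [show w' + β - ((m : ℤ) + 1) + (r' - β) = w' + r' - (m + 1) by ring, p1_sub]
          have := p1_nc σ (w := w' + β - (m + 1)) (r1 := m) (r2 := m + 1 - β)
            (r3 := m + 1 - β + r) (r4 := r' - β)
            (by omega) (by omega) (by omega) (by omega) (chord _ hwa1)
            (by rw [e1, e2, hst']) (by omega) (by omega) (by omega)
          omega
      · by_cases g2 : r' < β
        · exfalso
          have e1 : jx m (w' + β - (m + 1) + (m + 1 - β + r')) = jx m (w' + r') := by
            rw [show w' + β - ((m : ℤ) + 1) + (m + 1 - β + r') = w' + r' by ring]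
          have e2 : jx m (w' + β - (m + 1) + (r - β)) = jx m (w' + r) := by
            rw [show w' + β - ((m : ℤ) + 1) + (r - β) = w' + r - (m + 1) by ring, p1_sub]
          have := p1_nc σ (w := w' + β - (m + 1)) (r1 := m) (r2 := m + 1 - β)
            (r3 := m + 1 - β + r') (r4 := r - β)
            (by omega) (by omega) (by omega) (by omega) (chord _ hwa1)
            (by rw [e1, e2, ← hst', σ.2.inv]) (by omega) (by omega) (by omega)
          omega
        · have := h.prs (w' + β) (r - β) (r' - β) hwa (by omega)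
            (by omega) (by omega) (by omega)
            (by rw [show w' + β + (r - β) = w' + r by ring,
              show w' + β + (r' - β) = w' + r' by ring]; exact hst')
          rwa [show w' + β + (r - β) = w' + r by ring,
              show w' + β + (r' - β) = w' + r' by ring] at this
  · -- the defect is elsewhere
    have hdE : dE m i σ = 0 := by
      unfold dE
      rw [h0, h1]
    rw [hdE, add_zero]
    have hda : σ.1 (some (jx m a)) = none := by rw [← h.dft, σ.2.inv]
    have da0 : jx m a ≠ ix m i := by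
      intro h2
      rw [h2, h0] at hda
      exact absurd hda (by simp)
    have da1 : jx m a ≠ ix m (i + 1) := by
      intro h2
      rw [h2, h1] at hda
      exact absurd hda (by simp)
    refine ⟨?_, hR.trans h.str (hAA a da0 da1), ?_⟩
    · rw [hτv, if_neg (by simp), if_neg (by simp), h0, if_neg (by simp), h1, if_neg (by simp),
        h.dft]
    · intro w r r' hw hr0 hr1 hr0' hr1' hst
      refine red w r r' hr0 hr1 hr0' hr1' hst ?_
      rintro ⟨c1, c2⟩ ⟨c3, c4⟩
      obtain ⟨u, hu0, hu1, hu2⟩ := win (ix m i) w (by rw [hw]; exact da0)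
      have hu3 := hnext _ hu2
      have hu4 : u + 1 < m + 1 := by
        by_contra hcon
        have e : u + 1 = m + 1 := by omega
        rw [show w + u + 1 = w + (u + 1) by ring, e, p1_add, hw] at hu3
        exact da1 hu3
      have hlink := hA _ hu2
      rw [hτv, if_neg (by simpa using c1), if_neg (by simpa using c2)] at hst
      split_ifs at hst with g1 g2
      · -- `w + r` is the partner of `i`
        have e1 := h.prs w u r hw hu0 hu1 hr0 hr1 (by rw [hu2, ← g1])
        have e2 := h.prs w (u + 1) r' hw (by omega) hu4 hr0' hr1'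
          (by rw [← add_assoc, hu3, hst])
        rw [← add_assoc] at e2
        exact hR.trans (hR.symm e1) (hR.trans hlink e2)
      · have e1 := h.prs w (u + 1) r hw (by omega) hu4 hr0 hr1 (by rw [← add_assoc, hu3, ← g2])
        have e2 := h.prs w u r' hw hu0 hu1 hr0' hr1' (by rw [hu2, hst])
        rw [← add_assoc] at e1
        exact hR.trans (hR.symm e1) (hR.trans (hR.symm hlink) e2)
      · exact h.prs w r r' hw hr0 hr1 hr0' hr1' hst


/-! ### rotations -/

theorem p1_rotV (m : ℕ) (x : ℤ) : rotV m (some (jx m x)) = some (jx m (x + 1)) := by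
  have h : jx m x = ix m (jx m x).val := by
    ext
    simp [ix, Nat.mod_eq_of_lt (jx m x).2]
  rw [h, rel_rotV_ix, p1_ix]
  congr 1
  rw [p1_jx_jx]
  push_cast
  rw [p1_jx_val]
  have := @Int.dvd_self_sub_emod x ((m : ℤ) + 1)
  rw [← dvd_neg] at this
  rwa [show -(x - x % ((m : ℤ) + 1)) = x % ((m : ℤ) + 1) + 1 - (x + 1) by ring] at this

theorem p1_rotVi (m : ℕ) (x : ℤ) : (rotV m)⁻¹ (some (jx m x)) = some (jx m (x - 1)) := by
  rw [Perm.inv_eq_iff_eq, p1_rotV, sub_add_cancel]

theorem p1_rot {α : Type*} {m : ℕ} {R : α → α → Prop} (hR : Equivalence R) {s : α}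
    {A A' : ℤ → α} {σ : Pat (m + 1)} {a : ℤ} (h : P1Good m R s A σ a)
    (hA : ∀ x, R (A x) (A' (x + 1))) : P1Good m R s A' (rot m σ) (a + 1) := by
  refine ⟨?_, hR.trans h.str (hA a), ?_⟩
  · rw [rot_val]
    show rotV m (σ.1 ((rotV m)⁻¹ none)) = _
    rw [show (rotV m)⁻¹ none = none by rw [Perm.inv_eq_iff_eq, rel_rotV_none], h.dft, p1_rotV]
  · intro w r r' hw h1 h2 h3 h4 h5
    have h6 : σ.1 (some (jx m (w - 1 + r))) = some (jx m (w - 1 + r')) := by
      rw [rot_val] at h5
      change rotV m (σ.1 ((rotV m)⁻¹ (some (jx m (w + r))))) = _ at h5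
      rw [p1_rotVi, ← Perm.eq_inv_iff_eq, p1_rotVi] at h5
      rw [show w - 1 + r = w + r - 1 by ring, show w - 1 + r' = w + r' - 1 by ring]
      exact h5
    have hw' : jx m (w - 1) = jx m a := by
      have := p1_shift hw (-1)
      rw [show a + 1 + -1 = a by ring] at this
      exact this
    have h7 := h.prs (w - 1) r r' hw' h1 h2 h3 h4 h6
    have h8 := hA (w - 1 + r)
    have h9 := hA (w - 1 + r')
    rw [show w - 1 + r + 1 = w + r by ring] at h8
    rw [show w - 1 + r' + 1 = w + r' by ring] at h9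
    exact hR.trans (hR.symm h8) (hR.trans h7 h9)

theorem p1_rotInv {α : Type*} {m : ℕ} {R : α → α → Prop} (hR : Equivalence R) {s : α}
    {A A' : ℤ → α} {σ : Pat (m + 1)} {a : ℤ} (h : P1Good m R s A σ a)
    (hA : ∀ x, R (A x) (A' (x - 1))) : P1Good m R s A' (rotInv m σ) (a - 1) := by
  refine ⟨?_, hR.trans h.str (hA a), ?_⟩
  · rw [rotInv_val]
    show (rotV m)⁻¹ (σ.1 (rotV m none)) = _
    rw [rel_rotV_none, h.dft, p1_rotVi]
  · intro w r r' hw h1 h2 h3 h4 h5
    have h6 : σ.1 (some (jx m (w + 1 + r))) = some (jx m (w + 1 + r')) := by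
      rw [rotInv_val] at h5
      change (rotV m)⁻¹ (σ.1 (rotV m (some (jx m (w + r))))) = _ at h5
      rw [p1_rotV, Perm.inv_eq_iff_eq, p1_rotV] at h5
      rw [show w + 1 + r = w + r + 1 by ring, show w + 1 + r' = w + r' + 1 by ring]
      exact h5
    have hw' : jx m (w + 1) = jx m a := by
      have := p1_shift hw 1
      rw [show a - 1 + 1 = a by ring] at this
      exact this
    have h7 := h.prs (w + 1) r r' hw' h1 h2 h3 h4 h6
    have h8 := hA (w + 1 + r)
    have h9 := hA (w + 1 + r')
    rw [show w + 1 + r - 1 = w + r by ring] at h8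
    rw [show w + 1 + r' - 1 = w + r' by ring] at h9
    exact hR.trans (hR.symm h8) (hR.trans h7 h9)

/-! ### one row -/

/-- the current position of the strand `x` inside a row -/
noncomputable def p1A (m : ℕ) (t k j : ℕ) (x : ℤ) : Edg :=
  if (x - k) % ((m : ℤ) + 1) < j then Edg.v (x + 1) (t + 1) else
    if (x - k) % ((m : ℤ) + 1) = j then Edg.h (x + 1) t else Edg.v x t

theorem p1_rel {m k j : ℕ} (hj : j ≤ m) (x : ℤ) :
    jx m x = ix m (k + j) ↔ (x - k) % ((m : ℤ) + 1) = j := by
  rw [p1_ix, p1_jx_jx]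
  push_cast
  constructor
  · intro h
    have h2 : ((m : ℤ) + 1) ∣ (x - k) - j := by
      rwa [show x - k - (j : ℤ) = x - (k + j) by ring]
    have h4 := Int.emod_eq_emod_iff_emod_sub_eq_zero.mpr (Int.emod_eq_zero_of_dvd h2)
    rw [h4]
    exact Int.emod_eq_of_lt (by omega) (by omega)
  · intro h
    have := @Int.dvd_self_sub_emod (x - k) ((m : ℤ) + 1)
    rwa [h, show x - k - (j : ℤ) = x - (k + j) by ring] at this

theorem p1_rel_succ {m k j : ℕ} (hj : j + 1 ≤ m) {x : ℤ} (h : (x - k) % ((m : ℤ) + 1) = j) :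
    (x + 1 - k) % ((m : ℤ) + 1) = (j + 1 : ℕ) := by
  rw [← p1_rel hj]
  rw [← p1_rel (by omega)] at h
  rw [p1_ix] at h ⊢
  have := p1_shift h 1
  rw [this]
  congr 1

theorem p1_stage {n M : ℕ} {c : Fin M → Fin (2 * n + 1) → Bool} (t : Fin M) {R : Edg → Edg → Prop}
    (hR : Equivalence R) (hL : ∀ x y, Link n M c x y → R x y) {s : Edg} {σ : Pat (2 * n + 1)}
    {a : ℤ} (h : P1Good (2 * n) R s (fun x => Edg.v x t) σ a) {k : ℕ}
    (hk : c t (ix (2 * n) k) = false) (j : ℕ) (hj : j ≤ 2 * n) :
    P1Good (2 * n) R s (p1A (2 * n) t k j) (word (2 * n) (c t) k j σ)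
      (a + dword (2 * n) (c t) k j σ) := by
  induction j with
  | zero =>
    show P1Good (2 * n) R s (p1A (2 * n) t k 0) σ (a + 0)
    rw [add_zero]
    apply p1_id hR h
    intro x
    unfold p1A
    have h0 := Int.emod_nonneg (x - k) (show (((2 * n : ℕ) : ℤ) + 1) ≠ 0 by omega)
    rw [if_neg (by push_cast at h0 ⊢; omega)]
    split_ifs with h1
    · apply hL
      have h2 := (p1_rel (m := 2 * n) (k := k) (j := 0) (by omega) x).mpr h1
      exact Link.br x t (by rw [h2]; exact hk)
    · exact hR.refl _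
  | succ j ih =>
    have ih := ih (by omega)
    have hw : word (2 * n) (c t) k (j + 1) σ = if c t (ix (2 * n) (k + j + 1)) = true then
        E (2 * n) (k + j) (word (2 * n) (c t) k j σ) else word (2 * n) (c t) k j σ := rfl
    have hd : dword (2 * n) (c t) k (j + 1) σ = dword (2 * n) (c t) k j σ +
        if c t (ix (2 * n) (k + j + 1)) = true then
          dE (2 * n) (k + j) (word (2 * n) (c t) k j σ) else 0 := rfl
    rw [hw, hd]
    have key : ∀ x : ℤ, (x - k) % (((2 * n : ℕ) : ℤ) + 1) = j →
        jx (2 * n) (x + 1) = ix (2 * n) (k + j + 1) := by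
      intro x hx
      have := p1_rel_succ hj hx
      rw [← p1_rel hj] at this
      exact this
    by_cases hc : c t (ix (2 * n) (k + j + 1)) = true
    · rw [if_pos hc, if_pos hc, ← add_assoc]
      apply p1_E (by omega) hR ih
      · intro x hx
        rw [p1_rel (by omega)] at hx
        have hx1 := p1_rel_succ hj hx
        have e1 : p1A (2 * n) t k j x = Edg.h (x + 1) t := by
          unfold p1A
          rw [if_neg (by omega), if_pos hx]
        have e2 : p1A (2 * n) t k j (x + 1) = Edg.v (x + 1) t := by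
          unfold p1A
          rw [if_neg (by omega), if_neg (by omega)]
        rw [e1, e2]
        exact hR.symm (hL _ _ (Link.bl (x + 1) t (by rw [key x hx]; exact hc)))
      · intro x hx
        rw [p1_rel (by omega)] at hx
        have hx1 := p1_rel_succ hj hx
        have e1 : p1A (2 * n) t k (j + 1) x = Edg.v (x + 1) (t + 1) := by
          unfold p1A
          rw [if_pos (by omega)]
        have e2 : p1A (2 * n) t k (j + 1) (x + 1) = Edg.h (x + 1 + 1) t := by
          unfold p1A
          rw [if_neg (by omega), if_pos hx1]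
        rw [e1, e2]
        exact hR.symm (hL _ _ (Link.rt (x + 1) t (by rw [key x hx]; exact hc)))
      · intro x hx hx2
        rw [Ne, p1_rel (by omega)] at hx
        rw [Ne, add_assoc, p1_rel hj] at hx2
        have e : p1A (2 * n) t k j x = p1A (2 * n) t k (j + 1) x := by
          unfold p1A
          by_cases g1 : (x - k) % (((2 * n : ℕ) : ℤ) + 1) < j
          · rw [if_pos g1, if_pos (by omega)]
          · rw [if_neg g1, if_neg hx, if_neg (by omega), if_neg hx2]
        rw [e]
        exact hR.refl _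
    · rw [if_neg hc, if_neg hc, add_zero]
      have hcf : c t (ix (2 * n) (k + j + 1)) = false := by simpa using hc
      apply p1_id hR ih
      intro x
      by_cases hx : (x - k) % (((2 * n : ℕ) : ℤ) + 1) = j
      · have e1 : p1A (2 * n) t k j x = Edg.h (x + 1) t := by
          unfold p1A
          rw [if_neg (by omega), if_pos hx]
        have e2 : p1A (2 * n) t k (j + 1) x = Edg.v (x + 1) (t + 1) := by
          unfold p1A
          rw [if_pos (by omega)]
        rw [e1, e2]
        exact hL _ _ (Link.lt (x + 1) t (by rw [key x hx]; exact hcf))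
      · by_cases hx2 : (x - k) % (((2 * n : ℕ) : ℤ) + 1) = (j + 1 : ℕ)
        · have e1 : p1A (2 * n) t k j x = Edg.v x t := by
            unfold p1A
            rw [if_neg (by omega), if_neg hx]
          have e2 : p1A (2 * n) t k (j + 1) x = Edg.h (x + 1) t := by
            unfold p1A
            rw [if_neg (by omega), if_pos hx2]
          rw [e1, e2]
          rw [← p1_rel hj, ← add_assoc] at hx2
          exact hL _ _ (Link.br x t (by rw [hx2]; exact hcf))
        · have e : p1A (2 * n) t k j x = p1A (2 * n) t k (j + 1) x := by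
            unfold p1A
            by_cases g1 : (x - k) % (((2 * n : ℕ) : ℤ) + 1) < j
            · rw [if_pos g1, if_pos (by omega)]
            · rw [if_neg g1, if_neg hx, if_neg (by omega), if_neg hx2]
          rw [e]
          exact hR.refl _

theorem p1_row {n M : ℕ} {c : Fin M → Fin (2 * n + 1) → Bool} (t : Fin M) {R : Edg → Edg → Prop}
    (hR : Equivalence R) (hL : ∀ x y, Link n M c x y → R x y) {s : Edg} {σ : Pat (2 * n + 1)}
    {a : ℤ} (h : P1Good (2 * n) R s (fun x => Edg.v x t) σ a) :
    P1Good (2 * n) R s (fun x => Edg.v x (t + 1)) (Tc (2 * n) (c t) σ)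
      (a + dTc (2 * n) (c t) σ) := by
  unfold Tc dTc
  split_ifs with hex
  · obtain ⟨hk1, hk2⟩ := Nat.find_spec hex
    have h1 := p1_stage t hR hL h hk2 (2 * n) le_rfl
    rw [← add_assoc]
    refine p1_rot hR h1 fun x => ?_
    unfold p1A
    split_ifs with g1 g2
    · exact hR.refl _
    · apply hL
      have e1 : jx (2 * n) x = ix (2 * n) (Nat.find hex + 2 * n) := (p1_rel le_rfl x).mpr g2
      have e2 : jx (2 * n) (x + 1) = ix (2 * n) (Nat.find hex) := by
        rw [p1_ix] at e1 ⊢
        rw [p1_shift e1 1, ← p1_add (2 * n) ((Nat.find hex : ℕ) : ℤ)]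
        congr 1
      exact Link.lt (x + 1) t (by rw [e2]; exact hk2)
    · exfalso
      have := Int.emod_lt_of_pos (x - (Nat.find hex : ℕ)) (show 0 < (((2 * n : ℕ) : ℤ) + 1) by omega)
      push_cast at *
      omega
  · have hall : ∀ x : ℤ, c t (jx (2 * n) x) = true := by
      intro x
      by_contra hc
      apply hex
      refine ⟨(jx (2 * n) x).val, (jx (2 * n) x).2, ?_⟩
      have : ix (2 * n) (jx (2 * n) x).val = jx (2 * n) x := by
        ext
        simp [ix, Nat.mod_eq_of_lt (jx (2 * n) x).2]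
      rw [this]
      simpa using hc
    rw [← sub_eq_add_neg]
    refine p1_rotInv hR h fun x => ?_
    refine hR.trans (hL _ _ (Link.bl x t (hall x))) ?_
    have := hL _ _ (Link.rt (x - 1) t (hall (x - 1)))
    rwa [sub_add_cancel] at this


/-! ### the initial pattern and the induction over the rows -/

theorem p1_start (n : ℕ) : (start n).1 none = some (Fin.last (2 * n)) ∧
    ∀ j l : Fin (2 * n + 1), (start n).1 (some j) = some l →
      ∃ i < n, (j.val = 2 * i ∧ l.val = 2 * i + 1) ∨ (j.val = 2 * i + 1 ∧ l.val = 2 * i) := by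
  induction n with
  | zero =>
    refine ⟨rfl, ?_⟩
    intro j l h
    exfalso
    change baseFun 0 (some j) = some l at h
    simp [baseFun] at h
  | succ n ih =>
    obtain ⟨ih1, ih2⟩ := ih
    have hval : ∀ v, (start (n + 1)).1 v = insFun (start n).1 v := fun v => rfl
    constructor
    · rw [hval, insFun_none, ih1, shiftV_some]
      congr 1
    · intro j l h
      rw [hval] at h
      rcases Vx_cases (L := 2 * n + 1) (some j) with h1 | h1 | ⟨w, h1⟩
      · rw [h1, insFun_zero] at h
        have h2 := Option.some.inj h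
        have h3 := Option.some.inj h1
        refine ⟨0, by omega, Or.inl ⟨?_, ?_⟩⟩
        · rw [h3]; rfl
        · rw [← h2]; rfl
      · rw [h1, insFun_one] at h
        have h2 := Option.some.inj h
        have h3 := Option.some.inj h1
        refine ⟨0, by omega, Or.inr ⟨?_, ?_⟩⟩
        · rw [h3]; rfl
        · rw [← h2]; rfl
      · rw [h1, insFun_shift] at h
        rcases w with _ | j'
        · simp at h1
        rcases h4 : (start n).1 (some j') with _ | l'
        · rw [h4] at h; simp at h
        rw [h4] at h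
        rw [shiftV_some] at h h1
        have h5 := Option.some.inj h
        have h6 := Option.some.inj h1
        have e1 : j.val = j'.val + 2 := by rw [h6]; rfl
        have e2 : l.val = l'.val + 2 := by rw [← h5]; rfl
        obtain ⟨i, hi, h7⟩ := ih2 _ _ h4
        exact ⟨i + 1, by omega, by omega⟩

theorem p1_good0 {n M : ℕ} {c : Fin M → Fin (2 * n + 1) → Bool} {R : Edg → Edg → Prop}
    (hR : Equivalence R) (hL : ∀ x y, Link n M c x y → R x y) :
    P1Good (2 * n) R (Edg.v (2 * n) 0) (fun x => Edg.v x 0) (start n) (2 * n) := by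
  have hlast : (Fin.last (2 * n)) = jx (2 * n) (2 * n) := by
    symm
    rw [p1_jx_eq]
    simp
  refine ⟨by rw [(p1_start n).1, hlast], hR.refl _, ?_⟩
  intro w r r' hw h1 h2 h3 h4 h5
  rw [p1_jx_jx] at hw
  obtain ⟨u, hu⟩ := hw
  have val : ∀ r : ℤ, 0 < r → r < ((2 * n : ℕ) : ℤ) + 1 → ((jx (2 * n) (w + r)).val : ℤ) = r - 1 := by
    intro r hr1 hr2
    rw [p1_jx_val]
    have e : w + r = (r - 1) + (((2 * n : ℕ) : ℤ) + 1) * (u + 1) := by
      push_cast at hu ⊢
      linear_combination hu
    rw [e, Int.add_mul_emod_self_left]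
    exact Int.emod_eq_of_lt (by omega) (by omega)
  have v1 := val r h1 h2
  have v2 := val r' h3 h4
  obtain ⟨i, hi, h6⟩ := (p1_start n).2 _ _ h5
  have hb := hL _ _ (Link.bot (M := M) (c := c) (u + 1) i hi)
  have ew : w = (u + 1) * (2 * n + 1) - 1 := by
    push_cast at hu
    linear_combination hu
  rcases h6 with ⟨g1, g2⟩ | ⟨g1, g2⟩
  · have e1 : r = 2 * i + 1 := by omega
    have e2 : r' = 2 * i + 2 := by omega
    have f1 : w + r = (u + 1) * (2 * n + 1) + 2 * i := by rw [ew, e1]; ring
    have f2 : w + r' = (u + 1) * (2 * n + 1) + 2 * i + 1 := by rw [ew, e2]; ring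
    rw [f1, f2]
    exact hb
  · have e1 : r = 2 * i + 2 := by omega
    have e2 : r' = 2 * i + 1 := by omega
    have f1 : w + r = (u + 1) * (2 * n + 1) + 2 * i + 1 := by rw [ew, e1]; ring
    have f2 : w + r' = (u + 1) * (2 * n + 1) + 2 * i := by rw [ew, e2]; ring
    rw [f1, f2]
    exact hR.symm hb

theorem p1_link_mono {n M : ℕ} {c : Fin (M + 1) → Fin (2 * n + 1) → Bool} {x y : Edg}
    (h : Link n M (fun i => c i.castSucc) x y) : Link n (M + 1) c x y := by
  cases h with
  | br j t h => exact Link.br j t.castSucc h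
  | lt j t h => exact Link.lt j t.castSucc h
  | bl j t h => exact Link.bl j t.castSucc h
  | rt j t h => exact Link.rt j t.castSucc h
  | bot k i hi => exact Link.bot k i hi

theorem p1_run (n M : ℕ) (c : Fin M → Fin (2 * n + 1) → Bool) :
    P1Good (2 * n) (Relation.EqvGen (Link n M c)) (Edg.v (2 * n) 0) (fun x => Edg.v x M)
      (run (2 * n) M c (start n)).1 (2 * n + (run (2 * n) M c (start n)).2) := by
  induction M with
  | zero =>
    show P1Good (2 * n) _ (Edg.v (2 * n) 0) (fun x => Edg.v x 0) (start n) (2 * n + 0)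
    rw [add_zero]
    exact p1_good0 (Relation.EqvGen.is_equivalence _) (fun x y h => Relation.EqvGen.rel _ _ h)
  | succ M ih =>
    have h1 := ih (fun i => c i.castSucc)
    have hmono : ∀ x y, Relation.EqvGen (Link n M (fun i => c i.castSucc)) x y →
        Relation.EqvGen (Link n (M + 1) c) x y :=
      fun x y h => Relation.EqvGen.mono (fun _ _ h' => p1_link_mono h') x y h
    have h2 : P1Good (2 * n) (Relation.EqvGen (Link n (M + 1) c)) (Edg.v (2 * n) 0)
        (fun x => Edg.v x M) (run (2 * n) M (fun i => c i.castSucc) (start n)).1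
        (2 * n + (run (2 * n) M (fun i => c i.castSucc) (start n)).2) :=
      ⟨h1.dft, hmono _ _ h1.str, fun w r r' a1 a2 a3 a4 a5 a6 =>
        hmono _ _ (h1.prs w r r' a1 a2 a3 a4 a5 a6)⟩
    have h3 := p1_row (n := n) (c := c) (Fin.last M) (Relation.EqvGen.is_equivalence _)
      (fun x y h => Relation.EqvGen.rel _ _ h) h2
    show P1Good (2 * n) _ _ _ (Tc (2 * n) (c (Fin.last M))
      (run (2 * n) M (fun i => c i.castSucc) (start n)).1)
      (2 * n + ((run (2 * n) M (fun i => c i.castSucc) (start n)).2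
        + dTc (2 * n) (c (Fin.last M)) (run (2 * n) M (fun i => c i.castSucc) (start n)).1))
    rw [← add_assoc]
    exact h3

/-! ### uniqueness: degrees -/

theorem p1_path {V : Type*} {G : SimpleGraph V}
    (h2 : ∀ x y1 y2 y3, G.Adj x y1 → G.Adj x y2 → G.Adj x y3 → y1 = y2 ∨ y1 = y3 ∨ y2 = y3)
    {u v : V} (p : G.Walk u v) (hp : p.IsPath) (hv : ∀ y1 y2, G.Adj v y1 → G.Adj v y2 → y1 = y2) :
    (∀ x ∈ p.support, x ≠ u → ∀ y, G.Adj x y → y ∈ p.support) ∧
    (∀ x ∈ p.support, x ≠ u → x ≠ v → ∃ y1 y2, y1 ≠ y2 ∧ G.Adj x y1 ∧ G.Adj x y2) := by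
  induction p with
  | nil =>
    constructor
    · intro x hx hxu
      simp at hx
      exact absurd hx hxu
    · intro x hx hxu
      simp at hx
      exact absurd hx hxu
  | @cons u u' v hadj p ih =>
    rw [SimpleGraph.Walk.cons_isPath_iff] at hp
    obtain ⟨hp1, hp2⟩ := hp
    obtain ⟨ih1, ih2⟩ := ih hp1 hv
    constructor
    · intro x hx hxu y hxy
      rw [SimpleGraph.Walk.support_cons, List.mem_cons] at hx ⊢
      rcases hx with hx | hx
      · exact absurd hx hxu
      by_cases hxu' : x = u'
      · subst hxu'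
        cases p with
        | nil =>
          left
          exact hv _ _ hxy hadj.symm
        | @cons _ u'' _ hadj' p' =>
          have hne : u ≠ u'' := by
            intro h
            apply hp2
            rw [SimpleGraph.Walk.support_cons, List.mem_cons, h]
            exact Or.inr p'.start_mem_support
          rcases h2 x u u'' y hadj.symm hadj' hxy with h | h | h
          · exact absurd h hne
          · left; exact h.symm
          · right
            rw [SimpleGraph.Walk.support_cons, List.mem_cons, ← h]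
            exact Or.inr p'.start_mem_support
      · right
        exact ih1 x hx hxu' y hxy
    · intro x hx hxu hxv
      rw [SimpleGraph.Walk.support_cons, List.mem_cons] at hx
      rcases hx with hx | hx
      · exact absurd hx hxu
      by_cases hxu' : x = u'
      · subst hxu'
        cases p with
        | nil => exact absurd rfl hxv
        | @cons _ u'' _ hadj' p' =>
          have hne : u ≠ u'' := by
            intro h
            apply hp2
            rw [SimpleGraph.Walk.support_cons, List.mem_cons, h]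
            exact Or.inr p'.start_mem_support
          exact ⟨u, u'', hne, hadj.symm, hadj'⟩
      · exact ih2 x hx hxu' hxv

/-- in a graph with degrees at most two a component contains at most two vertices of degree one -/
theorem p1_deg {V : Type*} {G : SimpleGraph V}
    (h2 : ∀ x y1 y2 y3, G.Adj x y1 → G.Adj x y2 → G.Adj x y3 → y1 = y2 ∨ y1 = y3 ∨ y2 = y3)
    {a b c : V} (hab : G.Reachable a b) (hac : G.Reachable a c)
    (ha : ∀ y1 y2, G.Adj a y1 → G.Adj a y2 → y1 = y2)
    (hb : ∀ y1 y2, G.Adj b y1 → G.Adj b y2 → y1 = y2)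
    (hc : ∀ y1 y2, G.Adj c y1 → G.Adj c y2 → y1 = y2) (hne : a ≠ b) (hne' : a ≠ c) : b = c := by
  obtain ⟨p, hp⟩ := hab.exists_isPath
  obtain ⟨f1, f2⟩ := p1_path h2 p hp hb
  have hclosed : ∀ x ∈ p.support, ∀ y, G.Adj x y → y ∈ p.support := by
    intro x hx y hxy
    by_cases hxa : x = a
    · subst hxa
      cases p with
      | nil => exact absurd rfl hne
      | @cons _ u'' _ hadj' p' =>
        rw [SimpleGraph.Walk.support_cons, List.mem_cons]
        right
        rw [ha y u'' hxy hadj']
        exact p'.start_mem_support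
    · exact f1 x hx hxa y hxy
  obtain ⟨q⟩ := hac
  have hq : ∀ {x y : V} (q : G.Walk x y), x ∈ p.support → y ∈ p.support := by
    intro x y q
    induction q with
    | nil => exact id
    | cons h _ ih => exact fun hx => ih (hclosed _ hx _ h)
  have hcp := hq q p.start_mem_support
  by_contra hbc
  obtain ⟨y1, y2, hy, g1, g2⟩ := f2 c hcp hne'.symm (fun h => hbc h.symm)
  exact hy (hc _ _ g1 g2)

theorem p1_reach {V : Type*} {r : V → V → Prop} {x y : V} (h : Relation.EqvGen r x y) :
    (SimpleGraph.fromRel r).Reachable x y := by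
  induction h with
  | rel x y h =>
    by_cases hxy : x = y
    · rw [hxy]
    · exact SimpleGraph.Adj.reachable ((SimpleGraph.fromRel_adj _ _ _).mpr ⟨hxy, Or.inl h⟩)
  | refl x => exact SimpleGraph.Reachable.refl x
  | symm x y _ ih => exact ih.symm
  | trans x y z _ _ ih1 ih2 => exact ih1.trans ih2

theorem p1_cases {n M : ℕ} {c : Fin M → Fin (2 * n + 1) → Bool} {x y : Edg}
    (h : Link n M c x y) :
    (∃ (j : ℤ) (t : Fin M), c t (jx (2 * n) j) = false ∧ x = Edg.v j t ∧ y = Edg.h (j + 1) t) ∨
    (∃ (j : ℤ) (t : Fin M), c t (jx (2 * n) j) = false ∧ x = Edg.h j t ∧ y = Edg.v j (t + 1)) ∨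
    (∃ (j : ℤ) (t : Fin M), c t (jx (2 * n) j) = true ∧ x = Edg.v j t ∧ y = Edg.h j t) ∨
    (∃ (j : ℤ) (t : Fin M), c t (jx (2 * n) j) = true ∧ x = Edg.h (j + 1) t ∧
      y = Edg.v j (t + 1)) ∨
    (∃ (k : ℤ) (i : ℕ), i < n ∧ x = Edg.v (k * (2 * n + 1) + 2 * i) 0 ∧
      y = Edg.v (k * (2 * n + 1) + 2 * i + 1) 0) := by
  cases h with
  | br j t h => exact Or.inl ⟨j, t, h, rfl, rfl⟩
  | lt j t h => exact Or.inr (Or.inl ⟨j, t, h, rfl, rfl⟩)
  | bl j t h => exact Or.inr (Or.inr (Or.inl ⟨j, t, h, rfl, rfl⟩))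
  | rt j t h => exact Or.inr (Or.inr (Or.inr (Or.inl ⟨j, t, h, rfl, rfl⟩)))
  | bot k i hi => exact Or.inr (Or.inr (Or.inr (Or.inr ⟨k, i, hi, rfl, rfl⟩)))

open Classical in
/-- the neighbour through the upper or right plaquette -/
noncomputable def p1U (n M : ℕ) (c : Fin M → Fin (2 * n + 1) → Bool) : Edg → Edg
  | Edg.v j t => if h : t < M then
      (if c ⟨t, h⟩ (jx (2 * n) j) = false then Edg.h (j + 1) t else Edg.h j t) else Edg.v j t
  | Edg.h j t => if h : t < M then
      (if c ⟨t, h⟩ (jx (2 * n) j) = false then Edg.v j (t + 1) else Edg.v j t) else Edg.v j t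

open Classical in
/-- the neighbour through the lower or left plaquette -/
noncomputable def p1D (n M : ℕ) (c : Fin M → Fin (2 * n + 1) → Bool) : Edg → Edg
  | Edg.v j 0 => if (jx (2 * n) j).val % 2 = 0 then Edg.v (j + 1) 0 else Edg.v (j - 1) 0
  | Edg.v j (t + 1) => if h : t < M then
      (if c ⟨t, h⟩ (jx (2 * n) j) = false then Edg.h j t else Edg.h (j + 1) t) else Edg.v j t
  | Edg.h j t => if h : t < M then
      (if c ⟨t, h⟩ (jx (2 * n) (j - 1)) = false then Edg.v (j - 1) t else Edg.v (j - 1) (t + 1))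
      else Edg.v j t

theorem p1_bot_val {n : ℕ} (k : ℤ) {i : ℕ} (hi : i < n) :
    (jx (2 * n) (k * (2 * n + 1) + 2 * i)).val = 2 * i ∧
    (jx (2 * n) (k * (2 * n + 1) + 2 * i + 1)).val = 2 * i + 1 := by
  have h1 := p1_jx_val (2 * n) (k * (2 * n + 1) + 2 * i)
  have h2 := p1_jx_val (2 * n) (k * (2 * n + 1) + 2 * i + 1)
  have e1 : k * (2 * (n : ℤ) + 1) + 2 * i = 2 * i + (((2 * n : ℕ) : ℤ) + 1) * k := by
    push_cast; ring
  have e2 : k * (2 * (n : ℤ) + 1) + 2 * i + 1 = (2 * i + 1) + (((2 * n : ℕ) : ℤ) + 1) * k := by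
    push_cast; ring
  rw [e1, Int.add_mul_emod_self_left, Int.emod_eq_of_lt (by omega) (by omega)] at h1
  rw [e2, Int.add_mul_emod_self_left, Int.emod_eq_of_lt (by omega) (by omega)] at h2
  constructor
  · rw [e1]
    omega
  · rw [e2]
    omega

/-- all neighbours, with additional information at the ends -/
theorem p1_nb {n M : ℕ} {c : Fin M → Fin (2 * n + 1) → Bool} {x y : Edg}
    (h : Link n M c x y ∨ Link n M c y x) :
    (y = p1U n M c x ∧ ∀ j, x ≠ Edg.v j M) ∨ (y = p1D n M c x ∧ x ≠ Edg.v (2 * n) 0) := by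
  have hd2n : (jx (2 * n) (2 * n)).val = 2 * n := by
    have := p1_jx_val (2 * n) (2 * n)
    push_cast at this
    rw [Int.emod_eq_of_lt (by omega) (by omega)] at this
    omega
  rcases h with h | h
  · rcases p1_cases h with ⟨j, t, h1, rfl, rfl⟩ | ⟨j, t, h1, rfl, rfl⟩ | ⟨j, t, h1, rfl, rfl⟩ |
      ⟨j, t, h1, rfl, rfl⟩ | ⟨k, i, hi, rfl, rfl⟩
    · left
      refine ⟨?_, fun j' h => ?_⟩
      · simp only [p1U]
        rw [dif_pos t.2, if_pos h1]
      · have := t.2
        simp only [Edg.v.injEq] at h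
        omega
    · left
      refine ⟨?_, fun j' h => ?_⟩
      · simp only [p1U]
        rw [dif_pos t.2, if_pos h1]
      · simp at h
    · left
      refine ⟨?_, fun j' h => ?_⟩
      · simp only [p1U]
        rw [dif_pos t.2, if_neg (by rw [h1]; simp)]
      · have := t.2
        simp only [Edg.v.injEq] at h
        omega
    · right
      refine ⟨?_, by simp⟩
      simp only [p1D, add_sub_cancel_right]
      rw [dif_pos t.2, if_neg (by rw [h1]; simp)]
    · right
      obtain ⟨e1, e2⟩ := p1_bot_val k hi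
      refine ⟨?_, fun h => ?_⟩
      · simp only [p1D]
        rw [e1, if_pos (by omega)]
      · simp only [Edg.v.injEq] at h
        rw [h.1, hd2n] at e1
        omega
  · rcases p1_cases h with ⟨j, t, h1, rfl, rfl⟩ | ⟨j, t, h1, rfl, rfl⟩ | ⟨j, t, h1, rfl, rfl⟩ |
      ⟨j, t, h1, rfl, rfl⟩ | ⟨k, i, hi, rfl, rfl⟩
    · right
      refine ⟨?_, by simp⟩
      simp only [p1D, add_sub_cancel_right]
      rw [dif_pos t.2, if_pos h1]
    · right
      refine ⟨?_, fun h => ?_⟩
      · simp only [p1D]
        rw [dif_pos t.2, if_pos h1]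
      · simp at h
    · left
      refine ⟨?_, by simp⟩
      simp only [p1U]
      rw [dif_pos t.2, if_neg (by rw [h1]; simp)]
    · right
      refine ⟨?_, fun h => ?_⟩
      · simp only [p1D]
        rw [dif_pos t.2, if_neg (by rw [h1]; simp)]
      · simp at h
    · right
      obtain ⟨e1, e2⟩ := p1_bot_val k hi
      refine ⟨?_, fun h => ?_⟩
      · simp only [p1D]
        rw [e2, if_neg (by omega), add_sub_cancel_right]
      · simp only [Edg.v.injEq] at h
        rw [h.1, hd2n] at e2
        omega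

theorem end_run (n M : ℕ) (c : Fin M → Fin (2 * n + 1) → Bool) (X : ℤ) :
    End n M c X ↔ X = (run (2 * n) M c (start n)).2 := by
  constructor
  · intro h
    have h1 := p1_reach h
    have h2 := p1_reach (p1_run n M c).str
    set G := SimpleGraph.fromRel (Link n M c) with hG
    have hadj : ∀ x y, G.Adj x y → Link n M c x y ∨ Link n M c y x := by
      intro x y hxy
      rw [hG, SimpleGraph.fromRel_adj] at hxy
      exact hxy.2
    have ha : ∀ y1 y2, G.Adj (Edg.v (2 * n) 0) y1 → G.Adj (Edg.v (2 * n) 0) y2 → y1 = y2 := by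
      intro y1 y2 g1 g2
      rcases p1_nb (hadj _ _ g1) with g1 | g1
      · rcases p1_nb (hadj _ _ g2) with g2 | g2
        · rw [g1.1, g2.1]
        · exact absurd rfl g2.2
      · exact absurd rfl g1.2
    have hb : ∀ j y1 y2, G.Adj (Edg.v j M) y1 → G.Adj (Edg.v j M) y2 → y1 = y2 := by
      intro j y1 y2 g1 g2
      rcases p1_nb (hadj _ _ g1) with g1 | g1
      · exact absurd rfl (g1.2 j)
      · rcases p1_nb (hadj _ _ g2) with g2 | g2
        · exact absurd rfl (g2.2 j)
        · rw [g1.1, g2.1]
    have h3 : ∀ x y1 y2 y3, G.Adj x y1 → G.Adj x y2 → G.Adj x y3 →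
        y1 = y2 ∨ y1 = y3 ∨ y2 = y3 := by
      intro x y1 y2 y3 g1 g2 g3
      rcases p1_nb (hadj _ _ g1) with g1 | g1 <;> rcases p1_nb (hadj _ _ g2) with g2 | g2 <;>
        rcases p1_nb (hadj _ _ g3) with g3 | g3 <;> simp [g1.1, g2.1, g3.1]
    rcases Nat.eq_zero_or_pos M with hM | hM
    · subst hM
      have hno : ∀ y, ¬ G.Adj (Edg.v (2 * n) 0) y := by
        intro y g
        rcases p1_nb (hadj _ _ g) with g | g
        · exact g.2 _ rfl
        · exact g.2 rfl
      obtain ⟨p⟩ := h1
      show X = 0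
      generalize hz : Edg.v (2 * n + X) 0 = z at p
      cases p with
      | nil =>
        simp only [Edg.v.injEq] at hz
        omega
      | cons g _ => exact absurd g (hno _)
    · have h4 := p1_deg h3 h1 h2 ha (hb _) (hb _)
        (by intro h; simp only [Edg.v.injEq] at h; omega)
        (by intro h; simp only [Edg.v.injEq] at h; omega)
      simp only [Edg.v.injEq] at h4
      omega
  · rintro rfl
    exact (p1_run n M c).str

end H906K
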