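import Pool.Agent.H906R3.K6.Defs2

/-!
# Blueprint: all module statements (with `sorry`).  DO NOT import this file in final proofs.
Module `K` proves its statements, under the same names, in `Pool/Agent/H906R3/K6/K.lean`,
namespace `H906K`, importing `Defs2` (which imports `Defs`) and the modules it depends on.
-/

namespace H906K
open Pool.Agent.H974R3 Polynomial MeasureTheory Filter Topology

section ring
variable {R : Type*} [CommRing R]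

/-! ## V0 (file V0.lean): expansion of the vertex transfer matrix over plaquette states -/

theorem TV_expand (m : ℕ) (q x : R) (hq : q ^ 2 + q + 1 = 0) (ζ : Rˣ) :
    TV m q x ζ = ∑ c : Fin (m + 1) → Bool, (∏ j, wt q (c j) x) • TVc m c q ζ := sorry

/-! ## V1 (file V1.lean): commutation -/

theorem TV_comm (m : ℕ) (q x y : ℂ) (hq : q ^ 2 + q + 1 = 0) (ζ : ℂˣ) :
    TV m q x ζ * TV m q y ζ = TV m q y ζ * TV m q x ζ := sorry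

/-! ## V2 (file V2.lean): fusion of two -/

theorem fus2 (m : ℕ) (q z : R) (hq : q ^ 2 + q + 1 = 0) (ζ : Rˣ) :
    ∃ T2 : Matrix (Fin (m + 1) → Bool) (Fin (m + 1) → Bool) R,
      TV m q (q * z) ζ * TV m q (q ^ 2 * z) ζ
        = ((1 + q * z) * (1 + q ^ 2 * z)) ^ (m + 1) • (1 : Matrix _ _ R)
          + (1 + z) ^ (m + 1) • T2 := sorry

/-! ## V3 (file V3.lean): fusion of three -/

theorem fus3 (m : ℕ) (q z : R) (hq : q ^ 2 + q + 1 = 0) (ζ : Rˣ) :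
    TV m q (q * z) ζ * TV m q (q ^ 2 * z) ζ * TV m q z ζ
      = ((1 + q * z) * (1 + q ^ 2 * z)) ^ (m + 1) • TV m q z ζ
        + ((1 + q ^ 2 * z) * (1 + z)) ^ (m + 1) • TV m q (q * z) ζ
        + ((1 + z) * (1 + q * z)) ^ (m + 1) • TV m q (q ^ 2 * z) ζ
        + ((-(1 + z ^ 3)) ^ (m + 1) * (((ζ ^ (3 * (m + 1)) : Rˣ) : R)
            + (((ζ⁻¹) ^ (3 * (m + 1)) : Rˣ) : R))) • (1 : Matrix _ _ R) := sorry

/-! ## V4 (file V4.lean): the values at `x = 0` and the leading coefficient in `x` -/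

theorem TV_zero (n : ℕ) (q : R) (hq : q ^ 2 + q + 1 = 0) (ζ : Rˣ)
    (t s : Fin (2 * n + 1) → Bool) (hs : spin s = 1) :
    TV (2 * n) q 0 ζ t s = if t = s then -q ^ 2 * ((ζ ^ (2 * n + 1) : Rˣ) : R)
      - q * (((ζ⁻¹) ^ (2 * n + 1) : Rˣ) : R) else 0 := sorry

theorem TV_deg (m : ℕ) (q : R) (ζ : Rˣ) (t s : Fin (m + 1) → Bool) :
    (TV m (C q) (X : R[X]) (Units.map (C : R →+* R[X]).toMonoidHom ζ) t s).natDegree ≤ m + 1 := sorry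

theorem TV_top (n : ℕ) (q : R) (hq : q ^ 2 + q + 1 = 0) (ζ : Rˣ)
    (t s : Fin (2 * n + 1) → Bool) (hs : spin s = 1) :
    (TV (2 * n) (C q) (X : R[X]) (Units.map (C : R →+* R[X]).toMonoidHom ζ) t s).coeff (2 * n + 1)
      = if t = s then -q * ((ζ ^ (2 * n + 1) : Rˣ) : R)
      - q ^ 2 * (((ζ⁻¹) ^ (2 * n + 1) : Rˣ) : R) else 0 := sorry

/-! ## L1 (file L1.lean): the map `Th` intertwines the Temperley-Lieb generators -/

theorem eV_Th {m : ℕ} (hm : 2 ≤ m) (i : ℕ) (q : R) (hq : q ^ 2 + q + 1 = 0) (ζ : Rˣ)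
    (t : Fin (m + 1) → Bool) (σ : Pat (m + 1)) :
    (eV m i q ζ * Th m q ζ) t σ = ((ζ ^ dE m i σ : Rˣ) : R) * Th m q ζ t (E m i σ) := sorry

/-! ## L2 (file L2.lean): rotations, spin of the image, sum over spins -/

theorem Th_spin {m : ℕ} (q : R) (ζ : Rˣ) (s : Fin (m + 1) → Bool) (σ : Pat (m + 1))
    (h : spin s ≠ 1) : Th m q ζ s σ = 0 := sorry
theorem rotM_Th (m : ℕ) (q : R) (ζ : Rˣ) (t : Fin (m + 1) → Bool) (σ : Pat (m + 1)) :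
    (rotM m ζ * Th m q ζ) t σ = (ζ : R) * Th m q ζ t (rot m σ) := sorry
theorem rotMi_Th (m : ℕ) (q : R) (ζ : Rˣ) (t : Fin (m + 1) → Bool) (σ : Pat (m + 1)) :
    (rotMi m ζ * Th m q ζ) t σ = ((ζ⁻¹ : Rˣ) : R) * Th m q ζ t (rotInv m σ) := sorry

/-! ## L2b (file L2b.lean) -/

theorem Th_sum (n : ℕ) (q : R) (σ : Pat (2 * n + 1)) :
    ∑ s, Th (2 * n) q 1 s σ = (1 - q ^ 2) ^ n := sorry

/-! ## L3 (file L3.lean): a row of tiles = rotation times a word in the generators -/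

theorem TVc_word (m : ℕ) (c : Fin (m + 1) → Bool) (k : ℕ) (hk : c (ix m k) = false) (q : R)
    (hq : q ^ 2 + q + 1 = 0) (ζ : Rˣ) :
    TVc m c q ζ = rotM m ζ * wordM m c q ζ k m := sorry
theorem TVc_true (m : ℕ) (c : Fin (m + 1) → Bool) (h : ∀ k, c k = true) (q : R)
    (hq : q ^ 2 + q + 1 = 0) (ζ : Rˣ) : TVc m c q ζ = rotMi m ζ := sorry

/-! ## L4 (file L4.lean, imports V0 L1 L2 L3): the intertwining relation -/

theorem TVc_Th (n : ℕ) (c : Fin (2 * n + 1) → Bool) (q : R) (hq : q ^ 2 + q + 1 = 0) (ζ : Rˣ)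
    (t : Fin (2 * n + 1) → Bool) (σ : Pat (2 * n + 1)) :
    (TVc (2 * n) c q ζ * Th (2 * n) q ζ) t σ
      = ((ζ ^ dTc (2 * n) c σ : Rˣ) : R) * Th (2 * n) q ζ t (Tc (2 * n) c σ) := sorry
theorem TV_Th (n : ℕ) (q x : R) (hq : q ^ 2 + q + 1 = 0) (ζ : Rˣ) :
    TV (2 * n) q x ζ * Th (2 * n) q ζ = Th (2 * n) q ζ * TL (2 * n) q x ζ := sorry

end ring

/-! ## L6 (file L6.lean): `Th` is injective for a large twist -/

theorem Th_inj (n : ℕ) (q : ℂ) (hq : q ^ 2 + q + 1 = 0) : ∃ R0 : ℝ, ∀ ζ : ℂˣ, R0 < ‖(ζ : ℂ)‖ →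
    ∀ f : Pat (2 * n + 1) → ℂ, (Th (2 * n) q ζ).mulVec f = 0 → f = 0 := sorry

/-! ## L7 (file L7.lean, imports V1 L4 L6): the transfer matrices on patterns commute -/

theorem TL_comm (n : ℕ) (q x y : ℂ) (hq : q ^ 2 + q + 1 = 0) (ζ : ℂˣ) :
    TL (2 * n) q x ζ * TL (2 * n) q y ζ = TL (2 * n) q y ζ * TL (2 * n) q x ζ := sorry

/-! ## L8 (file L8.lean, imports L7): the same over `ℂ⟦ε⟧[x]` -/

theorem TL_comm_X (n : ℕ) :
    TL (2 * n) (C (PowerSeries.C om)) (X : (PowerSeries ℂ)[X]) ezX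
        * TL (2 * n) (C (PowerSeries.C om)) 1 ezX
      = TL (2 * n) (C (PowerSeries.C om)) 1 ezX
        * TL (2 * n) (C (PowerSeries.C om)) (X : (PowerSeries ℂ)[X]) ezX := sorry

/-! ## E1 (file E1.lean): formal perturbation of a simple eigenvalue -/

theorem eig {ι : Type*} [Fintype ι] [DecidableEq ι] [Nonempty ι]
    (A : Matrix ι ι (PowerSeries ℂ)) (l0 : ℂ)
    (h1 : ∀ j, ∑ i, PowerSeries.coeff 0 (A i j) = l0)
    (h2 : ∀ u : ι → ℂ, (∀ i, ∑ j, PowerSeries.coeff 0 (A i j) * u j = l0 * u i) →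
      ∑ i, u i = 0 → u = 0) :
    ∃ (v : ι → PowerSeries ℂ) (L : PowerSeries ℂ), ∑ i, v i = 1 ∧ A.mulVec v = L • v ∧
      PowerSeries.coeff 0 L = l0 ∧
      (∀ u : ι → PowerSeries ℂ, A.mulVec u = L • u → ∑ i, u i = 0 → u = 0) := sorry

/-! ## E1b (file E1b.lean, imports E1): the left eigenvector -/

theorem eig_left {ι : Type*} [Fintype ι] [DecidableEq ι] [Nonempty ι]
    (A : Matrix ι ι (PowerSeries ℂ)) (l0 : ℂ)
    (h1 : ∀ j, ∑ i, PowerSeries.coeff 0 (A i j) = l0)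
    (h2 : ∀ u : ι → ℂ, (∀ i, ∑ j, PowerSeries.coeff 0 (A i j) * u j = l0 * u i) →
      ∑ i, u i = 0 → u = 0)
    (v : ι → PowerSeries ℂ) (L : PowerSeries ℂ) (hv : ∑ i, v i = 1) (hL : A.mulVec v = L • v) :
    ∃ w : ι → PowerSeries ℂ, (∀ i, PowerSeries.coeff 0 (w i) = 1) ∧ A.vecMul w = L • w := sorry

/-! ## E2 (file E2.lean, imports E1 E1b L8, H974R3.Markov): the eigenvalue `t(x)` -/

theorem exists_t (n : ℕ) : ∃ (v : Pat (2 * n + 1) → PowerSeries ℂ) (t : (PowerSeries ℂ)[X]),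
    ∑ σ, v σ = 1 ∧ t.natDegree ≤ 2 * n + 1 ∧
    (TL (2 * n) (C (PowerSeries.C om)) (X : (PowerSeries ℂ)[X]) ezX).mulVec (fun σ => C (v σ))
      = t • (fun σ => C (v σ)) ∧
    ∃ w : Pat (2 * n + 1) → PowerSeries ℂ, (∀ σ, PowerSeries.coeff 0 (w σ) = 1) ∧
      (TL (2 * n) (PowerSeries.C om) 1 ez).vecMul w = (t.eval 1) • w := sorry

/-! ## E3 (file E3.lean, imports V2 V3 V4 L2 L2b L4; TSpec is declared in Defs2) -/

theorem tspec (n : ℕ) (v : Pat (2 * n + 1) → PowerSeries ℂ) (t : (PowerSeries ℂ)[X])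
    (hv : ∑ σ, v σ = 1) (hd : t.natDegree ≤ 2 * n + 1)
    (ht : (TL (2 * n) (C (PowerSeries.C om)) (X : (PowerSeries ℂ)[X]) ezX).mulVec
      (fun σ => C (v σ)) = t • (fun σ => C (v σ))) : TSpec n t := sorry

/-! ## E4 (file E4.lean): extraction of the coefficients -/

theorem pert_of_tspec (n : ℕ) (t : (PowerSeries ℂ)[X]) (h : TSpec n t) :
    ∃ t1 t2 : ℂ[X], Pert n t1 t2 ∧
      PowerSeries.coeff 1 (t.eval 1) = (2 * n + 1) * t1.eval 1 ∧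
      PowerSeries.coeff 2 (t.eval 1) = (2 * n + 1) ^ 2 * t2.eval 1 := sorry

/-! ## P1 (file P1.lean): strands and patterns -/

theorem end_run (n M : ℕ) (c : Fin M → Fin (2 * n + 1) → Bool) (X : ℤ) :
    End n M c X ↔ X = (run (2 * n) M c (start n)).2 := sorry

/-! ## P2 (file P2.lean, imports P1): limit of the variance -/

theorem var_limit (n : ℕ) (L : PowerSeries ℂ) (w : Pat (2 * n + 1) → PowerSeries ℂ)
    (hw : ∀ σ, PowerSeries.coeff 0 (w σ) = 1)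
    (h : (TL (2 * n) (PowerSeries.C om) 1 ez).vecMul w = L • w)
    (h1 : (PowerSeries.coeff 1 L).im = 0) :
    PowerSeries.coeff 1 L = 0 ∧ Tendsto (fun M : ℕ => VarX n M / M) atTop
      (𝓝 (-(2 * (PowerSeries.coeff 2 L).re / 2 ^ (2 * n + 1)))) := sorry

/-! ## U1 (file U1.lean) -/

theorem rootMult_lt (F : ℂ[X]) (hF : F ≠ 0) (r : ℂ) (hr : r ≠ 0) :
    F.rootMultiplicity r < F.support.card := sorry

/-! ## U2 (file U2.lean): rotation of the ray of integration -/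

theorem rot_int (f : ℂ → ℂ) (K : ℝ)
    (hf : ∀ r θ : ℝ, 0 < r → 2 * Real.pi / 3 ≤ θ → θ ≤ Real.pi →
      DifferentiableAt ℂ f (r * Complex.exp (θ * Complex.I)) ∧
      ‖f (r * Complex.exp (θ * Complex.I))‖ ≤ K / (1 + r ^ 2)) :
    ∫ r in Set.Ioi (0 : ℝ), f (r * om) * om = -∫ r in Set.Ioi (0 : ℝ), f (-(r : ℂ)) := sorry

/-! ## U3 (file U3.lean, imports U1 U2): location of zeros -/

theorem F_roots (n : ℕ) (F : ℝ[X]) (hF : F ≠ 0)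
    (hs : ∀ k, F.coeff k ≠ 0 → k ≤ 3 * n + 1 ∧ k % 3 ≠ 2) (hd : (X + 1) ^ (2 * n + 1) ∣ F) :
    F.coeff 0 ≠ 0 ∧ F.natDegree = 3 * n + 1 ∧
    ∀ z : ℂ, (F.map (algebraMap ℝ ℂ)).eval z = 0 → z = -1 ∨ ∃ r : ℝ, 0 < r ∧ z = r := sorry

/-! ## U3b (file U3b.lean, imports U1 U2): location of zeros -/

theorem G_roots (n : ℕ) (G : ℝ[X]) (hG : G ≠ 0)
    (hs : ∀ k, G.coeff k ≠ 0 → k ≤ 3 * n + 2 ∧ k % 3 ≠ 1) (hd : (X + 1) ^ (2 * n + 1) ∣ G) :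
    G.coeff 0 ≠ 0 ∧ G.natDegree = 3 * n + 2 ∧
    ∀ z : ℂ, (G.map (algebraMap ℝ ℂ)).eval z = 0 → z = -1 ∨ ∃ r : ℝ, 0 < r ∧ z = r := sorry

/-! ## U4 (file U4.lean): factorisation of the quadratic form -/

theorem factor (N : ℕ) (hN : 1 ≤ N) (t1 : ℂ[X]) (deg1 : t1.natDegree ≤ N)
    (bot1 : t1.coeff 0 = -(Real.sqrt 3 : ℂ)) (top1 : t1.coeff N = (Real.sqrt 3 : ℂ))
    (e2 : ∀ x : ℂ,
      t1.eval x * t1.eval (om * x) * (1 + om ^ 2 * x) ^ N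
      + t1.eval (om * x) * t1.eval (om ^ 2 * x) * (1 + x) ^ N
      + t1.eval (om ^ 2 * x) * t1.eval x * (1 + om * x) ^ N
      = 9 * (1 + x ^ 3) ^ N) :
    ∃ u v g h : ℂ[X], IsCoprime u v ∧ g * u - X * h * v = (1 + X) ^ N ∧
      u.coeff 0 * g.coeff 0 = 1 ∧
      v ≠ 0 ∧ h ≠ 0 ∧ v.natDegree + h.natDegree = N - 1 ∧ u.natDegree ≤ v.natDegree ∧
      g.natDegree ≤ h.natDegree ∧
      ∀ x : ℂ, (t1.eval (om * x) * (1 + om ^ 2 * x) ^ N + t1.eval (om ^ 2 * x) * (1 + om * x) ^ N)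
          * (1 + x) ^ N
        = -2 * (Real.sqrt 3 : ℂ) * (u.eval (x ^ 3) + x * v.eval (x ^ 3))
            * (g.eval (x ^ 3) + x ^ 2 * h.eval (x ^ 3)) := sorry

/-! ## U5 (file U5.lean, imports U1): the degrees are balanced -/

theorem balanced (n : ℕ) (u v g h : ℂ[X]) (hco : IsCoprime u v)
    (hw : g * u - X * h * v = (1 + X) ^ (2 * n + 1)) (hv : v ≠ 0) (hh : h ≠ 0)
    (hdeg : v.natDegree + h.natDegree = 2 * n) (hu : u.natDegree ≤ v.natDegree)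
    (hg : g.natDegree ≤ h.natDegree)
    (hd : (X + 1 : ℂ[X]) ^ (2 * (2 * n + 1)) ∣ (u.comp (X ^ 3) + X * v.comp (X ^ 3))
      * (g.comp (X ^ 3) + X ^ 2 * h.comp (X ^ 3))) :
    v.natDegree = n ∧ h.natDegree = n ∧
    (X + 1 : ℂ[X]) ^ (2 * n + 1) ∣ u.comp (X ^ 3) + X * v.comp (X ^ 3) ∧
    (X + 1 : ℂ[X]) ^ (2 * n + 1) ∣ g.comp (X ^ 3) + X ^ 2 * h.comp (X ^ 3) := sorry

/-! ## U6 (file U6.lean, imports U3 U3b U4 U5) -/

theorem pert_roots (n : ℕ) (t1 t2 : ℂ[X]) (h : Pert n t1 t2) :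
    (∀ k, (t1.coeff k).im = 0) ∧
    ∃ V : ℝ[X], V.natDegree = 2 * n + 1 ∧ V.coeff 0 < 0 ∧
      (∀ x : ℂ, t1.eval (om * x) * (1 + om ^ 2 * x) ^ (2 * n + 1)
        + t1.eval (om ^ 2 * x) * (1 + om * x) ^ (2 * n + 1)
        = (1 + x) ^ (2 * n + 1) * (V.map (algebraMap ℝ ℂ)).eval x) ∧
      ∀ z : ℂ, (V.map (algebraMap ℝ ℂ)).eval z = 0 → ∃ r : ℝ, 0 < r ∧ z = r := sorry

/-! ## A1 (file A1.lean): representation of bounded analytic functions in the strip -/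

theorem strip_rep (f : ℂ → ℂ) (K : ℝ)
    (hf : ∀ z : ℂ, |z.im| ≤ Real.pi / 3 → DifferentiableAt ℂ f z)
    (hb : ∀ z : ℂ, |z.im| ≤ Real.pi / 3 → ‖f z‖ ≤ K) (l : ℝ) :
    f l = ∫ u : ℝ, (kk (l - u) : ℂ) * (f (u + Real.pi / 3 * Complex.I)
      + f (u - Real.pi / 3 * Complex.I)) := sorry

/-! ## A2 (file A2.lean): facts on the kernel -/

theorem kk_pos (l : ℝ) : 0 < kk l := sorry
theorem kk_even (l : ℝ) : kk (-l) = kk l := sorry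
theorem kk_cont : Continuous kk := sorry
theorem kk_integrable : Integrable kk := sorry
theorem kk_integral : ∫ u : ℝ, kk u = 1 / 2 := sorry
theorem kk_le (l : ℝ) : kk l ≤ 3 / (2 * Real.pi) * Real.exp (-(3 * |l| / 2)) := sorry
/-- sup norm bound -/
theorem kk_conv_le (f : ℝ → ℝ) (K : ℝ) (hf : Continuous f) (hK : ∀ u, |f u| ≤ K) (l : ℝ) :
    |∫ u : ℝ, kk (l - u) * f u| ≤ K / 2 := sorry
/-- differentiation of the convolution -/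
theorem kk_conv_nice (f : ℝ → ℝ) (K : ℝ) (hf : Nice f) (hK : ∀ u, |f u| ≤ K) :
    Nice (fun l => ∫ u : ℝ, kk (l - u) * f u) ∧
    ∀ l, deriv (fun l => ∫ u : ℝ, kk (l - u) * f u) l = ∫ u : ℝ, kk (l - u) * deriv f u := sorry
/-- the derivative of the convolution is bounded by the sup norm -/
theorem kk_conv_deriv_le (f : ℝ → ℝ) (K : ℝ) (hf : Nice f) (hK : ∀ u, |f u| ≤ K) (l : ℝ) :
    |deriv (fun l => ∫ u : ℝ, kk (l - u) * f u) l| ≤ K := sorry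
theorem kk_conv_top (f : ℝ → ℝ) (K c : ℝ) (hf : Continuous f) (hK : ∀ u, |f u| ≤ K)
    (hc : Tendsto f atTop (𝓝 c)) :
    Tendsto (fun l => ∫ u : ℝ, kk (l - u) * f u) atTop (𝓝 (c / 2)) := sorry

/-! ## A3 (file A3.lean, imports A2): a priori bounds -/

theorem sys_bounds {N : ℕ} (hN : 1 ≤ N) {X Y B : ℝ → ℝ} (h : Sys N X Y B) :
    (∀ l, |X l| ≤ Real.sqrt 3) ∧ (∀ l, |Y l| ≤ 6) ∧ (∀ l, |B l| ≤ Real.sqrt 3) ∧
    (∀ l, |A1 N X l| ≤ 2 * Real.sqrt 3 * |Real.tanh (3 * l / 4)| ^ N) ∧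
    (∀ l, |A2 N X B l| ≤ 12 * |Real.tanh (3 * l / 4)| ^ N) ∧
    (∀ l, |G1 X Y l| ≤ 4) ∧ (∀ l, 0 ≤ G0 X l ∧ G0 X l ≤ 3) := sorry

/-! ## A4 (file A4.lean, imports A2 A3): regularity and bounds of the derivatives -/

theorem sys_nice {N : ℕ} (hN : 1 ≤ N) {X Y B : ℝ → ℝ} (h : Sys N X Y B) :
    Nice (G0 X) ∧ Nice (G1 X Y) ∧ Nice (be0 X) ∧ Nice (A1 N X) ∧ Nice (A2 N X B) := sorry

theorem sys_deriv : ∃ K : ℝ, 0 < K ∧ ∀ (N : ℕ) (X Y B : ℝ → ℝ), 1 ≤ N → Sys N X Y B →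
    (∀ l, |deriv (G0 X) l| ≤ K) ∧ (∀ l, |deriv (G1 X Y) l| ≤ K) ∧
    (∀ l, |deriv (A1 N X) l| ≤ K * (|Real.tanh (3 * l / 4)| ^ N
      + N * |Real.tanh (3 * l / 4)| ^ (N - 1) / Real.cosh (3 * l / 4) ^ 2)) ∧
    (∀ l, |deriv (A2 N X B) l| ≤ K * (|Real.tanh (3 * l / 4)| ^ N
      + N * |Real.tanh (3 * l / 4)| ^ (N - 1) / Real.cosh (3 * l / 4) ^ 2)) := sorry

/-! ## A5 (file A5.lean, imports A2): the cross term -/

theorem Del_le (f g : ℝ → ℝ) (Kf Kg Kg' : ℝ) (hf : Nice f) (hg : Nice g)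
    (hKf : ∀ l, |f l| ≤ Kf) (hKg : ∀ l, |g l| ≤ Kg) (hKg' : ∀ l, |deriv g l| ≤ Kg') :
    |Del f g| ≤ ∫ l : ℝ, (|f l| * Kg' + |deriv f l| * Kg) * Real.exp (-(3 * |l| / 2)) := sorry

/-! ## A6 (file A6.lean): decay integrals -/

theorem dec_int : ∃ K : ℝ, 0 < K ∧ ∀ N : ℕ, 2 ≤ N →
    (∫ l : ℝ, |Real.tanh (3 * l / 4)| ^ N * Real.exp (-(3 * |l| / 2))) ≤ K / N ∧
    (∫ l : ℝ, N * |Real.tanh (3 * l / 4)| ^ (N - 1) / Real.cosh (3 * l / 4) ^ 2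
      * Real.exp (-(3 * |l| / 2))) ≤ K / N ∧
    (∫ l in Set.Ioi (0 : ℝ), Real.tanh (3 * l / 4) ^ N * (3 / 2 * N / Real.sinh (3 * l / 2))
      * (1 - Real.tanh (3 * l / 2))) ≤ K / N := sorry

/-! ## A7 (file A7.lean, imports A2 A3 A4 A5): the identity -/

theorem half_identity {N : ℕ} (hN : 2 ≤ N) {X Y B : ℝ → ℝ} (h : Sys N X Y B) :
    IntegrableOn (fun l => A2 N X B l * (3 / 2 * N / Real.sinh (3 * l / 2))) (Set.Ioi 0) ∧
    2 * ∫ l in Set.Ioi (0 : ℝ), A2 N X B l * (3 / 2 * N / Real.sinh (3 * l / 2))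
      = -3 - (G0 X 0 * Y 0 + X 0 ^ 2 - G1 X Y 0 * X 0)
        - Del (A1 N X) (G1 X Y) - Del (A2 N X B) (G0 X) := sorry

/-! ## A8 (file A8.lean, imports all A): the asymptotics -/

theorem half_asymp : ∃ K : ℝ, ∀ (n : ℕ) (X Y B : ℝ → ℝ), 1 ≤ n → Sys (2 * n + 1) X Y B →
    |(2 * n + 1 : ℝ) * (∫ l in Set.Ioi (0 : ℝ), kk l * A2 (2 * n + 1) X B l)
      + 3 / (4 * Real.pi)| ≤ K / (2 * n + 1) := sorry

/-! ## A9 (file A9.lean, imports A8): reflection and sum of the two halves -/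

theorem sys_reflect {n : ℕ} {X Y B : ℝ → ℝ} (h : Sys (2 * n + 1) X Y B) :
    Sys (2 * n + 1) (fun l => -X (-l)) (fun l => Y (-l)) (fun l => -B (-l)) := sorry

theorem sys_asymp : ∃ K : ℝ, ∀ (n : ℕ) (X Y B : ℝ → ℝ), 1 ≤ n → Sys (2 * n + 1) X Y B →
    |(2 * n + 1 : ℝ) * Y 0 + 3 / (2 * Real.pi)| ≤ K / (2 * n + 1) := sorry

/-! ## G1 (file G1.lean): real functions from the perturbation data -/

theorem rpert_of_pert (n : ℕ) (t1 t2 : ℂ[X]) (h : Pert n t1 t2) :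
    ∃ s1 s2 V1 V2 : ℝ[X], RPert n s1 s2 V1 V2 ∧ t1 = s1.map (algebraMap ℝ ℂ) ∧
      ∀ k, s2.coeff k = (t2.coeff k).re := sorry

/-! ## G2 (file G2.lean, imports Defs2): functional relations -/

theorem rel_one {n : ℕ} {t1 t2 V1 V2 : ℝ[X]} (h : RPert n t1 t2 V1 V2) (z : ℂ)
    (hz : |z.im| ≤ Real.pi / 3) :
    Xc n t1 (z + Real.pi / 3 * Complex.I) + Xc n t1 (z - Real.pi / 3 * Complex.I)
      = hc n V1 z * (Complex.tanh (3 * z / 4)) ^ (2 * n + 1) := sorry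
theorem rel_prod {n : ℕ} {t1 t2 V1 V2 : ℝ[X]} (h : RPert n t1 t2 V1 V2) (z : ℂ)
    (hz : |z.im| < Real.pi / 3) :
    hc n V1 (z + Real.pi / 3 * Complex.I) * hc n V1 (z - Real.pi / 3 * Complex.I)
      = 9 + Xc n t1 z ^ 2 := sorry
theorem rel_two {n : ℕ} {t1 t2 V1 V2 : ℝ[X]} (h : RPert n t1 t2 V1 V2) (u : ℝ) :
    Xc n t2 (u + Real.pi / 3 * Complex.I) + Xc n t2 (u - Real.pi / 3 * Complex.I)
      + Xc n t1 (u + Real.pi / 3 * Complex.I) * Xc n t1 (u - Real.pi / 3 * Complex.I)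
      = Bc V1 V2 u * (Xc n t1 (u + Real.pi / 3 * Complex.I)
        + Xc n t1 (u - Real.pi / 3 * Complex.I)) := sorry
theorem rel_B {n : ℕ} {t1 t2 V1 V2 : ℝ[X]} (h : RPert n t1 t2 V1 V2) (u : ℝ) :
    (Bc V1 V2 (u + Real.pi / 3 * Complex.I) + Bc V1 V2 (u - Real.pi / 3 * Complex.I))
      * (9 + Xc n t1 u ^ 2) = 2 * Xc n t1 u * (Xc n t2 u + 9 / 2) := sorry

/-! ## G3 (file G3.lean, imports Defs2): analyticity, bounds, reality, limits -/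

theorem Xc_an (n : ℕ) (t : ℝ[X]) (ht : t.natDegree ≤ 2 * n + 1) :
    (∀ z : ℂ, |z.im| ≤ 2 * Real.pi / 3 → DifferentiableAt ℂ (Xc n t) z) ∧
    (∃ K : ℝ, ∀ z : ℂ, |z.im| ≤ 2 * Real.pi / 3 → ‖Xc n t z‖ ≤ K) ∧
    (∀ u : ℝ, (Xc n t u).im = 0) ∧ Nice (fun u : ℝ => (Xc n t u).re) ∧
    Tendsto (fun u : ℝ => (Xc n t u).re) atTop (𝓝 (t.coeff (2 * n + 1))) ∧
    Tendsto (fun u : ℝ => (Xc n t u).re) atBot (𝓝 (t.coeff 0)) := sorry
theorem Bc_an {n : ℕ} {t1 t2 V1 V2 : ℝ[X]} (h : RPert n t1 t2 V1 V2) :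
    (∀ z : ℂ, |z.im| ≤ Real.pi / 3 → DifferentiableAt ℂ (Bc V1 V2) z) ∧
    (∃ K : ℝ, ∀ z : ℂ, |z.im| ≤ Real.pi / 3 → ‖Bc V1 V2 z‖ ≤ K) ∧
    (∀ u : ℝ, (Bc V1 V2 u).im = 0) ∧ Nice (fun u : ℝ => (Bc V1 V2 u).re) ∧
    Tendsto (fun u : ℝ => (Bc V1 V2 u).re) atTop (𝓝 (1 / Real.sqrt 3)) ∧
    Tendsto (fun u : ℝ => (Bc V1 V2 u).re) atBot (𝓝 (-(1 / Real.sqrt 3))) := sorry
theorem hc_an {n : ℕ} {t1 t2 V1 V2 : ℝ[X]} (h : RPert n t1 t2 V1 V2) :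
    (∀ z : ℂ, |z.im| ≤ 2 * Real.pi / 5 → DifferentiableAt ℂ (hc n V1) z ∧ hc n V1 z ≠ 0) ∧
    (∃ K : ℝ, ∀ z : ℂ, |z.im| ≤ Real.pi / 3 → ‖deriv (hc n V1) z / hc n V1 z‖ ≤ K) ∧
    (∀ u : ℝ, (hc n V1 u).im = 0 ∧ 0 < (hc n V1 u).re) ∧
    Tendsto (fun u : ℝ => (hc n V1 u).re) atTop (𝓝 (2 * Real.sqrt 3)) := sorry

/-! ## G4 (file G4.lean, imports A1 A2 G2 G3): the logarithmic representation -/

theorem log_rep {n : ℕ} {t1 t2 V1 V2 : ℝ[X]} (h : RPert n t1 t2 V1 V2) (u : ℝ) :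
    (hc n V1 u).re = Real.exp (be0 (fun u => (Xc n t1 u).re) u) := sorry

/-! ## G5 (file G5.lean, imports G1 .. G4): the system -/

theorem sys_of_rpert {n : ℕ} {t1 t2 V1 V2 : ℝ[X]} (h : RPert n t1 t2 V1 V2) :
    Sys (2 * n + 1) (fun u => (Xc n t1 u).re)
      (fun u => (Xc n t2 u).re - (Xc n t1 u).re ^ 2 / 2) (fun u => (Bc V1 V2 u).re) := sorry

/-! ## FIN (file Final.lean): the theorem -/

theorem result :
    (∀ (n M : ℕ) (c : Fin M → Fin (2 * n + 1) → Bool), ∃! X : ℤ, End n M c X) ∧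
    ∃ D : ℕ → ℝ, (∀ n, Tendsto (fun M : ℕ => VarX n M / M) atTop (𝓝 (D n))) ∧
      Tendsto (fun n : ℕ => 2 * Real.pi * D n / (2 * n + 1)) atTop (𝓝 6) := sorry

end H906K
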